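import Mathlib
import Pool.Agent.Lib.SymZF.HSInf

/-!
# Symmetric systems with names hereditarily of size `< κ`

Port of `Pool.Agent.Lib.SymZF` (helper50): the same development for the hereditarily symmetric
names which are hereditarily of size `< κ`, `κ` inaccessible and larger than the algebra.
-/

set_option autoImplicit false

open Set

namespace Pool.Agent.Lib.KZF

open Pool.Agent.Lib.SymZF Pool.Agent.Lib.SymZF.SymSys Name

/-- The name is hereditarily of size `< κ`. -/
def Sm (κ : Cardinal.{0}) {B : Type} : Name B → Prop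
  | .mk ι f _ => Cardinal.mk ι < κ ∧ ∀ i, Sm κ (f i)

/-- A symmetric system with an inaccessible cardinal above the algebra. -/
structure KSys extends SymSys where
  /-- the bound for the names -/
  κ : Cardinal.{0}
  inacc : κ.IsInaccessible
  hB : Cardinal.mk B < κ

lemma Sm.act {S : SymSys} {κ : Cardinal.{0}} {x : Name S.B} (h : Sm κ x) (g : S.G) :
    Sm κ (S.act g x) := by
  induction x with
  | mk ι f b ih => exact ⟨h.1, fun i => ih i (h.2 i)⟩

namespace KSys

variable (S : KSys)

/-- The hereditarily symmetric names of hereditary size `< κ`, as a type. -/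
@[ext] structure HSet : Type 1 where
  /-- the underlying name -/
  val : Name S.B
  /-- it is hereditarily symmetric -/
  prop : S.HS val
  /-- it is hereditarily small -/
  sm : Sm S.κ val

variable {S}

/-- The action on hereditarily symmetric names. -/
def HSet.smul (g : S.G) (x : S.HSet) : S.HSet := ⟨S.act g x.1, x.2.act g, x.3.act g⟩

@[simp] lemma HSet.smul_val (g : S.G) (x : S.HSet) : (x.smul g).1 = S.act g x.1 := rfl

@[simp] lemma HSet.smul_inv_smul (g : S.G) (x : S.HSet) : (x.smul g).smul g⁻¹ = x := by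
  apply HSet.ext; simp

@[simp] lemma HSet.smul_smul_inv (g : S.G) (x : S.HSet) : (x.smul g⁻¹).smul g = x := by
  apply HSet.ext; simp

/-- The action as an equivalence. -/
def HSet.smulEquiv (g : S.G) : S.HSet ≃ S.HSet where
  toFun := HSet.smul g
  invFun := HSet.smul g⁻¹
  left_inv x := by simp
  right_inv x := by simp

/-- Boolean value of a formula in the hereditarily symmetric names. -/
noncomputable def bval : Fml → (ℕ → S.HSet) → S.B
  | .bot, _ => ⊥
  | .mem i j, v => bmem (v i).1 (v j).1
  | .eq i j, v => beq (v i).1 (v j).1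
  | .imp φ ψ, v => bval φ v ⇨ bval ψ v
  | .all φ, v => ⨅ x : S.HSet, bval φ (scons x v)

lemma bval_act (g : S.G) (φ : Fml) (v : ℕ → S.HSet) :
    bval φ (fun i => (v i).smul g) = S.α g (bval φ v) := by
  induction φ generalizing v with
  | bot => simp [bval]
  | mem i j => simp [bval, bmem_act]
  | eq i j => simp [bval, beq_act]
  | imp φ ψ ih1 ih2 => simp only [bval, α_himp, ih1, ih2]
  | all φ ih =>
    simp only [bval]
    rw [OrderIso.map_iInf]
    rw [← (HSet.smulEquiv g).iInf_comp]
    refine iInf_congr fun x => ?_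
    rw [← ih, scons_comp]
    rfl

/-- Infimum of the values of equality of two assignments. -/
noncomputable def beqs (v w : ℕ → S.HSet) : S.B := ⨅ i, beq (v i).1 (w i).1

lemma beqs_le (v w : ℕ → S.HSet) (i : ℕ) : beqs v w ≤ beq (v i).1 (w i).1 :=
  iInf_le (fun i => beq (v i).1 (w i).1) i

lemma beqs_symm (v w : ℕ → S.HSet) : beqs v w = beqs w v := by
  unfold beqs
  refine iInf_congr fun i => ?_
  exact beq_symm _ _

lemma beqs_scons (x : S.HSet) (v w : ℕ → S.HSet) : beqs v w ≤ beqs (scons x v) (scons x w) := by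
  refine le_iInf fun i => ?_
  cases i with
  | zero => simp [scons]
  | succ n => exact iInf_le _ n

lemma beqs_scons_left (x y : S.HSet) (v : ℕ → S.HSet) :
    beqs (scons x v) (scons y v) = beq x.1 y.1 := by
  apply le_antisymm
  · exact beqs_le _ _ 0
  · refine le_iInf fun i => ?_
    cases i with
    | zero => simp [scons]
    | succ n => simp [scons]

lemma bval_congr (φ : Fml) (v w : ℕ → S.HSet) : beqs v w ⊓ bval φ v ≤ bval φ w := by
  induction φ generalizing v w with
  | bot => simp [bval]
  | mem i j =>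
    simp only [bval]
    calc beqs v w ⊓ bmem (v i).1 (v j).1
        ≤ beq (v j).1 (w j).1 ⊓ (beq (v i).1 (w i).1 ⊓ bmem (v i).1 (v j).1) := by
          refine le_inf (inf_le_left.trans (iInf_le _ j)) (inf_le_inf_right _ (iInf_le _ i))
      _ ≤ beq (v j).1 (w j).1 ⊓ bmem (w i).1 (v j).1 := inf_le_inf_left _ (bmem_congr_left _ _ _)
      _ ≤ _ := bmem_congr_right _ _ _
  | eq i j =>
    simp only [bval]
    calc beqs v w ⊓ beq (v i).1 (v j).1
        ≤ (beq (w i).1 (v i).1 ⊓ beq (v i).1 (v j).1) ⊓ beq (v j).1 (w j).1 := by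
          refine le_inf (inf_le_inf_right _ ?_) (inf_le_left.trans (iInf_le _ j))
          rw [beq_symm]; exact iInf_le _ i
      _ ≤ beq (w i).1 (v j).1 ⊓ beq (v j).1 (w j).1 := inf_le_inf_right _ (beq_trans _ _ _)
      _ ≤ _ := beq_trans _ _ _
  | imp φ ψ ih1 ih2 =>
    simp only [bval]
    rw [le_himp_iff]
    calc beqs v w ⊓ (bval φ v ⇨ bval ψ v) ⊓ bval φ w
        ≤ beqs v w ⊓ ((bval φ v ⇨ bval ψ v) ⊓ bval φ v) := by
          refine le_inf (inf_le_left.trans inf_le_left) (le_inf (inf_le_left.trans inf_le_right) ?_)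
          calc beqs v w ⊓ (bval φ v ⇨ bval ψ v) ⊓ bval φ w ≤ beqs w v ⊓ bval φ w := by
                rw [beqs_symm]; exact inf_le_inf_right _ inf_le_left
            _ ≤ _ := ih1 _ _
      _ ≤ beqs v w ⊓ bval ψ v := inf_le_inf_left _ himp_inf_le
      _ ≤ _ := ih2 _ _
  | all φ ih =>
    simp only [bval]
    refine le_iInf fun x => ?_
    calc beqs v w ⊓ (⨅ y, bval φ (scons y v))
        ≤ beqs (scons x v) (scons x w) ⊓ bval φ (scons x v) :=
          inf_le_inf (beqs_scons _ _ _) (iInf_le _ x)
      _ ≤ _ := ih _ _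

lemma bval_congr_scons (φ : Fml) (x y : S.HSet) (v : ℕ → S.HSet) :
    beq x.1 y.1 ⊓ bval φ (scons x v) ≤ bval φ (scons y v) := by
  rw [← beqs_scons_left x y v]; exact bval_congr _ _ _

lemma bval_bd (φ : Fml) (v w : ℕ → S.HSet) (h : ∀ i < φ.bd, v i = w i) :
    bval φ v = bval φ w := by
  induction φ generalizing v w with
  | bot => rfl
  | mem i j =>
    simp only [Fml.bd, lt_max_iff] at h
    simp only [bval, h i (Or.inl (Nat.lt_succ_self i)), h j (Or.inr (Nat.lt_succ_self j))]
  | eq i j =>
    simp only [Fml.bd, lt_max_iff] at h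
    simp only [bval, h i (Or.inl (Nat.lt_succ_self i)), h j (Or.inr (Nat.lt_succ_self j))]
  | imp φ ψ ih1 ih2 =>
    simp only [Fml.bd, lt_max_iff] at h
    simp only [bval, ih1 v w (fun i hi => h i (Or.inl hi)), ih2 v w (fun i hi => h i (Or.inr hi))]
  | all φ ih =>
    simp only [Fml.bd] at h
    simp only [bval]
    refine iInf_congr fun x => ih _ _ fun i hi => ?_
    cases i with
    | zero => rfl
    | succ n => exact h n (by omega)

/-- Truncate an assignment. -/
def trunc (d : S.HSet) (n : ℕ) (v : ℕ → S.HSet) : ℕ → S.HSet := fun i => if i < n then v i else d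

lemma bval_congr_bd (φ : Fml) (v w : ℕ → S.HSet) (a : S.B)
    (h : ∀ i < φ.bd, a ≤ beq (v i).1 (w i).1) : a ⊓ bval φ v ≤ bval φ w := by
  have h1 : bval φ v = bval φ (trunc (v 0) φ.bd v) :=
    bval_bd _ _ _ fun i hi => by simp [trunc, hi]
  have h2 : bval φ w = bval φ (trunc (v 0) φ.bd w) :=
    bval_bd _ _ _ fun i hi => by simp [trunc, hi]
  rw [h1, h2]
  refine le_trans (inf_le_inf_right _ (le_iInf fun i => ?_)) (bval_congr _ _ _)
  by_cases hi : i < φ.bd
  · simp only [trunc, hi, if_true]; exact h i hi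
  · simp [trunc, hi]

end KSys

end Pool.Agent.Lib.KZF
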