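import Mathlib
import Pool.Agent.Lib.MP_c00cb7_lc.KAx

/-!
# Numerals, `ω`, pairs (port of `HSInf`)
-/

set_option autoImplicit false

open Set

namespace Pool.Agent.Lib.KZF

open Pool.Agent.Lib.SymZF Pool.Agent.Lib.SymZF.SymSys Name

namespace KSys

variable {S : KSys}

/-- A name whose family of elements is permuted by the group is hereditarily symmetric. -/
lemma HS_of_family {I : Type} (f : I → S.HSet) (b : I → S.B)
    (h : ∀ᶠ g in S.F, (∀ i, ∃ j, ((f i).smul g).eq (f j) = ⊤ ∧ S.α g (b i) ≤ b j) ∧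
      (∀ j, ∃ i, ((f i).smul g).eq (f j) = ⊤ ∧ b j ≤ S.α g (b i))) :
    S.HS (.mk I (fun i => (f i).1) b) := by
  refine ⟨?_, fun i => (f i).2⟩
  refine Filter.mem_of_superset h ?_
  rintro g ⟨h1, h2⟩
  simp only [mem_ofPred_eq]
  rw [eq_top_iff, act_mk, le_beq_iff]
  refine ⟨fun i => ?_, fun j => ?_⟩
  · obtain ⟨j, hj1, hj2⟩ := h1 i
    rw [top_inf_eq, bmem_mk]
    refine le_iSup_of_le j (le_inf hj2 ?_)
    have : beq (S.act g (f i).1) (f j).1 = ⊤ := hj1
    rw [this]; exact le_top
  · obtain ⟨i, hi1, hi2⟩ := h2 j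
    rw [top_inf_eq, bmem_mk]
    refine le_iSup_of_le i (le_inf hi2 ?_)
    have : beq (S.act g (f i).1) (f j).1 = ⊤ := hi1
    rw [beq_symm, this]; exact le_top

lemma Sm_num (κ : Cardinal.{0}) (hκ : Cardinal.aleph0 < κ) (n : ℕ) : Sm κ (Name.num S.B n) := by
  induction n with
  | zero =>
    refine ⟨?_, fun i => i.elim⟩
    exact (Cardinal.mk_le_aleph0_iff.2 inferInstance).trans_lt hκ
  | succ n ih =>
    have key : ∀ x : Name S.B, Sm κ x → Sm κ x.succ := by
      intro x hx
      cases x with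
      | mk ι f b =>
        refine ⟨?_, fun o => ?_⟩
        · change Cardinal.mk (Option ι) < κ
          rw [Cardinal.mk_option]
          exact Cardinal.add_lt_of_lt hκ.le hx.1 (Cardinal.one_lt_aleph0.trans hκ)
        · change Option ι at o
          cases o with
          | none => exact hx
          | some i => exact hx.2 i
    exact key _ ih

/-- The numerals as hereditarily symmetric names. -/
def HSet.num (S : KSys) (n : ℕ) : S.HSet := ⟨Name.num S.B n, HS_num n, Sm_num _ S.aleph0_lt n⟩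

lemma HSet.mem_num_zero (w : S.HSet) : w.mem (HSet.num S 0) = ⊥ := by
  change bmem w.1 (Name.num S.B 0) = ⊥
  rw [Name.num, bmem_mk, iSup_of_empty]

lemma HSet.mem_num_succ (w : S.HSet) (n : ℕ) :
    w.mem (HSet.num S (n + 1)) = w.mem (HSet.num S n) ⊔ w.eq (HSet.num S n) :=
  Name.bmem_succ _ _

@[simp] lemma HSet.smul_num (g : S.G) (n : ℕ) : (HSet.num S n).smul g = HSet.num S n :=
  HSet.ext (act_num g n)

/-- A set name from a permuted family. -/
def HSet.fam {I : Type} (hI : Cardinal.mk I < S.κ) (f : I → S.HSet) (b : I → S.B)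
    (h : ∀ᶠ g in S.F, (∀ i, ∃ j, ((f i).smul g).eq (f j) = ⊤ ∧ S.α g (b i) ≤ b j) ∧
      (∀ j, ∃ i, ((f i).smul g).eq (f j) = ⊤ ∧ b j ≤ S.α g (b i))) : S.HSet :=
  ⟨.mk I (fun i => (f i).1) b, HS_of_family f b h, ⟨hI, fun i => (f i).3⟩⟩

lemma HSet.mem_fam {I : Type} (hI : Cardinal.mk I < S.κ) (f : I → S.HSet) (b : I → S.B) (h)
    (w : S.HSet) : w.mem (HSet.fam hI f b h) = ⨆ i, b i ⊓ w.eq (f i) := rfl

/-- The name of `ω`. -/
def HSet.om (S : KSys) : S.HSet :=
  HSet.fam (S.small_of_countable ℕ) (fun n => HSet.num S n) (fun _ => ⊤)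
    (Filter.Eventually.of_forall fun g =>
      ⟨fun i => ⟨i, by simp, le_top⟩, fun i => ⟨i, by simp, by simp⟩⟩)

lemma HSet.mem_om (w : S.HSet) : w.mem (HSet.om S) = ⨆ n, w.eq (HSet.num S n) := by
  rw [om, mem_fam]
  exact iSup_congr fun n => by rw [top_inf_eq]

/-- The unordered pair of hereditarily symmetric names. -/
def HSet.pair (x y : S.HSet) : S.HSet :=
  HSet.fam (S.small_of_countable Bool) (fun i : Bool => cond i x y) (fun _ => ⊤) (by
      filter_upwards [x.sym, y.sym] with g h1 h2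
      refine ⟨fun i => ⟨i, ?_, le_top⟩, fun i => ⟨i, ?_, by simp⟩⟩
      · cases i
        · exact h2
        · exact h1
      · cases i
        · exact h2
        · exact h1)

lemma HSet.mem_pair (w x y : S.HSet) : w.mem (x.pair y) = w.eq x ⊔ w.eq y := by
  rw [pair, mem_fam, iSup_bool_eq]
  simp only [top_inf_eq, cond_true, cond_false]

lemma HSet.smul_pair (g : S.G) (x y : S.HSet) :
    (x.pair y).smul g = (x.smul g).pair (y.smul g) := by
  apply HSet.ext
  change S.act g (.mk Bool _ _) = .mk Bool _ _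
  rw [act_mk]
  congr 1
  · funext i; cases i <;> rfl
  · funext i; exact map_top _

/-- The ordered pair of hereditarily symmetric names. -/
def HSet.opair (x y : S.HSet) : S.HSet := (x.pair x).pair (x.pair y)

lemma HSet.smul_opair (g : S.G) (x y : S.HSet) :
    (x.opair y).smul g = (x.smul g).opair (y.smul g) := by
  rw [opair, opair, smul_pair, smul_pair, smul_pair]

end KSys

end Pool.Agent.Lib.KZF
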