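import Mathlib
import Pool.Agent.Lib.MP_c00cb7_lc.KInf

section

/-!
# Numerals, ordinals and pairs in the Boolean-valued model
-/

set_option autoImplicit false

open Set

namespace Pool.Agent.Lib.KZF

open Pool.Agent.Lib.SymZF Pool.Agent.Lib.SymZF.SymSys Name

namespace KSys

variable {S : KSys}

namespace HSet

lemma num_lt (k n : ℕ) (h : k < n) : (HSet.num S k).mem (HSet.num S n) = ⊤ := by
  induction n with
  | zero => omega
  | succ n ih =>
    rw [mem_num_succ]
    rcases Nat.lt_succ_iff_lt_or_eq.1 h with h | rfl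
    · rw [ih h, top_sup_eq]
    · rw [eq_refl, sup_top_eq]

lemma num_ge (n : ℕ) : ∀ k, n ≤ k → (HSet.num S k).mem (HSet.num S n) = ⊥ := by
  induction n with
  | zero => intro k _; exact mem_num_zero _
  | succ n ih =>
    intro k hk
    rw [mem_num_succ, ih k (by omega), bot_sup_eq]
    have h1 := mem_congr_right (HSet.num S n) (HSet.num S k) (HSet.num S n)
    rw [num_lt n k (by omega), inf_top_eq, ih n le_rfl] at h1
    exact le_bot_iff.1 h1

lemma num_eq_bot {k n : ℕ} (h : k ≠ n) : (HSet.num S k).eq (HSet.num S n) = ⊥ := by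
  wlog hlt : k < n generalizing k n
  · rw [eq_symm]
    exact this h.symm (by omega)
  have h1 := mem_congr_right (HSet.num S k) (HSet.num S n) (HSet.num S k)
  rw [num_lt k n hlt, inf_top_eq, num_ge k k le_rfl, eq_symm] at h1
  exact le_bot_iff.1 h1

lemma pair_congr (x x' y y' : S.HSet) :
    x.eq x' ⊓ y.eq y' ≤ (x.pair y).eq (x'.pair y') := by
  refine HSet.le_eq (fun z => ?_) (fun z => ?_)
  · rw [HSet.mem_pair, HSet.mem_pair, inf_sup_left]
    refine sup_le_sup ?_ ?_
    · rw [inf_comm]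
      exact (inf_le_inf_left _ inf_le_left).trans (HSet.eq_trans _ _ _)
    · rw [inf_comm]
      exact (inf_le_inf_left _ inf_le_right).trans (HSet.eq_trans _ _ _)
  · rw [HSet.mem_pair, HSet.mem_pair, inf_sup_left]
    refine sup_le_sup ?_ ?_
    · rw [inf_comm, HSet.eq_symm x x']
      exact (inf_le_inf_left _ inf_le_left).trans (HSet.eq_trans _ _ _)
    · rw [inf_comm, HSet.eq_symm y y']
      exact (inf_le_inf_left _ inf_le_right).trans (HSet.eq_trans _ _ _)

lemma opair_congr (x x' y y' : S.HSet) :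
    x.eq x' ⊓ y.eq y' ≤ (x.opair y).eq (x'.opair y') := by
  refine le_trans ?_ (HSet.pair_congr _ _ _ _)
  refine le_inf ?_ (HSet.pair_congr _ _ _ _)
  refine le_trans ?_ (HSet.pair_congr _ _ _ _)
  exact le_inf inf_le_left inf_le_left

/-- Injectivity of ordered pairs at the Boolean level. (For instance: if not, there is an
ultrafilter (prime filter) `U` of the algebra containing the left side and not the right side; the
relation `x ~ y :⟺ x.eq y ∈ U` is an equivalence relation, and `mem_pair` gives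
`w.mem (x.pair y) ∈ U ⟺ w ~ x ∨ w ~ y`, and `x.pair y ~ x'.pair y'` implies that these are
equivalent for all `w`; then argue as in `SymZF.opair_inj`.) -/
lemma opair_eq_le (a b a' b' : S.HSet) :
    (a.opair b).eq (a'.opair b') ≤ a.eq a' ⊓ b.eq b' := by
  have hl : ∀ x y : S.HSet, x.mem (x.pair y) = ⊤ := fun x y => by
    rw [HSet.mem_pair, eq_refl, top_sup_eq]
  have hr : ∀ x y : S.HSet, y.mem (x.pair y) = ⊤ := fun x y => by
    rw [HSet.mem_pair, eq_refl, sup_top_eq]
  -- an element `w` of `p` with value `⊤` is an element of `q` below `p.eq q`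
  have key : ∀ p w x y : S.HSet, w.mem p = ⊤ → p.eq (x.pair y) ≤ w.eq x ⊔ w.eq y := by
    intro p w x y h
    have h1 := mem_congr_right w p (x.pair y)
    rwa [h, inf_top_eq, HSet.mem_pair] at h1
  set P := (a.opair b).eq (a'.opair b') with hP
  have hP' : P = (a'.opair b').eq (a.opair b) := by rw [hP, eq_symm]
  have hA : P ≤ (a.pair a).eq (a'.pair a') ⊔ (a.pair a).eq (a'.pair b') :=
    key _ _ _ _ (hl _ _)
  have hB1 : P ≤ (a.pair b).eq (a'.pair a') ⊔ (a.pair b).eq (a'.pair b') :=
    key _ _ _ _ (hr _ _)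
  have hB2 : P ≤ (a'.pair b').eq (a.pair a) ⊔ (a'.pair b').eq (a.pair b) := by
    rw [hP']
    exact key _ _ _ _ (hr _ _)
  have e1 : P ≤ a.eq a' := by
    refine hA.trans (sup_le ?_ ?_)
    · have := key (a.pair a) a a' a' (hl _ _)
      rwa [sup_idem] at this
    · have := key (a'.pair b') a' a a (hl _ _)
      rw [sup_idem] at this
      rw [eq_symm (a.pair a), eq_symm a a']
      exact this
  have e2 : P ≤ b.eq a' ⊔ b.eq b' := by
    refine hB1.trans (sup_le ?_ ?_)
    · have := key (a.pair b) b a' a' (hr _ _)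
      rw [sup_idem] at this
      exact this.trans le_sup_left
    · exact key (a.pair b) b a' b' (hr _ _)
  have e3 : P ≤ b'.eq a ⊔ b'.eq b := by
    refine hB2.trans (sup_le ?_ ?_)
    · have := key (a'.pair b') b' a a (hr _ _)
      rw [sup_idem] at this
      exact this.trans le_sup_left
    · exact key (a'.pair b') b' a b (hr _ _)
  refine le_inf e1 ?_
  calc P ≤ a.eq a' ⊓ ((b.eq a' ⊔ b.eq b') ⊓ (b'.eq a ⊔ b'.eq b)) :=
        le_inf e1 (le_inf e2 e3)
    _ ≤ b.eq b' := by
        rw [inf_sup_left, inf_sup_left]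
        refine sup_le ?_ ?_
        · rw [inf_sup_right, inf_sup_left]
          refine sup_le ?_ ?_
          · calc a.eq a' ⊓ (b.eq a' ⊓ b'.eq a) ≤ (b.eq a' ⊓ a'.eq a) ⊓ a.eq b' := by
                  refine le_inf (le_inf (inf_le_right.trans inf_le_left) ?_) ?_
                  · rw [eq_symm a' a]; exact inf_le_left
                  · rw [eq_symm a b']; exact inf_le_right.trans inf_le_right
              _ ≤ b.eq a ⊓ a.eq b' := inf_le_inf_right _ (HSet.eq_trans _ _ _)
              _ ≤ b.eq b' := HSet.eq_trans _ _ _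
          · exact inf_le_right.trans inf_le_left
        · rw [eq_symm b' b]
          exact inf_le_right.trans inf_le_right

end HSet

/-! ### Ordinals: the elements of the well-ordered type `κ.ord.ToType` -/

/-- the well-ordered type of the ordinals below `κ` -/
abbrev Kt (S : KSys) : Type := S.κ.ord.ToType

lemma Kt_small (i : S.Kt) : Cardinal.mk {j : S.Kt // j < i} < S.κ :=
  Cardinal.mk_Iio_toType_ord_lt i

/-- The canonical names of the ordinals below `κ`: `chk i = {chk j : j < i}`. -/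
noncomputable def chkN (S : KSys) : S.Kt → Name S.B :=
  WellFounded.fix (C := fun _ => Name S.B) (r := fun a b : S.Kt => a < b) wellFounded_lt
    fun i ih => Name.mk {j : S.Kt // j < i} (fun j => ih j.1 j.2) (fun _ => ⊤)

lemma chkN_eq (i : S.Kt) :
    chkN S i = Name.mk {j : S.Kt // j < i} (fun j => chkN S j.1) (fun _ => ⊤) := by
  rw [chkN, WellFounded.fix_eq]

lemma act_chkN (g : S.G) (i : S.Kt) : S.act g (chkN S i) = chkN S i := by
  induction i using WellFoundedLT.induction with
  | ind i ih =>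
    rw [chkN_eq, act_mk]
    congr 1
    · funext j
      exact ih j.1 j.2
    · funext j
      exact map_top _

lemma HS_chkN (i : S.Kt) : S.HS (chkN S i) := by
  induction i using WellFoundedLT.induction with
  | ind i ih =>
    have h1 : {g | beq (S.act g (chkN S i)) (chkN S i) = ⊤} ∈ S.F := by
      refine Filter.mem_of_superset Filter.univ_mem fun g _ => ?_
      simp only [mem_ofPred_eq]
      rw [act_chkN, beq_refl]
    rw [chkN_eq] at h1 ⊢
    exact ⟨h1, fun j => ih j.1 j.2⟩

lemma Sm_chkN (i : S.Kt) : Sm S.κ (chkN S i) := by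
  induction i using WellFoundedLT.induction with
  | ind i ih =>
    rw [chkN_eq]
    exact ⟨Kt_small i, fun j => ih j.1 j.2⟩

/-- the name of the ordinal `i` -/
noncomputable def HSet.chk (i : S.Kt) : S.HSet := ⟨chkN S i, HS_chkN i, Sm_chkN i⟩

@[simp] lemma HSet.smul_chk (g : S.G) (i : S.Kt) : (HSet.chk i).smul g = HSet.chk i :=
  HSet.ext (act_chkN g i)

lemma HSet.mem_chk (w : S.HSet) (i : S.Kt) :
    w.mem (HSet.chk i) = ⨆ j : {j : S.Kt // j < i}, w.eq (HSet.chk j.1) := by
  change bmem w.1 (chkN S i) = _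
  rw [chkN_eq, bmem_mk]
  refine iSup_congr fun j => ?_
  rw [top_inf_eq]
  rfl

lemma HSet.chk_lt {i j : S.Kt} (h : i < j) : (HSet.chk i).mem (HSet.chk j : S.HSet) = ⊤ := by
  rw [eq_top_iff, HSet.mem_chk]
  refine le_iSup_of_le ⟨i, h⟩ ?_
  rw [HSet.eq_refl]

lemma HSet.chk_ge {i j : S.Kt} (h : j ≤ i) : (HSet.chk i).mem (HSet.chk j : S.HSet) = ⊥ := by
  induction j using WellFoundedLT.induction generalizing i with
  | ind j ih =>
    rw [eq_bot_iff, HSet.mem_chk]
    refine iSup_le fun k => ?_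
    have h1 := HSet.mem_congr_right (HSet.chk k.1) (HSet.chk i) (HSet.chk k.1 : S.HSet)
    rw [HSet.chk_lt (lt_of_lt_of_le k.2 h), inf_top_eq, ih k.1 k.2 le_rfl] at h1
    exact h1

lemma HSet.chk_ne {i j : S.Kt} (h : i ≠ j) : (HSet.chk i).eq (HSet.chk j : S.HSet) = ⊥ := by
  wlog hlt : i < j generalizing i j
  · rw [HSet.eq_symm]
    exact this h.symm (lt_of_le_of_ne (not_lt.1 hlt) h.symm)
  have h1 := HSet.mem_congr_right (HSet.chk i) (HSet.chk j) (HSet.chk i : S.HSet)
  rw [HSet.chk_lt hlt, inf_top_eq, HSet.chk_ge le_rfl, HSet.eq_symm] at h1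
  exact le_bot_iff.1 h1

lemma HSet.chk_injective (hB : (⊥ : S.B) ≠ ⊤) :
    Function.Injective (HSet.chk : S.Kt → S.HSet) := by
  intro i j hij
  by_contra hne
  have h1 := HSet.chk_ne (S := S) hne
  rw [hij, HSet.eq_refl] at h1
  exact hB h1.symm

/-- the Boolean value of `x is an ordinal` (a transitive set of transitive sets) -/
noncomputable def HSet.ordv (x : S.HSet) : S.B :=
  (⨅ y : S.HSet, y.mem x ⇨ ⨅ z : S.HSet, z.mem y ⇨ z.mem x) ⊓
    ⨅ y : S.HSet, y.mem x ⇨ ⨅ z : S.HSet, z.mem y ⇨ ⨅ w : S.HSet, w.mem z ⇨ w.mem y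

/-- elements of ordinals are ordinals -/
lemma HSet.ordv_mem (X y : S.HSet) : X.ordv ⊓ y.mem X ≤ y.ordv := by
  have hT : ∀ u : S.HSet, X.ordv ⊓ u.mem X ≤ ⨅ z : S.HSet, z.mem u ⇨ z.mem X := by
    intro u
    have h1 : X.ordv ≤ u.mem X ⇨ ⨅ z : S.HSet, z.mem u ⇨ z.mem X :=
      inf_le_left.trans (iInf_le _ u)
    exact (inf_le_inf_right _ h1).trans himp_inf_le
  have hU : ∀ u : S.HSet, X.ordv ⊓ u.mem X ≤
      ⨅ z : S.HSet, z.mem u ⇨ ⨅ w : S.HSet, w.mem z ⇨ w.mem u := by
    intro u
    have h1 : X.ordv ≤ u.mem X ⇨ ⨅ z : S.HSet, z.mem u ⇨ ⨅ w : S.HSet, w.mem z ⇨ w.mem u :=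
      inf_le_right.trans (iInf_le _ u)
    exact (inf_le_inf_right _ h1).trans himp_inf_le
  refine le_inf (hU y) ?_
  refine le_iInf fun u => ?_
  rw [le_himp_iff]
  have h1 : X.ordv ⊓ y.mem X ⊓ u.mem y ≤ u.mem X := by
    refine (inf_le_inf_right _ ((hT y).trans (iInf_le _ u))).trans himp_inf_le
  refine le_trans ?_ (hU u)
  exact le_inf (inf_le_left.trans inf_le_left) h1

/-- Every ordinal is one of the `chk i`. Induction on the name `x` (as in `hs_found` of `KAx.lean`).
Let `a = ordv x`. For the elements: `a ⊓ x.vl k ≤ ordv (x.el k)` (elements of ordinals are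
ordinals), so by induction `a ⊓ x.vl k ≤ ⨆ i, (x.el k).eq (chk i)`. Let `m i = (chk i).mem x`.
For `j < i`: `a ⊓ m i ≤ m j`. Let `M i = a ⊓ (m i)ᶜ ⊓ ⨅ j < i, m j`. `M i ≤ x.eq (chk i)`: by
`HSet.le_eq`: elements of `x` are (below `a`) of the form `chk j`, and `j < i` as otherwise `i ≤ j`
and `chk i ∈ x`. Finally `a ≤ ⨆ i, M i`: otherwise there is `c ≠ ⊥`, `c ≤ a`, disjoint from all
`M i`, so `c ≤ m i` for all `i` by induction; but `m i = ⨆ k, x.vl k ⊓ (chk i).eq (x.el k)`, and for
every `k` the values `(chk i).eq (x.el k)` (`i : Kt`) are pairwise disjoint (`chk_ne`), so at most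
`#B` of them are `≠ ⊥`; hence at most `#x.idx * #B < κ` many `i` have `m i ≠ ⊥`, whereas
`#Kt = κ`. -/
theorem HSet.ordv_le (x : S.HSet) : x.ordv ≤ ⨆ i : S.Kt, x.eq (HSet.chk i) := by
  obtain ⟨y, hy, hs⟩ := x
  induction y with
  | mk ι f b ih =>
    set X : S.HSet := ⟨.mk ι f b, hy, hs⟩ with hX
    set a := X.ordv with ha
    let el : ι → S.HSet := fun k => ⟨f k, hy.2 k, hs.2 k⟩
    have hmemX : ∀ z : S.HSet, z.mem X = ⨆ k : ι, b k ⊓ z.eq (el k) := fun z => rfl
    have hvl : ∀ k, b k ≤ (el k).mem X := by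
      intro k
      rw [hmemX]
      refine le_iSup_of_le k ?_
      rw [HSet.eq_refl, inf_top_eq]
    have h2 : ∀ k, a ⊓ b k ≤ ⨆ i : S.Kt, (el k).eq (HSet.chk i) := by
      intro k
      refine le_trans ?_ (ih k (hy.2 k) (hs.2 k))
      exact (inf_le_inf_left _ (hvl k)).trans (HSet.ordv_mem X (el k))
    -- elements of `X` are of the form `chk j`
    have h3 : ∀ z : S.HSet, a ⊓ z.mem X ≤ ⨆ j : S.Kt, z.eq (HSet.chk j) := by
      intro z
      rw [hmemX, inf_iSup_eq]
      refine iSup_le fun k => ?_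
      calc a ⊓ (b k ⊓ z.eq (el k)) = (a ⊓ b k) ⊓ z.eq (el k) := by rw [inf_assoc]
        _ ≤ (⨆ i : S.Kt, (el k).eq (HSet.chk i)) ⊓ z.eq (el k) := inf_le_inf_right _ (h2 k)
        _ ≤ ⨆ j : S.Kt, z.eq (HSet.chk j) := by
            rw [iSup_inf_eq]
            refine iSup_le fun i => le_iSup_of_le i ?_
            rw [inf_comm]
            exact HSet.eq_trans _ _ _
    let m : S.Kt → S.B := fun i => (HSet.chk i).mem X
    have h4 : ∀ i j : S.Kt, j < i → a ⊓ m i ≤ m j := by
      intro i j hji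
      have h5 : a ≤ (HSet.chk i).mem X ⇨ ⨅ z : S.HSet, z.mem (HSet.chk i) ⇨ z.mem X :=
        inf_le_left.trans (iInf_le _ (HSet.chk i))
      calc a ⊓ m i ≤ ((HSet.chk i).mem X ⇨ ⨅ z : S.HSet, z.mem (HSet.chk i) ⇨ z.mem X) ⊓
            (HSet.chk i).mem X := inf_le_inf_right _ h5
        _ ≤ ⨅ z : S.HSet, z.mem (HSet.chk i) ⇨ z.mem X := himp_inf_le
        _ ≤ (HSet.chk j).mem (HSet.chk i : S.HSet) ⇨ (HSet.chk j).mem X := iInf_le _ (HSet.chk j)
        _ = m j := by rw [HSet.chk_lt hji, top_himp]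
    let M : S.Kt → S.B := fun i => a ⊓ (m i)ᶜ ⊓ ⨅ j : {j : S.Kt // j < i}, m j.1
    have hM : ∀ i, M i ≤ X.eq (HSet.chk i) := by
      intro i
      have hMa : M i ≤ a := inf_le_left.trans inf_le_left
      have hMc : M i ≤ (m i)ᶜ := inf_le_left.trans inf_le_right
      have hMj : ∀ j, j < i → M i ≤ m j := fun j hj =>
        inf_le_right.trans (iInf_le (fun j : {j : S.Kt // j < i} => m j.1) ⟨j, hj⟩)
      refine HSet.le_eq (fun z => ?_) (fun z => ?_)
      · have h5 : M i ⊓ z.mem X ≤ ⨆ j : S.Kt, z.eq (HSet.chk j) :=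
          (inf_le_inf_right _ hMa).trans (h3 z)
        calc M i ⊓ z.mem X ≤ (M i ⊓ z.mem X) ⊓ ⨆ j : S.Kt, z.eq (HSet.chk j) :=
              le_inf le_rfl h5
          _ ≤ z.mem (HSet.chk i) := by
              rw [inf_iSup_eq]
              refine iSup_le fun j => ?_
              rcases lt_or_ge j i with hji | hij
              · rw [HSet.mem_chk]
                exact le_iSup_of_le ⟨j, hji⟩ inf_le_right
              · have h6 : (M i ⊓ z.mem X) ⊓ z.eq (HSet.chk j) ≤ M i ⊓ m j := by
                  refine le_inf (inf_le_left.trans inf_le_left) ?_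
                  refine le_trans ?_ (HSet.mem_congr_left z (HSet.chk j) X)
                  exact le_inf inf_le_right (inf_le_left.trans inf_le_right)
                have h7 : M i ⊓ m j ≤ m i := by
                  rcases hij.eq_or_lt with h | h
                  · rw [h]
                    exact inf_le_right
                  · exact (inf_le_inf_right _ hMa).trans (h4 j i h)
                have h8 : M i ⊓ m j ≤ ⊥ := by
                  calc M i ⊓ m j ≤ m i ⊓ (m i)ᶜ := le_inf h7 (inf_le_left.trans hMc)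
                    _ = ⊥ := inf_compl_self _
                exact h6.trans (h8.trans bot_le)
      · rw [HSet.mem_chk, inf_iSup_eq]
        refine iSup_le fun j => ?_
        refine le_trans ?_ (HSet.mem_congr_left (HSet.chk j.1) z X)
        refine le_inf ?_ (inf_le_left.trans (hMj j.1 j.2))
        rw [HSet.eq_symm]
        exact inf_le_right
    refine le_trans ?_ (iSup_mono hM)
    -- the main point
    set c := a ⊓ (⨆ i, M i)ᶜ with hc
    have hcm : ∀ i, c ≤ m i := by
      intro i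
      induction i using WellFoundedLT.induction with
      | ind i ihi =>
        have h5 : c ⊓ (m i)ᶜ ≤ M i := by
          refine le_inf (le_inf (inf_le_left.trans inf_le_left) inf_le_right) ?_
          exact le_iInf fun j => inf_le_left.trans (ihi j.1 j.2)
        have h6 : c ⊓ (m i)ᶜ ≤ ⊥ := by
          calc c ⊓ (m i)ᶜ ≤ (⨆ i, M i) ⊓ (⨆ i, M i)ᶜ :=
                le_inf (h5.trans (le_iSup M i)) (inf_le_left.trans inf_le_right)
            _ = ⊥ := inf_compl_self _
        rw [le_bot_iff, ← disjoint_iff, disjoint_compl_right_iff] at h6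
        exact h6
    have hcb : c = ⊥ := by
      by_contra hne
      have h5 : ∀ i : S.Kt, ∃ k : ι, (HSet.chk i).eq (el k) ≠ ⊥ := by
        intro i
        by_contra hcon
        push Not at hcon
        apply hne
        rw [eq_bot_iff]
        refine (hcm i).trans ?_
        change (HSet.chk i).mem X ≤ ⊥
        rw [hmemX]
        refine iSup_le fun k => ?_
        rw [hcon k, inf_bot_eq]
      choose k hk using h5
      let F : S.Kt → ι × S.B := fun i => (k i, (HSet.chk i).eq (el (k i)))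
      have hF : Function.Injective F := by
        intro i j hij
        by_contra hne'
        have h6 : k i = k j := congrArg Prod.fst hij
        have h7 : (HSet.chk i).eq (el (k i)) = (HSet.chk j).eq (el (k j)) :=
          congrArg Prod.snd hij
        apply hk i
        rw [eq_bot_iff]
        have h8 := HSet.eq_trans (HSet.chk i) (el (k i)) (HSet.chk j : S.HSet)
        rw [HSet.chk_ne hne'] at h8
        refine le_trans (le_inf le_rfl ?_) h8
        rw [HSet.eq_symm (el (k i))]
        conv_lhs => rw [h7]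
        rw [h6]
      have h9 := Cardinal.mk_le_of_injective hF
      rw [Cardinal.mk_ord_toType] at h9
      exact absurd (h9.trans_lt (S.small_prod hs.1 S.hB)) (lt_irrefl _)
    have h10 : a ⊓ (⨆ i, M i)ᶜ ≤ ⊥ := hcb.le
    rw [le_bot_iff, ← disjoint_iff, disjoint_compl_right_iff] at h10
    exact h10

end KSys

end Pool.Agent.Lib.KZF
end

section

/-!
# Names for reals and for sets of reals
-/

set_option autoImplicit false

open Set

namespace Pool.Agent.Lib.KZF

open Pool.Agent.Lib.SymZF Pool.Agent.Lib.SymZF.SymSys Name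

namespace KSys

variable {S : KSys}

/-- `b n` are the Boolean values of a symmetric subset of `ω` -/
def SymB (b : ℕ → S.B) : Prop := ∀ᶠ g in S.F, ∀ n, S.α g (b n) = b n

/-- Boolean value of equality of two subsets of `ω` -/
noncomputable def eqB (b c : ℕ → S.B) : S.B := ⨅ n, (b n ⇨ c n) ⊓ (c n ⇨ b n)

lemma SymB.smul {b : ℕ → S.B} (hb : SymB b) (g : S.G) : SymB (fun n => S.α g (b n)) := by
  have h := (S.conj g).eventually hb
  refine h.mono fun k hk n => ?_
  have h1 := congrArg (S.α g) (hk n)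
  rw [α_mul_apply, α_mul_apply, α_α_inv] at h1
  exact h1

/-- the name of the subset of `ω` with Boolean values `b n` -/
noncomputable def HSet.rnm (b : ℕ → S.B) (hb : SymB b) : S.HSet :=
  HSet.fam (S.small_of_countable ℕ) (fun n => HSet.num S n) b (by
    refine hb.mono fun g hg => ⟨fun i => ⟨i, by simp, by rw [hg]⟩, fun i => ⟨i, by simp, by rw [hg]⟩⟩)

lemma HSet.mem_rnm (w : S.HSet) (b : ℕ → S.B) (hb : SymB b) :
    w.mem (HSet.rnm b hb) = ⨆ n, b n ⊓ w.eq (HSet.num S n) := rfl

lemma HSet.num_mem_rnm (n : ℕ) (b : ℕ → S.B) (hb : SymB b) :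
    (HSet.num S n).mem (HSet.rnm b hb) = b n := by
  rw [mem_rnm]
  apply le_antisymm
  · refine iSup_le fun j => ?_
    by_cases h : n = j
    · subst h; exact inf_le_left
    · rw [HSet.num_eq_bot h, inf_bot_eq]; exact bot_le
  · exact le_iSup_of_le n (by simp)

lemma HSet.rnm_eq (b c : ℕ → S.B) (hb : SymB b) (hc : SymB c) :
    (HSet.rnm b hb).eq (HSet.rnm c hc) = eqB b c := by
  have h1 : (HSet.rnm b hb).eq (HSet.rnm c hc) =
      (⨅ i, b i ⇨ ⨆ j, c j ⊓ (HSet.num S i).eq (HSet.num S j)) ⊓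
      (⨅ j, c j ⇨ ⨆ i, b i ⊓ (HSet.num S i).eq (HSet.num S j)) := by
    change beq (.mk ℕ _ _) (.mk ℕ _ _) = _
    rw [beq_mk]
    rfl
  have h2 : ∀ i, (⨆ j, c j ⊓ (HSet.num S i).eq (HSet.num S j)) = c i := fun i => by
    rw [← HSet.mem_rnm _ c hc, HSet.num_mem_rnm]
  have h3 : ∀ j, (⨆ i, b i ⊓ (HSet.num S i).eq (HSet.num S j)) = b j := fun j => by
    have : ∀ i, b i ⊓ (HSet.num S i).eq (HSet.num S j) =
        b i ⊓ (HSet.num S j).eq (HSet.num S i) := fun i => by rw [HSet.eq_symm]
    rw [iSup_congr this, ← HSet.mem_rnm _ b hb, HSet.num_mem_rnm]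
  simp only [h1, h2, h3]
  rw [eqB, iInf_inf_eq]

lemma HSet.smul_rnm (g : S.G) (b : ℕ → S.B) (hb : SymB b) :
    (HSet.rnm b hb).smul g = HSet.rnm (fun n => S.α g (b n)) (hb.smul g) := by
  apply HSet.ext
  change S.act g (.mk ℕ _ _) = .mk ℕ _ _
  rw [act_mk]
  congr 1
  funext n
  exact act_num g n

/-- the Boolean values of the bits of `x` -/
noncomputable def HSet.bit (x : S.HSet) (n : ℕ) : S.B := (HSet.num S n).mem x

lemma HSet.symB_bit (x : S.HSet) : SymB x.bit := by
  refine x.sym.mono fun g hg n => ?_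
  change S.α g ((HSet.num S n).mem x) = (HSet.num S n).mem x
  rw [← HSet.smul_mem, HSet.smul_num, HSet.mem_of_eq_top_right hg]

@[simp] lemma HSet.bit_rnm (b : ℕ → S.B) (hb : SymB b) : (HSet.rnm b hb).bit = b := by
  funext n; exact HSet.num_mem_rnm n b hb

/-- a name for a subset of `ω` is equal to the name given by its bits -/
lemma HSet.le_eq_rnm (x : S.HSet) :
    (⨅ z : S.HSet, z.mem x ⇨ z.mem (HSet.om S)) ≤ x.eq (HSet.rnm x.bit x.symB_bit) := by
  refine HSet.le_eq (fun z => ?_) (fun z => ?_)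
  · calc (⨅ z : S.HSet, z.mem x ⇨ z.mem (HSet.om S)) ⊓ z.mem x
        ≤ z.mem (HSet.om S) ⊓ z.mem x := by
          refine le_inf ?_ inf_le_right
          exact (inf_le_inf_right _ (iInf_le _ z)).trans himp_inf_le
      _ ≤ _ := by
          rw [HSet.mem_om, iSup_inf_eq, HSet.mem_rnm]
          refine iSup_mono fun n => le_inf ?_ inf_le_left
          exact HSet.mem_congr_left _ _ _
  · refine inf_le_right.trans ?_
    rw [HSet.mem_rnm]
    refine iSup_le fun n => ?_
    refine le_trans ?_ (HSet.mem_congr_left (HSet.num S n) z x)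
    rw [HSet.eq_symm, inf_comm]
    exact le_rfl

/-- An equivariant and extensional function `Θ` on the (Boolean values of) reals gives a name for
a set of reals. The index type is `{b : ℕ → S.B // SymB b}` (small: `small_fun`, `small_subtype`),
the elements are `rnm b` with value `Θ b`; symmetry by `HS_of_family` (use `HSet.smul_rnm`). -/
theorem exists_realSet (Θ : (ℕ → S.B) → S.B)
    (hsym : ∀ᶠ g in S.F, ∀ b, SymB b → Θ (fun n => S.α g (b n)) = S.α g (Θ b))
    (hext : ∀ b c, SymB b → SymB c → eqB b c ⊓ Θ b ≤ Θ c) :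
    ∃ A : S.HSet, ∀ b (hb : SymB b), (HSet.rnm b hb).mem A = Θ b := by
  classical
  let f : {b : ℕ → S.B // SymB b} → S.HSet := fun b => HSet.rnm b.1 b.2
  let A : S.HSet := HSet.fam (S.small_subtype (S.small_fun (S.small_of_countable ℕ) S.hB) _) f
    (fun b => Θ b.1) (by
      refine hsym.mono fun g hg => ⟨fun i => ?_, fun j => ?_⟩
      · refine ⟨⟨_, i.2.smul g⟩, ?_, (hg i.1 i.2).ge⟩
        change ((HSet.rnm i.1 i.2).smul g).eq (HSet.rnm _ (i.2.smul g)) = ⊤
        rw [HSet.smul_rnm, HSet.eq_refl]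
      · have h1 : (fun n => S.α g (S.α g⁻¹ (j.1 n))) = j.1 := by funext n; simp
        refine ⟨⟨_, j.2.smul g⁻¹⟩, ?_, ?_⟩
        · change ((HSet.rnm _ (j.2.smul g⁻¹)).smul g).eq (HSet.rnm j.1 j.2) = ⊤
          rw [HSet.smul_rnm, HSet.rnm_eq, h1, ← HSet.rnm_eq j.1 j.1 j.2 j.2, HSet.eq_refl]
        · have h2 := hg _ (j.2.smul g⁻¹)
          rw [h1] at h2
          exact h2.le)
  refine ⟨A, fun b hb => ?_⟩
  have h1 : (HSet.rnm b hb).mem A = ⨆ i : {b : ℕ → S.B // SymB b},
      Θ i.1 ⊓ (HSet.rnm b hb).eq (HSet.rnm i.1 i.2) := rfl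
  rw [h1]
  apply le_antisymm
  · refine iSup_le fun i => ?_
    rw [HSet.eq_symm, HSet.rnm_eq, inf_comm]
    exact hext i.1 b i.2 hb
  · exact le_iSup_of_le ⟨b, hb⟩ (by rw [HSet.eq_refl, inf_top_eq])

/-- Countably many symmetric elements: if the filter is countably complete, `SymB b` may be checked
pointwise. -/
lemma symB_of_forall [CountableInterFilter S.F] {b : ℕ → S.B}
    (h : ∀ n, ∀ᶠ g in S.F, S.α g (b n) = b n) : SymB b := by
  exact eventually_countable_forall.2 h

end KSys

end Pool.Agent.Lib.KZF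
end
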