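import Mathlib
import Pool.Agent.Lib.MP_c00cb7_lc.KReal

/-!
# Borel predicates of reals and their Boolean values
-/

set_option autoImplicit false

open Set

namespace Pool.Agent.Lib.KZF

/-- Infinitary propositional formulas (Borel codes) over the atoms '`n ∈ r`'. -/
inductive BF : Type
  | atm (n : ℕ) : BF
  | neg (φ : BF) : BF
  | sup (f : ℕ → BF) : BF

namespace BF

/-- the predicate of points of `2^ω` given by the code -/
def sem : BF → (ℕ → Prop) → Prop
  | .atm n, r => r n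
  | .neg φ, r => ¬ sem φ r
  | .sup f, r => ∃ n, sem (f n) r

/-- the Boolean value of the predicate -/
noncomputable def bs {B : Type} [CompleteBooleanAlgebra B] : BF → (ℕ → B) → B
  | .atm n, b => b n
  | .neg φ, b => (bs φ b)ᶜ
  | .sup f, b => ⨆ n, bs (f n) b

/-- substitution for the atoms -/
def subst (σ : ℕ → BF) : BF → BF
  | .atm n => σ n
  | .neg φ => .neg (subst σ φ)
  | .sup f => .sup fun n => subst σ (f n)

lemma sem_subst (σ : ℕ → BF) (φ : BF) (r : ℕ → Prop) :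
    (φ.subst σ).sem r ↔ φ.sem (fun n => (σ n).sem r) := by
  induction φ with
  | atm n => rfl
  | neg φ ih => simp only [subst, sem, ih]
  | sup f ih => simp only [subst, sem, ih]

lemma bs_subst {B : Type} [CompleteBooleanAlgebra B] (σ : ℕ → BF) (φ : BF) (b : ℕ → B) :
    (φ.subst σ).bs b = φ.bs (fun n => (σ n).bs b) := by
  induction φ with
  | atm n => rfl
  | neg φ ih => simp only [subst, bs, ih]
  | sup f ih => simp only [subst, bs, ih]

lemma bs_map {B C : Type} [CompleteBooleanAlgebra B] [CompleteBooleanAlgebra C] (f : B ≃o C)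
    (φ : BF) (b : ℕ → B) : φ.bs (fun n => f (b n)) = f (φ.bs b) := by
  induction φ with
  | atm n => rfl
  | neg φ ih => simp only [bs, ih, map_compl]
  | sup f ih => simp only [bs, ih, OrderIso.map_iSup]

/-- extensionality -/
lemma bs_congr {B : Type} [CompleteBooleanAlgebra B] (φ : BF) (b c : ℕ → B) :
    (⨅ n, (b n ⇨ c n) ⊓ (c n ⇨ b n)) ⊓ φ.bs b ≤ φ.bs c := by
  have hsymm : ∀ b c : ℕ → B, (⨅ n, (b n ⇨ c n) ⊓ (c n ⇨ b n)) = ⨅ n, (c n ⇨ b n) ⊓ (b n ⇨ c n) :=
    fun b c => iInf_congr fun n => inf_comm _ _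
  induction φ generalizing b c with
  | atm n =>
    simp only [bs]
    exact (inf_le_inf_right _ ((iInf_le _ n).trans inf_le_left)).trans himp_inf_le
  | neg φ ih =>
    simp only [bs]
    rw [le_compl_iff_disjoint_right, disjoint_iff, ← le_bot_iff]
    calc (⨅ n, (b n ⇨ c n) ⊓ (c n ⇨ b n)) ⊓ (φ.bs b)ᶜ ⊓ φ.bs c
        ≤ (φ.bs b) ⊓ (φ.bs b)ᶜ := by
          refine le_inf ?_ (inf_le_left.trans inf_le_right)
          refine le_trans ?_ (ih c b)
          rw [hsymm c b]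
          exact le_inf (inf_le_left.trans inf_le_left) inf_le_right
      _ ≤ ⊥ := by simp
  | sup f ih =>
    simp only [bs]
    rw [inf_iSup_eq]
    exact iSup_mono fun n => ih n b c

/-- the set `U` of Boolean values respects the computation of `φ` at `b` -/
def Resp {B : Type} [CompleteBooleanAlgebra B] (U : Set B) (b : ℕ → B) : BF → Prop
  | .atm n => b n ∈ U ∨ (b n)ᶜ ∈ U
  | .neg φ => Resp U b φ
  | .sup f => (∀ n, Resp U b (f n)) ∧ ((∃ n, (f n).bs b ∈ U) ∨ (⨆ n, (f n).bs b)ᶜ ∈ U)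

/-- The truth lemma for Borel predicates, for a filter `U` (given by `up`, `inf`, `bot`). -/
theorem Resp.truth {B : Type} [CompleteBooleanAlgebra B] {U : Set B}
    (up : ∀ {a b : B}, a ∈ U → a ≤ b → b ∈ U) (inf : ∀ {a b : B}, a ∈ U → b ∈ U → a ⊓ b ∈ U)
    (bot : (⊥ : B) ∉ U) {b : ℕ → B} {φ : BF} (h : Resp U b φ) :
    (φ.bs b ∈ U ↔ φ.sem (fun n => b n ∈ U)) ∧ (φ.bs b ∈ U ∨ (φ.bs b)ᶜ ∈ U) := by
  have hcon : ∀ a : B, a ∈ U → aᶜ ∈ U → False := fun a h1 h2 => bot (by simpa using inf h1 h2)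
  induction φ with
  | atm n => exact ⟨Iff.rfl, h⟩
  | neg φ ih =>
    obtain ⟨h1, h2⟩ := ih h
    refine ⟨⟨fun h3 h4 => hcon _ (h1.2 h4) h3, fun h3 => ?_⟩, ?_⟩
    · rcases h2 with h2 | h2
      · exact (h3 (h1.1 h2)).elim
      · exact h2
    · simp only [bs, compl_compl]
      exact h2.symm
  | sup f ih =>
    obtain ⟨h1, h2⟩ := h
    have hup : ∀ n, (f n).bs b ∈ U → (⨆ n, (f n).bs b) ∈ U := fun n hn => up hn (le_iSup (fun n => (f n).bs b) n)
    refine ⟨⟨fun h3 => ?_, ?_⟩, ?_⟩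
    · rcases h2 with ⟨n, hn⟩ | h2
      · exact ⟨n, (ih n (h1 n)).1.1 hn⟩
      · exact (hcon _ h3 h2).elim
    · rintro ⟨n, hn⟩
      exact hup n ((ih n (h1 n)).1.2 hn)
    · rcases h2 with ⟨n, hn⟩ | h2
      · exact Or.inl (hup n hn)
      · exact Or.inr h2

/-- the subformulas of `φ` of the form `sup f` -/
def sups : BF → Set (ℕ → BF)
  | .atm _ => ∅
  | .neg φ => sups φ
  | .sup f => {f} ∪ ⋃ n, sups (f n)

lemma sups_countable (φ : BF) : (sups φ).Countable := by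
  induction φ with
  | atm n => exact countable_empty
  | neg φ ih => exact ih
  | sup f ih => exact (countable_singleton f).union (countable_iUnion ih)

/-- `U` respects `φ` if it decides the atoms and respects the countable suprema of its
subformulas -/
lemma resp_of {B : Type} [CompleteBooleanAlgebra B] {U : Set B} {b : ℕ → B} {φ : BF}
    (h1 : ∀ n, b n ∈ U ∨ (b n)ᶜ ∈ U)
    (h2 : ∀ f ∈ sups φ, (∃ n, (f n).bs b ∈ U) ∨ (⨆ n, (f n).bs b)ᶜ ∈ U) : Resp U b φ := by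
  induction φ with
  | atm n => exact h1 n
  | neg φ ih => exact ih h2
  | sup f ih =>
    exact ⟨fun n => ih n fun g hg => h2 g (Or.inr (mem_iUnion.2 ⟨n, hg⟩)),
      h2 f (Or.inl rfl)⟩

end BF

/-- A predicate of points of `2^ω` is Borel (has a code). -/
def IsBor (P : (ℕ → Prop) → Prop) : Prop := ∃ φ : BF, ∀ r, φ.sem r ↔ P r

namespace IsBor

variable {P Q : (ℕ → Prop) → Prop}

theorem atom (n : ℕ) : IsBor (fun r => r n) := ⟨.atm n, fun _ => Iff.rfl⟩

theorem const (p : Prop) : IsBor (fun _ => p) := by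
  have htrue : IsBor (fun _ => True) := by
    refine ⟨.sup fun n => if n = 0 then .atm 0 else .neg (.atm 0), fun r => ?_⟩
    refine iff_of_true ?_ trivial
    by_cases h : r 0
    · exact ⟨0, by simpa [BF.sem] using h⟩
    · exact ⟨1, by simpa [BF.sem] using h⟩
  by_cases hp : p
  · simpa [hp] using htrue
  · obtain ⟨φ, hφ⟩ := htrue
    exact ⟨.neg φ, fun r => by simp [BF.sem, hφ, hp]⟩

theorem not (hP : IsBor P) : IsBor (fun r => ¬ P r) := by
  obtain ⟨φ, hφ⟩ := hP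
  exact ⟨.neg φ, fun r => not_congr (hφ r)⟩

theorem or (hP : IsBor P) (hQ : IsBor Q) : IsBor (fun r => P r ∨ Q r) := by
  obtain ⟨φ, hφ⟩ := hP
  obtain ⟨ψ, hψ⟩ := hQ
  refine ⟨.sup fun n => if n = 0 then φ else ψ, fun r => ?_⟩
  change _ ↔ (P r ∨ Q r)
  rw [← hφ, ← hψ]
  constructor
  · rintro ⟨n, hn⟩
    by_cases h : n = 0
    · left; simpa [h] using hn
    · right; simpa [h] using hn
  · rintro (h | h)
    · exact ⟨0, by simpa using h⟩
    · exact ⟨1, by simpa using h⟩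

theorem and (hP : IsBor P) (hQ : IsBor Q) : IsBor (fun r => P r ∧ Q r) := by
  obtain ⟨φ, hφ⟩ := (hP.not.or hQ.not).not
  exact ⟨φ, fun r => (hφ r).trans (by tauto)⟩

theorem imp (hP : IsBor P) (hQ : IsBor Q) : IsBor (fun r => P r → Q r) := by
  obtain ⟨φ, hφ⟩ := hP.not.or hQ
  exact ⟨φ, fun r => (hφ r).trans (by tauto)⟩

theorem iff (hP : IsBor P) (hQ : IsBor Q) : IsBor (fun r => P r ↔ Q r) := by
  obtain ⟨φ, hφ⟩ := (hP.imp hQ).and (hQ.imp hP)
  exact ⟨φ, fun r => (hφ r).trans (by tauto)⟩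

theorem ex {ι : Type} [Countable ι] {P : ι → (ℕ → Prop) → Prop} (h : ∀ i, IsBor (P i)) :
    IsBor (fun r => ∃ i, P i r) := by
  rcases isEmpty_or_nonempty ι with hι | hι
  · obtain ⟨φ, hφ⟩ := const False
    exact ⟨φ, fun r => (hφ r).trans (by simp)⟩
  · choose φ hφ using h
    obtain ⟨g, hg⟩ := exists_surjective_nat ι
    refine ⟨.sup fun n => φ (g n), fun r => ?_⟩
    constructor
    · rintro ⟨n, hn⟩
      exact ⟨g n, (hφ _ r).1 hn⟩
    · rintro ⟨i, hi⟩
      obtain ⟨n, rfl⟩ := hg i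
      exact ⟨n, (hφ _ r).2 hi⟩

theorem all {ι : Type} [Countable ι] {P : ι → (ℕ → Prop) → Prop} (h : ∀ i, IsBor (P i)) :
    IsBor (fun r => ∀ i, P i r) := by
  obtain ⟨φ, hφ⟩ := (ex fun i => (h i).not).not
  exact ⟨φ, fun r => (hφ r).trans (by push Not; rfl)⟩

theorem comp (hP : IsBor P) {Ψ : (ℕ → Prop) → ℕ → Prop} (h : ∀ n, IsBor (fun r => Ψ r n)) :
    IsBor (fun r => P (Ψ r)) := by
  obtain ⟨φ, hφ⟩ := hP
  choose σ hσ using h
  refine ⟨φ.subst σ, fun r => ?_⟩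
  change _ ↔ P (Ψ r)
  rw [BF.sem_subst, ← hφ]
  have : (fun n => (σ n).sem r) = Ψ r := by
    funext n
    exact propext (hσ n r)
  rw [this]

theorem congr (hP : IsBor P) (h : ∀ r, P r ↔ Q r) : IsBor Q := by
  obtain ⟨φ, hφ⟩ := hP
  exact ⟨φ, fun r => (hφ r).trans (h r)⟩

end IsBor

end Pool.Agent.Lib.KZF
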