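import Mathlib
import Pool.Agent.Lib.MP_c00cb7_lc.KInf

/-!
# Models with a truth lemma satisfy `ZF` (port of `Model`)
-/

set_option autoImplicit false

open Set

namespace Pool.Agent.Lib.KZF

open Pool.Agent.Lib.SymZF Pool.Agent.Lib.SymZF.SymSys Name

namespace KSys

variable {S : KSys}

/-- A structure `(M, E)` with a truth lemma: every element `x` has a name `nm x`, and a formula
holds iff its Boolean value for the names is in `U`. -/
structure TModel (S : KSys) (M : Type) (E : M → M → Prop) where
  /-- an element -/
  pt : M
  /-- names of the elements -/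
  nm : M → S.HSet
  /-- the true values -/
  U : Set S.B
  top : ⊤ ∈ U
  truth : ∀ (φ : Fml) (v : ℕ → M), Sat E φ v ↔ bval φ (fun i => nm (v i)) ∈ U

lemma TModel.sat_of_valid {M : Type} {E : M → M → Prop} (G : TModel S M E) (φ : Fml) (w : ℕ → M)
    (h : ∀ v : ℕ → S.HSet, bval φ v = ⊤) : Sat E φ w := by
  rw [G.truth, h]
  exact G.top

private lemma himp_self_inf (a : S.B) : (a ⇨ a) ⊓ (a ⇨ a) = ⊤ := by simp

/-- A model with a truth lemma satisfies ZF. -/
theorem TModel.isZF {M : Type} {E : M → M → Prop} (G : TModel S M E) : IsZF E where
  ext x y h := by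
    have h1 := G.sat_of_valid
      ((Fml.all (Fml.iff (.mem 0 1) (.mem 0 2))).imp (.eq 0 1)) (scons x (fun _ => y)) (by
        intro v
        simp only [bval_imp, bval_all, bval_iff, bval_mem, bval_eq, scons_zero, scons_one,
          scons_two]
        rw [himp_eq_top_iff]
        refine HSet.le_eq (fun z => ?_) (fun z => ?_)
        · exact (inf_le_inf_right _ ((iInf_le _ z).trans inf_le_left)).trans himp_inf_le
        · exact (inf_le_inf_right _ ((iInf_le _ z).trans inf_le_right)).trans himp_inf_le)
    simp only [sat_imp, sat_all, sat_iff, sat_mem, sat_eq, scons_zero, scons_one,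
      scons_two] at h1
    exact h1 h
  found x h := by
    have h1 := G.sat_of_valid
      ((Fml.ex (.mem 0 1)).imp (Fml.ex ((Fml.mem 0 1).and
        (Fml.all ((Fml.mem 0 1).imp (Fml.neg (.mem 0 2))))))) (fun _ => x) (by
        intro v
        simp only [bval_imp, bval_all, bval_ex, bval_and, bval_neg, bval_mem, scons_zero,
          scons_one, scons_two]
        rw [himp_eq_top_iff]
        exact hs_found _)
    simp only [sat_imp, sat_all, sat_ex, sat_and, sat_neg, sat_mem, scons_zero, scons_one,
      scons_two] at h1
    exact h1 h
  pair x y := by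
    have h1 := G.sat_of_valid
      (Fml.ex (Fml.all ((Fml.mem 0 1).iff ((Fml.eq 0 2).or (.eq 0 3)))))
        (scons x (fun _ => y)) (by
        intro v
        simp only [bval_ex, bval_all, bval_iff, bval_or, bval_mem, bval_eq, scons_zero,
          scons_one, scons_two, scons_three]
        obtain ⟨p, hp⟩ := hs_pair (v 0) (v 1)
        rw [eq_top_iff]
        refine le_iSup_of_le p ?_
        refine le_iInf fun z => ?_
        rw [hp, himp_self_inf])
    simpa using h1
  union x := by
    have h1 := G.sat_of_valid
      (Fml.ex (Fml.all ((Fml.mem 0 1).iff (Fml.ex ((Fml.mem 0 3).and (.mem 1 0))))))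
        (fun _ => x) (by
        intro v
        simp only [bval_ex, bval_all, bval_iff, bval_and, bval_mem, scons_zero,
          scons_one, scons_two, scons_three]
        obtain ⟨p, hp⟩ := hs_union (v 0)
        rw [eq_top_iff]
        refine le_iSup_of_le p ?_
        refine le_iInf fun z => ?_
        rw [hp, himp_self_inf])
    simpa using h1
  power x := by
    have h1 := G.sat_of_valid
      (Fml.ex (Fml.all ((Fml.mem 0 1).iff (Fml.all ((Fml.mem 0 1).imp (.mem 0 3))))))
        (fun _ => x) (by
        intro v
        simp only [bval_ex, bval_all, bval_iff, bval_imp, bval_mem, scons_zero,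
          scons_one, scons_two, scons_three]
        obtain ⟨p, hp⟩ := hs_power (v 0)
        rw [eq_top_iff]
        refine le_iSup_of_le p ?_
        refine le_iInf fun z => ?_
        rw [hp, himp_self_inf])
    simpa using h1
  infinity := by
    have h1 := G.sat_of_valid
      (Fml.ex ((Fml.ex ((Fml.all (Fml.neg (.mem 0 1))).and (.mem 0 1))).and
        (Fml.all ((Fml.mem 0 1).imp (Fml.ex ((Fml.all ((Fml.mem 0 1).iff
          ((Fml.mem 0 2).or (.eq 0 2)))).and (.mem 0 2)))))))
        (fun _ => G.pt) (by
        intro v
        simp only [bval_ex, bval_all, bval_and, bval_or, bval_iff, bval_imp, bval_neg, bval_mem,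
          bval_eq, scons_zero, scons_one, scons_two]
        rw [eq_top_iff]
        refine le_iSup_of_le (HSet.om S) (le_inf ?_ ?_)
        · refine le_iSup_of_le (HSet.num S 0) (le_inf ?_ ?_)
          · refine le_iInf fun z => ?_
            rw [HSet.mem_num_zero, compl_bot]
          · rw [HSet.mem_om]
            exact le_iSup_of_le 0 (by simp)
        · refine le_iInf fun x => ?_
          rw [HSet.mem_om, top_le_iff, himp_eq_top_iff]
          refine iSup_le fun n => ?_
          refine le_iSup_of_le (HSet.num S (n + 1)) (le_inf ?_ ?_)
          · refine le_iInf fun z => ?_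
            rw [HSet.mem_num_succ]
            refine le_inf ?_ ?_
            · rw [le_himp_iff, inf_sup_left]
              refine sup_le_sup ?_ ?_
              · rw [HSet.eq_symm]; exact HSet.mem_congr_right _ _ _
              · rw [HSet.eq_symm x, inf_comm]; exact HSet.eq_trans _ _ _
            · rw [le_himp_iff, inf_sup_left]
              refine sup_le_sup ?_ ?_
              · exact HSet.mem_congr_right _ _ _
              · rw [inf_comm]; exact HSet.eq_trans _ _ _
          · rw [HSet.mem_om]
            exact le_iSup_of_le (n + 1) (by simp))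
    simpa using h1
  sep φ v x := by
    have h1 := G.sat_of_valid
      (Fml.ex (Fml.all ((Fml.mem 0 1).iff ((Fml.mem 0 2).and
        (φ.ren (fun n => Nat.casesOn n 0 (fun m => m + 3)))))))
        (scons x v) (by
        intro v
        simp only [bval_ex, bval_all, bval_iff, bval_and, bval_mem, scons_zero,
          scons_one, scons_two, bval_ren]
        obtain ⟨p, hp⟩ := hs_sep (v 0) φ (fun n => v (n + 1))
        rw [eq_top_iff]
        refine le_iSup_of_le p ?_
        refine le_iInf fun z => ?_
        rw [hp]
        have e : (fun n => scons z (scons p v) (Nat.casesOn n 0 (fun m => m + 3) : ℕ)) =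
            scons z (fun n => v (n + 1)) := by
          funext n
          cases n <;> rfl
        rw [e, himp_self_inf])
    simp only [sat_ex, sat_all, sat_iff, sat_and, sat_mem, scons_zero,
          scons_one, scons_two, sat_ren] at h1
    obtain ⟨y, hy⟩ := h1
    refine ⟨y, fun z => ?_⟩
    rw [hy]
    have e : (fun n => scons z (scons y (scons x v)) (Nat.casesOn n 0 (fun m => m + 3) : ℕ)) =
        scons z v := by
      funext n
      cases n <;> rfl
    rw [e]
  repl φ v x h := by
    have h1 := G.sat_of_valid
      (Fml.ex (Fml.all ((Fml.mem 0 1).iff ((Fml.all ((Fml.mem 0 3).imp (Fml.all (Fml.all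
        ((φ.ren (fun n => Nat.casesOn n 1 (fun m => Nat.casesOn m 2 (fun k => k + 6)))).imp
        ((φ.ren (fun n => Nat.casesOn n 0 (fun m => Nat.casesOn m 2 (fun k => k + 6)))).imp
        (Fml.eq 1 0))))))).and
        (Fml.ex ((Fml.mem 0 3).and
          (φ.ren (fun n => Nat.casesOn n 1 (fun m => Nat.casesOn m 0 (fun k => k + 4))))))))))
        (scons x v) (by
        intro v
        simp only [bval_ex, bval_all, bval_iff, bval_and, bval_imp, bval_mem, bval_eq, scons_zero,
          scons_one, scons_two, scons_three, bval_ren]
        obtain ⟨p, hp⟩ := hs_repl (v 0) φ (fun n => v (n + 1))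
        rw [eq_top_iff]
        refine le_iSup_of_le p ?_
        refine le_iInf fun z => ?_
        rw [hp]
        have e1 : ∀ a b b' : S.HSet, (fun n => scons b' (scons b (scons a (scons z (scons p v))))
            (Nat.casesOn n 1 (fun m => Nat.casesOn m 2 (fun k => k + 6)) : ℕ)) =
            scons b (scons a (fun n => v (n + 1))) := by
          intro a b b'
          funext n
          rcases n with _ | _ | n <;> rfl
        have e2 : ∀ a b b' : S.HSet, (fun n => scons b' (scons b (scons a (scons z (scons p v))))
            (Nat.casesOn n 0 (fun m => Nat.casesOn m 2 (fun k => k + 6)) : ℕ)) =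
            scons b' (scons a (fun n => v (n + 1))) := by
          intro a b b'
          funext n
          rcases n with _ | _ | n <;> rfl
        have e3 : ∀ a : S.HSet, (fun n => scons a (scons z (scons p v))
            (Nat.casesOn n 1 (fun m => Nat.casesOn m 0 (fun k => k + 4)) : ℕ)) =
            scons z (scons a (fun n => v (n + 1))) := by
          intro a
          funext n
          rcases n with _ | _ | n <;> rfl
        simp only [e1, e2, e3]
        rw [himp_self_inf])
    simp only [sat_ex, sat_all, sat_iff, sat_and, sat_imp, sat_mem, sat_eq, scons_zero,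
          scons_one, scons_two, scons_three, sat_ren] at h1
    obtain ⟨y, hy⟩ := h1
    refine ⟨y, fun z => ?_⟩
    rw [hy]
    have e1 : ∀ a b b' : M, (fun n => scons b' (scons b (scons a (scons z (scons y
        (scons x v))))) (Nat.casesOn n 1 (fun m => Nat.casesOn m 2 (fun k => k + 6)) : ℕ)) =
        scons b (scons a v) := by
      intro a b b'
      funext n
      rcases n with _ | _ | n <;> rfl
    have e2 : ∀ a b b' : M, (fun n => scons b' (scons b (scons a (scons z (scons y
        (scons x v))))) (Nat.casesOn n 0 (fun m => Nat.casesOn m 2 (fun k => k + 6)) : ℕ)) =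
        scons b' (scons a v) := by
      intro a b b'
      funext n
      rcases n with _ | _ | n <;> rfl
    have e3 : ∀ a : M, (fun n => scons a (scons z (scons y (scons x v)))
        (Nat.casesOn n 1 (fun m => Nat.casesOn m 0 (fun k => k + 4)) : ℕ)) =
        scons z (scons a v) := by
      intro a
      funext n
      rcases n with _ | _ | n <;> rfl
    simp only [e1, e2, e3]
    constructor
    · exact fun h => h.2
    · refine fun h' => ⟨fun a ha b b' hb hb' => ?_, h'⟩
      exact (h a ha).unique hb hb'

end KSys

end Pool.Agent.Lib.KZF
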