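import Mathlib
import Pool.Agent.Lib.SymZF.IntDefs

/-!
# Definitions for the statement (MP_c00cb7_lc)

`(M, E)` is a structure for the language of set theory (`E` is the membership relation).
`IsZF E` (all axioms of `ZF`) is defined in `Pool.Agent.Lib.SymZF.ZF`; the elementary notions
`IsOPair E x y p` (`p = (x, y)`), `Rel E r x y` (`(x, y) ∈ r`), `IsSucc E x s` (`s = x ∪ {x}`),
`IsOmega E w` (`w = ω`, the least inductive set), `IsFun E f x y` (`f` is a function from `x` to
`y`), `IsNum E n k` (`k` is the natural number `n` of `M`) and `OmegaStd E` (every natural number of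
`M` is of this form) are defined in `Pool.Agent.Lib.SymZF.IntDefs`.
-/

set_option autoImplicit false

namespace Pool.Agent.Lib.BPLM

open Pool.Agent.Lib.SymZF

variable {M : Type} (E : M → M → Prop)

/-- `f` is a function from `a` onto `b` -/
def IsOnto (f a b : M) : Prop := IsFun E f a b ∧ ∀ y, E y b → ∃ x, E x a ∧ Rel E f x y

/-- `a` is an ordinal: a transitive set of transitive sets -/
def IsOrd (a : M) : Prop :=
  (∀ x, E x a → ∀ y, E y x → E y a) ∧ ∀ x, E x a → ∀ y, E y x → ∀ z, E z y → E z x

/-- The axiom of dependent choices. -/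
def IsDC : Prop :=
  ∀ X R : M, (∃ x, E x X) → (∀ x, E x X → ∃ y, E y X ∧ Rel E R x y) →
    ∃ w f, IsOmega E w ∧ IsFun E f w X ∧
      ∀ n m, E n w → IsSucc E n m → ∀ x y, Rel E f n x → Rel E f m y → Rel E R x y

/-! ### Reals -/

/-- `x` is a real of `M`: a subset of `ω` -/
def IsReal (x : M) : Prop := ∃ w, IsOmega E w ∧ ∀ z, E z x → E z w

/-- The set of natural numbers given by `x`: `n` such that (the number `n` of `M`) is in `x` -/
def rl (x : M) : ℕ → Prop := fun n => ∃ z, IsNum E n z ∧ E z x

/-- `r` (a set of natural numbers, i.e. a point of `2^ω`) is in `M` -/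
def InM (r : ℕ → Prop) : Prop := ∃ x, IsReal E x ∧ rl E x = r

/-- `r` is an element of the set of reals `A` of `M` -/
def MemA (A : M) (r : ℕ → Prop) : Prop := ∃ x, IsReal E x ∧ rl E x = r ∧ E x A

/-! ### Open sets, category, measure (outside of `M`, for codes in `M`) -/

/-- the finite 0-1-string `s` is an initial segment of the point `r` of `2^ω` -/
def Ext (s : List Bool) (r : ℕ → Prop) : Prop := ∀ i (h : i < s.length), (r i ↔ s[i] = true)

/-- the point `r` is in the open set given by the set `u` of strings -/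
def InO (u : Set (List Bool)) (r : ℕ → Prop) : Prop := ∃ s ∈ u, Ext s r

/-- the set `u` of strings as a real -/
def codeS (u : Set (List Bool)) : ℕ → Prop :=
  fun n => ∃ s ∈ u, Encodable.encode s = n

/-- the sequence `D` of sets of strings as a real -/
def codeD (D : ℕ → Set (List Bool)) : ℕ → Prop :=
  fun n => ∃ k, ∃ s ∈ D k, Nat.pair k (Encodable.encode s) = n

/-- the open set given by `u` is dense -/
def DenseS (u : Set (List Bool)) : Prop := ∀ s : List Bool, ∃ t, s <+: t ∧ ∃ t' ∈ u, t' <+: t

/-- Every set of reals of `M` has the Baire property (in `M`): for every `A` in `M` there are in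
`M` a (code of a) open set `O_u` and (a code of) a sequence of dense open sets `O_{D k}` such that
every real of `M` in the intersection of the `O_{D k}` is in `A` iff it is in `O_u`. -/
def AllBP : Prop :=
  ∀ A : M, ∃ (u : Set (List Bool)) (D : ℕ → Set (List Bool)), InM E (codeS u) ∧
    InM E (codeD D) ∧ (∀ k, DenseS (D k)) ∧
    ∀ r, InM E r → (∀ k, InO (D k) r) → (MemA E A r ↔ InO u r)

/-- The intersection of the open sets given by `u` and `v` has measure `≤ 2^{-n}`: for every `m`,
at most `2^{m-n}` strings of length `m` have initial segments both in `u` and in `v`. -/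
def MeasLe (n : ℕ) (u v : Set (List Bool)) : Prop :=
  ∀ m, Nat.card {s : List Bool // s.length = m ∧ (∃ t ∈ u, t <+: s) ∧ ∃ t ∈ v, t <+: s} * 2 ^ n ≤
    2 ^ m

/-- The set of reals `A` of `M` is Lebesgue measurable in `M`: for every `n` there are (codes of)
open sets `O_u ⊇ A` and `O_v ⊇ 2^ω \ A` in `M` such that `O_u ∩ O_v` has measure `≤ 2^{-n}`. -/
def IsLM (A : M) : Prop :=
  ∀ n, ∃ u v : Set (List Bool), InM E (codeS u) ∧ InM E (codeS v) ∧
    (∀ r, InM E r → MemA E A r → InO u r) ∧ (∀ r, InM E r → ¬ MemA E A r → InO v r) ∧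
    MeasLe n u v

/-! ### Inner models -/

/-- `W` is an inner model of `M`: a transitive subclass which contains all ordinals of `M` and
satisfies `ZF`. -/
structure InnerModel (W : Set M) : Prop where
  trans : ∀ x ∈ W, ∀ y, E y x → y ∈ W
  ord : ∀ a, IsOrd E a → a ∈ W
  zf : IsZF (fun x y : W => E x.1 y.1)

/-- `z ∈ L[x]`: `z` is in every inner model of `M` containing `x` (`L[x]` is the least inner model
of `ZF` containing the real `x`). -/
def InL (x z : M) : Prop := ∀ W : Set M, InnerModel E W → x ∈ W → z ∈ W

/-- `ω₁` is inaccessible by reals: for every real `x` there is an ordinal `a ≠ 0` of `M` which is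
countable in `M` but not in `L[x]`, i.e. `ω₁^{L[x]} < ω₁`. -/
def OmegaOneInacc : Prop :=
  ∀ x, IsReal E x → ∃ a w, IsOrd E a ∧ (∃ b, E b a) ∧ IsOmega E w ∧ (∃ f, IsOnto E f w a) ∧
    ∀ f, InL E x f → ¬ IsOnto E f w a

/-- `κ → (κ)^{<ω}_2` for the well-ordered set `κ.ord.ToType` of size `κ`: every colouring of its
finite subsets by two colours has a homogeneous set `I` of size `κ`: for every `n` all subsets of
`I` of size `n` have the same colour. -/
def RamseyCard (κ : Cardinal.{0}) : Prop :=
  ∀ f : Finset κ.ord.ToType → Bool, ∃ I : Set κ.ord.ToType, Cardinal.mk I = κ ∧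
    ∀ n, ∃ c, ∀ s : Finset κ.ord.ToType, ↑s ⊆ I → s.card = n → f s = c

end Pool.Agent.Lib.BPLM
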