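import Mathlib
import Pool.Agent.Lib.SymZF.RO

/-!
# The regular open algebra of a preorder as a complete Boolean algebra `RB P`, with the map `em`
-/

set_option autoImplicit false

open Set

namespace Pool.Agent.Lib.BPLM

open Pool.Agent.Lib.SymZF

/-- The regular open algebra of the preorder `P`. -/
def RB (P : Type) [Preorder P] : Type := RO P

noncomputable instance (P : Type) [Preorder P] : CompleteBooleanAlgebra (RB P) :=
  inferInstanceAs (CompleteBooleanAlgebra (RO P))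

variable {P : Type} [Preorder P]

/-- the Boolean value of a condition -/
noncomputable def em (p : P) : RB P := emb p

/-- the set of the conditions below a Boolean value -/
def RB.st (b : RB P) : Set P := {p | p ∈ (show RO P from b).val}

lemma em_le_iff {p : P} {b : RB P} : em p ≤ b ↔ p ∈ b.st := emb_le_iff

lemma em_mono {p q : P} (h : p ≤ q) : em p ≤ em q := emb_mono h

lemma em_ne_bot (p : P) : em p ≠ ⊥ := emb_ne_bot p

lemma exists_em_le {b : RB P} (h : b ≠ ⊥) : ∃ p : P, em p ≤ b := exists_emb_le h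

lemma em_inf_eq_bot {p q : P} (h : ∀ r, r ≤ p → ¬ r ≤ q) : em p ⊓ em q = ⊥ := emb_inf_eq_bot h

lemma exists_le_of_em_le {p q : P} (h : em q ≤ em p) : ∃ r, r ≤ q ∧ r ≤ p := by
  have h1 : q ∈ (emb p).val := emb_le_iff.1 h
  rw [mem_emb] at h1
  obtain ⟨s, h2, h3⟩ := h1 q le_rfl
  exact ⟨s, h2, h3⟩

lemma exists_le_of_inf_ne_bot {q : P} {b : RB P} (h : em q ⊓ b ≠ ⊥) :
    ∃ r, r ≤ q ∧ em r ≤ b := by
  obtain ⟨t, ht⟩ := exists_em_le h
  obtain ⟨r, h1, h2⟩ := exists_le_of_em_le (ht.trans inf_le_left)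
  exact ⟨r, h2, (em_mono h1).trans (ht.trans inf_le_right)⟩

lemma exists_le_of_not_le {q : P} {b : RB P} (h : ¬ em q ≤ b) : ∃ r, r ≤ q ∧ em r ≤ bᶜ := by
  apply exists_le_of_inf_ne_bot
  intro h1
  apply h
  rw [← disjoint_iff, disjoint_compl_right_iff] at h1
  exact h1

lemma decide_or {q : P} (b : RB P) : ∃ r, r ≤ q ∧ (em r ≤ b ∨ em r ≤ bᶜ) := by
  by_cases h : em q ≤ b
  · exact ⟨q, le_rfl, Or.inl h⟩
  · obtain ⟨r, h1, h2⟩ := exists_le_of_not_le h
    exact ⟨r, h1, Or.inr h2⟩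

lemma exists_le_of_le_iSup {ι : Sort*} {q : P} {b : ι → RB P} (h : em q ≤ ⨆ i, b i) :
    ∃ r i, r ≤ q ∧ em r ≤ b i := by
  by_contra hcon
  push Not at hcon
  apply em_ne_bot q
  rw [← le_bot_iff]
  calc em q ≤ em q ⊓ ⨆ i, b i := le_inf le_rfl h
    _ ≤ ⊥ := by
      rw [inf_iSup_eq]
      refine iSup_le fun i => ?_
      by_contra hne
      obtain ⟨r, h1, h2⟩ := exists_le_of_inf_ne_bot (fun h => hne (le_of_eq h))
      exact hcon r i h1 h2

/-- A Boolean value is below another one as soon as no condition separates them. -/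
lemma le_of_forall_em {a b : RB P} (h : ∀ q : P, em q ≤ a → ∃ r, r ≤ q ∧ em r ≤ b) :
    a ≤ b := by
  by_contra hcon
  rw [← disjoint_compl_right_iff, disjoint_iff] at hcon
  obtain ⟨p, hp⟩ := exists_em_le hcon
  obtain ⟨r, h1, h2⟩ := h p (hp.trans inf_le_left)
  apply em_ne_bot r
  rw [← le_bot_iff]
  calc em r ≤ b ⊓ bᶜ := le_inf h2 ((em_mono h1).trans (hp.trans inf_le_right))
    _ ≤ ⊥ := by simp

/-- A condition is below `b` as soon as every extension has an extension below `b`. -/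
lemma em_le_of_forall {q : P} {b : RB P} (h : ∀ r, r ≤ q → ∃ s, s ≤ r ∧ em s ≤ b) :
    em q ≤ b := by
  refine le_of_forall_em fun p hp => ?_
  obtain ⟨r, h1, h2⟩ := exists_le_of_em_le hp
  obtain ⟨s, h3, h4⟩ := h r h2
  exact ⟨s, h3.trans h1, h4⟩

lemma inf_ne_bot_of_le {p q r : P} (h1 : r ≤ p) (h2 : r ≤ q) : em p ⊓ em q ≠ ⊥ := by
  intro h
  apply em_ne_bot r
  rw [← le_bot_iff, ← h]
  exact le_inf (em_mono h1) (em_mono h2)

lemma exists_le_le_of_inf_ne_bot {p q : P} (h : em p ⊓ em q ≠ ⊥) : ∃ r, r ≤ p ∧ r ≤ q := by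
  by_contra hcon
  push Not at hcon
  exact h (em_inf_eq_bot hcon)

/-- the action of the automorphisms of the preorder -/
noncomputable def rbHom : (P ≃o P) →* (RB P ≃o RB P) := roHom

lemma rbHom_em (f : P ≃o P) (p : P) : rbHom f (em p) = em (f p) := roMap_emb f p

end Pool.Agent.Lib.BPLM
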