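import Mathlib

/-!
# Sweet preorders (MP_c00cb7_lc)

A sweet preorder `S : Sw U` lives on the subset `S.X` of the ambient type `U` (everything outside
`S.X` is junk). `S.cd n x` is the code of the `n`-th equivalence class of `x`; x E_n y is
`S.cd n x = S.cd n y`.
-/

set_option autoImplicit false

open Set

namespace Pool.Agent.Lib.BPLM

/-- The property (W) of `y` with respect to the family `L`. -/
def WP {U : Type} (X : Set U) (le : U → U → Prop) (cd : ℕ → U → ℕ) {ι : Type} (L : ι → U)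
    (y : U) : Prop :=
  ∀ n, ∃ k, ∀ L' : ι → U, (∀ i, L' i ∈ X) → (∀ i, cd k (L' i) = cd k (L i)) →
    ∃ y' ∈ X, (∀ i, le y' (L' i)) ∧ cd n y' = cd n y

/-- A sweet preorder on a subset `X` of the type `U`. Everything outside `X` is junk. -/
structure Sw (U : Type) where
  /-- the underlying set -/
  X : Set U
  /-- the top element -/
  top : U
  /-- the order (smaller is stronger) -/
  le : U → U → Prop
  /-- the codes of the equivalence classes -/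
  cd : ℕ → U → ℕ
  top_mem : top ∈ X
  refl : ∀ x ∈ X, le x x
  trans : ∀ x ∈ X, ∀ y ∈ X, ∀ z ∈ X, le x y → le y z → le x z
  le_top : ∀ x ∈ X, le x top
  sep : ∀ x ∈ X, ∀ y ∈ X, (∀ z ∈ X, le z x → ∃ w ∈ X, le w z ∧ le w y) → le x y
  mono : ∀ n, ∀ x ∈ X, ∀ y ∈ X, cd (n + 1) x = cd (n + 1) y → cd n x = cd n y
  dir : ∀ n, ∀ x ∈ X, ∀ y ∈ X, cd n x = cd n y →
    ∃ z ∈ X, le z x ∧ le z y ∧ cd n z = cd n x
  lim : ∀ (x : ℕ → U) (y : U), (∀ i, x i ∈ X) → y ∈ X → (∀ i, cd i (x i) = cd i y) →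
    ∀ n, ∃ r ∈ X, (∀ i, n ≤ i → le r (x i)) ∧ cd n r = cd n y
  W : ∀ (ι : Type) [Finite ι] (L : ι → U) (y₀ : U), (∀ i, L i ∈ X) → y₀ ∈ X →
    (∀ i, le y₀ (L i)) → ∃ y ∈ X, le y y₀ ∧ WP X le cd L y
  iso : ∀ x ∈ X, cd 0 x = cd 0 top → x = top

namespace Sw

variable {U V : Type}

/-- compatibility -/
def cmp (S : Sw U) (x y : U) : Prop := ∃ z ∈ S.X, S.le z x ∧ S.le z y

/-- `D` is predense below `x` -/
def Pd (S : Sw U) (D : Set U) (x : U) : Prop :=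
  ∀ w ∈ S.X, S.le w x → ∃ d ∈ D, S.cmp w d

/-- `P ≤ Q`: the sweet preorder `Q` is a coherent regular extension of `P`. -/
structure Sub (P Q : Sw U) : Prop where
  sub : P.X ⊆ Q.X
  top : Q.top = P.top
  le_iff : ∀ x ∈ P.X, ∀ y ∈ P.X, (Q.le x y ↔ P.le x y)
  cmp_of : ∀ x ∈ P.X, ∀ y ∈ P.X, Q.cmp x y → P.cmp x y
  cd_iff : ∀ n, ∀ x ∈ P.X, ∀ y ∈ P.X, (Q.cd n x = Q.cd n y ↔ P.cd n x = P.cd n y)
  closed : ∀ x ∈ P.X, ∀ y ∈ Q.X, Q.cd 0 x = Q.cd 0 y → y ∈ P.X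
  red : ∀ y ∈ Q.X, ∃ x ∈ P.X, ∀ x' ∈ P.X, P.le x' x → Q.cmp x' y

/-- the size restriction -/
def Small (S : Sw U) : Prop := Cardinal.mk S.X ≤ Cardinal.continuum

section basic
variable (S : Sw U)

theorem mono_le {m n : ℕ} (h : m ≤ n) {x y : U} (hx : x ∈ S.X) (hy : y ∈ S.X)
    (hc : S.cd n x = S.cd n y) : S.cd m x = S.cd m y := by
  induction n with
  | zero => obtain rfl : m = 0 := by omega
            exact hc
  | succ n ih =>
    rcases Nat.lt_or_ge m (n + 1) with h1 | h1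
    · exact ih (by omega) (S.mono n x hx y hy hc)
    · obtain rfl : m = n + 1 := by omega
      exact hc

theorem cmp_symm {x y : U} (h : S.cmp x y) : S.cmp y x := by
  obtain ⟨z, hz, h1, h2⟩ := h
  exact ⟨z, hz, h2, h1⟩

theorem cmp_mono {x x' y y' : U} (hx : x ∈ S.X) (hx' : x' ∈ S.X) (hy : y ∈ S.X) (hy' : y' ∈ S.X)
    (h1 : S.le x x') (h2 : S.le y y') (h : S.cmp x y) : S.cmp x' y' := by
  obtain ⟨z, hz, h3, h4⟩ := h
  exact ⟨z, hz, S.trans _ hz _ hx _ hx' h3 h1, S.trans _ hz _ hy _ hy' h4 h2⟩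

theorem cmp_of_le {x y z : U} (hz : z ∈ S.X) (h1 : S.le z x) (h2 : S.le z y) : S.cmp x y :=
  ⟨z, hz, h1, h2⟩

/-- finitely many elements of one class have a common lower bound in the class
(induction on the finite type / on `Fintype.card`, using `dir`) -/
theorem dir_finite (n : ℕ) (x : U) (hx : x ∈ S.X) {ι : Type} [Finite ι] (y : ι → U)
    (hy : ∀ i, y i ∈ S.X) (hc : ∀ i, S.cd n (y i) = S.cd n x) :
    ∃ z ∈ S.X, S.le z x ∧ (∀ i, S.le z (y i)) ∧ S.cd n z = S.cd n x := by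
  classical
  have key : ∀ s : Finset ι, ∃ z ∈ S.X, S.le z x ∧ (∀ i ∈ s, S.le z (y i)) ∧
      S.cd n z = S.cd n x := by
    intro s
    induction s using Finset.induction_on with
    | empty => exact ⟨x, hx, S.refl x hx, by simp, rfl⟩
    | insert a s ha ih =>
      obtain ⟨z, hz, h1, h2, h3⟩ := ih
      obtain ⟨w, hw, hw1, hw2, hw3⟩ := S.dir n z hz (y a) (hy a) (h3.trans (hc a).symm)
      refine ⟨w, hw, S.trans _ hw _ hz _ hx hw1 h1, ?_, hw3.trans h3⟩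
      intro i hi
      rcases Finset.mem_insert.1 hi with rfl | hi
      · exact hw2
      · exact S.trans _ hw _ hz _ (hy i) hw1 (h2 i hi)
  have : Fintype ι := Fintype.ofFinite ι
  obtain ⟨z, hz, h1, h2, h3⟩ := key Finset.univ
  exact ⟨z, hz, h1, fun i => h2 i (Finset.mem_univ i), h3⟩

/-- `lim` with the limit `y` itself also above the bound: apply `lim`, then `dir` to the bound
and `y`. -/
theorem lim' (x : ℕ → U) (y : U) (hx : ∀ i, x i ∈ S.X) (hy : y ∈ S.X) (n : ℕ)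
    (hc : ∀ i, n ≤ i → S.cd i (x i) = S.cd i y) :
    ∃ r ∈ S.X, (∀ i, n ≤ i → S.le r (x i)) ∧ S.le r y ∧ S.cd n r = S.cd n y := by
  classical
  obtain ⟨r, hr, h1, h2⟩ := S.lim (fun i => if n ≤ i then x i else y) y
    (by intro i; split_ifs; exacts [hx i, hy]) hy
    (by intro i; split_ifs with h; exacts [hc i h, rfl]) n
  obtain ⟨z, hz, h3, h4, h5⟩ := S.dir n r hr y hy h2
  refine ⟨z, hz, ?_, h4, h5.trans h2⟩
  intro i hi
  have h6 := h1 i hi
  simp only [hi, if_true] at h6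
  exact S.trans _ hz _ hr _ (hx i) h3 h6

/-- (W) with the property for all larger `k`: if `y` has (WP), then for every `n` there is `k₀`
such that every `k ≥ k₀` works (by `mono_le`). -/
theorem WP.ge {S : Sw U} {ι : Type} {L : ι → U} (hL : ∀ i, L i ∈ S.X) {y : U}
    (h : WP S.X S.le S.cd L y) (n : ℕ) :
    ∃ k₀, ∀ k, k₀ ≤ k → ∀ L' : ι → U, (∀ i, L' i ∈ S.X) → (∀ i, S.cd k (L' i) = S.cd k (L i)) →
      ∃ y' ∈ S.X, (∀ i, S.le y' (L' i)) ∧ S.cd n y' = S.cd n y := by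
  obtain ⟨k₀, hk⟩ := h n
  refine ⟨k₀, fun k hk' L' hL' hc => hk L' hL' fun i => ?_⟩
  exact mono_le S hk' (hL' i) (hL i) (hc i)

/-- (PD): limits of approximations are predense.
Proof: apply `W` to the one-element list `x` and `y₀ = w`: `y ≤ w` and `k` for `n = 0`. Let
`i = max k N`; `a i` is E_k-equivalent to `x`, so there is `y' ≤ a i` with `y' E_0 y`. By `dir`
`y` and `y'` have a common lower bound, it is below `w` and `a i`. -/
theorem pd_of_approx (x : U) (hx : x ∈ S.X) (a : ℕ → U) (ha : ∀ i, a i ∈ S.X) (N : ℕ)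
    (hc : ∀ i, N ≤ i → S.cd i (a i) = S.cd i x) (w : U) (hw : w ∈ S.X) (hwx : S.le w x) :
    ∃ i, N ≤ i ∧ S.cmp w (a i) := by
  obtain ⟨y, hy, hyw, hWP⟩ := S.W Unit (fun _ => x) w (fun _ => hx) hw (fun _ => hwx)
  obtain ⟨k, hk⟩ := WP.ge (S := S) (fun _ => hx) hWP 0
  obtain ⟨y', hy', h1, h2⟩ := hk (max k N) (le_max_left _ _) (fun _ => a (max k N))
    (fun _ => ha _) (fun _ => hc _ (le_max_right _ _))
  obtain ⟨z, hz, hz1, hz2, _⟩ := S.dir 0 y hy y' hy' h2.symm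
  exact ⟨max k N, le_max_right _ _, z, hz, S.trans _ hz _ hy _ hw hz1 hyw,
    S.trans _ hz _ hy' _ (ha _) hz2 (h1 ())⟩

/-- A set `D` (closed downwards, and every `w ≤ x` is compatible with an element of `D`) has a
countable subset which is predense below `x`.
Proof: for every code `m` pick (if possible) `f m ∈ D` with `cd 0 (f m) = m` (otherwise some fixed
element of `D`). Given `w ≤ x`, take `d ∈ D` and `z ≤ w, d`; `z ∈ D`; `f (cd 0 z)` is in the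
class of `z`, by `dir` there is `z' ≤ z, f (cd 0 z)`. -/
theorem exists_countable_pd (x : U) (hx : x ∈ S.X) (D : Set U) (hD : D ⊆ S.X)
    (hlow : ∀ d ∈ D, ∀ e ∈ S.X, S.le e d → e ∈ D)
    (hdense : ∀ w ∈ S.X, S.le w x → ∃ d ∈ D, S.cmp w d) :
    ∃ f : ℕ → U, (∀ i, f i ∈ D) ∧ S.Pd (range f) x := by
  classical
  obtain ⟨d₀, hd₀, -⟩ := hdense x hx (S.refl x hx)
  let f : ℕ → U := fun m => if h : ∃ d ∈ D, S.cd 0 d = m then h.choose else d₀
  have hfD : ∀ m, f m ∈ D := by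
    intro m
    by_cases h : ∃ d ∈ D, S.cd 0 d = m
    · have e : f m = h.choose := dif_pos h
      rw [e]; exact h.choose_spec.1
    · have e : f m = d₀ := dif_neg h
      rw [e]; exact hd₀
  refine ⟨f, hfD, ?_⟩
  intro w hw hwx
  obtain ⟨d, hd, z, hz, hzw, hzd⟩ := hdense w hw hwx
  have hzD : z ∈ D := hlow d hd z hz hzd
  have hex : ∃ d ∈ D, S.cd 0 d = S.cd 0 z := ⟨z, hzD, rfl⟩
  have e : f (S.cd 0 z) = hex.choose := dif_pos hex
  have hcd : S.cd 0 (f (S.cd 0 z)) = S.cd 0 z := by rw [e]; exact hex.choose_spec.2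
  obtain ⟨z', hz', h1, h2, _⟩ := S.dir 0 z hz _ (hD (hfD (S.cd 0 z))) hcd.symm
  exact ⟨f (S.cd 0 z), mem_range_self _, z', hz', S.trans _ hz' _ hz _ hw h1 hzw, h2⟩

/-- every antichain is countable (`cd 0` is injective on an antichain, by `dir`) -/
theorem ccc (A : Set U) (hA : A ⊆ S.X) (h : ∀ x ∈ A, ∀ y ∈ A, x ≠ y → ¬ S.cmp x y) :
    A.Countable := by
  have hinj : InjOn (S.cd 0) A := by
    intro x hx y hy hxy
    by_contra hne
    obtain ⟨z, hz, h1, h2, _⟩ := S.dir 0 x (hA hx) y (hA hy) hxy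
    exact h x hx y hy hne ⟨z, hz, h1, h2⟩
  exact Set.countable_of_injective_of_countable_image hinj (Set.to_countable _)

end basic

theorem Sub.refl (P : Sw U) : P.Sub P := by
  refine ⟨Subset.rfl, rfl, fun _ _ _ _ => Iff.rfl, fun _ _ _ _ h => h,
    fun _ _ _ _ _ => Iff.rfl, fun _ _ _ hy _ => hy, ?_⟩
  intro y hy
  exact ⟨y, hy, fun x' hx' h => ⟨x', hx', P.refl x' hx', h⟩⟩

theorem Sub.trans {P Q R : Sw U} (h : P.Sub Q) (h' : Q.Sub R) : P.Sub R := by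
  refine ⟨h.sub.trans h'.sub, h'.top.trans h.top, ?_, ?_, ?_, ?_, ?_⟩
  · intro x hx y hy
    exact (h'.le_iff x (h.sub hx) y (h.sub hy)).trans (h.le_iff x hx y hy)
  · intro x hx y hy hc
    exact h.cmp_of x hx y hy (h'.cmp_of x (h.sub hx) y (h.sub hy) hc)
  · intro n x hx y hy
    exact (h'.cd_iff n x (h.sub hx) y (h.sub hy)).trans (h.cd_iff n x hx y hy)
  · intro x hx y hy hc
    have hyQ : y ∈ Q.X := h'.closed x (h.sub hx) y hy hc
    exact h.closed x hx y hyQ ((h'.cd_iff 0 x (h.sub hx) y hyQ).1 hc)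
  · intro y hy
    obtain ⟨q, hq, hq'⟩ := h'.red y hy
    obtain ⟨r, hr, hr'⟩ := h.red q hq
    refine ⟨r, hr, fun x' hx' hle => ?_⟩
    obtain ⟨z, hz, h1, h2⟩ := hr' x' hx' hle
    obtain ⟨u, hu, h3, h4⟩ := hq' z hz h2
    exact ⟨u, hu, R.trans _ hu _ (h'.sub hz) _ (h'.sub (h.sub hx')) h3
      ((h'.le_iff z hz x' (h.sub hx')).2 h1), h4⟩

theorem Sub.cmp_iff {P Q : Sw U} (h : P.Sub Q) {x y : U} (hx : x ∈ P.X) (hy : y ∈ P.X) :
    Q.cmp x y ↔ P.cmp x y := by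
  refine ⟨h.cmp_of x hx y hy, ?_⟩
  rintro ⟨z, hz, h1, h2⟩
  exact ⟨z, h.sub hz, (h.le_iff z hz x hx).2 h1, (h.le_iff z hz y hy).2 h2⟩

/-- predense sets stay predense: for `w ≤ x` in `Q` take a reduction `r` of `w` in `P`. Then `r`
and `x` are compatible in `Q` (`r` is compatible with `w ≤ x`), so in `P`; take `v ≤ r, x` in `P`,
`d ∈ D` with `v, d` compatible in `P`, and `u ≤ v, d` in `P`: `u ≤ r` is compatible with `w`. -/
theorem Sub.pd {P Q : Sw U} (h : P.Sub Q) {D : Set U} (hD : D ⊆ P.X) {x : U} (hx : x ∈ P.X)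
    (hp : P.Pd D x) : Q.Pd D x := by
  intro w hw hwx
  obtain ⟨r, hr, hr'⟩ := h.red w hw
  have h1 : P.cmp r x := by
    refine (h.cmp_iff hr hx).1 ?_
    obtain ⟨z, hz, h2, h3⟩ := hr' r hr (P.refl r hr)
    exact ⟨z, hz, h2, Q.trans _ hz _ hw _ (h.sub hx) h3 hwx⟩
  obtain ⟨v, hv, hvr, hvx⟩ := h1
  obtain ⟨d, hd, u, hu, huv, hud⟩ := hp v hv hvx
  obtain ⟨z, hz, hzu, hzw⟩ := hr' u hu (P.trans _ hu _ hv _ hr huv hvr)
  exact ⟨d, hd, z, hz, hzw, Q.trans _ hz _ (h.sub hu) _ (h.sub (hD hd)) hzu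
    ((h.le_iff u hu d (hD hd)).2 hud)⟩

end Sw

end Pool.Agent.Lib.BPLM
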