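import Mathlib
import Pool.Agent.Lib.MP_c00cb7_lc.SwBasic

/-!
# Sweet preorders: the action of permutations and transport along injections
-/

set_option autoImplicit false

open Set

namespace Pool.Agent.Lib.BPLM

namespace Sw

variable {U V : Type}

/-- the action of a permutation -/
def act (g : Equiv.Perm U) (S : Sw U) : Sw U where
  X := {a | g.symm a ∈ S.X}
  top := g S.top
  le a b := S.le (g.symm a) (g.symm b)
  cd n a := S.cd n (g.symm a)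
  top_mem := by simpa using S.top_mem
  refl x hx := S.refl _ hx
  trans x hx y hy z hz := S.trans _ hx _ hy _ hz
  le_top x hx := by simpa using S.le_top _ hx
  sep x hx y hy h := by
    refine S.sep _ hx _ hy fun z hz hzx => ?_
    obtain ⟨w, hw, h1, h2⟩ := h (g z) (by simpa using hz) (by simpa using hzx)
    exact ⟨g.symm w, hw, by simpa using h1, h2⟩
  mono n x hx y hy h := S.mono n _ hx _ hy h
  dir n x hx y hy h := by
    obtain ⟨z, hz, h1, h2, h3⟩ := S.dir n _ hx _ hy h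
    exact ⟨g z, by simpa using hz, by simpa using h1, by simpa using h2, by simpa using h3⟩
  lim x y hx hy h n := by
    obtain ⟨r, hr, h1, h2⟩ := S.lim (fun i => g.symm (x i)) (g.symm y) hx hy h n
    exact ⟨g r, by simpa using hr, fun i hi => by simpa using h1 i hi, by simpa using h2⟩
  W ι _ L y₀ hL hy₀ h := by
    obtain ⟨y, hy, h1, h2⟩ := S.W ι (fun i => g.symm (L i)) (g.symm y₀) hL hy₀ h
    refine ⟨g y, by simpa using hy, by simpa using h1, fun n => ?_⟩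
    obtain ⟨k, hk⟩ := h2 n
    refine ⟨k, fun L' hL' hc => ?_⟩
    obtain ⟨y', hy', h3, h4⟩ := hk (fun i => g.symm (L' i)) hL' hc
    exact ⟨g y', by simpa using hy', fun i => by simpa using h3 i, by simpa using h4⟩
  iso x hx h := by
    have := S.iso (g.symm x) hx (by simpa using h)
    rw [← this]; simp

theorem mem_act (g : Equiv.Perm U) (S : Sw U) (a : U) : a ∈ (act g S).X ↔ g.symm a ∈ S.X :=
  Iff.rfl

theorem act_one (S : Sw U) : act 1 S = S := rfl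

theorem act_mul (g h : Equiv.Perm U) (S : Sw U) : act (g * h) S = act g (act h S) := rfl

theorem act_cmp (g : Equiv.Perm U) (S : Sw U) (x y : U) :
    (act g S).cmp x y ↔ S.cmp (g.symm x) (g.symm y) := by
  constructor
  · rintro ⟨z, hz, h1, h2⟩
    exact ⟨g.symm z, hz, h1, h2⟩
  · rintro ⟨w, hw, h1, h2⟩
    refine ⟨g w, ?_, ?_, ?_⟩
    · show g.symm (g w) ∈ S.X
      rwa [Equiv.symm_apply_apply]
    · show S.le (g.symm (g w)) (g.symm x)
      rwa [Equiv.symm_apply_apply]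
    · show S.le (g.symm (g w)) (g.symm y)
      rwa [Equiv.symm_apply_apply]

theorem act_sub (g : Equiv.Perm U) {P Q : Sw U} (h : P.Sub Q) : (act g P).Sub (act g Q) where
  sub := fun _ hx => h.sub hx
  top := congrArg g h.top
  le_iff := fun _ hx _ hy => h.le_iff _ hx _ hy
  cmp_of := fun x hx y hy hc => by
    rw [act_cmp] at hc ⊢
    exact h.cmp_of _ hx _ hy hc
  cd_iff := fun n _ hx _ hy => h.cd_iff n _ hx _ hy
  closed := fun _ hx _ hy hc => h.closed _ hx _ hy hc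
  red := fun y hy => by
    obtain ⟨x, hx, hr⟩ := h.red _ hy
    refine ⟨g x, ?_, fun x' hx' hle => ?_⟩
    · show g.symm (g x) ∈ P.X
      rwa [Equiv.symm_apply_apply]
    · rw [act_cmp]
      apply hr _ hx'
      have h1 : P.le (g.symm x') (g.symm (g x)) := hle
      rwa [Equiv.symm_apply_apply] at h1

private theorem sub_of_agree {P Q : Sw U} (hX : Q.X = P.X) (htop : Q.top = P.top)
    (hle : ∀ x ∈ P.X, ∀ y ∈ P.X, (Q.le x y ↔ P.le x y))
    (hcd : ∀ n, ∀ x ∈ P.X, Q.cd n x = P.cd n x) : P.Sub Q where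
  sub := hX.ge
  top := htop
  le_iff := hle
  cmp_of := fun x hx y hy hc => by
    obtain ⟨z, hz, h1, h2⟩ := hc
    rw [hX] at hz
    exact ⟨z, hz, (hle z hz x hx).1 h1, (hle z hz y hy).1 h2⟩
  cd_iff := fun n x hx y hy => by rw [hcd n x hx, hcd n y hy]
  closed := fun _ _ y hy _ => by rwa [hX] at hy
  red := fun y hy => by
    rw [hX] at hy
    refine ⟨y, hy, fun x' hx' h => ⟨x', hX ▸ hx', ?_, ?_⟩⟩
    · exact (hle x' hx' x' hx').2 (P.refl x' hx')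
    · exact (hle x' hx' y hy).2 h

/-- a permutation which fixes `P.X` pointwise does not change `P` -/
theorem sub_act_of_fix (g : Equiv.Perm U) (P : Sw U) (h : ∀ x ∈ P.X, g x = x) :
    P.Sub (act g P) ∧ (act g P).Sub P := by
  have hs : ∀ x ∈ P.X, g.symm x = x := fun x hx => by
    rw [Equiv.symm_apply_eq]
    exact (h x hx).symm
  have hX : (act g P).X = P.X := by
    ext a
    rw [mem_act]
    constructor
    · intro ha
      have h1 := h _ ha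
      rw [Equiv.apply_symm_apply] at h1
      rwa [← h1] at ha
    · intro ha
      rwa [hs a ha]
  have htop : (act g P).top = P.top := h _ P.top_mem
  have hle : ∀ x ∈ P.X, ∀ y ∈ P.X, ((act g P).le x y ↔ P.le x y) := by
    intro x hx y hy
    show P.le (g.symm x) (g.symm y) ↔ P.le x y
    rw [hs x hx, hs y hy]
  have hcd : ∀ n, ∀ x ∈ P.X, (act g P).cd n x = P.cd n x := by
    intro n x hx
    show P.cd n (g.symm x) = P.cd n x
    rw [hs x hx]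
  refine ⟨sub_of_agree hX htop hle hcd, sub_of_agree hX.symm htop.symm ?_ ?_⟩
  · intro x hx y hy
    rw [hX] at hx hy
    exact (hle x hx y hy).symm
  · intro n x hx
    rw [hX] at hx
    exact (hcd n x hx).symm

theorem act_small (g : Equiv.Perm U) {P : Sw U} (h : P.Small) : (act g P).Small := by
  refine le_trans ?_ h
  refine Cardinal.mk_le_of_injective (f := fun a : (act g P).X => (⟨g.symm a.1, a.2⟩ : P.X)) ?_
  intro a b hab
  exact Subtype.ext (g.symm.injective (congrArg Subtype.val hab))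

private theorem map_le_aux (S : Sw U) (f : U → V) (hf : InjOn f S.X) {x y : U} (hx : x ∈ S.X)
    (hy : y ∈ S.X) :
    (∃ x' ∈ S.X, ∃ y' ∈ S.X, f x' = f x ∧ f y' = f y ∧ S.le x' y') ↔ S.le x y := by
  constructor
  · rintro ⟨x', hx', y', hy', h1, h2, h3⟩
    rw [← hf hx' hx h1, ← hf hy' hy h2]
    exact h3
  · intro h
    exact ⟨x, hx, y, hy, rfl, rfl, h⟩

open Classical in
private theorem map_cd_aux (S : Sw U) (f : U → V) (hf : InjOn f S.X) (n : ℕ) {x : U}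
    (hx : x ∈ S.X) :
    (if h : ∃ x' ∈ S.X, f x' = f x then S.cd n h.choose else 0) = S.cd n x := by
  have h : ∃ x' ∈ S.X, f x' = f x := ⟨x, hx, rfl⟩
  rw [dif_pos h]
  have h1 := h.choose_spec
  rw [hf h1.1 hx h1.2]

open Classical in
/-- transport along an injection -/
noncomputable def map (S : Sw U) (f : U → V) (hf : InjOn f S.X) : Sw V where
  X := f '' S.X
  top := f S.top
  le a b := ∃ x ∈ S.X, ∃ y ∈ S.X, f x = a ∧ f y = b ∧ S.le x y
  cd n a := if h : ∃ x ∈ S.X, f x = a then S.cd n h.choose else 0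
  top_mem := ⟨_, S.top_mem, rfl⟩
  refl := by
    rintro _ ⟨x, hx, rfl⟩
    exact (map_le_aux S f hf hx hx).2 (S.refl x hx)
  trans := by
    rintro _ ⟨x, hx, rfl⟩ _ ⟨y, hy, rfl⟩ _ ⟨z, hz, rfl⟩ h1 h2
    exact (map_le_aux S f hf hx hz).2 (S.trans _ hx _ hy _ hz ((map_le_aux S f hf hx hy).1 h1)
      ((map_le_aux S f hf hy hz).1 h2))
  le_top := by
    rintro _ ⟨x, hx, rfl⟩
    exact (map_le_aux S f hf hx S.top_mem).2 (S.le_top x hx)
  sep := by
    rintro _ ⟨x, hx, rfl⟩ _ ⟨y, hy, rfl⟩ h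
    refine (map_le_aux S f hf hx hy).2 (S.sep _ hx _ hy fun z hz hzx => ?_)
    obtain ⟨_, ⟨w, hw, rfl⟩, h1, h2⟩ := h (f z) ⟨z, hz, rfl⟩ ((map_le_aux S f hf hz hx).2 hzx)
    exact ⟨w, hw, (map_le_aux S f hf hw hz).1 h1, (map_le_aux S f hf hw hy).1 h2⟩
  mono := by
    rintro n _ ⟨x, hx, rfl⟩ _ ⟨y, hy, rfl⟩ h
    rw [map_cd_aux S f hf _ hx, map_cd_aux S f hf _ hy] at h ⊢
    exact S.mono n _ hx _ hy h
  dir := by
    rintro n _ ⟨x, hx, rfl⟩ _ ⟨y, hy, rfl⟩ h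
    rw [map_cd_aux S f hf _ hx, map_cd_aux S f hf _ hy] at h
    obtain ⟨z, hz, h1, h2, h3⟩ := S.dir n _ hx _ hy h
    refine ⟨f z, ⟨z, hz, rfl⟩, (map_le_aux S f hf hz hx).2 h1, (map_le_aux S f hf hz hy).2 h2, ?_⟩
    rw [map_cd_aux S f hf _ hz, map_cd_aux S f hf _ hx]
    exact h3
  lim := by
    rintro x _ hx ⟨y, hy, rfl⟩ h n
    choose x' hx' hfx using hx
    have h' : ∀ i, S.cd i (x' i) = S.cd i y := by
      intro i
      have h1 := h i
      rw [← hfx i, map_cd_aux S f hf _ (hx' i), map_cd_aux S f hf _ hy] at h1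
      exact h1
    obtain ⟨r, hr, h1, h2⟩ := S.lim x' y hx' hy h' n
    refine ⟨f r, ⟨r, hr, rfl⟩, fun i hi => ?_, ?_⟩
    · rw [← hfx i]
      exact (map_le_aux S f hf hr (hx' i)).2 (h1 i hi)
    · rw [map_cd_aux S f hf _ hr, map_cd_aux S f hf _ hy]
      exact h2
  W := by
    rintro ι _ L _ hL ⟨y₀, hy₀, rfl⟩ h
    choose M hM hfM using hL
    obtain ⟨y, hy, h1, h2⟩ := S.W ι M y₀ hM hy₀ fun i => by
      have h3 := h i
      rw [← hfM i] at h3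
      exact (map_le_aux S f hf hy₀ (hM i)).1 h3
    refine ⟨f y, ⟨y, hy, rfl⟩, (map_le_aux S f hf hy hy₀).2 h1, fun n => ?_⟩
    obtain ⟨k, hk⟩ := h2 n
    refine ⟨k, fun L' hL' hc => ?_⟩
    choose M' hM' hfM' using hL'
    obtain ⟨y', hy', h3, h4⟩ := hk M' hM' fun i => by
      have h3 := hc i
      rw [← hfM i, ← hfM' i] at h3
      exact (map_cd_aux S f hf _ (hM' i)).symm.trans (h3.trans (map_cd_aux S f hf _ (hM i)))
    refine ⟨f y', ⟨y', hy', rfl⟩, fun i => ?_, ?_⟩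
    · rw [← hfM' i]
      exact (map_le_aux S f hf hy' (hM' i)).2 (h3 i)
    · exact (map_cd_aux S f hf _ hy').trans (h4.trans (map_cd_aux S f hf _ hy).symm)
  iso := by
    rintro _ ⟨x, hx, rfl⟩ h
    rw [map_cd_aux S f hf _ hx, map_cd_aux S f hf _ S.top_mem] at h
    rw [S.iso x hx h]

theorem map_le (S : Sw U) (f : U → V) (hf : InjOn f S.X) {x y : U} (hx : x ∈ S.X)
    (hy : y ∈ S.X) : (S.map f hf).le (f x) (f y) ↔ S.le x y :=
  map_le_aux S f hf hx hy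

theorem map_cd (S : Sw U) (f : U → V) (hf : InjOn f S.X) (n : ℕ) {x : U} (hx : x ∈ S.X) :
    (S.map f hf).cd n (f x) = S.cd n x :=
  map_cd_aux S f hf n hx

theorem map_cmp (S : Sw U) (f : U → V) (hf : InjOn f S.X) {x y : U} (hx : x ∈ S.X)
    (hy : y ∈ S.X) : (S.map f hf).cmp (f x) (f y) ↔ S.cmp x y := by
  constructor
  · rintro ⟨_, ⟨z, hz, rfl⟩, h1, h2⟩
    exact ⟨z, hz, (map_le S f hf hz hx).1 h1, (map_le S f hf hz hy).1 h2⟩
  · rintro ⟨z, hz, h1, h2⟩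
    exact ⟨f z, ⟨z, hz, rfl⟩, (map_le S f hf hz hx).2 h1, (map_le S f hf hz hy).2 h2⟩

theorem map_small (S : Sw U) (f : U → V) (hf : InjOn f S.X) (h : S.Small) :
    (S.map f hf).Small :=
  le_trans Cardinal.mk_image_le h

/-- A criterion for `(P.map j).Sub Q`, phrased on `P`. -/
theorem map_sub_of {P : Sw U} {Q : Sw V} (j : U → V) (hj : InjOn j P.X)
    (hsub : ∀ x ∈ P.X, j x ∈ Q.X) (htop : Q.top = j P.top)
    (hle : ∀ x ∈ P.X, ∀ y ∈ P.X, (Q.le (j x) (j y) ↔ P.le x y))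
    (hcmp : ∀ x ∈ P.X, ∀ y ∈ P.X, Q.cmp (j x) (j y) → P.cmp x y)
    (hcd : ∀ n, ∀ x ∈ P.X, ∀ y ∈ P.X, (Q.cd n (j x) = Q.cd n (j y) ↔ P.cd n x = P.cd n y))
    (hcl : ∀ x ∈ P.X, ∀ y ∈ Q.X, Q.cd 0 (j x) = Q.cd 0 y → ∃ z ∈ P.X, j z = y)
    (hred : ∀ y ∈ Q.X, ∃ x ∈ P.X, ∀ x' ∈ P.X, P.le x' x → Q.cmp (j x') y) :
    (P.map j hj).Sub Q where
  sub := by
    rintro _ ⟨x, hx, rfl⟩
    exact hsub x hx
  top := htop
  le_iff := by
    rintro _ ⟨x, hx, rfl⟩ _ ⟨y, hy, rfl⟩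
    rw [map_le P j hj hx hy]
    exact hle x hx y hy
  cmp_of := by
    rintro _ ⟨x, hx, rfl⟩ _ ⟨y, hy, rfl⟩ h
    exact (map_cmp P j hj hx hy).2 (hcmp x hx y hy h)
  cd_iff := by
    rintro n _ ⟨x, hx, rfl⟩ _ ⟨y, hy, rfl⟩
    rw [map_cd P j hj n hx, map_cd P j hj n hy]
    exact hcd n x hx y hy
  closed := by
    rintro _ ⟨x, hx, rfl⟩ y hy h
    exact hcl x hx y hy h
  red := by
    intro y hy
    obtain ⟨x, hx, h⟩ := hred y hy
    refine ⟨j x, ⟨x, hx, rfl⟩, ?_⟩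
    rintro _ ⟨x', hx', rfl⟩ h'
    exact h x' hx' ((map_le P j hj hx' hx).1 h')

/-- pulling an abstract extension back into the ambient type -/
theorem sub_map_of (P : Sw U) (Q : Sw V) (j : U → V) (hj : InjOn j P.X)
    (h : (P.map j hj).Sub Q) (f : V → U) (hf : InjOn f Q.X) (hfj : ∀ x ∈ P.X, f (j x) = x) :
    P.Sub (Q.map f hf) := by
  have hjm : ∀ x ∈ P.X, j x ∈ Q.X := fun x hx => h.sub ⟨x, hx, rfl⟩
  have hle : ∀ x ∈ P.X, ∀ y ∈ P.X, ((Q.map f hf).le x y ↔ P.le x y) := by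
    intro x hx y hy
    have h1 := map_le Q f hf (hjm x hx) (hjm y hy)
    rw [hfj x hx, hfj y hy] at h1
    rw [h1, h.le_iff _ ⟨x, hx, rfl⟩ _ ⟨y, hy, rfl⟩]
    exact map_le P j hj hx hy
  have hcd : ∀ n, ∀ x ∈ P.X, (Q.map f hf).cd n x = Q.cd n (j x) := by
    intro n x hx
    have h1 := map_cd Q f hf n (hjm x hx)
    rwa [hfj x hx] at h1
  refine ⟨?_, ?_, hle, ?_, ?_, ?_, ?_⟩
  · intro x hx
    exact ⟨j x, hjm x hx, hfj x hx⟩
  · show f Q.top = P.top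
    rw [h.top]
    exact hfj _ P.top_mem
  · intro x hx y hy hc
    have h1 := map_cmp Q f hf (hjm x hx) (hjm y hy)
    rw [hfj x hx, hfj y hy] at h1
    have h2 := h.cmp_of _ ⟨x, hx, rfl⟩ _ ⟨y, hy, rfl⟩ (h1.1 hc)
    exact (map_cmp P j hj hx hy).1 h2
  · intro n x hx y hy
    rw [hcd n x hx, hcd n y hy, h.cd_iff n _ ⟨x, hx, rfl⟩ _ ⟨y, hy, rfl⟩, map_cd P j hj n hx,
      map_cd P j hj n hy]
  · rintro x hx _ ⟨q, hq, rfl⟩ hc
    rw [hcd 0 x hx, map_cd Q f hf 0 hq] at hc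
    obtain ⟨z, hz, rfl⟩ := h.closed _ ⟨x, hx, rfl⟩ q hq hc
    rw [hfj z hz]
    exact hz
  · rintro _ ⟨q, hq, rfl⟩
    obtain ⟨_, ⟨x, hx, rfl⟩, hr⟩ := h.red q hq
    refine ⟨x, hx, fun x' hx' hl => ?_⟩
    have h1 := hr (j x') ⟨x', hx', rfl⟩ ((map_le P j hj hx' hx).2 hl)
    have h2 := (map_cmp Q f hf (hjm x' hx') hq).2 h1
    rwa [hfj x' hx'] at h2

/-- transitivity of abstract extensions -/
theorem map_sub_trans {W : Type} {P : Sw U} {Q : Sw V} {R : Sw W} (j : U → V) (hj : InjOn j P.X)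
    (h : (P.map j hj).Sub Q) (k : V → W) (hk : InjOn k Q.X) (h' : (Q.map k hk).Sub R)
    (hjk : InjOn (k ∘ j) P.X) : (P.map (k ∘ j) hjk).Sub R := by
  have hjm : ∀ x ∈ P.X, j x ∈ Q.X := fun x hx => h.sub ⟨x, hx, rfl⟩
  have hle : ∀ x ∈ Q.X, ∀ y ∈ Q.X, (R.le (k x) (k y) ↔ Q.le x y) := by
    intro x hx y hy
    rw [h'.le_iff _ ⟨x, hx, rfl⟩ _ ⟨y, hy, rfl⟩, map_le Q k hk hx hy]
  refine map_sub_of (k ∘ j) hjk ?_ ?_ ?_ ?_ ?_ ?_ ?_
  · intro x hx
    exact h'.sub ⟨j x, hjm x hx, rfl⟩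
  · show R.top = k (j P.top)
    rw [h'.top]
    show k Q.top = k (j P.top)
    rw [h.top]
    rfl
  · intro x hx y hy
    show R.le (k (j x)) (k (j y)) ↔ P.le x y
    rw [hle _ (hjm x hx) _ (hjm y hy), h.le_iff _ ⟨x, hx, rfl⟩ _ ⟨y, hy, rfl⟩,
      map_le P j hj hx hy]
  · intro x hx y hy hc
    have h1 := h'.cmp_of _ ⟨j x, hjm x hx, rfl⟩ _ ⟨j y, hjm y hy, rfl⟩ hc
    have h2 := (map_cmp Q k hk (hjm x hx) (hjm y hy)).1 h1
    have h3 := h.cmp_of _ ⟨x, hx, rfl⟩ _ ⟨y, hy, rfl⟩ h2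
    exact (map_cmp P j hj hx hy).1 h3
  · intro n x hx y hy
    show R.cd n (k (j x)) = R.cd n (k (j y)) ↔ P.cd n x = P.cd n y
    rw [h'.cd_iff n _ ⟨j x, hjm x hx, rfl⟩ _ ⟨j y, hjm y hy, rfl⟩,
      map_cd Q k hk n (hjm x hx), map_cd Q k hk n (hjm y hy),
      h.cd_iff n _ ⟨x, hx, rfl⟩ _ ⟨y, hy, rfl⟩, map_cd P j hj n hx, map_cd P j hj n hy]
  · intro x hx y hy hc
    obtain ⟨q, hq, rfl⟩ := h'.closed _ ⟨j x, hjm x hx, rfl⟩ y hy hc
    have h1 := (h'.cd_iff 0 _ ⟨j x, hjm x hx, rfl⟩ _ ⟨q, hq, rfl⟩).1 hc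
    rw [map_cd Q k hk 0 (hjm x hx), map_cd Q k hk 0 hq] at h1
    obtain ⟨z, hz, rfl⟩ := h.closed _ ⟨x, hx, rfl⟩ q hq h1
    exact ⟨z, hz, rfl⟩
  · intro y hy
    obtain ⟨_, ⟨q, hq, rfl⟩, h1⟩ := h'.red y hy
    obtain ⟨_, ⟨x, hx, rfl⟩, h2⟩ := h.red q hq
    refine ⟨x, hx, fun x' hx' hl => ?_⟩
    obtain ⟨z, hz, h3, h4⟩ := h2 (j x') ⟨x', hx', rfl⟩ ((map_le P j hj hx' hx).2 hl)
    have h5 := h1 (k z) ⟨z, hz, rfl⟩ ((map_le Q k hk hz hq).2 h4)
    have h6 : R.le (k z) (k (j x')) := (hle z hz _ (hjm x' hx')).2 h3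
    exact R.cmp_mono (h'.sub ⟨z, hz, rfl⟩) (h'.sub ⟨j x', hjm x' hx', rfl⟩) hy hy h6
      (R.refl y hy) h5

end Sw

end Pool.Agent.Lib.BPLM
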