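import Mathlib
import Pool.Agent.Lib.MP_c00cb7_lc.SwMap

section

/-!
# The product of a sweet preorder with Cohen forcing
-/

set_option autoImplicit false

open Set

namespace Pool.Agent.Lib.BPLM

namespace Sw

variable {U : Type}

private theorem pair_inj {m n : ℕ} {s t : List Bool}
    (h : Nat.pair m (Encodable.encode s) = Nat.pair n (Encodable.encode t)) : m = n ∧ s = t := by
  rw [Nat.pair_eq_pair] at h
  exact ⟨h.1, Encodable.encode_injective h.2⟩

private theorem prefix_of_forall {s t : List Bool}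
    (h : ∀ u : List Bool, s <+: u → ∃ w : List Bool, u <+: w ∧ t <+: w) : t <+: s := by
  obtain ⟨w, h1, h2⟩ := h s (List.prefix_refl s)
  rcases List.prefix_or_prefix_of_prefix h1 h2 with h3 | h3
  · obtain ⟨r, rfl⟩ := h3
    cases r with
    | nil => simp
    | cons b r =>
      exfalso
      obtain ⟨w', h4, h5⟩ := h (s ++ [!b]) (List.prefix_append _ _)
      rcases List.prefix_or_prefix_of_prefix h4 h5 with h6 | h6
      · rw [List.prefix_append_right_inj, List.cons_prefix_cons] at h6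
        cases b <;> simp at h6
      · rw [List.prefix_append_right_inj, List.cons_prefix_cons] at h6
        cases b <;> simp at h6
  · exact h3

/-- (A3) The product with Cohen forcing: pairs `(x, s)` with `x ∈ S.X`, `s` a finite 0-1-string;
`(x, s) ≤ (y, t)` iff `x ≤ y` and `t` is a prefix of `s`.

* sep: if every `(z,u) ≤ (x,s)` is compatible with `(y,t)`, then `x ≤ y` by `S.sep`, and `t` is a
  prefix of `s`: otherwise some extension `u` of `s` is not comparable with `t` (if `s` and `t` are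
  not comparable take `u = s`; if `s` is a proper prefix of `t`, extend `s` by the negation of the
  next bit of `t`).
* dir, lim: the second coordinates of all elements concerned are equal (`Encodable.encode` is
  injective).
* W: apply `S.W` to the first coordinates of `L` and of `y₀ = (y₁, s₀)`, take `(y, s₀)`. -/
def cohen (S : Sw U) : Sw (U × List Bool) where
  X := {a | a.1 ∈ S.X}
  top := (S.top, [])
  le a b := S.le a.1 b.1 ∧ b.2 <+: a.2
  cd n a := Nat.pair (S.cd n a.1) (Encodable.encode a.2)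
  top_mem := S.top_mem
  refl x hx := ⟨S.refl _ hx, List.prefix_refl _⟩
  trans x hx y hy z hz h1 h2 := ⟨S.trans _ hx _ hy _ hz h1.1 h2.1, h2.2.trans h1.2⟩
  le_top x hx := ⟨S.le_top _ hx, List.nil_prefix⟩
  sep x hx y hy h := by
    refine ⟨S.sep _ hx _ hy fun z hz hzx => ?_, prefix_of_forall fun u hu => ?_⟩
    · obtain ⟨w, hw, h1, h2⟩ := h (z, x.2) hz ⟨hzx, List.prefix_refl _⟩
      exact ⟨w.1, hw, h1.1, h2.1⟩
    · obtain ⟨w, hw, h1, h2⟩ := h (x.1, u) hx ⟨S.refl _ hx, hu⟩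
      exact ⟨w.2, h1.2, h2.2⟩
  mono n x hx y hy h := by
    obtain ⟨h1, h2⟩ := pair_inj h
    rw [h2, S.mono n _ hx _ hy h1]
  dir n x hx y hy h := by
    obtain ⟨h1, h2⟩ := pair_inj h
    obtain ⟨z, hz, h3, h4, h5⟩ := S.dir n _ hx _ hy h1
    refine ⟨(z, x.2), hz, ⟨h3, List.prefix_refl _⟩, ⟨h4, ?_⟩, ?_⟩
    · rw [h2]
    · change Nat.pair (S.cd n z) (Encodable.encode x.2) =
        Nat.pair (S.cd n x.1) (Encodable.encode x.2)
      rw [h5]
  lim x y hx hy h n := by
    obtain ⟨r, hr, h1, h2⟩ := S.lim (fun i => (x i).1) y.1 hx hy (fun i => (pair_inj (h i)).1) n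
    refine ⟨(r, y.2), hr, fun i hi => ⟨h1 i hi, ?_⟩, ?_⟩
    · rw [(pair_inj (h i)).2]
    · change Nat.pair (S.cd n r) (Encodable.encode y.2) =
        Nat.pair (S.cd n y.1) (Encodable.encode y.2)
      rw [h2]
  W ι _ L y₀ hL hy₀ h := by
    obtain ⟨y, hy, h1, h2⟩ := S.W ι (fun i => (L i).1) y₀.1 hL hy₀ (fun i => (h i).1)
    refine ⟨(y, y₀.2), hy, ⟨h1, List.prefix_refl _⟩, fun n => ?_⟩
    obtain ⟨k, hk⟩ := h2 n
    refine ⟨k, fun L' hL' hc => ?_⟩
    obtain ⟨y', hy', h3, h4⟩ := hk (fun i => (L' i).1) hL' (fun i => (pair_inj (hc i)).1)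
    refine ⟨(y', y₀.2), hy', fun i => ⟨h3 i, ?_⟩, ?_⟩
    · rw [(pair_inj (hc i)).2]
      exact (h i).2
    · change Nat.pair (S.cd n y') (Encodable.encode y₀.2) =
        Nat.pair (S.cd n y) (Encodable.encode y₀.2)
      rw [h4]
  iso x hx h := by
    obtain ⟨h1, h2⟩ := pair_inj h
    exact Prod.ext (S.iso _ hx h1) h2

theorem cohen_injOn (S : Sw U) : InjOn (fun x : U => (x, ([] : List Bool))) S.X := by
  intro x _ y _ h
  simpa using h

/-- A reduction of `(x, s)` to `S` is `x`. -/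
theorem cohen_sub (S : Sw U) : (S.map (fun x : U => (x, ([] : List Bool))) S.cohen_injOn).Sub
    S.cohen := by
  apply map_sub_of
  · intro x hx
    exact hx
  · rfl
  · intro x hx y hy
    exact ⟨fun h => h.1, fun h => ⟨h, List.prefix_refl _⟩⟩
  · rintro x hx y hy ⟨z, hz, h1, h2⟩
    exact ⟨z.1, hz, h1.1, h2.1⟩
  · intro n x hx y hy
    constructor
    · intro h
      change Nat.pair (S.cd n x) (Encodable.encode ([] : List Bool)) =
        Nat.pair (S.cd n y) (Encodable.encode ([] : List Bool)) at h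
      exact (pair_inj h).1
    · intro h
      change Nat.pair (S.cd n x) (Encodable.encode ([] : List Bool)) =
        Nat.pair (S.cd n y) (Encodable.encode ([] : List Bool))
      rw [h]
  · intro x hx y hy h
    change Nat.pair (S.cd 0 x) (Encodable.encode ([] : List Bool)) =
        Nat.pair (S.cd 0 y.1) (Encodable.encode y.2) at h
    obtain ⟨h1, h2⟩ := pair_inj h
    exact ⟨y.1, hy, Prod.ext rfl h2⟩
  · intro y hy
    refine ⟨y.1, hy, fun x' hx' h => ?_⟩
    exact ⟨(x', y.2), hx', ⟨S.refl _ hx', List.nil_prefix⟩, ⟨h, List.prefix_refl _⟩⟩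

theorem cohen_small (S : Sw U) (h : S.Small) : S.cohen.Small := by
  unfold Small at h ⊢
  let f : S.cohen.X → S.X × List Bool := fun a => (⟨a.1.1, a.2⟩, a.1.2)
  have hf : Function.Injective f := by
    rintro ⟨⟨a, s⟩, ha⟩ ⟨⟨b, t⟩, hb⟩ hab
    have h1 : (⟨a, ha⟩ : S.X) = ⟨b, hb⟩ := congrArg Prod.fst hab
    have h2 : s = t := congrArg Prod.snd hab
    have h3 : a = b := congrArg Subtype.val h1
    subst h3
    subst h2
    rfl
  refine (Cardinal.mk_le_of_injective hf).trans ?_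
  rw [Cardinal.mk_prod, Cardinal.lift_id, Cardinal.lift_id]
  calc Cardinal.mk S.X * Cardinal.mk (List Bool) ≤ Cardinal.continuum * Cardinal.aleph0 := by
        exact mul_le_mul' h (Cardinal.mk_le_aleph0)
    _ = Cardinal.continuum := Cardinal.continuum_mul_aleph0

end Sw

end Pool.Agent.Lib.BPLM
end

section

/-!
# Room in a large ambient type
-/

set_option autoImplicit false

open Set

namespace Pool.Agent.Lib.BPLM

/-- the complement of two small sets is large, so every small set injects into it -/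
private theorem exists_room {U : Type} {W : Type} (hU : Cardinal.continuum < Cardinal.mk U)
    (A Z : Set U) (hA : Cardinal.mk A ≤ Cardinal.continuum)
    (hZ : Cardinal.mk Z ≤ Cardinal.continuum) (D : Set W)
    (hD : Cardinal.mk D ≤ Cardinal.continuum) :
    ∃ e : D → U, Function.Injective e ∧ ∀ d, e d ∉ A ∧ e d ∉ Z := by
  have hT : Cardinal.continuum < Cardinal.mk ((A ∪ Z : Set U)ᶜ : Set U) := by
    by_contra hcon
    rw [not_lt] at hcon
    apply absurd hU
    rw [not_lt, ← Cardinal.mk_sum_compl (A ∪ Z : Set U)]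
    refine (add_le_add ((Cardinal.mk_union_le A Z).trans (add_le_add hA hZ)) hcon).trans ?_
    rw [Cardinal.continuum_add_self, Cardinal.continuum_add_self]
  obtain ⟨e⟩ := (Cardinal.le_def D ((A ∪ Z : Set U)ᶜ : Set U)).1 (hD.trans hT.le)
  refine ⟨fun d => (e d : U), fun a b h => e.injective (Subtype.ext h), fun d => ?_⟩
  have h := (e d).2
  rw [Set.mem_compl_iff, Set.mem_union, not_or] at h
  exact h

/-- Finding room in a large type: there is an injection of the small set `B` into `U` which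
inverts `j` on `A` and sends the rest of `B` (that is `B \ j '' A`) outside of the small set `Z`.
Proof: the complement of `A ∪ Z` has cardinality `> 𝔠`, so `B \ j '' A` injects into it; put
`f v = a` for `v = j a`, `a ∈ A`. -/
theorem exists_place {U V : Type} (hU : Cardinal.continuum < Cardinal.mk U) (A Z : Set U)
    (B : Set V) (j : U → V) (hj : InjOn j A) (hjB : MapsTo j A B)
    (hB : Cardinal.mk B ≤ Cardinal.continuum) (hA : Cardinal.mk A ≤ Cardinal.continuum)
    (hZ : Cardinal.mk Z ≤ Cardinal.continuum) :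
    ∃ f : V → U, InjOn f B ∧ (∀ a ∈ A, f (j a) = a) ∧ ∀ v ∈ B, f v ∈ Z → v ∈ j '' A := by
  classical
  obtain ⟨e, he, heAZ⟩ := exists_room hU A Z hA hZ B hB
  have hne : Nonempty U := by
    rw [← Cardinal.mk_ne_zero_iff]
    exact (lt_of_le_of_lt zero_le hU).ne'
  obtain ⟨u₀⟩ := hne
  set f : V → U := fun v => if h : ∃ a ∈ A, j a = v then h.choose
    else if h' : v ∈ B then e ⟨v, h'⟩ else u₀ with hf
  have f1 : ∀ a ∈ A, f (j a) = a := by
    intro a ha
    have h : ∃ a' ∈ A, j a' = j a := ⟨a, ha, rfl⟩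
    have hfa : f (j a) = h.choose := by
      rw [hf]
      simp only
      rw [dif_pos h]
    rw [hfa]
    exact hj h.choose_spec.1 ha h.choose_spec.2
  have f2 : ∀ (v : V) (hv : v ∈ B), v ∉ j '' A → f v = e ⟨v, hv⟩ := by
    intro v hv hn
    have h : ¬ ∃ a' ∈ A, j a' = v := hn
    rw [hf]
    simp only
    rw [dif_neg h, dif_pos hv]
  refine ⟨f, ?_, f1, ?_⟩
  · intro v hv w hw hvw
    by_cases h1 : v ∈ j '' A <;> by_cases h2 : w ∈ j '' A
    · obtain ⟨a, ha, rfl⟩ := h1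
      obtain ⟨b, hb, rfl⟩ := h2
      rw [f1 a ha, f1 b hb] at hvw
      rw [hvw]
    · obtain ⟨a, ha, rfl⟩ := h1
      rw [f1 a ha, f2 w hw h2] at hvw
      rw [hvw] at ha
      exact absurd ha (heAZ _).1
    · obtain ⟨b, hb, rfl⟩ := h2
      rw [f1 b hb, f2 v hv h1] at hvw
      rw [← hvw] at hb
      exact absurd hb (heAZ _).1
    · rw [f2 v hv h1, f2 w hw h2] at hvw
      exact congrArg Subtype.val (he hvw)
  · intro v hv hvZ
    by_contra hn
    rw [f2 v hv hn] at hvZ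
    exact (heAZ _).2 hvZ

/-- There is a permutation fixing `C ⊆ A` pointwise and moving `A \ C` outside of `Z`.
Proof: `A \ C` is small, so there is an injection `i` of `A \ C` into the complement of `A ∪ Z`
(which has cardinality `> 𝔠`); let `g` be the involution exchanging `a` and `i a` for
`a ∈ A \ C` and fixing everything else. -/
theorem exists_perm {U : Type} (hU : Cardinal.continuum < Cardinal.mk U) (A Z : Set U)
    (hA : Cardinal.mk A ≤ Cardinal.continuum) (hZ : Cardinal.mk Z ≤ Cardinal.continuum)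
    (C : Set U) (hC : C ⊆ A) :
    ∃ g : Equiv.Perm U, (∀ x ∈ C, g x = x) ∧ ∀ x ∈ A, g x ∈ Z → x ∈ C := by
  classical
  obtain ⟨e, he, heAZ⟩ := exists_room hU A Z hA hZ A hA
  set g : U → U := fun x => if h : x ∈ A ∧ x ∉ C then e ⟨x, h.1⟩
    else if h' : ∃ d : A, (d : U) ∉ C ∧ e d = x then (h'.choose : U) else x with hg
  have g1 : ∀ (x : U) (hx : x ∈ A), x ∉ C → g x = e ⟨x, hx⟩ := by
    intro x hx hxC
    rw [hg]
    simp only
    rw [dif_pos (show x ∈ A ∧ x ∉ C from ⟨hx, hxC⟩)]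
  have g2 : ∀ d : A, (d : U) ∉ C → g (e d) = d := by
    intro d hd
    have h1 : ¬ (e d ∈ A ∧ e d ∉ C) := fun h => (heAZ d).1 h.1
    have h2 : ∃ d' : A, (d' : U) ∉ C ∧ e d' = e d := ⟨d, hd, rfl⟩
    have h3 : g (e d) = (h2.choose : U) := by
      rw [hg]
      simp only
      rw [dif_neg h1, dif_pos h2]
    rw [h3, he h2.choose_spec.2]
  have g3 : ∀ x : U, ¬ (x ∈ A ∧ x ∉ C) → (¬ ∃ d : A, (d : U) ∉ C ∧ e d = x) → g x = x := by
    intro x h1 h2
    rw [hg]
    simp only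
    rw [dif_neg h1, dif_neg h2]
  have ginv : Function.Involutive g := by
    intro x
    by_cases h1 : x ∈ A ∧ x ∉ C
    · rw [g1 x h1.1 h1.2, g2 ⟨x, h1.1⟩ h1.2]
    · by_cases h2 : ∃ d : A, (d : U) ∉ C ∧ e d = x
      · obtain ⟨d, hd, rfl⟩ := h2
        rw [g2 d hd, g1 d d.2 hd]
      · rw [g3 x h1 h2, g3 x h1 h2]
  refine ⟨ginv.toPerm g, ?_, ?_⟩
  · intro x hx
    rw [Function.Involutive.coe_toPerm]
    refine g3 x (fun h => h.2 hx) ?_
    rintro ⟨d, -, rfl⟩
    exact (heAZ d).1 (hC hx)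
  · intro x hx hgx
    rw [Function.Involutive.coe_toPerm] at hgx
    by_contra hxC
    rw [g1 x hx hxC] at hgx
    exact (heAZ _).2 hgx

/-- Placing an abstract extension: combine `exists_place` (with `A = P.X`, `B = Q.X`) with
`Sw.sub_map_of` and `Sw.map_small`. -/
theorem Sw.exists_place_sub {U V : Type} (hU : Cardinal.continuum < Cardinal.mk U) (P : Sw U)
    (hP : P.Small) (Q : Sw V) (hQ : Q.Small) (j : U → V) (hj : InjOn j P.X)
    (h : (P.map j hj).Sub Q) (Z : Set U) (hZ : Cardinal.mk Z ≤ Cardinal.continuum) :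
    ∃ (f : V → U) (hf : InjOn f Q.X), (∀ x ∈ P.X, f (j x) = x) ∧ P.Sub (Q.map f hf) ∧
      (Q.map f hf).Small ∧ ∀ v ∈ Q.X, f v ∈ Z → v ∈ j '' P.X := by
  have hjB : MapsTo j P.X Q.X := fun x hx => h.sub ⟨x, hx, rfl⟩
  obtain ⟨f, hf, h1, h2⟩ := exists_place hU P.X Z Q.X j hj hjB hQ hP hZ
  exact ⟨f, hf, h1, Sw.sub_map_of P Q j hj h f hf h1, Sw.map_small Q f hf hQ, h2⟩

end Pool.Agent.Lib.BPLM
end

section

/-!
# Names for reals over a sweet preorder, and full Cohen names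

A name for an element of `2^ω` over `Q` is given by the relation `F q s`: `q` forces that the
real extends the finite string `s`.
-/

set_option autoImplicit false

open Set

namespace Pool.Agent.Lib.BPLM

variable {U : Type}

/-- `F` is (the forcing relation of) a name for a real over the sweet preorder `Q`. -/
structure RN (Q : Sw U) (F : U → List Bool → Prop) : Prop where
  sub : ∀ q s, F q s → q ∈ Q.X
  low : ∀ q s, F q s → ∀ q' ∈ Q.X, Q.le q' q → F q' s
  reg : ∀ q ∈ Q.X, ∀ s, (∀ q' ∈ Q.X, Q.le q' q → ∃ q'' ∈ Q.X, Q.le q'' q' ∧ F q'' s) → F q s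
  pre : ∀ q s s', F q s → s' <+: s → F q s'
  coh : ∀ q s s', F q s → F q s' → s <+: s' ∨ s' <+: s
  dens : ∀ q ∈ Q.X, ∀ n, ∃ q' ∈ Q.X, Q.le q' q ∧ ∃ s, s.length = n ∧ F q' s

/-- The same name over an extension `R` of `Q`. -/
def extF (Q R : Sw U) (F : U → List Bool → Prop) (r : U) (s : List Bool) : Prop :=
  r ∈ R.X ∧ ∀ r' ∈ R.X, R.le r' r → ∃ r'' ∈ R.X, R.le r'' r' ∧ ∃ q ∈ Q.X, R.le r'' q ∧ F q s

/-- `Z` is a dense subset of `P × 2^{<ω}` (a set of pairs; every pair has an extension in it). -/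
def DenseZ (P : Sw U) (Z : Set (U × List Bool)) : Prop :=
  ∀ p ∈ P.X, ∀ s : List Bool, ∃ a ∈ Z, a.1 ∈ P.X ∧ P.le a.1 p ∧ s <+: a.2

/-- `F` is a full Cohen name over `P` in `Q`: a name for a real over `Q ≥ P` such that every pair
`(p, s)` in `P × 2^{<ω}` is compatible with (generic filter, real), and every dense set is met. -/
structure Full (P Q : Sw U) (F : U → List Bool → Prop) : Prop where
  sub : P.Sub Q
  rn : RN Q F
  pos : ∀ p ∈ P.X, ∀ s, ∃ q ∈ Q.X, Q.le q p ∧ F q s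
  meet : ∀ Z, DenseZ P Z → ∀ q ∈ Q.X, ∃ q' ∈ Q.X, Q.le q' q ∧
    ∃ a ∈ Z, a.1 ∈ P.X ∧ Q.le q' a.1 ∧ F q' a.2

/-- For `reg`: if `(∀ r' ≤ r) (∃ r'' ≤ r') extF r'' s` then `extF r s`. For `coh`: a common
extension `r''` below `q₁, q₂ ∈ Q.X` with `F q₁ s`, `F q₂ s'`; by `cmp_of` there is `q ∈ Q.X` below
`q₁, q₂`. For `dens`: take a reduction `x ∈ Q.X` of `r`, `q' ≤ x` with `F q' s`, `|s| = n`, and
`r'' ≤ q', r`. -/
theorem RN.ext {Q R : Sw U} {F : U → List Bool → Prop} (h : RN Q F) (hQR : Q.Sub R) :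
    RN R (extF Q R F) where
  sub := fun q s h1 => h1.1
  low := fun q s h1 q' hq' hle =>
    ⟨hq', fun r' hr' hr'le => h1.2 r' hr' (R.trans _ hr' _ hq' _ h1.1 hr'le hle)⟩
  reg := by
    intro q hq s H
    refine ⟨hq, fun r' hr' hle => ?_⟩
    obtain ⟨q'', hq'', hle'', h2⟩ := H r' hr' hle
    obtain ⟨r'', hr'', hle3, q1, hq1, hle4, hF⟩ := h2.2 q'' hq'' (R.refl _ hq'')
    exact ⟨r'', hr'', R.trans _ hr'' _ hq'' _ hr' hle3 hle'', q1, hq1, hle4, hF⟩
  pre := by
    intro q s s' h1 hs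
    refine ⟨h1.1, fun r' hr' hle => ?_⟩
    obtain ⟨r'', hr'', hle3, q1, hq1, hle4, hF⟩ := h1.2 r' hr' hle
    exact ⟨r'', hr'', hle3, q1, hq1, hle4, h.pre _ _ _ hF hs⟩
  coh := by
    intro q s s' h1 h2
    obtain ⟨r1, hr1, hle1, q1, hq1, hle1', hF1⟩ := h1.2 q h1.1 (R.refl _ h1.1)
    obtain ⟨r2, hr2, hle2, q2, hq2, hle2', hF2⟩ := h2.2 r1 hr1 hle1
    have hc : R.cmp q1 q2 := ⟨r2, hr2, R.trans _ hr2 _ hr1 _ (hQR.sub hq1) hle2 hle1', hle2'⟩
    obtain ⟨z, hz, hz1, hz2⟩ := hQR.cmp_of q1 hq1 q2 hq2 hc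
    exact h.coh z s s' (h.low _ _ hF1 z hz hz1) (h.low _ _ hF2 z hz hz2)
  dens := by
    intro q hq n
    obtain ⟨x, hx, hred⟩ := hQR.red q hq
    obtain ⟨q', hq', hle, s, hs, hF⟩ := h.dens x hx n
    obtain ⟨z, hz, hz1, hz2⟩ := hred q' hq' hle
    exact ⟨z, hz, hz2, s, hs, hz, fun r' hr' hle' =>
      ⟨r', hr', R.refl _ hr', q', hq', R.trans _ hr' _ hz _ (hQR.sub hq') hle' hz1, hF⟩⟩

/-- On `Q.X` nothing changes: for `q ∈ Q.X`, `extF q s ↔ F q s`. -/
theorem RN.extF_iff {Q R : Sw U} {F : U → List Bool → Prop} (h : RN Q F) (hQR : Q.Sub R)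
    {q : U} (hq : q ∈ Q.X) (s : List Bool) : extF Q R F q s ↔ F q s := by
  constructor
  · intro h1
    refine h.reg q hq s fun q' hq' hle => ?_
    obtain ⟨r'', hr'', hle'', q1, hq1, hle1, hF⟩ := h1.2 q' (hQR.sub hq')
      ((hQR.le_iff q' hq' q hq).2 hle)
    obtain ⟨z, hz, hz1, hz2⟩ := hQR.cmp_of q' hq' q1 hq1 ⟨r'', hr'', hle'', hle1⟩
    exact ⟨z, hz, hz1, h.low _ _ hF z hz hz2⟩
  · intro hF
    exact ⟨hQR.sub hq, fun r' hr' hle => ⟨r', hr', R.refl _ hr', q, hq, hle, hF⟩⟩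

/-- The extension of a full Cohen name is full. `meet`: for `r ∈ R.X` take a reduction `q ∈ Q.X`,
`q' ≤ q` with the property, and `r' ≤ r, q'` in `R`. -/
theorem Full.ext {P Q R : Sw U} {F : U → List Bool → Prop} (h : Full P Q F) (hQR : Q.Sub R) :
    Full P R (extF Q R F) where
  sub := h.sub.trans hQR
  rn := h.rn.ext hQR
  pos := by
    intro p hp s
    obtain ⟨q, hq, hle, hF⟩ := h.pos p hp s
    exact ⟨q, hQR.sub hq, (hQR.le_iff q hq p (h.sub.sub hp)).2 hle,
      (h.rn.extF_iff hQR hq s).2 hF⟩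
  meet := by
    intro Z hZ r hr
    obtain ⟨x, hx, hred⟩ := hQR.red r hr
    obtain ⟨q', hq', hle, a, ha, haP, hle', hF⟩ := h.meet Z hZ x hx
    obtain ⟨z, hz, hz1, hz2⟩ := hred q' hq' hle
    have haQ : a.1 ∈ Q.X := h.sub.sub haP
    exact ⟨z, hz, hz2, a, ha, haP,
      R.trans _ hz _ (hQR.sub hq') _ (hQR.sub haQ) hz1 ((hQR.le_iff q' hq' a.1 haQ).2 hle'),
      (h.rn.ext hQR).low _ _ ((h.rn.extF_iff hQR hq' _).2 hF) z hz hz1⟩

/-- transitivity of `extF`, as relations on `T.X` -/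
theorem RN.extF_extF {Q R T : Sw U} {F : U → List Bool → Prop} (h : RN Q F) (hQR : Q.Sub R)
    (hRT : R.Sub T) (t : U) (s : List Bool) : extF R T (extF Q R F) t s ↔ extF Q T F t s := by
  constructor
  · intro h1
    refine ⟨h1.1, fun t' ht' hle => ?_⟩
    obtain ⟨t'', ht'', hle'', r, hr, hler, hr2⟩ := h1.2 t' ht' hle
    obtain ⟨x, hx, hred⟩ := hRT.red t'' ht''
    obtain ⟨y, hy, hy1, hy2⟩ := hred x hx (R.refl _ hx)
    have hc : T.cmp x r := ⟨y, hy, hy1, T.trans _ hy _ ht'' _ (hRT.sub hr) hy2 hler⟩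
    obtain ⟨x', hx', hx'1, hx'2⟩ := hRT.cmp_of x hx r hr hc
    obtain ⟨r'', hr'', hle3, q, hq, hle4, hF⟩ := hr2.2 x' hx' hx'2
    obtain ⟨z, hz, hz1, hz2⟩ := hred r'' hr'' (R.trans _ hr'' _ hx' _ hx hle3 hx'1)
    have hqR : q ∈ R.X := hQR.sub hq
    exact ⟨z, hz, T.trans _ hz _ ht'' _ ht' hz2 hle'', q, hq,
      T.trans _ hz _ (hRT.sub hr'') _ (hRT.sub hqR) hz1 ((hRT.le_iff r'' hr'' q hqR).2 hle4), hF⟩
  · intro h1
    refine ⟨h1.1, fun t' ht' hle => ?_⟩
    obtain ⟨t'', ht'', hle'', q, hq, hleq, hF⟩ := h1.2 t' ht' hle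
    exact ⟨t'', ht'', hle'', q, hQR.sub hq, hleq, (h.extF_iff hQR hq s).2 hF⟩

/-- transport by a permutation -/
def actF (g : Equiv.Perm U) (F : U → List Bool → Prop) (q : U) (s : List Bool) : Prop :=
  F (g.symm q) s

theorem RN.act {Q : Sw U} {F : U → List Bool → Prop} (h : RN Q F) (g : Equiv.Perm U) :
    RN (Sw.act g Q) (actF g F) where
  sub := fun q s h1 => h.sub _ _ h1
  low := fun q s h1 q' hq' hle => h.low _ _ h1 _ hq' hle
  reg := by
    intro q hq s H
    refine h.reg (g.symm q) hq s fun q' hq' hle => ?_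
    obtain ⟨q'', hq'', hle'', h2⟩ := H (g q') (by simpa [Sw.act] using hq') (by simpa [Sw.act] using hle)
    exact ⟨g.symm q'', hq'', by simpa [Sw.act] using hle'', h2⟩
  pre := fun q s s' h1 hs => h.pre _ _ _ h1 hs
  coh := fun q s s' h1 h2 => h.coh _ _ _ h1 h2
  dens := by
    intro q hq n
    obtain ⟨q', hq', hle, s, hs, hF⟩ := h.dens (g.symm q) hq n
    exact ⟨g q', by simpa [Sw.act] using hq', by simpa [Sw.act] using hle, s, hs,
      by simpa [actF] using hF⟩

/-- if `g` fixes `P.X` pointwise then the image of a full Cohen name over `P` is one -/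
theorem Full.act {P Q : Sw U} {F : U → List Bool → Prop} (h : Full P Q F) (g : Equiv.Perm U)
    (hg : ∀ x ∈ P.X, g x = x) : Full P (Sw.act g Q) (actF g F) where
  sub := (Sw.sub_act_of_fix g P hg).1.trans (Sw.act_sub g h.sub)
  rn := h.rn.act g
  pos := by
    intro p hp s
    obtain ⟨q, hq, hle, hF⟩ := h.pos p hp s
    have hgp : g.symm p = p := by
      conv_lhs => rw [← hg p hp]
      exact g.symm_apply_apply p
    refine ⟨g q, by simpa [Sw.act] using hq, ?_, by simpa [actF] using hF⟩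
    change Q.le (g.symm (g q)) (g.symm p)
    rw [hgp, g.symm_apply_apply]
    exact hle
  meet := by
    intro Z hZ q hq
    obtain ⟨q', hq', hle, a, ha, haP, hle', hF⟩ := h.meet Z hZ (g.symm q) hq
    have hga : g.symm a.1 = a.1 := by
      conv_lhs => rw [← hg a.1 haP]
      exact g.symm_apply_apply a.1
    refine ⟨g q', by simpa [Sw.act] using hq', by simpa [Sw.act] using hle, a, ha, haP, ?_,
      by simpa [actF] using hF⟩
    change Q.le (g.symm (g q')) (g.symm a.1)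
    rw [hga, g.symm_apply_apply]
    exact hle'

end Pool.Agent.Lib.BPLM
end
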