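import Mathlib
import Pool.Agent.Lib.MP_c00cb7_lc.SwBasic

/-!
# Unions of countable increasing families of sweet preorders
-/

set_option autoImplicit false

open Set

namespace Pool.Agent.Lib.BPLM

namespace SwUnion

variable {U : Type} {ι : Type} [LinearOrder ι] [WellFoundedLT ι]

open Classical in
/-- the least index `i` with `x ∈ (S i).X` -/
noncomputable def idx [Nonempty ι] (S : ι → Sw U) (x : U) : ι :=
  if h : {i | x ∈ (S i).X}.Nonempty then wellFounded_lt.min {i | x ∈ (S i).X} h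
  else Classical.arbitrary ι

theorem idx_mem [Nonempty ι] (S : ι → Sw U) {x : U} {i : ι} (hx : x ∈ (S i).X) :
    x ∈ (S (idx S x)).X := by
  have hne : {i | x ∈ (S i).X}.Nonempty := ⟨i, hx⟩
  have h1 : idx S x = wellFounded_lt.min {i | x ∈ (S i).X} hne := dif_pos hne
  rw [h1]
  exact wellFounded_lt.min_mem {i | x ∈ (S i).X} hne

theorem idx_le [Nonempty ι] (S : ι → Sw U) {x : U} {i : ι} (hx : x ∈ (S i).X) :
    idx S x ≤ i := by
  have hne : {i | x ∈ (S i).X}.Nonempty := ⟨i, hx⟩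
  have h1 : idx S x = wellFounded_lt.min {i | x ∈ (S i).X} hne := dif_pos hne
  rw [h1]
  exact not_lt.mp (wellFounded_lt.not_lt_min {i | x ∈ (S i).X} hx)

theorem mem_mono {S : ι → Sw U} (h : ∀ i j, i ≤ j → (S i).Sub (S j)) {i j : ι} (hij : i ≤ j)
    {x : U} (hx : x ∈ (S i).X) : x ∈ (S j).X := (h i j hij).sub hx

theorem idx_eq [Nonempty ι] {S : ι → Sw U} (h : ∀ i j, i ≤ j → (S i).Sub (S j)) {k : ι} {x y : U}
    (hx : x ∈ (S k).X) (hy : y ∈ (S k).X) (hc : (S k).cd 0 x = (S k).cd 0 y) :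
    idx S x = idx S y := by
  apply le_antisymm
  · exact idx_le S ((h _ _ (idx_le S hy)).closed y (idx_mem S hy) x hx hc.symm)
  · exact idx_le S ((h _ _ (idx_le S hx)).closed x (idx_mem S hx) y hy hc)

/-- the order of the union -/
def ule (S : ι → Sw U) (x y : U) : Prop := ∃ i, x ∈ (S i).X ∧ y ∈ (S i).X ∧ (S i).le x y

theorem ule_iff {S : ι → Sw U} (h : ∀ i j, i ≤ j → (S i).Sub (S j)) {k : ι} {x y : U}
    (hx : x ∈ (S k).X) (hy : y ∈ (S k).X) : ule S x y ↔ (S k).le x y := by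
  constructor
  · rintro ⟨i, hxi, hyi, hle⟩
    rcases le_total i k with hik | hik
    · exact ((h i k hik).le_iff x hxi y hyi).2 hle
    · exact ((h k i hik).le_iff x hx y hy).1 hle
  · intro hle
    exact ⟨k, hx, hy, hle⟩

/-- the codes of the union -/
noncomputable def ucd [Nonempty ι] [Encodable ι] (S : ι → Sw U) (n : ℕ) (x : U) : ℕ :=
  Nat.pair (Encodable.encode (idx S x)) ((S (idx S x)).cd n x)

theorem ucd_idx [Nonempty ι] [Encodable ι] {S : ι → Sw U} {n : ℕ} {x y : U}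
    (hc : ucd S n x = ucd S n y) : idx S x = idx S y :=
  Encodable.encode_injective (Nat.pair_eq_pair.1 hc).1

theorem ucd_iff [Nonempty ι] [Encodable ι] {S : ι → Sw U} (h : ∀ i j, i ≤ j → (S i).Sub (S j))
    {k : ι} {n : ℕ} {x y : U} (hx : x ∈ (S k).X) (hy : y ∈ (S k).X) :
    ucd S n x = ucd S n y ↔ (S k).cd n x = (S k).cd n y := by
  have key : idx S x = idx S y → (ucd S n x = ucd S n y ↔ (S k).cd n x = (S k).cd n y) := by
    intro hxy
    have hx' : x ∈ (S (idx S x)).X := idx_mem S hx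
    have hy' : y ∈ (S (idx S x)).X := by
      rw [hxy]
      exact idx_mem S hy
    have h2 := (h (idx S x) k (idx_le S hx)).cd_iff n x hx' y hy'
    rw [h2, ucd, ucd, ← hxy, Nat.pair_eq_pair]
    exact ⟨fun h3 => h3.2, fun h3 => ⟨rfl, h3⟩⟩
  constructor
  · intro hc
    exact (key (ucd_idx hc)).1 hc
  · intro hc
    exact (key (idx_eq h hx hy ((S k).mono_le (Nat.zero_le n) hx hy hc))).2 hc

theorem ucd_mem [Nonempty ι] [Encodable ι] {S : ι → Sw U} (h : ∀ i j, i ≤ j → (S i).Sub (S j))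
    {k j : ι} {n : ℕ} {x y : U} (hx : x ∈ (S k).X) (hy : y ∈ (S j).X)
    (hc : ucd S n x = ucd S n y) : y ∈ (S k).X := by
  have h1 : idx S y ≤ k := by
    rw [← ucd_idx hc]
    exact idx_le S hx
  exact mem_mono h h1 (idx_mem S hy)

theorem top_eq {S : ι → Sw U} (h : ∀ i j, i ≤ j → (S i).Sub (S j)) (i j : ι) :
    (S i).top = (S j).top := by
  rcases le_total i j with hij | hij
  · exact (h i j hij).top.symm
  · exact (h j i hij).top

/-- finitely many indices have an upper bound -/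
theorem exists_bd [Nonempty ι] {κ : Type} [Finite κ] (a : κ → ι) : ∃ k, ∀ i, a i ≤ k := by
  obtain ⟨k, hk⟩ := (Set.finite_range a).bddAbove
  exact ⟨k, fun i => hk ⟨i, rfl⟩⟩

/-- the union of an increasing family -/
noncomputable def uni [Nonempty ι] [Encodable ι] (S : ι → Sw U)
    (h : ∀ i j, i ≤ j → (S i).Sub (S j)) : Sw U where
  X := ⋃ i, (S i).X
  top := (S (Classical.arbitrary ι)).top
  le := ule S
  cd := ucd S
  top_mem := mem_iUnion.2 ⟨_, (S (Classical.arbitrary ι)).top_mem⟩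
  refl := by
    intro x hx
    obtain ⟨i, hi⟩ := mem_iUnion.1 hx
    exact ⟨i, hi, hi, (S i).refl x hi⟩
  trans := by
    intro x _ y _ z _ hxy hyz
    obtain ⟨i, hxi, hyi, hi⟩ := hxy
    obtain ⟨j, hyj, hzj, hj⟩ := hyz
    obtain ⟨k, hk⟩ := exists_bd (fun b : Bool => bif b then i else j)
    have hik : i ≤ k := hk true
    have hjk : j ≤ k := hk false
    have hx := mem_mono h hik hxi
    have hy := mem_mono h hik hyi
    have hz := mem_mono h hjk hzj
    refine (ule_iff h hx hz).2 ((S k).trans x hx y hy z hz ?_ ?_)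
    · exact (ule_iff h hx hy).1 ⟨i, hxi, hyi, hi⟩
    · exact (ule_iff h hy hz).1 ⟨j, hyj, hzj, hj⟩
  le_top := by
    intro x hx
    obtain ⟨i, hi⟩ := mem_iUnion.1 hx
    rw [top_eq h (Classical.arbitrary ι) i]
    exact ⟨i, hi, (S i).top_mem, (S i).le_top x hi⟩
  sep := by
    intro x hx y hy hxy
    obtain ⟨i, hxi⟩ := mem_iUnion.1 hx
    obtain ⟨j, hyj⟩ := mem_iUnion.1 hy
    obtain ⟨k, hk⟩ := exists_bd (fun b : Bool => bif b then i else j)
    have hxk := mem_mono h (hk true) hxi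
    have hyk := mem_mono h (hk false) hyj
    refine ⟨k, hxk, hyk, (S k).sep x hxk y hyk ?_⟩
    intro z hz hzx
    obtain ⟨w, hw, hwz, hwy⟩ := hxy z (mem_iUnion.2 ⟨k, hz⟩) ⟨k, hz, hxk, hzx⟩
    obtain ⟨l, hwl⟩ := mem_iUnion.1 hw
    obtain ⟨t, ht⟩ := exists_bd (fun b : Bool => bif b then k else l)
    have hkt : k ≤ t := ht true
    have hwt := mem_mono h (ht false) hwl
    have hzt := mem_mono h hkt hz
    have hyt := mem_mono h hkt hyk
    exact (h k t hkt).cmp_of z hz y hyk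
      ⟨w, hwt, (ule_iff h hwt hzt).1 hwz, (ule_iff h hwt hyt).1 hwy⟩
  mono := by
    intro n x hx y hy hc
    obtain ⟨i, hxi⟩ := mem_iUnion.1 hx
    obtain ⟨j, hyj⟩ := mem_iUnion.1 hy
    have hyi : y ∈ (S i).X := ucd_mem h hxi hyj hc
    exact (ucd_iff h hxi hyi).2 ((S i).mono n x hxi y hyi ((ucd_iff h hxi hyi).1 hc))
  dir := by
    intro n x hx y hy hc
    obtain ⟨i, hxi⟩ := mem_iUnion.1 hx
    obtain ⟨j, hyj⟩ := mem_iUnion.1 hy
    have hyi : y ∈ (S i).X := ucd_mem h hxi hyj hc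
    obtain ⟨z, hz, h1, h2, h3⟩ := (S i).dir n x hxi y hyi ((ucd_iff h hxi hyi).1 hc)
    exact ⟨z, mem_iUnion.2 ⟨i, hz⟩, ⟨i, hz, hxi, h1⟩, ⟨i, hz, hyi, h2⟩, (ucd_iff h hz hxi).2 h3⟩
  lim := by
    intro x y hx hy hc n
    obtain ⟨k, hyk⟩ := mem_iUnion.1 hy
    have hxk : ∀ i, x i ∈ (S k).X := by
      intro i
      obtain ⟨j, hj⟩ := mem_iUnion.1 (hx i)
      exact ucd_mem h hyk hj (hc i).symm
    obtain ⟨r, hr, h1, h2⟩ := (S k).lim x y hxk hyk
      (fun i => (ucd_iff h (hxk i) hyk).1 (hc i)) n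
    exact ⟨r, mem_iUnion.2 ⟨k, hr⟩, fun i hi => ⟨k, hr, hxk i, h1 i hi⟩, (ucd_iff h hr hyk).2 h2⟩
  W := by
    intro κ _ L y₀ hL hy₀ hle
    have hL' : ∀ i, ∃ j, L i ∈ (S j).X := fun i => mem_iUnion.1 (hL i)
    choose a ha using hL'
    obtain ⟨b, hb⟩ := mem_iUnion.1 hy₀
    obtain ⟨k, hk⟩ := exists_bd (fun o : Option κ => o.elim b a)
    have hLk : ∀ i, L i ∈ (S k).X := fun i => mem_mono h (hk (some i)) (ha i)
    have hyk : y₀ ∈ (S k).X := mem_mono h (hk none) hb
    obtain ⟨y, hy, h1, h2⟩ := (S k).W κ L y₀ hLk hyk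
      (fun i => (ule_iff h hyk (hLk i)).1 (hle i))
    refine ⟨y, mem_iUnion.2 ⟨k, hy⟩, ⟨k, hy, hyk, h1⟩, ?_⟩
    intro n
    obtain ⟨t, ht⟩ := h2 n
    refine ⟨t, ?_⟩
    intro L' hL' hc
    have hL'k : ∀ i, L' i ∈ (S k).X := by
      intro i
      obtain ⟨j, hj⟩ := mem_iUnion.1 (hL' i)
      exact ucd_mem h (hLk i) hj (hc i).symm
    obtain ⟨y', hy', h3, h4⟩ := ht L' hL'k (fun i => (ucd_iff h (hL'k i) (hLk i)).1 (hc i))
    exact ⟨y', mem_iUnion.2 ⟨k, hy'⟩, fun i => ⟨k, hy', hL'k i, h3 i⟩, (ucd_iff h hy' hy).2 h4⟩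
  iso := by
    intro x hx hc
    have htop : (S (Classical.arbitrary ι)).top ∈ (S (Classical.arbitrary ι)).X :=
      (S (Classical.arbitrary ι)).top_mem
    obtain ⟨j, hj⟩ := mem_iUnion.1 hx
    have hx' : x ∈ (S (Classical.arbitrary ι)).X := ucd_mem h htop hj hc.symm
    exact (S (Classical.arbitrary ι)).iso x hx' ((ucd_iff h hx' htop).1 hc)

theorem sub_uni [Nonempty ι] [Encodable ι] (S : ι → Sw U)
    (h : ∀ i j, i ≤ j → (S i).Sub (S j)) (i : ι) : (S i).Sub (uni S h) where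
  sub := subset_iUnion (fun i => (S i).X) i
  top := top_eq h (Classical.arbitrary ι) i
  le_iff x hx y hy := ule_iff h hx hy
  cmp_of := by
    rintro x hx y hy ⟨z, hz, h1, h2⟩
    obtain ⟨j, hj⟩ := mem_iUnion.1 hz
    obtain ⟨t, ht⟩ := exists_bd (fun b : Bool => bif b then i else j)
    have hit : i ≤ t := ht true
    have hzt := mem_mono h (ht false) hj
    have hxt := mem_mono h hit hx
    have hyt := mem_mono h hit hy
    exact (h i t hit).cmp_of x hx y hy
      ⟨z, hzt, (ule_iff h hzt hxt).1 h1, (ule_iff h hzt hyt).1 h2⟩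
  cd_iff n x hx y hy := ucd_iff h hx hy
  closed := by
    intro x hx y hy hc
    obtain ⟨j, hj⟩ := mem_iUnion.1 hy
    exact ucd_mem h hx hj hc
  red := by
    intro y hy
    obtain ⟨j, hj⟩ := mem_iUnion.1 hy
    rcases le_total j i with hji | hij
    · have hyi := mem_mono h hji hj
      refine ⟨y, hyi, fun x' hx' hle => ⟨x', mem_iUnion.2 ⟨i, hx'⟩, ?_, ?_⟩⟩
      · exact ⟨i, hx', hx', (S i).refl x' hx'⟩
      · exact ⟨i, hx', hyi, hle⟩
    · obtain ⟨x, hx, h1⟩ := (h i j hij).red y hj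
      refine ⟨x, hx, fun x' hx' hle => ?_⟩
      obtain ⟨z, hz, h2, h3⟩ := h1 x' hx' hle
      exact ⟨z, mem_iUnion.2 ⟨j, hz⟩, ⟨j, hz, mem_mono h hij hx', h2⟩, ⟨j, hz, hj, h3⟩⟩

end SwUnion

/-- (A1) A countable well-ordered increasing family of sweet preorders has an upper bound whose
underlying set is the union.

Proof. `T.X = ⋃ (S i).X`, `T.top = (S i).top` (all equal), `T.le x y ↔ ∃ i, x, y ∈ (S i).X ∧
(S i).le x y` (equivalently for all `i` with `x, y ∈ (S i).X`), and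
`T.cd n x = Nat.pair (code of m) ((S m).cd n x)` where `m = m(x)` is the least index with
`x ∈ (S m).X` (`ι` is countable: `Encodable.ofCountable`).
* sep: `x, y ∈ (S i).X`, every `z ≤ x` in `T` is `T`-compatible with `y`; for `z ∈ (S i).X` the
  compatibility of `z, y` in some `S j`, `j ≥ i`, gives it in `S i` by `Sub.cmp_of`; use `sep`
  of `S i`.
* Note: if `x, y ∈ (S k).X` and `(S k).cd 0 x = (S k).cd 0 y` then `m(x) = m(y)` (by `closed`).
  So `T.cd n x = T.cd n y ↔ (S k).cd n x = (S k).cd n y` for every `k` with `x, y ∈ (S k).X`,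
  and `T.cd n x = T.cd n y` implies that `m(x) = m(y)`, so that `x, y` are in the same `(S k).X`.
* mono, dir, lim, iso: work in `S m` for the common least index `m` (for `iso`, the least index
  of the top element is the least element of `ι`).
* W: choose `k` with all `L i`, `y₀` in `(S k).X` (finitely many), apply `W` of `S k`.
* `(S i).Sub T`: `red`: for `y ∈ (S j).X` with `j ≤ i` take `y` itself, for `j > i` use
  `(h i j).red`. -/
theorem exists_union {U : Type} {ι : Type} [LinearOrder ι] [WellFoundedLT ι] [Countable ι]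
    [Nonempty ι] (S : ι → Sw U) (h : ∀ i j, i ≤ j → (S i).Sub (S j)) :
    ∃ T : Sw U, T.X = ⋃ i, (S i).X ∧ ∀ i, (S i).Sub T := by
  letI := Encodable.ofCountable ι
  exact ⟨SwUnion.uni S h, rfl, SwUnion.sub_uni S h⟩

/-- the union of countably many small sets is small -/
theorem small_iUnion {U : Type} {ι : Type} [Countable ι] (A : ι → Set U)
    (h : ∀ i, Cardinal.mk (A i) ≤ Cardinal.continuum) :
    Cardinal.mk (⋃ i, A i : Set U) ≤ Cardinal.continuum := by
  refine (Cardinal.mk_iUnion_le A).trans ?_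
  calc Cardinal.mk ι * ⨆ i, Cardinal.mk (A i)
      ≤ Cardinal.aleph0 * Cardinal.continuum :=
        mul_le_mul' Cardinal.mk_le_aleph0 (ciSup_le' h)
    _ = Cardinal.continuum := Cardinal.aleph0_mul_continuum

/-- increasing sequences: from `exists_union` and `small_iUnion` -/
theorem exists_union_nat {U : Type} (S : ℕ → Sw U) (h : ∀ i, (S i).Sub (S (i + 1)))
    (hs : ∀ i, (S i).Small) : ∃ T : Sw U, T.Small ∧ ∀ i, (S i).Sub T := by
  have h' : ∀ i j, i ≤ j → (S i).Sub (S j) := by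
    intro i j hij
    induction j, hij using Nat.le_induction with
    | base => exact Sw.Sub.refl _
    | succ n _ ih => exact ih.trans (h n)
  obtain ⟨T, hT, hS⟩ := exists_union S h'
  refine ⟨T, ?_, hS⟩
  have h1 := small_iUnion (fun i => (S i).X) hs
  rw [← hT] at h1
  exact h1

end Pool.Agent.Lib.BPLM
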