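import Mathlib
import Pool.Agent.Lib.MP_c00cb7_lc.KModel
import Pool.Agent.Lib.MP_c00cb7_lc.ROx
import Pool.Agent.Lib.MP_c00cb7_lc.SwRN
import Pool.Agent.Lib.MP_c00cb7_lc.SwUnion

/-!
# The forcing and the symmetric system
-/

set_option autoImplicit false

open Set

namespace Pool.Agent.Lib.BPLM

open Pool.Agent.Lib.SymZF Pool.Agent.Lib.KZF

/-- The conditions: a small sweet preorder with one of its elements. -/
structure Cond (U : Type) where
  /-- the sweet preorder -/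
  S : Sw U
  /-- the element -/
  x : U
  mem : x ∈ S.X
  small : S.Small

namespace Cond

variable {U : Type}

instance : Preorder (Cond U) where
  le c d := d.S.Sub c.S ∧ c.S.le c.x d.x
  le_refl c := ⟨Sw.Sub.refl _, c.S.refl _ c.mem⟩
  le_trans a b c h h' := by
    refine ⟨h'.1.trans h.1, ?_⟩
    have h1 := (h.1.le_iff b.x b.mem c.x (h'.1.sub c.mem)).2 h'.2
    exact a.S.trans _ a.mem _ (h.1.sub b.mem) _ (h.1.sub (h'.1.sub c.mem)) h.2 h1

theorem le_def (c d : Cond U) : c ≤ d ↔ d.S.Sub c.S ∧ c.S.le c.x d.x := Iff.rfl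

/-- the action of permutations on conditions -/
def act (g : Equiv.Perm U) (c : Cond U) : Cond U where
  S := Sw.act g c.S
  x := g c.x
  mem := by simpa [Sw.mem_act] using c.mem
  small := Sw.act_small g c.small

theorem act_mul (g h : Equiv.Perm U) (c : Cond U) : act (g * h) c = act g (act h c) := rfl

theorem act_one (c : Cond U) : act 1 c = c := rfl

theorem act_le (g : Equiv.Perm U) {c d : Cond U} (h : c ≤ d) : act g c ≤ act g d :=
  ⟨Sw.act_sub g h.1, by simpa [act, Sw.act] using h.2⟩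

/-- the action as a homomorphism -/
def actHom : Equiv.Perm U →* (Cond U ≃o Cond U) where
  toFun g :=
    { toFun := act g
      invFun := act g⁻¹
      left_inv := fun p => by rw [← act_mul, inv_mul_cancel, act_one]
      right_inv := fun p => by rw [← act_mul, mul_inv_cancel, act_one]
      map_rel_iff' := by
        intro c d
        refine ⟨fun h => ?_, fun h => act_le g h⟩
        have h1 := act_le g⁻¹ h
        change act g⁻¹ (act g c) ≤ act g⁻¹ (act g d) at h1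
        rwa [← act_mul, ← act_mul, inv_mul_cancel, act_one, act_one] at h1 }
  map_one' := by
    refine DFunLike.ext _ _ fun p => ?_
    exact act_one p
  map_mul' g h := by
    refine DFunLike.ext _ _ fun p => ?_
    exact act_mul g h p

end Cond

/-- the filter of supports: generated by the pointwise stabilizers of the small sets -/
def suppFilter (U : Type) : Filter (Equiv.Perm U) where
  sets := {H | ∃ A : Set U, Cardinal.mk A ≤ Cardinal.continuum ∧
    ∀ g : Equiv.Perm U, (∀ a ∈ A, g a = a) → g ∈ H}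
  univ_sets := ⟨∅, by simp, fun g _ => mem_univ g⟩
  sets_of_superset := by
    rintro H H' ⟨A, hA, h⟩ hH
    exact ⟨A, hA, fun g hg => hH (h g hg)⟩
  inter_sets := by
    rintro H H' ⟨A, hA, h⟩ ⟨A', hA', h'⟩
    refine ⟨A ∪ A', ?_, fun g hg => ⟨h g fun a ha => hg a (Or.inl ha),
      h' g fun a ha => hg a (Or.inr ha)⟩⟩
    refine (Cardinal.mk_union_le A A').trans ?_
    exact (add_le_add hA hA').trans (by simp)

theorem mem_suppFilter {U : Type} (H : Set (Equiv.Perm U)) : H ∈ suppFilter U ↔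
    ∃ A : Set U, Cardinal.mk A ≤ Cardinal.continuum ∧
      ∀ g : Equiv.Perm U, (∀ a ∈ A, g a = a) → g ∈ H := Iff.rfl

/-- a countable union of small sets is small -/
instance (U : Type) : CountableInterFilter (suppFilter U) := by
  refine ⟨fun 𝒮 h𝒮 h => ?_⟩
  choose! A hA hA' using fun s (hs : s ∈ 𝒮) => (mem_suppFilter s).1 (h s hs)
  have : Countable 𝒮 := h𝒮
  refine (mem_suppFilter _).2 ⟨⋃ s : 𝒮, A s, small_iUnion (fun s : 𝒮 => A s) fun s => hA s s.2,
    fun g hg s hs => hA' s hs g fun a ha => hg a ?_⟩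
  exact mem_iUnion.2 ⟨⟨s, hs⟩, ha⟩

/-- The setup: a type `U` of cardinality `> 𝔠` and an inaccessible cardinal `κ > #U`. -/
structure Setup where
  /-- the ambient type -/
  U : Type
  /-- the inaccessible cardinal -/
  κ : Cardinal.{0}
  inacc : κ.IsInaccessible
  hU : Cardinal.continuum < Cardinal.mk U
  hUκ : Cardinal.mk U < κ

/-- There are at most `2^(2^(2^(#U)))`-many conditions, and `κ` is a strong limit. (`Sw U` injects into
`Set U × U × (U → U → Prop) × (ℕ → U → ℕ)`; `RB P` injects into `Set P`.) -/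
theorem card_RB_lt (D : Setup) : Cardinal.mk (RB (Cond D.U)) < D.κ := by
  have hω : Cardinal.aleph0 ≤ Cardinal.mk D.U := Cardinal.aleph0_le_continuum.trans D.hU.le
  have h2ω : Cardinal.aleph0 ≤ 2 ^ Cardinal.mk D.U := hω.trans (Cardinal.cantor _).le
  have hsl := D.inacc.isStrongLimit
  -- the number of the conditions
  have h1 : Cardinal.mk (Cond D.U) ≤ 2 ^ Cardinal.mk D.U := by
    have hinj : Function.Injective (fun c : Cond D.U =>
        ((c.S.X, c.S.top), (c.S.le, (c.S.cd, c.x)))) := by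
      rintro ⟨⟨X, top, le, cd, _, _, _, _, _, _, _, _, _, _⟩, x, _, _⟩
        ⟨⟨X', top', le', cd', _, _, _, _, _, _, _, _, _, _⟩, x', _, _⟩ h
      simp only [Prod.mk.injEq] at h
      obtain ⟨⟨rfl, rfl⟩, rfl, rfl, rfl⟩ := h
      rfl
    refine (Cardinal.mk_le_of_injective hinj).trans ?_
    have hU1 : Cardinal.mk D.U ≤ 2 ^ Cardinal.mk D.U := (Cardinal.cantor _).le
    have hmul : ∀ {a b : Cardinal.{0}}, a ≤ 2 ^ Cardinal.mk D.U → b ≤ 2 ^ Cardinal.mk D.U →
        a * b ≤ 2 ^ Cardinal.mk D.U := fun ha hb =>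
      (mul_le_mul' ha hb).trans (Cardinal.mul_eq_self h2ω).le
    have hrel : Cardinal.mk (D.U → D.U → Prop) ≤ 2 ^ Cardinal.mk D.U := by
      have : Cardinal.mk (D.U → D.U → Prop) =
          (2 ^ Cardinal.mk D.U) ^ Cardinal.mk D.U := by simp
      rw [this, ← Cardinal.power_mul, Cardinal.mul_eq_self hω]
    have hcd : Cardinal.mk (ℕ → D.U → ℕ) ≤ 2 ^ Cardinal.mk D.U := by
      have : Cardinal.mk (ℕ → D.U → ℕ) =
          (Cardinal.aleph0 ^ Cardinal.mk D.U) ^ Cardinal.aleph0 := by simp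
      rw [this, ← Cardinal.power_mul, Cardinal.mul_aleph0_eq hω,
        Cardinal.power_eq_two_power hω Cardinal.ofNat_le_aleph0 hω]
    have hset : Cardinal.mk (Set D.U) ≤ 2 ^ Cardinal.mk D.U := by simp
    simp only [Cardinal.mk_prod, Cardinal.lift_id]
    exact hmul (hmul hset hU1) (hmul hrel (hmul hcd hU1))
  -- the number of the regular open sets
  have h2 : Cardinal.mk (RB (Cond D.U)) ≤ 2 ^ Cardinal.mk (Cond D.U) := by
    rw [← Cardinal.mk_set]
    refine Cardinal.mk_le_of_injective (f := fun b : RB (Cond D.U) => b.st) ?_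
    intro a b hab
    refine Heyting.Regular.coe_injective ?_
    exact LowerSet.ext hab
  refine (h2.trans (Cardinal.power_le_power_left two_ne_zero h1)).trans_lt ?_
  exact hsl.isStrongPrelimit (hsl.isStrongPrelimit D.hUκ)

/-- the symmetric system -/
noncomputable def Setup.sys (D : Setup) : KSys where
  B := RB (Cond D.U)
  G := Equiv.Perm D.U
  α := rbHom.comp Cond.actHom
  F := suppFilter D.U
  conj := by
    intro g
    rw [Filter.Tendsto]
    rintro H ⟨A, hA, h⟩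
    refine ⟨g '' A, Cardinal.mk_image_le.trans hA, fun k hk => ?_⟩
    refine h _ fun a ha => ?_
    have h1 := hk (g a) (mem_image_of_mem _ ha)
    simp [h1]
  κ := D.κ
  inacc := D.inacc
  hB := card_RB_lt D

namespace Setup

variable (D : Setup)

/-- the algebra -/
abbrev B : Type := D.sys.B

variable {D}

/-- the Boolean value of a condition -/
noncomputable def e (c : Cond D.U) : D.B := (em c : RB (Cond D.U))

lemma e_ne_bot (c : Cond D.U) : e c ≠ ⊥ := em_ne_bot c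

lemma exists_e_le {b : D.B} (h : b ≠ ⊥) : ∃ c : Cond D.U, e c ≤ b := exists_em_le h

lemma e_mono {c d : Cond D.U} (h : c ≤ d) : e c ≤ e d := em_mono h

lemma e_inf_eq_bot {c d : Cond D.U} (h : ∀ r, r ≤ c → ¬ r ≤ d) : e c ⊓ e d = ⊥ :=
  em_inf_eq_bot h

lemma exists_le_of_e_le {c d : Cond D.U} (h : e d ≤ e c) : ∃ r, r ≤ d ∧ r ≤ c :=
  exists_le_of_em_le h

lemma exists_le_of_inf_ne_bot {c : Cond D.U} {b : D.B} (h : e c ⊓ b ≠ ⊥) :
    ∃ r, r ≤ c ∧ e r ≤ b := BPLM.exists_le_of_inf_ne_bot h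

lemma exists_le_of_not_le {c : Cond D.U} {b : D.B} (h : ¬ e c ≤ b) : ∃ r, r ≤ c ∧ e r ≤ bᶜ :=
  BPLM.exists_le_of_not_le h

lemma decide_or (c : Cond D.U) (b : D.B) : ∃ r, r ≤ c ∧ (e r ≤ b ∨ e r ≤ bᶜ) :=
  BPLM.decide_or b

lemma exists_le_of_le_iSup {ι : Sort*} {c : Cond D.U} {b : ι → D.B} (h : e c ≤ ⨆ i, b i) :
    ∃ r i, r ≤ c ∧ e r ≤ b i := BPLM.exists_le_of_le_iSup h

/-- A Boolean value is below another one as soon as no condition separates them. -/
lemma le_of_forall_e {a b : D.B} (h : ∀ q : Cond D.U, e q ≤ a → ∃ r, r ≤ q ∧ e r ≤ b) :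
    a ≤ b := le_of_forall_em (P := Cond D.U) h

/-- A condition is below `b` as soon as every extension has an extension below `b`. -/
lemma e_le_of_forall {q : Cond D.U} {b : D.B} (h : ∀ r, r ≤ q → ∃ s, s ≤ r ∧ e s ≤ b) :
    e q ≤ b := em_le_of_forall h

lemma inf_ne_bot_of_le {p q r : Cond D.U} (h1 : r ≤ p) (h2 : r ≤ q) : e p ⊓ e q ≠ ⊥ :=
  BPLM.inf_ne_bot_of_le h1 h2

lemma exists_le_le_of_inf_ne_bot {p q : Cond D.U} (h : e p ⊓ e q ≠ ⊥) :
    ∃ r, r ≤ p ∧ r ≤ q := BPLM.exists_le_le_of_inf_ne_bot h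

lemma α_e (g : Equiv.Perm D.U) (c : Cond D.U) : D.sys.α g (e c) = e (Cond.act g c) :=
  rbHom_em _ _

lemma mem_F (H : Set (Equiv.Perm D.U)) : H ∈ D.sys.F ↔
    ∃ A : Set D.U, Cardinal.mk A ≤ Cardinal.continuum ∧
      ∀ g : Equiv.Perm D.U, (∀ a ∈ A, g a = a) → g ∈ H := Iff.rfl

noncomputable instance : CountableInterFilter D.sys.F :=
  inferInstanceAs (CountableInterFilter (suppFilter D.U))

/-- The Boolean value '`S` and `x` are in the generic filter' (`⊥` for junk) -/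
noncomputable def eS (S : Sw D.U) (x : D.U) : D.B :=
  ⨆ (h : x ∈ S.X) (h' : S.Small), e (⟨S, x, h, h'⟩ : Cond D.U)

theorem eS_eq (S : Sw D.U) (x : D.U) (h : x ∈ S.X) (h' : S.Small) :
    eS S x = e (⟨S, x, h, h'⟩ : Cond D.U) := by
  simp [eS, h, h']

theorem eS_cond (c : Cond D.U) : eS c.S c.x = e c := eS_eq _ _ c.mem c.small

theorem eS_ne_bot {S : Sw D.U} {x : D.U} (h : x ∈ S.X) (h' : S.Small) : eS S x ≠ ⊥ := by
  rw [eS_eq S x h h']; exact e_ne_bot _

theorem eS_mono {S : Sw D.U} {x y : D.U} (hx : x ∈ S.X) (hy : y ∈ S.X) (h : S.le x y) :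
    eS S x ≤ eS S y := by
  refine iSup_le fun _ => iSup_le fun h' => ?_
  rw [eS_eq S y hy h']
  exact e_mono ⟨Sw.Sub.refl S, h⟩

theorem eS_sub {S T : Sw D.U} (h : S.Sub T) (hS : S.Small) {x : D.U} (hx : x ∈ S.X) :
    eS T x ≤ eS S x := by
  refine iSup_le fun hxT => iSup_le fun h' => ?_
  rw [eS_eq S x hx hS]
  exact e_mono ⟨h, T.refl x hxT⟩

/-- `eS T x = eS S x ⊓ eS T 1` for `S ≤ T`, `x ∈ S.X` -/
theorem eS_sub_eq {S T : Sw D.U} (h : S.Sub T) (hS : S.Small) (hT : T.Small) {x : D.U}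
    (hx : x ∈ S.X) : eS T x = eS S x ⊓ eS T T.top := by
  have hxT : x ∈ T.X := h.sub hx
  apply le_antisymm
  · exact le_inf (eS_sub h hS hx) (eS_mono hxT T.top_mem (T.le_top x hxT))
  · refine le_of_forall_e fun q hq => ?_
    have h1 : e q ≤ e (⟨S, x, hx, hS⟩ : Cond D.U) := by
      rw [← eS_eq S x hx hS]
      exact hq.trans inf_le_left
    have h2 : e q ≤ e (⟨T, T.top, T.top_mem, hT⟩ : Cond D.U) := by
      rw [← eS_eq T T.top T.top_mem hT]
      exact hq.trans inf_le_right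
    obtain ⟨r, hrq, hr1⟩ := exists_le_of_e_le h1
    obtain ⟨s, hsr, hs2⟩ := exists_le_of_e_le ((e_mono hrq).trans h2)
    refine ⟨s, hsr.trans hrq, ?_⟩
    rw [eS_eq T x hxT hT]
    exact e_mono ⟨hs2.1, (hsr.trans hr1).2⟩

/-- compatible in the algebra iff compatible in `S` (by `cmp_of`) -/
theorem eS_inf_ne_bot {S : Sw D.U} (hS : S.Small) {x y : D.U} (hx : x ∈ S.X) (hy : y ∈ S.X) :
    eS S x ⊓ eS S y ≠ ⊥ ↔ S.cmp x y := by
  rw [eS_eq S x hx hS, eS_eq S y hy hS]
  constructor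
  · intro h
    obtain ⟨r, h1, h2⟩ := exists_le_le_of_inf_ne_bot h
    exact h1.1.cmp_of x hx y hy ⟨r.x, r.mem, h1.2, h2.2⟩
  · rintro ⟨z, hz, h1, h2⟩
    exact inf_ne_bot_of_le (r := (⟨S, z, hz, hS⟩ : Cond D.U)) ⟨Sw.Sub.refl S, h1⟩
      ⟨Sw.Sub.refl S, h2⟩

/-- predense sets of `S` (they stay predense in extensions, `Sw.Sub.pd`) -/
theorem eS_le_iSup {S : Sw D.U} (hS : S.Small) {A : Set D.U} (hA : A ⊆ S.X) {x : D.U}
    (hx : x ∈ S.X) (h : S.Pd A x) : eS S x ≤ ⨆ a ∈ A, eS S a := by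
  rw [eS_eq S x hx hS]
  refine e_le_of_forall fun r hr => ?_
  obtain ⟨a, ha, z, hz, hzr, hza⟩ := hr.1.pd hA hx h r.x r.mem hr.2
  refine ⟨⟨r.S, z, hz, r.small⟩, ⟨Sw.Sub.refl _, hzr⟩, ?_⟩
  refine le_trans ?_ (le_iSup₂ a ha)
  rw [eS_eq S a (hA ha) hS]
  exact e_mono ⟨hr.1, hza⟩

/-- to show `eS S x ≤ b` it is enough to consider the conditions below -/
theorem eS_le_of_forall {S : Sw D.U} (hS : S.Small) {x : D.U} (hx : x ∈ S.X) {b : D.B}
    (h : ∀ c : Cond D.U, c ≤ ⟨S, x, hx, hS⟩ → ∃ d, d ≤ c ∧ e d ≤ b) : eS S x ≤ b := by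
  rw [eS_eq S x hx hS]
  exact e_le_of_forall h

theorem α_eS (g : Equiv.Perm D.U) (S : Sw D.U) (x : D.U) :
    D.sys.α g (eS S x) = eS (Sw.act g S) (g x) := by
  have hmem : g x ∈ (Sw.act g S).X ↔ x ∈ S.X := by simp [Sw.mem_act]
  have hsmall : (Sw.act g S).Small ↔ S.Small := by
    refine ⟨fun h => ?_, Sw.act_small g⟩
    have h1 := Sw.act_small g⁻¹ h
    rwa [← Sw.act_mul, inv_mul_cancel, Sw.act_one] at h1
  by_cases hx : x ∈ S.X
  · by_cases hS : S.Small
    · rw [eS_eq S x hx hS, α_e, eS_eq _ _ (hmem.2 hx) (hsmall.2 hS)]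
      rfl
    · have h1 : eS S x = ⊥ := by simp [eS, hS]
      have h2 : eS (Sw.act g S) (g x) = ⊥ := by simp [eS, hsmall, hS]
      rw [h1, h2, map_bot]
  · have h1 : eS S x = ⊥ := by simp [eS, hx]
    have h2 : eS (Sw.act g S) (g x) = ⊥ := by simp [eS, hmem, hx]
    rw [h1, h2, map_bot]

/-- a permutation fixing `S.X` pointwise fixes `eS S x` (`Sw.sub_act_of_fix`) -/
theorem α_eS_fix (g : Equiv.Perm D.U) (S : Sw D.U) (hg : ∀ x ∈ S.X, g x = x)
    (x : D.U) : D.sys.α g (eS S x) = eS S x := by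
  by_cases hx : x ∈ S.X
  · by_cases hS : S.Small
    · obtain ⟨h1, h2⟩ := Sw.sub_act_of_fix g S hg
      rw [eS_eq S x hx hS, α_e]
      have hgx : g x = x := hg x hx
      have hgx' : g.symm x = x := by rw [Equiv.symm_apply_eq, hgx]
      have hxa : x ∈ (Sw.act g S).X := h1.sub hx
      apply le_antisymm
      · refine e_mono ⟨h1, ?_⟩
        change S.le (g.symm (g x)) (g.symm x)
        rw [hgx, hgx']
        exact S.refl x hx
      · refine e_mono ⟨h2, ?_⟩
        change S.le x (g x)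
        rw [hgx]
        exact S.refl x hx
    · have h1 : eS S x = ⊥ := by simp [eS, hS]
      rw [h1, map_bot]
  · have h1 : eS S x = ⊥ := by simp [eS, hx]
    rw [h1, map_bot]

end Setup

end Pool.Agent.Lib.BPLM
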