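import Mathlib
import Pool.Agent.Lib.MP_c00cb7_lc.KModel
import Pool.Agent.Lib.MP_c00cb7_lc.KBor
import Pool.Agent.Lib.MP_c00cb7_lc.MDefs
import Pool.Agent.Lib.SymZF.Internal
import Pool.Agent.Lib.MP_c00cb7_lc.SwUnion
import Pool.Agent.Lib.MP_c00cb7_lc.Setup

section

/-!
# Generic models: evaluation of names
-/

set_option autoImplicit false

open Set

namespace Pool.Agent.Lib.KZF

open Pool.Agent.Lib.SymZF Pool.Agent.Lib.SymZF.SymSys Name Pool.Agent.Lib.BPLM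

namespace KSys

variable {S : KSys}

/-- A model with a truth lemma, for a filter `U` which is generic for membership in the names in
the set `Nm`; the numerals, `ω` and pairs have values. -/
structure GM (S : KSys) (M : Type) (E : M → M → Prop) extends TModel S M E where
  up : ∀ {a b : S.B}, a ∈ U → a ≤ b → b ∈ U
  inf : ∀ {a b : S.B}, a ∈ U → b ∈ U → a ⊓ b ∈ U
  bot : ⊥ ∉ U
  /-- the names for which `U` is generic -/
  Nm : Set S.HSet
  nm_mem : ∀ u, nm u ∈ Nm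
  om_mem : HSet.om S ∈ Nm
  memg : ∀ (u : M) (τ : S.HSet), τ ∈ Nm → (nm u).mem τ ∈ U →
    ∃ k : τ.idx, τ.vl k ∈ U ∧ (nm u).eq (τ.el k) ∈ U
  hnum : ∀ n, ∃ u, (nm u).eq (HSet.num S n) ∈ U
  hom : ∃ u, (nm u).eq (HSet.om S) ∈ U
  hpair : ∀ u v, ∃ p, (nm p).eq ((nm u).pair (nm v)) ∈ U

namespace GM

variable {M : Type} {E : M → M → Prop} (G : GM S M E)

/-- `u` is the value of the name `ρ` -/
def IsVal (u : M) (ρ : S.HSet) : Prop := (G.nm u).eq ρ ∈ G.U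

lemma isVal_nm (u : M) : G.IsVal u (G.nm u) := by
  rw [IsVal, HSet.eq_refl]; exact G.top

lemma compl_mem {b : S.B} (h : b ∈ G.U) (h' : bᶜ ∈ G.U) : False :=
  G.bot (G.up (G.inf h h') (by simp))

private lemma nm_E (u v : M) : E u v ↔ (G.nm u).mem (G.nm v) ∈ G.U :=
  G.truth (.mem 0 1) (scons u (fun _ => v))

private lemma nm_eq (u v : M) : u = v ↔ (G.nm u).eq (G.nm v) ∈ G.U :=
  G.truth (.eq 0 1) (scons u (fun _ => v))

private lemma symm_mem {ρ τ : S.HSet} (h : ρ.eq τ ∈ G.U) : τ.eq ρ ∈ G.U := by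
  rwa [HSet.eq_symm] at h

private lemma trans_mem {ρ τ σ : S.HSet} (h : ρ.eq τ ∈ G.U) (h' : τ.eq σ ∈ G.U) :
    ρ.eq σ ∈ G.U := G.up (G.inf h h') (HSet.eq_trans _ _ _)

lemma E_iff {u v : M} {ρ τ : S.HSet} (hu : G.IsVal u ρ) (hv : G.IsVal v τ) :
    E u v ↔ ρ.mem τ ∈ G.U := by
  rw [G.nm_E]
  constructor
  · intro h
    have h1 := G.up (G.inf hu h) (HSet.mem_congr_left _ _ _)
    exact G.up (G.inf hv h1) (HSet.mem_congr_right _ _ _)
  · intro h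
    have h1 := G.up (G.inf (G.symm_mem hu) h) (HSet.mem_congr_left _ _ _)
    exact G.up (G.inf (G.symm_mem hv) h1) (HSet.mem_congr_right _ _ _)

lemma eq_iff {u v : M} {ρ τ : S.HSet} (hu : G.IsVal u ρ) (hv : G.IsVal v τ) :
    u = v ↔ ρ.eq τ ∈ G.U := by
  rw [G.nm_eq]
  constructor
  · intro h
    exact G.trans_mem (G.symm_mem hu) (G.trans_mem h hv)
  · intro h
    exact G.trans_mem hu (G.trans_mem h (G.symm_mem hv))

lemma isVal_congr {u : M} {ρ τ : S.HSet} (hu : G.IsVal u ρ) (h : ρ.eq τ ∈ G.U) :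
    G.IsVal u τ := G.trans_mem hu h

private lemma exists_le (v : ℕ → M) (w : ℕ → S.HSet) (n : ℕ) (h : ∀ i < n, G.IsVal (v i) (w i)) :
    ∃ a ∈ G.U, ∀ i < n, a ≤ (G.nm (v i)).eq (w i) := by
  induction n with
  | zero => exact ⟨⊤, G.top, fun i hi => absurd hi (Nat.not_lt_zero i)⟩
  | succ n ih =>
    obtain ⟨a, ha, hle⟩ := ih fun i hi => h i (hi.trans (Nat.lt_succ_self n))
    refine ⟨a ⊓ (G.nm (v n)).eq (w n), G.inf ha (h n (Nat.lt_succ_self n)), fun i hi => ?_⟩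
    rcases Nat.lt_succ_iff_lt_or_eq.1 hi with hi | rfl
    · exact inf_le_left.trans (hle i hi)
    · exact inf_le_right

private lemma dec1 (φ : Fml) (v : ℕ → M) (w : ℕ → S.HSet)
    (h : ∀ i < φ.bd, G.IsVal (v i) (w i)) : Sat E φ v ↔ bval φ w ∈ G.U := by
  rw [G.truth]
  obtain ⟨a, ha, hle⟩ := G.exists_le v w φ.bd h
  constructor
  · intro h1
    exact G.up (G.inf ha h1) (bval_congr_bd φ _ _ a hle)
  · intro h1
    refine G.up (G.inf ha h1) (bval_congr_bd φ _ _ a fun i hi => ?_)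
    have := hle i hi
    rw [HSet.eq_symm] at this
    exact this

/-- every formula is decided at names with values -/
lemma dec (φ : Fml) (v : ℕ → M) (w : ℕ → S.HSet) (h : ∀ i < φ.bd, G.IsVal (v i) (w i)) :
    (Sat E φ v ↔ bval φ w ∈ G.U) ∧ (bval φ w ∈ G.U ∨ (bval φ w)ᶜ ∈ G.U) := by
  refine ⟨G.dec1 φ v w h, ?_⟩
  by_cases hs : Sat E φ v
  · exact Or.inl ((G.dec1 φ v w h).1 hs)
  · right
    have h1 := G.dec1 φ.neg v w (fun i hi => h i (by
      simp only [Fml.neg, Fml.bd, lt_max_iff, Nat.not_lt_zero, or_false] at hi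
      exact hi))
    rw [sat_neg, bval_neg] at h1
    exact h1.1 hs

lemma mem_or {u v : M} {ρ τ : S.HSet} (hu : G.IsVal u ρ) (hv : G.IsVal v τ) :
    ρ.mem τ ∈ G.U ∨ (ρ.mem τ)ᶜ ∈ G.U := by
  refine (G.dec (.mem 0 1) (scons u (fun _ => v)) (scons ρ (fun _ => τ)) fun i hi => ?_).2
  cases i with
  | zero => exact hu
  | succ n => exact hv

lemma eq_or {u v : M} {ρ τ : S.HSet} (hu : G.IsVal u ρ) (hv : G.IsVal v τ) :
    ρ.eq τ ∈ G.U ∨ (ρ.eq τ)ᶜ ∈ G.U := by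
  refine (G.dec (.eq 0 1) (scons u (fun _ => v)) (scons ρ (fun _ => τ)) fun i hi => ?_).2
  cases i with
  | zero => exact hu
  | succ n => exact hv

private lemma sup_mem {a b : S.B} (ha : a ∈ G.U ∨ aᶜ ∈ G.U) (h : a ⊔ b ∈ G.U) :
    a ∈ G.U ∨ b ∈ G.U := by
  rcases ha with ha | ha
  · exact Or.inl ha
  · right
    refine G.up (G.inf ha h) ?_
    rw [inf_sup_left, compl_inf_self, bot_sup_eq]
    exact inf_le_right

lemma isUPair {u v p : M} {ρ τ : S.HSet} (hu : G.IsVal u ρ) (hv : G.IsVal v τ)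
    (hp : G.IsVal p (ρ.pair τ)) : IsUPair E u v p := by
  intro z
  have hz := G.isVal_nm z
  rw [G.E_iff hz hp, G.eq_iff hz hu, G.eq_iff hz hv, HSet.mem_pair]
  constructor
  · exact G.sup_mem (G.eq_or hz hu)
  · rintro (h | h)
    · exact G.up h le_sup_left
    · exact G.up h le_sup_right

lemma exists_pair {u v : M} {ρ τ : S.HSet} (hu : G.IsVal u ρ) (hv : G.IsVal v τ) :
    ∃ p, G.IsVal p (ρ.pair τ) := by
  obtain ⟨p, hp⟩ := G.hpair u v
  exact ⟨p, G.isVal_congr hp (G.up (G.inf hu hv) (HSet.pair_congr _ _ _ _))⟩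

lemma exists_opair {u v : M} {ρ τ : S.HSet} (hu : G.IsVal u ρ) (hv : G.IsVal v τ) :
    ∃ p, G.IsVal p (ρ.opair τ) := by
  obtain ⟨a, ha⟩ := G.exists_pair hu hu
  obtain ⟨b, hb⟩ := G.exists_pair hu hv
  exact G.exists_pair ha hb

lemma isOPair {u v p : M} {ρ τ : S.HSet} (hu : G.IsVal u ρ) (hv : G.IsVal v τ)
    (hp : G.IsVal p (ρ.opair τ)) : IsOPair E u v p := by
  obtain ⟨a, ha⟩ := G.exists_pair hu hu
  obtain ⟨b, hb⟩ := G.exists_pair hu hv
  exact ⟨a, b, G.isUPair hu hu ha, G.isUPair hu hv hb, G.isUPair ha hb hp⟩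

/-- the value of an ordered pair has this name (uniqueness of pairs in `M`) -/
lemma isVal_of_isOPair {u v p : M} {ρ τ : S.HSet} (hu : G.IsVal u ρ) (hv : G.IsVal v τ)
    (hp : IsOPair E u v p) : G.IsVal p (ρ.opair τ) := by
  obtain ⟨q, hq⟩ := G.exists_opair hu hv
  rw [opair_unique G.toTModel.isZF hp (G.isOPair hu hv hq)]
  exact hq

/-- membership in a name: the element is the value of one of the elements of the name -/
lemma exists_el {u v : M} {τ : S.HSet} (hτ : τ ∈ G.Nm) (hv : G.IsVal v τ) (h : E u v) :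
    ∃ k : τ.idx, τ.vl k ∈ G.U ∧ G.IsVal u (τ.el k) :=
  G.memg u τ hτ ((G.E_iff (G.isVal_nm u) hv).1 h)

lemma E_fam {I : Type} {hI : Cardinal.mk I < S.κ} {f : I → S.HSet} {b : I → S.B} {h}
    (hN : HSet.fam hI f b h ∈ G.Nm) {v : M} (hv : G.IsVal v (HSet.fam hI f b h)) (u : M) :
    E u v ↔ ∃ i, b i ∈ G.U ∧ G.IsVal u (f i) := by
  constructor
  · intro h1
    exact G.exists_el hN hv h1
  · rintro ⟨i, hi, hu⟩
    rw [G.E_iff hu hv, HSet.mem_fam]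
    exact G.up hi (le_iSup_of_le i (by simp))

/-- the relation coded by a name of a set of ordered pairs (use `HSet.opair_eq_le`) -/
lemma rel_fam {I : Type} {hI : Cardinal.mk I < S.κ} {f1 f2 : I → S.HSet} {b : I → S.B} {h}
    (hN : HSet.fam hI (fun i => (f1 i).opair (f2 i)) b h ∈ G.Nm) {r : M}
    (hr : G.IsVal r (HSet.fam hI (fun i => (f1 i).opair (f2 i)) b h)) (u v : M) :
    Rel E r u v ↔ ∃ i, b i ∈ G.U ∧ G.IsVal u (f1 i) ∧ G.IsVal v (f2 i) := by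
  constructor
  · rintro ⟨p, hp, hpr⟩
    obtain ⟨i, hi, hpi⟩ := (G.E_fam hN hr p).1 hpr
    have h1 := G.isVal_of_isOPair (G.isVal_nm u) (G.isVal_nm v) hp
    have h2 : ((G.nm u).opair (G.nm v)).eq ((f1 i).opair (f2 i)) ∈ G.U :=
      G.trans_mem (G.symm_mem h1) hpi
    have h3 := G.up h2 (HSet.opair_eq_le _ _ _ _)
    exact ⟨i, hi, G.up h3 inf_le_left, G.up h3 inf_le_right⟩
  · rintro ⟨i, hi, hu, hv⟩
    obtain ⟨p, hp⟩ := G.exists_opair hu hv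
    exact ⟨p, G.isOPair hu hv hp, (G.E_fam hN hr p).2 ⟨i, hi, hp⟩⟩

lemma isNum {u : M} {n : ℕ} (h : G.IsVal u (HSet.num S n)) : IsNum E n u := by
  induction n generalizing u with
  | zero =>
    intro x hx
    rw [G.E_iff (G.isVal_nm x) h, HSet.mem_num_zero] at hx
    exact G.bot hx
  | succ n ih =>
    obtain ⟨j, hj⟩ := G.hnum n
    refine ⟨j, ih hj, fun x => ?_⟩
    have hx := G.isVal_nm x
    rw [G.E_iff hx h, G.E_iff hx hj, G.eq_iff hx hj, HSet.mem_num_succ]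
    constructor
    · exact G.sup_mem (G.mem_or hx hj)
    · rintro (h | h)
      · exact G.up h le_sup_left
      · exact G.up h le_sup_right

lemma isNum_iff (u : M) (n : ℕ) : IsNum E n u ↔ G.IsVal u (HSet.num S n) := by
  refine ⟨fun h => ?_, G.isNum⟩
  obtain ⟨j, hj⟩ := G.hnum n
  rw [num_unique G.toTModel.isZF h (G.isNum hj)]
  exact hj

lemma E_om {w : M} (hw : G.IsVal w (HSet.om S)) (u : M) : E u w ↔ ∃ n, IsNum E n u := by
  constructor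
  · intro h
    obtain ⟨k, _, hk⟩ := G.exists_el G.om_mem hw h
    exact ⟨k, G.isNum hk⟩
  · rintro ⟨n, hn⟩
    rw [G.isNum_iff] at hn
    rw [G.E_iff hn hw, HSet.mem_om]
    refine G.up G.top (le_iSup_of_le n ?_)
    rw [HSet.eq_refl]

lemma isOmega {w : M} (hw : G.IsVal w (HSet.om S)) : IsOmega E w := by
  have hZ := G.toTModel.isZF
  have key := G.E_om hw
  refine ⟨⟨?_, fun x hx => ?_⟩, ?_⟩
  · obtain ⟨j, hj⟩ := G.hnum 0
    exact ⟨j, G.isNum hj, (key j).2 ⟨0, G.isNum hj⟩⟩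
  · obtain ⟨n, hn⟩ := (key x).1 hx
    obtain ⟨s, hs⟩ := succ_ex hZ x
    exact ⟨s, hs, (key s).2 ⟨n + 1, x, hn, hs⟩⟩
  · intro w' hw' x hx
    obtain ⟨n, hn⟩ := (key x).1 hx
    clear hx
    induction n generalizing x with
    | zero =>
      obtain ⟨⟨e, he, hew⟩, _⟩ := hw'
      rw [emp_unique hZ hn he]; exact hew
    | succ n ih =>
      obtain ⟨j, hj, hs⟩ := hn
      obtain ⟨s, hs', hsw⟩ := hw'.2 _ (ih j hj)
      rw [succ_unique hZ hs hs']; exact hsw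

lemma isOmega_iff (w : M) : IsOmega E w ↔ G.IsVal w (HSet.om S) := by
  refine ⟨fun h => ?_, G.isOmega⟩
  obtain ⟨w', hw'⟩ := G.hom
  rw [omega_unique G.toTModel.isZF h (G.isOmega hw')]
  exact hw'

include G in
theorem omegaStd : OmegaStd E := by
  intro w k hw hk
  rw [G.isOmega_iff] at hw
  exact (G.E_om hw k).1 hk

/-! ### reals -/

lemma rl_eq {x : M} {ρ : S.HSet} (hx : G.IsVal x ρ) : rl E x = fun n => ρ.bit n ∈ G.U := by
  funext n
  apply propext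
  constructor
  · rintro ⟨z, hz, hzx⟩
    rw [G.isNum_iff] at hz
    exact (G.E_iff hz hx).1 hzx
  · intro h
    obtain ⟨z, hz⟩ := G.hnum n
    exact ⟨z, G.isNum hz, (G.E_iff hz hx).2 h⟩

lemma isReal_iff {x : M} (hx : IsReal E x) :
    G.IsVal x (HSet.rnm (G.nm x).bit (G.nm x).symB_bit) := by
  obtain ⟨w, hw, hsub⟩ := hx
  rw [G.isOmega_iff] at hw
  have h1 := (G.dec (.all ((Fml.mem 0 1).imp (.mem 0 2))) (scons x (fun _ => w))
    (scons (G.nm x) (fun _ => HSet.om S)) (fun i _ => by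
      cases i with
      | zero => exact G.isVal_nm x
      | succ n => exact hw)).1
  simp only [sat_all, sat_imp, sat_mem, scons_zero, scons_one, scons_two, bval_all, bval_imp,
    bval_mem] at h1
  exact G.up (h1.1 hsub) (HSet.le_eq_rnm (G.nm x))

lemma isReal_rnm {x : M} {b : ℕ → S.B} {hb : SymB b} (hx : G.IsVal x (HSet.rnm b hb)) :
    IsReal E x := by
  obtain ⟨w, hw⟩ := G.hom
  refine ⟨w, G.isOmega hw, fun z hz => ?_⟩
  rw [G.E_iff (G.isVal_nm z) hx, HSet.mem_rnm] at hz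
  rw [G.E_iff (G.isVal_nm z) hw, HSet.mem_om]
  exact G.up hz (iSup_mono fun n => inf_le_right)

lemma inM_of_rnm {x : M} {b : ℕ → S.B} {hb : SymB b} (hx : G.IsVal x (HSet.rnm b hb)) :
    InM E (fun n => b n ∈ G.U) := by
  refine ⟨x, G.isReal_rnm hx, ?_⟩
  rw [G.rl_eq hx, HSet.bit_rnm]

/-- every real in `M` is given by a name `rnm b` with a value in `M` -/
lemma exists_rnm {r : ℕ → Prop} (h : InM E r) : ∃ (x : M) (b : ℕ → S.B) (hb : SymB b),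
    G.IsVal x (HSet.rnm b hb) ∧ r = fun n => b n ∈ G.U := by
  obtain ⟨x, hx, rfl⟩ := h
  exact ⟨x, _, _, G.isReal_iff hx, G.rl_eq (G.isVal_nm x)⟩

include G in
private lemma real_unique {x x' : M} (hx : IsReal E x) (hx' : IsReal E x')
    (h : rl E x = rl E x') : x = x' := by
  have key : ∀ {a a' : M}, IsReal E a → rl E a = rl E a' → ∀ z, E z a → E z a' := by
    intro a a' ha haa z hz
    obtain ⟨w, hw, hsub⟩ := ha
    obtain ⟨n, hn⟩ := G.omegaStd w z hw (hsub z hz)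
    have h1 : rl E a n := ⟨z, hn, hz⟩
    rw [haa] at h1
    obtain ⟨z', hz', hz'a⟩ := h1
    rw [num_unique G.toTModel.isZF hn hz']
    exact hz'a
  exact G.toTModel.isZF.ext _ _ fun z => ⟨key hx h z, key hx' h.symm z⟩

lemma memA_iff {x A : M} {b : ℕ → S.B} {hb : SymB b} {α : S.HSet}
    (hx : G.IsVal x (HSet.rnm b hb)) (hA : G.IsVal A α) :
    MemA E A (fun n => b n ∈ G.U) ↔ (HSet.rnm b hb).mem α ∈ G.U := by
  rw [← G.E_iff hx hA]
  have hrl : rl E x = fun n => b n ∈ G.U := by rw [G.rl_eq hx, HSet.bit_rnm]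
  constructor
  · rintro ⟨x', hx', hr, hxA⟩
    rw [G.real_unique (G.isReal_rnm hx) hx' (hrl.trans hr.symm)]
    exact hxA
  · intro h
    exact ⟨x, G.isReal_rnm hx, hrl, h⟩

end GM

end KSys

end Pool.Agent.Lib.KZF
end

section

section

/-!
# Chains of length `ω₁` of sweet preorders
-/

set_option autoImplicit false

open Set

namespace Pool.Agent.Lib.BPLM

/-- the ordinal `ω₁` as a type -/
abbrev Om1 : Type := (Cardinal.aleph 1).ord.ToType

/-- initial segments of `ω₁` are countable -/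
theorem Om1.countable_Iio (ξ : Om1) : Countable {η : Om1 // η < ξ} := by
  have h : Cardinal.mk (Set.Iio ξ) < Cardinal.aleph 1 := Cardinal.mk_Iio_ord_toType ξ
  exact (Cardinal.countable_iff_lt_aleph_one _).2 h

theorem Om1.exists_gt (A : Set Om1) (hA : A.Countable) : ∃ ξ, ∀ η ∈ A, η < ξ := by
  by_contra hcon
  push Not at hcon
  have h1 : (Set.univ : Set Om1) = ⋃ η ∈ A, Set.Iic η := by
    ext ξ
    simp only [Set.mem_univ, Set.mem_iUnion, Set.mem_Iic, exists_prop, true_iff]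
    exact hcon ξ
  have h2 : (Set.univ : Set Om1).Countable := by
    rw [h1]
    refine hA.biUnion fun η _ => ?_
    have h3 : (Set.Iio η).Countable := Om1.countable_Iio η
    rw [← Set.Iio_union_right]
    exact h3.union (Set.countable_singleton η)
  have h4 := (Cardinal.countable_iff_lt_aleph_one _).1 h2
  rw [Cardinal.mk_univ, Cardinal.mk_ord_toType] at h4
  exact lt_irrefl _ h4

/-- Pressing down (weak form). Otherwise for every `γ` there is `g γ` such that every `ξ` with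
`f ξ ≤ γ` is `≤ g γ`. Let `h 0` be any non-minimal element, `h (n+1)` an element above `h n`, and
above `g γ` for all `γ ≤ h n` (countably many), and let `ξ` be the least element above all `h n`
(so every `γ < ξ` is below some `h n`). Then `f ξ < ξ`, so `f ξ ≤ h n` for some `n`, and
`ξ ≤ g (h n) < h (n+1) < ξ`. -/
theorem pressing (f : Om1 → Om1) (hf : ∀ ξ, (∃ η, η < ξ) → f ξ < ξ) :
    ∃ γ, ∀ β, ∃ ξ, β < ξ ∧ f ξ ≤ γ := by
  by_contra hcon
  push Not at hcon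
  choose g hg using hcon
  have hs : ∀ x : Om1, ∃ y, x < y ∧ ∀ γ, γ ≤ x → g γ < y := by
    intro x
    obtain ⟨y, hy⟩ := Om1.exists_gt ({x} ∪ g '' Set.Iic x) (by
      refine (Set.countable_singleton x).union (Set.Countable.image ?_ g)
      have h3 : (Set.Iio x).Countable := Om1.countable_Iio x
      rw [← Set.Iio_union_right]
      exact h3.union (Set.countable_singleton x))
    exact ⟨y, hy x (Or.inl rfl), fun γ hγ => hy _ (Or.inr ⟨γ, hγ, rfl⟩)⟩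
  choose s hs1 hs2 using hs
  obtain ⟨x0, -⟩ := Om1.exists_gt ∅ Set.countable_empty
  obtain ⟨ξ1, hξ1⟩ := Om1.exists_gt (Set.range fun n : ℕ => s^[n] x0) (Set.countable_range _)
  have hne : {ξ : Om1 | ∀ n : ℕ, s^[n] x0 < ξ}.Nonempty := ⟨ξ1, fun n => hξ1 _ ⟨n, rfl⟩⟩
  obtain ⟨ξ, hξ, hmin⟩ := wellFounded_lt.has_min _ hne
  have h1 : f ξ < ξ := hf ξ ⟨x0, hξ 0⟩
  have h2 : ¬ ∀ n : ℕ, s^[n] x0 < f ξ := fun h => hmin _ h h1
  push Not at h2
  obtain ⟨n, hn⟩ := h2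
  have h3 : g (f ξ) < ξ := by
    refine (hs2 _ _ hn).trans ?_
    have := hξ (n + 1)
    rwa [Function.iterate_succ_apply'] at this
  exact lt_irrefl _ (hg _ _ h3)

/-- A continuous chain of length `ω₁`. By well-founded recursion: `C ξ` is an upper bound of
`S₀` and of all `nx (C η)`, `η < ξ`, with underlying set the union, given by `exists_union` (with
index type `WithBot {η // η < ξ}`, family `⊥ ↦ S₀`, `η ↦ nx (C η)`) provided this family is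
increasing and `S₀` otherwise; by induction it is increasing
(`nx (C η) ≤ C η' ≤ nx (C η')` for `η < η'`), and small by `small_iUnion`. -/
theorem exists_chain {U : Type} (S₀ : Sw U) (hS₀ : S₀.Small) (nx : Sw U → Sw U)
    (hnx : ∀ S, S₀.Sub S → S.Small → S.Sub (nx S) ∧ (nx S).Small) :
    ∃ C : Om1 → Sw U, (∀ ξ, S₀.Sub (C ξ) ∧ (C ξ).Small) ∧
      (∀ η ξ, η < ξ → (nx (C η)).Sub (C ξ)) ∧
      ∀ ξ, (C ξ).X = S₀.X ∪ ⋃ η : {η // η < ξ}, (nx (C η.1)).X := by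
  classical
  let R : (ξ : Om1) → ((η : Om1) → η < ξ → Sw U) → Sw U → Prop := fun ξ c T =>
    S₀.Sub T ∧ (∀ η (hη : η < ξ), (nx (c η hη)).Sub T) ∧
      T.X = S₀.X ∪ ⋃ η : {η // η < ξ}, (nx (c η.1 η.2)).X
  let F : (ξ : Om1) → ((η : Om1) → η < ξ → Sw U) → Sw U := fun ξ c =>
    if h : ∃ T : Sw U, R ξ c T then h.choose else S₀
  let C : Om1 → Sw U := (wellFounded_lt (α := Om1)).fix F
  have hC : ∀ ξ, C ξ = F ξ (fun η _ => C η) := fun ξ => WellFounded.fix_eq _ F ξ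
  have key : ∀ ξ, (S₀.Sub (C ξ) ∧ (C ξ).Small) ∧ (∀ η, η < ξ → (nx (C η)).Sub (C ξ)) ∧
      (C ξ).X = S₀.X ∪ ⋃ η : {η // η < ξ}, (nx (C η.1)).X := by
    intro ξ
    induction ξ using (wellFounded_lt (α := Om1)).induction with
    | _ ξ ih =>
    have hcount := Om1.countable_Iio ξ
    let Fam : WithBot {η : Om1 // η < ξ} → Sw U := fun i =>
      WithBot.recBotCoe (C := fun _ => Sw U) S₀ (fun η => nx (C η.1)) i
    have hFb : Fam ⊥ = S₀ := rfl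
    have hFc : ∀ η : {η : Om1 // η < ξ}, Fam (η : WithBot {η : Om1 // η < ξ}) = nx (C η.1) :=
      fun _ => rfl
    have hstep : ∀ η, η < ξ → (C η).Sub (nx (C η)) ∧ (nx (C η)).Small := fun η hη =>
      hnx _ (ih η hη).1.1 (ih η hη).1.2
    have hinc : ∀ i j, i ≤ j → (Fam i).Sub (Fam j) := by
      intro i j hij
      cases i using WithBot.recBotCoe with
      | bot =>
        cases j using WithBot.recBotCoe with
        | bot => exact Sw.Sub.refl _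
        | coe b =>
          rw [hFb, hFc]
          exact (ih b.1 b.2).1.1.trans (hstep b.1 b.2).1
      | coe a =>
        cases j using WithBot.recBotCoe with
        | bot => exact absurd hij (by simp)
        | coe b =>
          rw [WithBot.coe_le_coe] at hij
          rw [hFc, hFc]
          rcases hij.eq_or_lt with h | h
          · rw [h]
            exact Sw.Sub.refl _
          · exact ((ih b.1 b.2).2.1 a.1 h).trans (hstep b.1 b.2).1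
    have hcW : Countable (WithBot {η : Om1 // η < ξ}) :=
      inferInstanceAs (Countable (Option {η : Om1 // η < ξ}))
    obtain ⟨T, hT1, hT2⟩ := exists_union Fam hinc
    have hTX : T.X = S₀.X ∪ ⋃ η : {η // η < ξ}, (nx (C η.1)).X := by
      rw [hT1]
      ext x
      simp only [Set.mem_iUnion, Set.mem_union]
      constructor
      · rintro ⟨i, hi⟩
        cases i using WithBot.recBotCoe with
        | bot => exact Or.inl hi
        | coe a => exact Or.inr ⟨a, hi⟩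
      · rintro (h | ⟨a, h⟩)
        · exact ⟨⊥, h⟩
        · exact ⟨(a : WithBot {η : Om1 // η < ξ}), h⟩
    have hex : ∃ T : Sw U, R ξ (fun η _ => C η) T :=
      ⟨T, hT2 ⊥, fun η hη => hT2 ((⟨η, hη⟩ : {η : Om1 // η < ξ}) : WithBot {η : Om1 // η < ξ}), hTX⟩
    have hCR : R ξ (fun η _ => C η) (C ξ) := by
      rw [hC ξ]
      show R ξ (fun η _ => C η) (if h : ∃ T : Sw U, R ξ (fun η _ => C η) T then h.choose else S₀)
      rw [dif_pos hex]
      exact hex.choose_spec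
    obtain ⟨h1, h2, h3⟩ := hCR
    refine ⟨⟨h1, ?_⟩, h2, h3⟩
    have h4 : (C ξ).X = ⋃ i, (Fam i).X := by rw [h3, ← hTX, hT1]
    show Cardinal.mk (C ξ).X ≤ Cardinal.continuum
    rw [h4]
    refine small_iUnion _ fun i => ?_
    cases i using WithBot.recBotCoe with
    | bot => exact hS₀
    | coe a => exact (hstep a.1 a.2).2
  exact ⟨C, fun ξ => (key ξ).1, fun η ξ h => (key ξ).2.1 η h, fun ξ => (key ξ).2.2⟩

end Pool.Agent.Lib.BPLM
end

section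

/-!
# The chain lemma
-/

set_option autoImplicit false

open Set

namespace Pool.Agent.Lib.BPLM

/-- (A6) The chain lemma.

Proof. Otherwise for every small `S ≥ S₀` there is `bad S ∈ S.X` such that no `y ≤ bad S` in `S.X`
is in `D S`, and by `hdense` there are `nx S ≥ S` small and `pt S ∈ (nx S).X`, `pt S ≤ bad S`,
`pt S ∈ D (nx S)`. Let `C` be the chain of `exists_chain`, `x ξ = pt (C ξ)`.

For `ξ < η`, `x ξ` and `x η` are incompatible in `nx (C η)`: `x η ≤ bad (C η)` and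
`x ξ ∈ (nx (C ξ)).X ⊆ (C η).X`; if they were compatible, then `x ξ` and `bad (C η)` would be
compatible in `nx (C η)`, so in `C η`, and a common lower bound `z ∈ (C η).X` would be in `D (C η)`
by `hopen`, contradiction.

Let `r ξ ∈ (C ξ).X` be a reduction of `x ξ` (for `C ξ ≤ nx (C ξ)`). If `ξ` is not the least
element, there is `f ξ < ξ` with `r ξ ∈ (nx (C (f ξ))).X` (as `S₀.X ⊆ (nx (C η)).X`). By `pressing`
there is `γ` with `f ξ ≤ γ` for unboundedly many `ξ`; for these `r ξ ∈ (nx (C γ)).X`. Since there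
are uncountably many of them above `γ` and only countably many codes, there are `γ < ξ < η` with
`(nx (C γ)).cd 0 (r ξ) = (nx (C γ)).cd 0 (r η)`; by `dir` let `r ≤ r ξ, r η` in `nx (C γ)`. Then
`r ∈ (C ξ).X`, `r ≤ r ξ`, so there is `z ≤ r, x ξ` in `nx (C ξ)`; `z ∈ (C η).X`, `z ≤ r ≤ r η`, so
`z` is compatible with `x η` in `nx (C η)`, and so are `x ξ` and `x η`. Contradiction. -/
theorem chain_lemma {U : Type} (S₀ : Sw U) (hS₀ : S₀.Small) (D : Sw U → Set U)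
    (hopen : ∀ S T, S₀.Sub S → S.Sub T → S.Small → T.Small → ∀ x ∈ S.X, x ∈ D S →
      ∀ y ∈ T.X, T.le y x → y ∈ D T)
    (hdense : ∀ S, S₀.Sub S → S.Small → ∀ x ∈ S.X, ∃ T, S.Sub T ∧ T.Small ∧
      ∃ y ∈ T.X, T.le y x ∧ y ∈ D T) :
    ∃ S, S₀.Sub S ∧ S.Small ∧ ∀ x ∈ S.X, ∃ y ∈ S.X, S.le y x ∧ y ∈ D S := by
  classical
  by_contra hcon
  have h1 : ∀ S : Sw U, ∃ (b : U) (T : Sw U) (p : U), S₀.Sub S → S.Small →
      b ∈ S.X ∧ (∀ y ∈ S.X, S.le y b → y ∉ D S) ∧ S.Sub T ∧ T.Small ∧ p ∈ T.X ∧ T.le p b ∧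
        p ∈ D T := by
    intro S
    by_cases hS : S₀.Sub S ∧ S.Small
    · have h2 : ∃ x ∈ S.X, ∀ y ∈ S.X, S.le y x → y ∉ D S := by
        by_contra h3
        refine hcon ⟨S, hS.1, hS.2, fun x hx => ?_⟩
        by_contra h4
        exact h3 ⟨x, hx, fun y hy hyx hyD => h4 ⟨y, hy, hyx, hyD⟩⟩
      obtain ⟨b, hb, hb2⟩ := h2
      obtain ⟨T, hT, hT2, p, hp, hp2, hp3⟩ := hdense S hS.1 hS.2 b hb
      exact ⟨b, T, p, fun _ _ => ⟨hb, hb2, hT, hT2, hp, hp2, hp3⟩⟩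
    · exact ⟨S.top, S, S.top, fun h2 h3 => absurd ⟨h2, h3⟩ hS⟩
  choose bad nx pt hall using h1
  obtain ⟨C, hC1, hC2, hC3⟩ := exists_chain S₀ hS₀ nx
    (fun S h2 h3 => ⟨(hall S h2 h3).2.2.1, (hall S h2 h3).2.2.2.1⟩)
  have hN := fun ξ => hall (C ξ) (hC1 ξ).1 (hC1 ξ).2
  have hCN : ∀ ξ, (C ξ).Sub (nx (C ξ)) := fun ξ => (hN ξ).2.2.1
  have hNN : ∀ η ξ, η ≤ ξ → (nx (C η)).Sub (nx (C ξ)) := by
    intro η ξ h
    rcases h.eq_or_lt with h | h
    · rw [h]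
      exact Sw.Sub.refl _
    · exact (hC2 η ξ h).trans (hCN ξ)
  have hpt : ∀ ξ, pt (C ξ) ∈ (nx (C ξ)).X := fun ξ => (hN ξ).2.2.2.2.1
  have hinc : ∀ ξ η, ξ < η → ¬ (nx (C η)).cmp (pt (C ξ)) (pt (C η)) := by
    intro ξ η hξη hc
    have h2 : pt (C ξ) ∈ (C η).X := (hC2 ξ η hξη).sub (hpt ξ)
    have h3 : (nx (C η)).cmp (pt (C ξ)) (bad (C η)) :=
      (nx (C η)).cmp_mono ((hCN η).sub h2) ((hCN η).sub h2) (hpt η) ((hCN η).sub (hN η).1)
        ((nx (C η)).refl _ ((hCN η).sub h2)) (hN η).2.2.2.2.2.1 hc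
    obtain ⟨z, hz, hz1, hz2⟩ := (hCN η).cmp_of _ h2 _ (hN η).1 h3
    exact (hN η).2.1 z hz hz2 (hopen (nx (C ξ)) (C η) ((hC1 ξ).1.trans (hCN ξ)) (hC2 ξ η hξη)
      (hN ξ).2.2.2.1 (hC1 η).2 _ (hpt ξ) (hN ξ).2.2.2.2.2.2 z hz hz1)
  choose r hr hr2 using fun ξ => (hCN ξ).red _ (hpt ξ)
  have hf : ∀ ξ, ∃ g, (∃ η, η < ξ) → g < ξ ∧ r ξ ∈ (nx (C g)).X := by
    intro ξ
    by_cases hne : ∃ η, η < ξ
    · obtain ⟨η, hη⟩ := hne
      have h2 := hr ξ
      rw [hC3 ξ] at h2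
      rcases h2 with h2 | h2
      · exact ⟨η, fun _ => ⟨hη, ((hC1 η).1.trans (hCN η)).sub h2⟩⟩
      · obtain ⟨ζ, hζ⟩ := Set.mem_iUnion.1 h2
        exact ⟨ζ.1, fun _ => ⟨ζ.2, hζ⟩⟩
    · exact ⟨ξ, fun h => absurd h hne⟩
  choose f hf using hf
  obtain ⟨γ, hγ⟩ := pressing f (fun ξ h => (hf ξ h).1)
  have hunc : ¬ {ξ | γ < ξ ∧ f ξ ≤ γ}.Countable := by
    intro hA
    obtain ⟨ξ0, hξ0⟩ := Om1.exists_gt _ hA
    obtain ⟨ξ, h2, h3⟩ := hγ (max γ ξ0)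
    have h4 := hξ0 ξ ⟨(le_max_left _ _).trans_lt h2, h3⟩
    exact lt_irrefl _ (h4.trans ((le_max_right _ _).trans_lt h2))
  have hninj : ¬ Set.InjOn (fun ξ => (nx (C γ)).cd 0 (r ξ)) {ξ | γ < ξ ∧ f ξ ≤ γ} := fun h =>
    hunc (Set.countable_of_injective_of_countable_image h (Set.to_countable _))
  have hex : ∃ ξ η, γ < ξ ∧ ξ < η ∧ f ξ ≤ γ ∧ f η ≤ γ ∧
      (nx (C γ)).cd 0 (r ξ) = (nx (C γ)).cd 0 (r η) := by
    by_contra h2
    apply hninj
    intro ξ hξ η hη h3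
    rcases lt_trichotomy ξ η with h4 | h4 | h4
    · exact absurd ⟨ξ, η, hξ.1, h4, hξ.2, hη.2, h3⟩ h2
    · exact h4
    · exact absurd ⟨η, ξ, hη.1, h4, hη.2, hξ.2, h3.symm⟩ h2
  obtain ⟨ξ, η, h2, h3, h4, h5, h6⟩ := hex
  have hrξ : r ξ ∈ (nx (C γ)).X := (hNN _ _ h4).sub (hf ξ ⟨γ, h2⟩).2
  have hrη : r η ∈ (nx (C γ)).X := (hNN _ _ h5).sub (hf η ⟨ξ, h3⟩).2
  obtain ⟨s, hs, hs1, hs2, -⟩ := (nx (C γ)).dir 0 _ hrξ _ hrη h6
  have hγξ := hC2 γ ξ h2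
  have hγη := hC2 γ η (h2.trans h3)
  have hξη := hC2 ξ η h3
  obtain ⟨z, hz, hz1, hz2⟩ := hr2 ξ s (hγξ.sub hs) ((hγξ.le_iff _ hs _ hrξ).2 hs1)
  have hz3 : z ∈ (C η).X := hξη.sub hz
  have hz4 : (C η).le z s := (hξη.le_iff _ hz _ ((hCN ξ).sub (hγξ.sub hs))).2 hz1
  have hz5 : (C η).le z (r η) :=
    (C η).trans _ hz3 _ (hγη.sub hs) _ (hr η) hz4 ((hγη.le_iff _ hs _ hrη).2 hs2)
  have hz6 : (C η).le z (pt (C ξ)) := (hξη.le_iff _ hz _ (hpt ξ)).2 hz2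
  have hx : pt (C ξ) ∈ (C η).X := hξη.sub (hpt ξ)
  refine hinc ξ η h3 ?_
  exact (nx (C η)).cmp_mono ((hCN η).sub hz3) ((hCN η).sub hx) (hpt η) (hpt η)
    (((hCN η).le_iff _ hz3 _ hx).2 hz6) ((nx (C η)).refl _ (hpt η)) (hr2 η z hz3 hz5)

end Pool.Agent.Lib.BPLM
end

section

/-!
# Capturing Boolean values by small sweet preorders
-/

set_option autoImplicit false

open Set

namespace Pool.Agent.Lib.BPLM

open Pool.Agent.Lib.SymZF Pool.Agent.Lib.KZF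

namespace Setup

variable {D : Setup}

/-- One open dense set: `chain_lemma` for `D S = {x | ∃ h h', ⟨S, x, h, h'⟩ ∈ Δ}`. -/
theorem exists_dense_one (Δ : Set (Cond D.U)) (hlow : ∀ c ∈ Δ, ∀ d ≤ c, d ∈ Δ)
    (S₀ : Sw D.U) (hS₀ : S₀.Small) (hd : ∀ c : Cond D.U, S₀.Sub c.S → ∃ d ≤ c, d ∈ Δ) :
    ∃ S, S₀.Sub S ∧ ∃ hS : S.Small, ∀ x ∈ S.X, ∃ y, ∃ hy : y ∈ S.X, S.le y x ∧
      (⟨S, y, hy, hS⟩ : Cond D.U) ∈ Δ := by
  obtain ⟨S, h1, h2, h3⟩ := chain_lemma S₀ hS₀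
    (fun S => {x | ∃ (h : x ∈ S.X) (h' : S.Small), (⟨S, x, h, h'⟩ : Cond D.U) ∈ Δ})
    (by
      intro S T _ hST hS hT x hx hxD y hy hyx
      obtain ⟨h, h', hm⟩ := hxD
      exact ⟨hy, hT, hlow _ hm _ ⟨hST, hyx⟩⟩)
    (by
      intro S hS0 hS x hx
      obtain ⟨d, hdc, hdΔ⟩ := hd ⟨S, x, hx, hS⟩ hS0
      exact ⟨d.S, hdc.1, d.small, d.x, d.mem, hdc.2, d.mem, d.small, hdΔ⟩)
  refine ⟨S, h1, h2, fun x hx => ?_⟩
  obtain ⟨y, hy, hyx, hy', h', hm⟩ := h3 x hx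
  exact ⟨y, hy, hyx, hm⟩

/-- If `Δ` is open and dense in `S` (every `x ∈ S.X` has `y ≤ x` with `(S, y) ∈ Δ`) then also in every
extension `T`: for `y ∈ T.X` take a reduction `x ∈ S.X`, `x' ≤ x` with `(S, x') ∈ Δ`, and
`z ≤ x', y` in `T`. -/
theorem dense_mono (Δ : Set (Cond D.U)) (hlow : ∀ c ∈ Δ, ∀ d ≤ c, d ∈ Δ) {S T : Sw D.U}
    (hS : S.Small) (hT : T.Small) (h : S.Sub T)
    (hd : ∀ x ∈ S.X, ∃ y, ∃ hy : y ∈ S.X, S.le y x ∧ (⟨S, y, hy, hS⟩ : Cond D.U) ∈ Δ) :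
    ∀ x ∈ T.X, ∃ y, ∃ hy : y ∈ T.X, T.le y x ∧ (⟨T, y, hy, hT⟩ : Cond D.U) ∈ Δ := by
  intro y hy
  obtain ⟨x, hx, hred⟩ := h.red y hy
  obtain ⟨x', hx', hle, hΔ⟩ := hd x hx
  obtain ⟨z, hz, hz1, hz2⟩ := hred x' hx' hle
  exact ⟨z, hz, hz2, hlow _ hΔ _ ⟨h, hz1⟩⟩

/-- Countably many open dense sets: iterate `exists_dense_one`, take the union
(`exists_union_nat`) and use `dense_mono`. -/
theorem exists_dense_all (Δ : ℕ → Set (Cond D.U)) (hlow : ∀ n, ∀ c ∈ Δ n, ∀ d ≤ c, d ∈ Δ n)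
    (S₀ : Sw D.U) (hS₀ : S₀.Small)
    (hd : ∀ n, ∀ c : Cond D.U, S₀.Sub c.S → ∃ d ≤ c, d ∈ Δ n) :
    ∃ S, S₀.Sub S ∧ ∃ hS : S.Small, ∀ n, ∀ x ∈ S.X, ∃ y, ∃ hy : y ∈ S.X, S.le y x ∧
      (⟨S, y, hy, hS⟩ : Cond D.U) ∈ Δ n := by
  classical
  have step : ∀ (n : ℕ) (P : {S : Sw D.U // S₀.Sub S ∧ S.Small}),
      ∃ Q : {S : Sw D.U // S₀.Sub S ∧ S.Small}, P.1.Sub Q.1 ∧
        ∀ x ∈ Q.1.X, ∃ y, ∃ hy : y ∈ Q.1.X, Q.1.le y x ∧
          (⟨Q.1, y, hy, Q.2.2⟩ : Cond D.U) ∈ Δ n := by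
    intro n P
    obtain ⟨S, h1, h2, h3⟩ := exists_dense_one (Δ n) (hlow n) P.1 P.2.2
      (fun c hc => hd n c (P.2.1.trans hc))
    exact ⟨⟨S, P.2.1.trans h1, h2⟩, h1, h3⟩
  choose nx hnx1 hnx2 using step
  let C : ℕ → {S : Sw D.U // S₀.Sub S ∧ S.Small} :=
    fun n => Nat.rec ⟨S₀, Sw.Sub.refl _, hS₀⟩ (fun n P => nx n P) n
  have hC : ∀ n, C (n + 1) = nx n (C n) := fun n => rfl
  obtain ⟨T, hT, hCT⟩ := exists_union_nat (fun n => (C n).1)
    (fun n => by rw [hC n]; exact hnx1 n (C n)) (fun n => (C n).2.2)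
  refine ⟨T, hCT 0, hT, fun n => ?_⟩
  have h1 := hnx2 n (C n)
  exact dense_mono (Δ n) (hlow n) (nx n (C n)).2.2 hT (hCT (n + 1)) h1

/-- `S` captures `b`: the elements of `S` deciding `b` are dense in `S`. -/
def Cap (S : Sw D.U) (b : D.B) : Prop :=
  ∀ x ∈ S.X, ∃ y ∈ S.X, S.le y x ∧ (eS S y ≤ b ∨ eS S y ≤ bᶜ)

theorem Cap.mono {S T : Sw D.U} {b : D.B} (h : Cap S b) (hS : S.Small) (hT : T.Small)
    (hST : S.Sub T) : Cap T b := by
  intro x hx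
  obtain ⟨r, hr, hred⟩ := hST.red x hx
  obtain ⟨y, hy, hyr, hb⟩ := h r hr
  obtain ⟨z, hz, hzy, hzx⟩ := hred y hy hyr
  have h1 : eS T z ≤ eS S y := (eS_mono hz (hST.sub hy) hzy).trans (eS_sub hST hS hy)
  exact ⟨z, hz, hzx, hb.imp h1.trans h1.trans⟩

/-- countably many values can be captured (`exists_dense_all`, `decide_or`) -/
theorem exists_cap (b : ℕ → D.B) (S₀ : Sw D.U) (hS₀ : S₀.Small) :
    ∃ S, S₀.Sub S ∧ S.Small ∧ ∀ n, Cap S (b n) := by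
  obtain ⟨S, h1, h2, h3⟩ := exists_dense_all
    (fun n => {c : Cond D.U | e c ≤ b n ∨ e c ≤ (b n)ᶜ})
    (fun n c hc d hdc => hc.imp (e_mono hdc).trans (e_mono hdc).trans) S₀ hS₀
    (fun n c _ => decide_or c (b n))
  refine ⟨S, h1, h2, fun n x hx => ?_⟩
  obtain ⟨y, hy, hyx, hm⟩ := h3 n x hx
  refine ⟨y, hy, hyx, ?_⟩
  rw [eS_eq S y hy h2]
  exact hm

/-- A condition below `⟨S, v⟩`-like data: if `r` extends `S`, `v ∈ S.X` has only `r.x`-compatible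
elements below it, `e r ≤ b` and `S` captures `b`, then some `y ≤ v` has `eS S y ≤ b` and there is
a condition below `r` and below `eS S y`. -/
private theorem cap_core {S : Sw D.U} {b : D.B} (hS : S.Small) (h : Cap S b) (r : Cond D.U)
    (hsub : S.Sub r.S) (hb : e r ≤ b) (v : D.U) (hv : v ∈ S.X)
    (hred : ∀ x' ∈ S.X, S.le x' v → r.S.cmp x' r.x) :
    ∃ y ∈ S.X, S.le y v ∧ eS S y ≤ b ∧ ∃ s, s ≤ r ∧ e s ≤ eS S y := by
  obtain ⟨y, hy, hyv, hyb⟩ := h v hv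
  obtain ⟨z, hz, hzy, hzr⟩ := hred y hy hyv
  have hsr : (⟨r.S, z, hz, r.small⟩ : Cond D.U) ≤ r := ⟨Sw.Sub.refl _, hzr⟩
  have h1 : e (⟨r.S, z, hz, r.small⟩ : Cond D.U) ≤ eS S y := by
    rw [← eS_eq r.S z hz r.small]
    exact (eS_mono hz (hsub.sub hy) hzy).trans (eS_sub hsub hS hy)
  rcases hyb with hyb | hyb
  · exact ⟨y, hy, hyv, hyb, _, hsr, h1⟩
  · exfalso
    apply e_ne_bot (⟨r.S, z, hz, r.small⟩ : Cond D.U)
    rw [← le_bot_iff]
    calc e (⟨r.S, z, hz, r.small⟩ : Cond D.U) ≤ b ⊓ bᶜ :=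
          le_inf ((e_mono hsr).trans hb) (h1.trans hyb)
      _ ≤ ⊥ := by simp

theorem Cap.inf_eq {S : Sw D.U} {b : D.B} (hS : S.Small) (h : Cap S b) :
    eS S S.top ⊓ b = ⨆ (y) (_ : y ∈ S.X ∧ eS S y ≤ b), eS S y := by
  apply le_antisymm
  · refine le_of_forall_e fun q hq => ?_
    have h1 : e q ≤ e (⟨S, S.top, S.top_mem, hS⟩ : Cond D.U) := by
      rw [← eS_eq S S.top S.top_mem hS]
      exact hq.trans inf_le_left
    obtain ⟨r, hrq, hrt⟩ := exists_le_of_e_le h1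
    obtain ⟨v, hv, hred⟩ := hrt.1.red r.x r.mem
    obtain ⟨y, hy, -, hyb, s, hsr, hsy⟩ := cap_core hS h r hrt.1
      ((e_mono hrq).trans (hq.trans inf_le_right)) v hv hred
    exact ⟨s, hsr.trans hrq, hsy.trans (le_iSup₂_of_le y ⟨hy, hyb⟩ le_rfl)⟩
  · refine iSup₂_le fun y hy => le_inf ?_ hy.2
    exact eS_mono hy.1 S.top_mem (S.le_top y hy.1)

/-- if `S` captures `b` and `eS S x ⊓ b ≠ ⊥` then some `y ≤ x` forces `b` -/
theorem Cap.exists_le {S : Sw D.U} {b : D.B} (hS : S.Small) (h : Cap S b) {x : D.U}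
    (hx : x ∈ S.X) (hne : eS S x ⊓ b ≠ ⊥) : ∃ y ∈ S.X, S.le y x ∧ eS S y ≤ b := by
  rw [eS_eq S x hx hS] at hne
  obtain ⟨r, hrx, hrb⟩ := exists_le_of_inf_ne_bot hne
  have hsub : S.Sub r.S := hrx.1
  have hle : r.S.le r.x x := hrx.2
  obtain ⟨w, hw, hred⟩ := hsub.red r.x r.mem
  have hcmp : S.cmp w x := by
    refine hsub.cmp_of w hw x hx ?_
    obtain ⟨z, hz, h1, h2⟩ := hred w hw (S.refl w hw)
    exact ⟨z, hz, h1, r.S.trans _ hz _ r.mem _ (hsub.sub hx) h2 hle⟩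
  obtain ⟨v, hv, hvw, hvx⟩ := hcmp
  obtain ⟨y, hy, hyv, hyb, -⟩ := cap_core hS h r hsub hrb v hv
    (fun x' hx' hx'v => hred x' hx' (S.trans _ hx' _ hv _ hw hx'v hvw))
  exact ⟨y, hy, S.trans _ hy _ hv _ hx hyv hvx, hyb⟩

/-- every condition has an extension capturing countably many values -/
theorem exists_cap_le (b : ℕ → D.B) (c : Cond D.U) :
    ∃ d ≤ c, ∀ n, Cap d.S (b n) := by
  obtain ⟨S, h1, h2, h3⟩ := exists_cap b c.S c.small
  exact ⟨⟨S, c.x, h1.sub c.mem, h2⟩, ⟨h1, S.refl _ (h1.sub c.mem)⟩, h3⟩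

end Setup

end Pool.Agent.Lib.BPLM
end
end
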