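import Mathlib
import Pool.Agent.Lib.MP_c00cb7_lc.SwRN

/-!
# Regular embeddings of a preorder `P₀` into (the completion of) a sweet preorder
-/

set_option autoImplicit false

open Set

namespace Pool.Agent.Lib.BPLM

variable {U : Type}

/-- `p` is a reduction of `x`: every `q ≤ p` has `z ∈ F q` below `x` -/
def Red {P₀ : Type} [Preorder P₀] (S : Sw U) (F : P₀ → Set U) (p : P₀) (x : U) : Prop :=
  ∀ q ≤ p, ∃ z ∈ F q, S.le z x

/-- `F p` is the set of the elements of `S` forcing `p` into the generic filter of `P₀`. -/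
structure Base {P₀ : Type} [Preorder P₀] (S : Sw U) (F : P₀ → Set U) : Prop where
  sub : ∀ p, F p ⊆ S.X
  low : ∀ p, ∀ x ∈ F p, ∀ y ∈ S.X, S.le y x → y ∈ F p
  mono : ∀ p q, p ≤ q → F p ⊆ F q
  disj : ∀ p q, ∀ x ∈ F p, x ∈ F q → ∃ r, r ≤ p ∧ r ≤ q
  regul : ∀ p, ∀ x ∈ S.X, (∀ y ∈ S.X, S.le y x → ∃ z ∈ F p, S.le z y) → x ∈ F p
  red : ∀ x ∈ S.X, ∃ p, Red S F p x
  nonempty : ∀ p, (F p).Nonempty

section
variable {P₀ : Type} [Preorder P₀] {S : Sw U} {F : P₀ → Set U}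

theorem Red.low {p q : P₀} {x : U} (h : Red S F p x) (hq : q ≤ p) : Red S F q x :=
  fun r hr => h r (hr.trans hq)

theorem Red.up (B : Base S F) {p : P₀} {x y : U} (hx : x ∈ S.X) (hy : y ∈ S.X)
    (h : Red S F p x) (hxy : S.le x y) : Red S F p y := by
  intro q hq
  obtain ⟨z, hz, hzx⟩ := h q hq
  exact ⟨z, hz, S.trans _ (B.sub q hz) _ hx _ hy hzx hxy⟩

/-- An element `x ∈ F p` has a reduction `q ≤ p`: let `r` be any reduction of `x`, `z ∈ F r`,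
`z ≤ x`; then `z ∈ F r ∩ F p`, so there is `q ≤ r, p`. -/
theorem Base.exists_red (B : Base S F) {p : P₀} {x : U} (hx : x ∈ F p) :
    ∃ q ≤ p, Red S F q x := by
  obtain ⟨r, hr⟩ := B.red x (B.sub p hx)
  obtain ⟨z, hz, hzx⟩ := hr r le_rfl
  have hzp : z ∈ F p := B.low p x hx z (B.sub r hz) hzx
  obtain ⟨q, hq1, hq2⟩ := B.disj r p z hz hzp
  exact ⟨q, hq2, hr.low hq1⟩

/-- Restriction to a condition: if `p` is a reduction of `x` then there is `z ∈ F p`, `z ≤ x`. -/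
theorem Red.exists_le {p : P₀} {x : U} (h : Red S F p x) : ∃ z ∈ F p, S.le z x :=
  h p le_rfl

theorem Red.top (B : Base S F) (p : P₀) : Red S F p S.top := by
  intro q _
  obtain ⟨z, hz⟩ := B.nonempty q
  exact ⟨z, hz, S.le_top z (B.sub q hz)⟩

end

/-- the preorder `P × 2^{<ω}` -/
def CP (P : Sw U) : Type := {a : U × List Bool // a.1 ∈ P.X}

instance (P : Sw U) : Preorder (CP P) where
  le a b := P.le a.1.1 b.1.1 ∧ b.1.2 <+: a.1.2
  le_refl a := ⟨P.refl _ a.2, List.prefix_refl _⟩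
  le_trans a b c h h' := ⟨P.trans _ a.2 _ b.2 _ c.2 h.1 h'.1, h'.2.trans h.2⟩

/-- a pair as an element of `P × 2^{<ω}` -/
def CP.mk {P : Sw U} (p : U) (hp : p ∈ P.X) (s : List Bool) : CP P := ⟨(p, s), hp⟩

theorem CP.le_def {P : Sw U} (a b : CP P) : a ≤ b ↔ P.le a.1.1 b.1.1 ∧ b.1.2 <+: a.1.2 := Iff.rfl

/-- the system given by a name for a real -/
def FC (P Q : Sw U) (F : U → List Bool → Prop) (a : CP P) : Set U :=
  {z | z ∈ Q.X ∧ Q.le z a.1.1 ∧ F z a.1.2}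

/-- A full Cohen name gives a `Base`.
* disj: `z ≤ p, p'` in `Q`, so `P.cmp p p'` by `cmp_of`, and the strings are comparable (`coh`).
* regul: `Q.sep` and `RN.reg`.
* red: if `x` has no reduction, then `Z = {(p, s) : p ∈ P.X, no z ≤ x in Q with z ≤ p, F z s}` is
  dense; `meet` at `x` gives `q' ≤ x` and `(p, s) ∈ Z` with `q' ≤ p`, `F q' s`: contradiction. -/
theorem Full.base {P Q : Sw U} {F : U → List Bool → Prop} (h : Full P Q F) :
    Base Q (FC P Q F) where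
  sub := fun _ _ hx => hx.1
  low := by
    intro a x hx y hy hyx
    exact ⟨hy, Q.trans _ hy _ hx.1 _ (h.sub.sub a.2) hyx hx.2.1,
      h.rn.low x a.1.2 hx.2.2 y hy hyx⟩
  mono := by
    intro a b hab z hz
    refine ⟨hz.1, Q.trans _ hz.1 _ (h.sub.sub a.2) _ (h.sub.sub b.2) hz.2.1
      ((h.sub.le_iff _ a.2 _ b.2).2 hab.1), h.rn.pre z _ _ hz.2.2 hab.2⟩
  disj := by
    intro a b z hza hzb
    obtain ⟨c, hc, hca, hcb⟩ := h.sub.cmp_of _ a.2 _ b.2 ⟨z, hza.1, hza.2.1, hzb.2.1⟩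
    rcases h.rn.coh z _ _ hza.2.2 hzb.2.2 with hs | hs
    · exact ⟨CP.mk c hc b.1.2, ⟨hca, hs⟩, ⟨hcb, List.prefix_refl _⟩⟩
    · exact ⟨CP.mk c hc a.1.2, ⟨hca, List.prefix_refl _⟩, ⟨hcb, hs⟩⟩
  regul := by
    intro a x hx hd
    refine ⟨hx, Q.sep x hx _ (h.sub.sub a.2) ?_, h.rn.reg x hx _ ?_⟩
    · intro z hz hzx
      obtain ⟨w, hw, hwz⟩ := hd z hz hzx
      exact ⟨w, hw.1, hwz, hw.2.1⟩
    · intro z hz hzx
      obtain ⟨w, hw, hwz⟩ := hd z hz hzx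
      exact ⟨w, hw.1, hwz, hw.2.2⟩
  red := by
    intro x hx
    by_contra hcon
    push Not at hcon
    have hdense : DenseZ P {a | a.1 ∈ P.X ∧ ∀ z ∈ Q.X, Q.le z x → Q.le z a.1 → ¬ F z a.2} := by
      intro p hp s
      have h1 := hcon (CP.mk p hp s)
      unfold Red at h1
      push Not at h1
      obtain ⟨b, hb, hb'⟩ := h1
      exact ⟨b.1, ⟨b.2, fun z hz hzx hzb hF => hb' z ⟨hz, hzb, hF⟩ hzx⟩, b.2, hb.1, hb.2⟩
    obtain ⟨q', hq', hq'x, a, ha, haP, hq'a, hF⟩ := h.meet _ hdense x hx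
    exact ha.2 q' hq' hq'x hq'a hF
  nonempty := by
    intro a
    obtain ⟨q, hq, hqa, hF⟩ := h.pos _ a.2 a.1.2
    exact ⟨q, hq, hqa, hF⟩

end Pool.Agent.Lib.BPLM
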