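import Mathlib
import Pool.Agent.Lib.MP_c00cb7_lc.SwBase

/-!
# Amalgamation of sweet preorders: definitions and first facts
-/

set_option autoImplicit false

open Set

namespace Pool.Agent.Lib.BPLM

/-- The data of an amalgamation: `Q₁` and `Q₂` extend `P`, meet in `P.X`, and a preorder `P₀` is
regularly embedded in both of them (`F₁`, `F₂`), with the elements `x` of `P` corresponding to
`i x`. -/
structure AmData (U P₀ : Type) [Preorder P₀] where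
  /-- the base -/
  P : Sw U
  /-- the first extension -/
  Q₁ : Sw U
  /-- the second extension -/
  Q₂ : Sw U
  h₁ : P.Sub Q₁
  h₂ : P.Sub Q₂
  hd : ∀ x ∈ Q₁.X, x ∈ Q₂.X → x ∈ P.X
  /-- the first embedding -/
  F₁ : P₀ → Set U
  /-- the second embedding -/
  F₂ : P₀ → Set U
  B₁ : Base Q₁ F₁
  B₂ : Base Q₂ F₂
  /-- the elements of `P` in `P₀` -/
  i : U → P₀
  hi₁ : ∀ x ∈ P.X, F₁ (i x) = {z | z ∈ Q₁.X ∧ Q₁.le z x}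
  hi₂ : ∀ x ∈ P.X, F₂ (i x) = {z | z ∈ Q₂.X ∧ Q₂.le z x}

namespace AmData

variable {U P₀ : Type} [Preorder P₀] (A : AmData U P₀)

/-- exchanging the two sides -/
def swap : AmData U P₀ where
  P := A.P
  Q₁ := A.Q₂
  Q₂ := A.Q₁
  h₁ := A.h₂
  h₂ := A.h₁
  hd x h h' := A.hd x h' h
  F₁ := A.F₂
  F₂ := A.F₁
  B₁ := A.B₂
  B₂ := A.B₁
  i := A.i
  hi₁ := A.hi₂
  hi₂ := A.hi₁

/-- the pairs with a common reduction -/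
def am (x y : U) : Prop :=
  x ∈ A.Q₁.X ∧ y ∈ A.Q₂.X ∧ ∃ p, Red A.Q₁ A.F₁ p x ∧ Red A.Q₂ A.F₂ p y

/-- the coordinatewise order -/
def le0 (a b : U × U) : Prop := A.Q₁.le a.1 b.1 ∧ A.Q₂.le a.2 b.2

/-- its separative closure -/
def les (a b : U × U) : Prop :=
  ∀ d : U × U, A.am d.1 d.2 → A.le0 d a → ∃ e : U × U, A.am e.1 e.2 ∧ A.le0 e d ∧ A.le0 e b

theorem top_eq : A.Q₁.top = A.Q₂.top := by
  rw [A.h₁.top, A.h₂.top]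

theorem am_swap (x y : U) : A.swap.am x y ↔ A.am y x := by
  constructor
  · rintro ⟨h1, h2, p, h3, h4⟩
    exact ⟨h2, h1, p, h4, h3⟩
  · rintro ⟨h1, h2, p, h3, h4⟩
    exact ⟨h2, h1, p, h4, h3⟩

theorem les_swap {a b : U × U} (h : A.swap.les a b) : A.les (a.2, a.1) (b.2, b.1) := by
  intro d hd hda
  obtain ⟨e, he, h1, h2⟩ := h (d.2, d.1) ((A.am_swap _ _).2 hd) ⟨hda.2, hda.1⟩
  exact ⟨(e.2, e.1), (A.am_swap _ _).1 he, ⟨h1.2, h1.1⟩, ⟨h2.2, h2.1⟩⟩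

/-- every element of `Q₁` is paired with the top -/
theorem am_left (x : U) (hx : x ∈ A.Q₁.X) : A.am x A.Q₂.top := by
  obtain ⟨p, hp⟩ := A.B₁.red x hx
  exact ⟨hx, A.Q₂.top_mem, p, hp, Red.top A.B₂ p⟩

/-- every element of `Q₂` is paired with the top -/
theorem am_right (y : U) (hy : y ∈ A.Q₂.X) : A.am A.Q₁.top y := by
  obtain ⟨p, hp⟩ := A.B₂.red y hy
  exact ⟨A.Q₁.top_mem, hy, p, Red.top A.B₁ p, hp⟩

theorem am_up {x x' y y' : U} (h : A.am x y) (hx' : x' ∈ A.Q₁.X) (hy' : y' ∈ A.Q₂.X)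
    (h1 : A.Q₁.le x x') (h2 : A.Q₂.le y y') : A.am x' y' := by
  obtain ⟨hx, hy, p, h3, h4⟩ := h
  exact ⟨hx', hy', p, h3.up A.B₁ hx hx' h1, h4.up A.B₂ hy hy' h2⟩

/-- Refining the first coordinate into `F₁ p`: if `p` is a reduction of `x` and of `y`, there is
`x' ≤ x` in `F₁ p` with `am x' y`. Proof: `x' ∈ F₁ p`, `x' ≤ x`; `q ≤ p` a reduction of `x'`
(`Base.exists_red`); `q` is a reduction of `y`. -/
theorem exists_left {p : P₀} {x y : U} (hx : x ∈ A.Q₁.X) (hy : y ∈ A.Q₂.X)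
    (h1 : Red A.Q₁ A.F₁ p x) (h2 : Red A.Q₂ A.F₂ p y) :
    ∃ x' ∈ A.F₁ p, A.Q₁.le x' x ∧ A.am x' y := by
  obtain ⟨z, hz, hzx⟩ := h1.exists_le
  obtain ⟨q, hq, hqz⟩ := A.B₁.exists_red hz
  exact ⟨z, hz, hzx, A.B₁.sub p hz, hy, q, hqz, h2.low hq⟩

theorem les_refl (a : U × U) : A.les a a := by
  intro d hd hda
  exact ⟨d, hd, ⟨A.Q₁.refl _ hd.1, A.Q₂.refl _ hd.2.1⟩, hda⟩

theorem les_of_le0 {a b : U × U} (ha : A.am a.1 a.2) (hb : A.am b.1 b.2) (h : A.le0 a b) :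
    A.les a b := by
  intro d hd hda
  exact ⟨d, hd, ⟨A.Q₁.refl _ hd.1, A.Q₂.refl _ hd.2.1⟩,
    A.Q₁.trans _ hd.1 _ ha.1 _ hb.1 hda.1 h.1, A.Q₂.trans _ hd.2.1 _ ha.2.1 _ hb.2.1 hda.2 h.2⟩

theorem les_trans {a b c : U × U} (ha : A.am a.1 a.2) (hb : A.am b.1 b.2) (hc : A.am c.1 c.2)
    (h : A.les a b) (h' : A.les b c) : A.les a c := by
  intro d hd hda
  obtain ⟨e, he, hed, heb⟩ := h d hd hda
  obtain ⟨f, hf, hfe, hfc⟩ := h' e he heb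
  exact ⟨f, hf, ⟨A.Q₁.trans _ hf.1 _ he.1 _ hd.1 hfe.1 hed.1,
    A.Q₂.trans _ hf.2.1 _ he.2.1 _ hd.2.1 hfe.2 hed.2⟩, hfc⟩

/-- For `x ∈ P.X` the pairs `(x, 1)` and `(1, x)` are equivalent. Let `(y₁, y₂)` be a pair with
`y₁ ≤ x`, `p` a common reduction. Then `z₁ ∈ F₁ p`, `z₁ ≤ y₁ ≤ x`, so `z₁ ∈ F₁ (i x)` and there is
`r ≤ p, i x` (`disj`). `r` is a common reduction of `y₁`, `y₂`, so there is `z₂ ∈ F₂ r` with
`z₂ ≤ y₂`; `z₂ ≤ x` as `F₂ r ⊆ F₂ (i x)`. A reduction `r' ≤ r` of `z₂` is a reduction of `y₁`. -/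
theorem les_left_right {x : U} (hx : x ∈ A.P.X) : A.les (x, A.Q₂.top) (A.Q₁.top, x) := by
  rintro ⟨y₁, y₂⟩ ⟨hy₁, hy₂, p, h1, h2⟩ ⟨h3, -⟩
  obtain ⟨z₁, hz₁, hz₁y⟩ := h1.exists_le
  have hz₁X : z₁ ∈ A.Q₁.X := A.B₁.sub p hz₁
  have hz₁x : z₁ ∈ A.F₁ (A.i x) := by
    rw [A.hi₁ x hx]
    exact ⟨hz₁X, A.Q₁.trans _ hz₁X _ hy₁ _ (A.h₁.sub hx) hz₁y h3⟩
  obtain ⟨r, hrp, hrx⟩ := A.B₁.disj p (A.i x) z₁ hz₁ hz₁x
  obtain ⟨z₂, hz₂, hz₂y⟩ := (h2.low hrp).exists_le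
  have hz₂x : z₂ ∈ A.F₂ (A.i x) := A.B₂.mono r (A.i x) hrx hz₂
  rw [A.hi₂ x hx] at hz₂x
  obtain ⟨r', hr', hr'z⟩ := A.B₂.exists_red hz₂
  exact ⟨(y₁, z₂), ⟨hy₁, hz₂x.1, r', h1.low (hr'.trans hrp), hr'z⟩,
    ⟨A.Q₁.refl _ hy₁, hz₂y⟩, ⟨A.Q₁.le_top _ hy₁, hz₂x.2⟩⟩

theorem les_right_left {x : U} (hx : x ∈ A.P.X) : A.les (A.Q₁.top, x) (x, A.Q₂.top) :=
  A.les_swap (A.swap.les_left_right hx)

/-- by `Q₁.sep` -/
theorem les_left_iff {x y : U} (hx : x ∈ A.Q₁.X) (hy : y ∈ A.Q₁.X) :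
    A.les (x, A.Q₂.top) (y, A.Q₂.top) ↔ A.Q₁.le x y := by
  constructor
  · intro h
    refine A.Q₁.sep x hx y hy fun z hz hzx => ?_
    obtain ⟨e, he, h1, h2⟩ := h (z, A.Q₂.top) (A.am_left z hz) ⟨hzx, A.Q₂.refl _ A.Q₂.top_mem⟩
    exact ⟨e.1, he.1, h1.1, h2.1⟩
  · intro h
    exact A.les_of_le0 (A.am_left x hx) (A.am_left y hy) ⟨h, A.Q₂.refl _ A.Q₂.top_mem⟩

theorem les_right_iff {x y : U} (hx : x ∈ A.Q₂.X) (hy : y ∈ A.Q₂.X) :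
    A.les (A.Q₁.top, x) (A.Q₁.top, y) ↔ A.Q₂.le x y := by
  constructor
  · intro h
    refine A.Q₂.sep x hx y hy fun z hz hzx => ?_
    obtain ⟨e, he, h1, h2⟩ := h (A.Q₁.top, z) (A.am_right z hz) ⟨A.Q₁.refl _ A.Q₁.top_mem, hzx⟩
    exact ⟨e.2, he.2.1, h1.2, h2.2⟩
  · intro h
    exact A.les_of_le0 (A.am_right x hx) (A.am_right y hy) ⟨A.Q₁.refl _ A.Q₁.top_mem, h⟩

end AmData

end Pool.Agent.Lib.BPLM
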