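import Mathlib
import Pool.Agent.Lib.MP_c00cb7_lc.SwAmDefs

/-!
# Amalgamation of sweet preorders: the key lemma
-/

set_option autoImplicit false

open Set

namespace Pool.Agent.Lib.BPLM

namespace AmData

variable {U P₀ : Type} [Preorder P₀] (A : AmData U P₀)

/-- `k` is good for the pair `(x, y)` -/
def Good (k : ℕ) (x y : U) : Prop :=
  ∀ x' ∈ A.Q₁.X, ∀ y' ∈ A.Q₂.X, A.Q₁.cd k x' = A.Q₁.cd k x → A.Q₂.cd k y' = A.Q₂.cd k y →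
    A.am x' y'

/-- KEY. Otherwise choose for every `k` a pair `x_k E_k x`, `y_k E_k y` without common reduction.
By `lim` for every `n` there are `r_n ≤ x_k` (all `k ≥ n`), `r_n E_n x`, and `t_n ≤ y_k` (all
`k ≥ n`), `t_n E_n y`. Let `p₀` be a common reduction of `x, y`. Let `z₁ ∈ F₁ p₀`, `z₁ ≤ x`. By
`pd_of_approx` (for `x` and the sequence `r_n`) there are `n` and `w₁ ≤ z₁, r_n`; `w₁ ∈ F₁ p₀`. Let
`p₁ ≤ p₀` be a reduction of `w₁` (`Base.exists_red`). It is a reduction of `y`; let `z₂ ∈ F₂ p₁`,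
`z₂ ≤ y`, and `w₂ ≤ z₂, t_m`; let `p₂ ≤ p₁` be a reduction of `w₂`. With `j = max n m`:
`w₁ ≤ r_n ≤ x_j` and `w₂ ≤ t_m ≤ y_j`, so `p₂` is a common reduction of `x_j`, `y_j`
(`Red.low`, `Red.up`). Contradiction. -/
theorem exists_good {x y : U} (h : A.am x y) : ∃ k, A.Good k x y := by
  by_contra hcon
  have hbad : ∀ k, ∃ x' ∈ A.Q₁.X, ∃ y' ∈ A.Q₂.X, A.Q₁.cd k x' = A.Q₁.cd k x ∧
      A.Q₂.cd k y' = A.Q₂.cd k y ∧ ¬ A.am x' y' := by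
    intro k
    by_contra h'
    exact hcon ⟨k, fun x' hx' y' hy' h1 h2 =>
      by_contra fun h3 => h' ⟨x', hx', y', hy', h1, h2, h3⟩⟩
  choose xs hxs ys hys hcx hcy hnam using hbad
  obtain ⟨hx, hy, p₀, hp1, hp2⟩ := h
  choose r hr hrle hrc using A.Q₁.lim xs x hxs hx hcx
  choose t ht htle htc using A.Q₂.lim ys y hys hy hcy
  obtain ⟨z₁, hz₁, hz₁x⟩ := hp1.exists_le
  obtain ⟨n, -, w₁, hw₁, hw₁z, hw₁r⟩ := A.Q₁.pd_of_approx x hx r hr 0 (fun i _ => hrc i) z₁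
    (A.B₁.sub _ hz₁) hz₁x
  have hw₁F : w₁ ∈ A.F₁ p₀ := A.B₁.low _ _ hz₁ _ hw₁ hw₁z
  obtain ⟨p₁, hp₁, hred1⟩ := A.B₁.exists_red hw₁F
  obtain ⟨z₂, hz₂, hz₂y⟩ := (hp2.low hp₁).exists_le
  obtain ⟨m, -, w₂, hw₂, hw₂z, hw₂t⟩ := A.Q₂.pd_of_approx y hy t ht 0 (fun i _ => htc i) z₂
    (A.B₂.sub _ hz₂) hz₂y
  have hw₂F : w₂ ∈ A.F₂ p₁ := A.B₂.low _ _ hz₂ _ hw₂ hw₂z
  obtain ⟨p₂, hp₂, hred2⟩ := A.B₂.exists_red hw₂F
  refine hnam (max n m) ⟨hxs _, hys _, p₂, ?_, ?_⟩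
  · exact (hred1.low hp₂).up A.B₁ hw₁ (hxs _)
      (A.Q₁.trans _ hw₁ _ (hr n) _ (hxs _) hw₁r (hrle n _ (le_max_left _ _)))
  · exact hred2.up A.B₂ hw₂ (hys _)
      (A.Q₂.trans _ hw₂ _ (ht m) _ (hys _) hw₂t (htle m _ (le_max_right _ _)))

open Classical in
/-- the least good `k` (and `0` for junk) -/
noncomputable def kk (x y : U) : ℕ := if h : ∃ k, A.Good k x y then Nat.find h else 0

theorem good_kk {x y : U} (h : A.am x y) : A.Good (A.kk x y) x y := by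
  classical
  have hex := A.exists_good h
  have e : A.kk x y = Nat.find hex := by
    unfold kk
    rw [dif_pos hex]
  rw [e]
  exact Nat.find_spec hex

theorem kk_min {x y : U} {j : ℕ} (h : A.Good j x y) : A.kk x y ≤ j := by
  classical
  have hex : ∃ k, A.Good k x y := ⟨j, h⟩
  have e : A.kk x y = Nat.find hex := by
    unfold kk
    rw [dif_pos hex]
  rw [e]
  exact Nat.find_min' hex h

theorem good_of_cd {j : ℕ} {x y x' y' : U} (h1 : A.Q₁.cd j x' = A.Q₁.cd j x)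
    (h2 : A.Q₂.cd j y' = A.Q₂.cd j y) (h : A.Good j x y) : A.Good j x' y' := by
  intro u hu v hv hu' hv'
  exact h u hu v hv (hu'.trans h1) (hv'.trans h2)

/-- If `x' E_k x`, `y' E_k y` for `k = kk x y`, then `kk x' y' = kk x y`
(goodness of `j ≤ k` depends only on the `E_j`-classes, and these are coarser, `mono_le`). -/
theorem kk_eq {x y x' y' : U} (h : A.am x y) (hx' : x' ∈ A.Q₁.X) (hy' : y' ∈ A.Q₂.X)
    (h1 : A.Q₁.cd (A.kk x y) x' = A.Q₁.cd (A.kk x y) x)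
    (h2 : A.Q₂.cd (A.kk x y) y' = A.Q₂.cd (A.kk x y) y) : A.kk x' y' = A.kk x y := by
  have ham : A.am x' y' := A.good_kk h x' hx' y' hy' h1 h2
  have hle : A.kk x' y' ≤ A.kk x y := A.kk_min (A.good_of_cd h1 h2 (A.good_kk h))
  refine le_antisymm hle (A.kk_min ?_)
  exact A.good_of_cd (A.Q₁.mono_le hle hx' h.1 h1).symm (A.Q₂.mono_le hle hy' h.2.1 h2).symm
    (A.good_kk ham)

/-- The classes of the pairs: `(k, cd_{n+k} x, cd_{n+k} y)` with `k = kk x y`. -/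
noncomputable def pcd (n : ℕ) (a : U × U) : ℕ :=
  Nat.pair (A.kk a.1 a.2) (Nat.pair (A.Q₁.cd (n + A.kk a.1 a.2) a.1)
    (A.Q₂.cd (n + A.kk a.1 a.2) a.2))

theorem pcd_eq_iff (n : ℕ) (a b : U × U) : A.pcd n a = A.pcd n b ↔
    A.kk a.1 a.2 = A.kk b.1 b.2 ∧
    A.Q₁.cd (n + A.kk b.1 b.2) a.1 = A.Q₁.cd (n + A.kk b.1 b.2) b.1 ∧
    A.Q₂.cd (n + A.kk b.1 b.2) a.2 = A.Q₂.cd (n + A.kk b.1 b.2) b.2 := by
  unfold pcd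
  rw [Nat.pair_eq_pair, Nat.pair_eq_pair]
  constructor
  · rintro ⟨h1, h2, h3⟩
    rw [h1] at h2 h3
    exact ⟨h1, h2, h3⟩
  · rintro ⟨h1, h2, h3⟩
    rw [h1]
    exact ⟨rfl, h2, h3⟩

/-- If the coordinates of `c` are equivalent to those of `a` (level `n + kk a`), then `am c` and
`pcd n c = pcd n a`. -/
theorem pcd_of_cd (n : ℕ) {a c : U × U} (ha : A.am a.1 a.2) (hc1 : c.1 ∈ A.Q₁.X)
    (hc2 : c.2 ∈ A.Q₂.X)
    (h1 : A.Q₁.cd (n + A.kk a.1 a.2) c.1 = A.Q₁.cd (n + A.kk a.1 a.2) a.1)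
    (h2 : A.Q₂.cd (n + A.kk a.1 a.2) c.2 = A.Q₂.cd (n + A.kk a.1 a.2) a.2) :
    A.am c.1 c.2 ∧ A.pcd n c = A.pcd n a := by
  have h1' := A.Q₁.mono_le (Nat.le_add_left (A.kk a.1 a.2) n) hc1 ha.1 h1
  have h2' := A.Q₂.mono_le (Nat.le_add_left (A.kk a.1 a.2) n) hc2 ha.2.1 h2
  refine ⟨A.good_kk ha c.1 hc1 c.2 hc2 h1' h2', (A.pcd_eq_iff n c a).2 ⟨?_, h1, h2⟩⟩
  exact A.kk_eq ha hc1 hc2 h1' h2'

theorem pcd_mono (n : ℕ) (a b : U × U) (ha : A.am a.1 a.2) (hb : A.am b.1 b.2)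
    (h : A.pcd (n + 1) a = A.pcd (n + 1) b) : A.pcd n a = A.pcd n b := by
  obtain ⟨h1, h2, h3⟩ := (A.pcd_eq_iff _ a b).1 h
  refine (A.pcd_eq_iff _ a b).2 ⟨h1, ?_, ?_⟩
  · exact A.Q₁.mono_le (by omega) ha.1 hb.1 h2
  · exact A.Q₂.mono_le (by omega) ha.2.1 hb.2.1 h3

theorem pcd_dir (n : ℕ) (a b : U × U) (ha : A.am a.1 a.2) (hb : A.am b.1 b.2)
    (h : A.pcd n a = A.pcd n b) :
    ∃ c : U × U, A.am c.1 c.2 ∧ A.le0 c a ∧ A.le0 c b ∧ A.pcd n c = A.pcd n a := by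
  obtain ⟨h1, h2, h3⟩ := (A.pcd_eq_iff _ b a).1 h.symm
  obtain ⟨c₁, hc₁, hc₁a, hc₁b, hc₁c⟩ := A.Q₁.dir _ a.1 ha.1 b.1 hb.1 h2.symm
  obtain ⟨c₂, hc₂, hc₂a, hc₂b, hc₂c⟩ := A.Q₂.dir _ a.2 ha.2.1 b.2 hb.2.1 h3.symm
  obtain ⟨h4, h5⟩ := A.pcd_of_cd n (c := (c₁, c₂)) ha hc₁ hc₂ hc₁c hc₂c
  exact ⟨(c₁, c₂), h4, ⟨hc₁a, hc₂a⟩, ⟨hc₁b, hc₂b⟩, h5⟩

/-- Coordinatewise, with a shift by `k`: for the first coordinate apply `lim'` of `Q₁` at level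
`n + k` to the sequence `j ↦ (a (j - k)).1`. -/
theorem pcd_lim (a : ℕ → U × U) (b : U × U) (ha : ∀ i, A.am (a i).1 (a i).2) (hb : A.am b.1 b.2)
    (h : ∀ i, A.pcd i (a i) = A.pcd i b) (n : ℕ) :
    ∃ r : U × U, A.am r.1 r.2 ∧ (∀ i, n ≤ i → A.le0 r (a i)) ∧ A.pcd n r = A.pcd n b := by
  have h' := fun i => (A.pcd_eq_iff i (a i) b).1 (h i)
  obtain ⟨r₁, hr₁, hr₁a, -, hr₁c⟩ := A.Q₁.lim' (fun j => (a (j - A.kk b.1 b.2)).1) b.1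
    (fun j => (ha _).1) hb.1 (n + A.kk b.1 b.2) (by
      intro j hj
      have h2 := (h' (j - A.kk b.1 b.2)).2.1
      rwa [Nat.sub_add_cancel (by omega : A.kk b.1 b.2 ≤ j)] at h2)
  obtain ⟨r₂, hr₂, hr₂a, -, hr₂c⟩ := A.Q₂.lim' (fun j => (a (j - A.kk b.1 b.2)).2) b.2
    (fun j => (ha _).2.1) hb.2.1 (n + A.kk b.1 b.2) (by
      intro j hj
      have h2 := (h' (j - A.kk b.1 b.2)).2.2
      rwa [Nat.sub_add_cancel (by omega : A.kk b.1 b.2 ≤ j)] at h2)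
  obtain ⟨h4, h5⟩ := A.pcd_of_cd n (c := (r₁, r₂)) hb hr₁ hr₂ hr₁c hr₂c
  refine ⟨(r₁, r₂), h4, fun i hi => ⟨?_, ?_⟩, h5⟩
  · have h6 := hr₁a (i + A.kk b.1 b.2) (by omega)
    simpa only [Nat.add_sub_cancel] using h6
  · have h6 := hr₂a (i + A.kk b.1 b.2) (by omega)
    simpa only [Nat.add_sub_cancel] using h6

/-- (W) for pairs. Given a finite family `L` of pairs (all in `am`) and `b ∈ am` below all of them
(coordinatewise). Let `p` be a common reduction of `b`; `z₁ ∈ F₁ p`, `z₁ ≤ b.1`; by `Q₁.W` for the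
first coordinates of `L` there is `c₁ ≤ z₁` with (WP); `c₁ ∈ F₁ p`; let `p₁ ≤ p` be a reduction of
`c₁`; `z₂ ∈ F₂ p₁`, `z₂ ≤ b.2`; by `Q₂.W` there is `c₂ ≤ z₂` with (WP) for the second coordinates;
`p₂ ≤ p₁` a reduction of `c₂`. So `c = (c₁, c₂) ∈ am`. Given `n` put `N = n + kk c`, and let `k`
be larger than the numbers given by (WP) of `c₁`, `c₂` for `N` (`Sw.WP.ge`). If the coordinates of
`L'` are `E_k`-equivalent to those of `L`, there are `c₁' E_N c₁` and `c₂' E_N c₂` below the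
coordinates; `am c₁' c₂'` and `kk c' = kk c` as `N ≥ kk c`. -/
theorem pair_W {ι : Type} [Finite ι] (L : ι → U × U) (b : U × U)
    (hL : ∀ i, A.am (L i).1 (L i).2) (hb : A.am b.1 b.2) (h : ∀ i, A.le0 b (L i)) :
    ∃ c : U × U, A.am c.1 c.2 ∧ A.le0 c b ∧ ∀ n, ∃ k, ∀ L' : ι → U × U,
      (∀ i, A.am (L' i).1 (L' i).2) →
      (∀ i, A.Q₁.cd k (L' i).1 = A.Q₁.cd k (L i).1 ∧ A.Q₂.cd k (L' i).2 = A.Q₂.cd k (L i).2) →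
      ∃ c' : U × U, A.am c'.1 c'.2 ∧ (∀ i, A.le0 c' (L' i)) ∧ A.pcd n c' = A.pcd n c := by
  obtain ⟨hb1, hb2, p, hp1, hp2⟩ := hb
  obtain ⟨z₁, hz₁, hz₁b⟩ := hp1.exists_le
  have hz₁X := A.B₁.sub _ hz₁
  obtain ⟨c₁, hc₁, hc₁z, hW₁⟩ := A.Q₁.W ι (fun i => (L i).1) z₁ (fun i => (hL i).1) hz₁X
    (fun i => A.Q₁.trans _ hz₁X _ hb1 _ (hL i).1 hz₁b (h i).1)
  have hc₁F : c₁ ∈ A.F₁ p := A.B₁.low _ _ hz₁ _ hc₁ hc₁z
  obtain ⟨p₁, hp₁, hred1⟩ := A.B₁.exists_red hc₁F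
  obtain ⟨z₂, hz₂, hz₂b⟩ := (hp2.low hp₁).exists_le
  have hz₂X := A.B₂.sub _ hz₂
  obtain ⟨c₂, hc₂, hc₂z, hW₂⟩ := A.Q₂.W ι (fun i => (L i).2) z₂ (fun i => (hL i).2.1) hz₂X
    (fun i => A.Q₂.trans _ hz₂X _ hb2 _ (hL i).2.1 hz₂b (h i).2)
  have hc₂F : c₂ ∈ A.F₂ p₁ := A.B₂.low _ _ hz₂ _ hc₂ hc₂z
  obtain ⟨p₂, hp₂, hred2⟩ := A.B₂.exists_red hc₂F
  have ham : A.am c₁ c₂ := ⟨hc₁, hc₂, p₂, hred1.low hp₂, hred2⟩
  refine ⟨(c₁, c₂), ham, ⟨A.Q₁.trans _ hc₁ _ hz₁X _ hb1 hc₁z hz₁b,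
    A.Q₂.trans _ hc₂ _ hz₂X _ hb2 hc₂z hz₂b⟩, fun n => ?_⟩
  obtain ⟨k₁, hk₁⟩ := Sw.WP.ge (S := A.Q₁) (fun i => (hL i).1) hW₁ (n + A.kk c₁ c₂)
  obtain ⟨k₂, hk₂⟩ := Sw.WP.ge (S := A.Q₂) (fun i => (hL i).2.1) hW₂ (n + A.kk c₁ c₂)
  refine ⟨max k₁ k₂, fun L' hL' hc => ?_⟩
  obtain ⟨d₁, hd₁, hd₁L, hd₁c⟩ := hk₁ (max k₁ k₂) (le_max_left _ _) (fun i => (L' i).1)
    (fun i => (hL' i).1) (fun i => (hc i).1)
  obtain ⟨d₂, hd₂, hd₂L, hd₂c⟩ := hk₂ (max k₁ k₂) (le_max_right _ _) (fun i => (L' i).2)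
    (fun i => (hL' i).2.1) (fun i => (hc i).2)
  obtain ⟨h4, h5⟩ := A.pcd_of_cd n (a := (c₁, c₂)) (c := (d₁, d₂)) ham hd₁ hd₂ hd₁c hd₂c
  exact ⟨(d₁, d₂), h4, fun i => ⟨hd₁L i, hd₂L i⟩, h5⟩

end AmData

end Pool.Agent.Lib.BPLM
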