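import Mathlib
import Pool.Agent.Lib.MP_c00cb7_lc.SwAmKey

/-!
# Amalgamation of sweet preorders: the amalgam
-/

set_option autoImplicit false

open Set

namespace Pool.Agent.Lib.BPLM

namespace AmData

variable {U P₀ : Type} [Preorder P₀] (A : AmData U P₀)

open Classical in
/-- the elements of the amalgam as pairs -/
noncomputable def ρ : U ⊕ U × U → U × U
  | .inl x => if x ∈ A.Q₁.X then (x, A.Q₂.top) else (A.Q₁.top, x)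
  | .inr a => a

/-- the underlying set of the amalgam (auxiliary) -/
def XX : Set (U ⊕ U × U) := {a | match a with
    | .inl x => x ∈ A.Q₁.X ∨ x ∈ A.Q₂.X
    | .inr a => A.am a.1 a.2}

open Classical in
/-- the codes of the amalgam (auxiliary) -/
noncomputable def ccd (n : ℕ) (a : U ⊕ U × U) : ℕ := match a with
    | .inl x => if x ∈ A.Q₁.X then Nat.pair 0 (A.Q₁.cd n x) else Nat.pair 1 (A.Q₂.cd n x)
    | .inr a => Nat.pair 2 (A.pcd n a)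

theorem rho_inl1 {x : U} (hx : x ∈ A.Q₁.X) : A.ρ (.inl x) = (x, A.Q₂.top) := if_pos hx

theorem rho_inl2 {x : U} (hx : x ∉ A.Q₁.X) : A.ρ (.inl x) = (A.Q₁.top, x) := if_neg hx

theorem rho_inr (a : U × U) : A.ρ (.inr a) = a := rfl

theorem ccd_inl1 (n : ℕ) {x : U} (hx : x ∈ A.Q₁.X) :
    A.ccd n (.inl x) = Nat.pair 0 (A.Q₁.cd n x) := if_pos hx

theorem ccd_inl2 (n : ℕ) {x : U} (hx : x ∉ A.Q₁.X) :
    A.ccd n (.inl x) = Nat.pair 1 (A.Q₂.cd n x) := if_neg hx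

theorem ccd_inr (n : ℕ) (a : U × U) : A.ccd n (.inr a) = Nat.pair 2 (A.pcd n a) := rfl

theorem XX_inl {x : U} (h : .inl x ∈ A.XX) : x ∈ A.Q₁.X ∨ x ∈ A.Q₂.X := h

theorem XX_inr {a : U × U} (h : .inr a ∈ A.XX) : A.am a.1 a.2 := h

theorem am_rho (a : U ⊕ U × U) (ha : a ∈ A.XX) : A.am (A.ρ a).1 (A.ρ a).2 := by
  rcases a with x | p
  · by_cases hx : x ∈ A.Q₁.X
    · rw [A.rho_inl1 hx]; exact A.am_left x hx
    · rw [A.rho_inl2 hx]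
      exact A.am_right x ((A.XX_inl ha).resolve_left hx)
  · exact A.XX_inr ha

theorem le0_rfl {a : U × U} (ha : A.am a.1 a.2) : A.le0 a a :=
  ⟨A.Q₁.refl _ ha.1, A.Q₂.refl _ ha.2.1⟩

theorem le0_trans {a b c : U × U} (ha : A.am a.1 a.2) (hb : A.am b.1 b.2) (hc : A.am c.1 c.2)
    (h : A.le0 a b) (h' : A.le0 b c) : A.le0 a c :=
  ⟨A.Q₁.trans _ ha.1 _ hb.1 _ hc.1 h.1 h'.1, A.Q₂.trans _ ha.2.1 _ hb.2.1 _ hc.2.1 h.2 h'.2⟩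

theorem of_inl1 {n : ℕ} {y : U} (hy : y ∈ A.Q₁.X) {a : U ⊕ U × U}
    (h : A.ccd n a = A.ccd n (.inl y)) :
    ∃ x ∈ A.Q₁.X, a = .inl x ∧ A.Q₁.cd n x = A.Q₁.cd n y := by
  rw [A.ccd_inl1 n hy] at h
  rcases a with x | p
  · by_cases hx : x ∈ A.Q₁.X
    · rw [A.ccd_inl1 n hx, Nat.pair_eq_pair] at h
      exact ⟨x, hx, rfl, h.2⟩
    · rw [A.ccd_inl2 n hx, Nat.pair_eq_pair] at h
      exact absurd h.1 (by norm_num)
  · rw [A.ccd_inr, Nat.pair_eq_pair] at h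
    exact absurd h.1 (by norm_num)

theorem of_inl2 {n : ℕ} {y : U} (hy : y ∉ A.Q₁.X) {a : U ⊕ U × U} (ha : a ∈ A.XX)
    (h : A.ccd n a = A.ccd n (.inl y)) :
    ∃ x, x ∉ A.Q₁.X ∧ x ∈ A.Q₂.X ∧ a = .inl x ∧ A.Q₂.cd n x = A.Q₂.cd n y := by
  rw [A.ccd_inl2 n hy] at h
  rcases a with x | p
  · by_cases hx : x ∈ A.Q₁.X
    · rw [A.ccd_inl1 n hx, Nat.pair_eq_pair] at h
      exact absurd h.1 (by norm_num)
    · rw [A.ccd_inl2 n hx, Nat.pair_eq_pair] at h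
      exact ⟨x, hx, (A.XX_inl ha).resolve_left hx, rfl, h.2⟩
  · rw [A.ccd_inr, Nat.pair_eq_pair] at h
    exact absurd h.1 (by norm_num)

theorem of_inr {n : ℕ} {q : U × U} {a : U ⊕ U × U} (ha : a ∈ A.XX)
    (h : A.ccd n a = A.ccd n (.inr q)) :
    ∃ p : U × U, A.am p.1 p.2 ∧ a = .inr p ∧ A.pcd n p = A.pcd n q := by
  rw [A.ccd_inr] at h
  rcases a with x | p
  · by_cases hx : x ∈ A.Q₁.X
    · rw [A.ccd_inl1 n hx, Nat.pair_eq_pair] at h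
      exact absurd h.1 (by norm_num)
    · rw [A.ccd_inl2 n hx, Nat.pair_eq_pair] at h
      exact absurd h.1 (by norm_num)
  · rw [A.ccd_inr, Nat.pair_eq_pair] at h
    exact ⟨p, A.XX_inr ha, rfl, h.2⟩

theorem not_mem_of_class {n : ℕ} {z a : U} (hz : z ∈ A.Q₂.X) (ha : a ∉ A.Q₁.X)
    (ha2 : a ∈ A.Q₂.X) (h : A.Q₂.cd n z = A.Q₂.cd n a) : z ∉ A.Q₁.X := by
  intro hz1
  have hzP : z ∈ A.P.X := A.hd z hz1 hz
  have h0 : A.Q₂.cd 0 z = A.Q₂.cd 0 a := A.Q₂.mono_le (Nat.zero_le n) hz ha2 h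
  exact ha (A.h₁.sub (A.h₂.closed z hzP a ha2 h0))

theorem les_inl1 {x y : U} (hx : x ∈ A.Q₁.X) (hy : y ∈ A.Q₁.X) (h : A.Q₁.le x y) :
    A.les (A.ρ (.inl x)) (A.ρ (.inl y)) := by
  rw [A.rho_inl1 hx, A.rho_inl1 hy]
  exact (A.les_left_iff hx hy).2 h

theorem les_inl2 {x y : U} (hx1 : x ∉ A.Q₁.X) (hy1 : y ∉ A.Q₁.X) (hx : x ∈ A.Q₂.X)
    (hy : y ∈ A.Q₂.X) (h : A.Q₂.le x y) :
    A.les (A.ρ (.inl x)) (A.ρ (.inl y)) := by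
  rw [A.rho_inl2 hx1, A.rho_inl2 hy1]
  exact (A.les_right_iff hx hy).2 h

theorem aux_sep (x : U ⊕ U × U) (hx : x ∈ A.XX) (y : U ⊕ U × U) (hy : y ∈ A.XX)
    (h : ∀ z ∈ A.XX, A.les (A.ρ z) (A.ρ x) →
      ∃ w ∈ A.XX, A.les (A.ρ w) (A.ρ z) ∧ A.les (A.ρ w) (A.ρ y)) :
    A.les (A.ρ x) (A.ρ y) := by
  intro d hd hdx
  obtain ⟨w, hw, h1, h2⟩ := h (.inr d) hd (A.les_of_le0 hd (A.am_rho x hx) hdx)
  have hw' := A.am_rho w hw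
  obtain ⟨e1, he1, h3, h4⟩ := h1 (A.ρ w) hw' (A.le0_rfl hw')
  obtain ⟨e2, he2, h5, h6⟩ := h2 e1 he1 h3
  exact ⟨e2, he2, A.le0_trans he2 he1 hd h5 h4, h6⟩

theorem aux_mono (n : ℕ) (x : U ⊕ U × U) (hx : x ∈ A.XX) (y : U ⊕ U × U) (hy : y ∈ A.XX)
    (h : A.ccd (n + 1) x = A.ccd (n + 1) y) : A.ccd n x = A.ccd n y := by
  rcases y with b | q
  · by_cases hb : b ∈ A.Q₁.X
    · obtain ⟨a, ha, rfl, hab⟩ := A.of_inl1 hb h
      rw [A.ccd_inl1 n ha, A.ccd_inl1 n hb, A.Q₁.mono n a ha b hb hab]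
    · obtain ⟨a, ha, ha2, rfl, hab⟩ := A.of_inl2 hb hx h
      rw [A.ccd_inl2 n ha, A.ccd_inl2 n hb,
        A.Q₂.mono n a ha2 b ((A.XX_inl hy).resolve_left hb) hab]
  · obtain ⟨p, hp, rfl, hpq⟩ := A.of_inr hx h
    rw [A.ccd_inr, A.ccd_inr, A.pcd_mono n p q hp (A.XX_inr hy) hpq]

theorem aux_dir (n : ℕ) (x : U ⊕ U × U) (hx : x ∈ A.XX) (y : U ⊕ U × U) (hy : y ∈ A.XX)
    (h : A.ccd n x = A.ccd n y) :
    ∃ z ∈ A.XX, A.les (A.ρ z) (A.ρ x) ∧ A.les (A.ρ z) (A.ρ y) ∧ A.ccd n z = A.ccd n x := by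
  rcases y with b | q
  · by_cases hb : b ∈ A.Q₁.X
    · obtain ⟨a, ha, rfl, hab⟩ := A.of_inl1 hb h
      obtain ⟨z, hz, h1, h2, h3⟩ := A.Q₁.dir n a ha b hb hab
      refine ⟨.inl z, Or.inl hz, A.les_inl1 hz ha h1, A.les_inl1 hz hb h2, ?_⟩
      rw [A.ccd_inl1 n hz, A.ccd_inl1 n ha, h3]
    · obtain ⟨a, ha, ha2, rfl, hab⟩ := A.of_inl2 hb hx h
      have hb2 := (A.XX_inl hy).resolve_left hb
      obtain ⟨z, hz, h1, h2, h3⟩ := A.Q₂.dir n a ha2 b hb2 hab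
      have hz1 := A.not_mem_of_class hz ha ha2 h3
      refine ⟨.inl z, Or.inr hz, A.les_inl2 hz1 ha hz ha2 h1, A.les_inl2 hz1 hb hz hb2 h2, ?_⟩
      rw [A.ccd_inl2 n hz1, A.ccd_inl2 n ha, h3]
  · obtain ⟨p, hp, rfl, hpq⟩ := A.of_inr hx h
    have hq := A.XX_inr hy
    obtain ⟨c, hc, h1, h2, h3⟩ := A.pcd_dir n p q hp hq hpq
    refine ⟨.inr c, hc, A.les_of_le0 hc hp h1, A.les_of_le0 hc hq h2, ?_⟩
    rw [A.ccd_inr, A.ccd_inr, h3]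

theorem aux_lim (x : ℕ → U ⊕ U × U) (y : U ⊕ U × U) (hx : ∀ i, x i ∈ A.XX) (hy : y ∈ A.XX)
    (h : ∀ i, A.ccd i (x i) = A.ccd i y) (n : ℕ) :
    ∃ r ∈ A.XX, (∀ i, n ≤ i → A.les (A.ρ r) (A.ρ (x i))) ∧ A.ccd n r = A.ccd n y := by
  rcases y with b | q
  · by_cases hb : b ∈ A.Q₁.X
    · have h1 : ∀ i, ∃ a ∈ A.Q₁.X, x i = .inl a ∧ A.Q₁.cd i a = A.Q₁.cd i b :=
        fun i => A.of_inl1 hb (h i)
      choose a ha hxa hab using h1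
      obtain ⟨r, hr, h2, h3⟩ := A.Q₁.lim a b ha hb hab n
      refine ⟨.inl r, Or.inl hr, fun i hi => ?_, ?_⟩
      · rw [hxa i]; exact A.les_inl1 hr (ha i) (h2 i hi)
      · rw [A.ccd_inl1 n hr, A.ccd_inl1 n hb, h3]
    · have hb2 := (A.XX_inl hy).resolve_left hb
      have h1 : ∀ i, ∃ a, a ∉ A.Q₁.X ∧ a ∈ A.Q₂.X ∧ x i = .inl a ∧ A.Q₂.cd i a = A.Q₂.cd i b :=
        fun i => A.of_inl2 hb (hx i) (h i)
      choose a ha ha2 hxa hab using h1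
      obtain ⟨r, hr, h2, h3⟩ := A.Q₂.lim a b ha2 hb2 hab n
      have hr1 := A.not_mem_of_class hr hb hb2 h3
      refine ⟨.inl r, Or.inr hr, fun i hi => ?_, ?_⟩
      · rw [hxa i]; exact A.les_inl2 hr1 (ha i) hr (ha2 i) (h2 i hi)
      · rw [A.ccd_inl2 n hr1, A.ccd_inl2 n hb, h3]
  · have hq := A.XX_inr hy
    have h1 : ∀ i, ∃ p : U × U, A.am p.1 p.2 ∧ x i = .inr p ∧ A.pcd i p = A.pcd i q :=
      fun i => A.of_inr (hx i) (h i)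
    choose p hp hxp hpq using h1
    obtain ⟨r, hr, h2, h3⟩ := A.pcd_lim p q hp hq hpq n
    refine ⟨.inr r, hr, fun i hi => ?_, ?_⟩
    · rw [hxp i]; exact A.les_of_le0 hr (hp i) (h2 i hi)
    · rw [A.ccd_inr, A.ccd_inr, h3]

/-- finitely many weak upper bounds become coordinatewise upper bounds -/
theorem exists_below {ι : Type} [Finite ι] (L : ι → U × U) (y : U × U)
    (hL : ∀ i, A.am (L i).1 (L i).2) (hy : A.am y.1 y.2) (h : ∀ i, A.les y (L i)) :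
    ∃ b : U × U, A.am b.1 b.2 ∧ A.le0 b y ∧ ∀ i, A.le0 b (L i) := by
  classical
  have := Fintype.ofFinite ι
  have key : ∀ s : Finset ι, ∃ b : U × U, A.am b.1 b.2 ∧ A.le0 b y ∧ ∀ i ∈ s, A.le0 b (L i) := by
    intro s
    induction s using Finset.induction_on with
    | empty => exact ⟨y, hy, A.le0_rfl hy, fun i hi => absurd hi (Finset.notMem_empty i)⟩
    | insert j s hj ih =>
      obtain ⟨b, hb, h1, h2⟩ := ih
      obtain ⟨e, he, h3, h4⟩ := h j b hb h1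
      refine ⟨e, he, A.le0_trans he hb hy h3 h1, fun i hi => ?_⟩
      rcases Finset.mem_insert.1 hi with rfl | hi
      · exact h4
      · exact A.le0_trans he hb (hL i) h3 (h2 i hi)
  obtain ⟨b, hb, h1, h2⟩ := key Finset.univ
  exact ⟨b, hb, h1, fun i => h2 i (Finset.mem_univ i)⟩

theorem coords_of_ccd {k : ℕ} {a b : U ⊕ U × U} (ha : a ∈ A.XX) (hb : b ∈ A.XX)
    (h : A.ccd k a = A.ccd k b) :
    A.Q₁.cd k (A.ρ a).1 = A.Q₁.cd k (A.ρ b).1 ∧ A.Q₂.cd k (A.ρ a).2 = A.Q₂.cd k (A.ρ b).2 := by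
  rcases b with y | q
  · by_cases hy : y ∈ A.Q₁.X
    · obtain ⟨x, hx, rfl, hxy⟩ := A.of_inl1 hy h
      rw [A.rho_inl1 hx, A.rho_inl1 hy]
      exact ⟨hxy, rfl⟩
    · obtain ⟨x, hx, hx2, rfl, hxy⟩ := A.of_inl2 hy ha h
      rw [A.rho_inl2 hx, A.rho_inl2 hy]
      exact ⟨rfl, hxy⟩
  · obtain ⟨p, hp, rfl, hpq⟩ := A.of_inr ha h
    have hq := A.XX_inr hb
    rw [A.rho_inr, A.rho_inr]
    rw [pcd, pcd, Nat.pair_eq_pair, Nat.pair_eq_pair] at hpq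
    obtain ⟨h1, h2, h3⟩ := hpq
    rw [h1] at h2 h3
    exact ⟨A.Q₁.mono_le (Nat.le_add_right _ _) hp.1 hq.1 h2,
      A.Q₂.mono_le (Nat.le_add_right _ _) hp.2.1 hq.2.1 h3⟩

theorem aux_W (ι : Type) [Finite ι] (L : ι → U ⊕ U × U) (y₀ : U ⊕ U × U)
    (hL : ∀ i, L i ∈ A.XX) (hy : y₀ ∈ A.XX) (h : ∀ i, A.les (A.ρ y₀) (A.ρ (L i))) :
    ∃ y ∈ A.XX, A.les (A.ρ y) (A.ρ y₀) ∧
      WP A.XX (fun a b => A.les (A.ρ a) (A.ρ b)) A.ccd L y := by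
  have hL' : ∀ i, A.am (A.ρ (L i)).1 (A.ρ (L i)).2 := fun i => A.am_rho _ (hL i)
  have hy' := A.am_rho _ hy
  obtain ⟨b, hb, hby, hbL⟩ := A.exists_below (fun i => A.ρ (L i)) (A.ρ y₀) hL' hy' h
  obtain ⟨c, hc, hcb, hW⟩ := A.pair_W (fun i => A.ρ (L i)) b hL' hb hbL
  refine ⟨.inr c, hc, A.les_of_le0 hc hy' (A.le0_trans hc hb hy' hcb hby), fun n => ?_⟩
  obtain ⟨k, hk⟩ := hW n
  refine ⟨k, fun L₁ hL₁ hcd => ?_⟩
  have hL₁' : ∀ i, A.am (A.ρ (L₁ i)).1 (A.ρ (L₁ i)).2 := fun i => A.am_rho _ (hL₁ i)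
  obtain ⟨c', hc', h1, h2⟩ := hk (fun i => A.ρ (L₁ i)) hL₁'
    (fun i => A.coords_of_ccd (hL₁ i) (hL i) (hcd i))
  refine ⟨.inr c', hc', fun i => A.les_of_le0 hc' (hL₁' i) (h1 i), ?_⟩
  rw [A.ccd_inr, A.ccd_inr, h2]

theorem aux_iso (x : U ⊕ U × U) (h : A.ccd 0 x = A.ccd 0 (.inl A.Q₁.top)) :
    x = .inl A.Q₁.top := by
  obtain ⟨a, ha, rfl, hab⟩ := A.of_inl1 A.Q₁.top_mem h
  rw [A.Q₁.iso a ha hab]

theorem aux_top (x : U ⊕ U × U) (hx : x ∈ A.XX) : A.les (A.ρ x) (A.ρ (.inl A.Q₁.top)) := by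
  have h1 := A.am_rho x hx
  have h2 : A.am A.Q₁.top A.Q₂.top := A.am_left _ A.Q₁.top_mem
  rw [A.rho_inl1 A.Q₁.top_mem]
  exact A.les_of_le0 h1 h2 ⟨A.Q₁.le_top _ h1.1, A.Q₂.le_top _ h1.2.1⟩

theorem aux_trans (x : U ⊕ U × U) (hx : x ∈ A.XX) (y : U ⊕ U × U) (hy : y ∈ A.XX)
    (z : U ⊕ U × U) (hz : z ∈ A.XX) (h : A.les (A.ρ x) (A.ρ y)) (h' : A.les (A.ρ y) (A.ρ z)) :
    A.les (A.ρ x) (A.ρ z) :=
  A.les_trans (A.am_rho x hx) (A.am_rho y hy) (A.am_rho z hz) h h'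

open Classical in
/-- The amalgam: `X = Q₁.X ∪ Q₂.X ∪ am`, ordered by the separative closure `les` of the
coordinatewise order on pairs, codes tagged by `0` on `Q₁.X`, by `1` on `Q₂.X \ Q₁.X`, by `2` on the
pairs.
* sep, refl, trans, le_top: from `les` (`les_of_le0`, `les_trans`, ...).
* dir, lim: an element of `Q₂.X` which is `E_0`-equivalent (in `Q₂`) to an element of
  `Q₂.X \ P.X` is in `Q₂.X \ P.X` (`closed`), and `Q₂.X \ Q₁.X = Q₂.X \ P.X`.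
* W: extend `ρ y₀` finitely often (by `les`) to a pair `b` below all `ρ (L i)`, apply `pair_W`.
* iso: the top has tag `0`. -/
noncomputable def amSw : Sw (U ⊕ U × U) where
  X := {a | match a with
    | .inl x => x ∈ A.Q₁.X ∨ x ∈ A.Q₂.X
    | .inr a => A.am a.1 a.2}
  top := .inl A.Q₁.top
  le a b := A.les (A.ρ a) (A.ρ b)
  cd n a := match a with
    | .inl x => if x ∈ A.Q₁.X then Nat.pair 0 (A.Q₁.cd n x) else Nat.pair 1 (A.Q₂.cd n x)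
    | .inr a => Nat.pair 2 (A.pcd n a)
  top_mem := Or.inl A.Q₁.top_mem
  refl := fun x _ => A.les_refl (A.ρ x)
  trans := A.aux_trans
  le_top := A.aux_top
  sep := A.aux_sep
  mono := A.aux_mono
  dir := A.aux_dir
  lim := A.aux_lim
  W := A.aux_W
  iso := fun x _ h => A.aux_iso x h

theorem mem_inl (x : U) : Sum.inl x ∈ A.amSw.X ↔ x ∈ A.Q₁.X ∨ x ∈ A.Q₂.X := Iff.rfl

theorem mem_inr (a : U × U) : Sum.inr a ∈ A.amSw.X ↔ A.am a.1 a.2 := Iff.rfl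

theorem am_ρ (a : U ⊕ U × U) (ha : a ∈ A.amSw.X) : A.am (A.ρ a).1 (A.ρ a).2 :=
  A.am_rho a ha

end AmData

end Pool.Agent.Lib.BPLM
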