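import Mathlib
import Pool.Agent.Lib.MP_c00cb7_lc.Capture
import Pool.Agent.Lib.MP_c00cb7_lc.KReal
import Pool.Agent.Lib.MP_c00cb7_lc.SwRN
import Pool.Agent.Lib.MP_c00cb7_lc.SwBasic
import Pool.Agent.Lib.MP_c00cb7_lc.SwAmSw

section

/-!
# Boolean values of strings; names for reals over a sweet preorder as names of the system
-/

set_option autoImplicit false

open Set

namespace Pool.Agent.Lib.BPLM

open Pool.Agent.Lib.SymZF Pool.Agent.Lib.KZF Pool.Agent.Lib.KZF.KSys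

section strv

variable {B : Type} [CompleteBooleanAlgebra B]

/-- Boolean value of: the real with the values `b` extends the string `s` -/
noncomputable def strv (s : List Bool) (b : ℕ → B) : B :=
  ⨅ i : Fin s.length, if s[i] = true then b i else (b i)ᶜ

lemma strv_nil (b : ℕ → B) : strv [] b = ⊤ := by
  rw [eq_top_iff]
  exact le_iInf fun i => i.elim0

private lemma le_strv {s : List Bool} {b : ℕ → B} {a : B}
    (h : ∀ i (hi : i < s.length), a ≤ if s[i] = true then b i else (b i)ᶜ) : a ≤ strv s b :=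
  le_iInf fun i => h i.1 i.2

private lemma strv_le' (s : List Bool) (b : ℕ → B) (i : ℕ) (hi : i < s.length) :
    strv s b ≤ if s[i] = true then b i else (b i)ᶜ :=
  iInf_le (fun i : Fin s.length => if s[i] = true then b i else (b i)ᶜ) ⟨i, hi⟩

lemma strv_append (s : List Bool) (c : Bool) (b : ℕ → B) :
    strv (s ++ [c]) b = strv s b ⊓ if c = true then b s.length else (b s.length)ᶜ := by
  apply le_antisymm
  · refine le_inf (le_strv fun i hi => ?_) ?_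
    · have h := strv_le' (s ++ [c]) b i (by simp; omega)
      rwa [List.getElem_append_left hi] at h
    · have h := strv_le' (s ++ [c]) b s.length (by simp)
      rwa [List.getElem_concat_length rfl] at h
  · refine le_strv fun i hi => ?_
    rcases Nat.lt_or_ge i s.length with h | h
    · rw [List.getElem_append_left h]
      exact inf_le_left.trans (strv_le' s b i h)
    · have hi' : i = s.length := by simp at hi; omega
      subst hi'
      rw [List.getElem_concat_length rfl]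
      exact inf_le_right

lemma strv_mono {s t : List Bool} (h : s <+: t) (b : ℕ → B) : strv t b ≤ strv s b := by
  refine le_strv fun i hi => ?_
  rw [h.getElem hi]
  exact strv_le' t b i _

/-- incomparable strings -/
lemma strv_disj {s t : List Bool} (h : ¬ (s <+: t ∨ t <+: s)) (b : ℕ → B) :
    strv s b ⊓ strv t b = ⊥ := by
  have key : ∃ i, ∃ (h1 : i < s.length) (h2 : i < t.length), s[i] ≠ t[i] := by
    by_contra hcon
    push Not at hcon
    apply h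
    rcases le_total s.length t.length with hl | hl
    · exact Or.inl (List.prefix_iff_getElem.2 ⟨hl, fun i hi => hcon i hi (hi.trans_le hl)⟩)
    · exact Or.inr (List.prefix_iff_getElem.2 ⟨hl, fun i hi => (hcon i (hi.trans_le hl) hi).symm⟩)
  obtain ⟨i, h1, h2, h3⟩ := key
  have h4 := strv_le' s b i h1
  have h5 := strv_le' t b i h2
  rw [← le_bot_iff]
  cases hs : s[i] with
  | true =>
    have ht : t[i] = false := by
      cases ht : t[i] with
      | true => exact absurd (hs.trans ht.symm) h3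
      | false => rfl
    rw [hs, if_pos rfl] at h4
    rw [ht, if_neg Bool.false_ne_true] at h5
    exact (inf_le_inf h4 h5).trans (by rw [inf_compl_self])
  | false =>
    have ht : t[i] = true := by
      cases ht : t[i] with
      | false => exact absurd (hs.trans ht.symm) h3
      | true => rfl
    rw [hs, if_neg Bool.false_ne_true] at h4
    rw [ht, if_pos rfl] at h5
    exact (inf_le_inf h4 h5).trans (by rw [compl_inf_self])

lemma strv_le {s : List Bool} {i : ℕ} (hi : i < s.length) (b : ℕ → B) :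
    strv s b ≤ if s[i] = true then b i else (b i)ᶜ := by
  exact strv_le' s b i hi

/-- extensionality -/
lemma strv_congr (s : List Bool) (b c : ℕ → B) :
    (⨅ n, (b n ⇨ c n) ⊓ (c n ⇨ b n)) ⊓ strv s b ≤ strv s c := by
  refine le_strv fun i hi => ?_
  refine (inf_le_inf (iInf_le _ i) (strv_le' s b i hi)).trans ?_
  by_cases h : s[i] = true
  · rw [if_pos h, if_pos h]
    exact (inf_le_inf_right _ inf_le_left).trans himp_inf_le
  · rw [if_neg h, if_neg h]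
    refine (inf_le_inf_right _ inf_le_right).trans ?_
    rw [le_compl_iff_disjoint_right, disjoint_iff, ← le_bot_iff]
    calc (c i ⇨ b i) ⊓ (b i)ᶜ ⊓ c i ≤ b i ⊓ (b i)ᶜ :=
          le_inf ((inf_le_inf_right _ inf_le_left).trans himp_inf_le)
            (inf_le_left.trans inf_le_right)
      _ ≤ ⊥ := by rw [inf_compl_self]

/-- every value is the supremum of its parts given by the strings of length `n` -/
lemma iSup_strv (n : ℕ) (b : ℕ → B) : ⨆ (s : List Bool) (_ : s.length = n), strv s b = ⊤ := by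
  induction n with
  | zero =>
    rw [eq_top_iff]
    exact le_iSup₂_of_le [] rfl (by rw [strv_nil])
  | succ n ih =>
    rw [eq_top_iff, ← ih]
    refine iSup₂_le fun s hs => ?_
    have h1 : strv s b = strv (s ++ [true]) b ⊔ strv (s ++ [false]) b := by
      rw [strv_append, strv_append, if_pos rfl, if_neg Bool.false_ne_true, ← inf_sup_left,
        sup_compl_eq_top, inf_top_eq]
    rw [h1]
    refine sup_le ?_ ?_
    · exact le_iSup₂_of_le (s ++ [true]) (by simp [hs]) le_rfl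
    · exact le_iSup₂_of_le (s ++ [false]) (by simp [hs]) le_rfl

lemma strv_map {C : Type} [CompleteBooleanAlgebra C] (f : B ≃o C) (s : List Bool) (b : ℕ → B) :
    strv s (fun n => f (b n)) = f (strv s b) := by
  rw [strv, strv, OrderIso.map_iInf]
  refine iInf_congr fun i => ?_
  by_cases h : s[i] = true
  · rw [if_pos h, if_pos h]
  · rw [if_neg h, if_neg h, map_compl]

end strv

lemma eqB_symm {S : KSys} (b c : ℕ → S.B) : eqB b c = eqB c b :=
  iInf_congr fun _ => inf_comm _ _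

lemma eqB_self {S : KSys} (b : ℕ → S.B) : eqB b b = ⊤ := by
  simp [eqB]

private lemma eqB_trans_aux {B : Type} [CompleteBooleanAlgebra B] (b c d : ℕ → B) :
    (⨅ n, (b n ⇨ c n) ⊓ (c n ⇨ b n)) ⊓ (⨅ n, (c n ⇨ d n) ⊓ (d n ⇨ c n)) ≤
      ⨅ n, (b n ⇨ d n) ⊓ (d n ⇨ b n) := by
  refine le_iInf fun n => ?_
  refine (inf_le_inf (iInf_le _ n) (iInf_le _ n)).trans (le_inf ?_ ?_)
  · exact (inf_le_inf inf_le_left inf_le_left).trans (himp_triangle _ _ _)
  · rw [inf_comm]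
    exact (inf_le_inf inf_le_right inf_le_right).trans (himp_triangle _ _ _)

lemma eqB_trans {S : KSys} (b c d : ℕ → S.B) : eqB b c ⊓ eqB c d ≤ eqB b d :=
  eqB_trans_aux b c d

namespace Setup

variable {D : Setup}

/-- `eS S x ≤ b` may be checked densely below `x` in `S`. (`{x' | eS S x' ≤ b}` is predense below
`x`: `eS_le_iSup`.) -/
lemma eS_le_of_dense {S : Sw D.U} (hS : S.Small) {x : D.U} (hx : x ∈ S.X) {b : D.B}
    (h : ∀ x' ∈ S.X, S.le x' x → ∃ x'' ∈ S.X, S.le x'' x' ∧ eS S x'' ≤ b) : eS S x ≤ b := by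
  have h1 := eS_le_iSup hS (A := {y | y ∈ S.X ∧ eS S y ≤ b}) (fun y hy => hy.1) hx (by
    intro w hw hwx
    obtain ⟨y, hy, hyw, hyb⟩ := h w hw hwx
    exact ⟨y, ⟨hy, hyb⟩, y, hy, hyw, S.refl y hy⟩)
  exact h1.trans (iSup₂_le fun y hy => hy.2)

/-- the same for a value of the form `eS S x ⊓ a ≤ b` where `a` is captured -/
lemma eS_inf_le_of_dense {S : Sw D.U} (hS : S.Small) {x : D.U} (hx : x ∈ S.X) {a b : D.B}
    (ha : Cap S a)
    (h : ∀ x' ∈ S.X, S.le x' x → eS S x' ≤ a → ∃ x'' ∈ S.X, S.le x'' x' ∧ eS S x'' ≤ b) :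
    eS S x ⊓ a ≤ b := by
  rw [← le_himp_iff]
  refine eS_le_of_dense hS hx fun x' hx' hle => ?_
  obtain ⟨y, hy, hyx, hya⟩ := ha x' hx'
  rcases hya with hya | hya
  · obtain ⟨z, hz, hzy, hzb⟩ := h y hy (S.trans _ hy _ hx' _ hx hyx hle) hya
    exact ⟨z, hz, S.trans _ hz _ hy _ hx' hzy hyx, hzb.trans le_himp⟩
  · refine ⟨y, hy, hyx, hya.trans ?_⟩
    rw [himp_eq]
    exact le_sup_right

/-- `eS S x ≤ eS S y` iff `x ≤ y` (separativity of `S`) -/
lemma eS_le_iff {S : Sw D.U} (hS : S.Small) {x y : D.U} (hx : x ∈ S.X) (hy : y ∈ S.X) :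
    eS S x ≤ eS S y ↔ S.le x y := by
  refine ⟨fun h => S.sep x hx y hy fun z hz hzx => ?_, eS_mono hx hy⟩
  have h1 : eS S z ⊓ eS S y ≠ ⊥ := by
    rw [inf_eq_left.2 ((eS_mono hz hx hzx).trans h)]
    exact eS_ne_bot hz hS
  obtain ⟨w, hw, hwz, hwy⟩ := (eS_inf_ne_bot hS hz hy).1 h1
  exact ⟨w, hw, hwz, hwy⟩

/-- for `S ≤ T`: `eS T x ≤ eS S y` iff `T.le x y` -/
lemma eS_le_iff_sub {S T : Sw D.U} (h : S.Sub T) (hS : S.Small) (hT : T.Small) {x y : D.U}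
    (hx : x ∈ T.X) (hy : y ∈ S.X) : eS T x ≤ eS S y ↔ T.le x y := by
  rw [← eS_le_iff hT hx (h.sub hy), eS_sub_eq h hS hT hy, le_inf_iff]
  exact ⟨fun h1 => ⟨h1, eS_mono hx T.top_mem (T.le_top x hx)⟩, fun h1 => h1.1⟩

lemma Cap.compl {S : Sw D.U} {b : D.B} (h : Cap S b) : Cap S bᶜ := by
  intro x hx
  obtain ⟨y, hy, hyx, hb⟩ := h x hx
  refine ⟨y, hy, hyx, ?_⟩
  rw [compl_compl]
  exact hb.symm

lemma Cap.inf {S : Sw D.U} {a b : D.B} (ha : Cap S a) (hb : Cap S b) : Cap S (a ⊓ b) := by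
  intro x hx
  obtain ⟨y, hy, hyx, h1⟩ := ha x hx
  obtain ⟨z, hz, hzy, h2⟩ := hb y hy
  refine ⟨z, hz, S.trans _ hz _ hy _ hx hzy hyx, ?_⟩
  have h3 : eS S z ≤ eS S y := eS_mono hz hy hzy
  rcases h1 with h1 | h1
  · rcases h2 with h2 | h2
    · exact Or.inl (le_inf (h3.trans h1) h2)
    · exact Or.inr (h2.trans (compl_le_compl inf_le_right))
  · exact Or.inr ((h3.trans h1).trans (compl_le_compl inf_le_left))

lemma cap_eS {S : Sw D.U} (hS : S.Small) {x : D.U} (hx : x ∈ S.X) : Cap S (eS S x) := by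
  intro y hy
  by_cases h : S.cmp y x
  · obtain ⟨z, hz, h1, h2⟩ := h
    exact ⟨z, hz, h1, Or.inl (eS_mono hz hx h2)⟩
  · refine ⟨y, hy, S.refl y hy, Or.inr ?_⟩
    rw [le_compl_iff_disjoint_right, disjoint_iff]
    by_contra hne
    exact h ((eS_inf_ne_bot hS hy hx).1 hne)

lemma cap_strv {S : Sw D.U} {b : ℕ → D.B} (h : ∀ n, Cap S (b n)) (s : List Bool) :
    Cap S (strv s b) := by
  induction s using List.reverseRecOn with
  | nil =>
    intro x hx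
    exact ⟨x, hx, S.refl x hx, Or.inl (by rw [strv_nil]; exact le_top)⟩
  | append_singleton s c ih =>
    rw [strv_append]
    refine ih.inf ?_
    by_cases hc : c = true
    · rw [if_pos hc]; exact h _
    · rw [if_neg hc]; exact (h _).compl

/-- the values of the real given by `F` -/
noncomputable def rb (Q : Sw D.U) (F : D.U → List Bool → Prop) (n : ℕ) : D.B :=
  ⨆ (z : D.U) (s : List Bool) (_ : z ∈ Q.X ∧ F z s ∧ s[n]? = some true), eS Q z

private lemma le_rb {Q : Sw D.U} {F : D.U → List Bool → Prop} {n : ℕ} {z : D.U} {s : List Bool}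
    (h : z ∈ Q.X ∧ F z s ∧ s[n]? = some true) : eS Q z ≤ rb Q F n :=
  le_iSup_of_le z (le_iSup_of_le s (le_iSup_of_le h le_rfl))

private lemma rb_le {Q : Sw D.U} {F : D.U → List Bool → Prop} {n : ℕ} {b : D.B}
    (h : ∀ z s, z ∈ Q.X → F z s → s[n]? = some true → eS Q z ≤ b) : rb Q F n ≤ b :=
  iSup_le fun z => iSup_le fun s => iSup_le fun hz => h z s hz.1 hz.2.1 hz.2.2

private lemma eq_of_le_strv {Q : Sw D.U} {z : D.U} (hz : z ∈ Q.X) (hQ : Q.Small) {s t : List Bool}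
    {b : ℕ → D.B} (hs : eS Q z ≤ strv s b) (ht : eS Q z ≤ strv t b) (hl : s.length = t.length) :
    s = t := by
  by_contra hne
  have h1 : ¬ (s <+: t ∨ t <+: s) := by
    rintro (h | h)
    · exact hne (h.eq_of_length hl)
    · exact hne (h.eq_of_length hl.symm).symm
  apply eS_ne_bot hz hQ
  rw [← le_bot_iff, ← strv_disj h1 b]
  exact le_inf hs ht

/-- the last bit of a string decides the value -/
private lemma le_of_strv {Q : Sw D.U} {z : D.U} (hz : z ∈ Q.X) (hQ : Q.Small) {s : List Bool}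
    {b : ℕ → D.B} {n : ℕ} (hn : n < s.length) (hs : eS Q z ≤ strv s b) (hb : eS Q z ≤ b n) :
    s[n]? = some true := by
  rw [List.getElem?_eq_getElem hn]
  by_contra hne
  have h1 : s[n] ≠ true := fun h => hne (by rw [h])
  have h2 := hs.trans (strv_le hn b)
  rw [if_neg h1] at h2
  apply eS_ne_bot hz hQ
  rw [← le_bot_iff]
  exact (le_inf hb h2).trans (by rw [inf_compl_self])

/-- Values for the elements of `Q`. `→`: for `i < |s|`: if `s[i] = true` then `eS Q z ≤ rb Q F i`; if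
`s[i] = false` then `z` is incompatible with every `z'` with `F z' s'`, `s'[i] = true` (`coh`, `low`).
`←`: `RN.reg`; for `z' ≤ z` let `z'' ≤ z'` with `F z'' s''`, `|s''| = |s|` (`dens`); then `s'' = s` by
`strv_disj`. -/
theorem rn_iff_strv {Q : Sw D.U} {F : D.U → List Bool → Prop} (h : RN Q F) (hQ : Q.Small)
    {z : D.U} (hz : z ∈ Q.X) (s : List Bool) : F z s ↔ eS Q z ≤ strv s (rb Q F) := by
  have h1 : ∀ z ∈ Q.X, ∀ s, F z s → eS Q z ≤ strv s (rb Q F) := by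
    intro z hz s hzs
    refine le_strv fun i hi => ?_
    by_cases hc : s[i] = true
    · rw [if_pos hc]
      exact le_rb ⟨hz, hzs, by rw [List.getElem?_eq_getElem hi, hc]⟩
    · rw [if_neg hc, le_compl_iff_disjoint_right, rb, disjoint_iSup_iff]
      intro z'
      rw [disjoint_iSup_iff]
      intro s'
      rw [disjoint_iSup_iff]
      rintro ⟨hz', hzs', hs'⟩
      rw [disjoint_iff]
      by_contra hne
      obtain ⟨w, hw, hwz, hwz'⟩ := (eS_inf_ne_bot hQ hz hz').1 hne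
      have h2 := h.coh w s s' (h.low _ _ hzs w hw hwz) (h.low _ _ hzs' w hw hwz')
      obtain ⟨hi', hs''⟩ := List.getElem?_eq_some_iff.1 hs'
      apply hc
      rcases h2 with h2 | h2
      · rw [h2.getElem hi]; exact hs''
      · rw [← h2.getElem hi']; exact hs''
  refine ⟨h1 z hz s, fun h2 => h.reg z hz s fun z' hz' hle => ?_⟩
  obtain ⟨z'', hz'', hle', t, ht, hF⟩ := h.dens z' hz' s.length
  have h3 : eS Q z'' ≤ strv s (rb Q F) :=
    (eS_mono hz'' hz (Q.trans _ hz'' _ hz' _ hz hle' hle)).trans h2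
  obtain rfl : t = s := eq_of_le_strv hz'' hQ (h1 _ hz'' _ hF) h3 ht
  exact ⟨z'', hz'', hle', hF⟩

/-- `Q` captures the values of `F` -/
theorem rn_cap_rb {Q : Sw D.U} {F : D.U → List Bool → Prop} (h : RN Q F) (hQ : Q.Small) (n : ℕ) :
    Cap Q (rb Q F n) := by
  intro x hx
  obtain ⟨y, hy, hyx, s, hs, hF⟩ := h.dens x hx (n + 1)
  refine ⟨y, hy, hyx, ?_⟩
  have h1 := ((rn_iff_strv h hQ hy s).1 hF).trans (strv_le (i := n) (by omega) _)
  by_cases hc : s[n]'(by omega) = true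
  · rw [if_pos hc] at h1; exact Or.inl h1
  · rw [if_neg hc] at h1; exact Or.inr h1

/-- the values are symmetric, with support `Q.X` (`α_eS_fix`) -/
theorem symB_rb (Q : Sw D.U) (hQ : Q.Small) (F : D.U → List Bool → Prop) :
    SymB (S := D.sys) (rb Q F) := by
  refine (mem_F _).2 ⟨Q.X, hQ, fun g hg n => ?_⟩
  rw [rb, OrderIso.map_iSup]
  refine iSup_congr fun z => ?_
  rw [OrderIso.map_iSup]
  refine iSup_congr fun s => ?_
  rw [OrderIso.map_iSup]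
  exact iSup_congr fun h => α_eS_fix g Q hg z

theorem α_rb (g : Equiv.Perm D.U) (Q : Sw D.U) (F : D.U → List Bool → Prop) (n : ℕ) :
    D.sys.α g (rb Q F n) = rb (Sw.act g Q) (actF g F) n := by
  rw [rb, rb, OrderIso.map_iSup]
  refine Eq.trans ?_ (g.iSup_comp (g := fun z => ⨆ (s : List Bool)
    (_ : z ∈ (Sw.act g Q).X ∧ actF g F z s ∧ s[n]? = some true), eS (Sw.act g Q) z))
  refine iSup_congr fun z => ?_
  rw [OrderIso.map_iSup]
  refine iSup_congr fun s => ?_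
  rw [OrderIso.map_iSup]
  have e1 : (g z ∈ (Sw.act g Q).X ∧ actF g F (g z) s ∧ s[n]? = some true) ↔
      (z ∈ Q.X ∧ F z s ∧ s[n]? = some true) := by
    rw [Sw.mem_act, actF, Equiv.symm_apply_apply]
  rw [iSup_congr_Prop e1.symm fun _ => α_eS g Q z]

/-- Two names for reals with `F x s ↔ F' x s` below `x₀`. -/
theorem eqB_rb {Q : Sw D.U} {F F' : D.U → List Bool → Prop} (h : RN Q F) (h' : RN Q F')
    (hQ : Q.Small) {x₀ : D.U} (hx₀ : x₀ ∈ Q.X)
    (hF : ∀ x ∈ Q.X, Q.le x x₀ → ∀ s, F x s ↔ F' x s) :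
    eS Q x₀ ≤ eqB (S := D.sys) (rb Q F) (rb Q F') := by
  have key : ∀ {F F' : D.U → List Bool → Prop}, RN Q F →
      (∀ x ∈ Q.X, Q.le x x₀ → ∀ s, F x s ↔ F' x s) → ∀ n, eS Q x₀ ≤ rb Q F n ⇨ rb Q F' n := by
    intro F F' h hF n
    rw [le_himp_iff]
    refine eS_inf_le_of_dense hQ hx₀ (rn_cap_rb h hQ n) fun x' hx' hle hxb => ?_
    obtain ⟨y, hy, hyx, s, hs, hFs⟩ := h.dens x' hx' (n + 1)
    refine ⟨y, hy, hyx, le_rb ⟨hy, (hF y hy (Q.trans _ hy _ hx' _ hx₀ hyx hle) s).1 hFs, ?_⟩⟩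
    exact le_of_strv hy hQ (by omega) ((rn_iff_strv h hQ hy s).1 hFs)
      ((eS_mono hy hx' hyx).trans hxb)
  exact le_iInf fun n => le_inf (key h hF n) (key h' (fun x hx hle s => (hF x hx hle s).symm) n)

/-- The extension of a name has the same values, below `eS R R.top`. -/
theorem eqB_rb_ext {Q R : Sw D.U} {F : D.U → List Bool → Prop} (h : RN Q F) (hQ : Q.Small)
    (hR : R.Small) (hQR : Q.Sub R) :
    eS R R.top ≤ eqB (S := D.sys) (rb Q F) (rb R (extF Q R F)) := by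
  refine le_iInf fun n => le_inf ?_ ?_
  · rw [le_himp_iff, inf_comm, ← le_himp_iff]
    refine rb_le fun z s hz hF hs => ?_
    rw [le_himp_iff, ← eS_sub_eq hQR hQ hR hz]
    exact le_rb ⟨hQR.sub hz, (h.extF_iff hQR hz s).2 hF, hs⟩
  · rw [le_himp_iff]
    refine inf_le_right.trans (rb_le fun z s hz hF hs => ?_)
    refine eS_le_of_dense hR hz fun x' hx' hle => ?_
    obtain ⟨r, hr, hrx, q, hq, hrq, hFq⟩ := hF.2 x' hx' hle
    refine ⟨r, hr, hrx, ?_⟩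
    exact ((eS_mono hr (hQR.sub hq) hrq).trans (eS_sub hQR hQ hq)).trans (le_rb ⟨hq, hFq, hs⟩)

/-- The name over `Q` for the real with the values `b`. -/
def Fb (Q : Sw D.U) (b : ℕ → D.B) (z : D.U) (s : List Bool) : Prop :=
  z ∈ Q.X ∧ eS Q z ≤ strv s b

/-- `reg`: `eS_le_of_dense`; `coh`: `strv_disj`, `eS_ne_bot`; `dens`: by induction on `n`, with
`strv_append`. -/
theorem Fb_rn {Q : Sw D.U} (hQ : Q.Small) {b : ℕ → D.B} (hb : ∀ n, Cap Q (b n)) :
    RN Q (Fb Q b) where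
  sub := fun q s h => h.1
  low := fun q s h q' hq' hle => ⟨hq', (eS_mono hq' h.1 hle).trans h.2⟩
  reg := by
    intro q hq s h
    refine ⟨hq, eS_le_of_dense hQ hq fun x' hx' hle => ?_⟩
    obtain ⟨y, hy, hyx, h1⟩ := h x' hx' hle
    exact ⟨y, hy, hyx, h1.2⟩
  pre := fun q s s' h hs => ⟨h.1, h.2.trans (strv_mono hs b)⟩
  coh := by
    intro q s s' h h'
    by_contra hne
    apply eS_ne_bot h.1 hQ
    rw [← le_bot_iff, ← strv_disj hne b]
    exact le_inf h.2 h'.2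
  dens := by
    intro q hq n
    induction n with
    | zero => exact ⟨q, hq, Q.refl q hq, [], rfl, hq, by rw [strv_nil]; exact le_top⟩
    | succ n ih =>
      obtain ⟨y, hy, hyq, s, hs, hys⟩ := ih
      obtain ⟨z, hz, hzy, hzb⟩ := hb n y hy
      have h1 : eS Q z ≤ strv s b := (eS_mono hz hy hzy).trans hys.2
      have hzq : Q.le z q := Q.trans _ hz _ hy _ hq hzy hyq
      rcases hzb with hzb | hzb
      · refine ⟨z, hz, hzq, s ++ [true], by simp [hs], hz, ?_⟩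
        rw [strv_append, if_pos rfl, hs]
        exact le_inf h1 hzb
      · refine ⟨z, hz, hzq, s ++ [false], by simp [hs], hz, ?_⟩
        rw [strv_append, if_neg Bool.false_ne_true, hs]
        exact le_inf h1 hzb

theorem rb_Fb {Q : Sw D.U} (hQ : Q.Small) {b : ℕ → D.B} (hb : ∀ n, Cap Q (b n)) :
    eS Q Q.top ≤ eqB (S := D.sys) (rb Q (Fb Q b)) b := by
  refine le_iInf fun n => le_inf ?_ ?_
  · rw [le_himp_iff]
    refine inf_le_right.trans (rb_le fun z s hz hF hs => ?_)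
    obtain ⟨hi, hs'⟩ := List.getElem?_eq_some_iff.1 hs
    have h1 := hF.2.trans (strv_le hi b)
    rwa [if_pos hs'] at h1
  · rw [le_himp_iff]
    refine eS_inf_le_of_dense hQ Q.top_mem (hb n) fun x' hx' _ hxb => ?_
    obtain ⟨y, hy, hyx, s, hs, hFs⟩ := (Fb_rn hQ hb).dens x' hx' (n + 1)
    exact ⟨y, hy, hyx, le_rb ⟨hy, hFs, le_of_strv hy hQ (by omega) hFs.2
      ((eS_mono hy hx' hyx).trans hxb)⟩⟩

/-- extensions of `Fb` -/
theorem extF_Fb {Q R : Sw D.U} (hQ : Q.Small) (hR : R.Small) (hQR : Q.Sub R) {b : ℕ → D.B}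
    (hb : ∀ n, Cap Q (b n)) (x : D.U) (s : List Bool) : extF Q R (Fb Q b) x s ↔ Fb R b x s := by
  constructor
  · rintro ⟨hx, h⟩
    refine ⟨hx, eS_le_of_dense hR hx fun x' hx' hle => ?_⟩
    obtain ⟨r, hr, hrx, q, hq, hrq, hF⟩ := h x' hx' hle
    exact ⟨r, hr, hrx, ((eS_mono hr (hQR.sub hq) hrq).trans (eS_sub hQR hQ hq)).trans hF.2⟩
  · rintro ⟨hx, h⟩
    refine ⟨hx, fun x' hx' hle => ?_⟩
    obtain ⟨w, hw, hred⟩ := hQR.red x' hx'
    obtain ⟨q, hq, hqw, t, ht, hF⟩ := (Fb_rn hQ hb).dens w hw s.length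
    obtain ⟨r, hr, hrq, hrx⟩ := hred q hq hqw
    refine ⟨r, hr, hrx, q, hq, hrq, ?_⟩
    have h1 : eS R r ≤ strv t b :=
      ((eS_mono hr (hQR.sub hq) hrq).trans (eS_sub hQR hQ hq)).trans hF.2
    have h2 : eS R r ≤ strv s b := (eS_mono hr hx (R.trans _ hr _ hx' _ hx hrx hle)).trans h
    obtain rfl : t = s := eq_of_le_strv hr hR h1 h2 ht
    exact hF

end Setup

end Pool.Agent.Lib.BPLM
end

section

section

/-!
# Adding dummies to a sweet preorder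
-/

set_option autoImplicit false

open Set

namespace Pool.Agent.Lib.BPLM

open Classical in
/-- the retraction to the old elements -/
private noncomputable def dρ {U : Type} (S : Sw U) (x : U) : U := if x ∈ S.X then x else S.top

open Classical in
/-- the codes -/
private noncomputable def dcd {U : Type} (S : Sw U) (n : ℕ) (x : U) : ℕ :=
  if x ∈ S.X then S.cd n x + 1 else 0

private theorem dρ_mem {U : Type} (S : Sw U) (x : U) : dρ S x ∈ S.X := by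
  unfold dρ
  split_ifs with h
  · exact h
  · exact S.top_mem

private theorem dρ_of {U : Type} {S : Sw U} {x : U} (h : x ∈ S.X) : dρ S x = x := if_pos h

private theorem dρ_not {U : Type} {S : Sw U} {x : U} (h : x ∉ S.X) : dρ S x = S.top := if_neg h

private theorem dcd_of {U : Type} {S : Sw U} {x : U} (n : ℕ) (h : x ∈ S.X) :
    dcd S n x = S.cd n x + 1 := if_pos h

private theorem dcd_not {U : Type} {S : Sw U} {x : U} (n : ℕ) (h : x ∉ S.X) : dcd S n x = 0 :=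
  if_neg h

/-- Elements with the same code are both old or both new. -/
private theorem dcd_eq {U : Type} {S : Sw U} {x y : U} {n : ℕ} (h : dcd S n x = dcd S n y) :
    (x ∈ S.X ∧ y ∈ S.X ∧ S.cd n x = S.cd n y) ∨ (x ∉ S.X ∧ y ∉ S.X) := by
  by_cases hx : x ∈ S.X
  · by_cases hy : y ∈ S.X
    · rw [dcd_of n hx, dcd_of n hy] at h
      exact Or.inl ⟨hx, hy, by omega⟩
    · rw [dcd_of n hx, dcd_not n hy] at h
      omega
  · by_cases hy : y ∈ S.X
    · rw [dcd_not n hx, dcd_of n hy] at h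
      omega
    · exact Or.inr ⟨hx, hy⟩

private theorem dcd_ρ {U : Type} {S : Sw U} {x y : U} {n : ℕ} (h : dcd S n x = dcd S n y) :
    S.cd n (dρ S x) = S.cd n (dρ S y) := by
  rcases dcd_eq h with ⟨h1, h2, h3⟩ | ⟨h1, h2⟩
  · rw [dρ_of h1, dρ_of h2, h3]
  · rw [dρ_not h1, dρ_not h2]

/-- the extension -/
private noncomputable def dSw {U : Type} (S : Sw U) (A : Set U) : Sw U where
  X := S.X ∪ A
  top := S.top
  le x y := S.le (dρ S x) (dρ S y)
  cd := dcd S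
  top_mem := Or.inl S.top_mem
  refl x _ := S.refl _ (dρ_mem S x)
  trans x _ y _ z _ h h' := S.trans _ (dρ_mem S x) _ (dρ_mem S y) _ (dρ_mem S z) h h'
  le_top x _ := by
    rw [dρ_of S.top_mem]
    exact S.le_top _ (dρ_mem S x)
  sep x hx y hy h := by
    refine S.sep _ (dρ_mem S x) _ (dρ_mem S y) fun z hz hzx => ?_
    obtain ⟨w, hw, h1, h2⟩ := h z (Or.inl hz) (by rw [dρ_of hz]; exact hzx)
    rw [dρ_of hz] at h1
    exact ⟨dρ S w, dρ_mem S w, h1, h2⟩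
  mono n x hx y hy h := by
    rcases dcd_eq h with ⟨h1, h2, h3⟩ | ⟨h1, h2⟩
    · rw [dcd_of n h1, dcd_of n h2, S.mono n x h1 y h2 h3]
    · rw [dcd_not n h1, dcd_not n h2]
  dir n x hx y hy h := by
    rcases dcd_eq h with ⟨h1, h2, h3⟩ | ⟨h1, h2⟩
    · obtain ⟨z, hz, h4, h5, h6⟩ := S.dir n x h1 y h2 h3
      refine ⟨z, Or.inl hz, ?_, ?_, ?_⟩
      · rw [dρ_of hz, dρ_of h1]; exact h4
      · rw [dρ_of hz, dρ_of h2]; exact h5
      · rw [dcd_of n hz, dcd_of n h1, h6]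
    · refine ⟨x, hx, S.refl _ (dρ_mem S x), ?_, rfl⟩
      rw [dρ_not h1, dρ_not h2]
      exact S.refl _ S.top_mem
  lim x y hx hy h n := by
    by_cases hyS : y ∈ S.X
    · have h1 : ∀ i, x i ∈ S.X ∧ S.cd i (x i) = S.cd i y := by
        intro i
        rcases dcd_eq (h i) with ⟨h1, _, h3⟩ | ⟨_, h2⟩
        · exact ⟨h1, h3⟩
        · exact absurd hyS h2
      obtain ⟨r, hr, h2, h3⟩ := S.lim x y (fun i => (h1 i).1) hyS (fun i => (h1 i).2) n
      refine ⟨r, Or.inl hr, fun i hi => ?_, ?_⟩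
      · rw [dρ_of hr, dρ_of (h1 i).1]
        exact h2 i hi
      · rw [dcd_of n hr, dcd_of n hyS, h3]
    · refine ⟨y, hy, fun i _ => ?_, rfl⟩
      rcases dcd_eq (h i) with ⟨_, h2, _⟩ | ⟨h1, _⟩
      · exact absurd h2 hyS
      · rw [dρ_not hyS, dρ_not h1]
        exact S.refl _ S.top_mem
  W ι _ L y₀ hL hy₀ hle := by
    obtain ⟨y, hy, h1, h2⟩ := S.W ι (fun i => dρ S (L i)) (dρ S y₀) (fun i => dρ_mem S _)
      (dρ_mem S y₀) hle
    refine ⟨y, Or.inl hy, by rw [dρ_of hy]; exact h1, fun n => ?_⟩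
    obtain ⟨k, hk⟩ := h2 n
    refine ⟨k, fun L' hL' hc => ?_⟩
    obtain ⟨y', hy', h3, h4⟩ := hk (fun i => dρ S (L' i)) (fun i => dρ_mem S _)
      (fun i => dcd_ρ (hc i))
    refine ⟨y', Or.inl hy', fun i => by show S.le (dρ S y') _; rw [dρ_of hy']; exact h3 i, ?_⟩
    rw [dcd_of n hy', dcd_of n hy, h4]
  iso x hx h := by
    rcases dcd_eq h with ⟨h1, _, h3⟩ | ⟨_, h2⟩
    · exact S.iso x h1 h3
    · exact absurd S.top_mem h2

/-- (A2) Adding dummies: every new element is equivalent to the top in the order, and all new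
elements form one `E_n`-class for every `n`.

Proof. Let `ρ x = x` if `x ∈ S.X` and `ρ x = S.top` otherwise. `T.X = S.X ∪ A`,
`T.le x y ↔ S.le (ρ x) (ρ y)`, `T.cd n x = S.cd n x + 1` if `x ∈ S.X`, `0` otherwise.
* dir, lim for new elements: take the element itself.
* W: apply `W` of `S` to `ρ ∘ L` and `ρ y₀`; if `T.cd k (L' i) = T.cd k (L i)` then `L' i` is new
  iff `L i` is, and `S.cd k (ρ (L' i)) = S.cd k (ρ (L i))`.
* `S.Sub T`: a reduction of a new element is `S.top`. -/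
theorem exists_dummy {U : Type} (S : Sw U) (A : Set U) :
    ∃ T : Sw U, T.X = S.X ∪ A ∧ S.Sub T := by
  refine ⟨dSw S A, rfl, ⟨subset_union_left, rfl, ?_, ?_, ?_, ?_, ?_⟩⟩
  · intro x hx y hy
    show S.le (dρ S x) (dρ S y) ↔ _
    rw [dρ_of hx, dρ_of hy]
  · rintro x hx y hy ⟨z, _, h1, h2⟩
    refine ⟨dρ S z, dρ_mem S z, ?_, ?_⟩
    · have h3 : S.le (dρ S z) (dρ S x) := h1
      rwa [dρ_of hx] at h3
    · have h3 : S.le (dρ S z) (dρ S y) := h2
      rwa [dρ_of hy] at h3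
  · intro n x hx y hy
    show dcd S n x = dcd S n y ↔ _
    rw [dcd_of n hx, dcd_of n hy]
    omega
  · intro x hx y _ h
    have h' : dcd S 0 x = dcd S 0 y := h
    rcases dcd_eq h' with ⟨_, h2, _⟩ | ⟨h1, _⟩
    · exact h2
    · exact absurd hx h1
  · intro y _
    refine ⟨dρ S y, dρ_mem S y, fun x' hx' hle => ⟨x', Or.inl hx', S.refl _ (dρ_mem S x'), ?_⟩⟩
    show S.le (dρ S x') (dρ S y)
    rw [dρ_of hx']
    exact hle

/-- the dummy extension of a small preorder by a small set is small -/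
theorem exists_dummy_small {U : Type} (S : Sw U) (hS : S.Small) (A : Set U)
    (hA : Cardinal.mk A ≤ Cardinal.continuum) :
    ∃ T : Sw U, T.Small ∧ S.X ⊆ T.X ∧ A ⊆ T.X ∧ S.Sub T := by
  obtain ⟨T, hT, hsub⟩ := exists_dummy S A
  refine ⟨T, ?_, by rw [hT]; exact subset_union_left, by rw [hT]; exact subset_union_right, hsub⟩
  unfold Sw.Small
  rw [hT]
  calc Cardinal.mk ↑(S.X ∪ A) ≤ Cardinal.mk S.X + Cardinal.mk A := Cardinal.mk_union_le _ _
    _ ≤ Cardinal.continuum + Cardinal.continuum := add_le_add hS hA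
    _ = Cardinal.continuum := Cardinal.continuum_add_self

end Pool.Agent.Lib.BPLM
end

section

/-!
# Making a Cohen real full
-/

set_option autoImplicit false

open Set

namespace Pool.Agent.Lib.BPLM

variable {U : Type}

/-- The new name over `Q × Cohen(e)`: `y' = y` if `q, p ∈ G`, `s ⊂ y` and `s ⊂ e`; `y' = e`
otherwise. -/
def fullF (Q : Sw U) (F : U → List Bool → Prop) (q p : U) (s : List Bool)
    (a : U × List Bool) (u : List Bool) : Prop :=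
  a.1 ∈ Q.X ∧ ∀ b : U × List Bool, b.1 ∈ Q.X → Q.cohen.le b a →
    ∃ c : U × List Bool, c.1 ∈ Q.X ∧ Q.cohen.le c b ∧
      ((Q.le c.1 q ∧ Q.le c.1 p ∧ F c.1 s ∧ s <+: c.2 ∧ F c.1 u) ∨
        ((∀ d : U × List Bool, d.1 ∈ Q.X → Q.cohen.le d c →
          ¬ (Q.le d.1 q ∧ Q.le d.1 p ∧ F d.1 s ∧ s <+: d.2)) ∧ u <+: c.2))

/-- first kind: the condition is below `q`, `p` and forces `s` and `u` -/
private def K1 (Q : Sw U) (F : U → List Bool → Prop) (q p : U) (s : List Bool)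
    (c : U × List Bool) (u : List Bool) : Prop :=
  Q.le c.1 q ∧ Q.le c.1 p ∧ F c.1 s ∧ s <+: c.2 ∧ F c.1 u

/-- second kind: no extension is good, and the Cohen part extends `u` -/
private def K2 (Q : Sw U) (F : U → List Bool → Prop) (q p : U) (s : List Bool)
    (c : U × List Bool) (u : List Bool) : Prop :=
  (∀ d : U × List Bool, d.1 ∈ Q.X → Q.cohen.le d c →
    ¬ (Q.le d.1 q ∧ Q.le d.1 p ∧ F d.1 s ∧ s <+: d.2)) ∧ u <+: c.2

private theorem cle {Q : Sw U} (a b : U × List Bool) :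
    Q.cohen.le a b ↔ Q.le a.1 b.1 ∧ b.2 <+: a.2 := Iff.rfl

private theorem cle_refl {Q : Sw U} {a : U × List Bool} (ha : a.1 ∈ Q.X) : Q.cohen.le a a :=
  ⟨Q.refl _ ha, List.prefix_refl _⟩

private theorem cle_trans {Q : Sw U} {a b c : U × List Bool} (ha : a.1 ∈ Q.X) (hb : b.1 ∈ Q.X)
    (hc : c.1 ∈ Q.X) (h1 : Q.cohen.le a b) (h2 : Q.cohen.le b c) : Q.cohen.le a c :=
  ⟨Q.trans _ ha _ hb _ hc h1.1 h2.1, h2.2.trans h1.2⟩

private theorem K1.low {Q : Sw U} {F : U → List Bool → Prop} (hF : RN Q F) {q p : U}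
    (hq : q ∈ Q.X) (hp : p ∈ Q.X) {s : List Bool} {c c' : U × List Bool} {u : List Bool}
    (hc : c.1 ∈ Q.X) (hc' : c'.1 ∈ Q.X) (h : Q.cohen.le c' c) (hK : K1 Q F q p s c u) :
    K1 Q F q p s c' u := by
  obtain ⟨h1, h2, h3, h4, h5⟩ := hK
  exact ⟨Q.trans _ hc' _ hc _ hq h.1 h1, Q.trans _ hc' _ hc _ hp h.1 h2, hF.low _ _ h3 _ hc' h.1,
    h4.trans h.2, hF.low _ _ h5 _ hc' h.1⟩

private theorem K2.low {Q : Sw U} {F : U → List Bool → Prop} {q p : U} {s : List Bool}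
    {c c' : U × List Bool} {u : List Bool}
    (hc : c.1 ∈ Q.X) (hc' : c'.1 ∈ Q.X) (h : Q.cohen.le c' c) (hK : K2 Q F q p s c u) :
    K2 Q F q p s c' u :=
  ⟨fun d hd hdc => hK.1 d hd (cle_trans hd hc' hc hdc h), hK.2.trans h.2⟩

private theorem fullF_of_K1 {Q : Sw U} {F : U → List Bool → Prop} (hF : RN Q F) {q p : U}
    (hq : q ∈ Q.X) (hp : p ∈ Q.X) {s : List Bool} {c : U × List Bool} {u : List Bool}
    (hc : c.1 ∈ Q.X) (hK : K1 Q F q p s c u) : fullF Q F q p s c u :=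
  ⟨hc, fun b hb hbc => ⟨b, hb, cle_refl hb, Or.inl (hK.low hF hq hp hc hb hbc)⟩⟩

private theorem fullF_of_K2 {Q : Sw U} {F : U → List Bool → Prop} {q p : U}
    {s : List Bool} {c : U × List Bool} {u : List Bool}
    (hc : c.1 ∈ Q.X) (hK : K2 Q F q p s c u) : fullF Q F q p s c u :=
  ⟨hc, fun b hb hbc => ⟨b, hb, cle_refl hb, Or.inr (hK.low hc hb hbc)⟩⟩

private theorem fullF_def {Q : Sw U} {F : U → List Bool → Prop} {q p : U} {s : List Bool}
    {a : U × List Bool} {u : List Bool} : fullF Q F q p s a u ↔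
    a.1 ∈ Q.X ∧ ∀ b : U × List Bool, b.1 ∈ Q.X → Q.cohen.le b a →
      ∃ c : U × List Bool, c.1 ∈ Q.X ∧ Q.cohen.le c b ∧ (K1 Q F q p s c u ∨ K2 Q F q p s c u) :=
  Iff.rfl

/-- `fullF` is a name for a real over `Q × Cohen`.
* coh: given `F' a u`, `F' a u'`, take a common `c` for both (apply the property of `u` to `a`, then
  that of `u'` to the result): the two cases of the disjunction cannot mix.
* dens: every `b` has an extension `c` of one of the two kinds: either some extension is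
  `≤ q, p`, forces `s ⊂ y`, `s ⊂ e`, and deciding `y` further (`RN.dens`) gives the first kind,
  or no extension is, and we extend the second coordinate. -/
theorem fullF_rn {Q : Sw U} {F : U → List Bool → Prop} (hF : RN Q F) {q p : U} (hq : q ∈ Q.X)
    (hp : p ∈ Q.X) (s : List Bool) : RN Q.cohen (fullF Q F q p s) := by
  constructor
  · intro a u h
    exact h.1
  · intro a u h a' ha' hle
    exact ⟨ha', fun b hb hba => h.2 b hb (cle_trans hb ha' h.1 hba hle)⟩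
  · intro a ha u h
    refine ⟨ha, fun b hb hba => ?_⟩
    obtain ⟨a'', ha'', hle, hf⟩ := h b hb hba
    obtain ⟨c, hc, hca, hK⟩ := hf.2 a'' ha'' (cle_refl ha'')
    exact ⟨c, hc, cle_trans hc ha'' hb hca hle, hK⟩
  · intro a u u' h hu
    refine ⟨h.1, fun b hb hba => ?_⟩
    obtain ⟨c, hc, hcb, hK⟩ := h.2 b hb hba
    refine ⟨c, hc, hcb, ?_⟩
    rcases hK with ⟨h1, h2, h3, h4, h5⟩ | ⟨h1, h2⟩
    · exact Or.inl ⟨h1, h2, h3, h4, hF.pre _ _ _ h5 hu⟩
    · exact Or.inr ⟨h1, hu.trans h2⟩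
  · intro a u u' h h'
    obtain ⟨c, hc, hca, hK⟩ := (fullF_def.1 h).2 a h.1 (cle_refl h.1)
    obtain ⟨c', hc', hcc, hK'⟩ := (fullF_def.1 h').2 c hc hca
    rcases hK with hK | hK
    · have hK1 := hK.low hF hq hp hc hc' hcc
      rcases hK' with hK' | hK'
      · exact hF.coh _ _ _ hK1.2.2.2.2 hK'.2.2.2.2
      · exact absurd ⟨hK1.1, hK1.2.1, hK1.2.2.1, hK1.2.2.2.1⟩ (hK'.1 c' hc' (cle_refl hc'))
    · have hK2 := hK.low hc hc' hcc
      rcases hK' with hK' | hK'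
      · exact absurd ⟨hK'.1, hK'.2.1, hK'.2.2.1, hK'.2.2.2.1⟩ (hK2.1 c' hc' (cle_refl hc'))
      · exact List.prefix_or_prefix_of_prefix hK2.2 hK'.2
  · intro a ha n
    by_cases hA : ∃ d : U × List Bool, d.1 ∈ Q.X ∧ Q.cohen.le d a ∧
      (Q.le d.1 q ∧ Q.le d.1 p ∧ F d.1 s ∧ s <+: d.2)
    · obtain ⟨d, hd, hda, h1, h2, h3, h4⟩ := hA
      obtain ⟨q', hq', hle, u, hu, hFu⟩ := hF.dens d.1 hd n
      refine ⟨(q', d.2), hq', cle_trans (a := (q', d.2)) hq' hd ha ⟨hle, List.prefix_refl _⟩ hda,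
        u, hu, ?_⟩
      exact fullF_of_K1 hF hq hp hq' ⟨Q.trans _ hq' _ hd _ hq hle h1,
        Q.trans _ hq' _ hd _ hp hle h2, hF.low _ _ h3 _ hq' hle, h4, hFu⟩
    · have hle : Q.cohen.le (a.1, a.2 ++ List.replicate n false) a :=
        ⟨Q.refl _ ha, List.prefix_append _ _⟩
      refine ⟨(a.1, a.2 ++ List.replicate n false), ha, hle,
        (a.2 ++ List.replicate n false).take n, ?_, ?_⟩
      · rw [List.length_take, List.length_append, List.length_replicate]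
        omega
      · refine fullF_of_K2 ha ⟨fun d hd hdc hG => hA ⟨d, hd,
          cle_trans (b := (a.1, a.2 ++ List.replicate n false)) hd ha ha hdc hle, hG⟩, ?_⟩
        exact List.take_prefix _ _

/-- (C2), abstract form. Assumption `hps`: every extension of `(p, s)` in `P × 2^{<ω}` is
compatible with `q` (together with the name `F`), and below `q` every dense subset of
`P × 2^{<ω}` is met.

* pos: given `(p₁, s₁)`. If `(p₁,s₁)` and `(p,s)` have a common extension `(p',s')`, let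
  `w ≤ q, p'` with `F w s'`; take `(w, s)`: it forces `y' = y`. Otherwise take `(p₁, s₁)`
  itself: no extension `d` is `≤ p` with `s <+: d.2` (if `d.1 ≤ p, p₁` in `Q`, then `p, p₁` are
  compatible in `P`, and `s`, `s₁` are both prefixes of `d.2`), so it forces `y' = e ⊃ s₁`.
* meet: given `Z` dense and `(x, t)`. If some extension `(x', t')` is `≤ q, p`, forces `s` and
  `s <+: t'`: use `hmeet` at `x' ≤ q`. Otherwise let `r ∈ P.X` be a reduction of `x`,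
  `(p₁, s₁) ∈ Z` with `p₁ ≤ r`, `t <+: s₁`, and `x'' ≤ x, p₁`; take `(x'', s₁)`. -/
theorem fullF_full {P Q : Sw U} (hPQ : P.Sub Q) {F : U → List Bool → Prop} (hF : RN Q F)
    {q p : U} (hq : q ∈ Q.X) (hp : p ∈ P.X) (s : List Bool)
    (hps : ∀ p' ∈ P.X, P.le p' p → ∀ s', s <+: s' → ∃ w ∈ Q.X, Q.le w q ∧ Q.le w p' ∧ F w s')
    (hmeet : ∀ Z, DenseZ P Z → ∀ q' ∈ Q.X, Q.le q' q → ∃ q'' ∈ Q.X, Q.le q'' q' ∧
      ∃ a ∈ Z, a.1 ∈ P.X ∧ Q.le q'' a.1 ∧ F q'' a.2) :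
    (∀ p₁ ∈ P.X, ∀ s₁, ∃ a ∈ Q.cohen.X, Q.cohen.le a (p₁, []) ∧ fullF Q F q p s a s₁) ∧
    (∀ Z, DenseZ P Z → ∀ a ∈ Q.cohen.X, ∃ a' ∈ Q.cohen.X, Q.cohen.le a' a ∧
      ∃ b ∈ Z, b.1 ∈ P.X ∧ Q.cohen.le a' (b.1, []) ∧ fullF Q F q p s a' b.2) ∧
    (∀ z ∈ Q.X, Q.le z q → Q.le z p → F z s → ∀ a ∈ Q.cohen.X, Q.cohen.le a (z, s) →
      ∀ u, fullF Q F q p s a u ↔ F a.1 u) := by
  have hpQ : p ∈ Q.X := hPQ.sub hp
  refine ⟨?_, ?_, ?_⟩
  · intro p₁ hp₁ s₁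
    have hp₁Q : p₁ ∈ Q.X := hPQ.sub hp₁
    by_cases hA : ∃ p' ∈ P.X, ∃ s' : List Bool, P.le p' p ∧ P.le p' p₁ ∧ s <+: s' ∧ s₁ <+: s'
    · obtain ⟨p', hp', s', h1, h2, h3, h4⟩ := hA
      obtain ⟨w, hw, hwq, hwp', hFw⟩ := hps p' hp' h1 s' h3
      have hp'Q : p' ∈ Q.X := hPQ.sub hp'
      refine ⟨(w, s), hw, ⟨Q.trans _ hw _ hp'Q _ hp₁Q hwp' ((hPQ.le_iff _ hp' _ hp₁).2 h2),
        List.nil_prefix⟩, ?_⟩
      exact fullF_of_K1 hF hq hpQ hw ⟨hwq, Q.trans _ hw _ hp'Q _ hpQ hwp'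
        ((hPQ.le_iff _ hp' _ hp).2 h1), hF.pre _ _ _ hFw h3, List.prefix_refl _,
        hF.pre _ _ _ hFw h4⟩
    · refine ⟨(p₁, s₁), hp₁Q, ⟨Q.refl _ hp₁Q, List.nil_prefix⟩, ?_⟩
      refine fullF_of_K2 hp₁Q ⟨fun d hd hdc hG => hA ?_, List.prefix_refl _⟩
      obtain ⟨p', hp', h1, h2⟩ := hPQ.cmp_of p hp p₁ hp₁ ⟨d.1, hd, hG.2.1, hdc.1⟩
      rcases List.prefix_or_prefix_of_prefix hG.2.2.2 hdc.2 with h3 | h3
      · exact ⟨p', hp', s₁, h1, h2, h3, List.prefix_refl _⟩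
      · exact ⟨p', hp', s, h1, h2, List.prefix_refl _, h3⟩
  · intro Z hZ a ha
    have haQ : a.1 ∈ Q.X := ha
    by_cases hA : ∃ d : U × List Bool, d.1 ∈ Q.X ∧ Q.cohen.le d a ∧
      (Q.le d.1 q ∧ Q.le d.1 p ∧ F d.1 s ∧ s <+: d.2)
    · obtain ⟨d, hd, hda, h1, h2, h3, h4⟩ := hA
      obtain ⟨q'', hq'', hle, b, hb, hbP, hqb, hFb⟩ := hmeet Z hZ d.1 hd h1
      refine ⟨(q'', d.2), hq'', cle_trans (a := (q'', d.2)) hq'' hd haQ
        ⟨hle, List.prefix_refl _⟩ hda, b, hb, hbP, ⟨hqb, List.nil_prefix⟩, ?_⟩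
      exact fullF_of_K1 hF hq hpQ hq'' ⟨Q.trans _ hq'' _ hd _ hq hle h1,
        Q.trans _ hq'' _ hd _ hpQ hle h2, hF.low _ _ h3 _ hq'' hle, h4, hFb⟩
    · obtain ⟨r, hr, hred⟩ := hPQ.red a.1 haQ
      obtain ⟨b, hb, hbP, hbr, htb⟩ := hZ r hr a.2
      obtain ⟨x, hx, hxb, hxa⟩ := hred b.1 hbP hbr
      have hle : Q.cohen.le (x, b.2) a := ⟨hxa, htb⟩
      refine ⟨(x, b.2), hx, hle, b, hb, hbP, ⟨hxb, List.nil_prefix⟩, ?_⟩
      exact fullF_of_K2 hx ⟨fun d hd hdc hG => hA ⟨d, hd, cle_trans (b := (x, b.2)) hd hx haQ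
        hdc hle, hG⟩, List.prefix_refl _⟩
  · intro z hz hzq hzp hFz a ha hle u
    have haQ : a.1 ∈ Q.X := ha
    have hG : ∀ c : U × List Bool, c.1 ∈ Q.X → Q.cohen.le c a →
        (Q.le c.1 q ∧ Q.le c.1 p ∧ F c.1 s ∧ s <+: c.2) := by
      intro c hc hca
      have h : Q.cohen.le c (z, s) := cle_trans (c := (z, s)) hc haQ hz hca hle
      exact ⟨Q.trans _ hc _ hz _ hq h.1 hzq, Q.trans _ hc _ hz _ hpQ h.1 hzp,
        hF.low _ _ hFz _ hc h.1, h.2⟩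
    constructor
    · intro h
      refine hF.reg _ haQ _ fun q' hq' hq'a => ?_
      have hb : Q.cohen.le (q', a.2) a := ⟨hq'a, List.prefix_refl _⟩
      obtain ⟨c, hc, hcb, hK⟩ := (fullF_def.1 h).2 (q', a.2) hq' hb
      refine ⟨c.1, hc, hcb.1, ?_⟩
      rcases hK with hK | hK
      · exact hK.2.2.2.2
      · exact absurd (hG c hc (cle_trans (b := (q', a.2)) hc hq' haQ hcb hb))
          (hK.1 c hc (cle_refl hc))
    · intro h
      obtain ⟨h1, h2, h3, h4⟩ := hG a haQ (cle_refl haQ)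
      exact fullF_of_K1 hF hq hpQ haQ ⟨h1, h2, h3, h4, h⟩

/-- transport of a name along an injection -/
private theorem RN.mapF {V : Type} {S : Sw V} {F : V → List Bool → Prop} (h : RN S F) (f : V → U)
    (hf : InjOn f S.X) : RN (S.map f hf) (fun y u => ∃ a ∈ S.X, f a = y ∧ F a u) := by
  have hmem : ∀ y, y ∈ (S.map f hf).X → ∃ a ∈ S.X, f a = y := fun y hy => hy
  have hmem' : ∀ a ∈ S.X, f a ∈ (S.map f hf).X := fun a ha => ⟨a, ha, rfl⟩
  constructor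
  · rintro _ s ⟨a, ha, rfl, -⟩
    exact hmem' a ha
  · rintro _ s ⟨a, ha, rfl, hFa⟩ y hy hle
    obtain ⟨b, hb, rfl⟩ := hmem y hy
    exact ⟨b, hb, rfl, h.low _ _ hFa _ hb ((S.map_le f hf hb ha).1 hle)⟩
  · intro y hy s hd
    obtain ⟨a, ha, rfl⟩ := hmem y hy
    refine ⟨a, ha, rfl, h.reg a ha s fun b hb hba => ?_⟩
    obtain ⟨y'', hy'', hle, c, hc, rfl, hFc⟩ := hd (f b) (hmem' b hb) ((S.map_le f hf hb ha).2 hba)
    exact ⟨c, hc, (S.map_le f hf hc hb).1 hle, hFc⟩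
  · rintro _ s s' ⟨a, ha, rfl, hFa⟩ hs
    exact ⟨a, ha, rfl, h.pre _ _ _ hFa hs⟩
  · rintro _ s s' ⟨a, ha, rfl, hFa⟩ ⟨b, hb, hab, hFb⟩
    have := hf hb ha hab
    subst this
    exact h.coh _ _ _ hFa hFb
  · intro y hy n
    obtain ⟨a, ha, rfl⟩ := hmem y hy
    obtain ⟨b, hb, hba, s, hs, hFb⟩ := h.dens a ha n
    exact ⟨f b, hmem' b hb, (S.map_le f hf hb ha).2 hba, s, hs, b, hb, rfl, hFb⟩

/-- (C2). Choose `(p, s)` all whose extensions are compatible with `q` (if there were none, the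
set `Z` of all `(p', s')`, `p' ∈ P.X`, not compatible with `q` would be dense, contradicting
`hmeet`); let `z ≤ q, p` with `F z s`. Use `fullF_full` and place `Q.cohen` into `U` by
`Sw.exists_place_sub` (with `j x = (x, [])`, `cohen_sub`, `cohen_small`); `F' = fullF` transported,
`q' =` the image of `(z, s)`. -/
theorem exists_full (hU : Cardinal.continuum < Cardinal.mk U) {P Q : Sw U} (hPQ : P.Sub Q)
    (hQ : Q.Small) {F : U → List Bool → Prop} (hF : RN Q F) {q : U} (hq : q ∈ Q.X)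
    (hmeet : ∀ Z, DenseZ P Z → ∀ q' ∈ Q.X, Q.le q' q → ∃ q'' ∈ Q.X, Q.le q'' q' ∧
      ∃ a ∈ Z, a.1 ∈ P.X ∧ Q.le q'' a.1 ∧ F q'' a.2) :
    ∃ (Q' : Sw U) (F' : U → List Bool → Prop) (q' : U), Q'.Small ∧ Q.Sub Q' ∧ Full P Q' F' ∧
      q' ∈ Q'.X ∧ Q'.le q' q ∧ ∀ x ∈ Q'.X, Q'.le x q' → ∀ u, F' x u ↔ extF Q Q' F x u := by
  -- choice of `(p, s)`
  obtain ⟨p, hp, s, hps⟩ : ∃ p ∈ P.X, ∃ s : List Bool, ∀ p' ∈ P.X, P.le p' p → ∀ s', s <+: s' →
      ∃ w ∈ Q.X, Q.le w q ∧ Q.le w p' ∧ F w s' := by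
    by_contra hcon
    push Not at hcon
    obtain ⟨q'', hq'', hle, a, haZ, haP, hqa, hFa⟩ := hmeet
      {a : U × List Bool | a.1 ∈ P.X ∧ ¬ ∃ w ∈ Q.X, Q.le w q ∧ Q.le w a.1 ∧ F w a.2}
      (by
        intro p hp s
        obtain ⟨p', hp', hle, s', hs', hno⟩ := hcon p hp s
        refine ⟨(p', s'), ⟨hp', ?_⟩, hp', hle, hs'⟩
        rintro ⟨w, hw, h1, h2, h3⟩
        exact hno w hw h1 h2 h3) q hq (Q.refl _ hq)
    exact haZ.2 ⟨q'', hq'', hle, hqa, hFa⟩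
  have hpQ : p ∈ Q.X := hPQ.sub hp
  obtain ⟨z, hz, hzq, hzp, hFz⟩ := hps p hp (P.refl _ hp) s (List.prefix_refl _)
  obtain ⟨hpos, hmt, hbel⟩ := fullF_full hPQ hF hq hp s hps hmeet
  obtain ⟨f, hf, hfj, hsub, hsm, -⟩ := Sw.exists_place_sub hU Q hQ Q.cohen (Q.cohen_small hQ)
    (fun x : U => (x, ([] : List Bool))) Q.cohen_injOn Q.cohen_sub ∅ (by simp)
  have hmem' : ∀ a : U × List Bool, a.1 ∈ Q.X → f a ∈ (Q.cohen.map f hf).X :=
    fun a ha => ⟨a, ha, rfl⟩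
  -- the order in terms of `Q`
  have hle1 : ∀ a b : U × List Bool, a.1 ∈ Q.X → b.1 ∈ Q.X →
      ((Q.cohen.map f hf).le (f a) (f b) ↔ Q.cohen.le a b) :=
    fun a b ha hb => Q.cohen.map_le f hf ha hb
  have hle2 : ∀ (a : U × List Bool) (y : U), a.1 ∈ Q.X → y ∈ Q.X →
      ((Q.cohen.map f hf).le (f a) y ↔ Q.le a.1 y) := by
    intro a y ha hy
    have h := hle1 a (y, []) ha hy
    rw [hfj y hy] at h
    rw [h]
    exact ⟨fun h => h.1, fun h => ⟨h, List.nil_prefix⟩⟩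
  have hFi : ∀ (a : U × List Bool) (u : List Bool), a.1 ∈ Q.X →
      ((∃ b ∈ Q.cohen.X, f b = f a ∧ fullF Q F q p s b u) ↔ fullF Q F q p s a u) := by
    intro a u ha
    constructor
    · rintro ⟨b, hb, hba, h⟩
      rwa [← hf hb ha hba]
    · intro h
      exact ⟨a, ha, rfl, h⟩
  refine ⟨Q.cohen.map f hf, fun y u => ∃ a ∈ Q.cohen.X, f a = y ∧ fullF Q F q p s a u, f (z, s),
    hsm, hsub, ⟨hPQ.trans hsub, (fullF_rn hF hq hpQ s).mapF f hf, ?_, ?_⟩, hmem' _ hz,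
    (hle2 (z, s) q hz hq).2 hzq, ?_⟩
  · intro p₁ hp₁ s₁
    obtain ⟨a, ha, hle, hfa⟩ := hpos p₁ hp₁ s₁
    exact ⟨f a, hmem' a ha, (hle2 a p₁ ha (hPQ.sub hp₁)).2 hle.1, a, ha, rfl, hfa⟩
  · rintro Z hZ _ ⟨a, ha, rfl⟩
    obtain ⟨a', ha', hle, b, hb, hbP, hle', hfa'⟩ := hmt Z hZ a ha
    exact ⟨f a', hmem' a' ha', (hle1 a' a ha' ha).2 hle, b, hb, hbP,
      (hle2 a' b.1 ha' (hPQ.sub hbP)).2 hle'.1, a', ha', rfl, hfa'⟩
  · rintro _ ⟨a, ha, rfl⟩ hle u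
    have haQ : a.1 ∈ Q.X := ha
    have hle' := (hle1 a (z, s) ha hz).1 hle
    show (∃ b ∈ Q.cohen.X, f b = f a ∧ fullF Q F q p s b u) ↔ _
    rw [hFi a u haQ, hbel z hz hzq hzp hFz a ha hle' u]
    constructor
    · intro h
      refine ⟨hmem' a ha, ?_⟩
      rintro _ ⟨b, hb, rfl⟩ hba
      refine ⟨f b, hmem' b hb, (hle1 b b hb hb).2 (cle_refl hb), a.1, haQ, ?_, h⟩
      exact (hle2 b a.1 hb haQ).2 ((hle1 b a hb ha).1 hba).1
    · rintro ⟨-, h⟩
      refine hF.reg _ haQ _ fun q₁ hq₁ hq₁a => ?_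
      obtain ⟨_, ⟨c, hc, rfl⟩, hcb, y, hy, hcy, hFy⟩ := h (f (q₁, a.2)) (hmem' _ hq₁)
        ((hle1 (q₁, a.2) a hq₁ ha).2 ⟨hq₁a, List.prefix_refl _⟩)
      exact ⟨c.1, hc, ((hle1 c (q₁, a.2) hc hq₁).1 hcb).1,
        hF.low _ _ hFy _ hc ((hle2 c y hc hy).1 hcy)⟩

end Pool.Agent.Lib.BPLM
end

section

/-!
# Amalgamation of sweet preorders: the amalgam extends both sides
-/

set_option autoImplicit false

open Set

namespace Pool.Agent.Lib.BPLM

namespace AmData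

variable {U P₀ : Type} [Preorder P₀] (A : AmData U P₀)

theorem inl_injOn (X : Set U) : InjOn (Sum.inl : U → U ⊕ U × U) X :=
  fun _ _ _ _ h => Sum.inl_injective h

private theorem sb_refl {a : U × U} (ha : A.am a.1 a.2) : A.le0 a a :=
  ⟨A.Q₁.refl _ ha.1, A.Q₂.refl _ ha.2.1⟩

private theorem sb_trans {a b c : U × U} (ha : A.am a.1 a.2) (hb : A.am b.1 b.2)
    (hc : A.am c.1 c.2) (h : A.le0 a b) (h' : A.le0 b c) : A.le0 a c :=
  ⟨A.Q₁.trans _ ha.1 _ hb.1 _ hc.1 h.1 h'.1, A.Q₂.trans _ ha.2.1 _ hb.2.1 _ hc.2.1 h.2 h'.2⟩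

private theorem sb_rho_left {x : U} (hx : x ∈ A.Q₁.X) : A.ρ (.inl x) = (x, A.Q₂.top) :=
  if_pos hx

private theorem sb_rho_right {x : U} (hx : x ∉ A.Q₁.X) : A.ρ (.inl x) = (A.Q₁.top, x) :=
  if_neg hx

/-- for `x ∈ Q₂.X` the pairs `ρ (inl x)` and `(1, x)` are equivalent -/
private theorem sb_eqv {x : U} (hx : x ∈ A.Q₂.X) :
    A.les (A.ρ (.inl x)) (A.Q₁.top, x) ∧ A.les (A.Q₁.top, x) (A.ρ (.inl x)) := by
  by_cases h : x ∈ A.Q₁.X
  · rw [A.sb_rho_left h]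
    exact ⟨A.les_left_right (A.hd x h hx), A.les_right_left (A.hd x h hx)⟩
  · rw [A.sb_rho_right h]
    exact ⟨A.les_refl _, A.les_refl _⟩

/-- a general element of the amalgam is compatible with `b` iff there is a pair below both -/
theorem amSw_cmp (a b : U ⊕ U × U) (ha : a ∈ A.amSw.X) (hb : b ∈ A.amSw.X) :
    A.amSw.cmp a b ↔ ∃ e : U × U, A.am e.1 e.2 ∧ A.le0 e (A.ρ a) ∧ A.le0 e (A.ρ b) := by
  constructor
  · rintro ⟨z, hz, h1, h2⟩
    have h1' : A.les (A.ρ z) (A.ρ a) := h1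
    have h2' : A.les (A.ρ z) (A.ρ b) := h2
    have hz' := A.am_ρ z hz
    obtain ⟨e, he, he1, he2⟩ := h1' (A.ρ z) hz' (A.sb_refl hz')
    obtain ⟨e', he', he1', he2'⟩ := h2' e he he1
    exact ⟨e', he', A.sb_trans he' he (A.am_ρ a ha) he1' he2, he2'⟩
  · rintro ⟨e, he, h1, h2⟩
    exact ⟨.inr e, he, A.les_of_le0 he (A.am_ρ a ha) h1, A.les_of_le0 he (A.am_ρ b hb) h2⟩

/-- a pair below `ρ a` whose second coordinate is below `v` witnesses compatibility -/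
private theorem sb_cmp_right {a : U ⊕ U × U} (ha : a ∈ A.amSw.X) {v : U} (hv : v ∈ A.Q₂.X)
    {e : U × U} (he : A.am e.1 e.2) (h1 : A.le0 e (A.ρ a)) (h2 : A.Q₂.le e.2 v) :
    A.amSw.cmp a (.inl v) := by
  have h3 : A.le0 e (A.Q₁.top, v) := ⟨A.Q₁.le_top _ he.1, h2⟩
  obtain ⟨e', he', h4, h5⟩ := (A.sb_eqv hv).2 e he h3
  exact (A.amSw_cmp a (.inl v) ha (Or.inr hv)).2
    ⟨e', he', A.sb_trans he' he (A.am_ρ a ha) h4 h1, h5⟩

private theorem sb_cmp_left {a : U ⊕ U × U} (ha : a ∈ A.amSw.X) {v : U} (hv : v ∈ A.Q₁.X)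
    {e : U × U} (he : A.am e.1 e.2) (h1 : A.le0 e (A.ρ a)) (h2 : A.Q₁.le e.1 v) :
    A.amSw.cmp a (.inl v) := by
  refine (A.amSw_cmp a (.inl v) ha (Or.inl hv)).2 ⟨e, he, h1, ?_⟩
  rw [A.sb_rho_left hv]
  exact ⟨h2, A.Q₂.le_top _ he.2.1⟩

/-- below a pair below `ρ (inl x)`, `x ∈ Q₂.X`, there is one with second coordinate below `x` -/
private theorem sb_below {x : U} (hx : x ∈ A.Q₂.X) {e : U × U} (he : A.am e.1 e.2)
    (h : A.le0 e (A.ρ (.inl x))) : ∃ e' : U × U, A.am e'.1 e'.2 ∧ A.le0 e' e ∧ A.Q₂.le e'.2 x := by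
  obtain ⟨e', he', h1, h2⟩ := (A.sb_eqv hx).1 e he h
  exact ⟨e', he', h1, h2.2⟩

private theorem sb_cd_left (n : ℕ) {x : U} (hx : x ∈ A.Q₁.X) :
    A.amSw.cd n (.inl x) = Nat.pair 0 (A.Q₁.cd n x) := if_pos hx

private theorem sb_cd_right (n : ℕ) {x : U} (hx : x ∉ A.Q₁.X) :
    A.amSw.cd n (.inl x) = Nat.pair 1 (A.Q₂.cd n x) := if_neg hx

private theorem sb_cd_pair (n : ℕ) (a : U × U) :
    A.amSw.cd n (.inr a) = Nat.pair 2 (A.pcd n a) := rfl

/-- Use `map_sub_of`. `hle`: `les_left_iff`; `hcmp`: `amSw_cmp`; `hred`: let `p` be a common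
reduction of `ρ y = (y₁, y₂)`; `x ∈ F₁ p`, `x ≤ y₁`. For `x' ≤ x`: `x' ∈ F₁ p`, a reduction `p' ≤ p`
of `x'` is a reduction of `y₂`; so `(x', y₂)` is a pair, below `(x', 1)` and below `ρ y`. -/
theorem sub_left : (A.Q₁.map Sum.inl (inl_injOn A.Q₁.X)).Sub A.amSw := by
  refine Sw.map_sub_of Sum.inl (inl_injOn A.Q₁.X) (fun x hx => Or.inl hx) rfl ?_ ?_ ?_ ?_ ?_
  · intro x hx y hy
    show A.les (A.ρ (.inl x)) (A.ρ (.inl y)) ↔ _
    rw [A.sb_rho_left hx, A.sb_rho_left hy]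
    exact A.les_left_iff hx hy
  · intro x hx y hy h
    obtain ⟨e, he, h1, h2⟩ := (A.amSw_cmp _ _ (Or.inl hx) (Or.inl hy)).1 h
    rw [A.sb_rho_left hx] at h1
    rw [A.sb_rho_left hy] at h2
    exact ⟨e.1, he.1, h1.1, h2.1⟩
  · intro n x hx y hy
    rw [A.sb_cd_left n hx, A.sb_cd_left n hy, Nat.pair_eq_pair]
    exact ⟨fun h => h.2, fun h => ⟨rfl, h⟩⟩
  · intro x hx y hy h
    rw [A.sb_cd_left 0 hx] at h
    rcases y with y | y
    · by_cases h1 : y ∈ A.Q₁.X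
      · exact ⟨y, h1, rfl⟩
      · rw [A.sb_cd_right 0 h1, Nat.pair_eq_pair] at h
        exact absurd h.1 (by norm_num)
    · rw [A.sb_cd_pair, Nat.pair_eq_pair] at h
      exact absurd h.1 (by norm_num)
  · intro y hy
    have hy' := A.am_ρ y hy
    obtain ⟨p, hp1, hp2⟩ := hy'.2.2
    obtain ⟨x, hx, hxy⟩ := hp1 p le_rfl
    refine ⟨x, A.B₁.sub p hx, fun x' hx' hle => ?_⟩
    have hxF : x' ∈ A.F₁ p := A.B₁.low p x hx x' hx' hle
    obtain ⟨p', hp', hr⟩ := A.B₁.exists_red hxF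
    have hpair : A.am x' (A.ρ y).2 := ⟨hx', hy'.2.1, p', hr, hp2.low hp'⟩
    exact Sw.cmp_symm _ (A.sb_cmp_left hy hx' (e := (x', (A.ρ y).2)) hpair
      ⟨A.Q₁.trans _ hx' _ (A.B₁.sub p hx) _ hy'.1 hle hxy, A.Q₂.refl _ hy'.2.1⟩ (A.Q₁.refl _ hx'))

/-- Use `map_sub_of`. For `x ∈ Q₂.X` the pair `ρ x` is equivalent (for `les`) to `(1, x)`:
`les_left_right`, `les_right_left`. Codes: for `x, y ∈ P.X` use `A.h₁.cd_iff`, `A.h₂.cd_iff`; if
`x ∈ P.X`, `y ∈ Q₂.X \ P.X`, then both sides are false (tags; `closed`). -/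
theorem sub_right : (A.Q₂.map Sum.inl (inl_injOn A.Q₂.X)).Sub A.amSw := by
  refine Sw.map_sub_of Sum.inl (inl_injOn A.Q₂.X) (fun x hx => Or.inr hx) ?_ ?_ ?_ ?_ ?_ ?_
  · show Sum.inl A.Q₁.top = Sum.inl A.Q₂.top
    rw [A.top_eq]
  · intro x hx y hy
    rw [← A.les_right_iff hx hy]
    have hx1 := A.am_right x hx
    have hy1 := A.am_right y hy
    have hx2 := A.am_ρ (.inl x) (Or.inr hx)
    have hy2 := A.am_ρ (.inl y) (Or.inr hy)
    have ex := A.sb_eqv hx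
    have ey := A.sb_eqv hy
    constructor
    · intro h
      have h' : A.les (A.ρ (.inl x)) (A.ρ (.inl y)) := h
      exact A.les_trans (a := (A.Q₁.top, x)) (b := A.ρ (.inl x)) (c := (A.Q₁.top, y)) hx1 hx2 hy1
        ex.2 (A.les_trans (a := A.ρ (.inl x)) (b := A.ρ (.inl y)) (c := (A.Q₁.top, y)) hx2 hy2 hy1
          h' ey.1)
    · intro h
      exact A.les_trans (a := A.ρ (.inl x)) (b := (A.Q₁.top, x)) (c := A.ρ (.inl y)) hx2 hx1 hy2
        ex.1 (A.les_trans (a := (A.Q₁.top, x)) (b := (A.Q₁.top, y)) (c := A.ρ (.inl y)) hx1 hy1 hy2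
          h ey.2)
  · intro x hx y hy h
    obtain ⟨e, he, h1, h2⟩ := (A.amSw_cmp _ _ (Or.inr hx) (Or.inr hy)).1 h
    obtain ⟨e', he', h3, h4⟩ := A.sb_below hx he h1
    obtain ⟨e'', he'', h5, h6⟩ := A.sb_below hy he'
      (A.sb_trans he' he (A.am_ρ _ (Or.inr hy)) h3 h2)
    exact ⟨e''.2, he''.2.1, A.Q₂.trans _ he''.2.1 _ he'.2.1 _ hx h5.2 h4, h6⟩
  · have key : ∀ n x y, x ∈ A.Q₂.X → y ∈ A.Q₂.X → x ∈ A.Q₁.X → A.Q₂.cd n x = A.Q₂.cd n y →
        y ∈ A.Q₁.X := by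
      intro n x y hx hy hx1 h
      have hxP := A.hd x hx1 hx
      exact A.h₁.sub (A.h₂.closed x hxP y hy (A.Q₂.mono_le (Nat.zero_le n) hx hy h))
    intro n x hx y hy
    by_cases h1 : x ∈ A.Q₁.X <;> by_cases h2 : y ∈ A.Q₁.X
    · rw [A.sb_cd_left n h1, A.sb_cd_left n h2, Nat.pair_eq_pair,
        A.h₂.cd_iff n x (A.hd x h1 hx) y (A.hd y h2 hy),
        ← A.h₁.cd_iff n x (A.hd x h1 hx) y (A.hd y h2 hy)]
      exact ⟨fun h => h.2, fun h => ⟨rfl, h⟩⟩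
    · rw [A.sb_cd_left n h1, A.sb_cd_right n h2, Nat.pair_eq_pair]
      exact ⟨fun h => absurd h.1 (by norm_num), fun h => absurd (key n x y hx hy h1 h) h2⟩
    · rw [A.sb_cd_right n h1, A.sb_cd_left n h2, Nat.pair_eq_pair]
      exact ⟨fun h => absurd h.1 (by norm_num), fun h => absurd (key n y x hy hx h2 h.symm) h1⟩
    · rw [A.sb_cd_right n h1, A.sb_cd_right n h2, Nat.pair_eq_pair]
      exact ⟨fun h => h.2, fun h => ⟨rfl, h⟩⟩
  · intro x hx y hy h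
    rcases y with y | y
    · by_cases h1 : x ∈ A.Q₁.X
      · by_cases h2 : y ∈ A.Q₁.X
        · rw [A.sb_cd_left 0 h1, A.sb_cd_left 0 h2, Nat.pair_eq_pair] at h
          exact ⟨y, A.h₂.sub (A.h₁.closed x (A.hd x h1 hx) y h2 h.2), rfl⟩
        · rw [A.sb_cd_left 0 h1, A.sb_cd_right 0 h2, Nat.pair_eq_pair] at h
          exact absurd h.1 (by norm_num)
      · by_cases h2 : y ∈ A.Q₁.X
        · rw [A.sb_cd_right 0 h1, A.sb_cd_left 0 h2, Nat.pair_eq_pair] at h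
          exact absurd h.1 (by norm_num)
        · rcases hy with hy | hy
          · exact absurd hy h2
          · exact ⟨y, hy, rfl⟩
    · by_cases h1 : x ∈ A.Q₁.X
      · rw [A.sb_cd_left 0 h1, A.sb_cd_pair, Nat.pair_eq_pair] at h
        exact absurd h.1 (by norm_num)
      · rw [A.sb_cd_right 0 h1, A.sb_cd_pair, Nat.pair_eq_pair] at h
        exact absurd h.1 (by norm_num)
  · intro y hy
    have hy' := A.am_ρ y hy
    obtain ⟨p, hp1, hp2⟩ := hy'.2.2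
    obtain ⟨x, hx, hxy⟩ := hp2 p le_rfl
    refine ⟨x, A.B₂.sub p hx, fun x' hx' hle => ?_⟩
    have hxF : x' ∈ A.F₂ p := A.B₂.low p x hx x' hx' hle
    obtain ⟨p', hp', hr⟩ := A.B₂.exists_red hxF
    have hpair : A.am (A.ρ y).1 x' := ⟨hy'.1, hx', p', hp1.low hp', hr⟩
    exact Sw.cmp_symm _ (A.sb_cmp_right hy hx' (e := ((A.ρ y).1, x')) hpair
      ⟨A.Q₁.refl _ hy'.1, A.Q₂.trans _ hx' _ (A.B₂.sub p hx) _ hy'.2.1 hle hxy⟩ (A.Q₂.refl _ hx'))

theorem amSw_small (h1 : A.Q₁.Small) (h2 : A.Q₂.Small) : A.amSw.Small := by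
  have hsub : A.amSw.X ⊆ (Sum.inl '' A.Q₁.X ∪ Sum.inl '' A.Q₂.X) ∪
      Sum.inr '' (A.Q₁.X ×ˢ A.Q₂.X) := by
    rintro (x | a) h
    · rcases h with h | h
      · exact Or.inl (Or.inl ⟨x, h, rfl⟩)
      · exact Or.inl (Or.inr ⟨x, h, rfl⟩)
    · have h' : A.am a.1 a.2 := h
      exact Or.inr ⟨a, ⟨h'.1, h'.2.1⟩, rfl⟩
  have h1' : Cardinal.mk A.Q₁.X ≤ Cardinal.continuum := h1
  have h2' : Cardinal.mk A.Q₂.X ≤ Cardinal.continuum := h2
  show Cardinal.mk A.amSw.X ≤ Cardinal.continuum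
  refine (Cardinal.mk_le_mk_of_subset hsub).trans ((Cardinal.mk_union_le _ _).trans ?_)
  have e1 : Cardinal.mk (Sum.inl '' A.Q₁.X ∪ Sum.inl '' A.Q₂.X : Set (U ⊕ U × U)) ≤
      Cardinal.continuum := by
    refine (Cardinal.mk_union_le _ _).trans ?_
    rw [← Cardinal.continuum_add_self]
    exact add_le_add (Cardinal.mk_image_le.trans h1') (Cardinal.mk_image_le.trans h2')
  have e2 : Cardinal.mk (Sum.inr '' (A.Q₁.X ×ˢ A.Q₂.X) : Set (U ⊕ U × U)) ≤
      Cardinal.continuum := by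
    refine Cardinal.mk_image_le.trans ?_
    rw [Cardinal.mk_setProd, ← Cardinal.continuum_mul_self]
    exact mul_le_mul' h1' h2'
  rw [← Cardinal.continuum_add_self]
  exact add_le_add e1 e2

/-- elements with a common reduction are compatible in the amalgam -/
theorem cmp_of_red (p : P₀) (x y : U) (hx : x ∈ A.Q₁.X) (hy : y ∈ A.Q₂.X)
    (h1 : Red A.Q₁ A.F₁ p x) (h2 : Red A.Q₂ A.F₂ p y) : A.amSw.cmp (.inl x) (.inl y) := by
  have hpair : A.am x y := ⟨hx, hy, p, h1, h2⟩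
  refine A.sb_cmp_right (Or.inl hx) hy (e := (x, y)) hpair ?_ (A.Q₂.refl _ hy)
  rw [A.sb_rho_left hx]
  exact ⟨A.Q₁.refl _ hx, A.Q₂.le_top _ hy⟩

/-- In the amalgam `F₁ p` and `F₂ p` generate the same regular open set. Proof: let
`z ∈ F₁ p` and `w ≤ z`; there is a pair `(w₁, w₂)` below `ρ w` and `(z, 1)`; `w₁ ∈ F₁ p`. Let `p'` be
a common reduction of `w₁, w₂`; `F₁ p'` contains an element below `w₁`, in `F₁ p`, so there is
`r ≤ p', p`; `r` is a reduction of `w₂`; let `v ∈ F₂ r`, `v ≤ w₂`; `v ∈ F₂ p`. Let `r' ≤ r` be a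
reduction of `v`; `(w₁, v)` is a pair, below `ρ w` and `(1, v)`. -/
theorem F_left (p : P₀) (z : U) (hz : z ∈ A.F₁ p) (w : U ⊕ U × U) (hw : w ∈ A.amSw.X)
    (h : A.amSw.le w (.inl z)) : ∃ v ∈ A.F₂ p, A.amSw.cmp w (.inl v) := by
  have h' : A.les (A.ρ w) (A.ρ (.inl z)) := h
  have hzQ := A.B₁.sub p hz
  have hw' := A.am_ρ w hw
  rw [A.sb_rho_left hzQ] at h'
  obtain ⟨e, he, h1, h2⟩ := h' (A.ρ w) hw' (A.sb_refl hw')
  have heF : e.1 ∈ A.F₁ p := A.B₁.low p z hz _ he.1 h2.1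
  obtain ⟨p', hp1, hp2⟩ := he.2.2
  obtain ⟨u, hu, hue⟩ := hp1 p' le_rfl
  obtain ⟨r, hr1, hr2⟩ := A.B₁.disj p' p u hu (A.B₁.low p _ heF u (A.B₁.sub p' hu) hue)
  obtain ⟨v, hv, hve⟩ := hp2 r hr1
  have hvQ := A.B₂.sub r hv
  obtain ⟨r', hr', hrv⟩ := A.B₂.exists_red hv
  have hpair : A.am e.1 v := ⟨he.1, hvQ, r', hp1.low (hr'.trans hr1), hrv⟩
  exact ⟨v, A.B₂.mono r p hr2 hv, A.sb_cmp_right hw hvQ (e := (e.1, v)) hpair
    ⟨h1.1, A.Q₂.trans _ hvQ _ he.2.1 _ hw'.2.1 hve h1.2⟩ (A.Q₂.refl _ hvQ)⟩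

/-- symmetric to `F_left` -/
theorem F_right (p : P₀) (z : U) (hz : z ∈ A.F₂ p) (w : U ⊕ U × U) (hw : w ∈ A.amSw.X)
    (h : A.amSw.le w (.inl z)) : ∃ v ∈ A.F₁ p, A.amSw.cmp w (.inl v) := by
  have h' : A.les (A.ρ w) (A.ρ (.inl z)) := h
  have hzQ := A.B₂.sub p hz
  have hw' := A.am_ρ w hw
  obtain ⟨e₀, he₀, h1₀, h2₀⟩ := h' (A.ρ w) hw' (A.sb_refl hw')
  obtain ⟨e, he, h1, h2⟩ := A.sb_below hzQ he₀ h2₀
  have h1' := A.sb_trans he he₀ hw' h1 h1₀
  have heF : e.2 ∈ A.F₂ p := A.B₂.low p z hz _ he.2.1 h2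
  obtain ⟨p', hp1, hp2⟩ := he.2.2
  obtain ⟨u, hu, hue⟩ := hp2 p' le_rfl
  obtain ⟨r, hr1, hr2⟩ := A.B₂.disj p' p u hu (A.B₂.low p _ heF u (A.B₂.sub p' hu) hue)
  obtain ⟨v, hv, hve⟩ := hp1 r hr1
  have hvQ := A.B₁.sub r hv
  obtain ⟨r', hr', hrv⟩ := A.B₁.exists_red hv
  have hpair : A.am v e.2 := ⟨hvQ, he.2.1, r', hrv, hp2.low (hr'.trans hr1)⟩
  exact ⟨v, A.B₁.mono r p hr2 hv, A.sb_cmp_left hw hvQ (e := (v, e.2)) hpair
    ⟨A.Q₁.trans _ hvQ _ he.1 _ hw'.1 hve h1'.1, h1'.2⟩ (A.Q₁.refl _ hvQ)⟩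

end AmData

end Pool.Agent.Lib.BPLM
end

section

/-!
# Amalgamation of sweet preorders (final form)
-/

set_option autoImplicit false

open Set

namespace Pool.Agent.Lib.BPLM

variable {U : Type}

/-- (A5) Amalgamation inside `U`. Place `A.amSw` into `U` by an injection `f` on `A.amSw.X` with
`f (inl x) = x` for `x ∈ Q₁.X ∪ Q₂.X` (`exists_place` with `A := Q₁.X ∪ Q₂.X`, `j := Sum.inl`,
`Z := ∅`); `T := A.amSw.map f`. `Sw.sub_map_of` gives `Q₁.Sub T` and `Q₂.Sub T`. -/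
theorem amalg {P₀ : Type} [Preorder P₀] (hU : Cardinal.continuum < Cardinal.mk U)
    (A : AmData U P₀) (h1 : A.Q₁.Small) (h2 : A.Q₂.Small) :
    ∃ T : Sw U, T.Small ∧ A.Q₁.Sub T ∧ A.Q₂.Sub T ∧
      (∀ p x y, x ∈ A.Q₁.X → y ∈ A.Q₂.X → Red A.Q₁ A.F₁ p x → Red A.Q₂ A.F₂ p y → T.cmp x y) ∧
      (∀ p, ∀ z ∈ A.F₁ p, ∀ w ∈ T.X, T.le w z → ∃ v ∈ A.F₂ p, T.cmp w v) ∧
      (∀ p, ∀ z ∈ A.F₂ p, ∀ w ∈ T.X, T.le w z → ∃ v ∈ A.F₁ p, T.cmp w v) := by
  have hs := A.amSw_small h1 h2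
  have hc : Cardinal.mk (A.Q₁.X ∪ A.Q₂.X : Set U) ≤ Cardinal.continuum := by
    refine (Cardinal.mk_union_le _ _).trans ?_
    rw [← Cardinal.continuum_add_self]
    exact add_le_add h1 h2
  have h0 : Cardinal.mk (∅ : Set U) ≤ Cardinal.continuum := by
    rw [Cardinal.mk_eq_zero]
    exact zero_le
  obtain ⟨f, hf, hfj, -⟩ := exists_place hU (A.Q₁.X ∪ A.Q₂.X) ∅ A.amSw.X
    (Sum.inl : U → U ⊕ U × U) (AmData.inl_injOn _) (fun x hx => hx) hs hc h0
  have e1 : ∀ x ∈ A.Q₁.X, f (.inl x) = x := fun x hx => hfj x (Or.inl hx)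
  have e2 : ∀ x ∈ A.Q₂.X, f (.inl x) = x := fun x hx => hfj x (Or.inr hx)
  refine ⟨A.amSw.map f hf, Sw.map_small _ f hf hs,
    Sw.sub_map_of A.Q₁ A.amSw Sum.inl (AmData.inl_injOn _) A.sub_left f hf e1,
    Sw.sub_map_of A.Q₂ A.amSw Sum.inl (AmData.inl_injOn _) A.sub_right f hf e2, ?_, ?_, ?_⟩
  · intro p x y hx hy hr1 hr2
    have h3 := A.cmp_of_red p x y hx hy hr1 hr2
    have h4 := (Sw.map_cmp A.amSw f hf (x := .inl x) (y := .inl y) (Or.inl hx) (Or.inr hy)).2 h3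
    rwa [e1 x hx, e2 y hy] at h4
  · rintro p z hz w ⟨w', hw', rfl⟩ hle
    have hzQ := A.B₁.sub p hz
    rw [← e1 z hzQ] at hle
    have h3 := (Sw.map_le A.amSw f hf (x := w') (y := .inl z) hw' (Or.inl hzQ)).1 hle
    obtain ⟨v, hv, hcmp⟩ := A.F_left p z hz w' hw' h3
    have hvQ := A.B₂.sub p hv
    have h4 := (Sw.map_cmp A.amSw f hf (x := w') (y := .inl v) hw' (Or.inr hvQ)).2 hcmp
    rw [e2 v hvQ] at h4
    exact ⟨v, hv, h4⟩
  · rintro p z hz w ⟨w', hw', rfl⟩ hle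
    have hzQ := A.B₂.sub p hz
    rw [← e2 z hzQ] at hle
    have h3 := (Sw.map_le A.amSw f hf (x := w') (y := .inl z) hw' (Or.inr hzQ)).1 hle
    obtain ⟨v, hv, hcmp⟩ := A.F_right p z hz w' hw' h3
    have hvQ := A.B₁.sub p hv
    have h4 := (Sw.map_cmp A.amSw f hf (x := w') (y := .inl v) hw' (Or.inl hvQ)).2 hcmp
    rw [e1 v hvQ] at h4
    exact ⟨v, hv, h4⟩

/-- the empty string is always forced -/
private theorem rn_nil {Q : Sw U} {F : U → List Bool → Prop} (h : RN Q F) {q : U} (hq : q ∈ Q.X) :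
    F q [] := by
  refine h.reg q hq [] fun q' hq' _ => ?_
  obtain ⟨q'', hq'', hle, s, hs, hF⟩ := h.dens q' hq' 0
  rw [List.length_eq_zero_iff.1 hs] at hF
  exact ⟨q'', hq'', hle, hF⟩

open Classical in
/-- the data for two full Cohen names -/
private noncomputable def amFull (P Q₁ Q₂ : Sw U) (hd : ∀ x ∈ Q₁.X, x ∈ Q₂.X → x ∈ P.X)
    (F₁ F₂ : U → List Bool → Prop) (hF₁ : Full P Q₁ F₁) (hF₂ : Full P Q₂ F₂) :
    AmData U (CP P) where
  P := P
  Q₁ := Q₁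
  Q₂ := Q₂
  h₁ := hF₁.sub
  h₂ := hF₂.sub
  hd := hd
  F₁ := FC P Q₁ F₁
  F₂ := FC P Q₂ F₂
  B₁ := hF₁.base
  B₂ := hF₂.base
  i x := if h : x ∈ P.X then CP.mk x h [] else CP.mk P.top P.top_mem []
  hi₁ x hx := by
    rw [dif_pos hx]
    ext z
    exact ⟨fun h => ⟨h.1, h.2.1⟩, fun h => ⟨h.1, h.2, rn_nil hF₁.rn h.1⟩⟩
  hi₂ x hx := by
    rw [dif_pos hx]
    ext z
    exact ⟨fun h => ⟨h.1, h.2.1⟩, fun h => ⟨h.1, h.2, rn_nil hF₂.rn h.1⟩⟩

/-- The form used for the Baire property: two full Cohen names over `P` can be identified.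
Here `P₀ = CP P`, `i x = (x, [])`, `FC` is the `Base` of `Full.base`. The last statement says that
in `T` the two names are equal: `extF Q₁ T F₁ = extF Q₂ T F₂` (from the last two statements
of `amalg` for `p = (P.top, s)`). -/
theorem amalg_full (hU : Cardinal.continuum < Cardinal.mk U) (P Q₁ Q₂ : Sw U)
    (h1 : Q₁.Small) (h2 : Q₂.Small) (hd : ∀ x ∈ Q₁.X, x ∈ Q₂.X → x ∈ P.X)
    (F₁ F₂ : U → List Bool → Prop) (hF₁ : Full P Q₁ F₁) (hF₂ : Full P Q₂ F₂) :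
    ∃ T : Sw U, T.Small ∧ Q₁.Sub T ∧ Q₂.Sub T ∧
      (∀ (a : CP P) x y, x ∈ Q₁.X → y ∈ Q₂.X → Red Q₁ (FC P Q₁ F₁) a x →
        Red Q₂ (FC P Q₂ F₂) a y → T.cmp x y) ∧
      ∀ x ∈ T.X, ∀ s, extF Q₁ T F₁ x s ↔ extF Q₂ T F₂ x s := by
  obtain ⟨T, hT, hs1, hs2, hr, hl, hl'⟩ := amalg hU (amFull P Q₁ Q₂ hd F₁ F₂ hF₁ hF₂) h1 h2
  have hs1' : Q₁.Sub T := hs1
  have hs2' : Q₂.Sub T := hs2
  refine ⟨T, hT, hs1, hs2, hr, fun x hx s => ⟨fun h => ⟨hx, fun r' hr' hle => ?_⟩,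
    fun h => ⟨hx, fun r' hr' hle => ?_⟩⟩⟩
  · obtain ⟨r'', hr'', hle', q, hq, hle'', hF⟩ := h.2 r' hr' hle
    have hqF : q ∈ FC P Q₁ F₁ (CP.mk P.top P.top_mem s) := by
      refine ⟨hq, ?_, hF⟩
      show Q₁.le q P.top
      rw [← hF₁.sub.top]
      exact Q₁.le_top q hq
    obtain ⟨v, hv, z, hz, hz1, hz2⟩ := hl (CP.mk P.top P.top_mem s) q hqF r'' hr'' hle''
    have hv' : v ∈ FC P Q₂ F₂ (CP.mk P.top P.top_mem s) := hv
    exact ⟨z, hz, T.trans _ hz _ hr'' _ hr' hz1 hle', v, hv'.1, hz2, hv'.2.2⟩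
  · obtain ⟨r'', hr'', hle', q, hq, hle'', hF⟩ := h.2 r' hr' hle
    have hqF : q ∈ FC P Q₂ F₂ (CP.mk P.top P.top_mem s) := by
      refine ⟨hq, ?_, hF⟩
      show Q₂.le q P.top
      rw [← hF₂.sub.top]
      exact Q₂.le_top q hq
    obtain ⟨v, hv, z, hz, hz1, hz2⟩ := hl' (CP.mk P.top P.top_mem s) q hqF r'' hr'' hle''
    have hv' : v ∈ FC P Q₁ F₁ (CP.mk P.top P.top_mem s) := hv
    exact ⟨z, hz, T.trans _ hz _ hr'' _ hr' hz1 hle', v, hv'.1, hz2, hv'.2.2⟩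

end Pool.Agent.Lib.BPLM
end

section

/-!
# The Baire property: deciding membership of Cohen reals in a symmetric set
-/

set_option autoImplicit false

open Set

namespace Pool.Agent.Lib.BPLM

open Pool.Agent.Lib.SymZF Pool.Agent.Lib.KZF Pool.Agent.Lib.KZF.KSys

namespace Setup

variable {D : Setup}

/-- the Boolean value of the real `b` is in `A` (`⊥` if `b` is not symmetric) -/
noncomputable def memv (A : D.sys.HSet) (b : ℕ → D.B) : D.B :=
  ⨆ h : SymB (S := D.sys) b, (HSet.rnm b h).mem A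

lemma memv_eq (A : D.sys.HSet) {b : ℕ → D.B} (h : SymB (S := D.sys) b) :
    memv A b = (HSet.rnm b h).mem A := by
  simp [memv, h]

/-- `a` or its complement -/
noncomputable def sgn (ε : Bool) (a : D.B) : D.B := if ε = true then a else aᶜ

lemma sgn_not (ε : Bool) (a : D.B) : sgn (!ε) a = (sgn ε a)ᶜ := by
  cases ε <;> simp [sgn]

/-- extensionality -/
lemma memv_congr (A : D.sys.HSet) {b c : ℕ → D.B} (hb : SymB (S := D.sys) b)
    (hc : SymB (S := D.sys) c) (ε : Bool) :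
    eqB (S := D.sys) b c ⊓ sgn ε (memv A b) ≤ sgn ε (memv A c) := by
  have key : ∀ {b c : ℕ → D.B}, SymB (S := D.sys) b → SymB (S := D.sys) c →
      eqB (S := D.sys) b c ⊓ memv A b ≤ memv A c := by
    intro b c hb hc
    rw [memv_eq A hb, memv_eq A hc, ← HSet.rnm_eq b c hb hc]
    exact HSet.mem_congr_left _ _ _
  cases ε
  · simp only [sgn, Bool.false_eq_true, if_false]
    rw [le_compl_iff_disjoint_right, disjoint_iff, ← le_bot_iff]
    have h1 := key hc hb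
    rw [eqB_symm] at h1
    calc eqB (S := D.sys) b c ⊓ (memv A b)ᶜ ⊓ memv A c
        ≤ (eqB (S := D.sys) b c ⊓ memv A c) ⊓ (memv A b)ᶜ := by
          refine le_inf (le_inf (inf_le_left.trans inf_le_left) inf_le_right)
            (inf_le_left.trans inf_le_right)
      _ ≤ memv A b ⊓ (memv A b)ᶜ := inf_le_inf_right _ h1
      _ = ⊥ := inf_compl_self _
  · simp only [sgn, if_true]
    exact key hb hc

/-- the name `A` is fixed by the permutations fixing the points of `P` -/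
def Fixd (A : D.sys.HSet) (P : Sw D.U) : Prop :=
  ∀ g : Equiv.Perm D.U, (∀ x ∈ P.X, g x = x) → (HSet.smul (S := D.sys) g A).eq A = ⊤

/-- every symmetric name is fixed over some small sweet preorder (`A.sym`, `mem_F`,
`exists_dummy_small`) -/
theorem exists_fixd (A : D.sys.HSet) (S₀ : Sw D.U) (hS₀ : S₀.Small) :
    ∃ P : Sw D.U, P.Small ∧ S₀.Sub P ∧ Fixd A P := by
  obtain ⟨Z, hZ, hfix⟩ := (mem_F (D := D) {g | (HSet.smul (S := D.sys) g A).eq A = ⊤}).1 A.sym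
  obtain ⟨T, hT, _, hZT, hsub⟩ := exists_dummy_small S₀ hS₀ Z hZ
  exact ⟨T, hT, hsub, fun g hg => hfix g fun a ha => hg a (hZT ha)⟩

lemma Fixd.mono {A : D.sys.HSet} {P Q : Sw D.U} (h : Fixd A P) (hPQ : P.Sub Q) : Fixd A Q :=
  fun g hg => h g fun x hx => hg x (hPQ.sub hx)

/-- `(p, s)` forces (over `P`) that the full Cohen reals over `P` are in `A` (`ε = true`),
or not in `A` (`ε = false`). -/
def EP (A : D.sys.HSet) (P : Sw D.U) (ε : Bool) (p : D.U) (s : List Bool) : Prop :=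
  ∀ (Q : Sw D.U) (F : D.U → List Bool → Prop), Q.Small → Full P Q F →
    ∀ z ∈ Q.X, Q.le z p → F z s → eS Q z ≤ sgn ε (memv A (rb Q F))

theorem EP.low {A : D.sys.HSet} {P : Sw D.U} {ε : Bool} {p p' : D.U} {s s' : List Bool}
    (h : EP A P ε p s) (hp : p ∈ P.X) (hp' : p' ∈ P.X) (hle : P.le p' p) (hs : s <+: s') :
    EP A P ε p' s' := by
  intro Q F hQ hF z hz hzp hFz
  refine h Q F hQ hF z hz ?_ (hF.rn.pre z s' s hFz hs)
  exact Q.trans _ hz _ (hF.sub.sub hp') _ (hF.sub.sub hp) hzp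
    ((hF.sub.le_iff _ hp' _ hp).2 hle)

/-- If `(p, s)` does not satisfy `EP ε` then there is a full name `(Q, F)` and `z ≤ p`, `F z s`,
`eS Q z ≤ sgn ε (..)ᶜ`. (`exists_le_of_not_le` gives a condition `c ≤ (Q, z)`; use `c.S`,
`extF Q c.S F`, `c.x`, with `Full.ext` and `eqB_rb_ext`.) -/
theorem exists_of_not_EP {A : D.sys.HSet} {P : Sw D.U} {ε : Bool} {p : D.U} (hp : p ∈ P.X)
    {s : List Bool} (h : ¬ EP A P ε p s) :
    ∃ (Q : Sw D.U) (F : D.U → List Bool → Prop) (z : D.U), Q.Small ∧ Full P Q F ∧ z ∈ Q.X ∧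
      Q.le z p ∧ F z s ∧ eS Q z ≤ sgn (!ε) (memv A (rb Q F)) := by
  unfold EP at h
  push Not at h
  obtain ⟨Q, F, hQ, hF, z, hz, hzp, hFz, hne⟩ := h
  rw [eS_eq Q z hz hQ] at hne
  obtain ⟨r, hr, hrc⟩ := exists_le_of_not_le hne
  have hsub : Q.Sub r.S := hr.1
  have hle : r.S.le r.x z := hr.2
  have hpQ : p ∈ Q.X := hF.sub.sub hp
  refine ⟨r.S, extF Q r.S F, r.x, r.small, hF.ext hsub, r.mem, ?_, ?_, ?_⟩
  · exact r.S.trans _ r.mem _ (hsub.sub hz) _ (hsub.sub hpQ) hle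
      ((hsub.le_iff _ hz _ hpQ).2 hzp)
  · exact (hF.rn.ext hsub).low z s ((hF.rn.extF_iff hsub hz s).2 hFz) _ r.mem hle
  · rw [← sgn_not] at hrc
    have h1 : eS r.S r.x ≤ eqB (S := D.sys) (rb Q F) (rb r.S (extF Q r.S F)) :=
      (eS_mono r.mem r.S.top_mem (r.S.le_top _ r.mem)).trans
        (eqB_rb_ext hF.rn hQ r.small hsub)
    have h2 : eS r.S r.x ≤ sgn (!ε) (memv A (rb Q F)) := by
      rw [eS_cond]; exact hrc
    exact (le_inf h1 h2).trans (memv_congr A (symB_rb Q hQ F) (symB_rb r.S r.small _) _)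

/-- transport of a full name by a permutation fixing `P` and so (the value of) `A` -/
theorem act_memv {A : D.sys.HSet} {P : Sw D.U} (hA : Fixd A P) (g : Equiv.Perm D.U)
    (hg : ∀ x ∈ P.X, g x = x) (b : ℕ → D.B) (ε : Bool) :
    D.sys.α g (sgn ε (memv A b)) = sgn ε (memv A (fun n => D.sys.α g (b n))) := by
  have key : D.sys.α g (memv A b) = memv A (fun n => D.sys.α g (b n)) := by
    by_cases hb : SymB (S := D.sys) b
    · rw [memv_eq A hb, memv_eq A (hb.smul g), ← HSet.smul_mem, HSet.smul_rnm]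
      exact HSet.mem_of_eq_top_right (hA g hg) _
    · have hb' : ¬ SymB (S := D.sys) (fun n => D.sys.α g (b n)) := by
        intro h'
        apply hb
        have h1 := h'.smul g⁻¹
        have h2 : (fun n => D.sys.α g⁻¹ (D.sys.α g (b n))) = b := by
          funext n
          simp
        rwa [h2] at h1
      have h1 : memv A b = ⊥ := by simp [memv, hb]
      have h2 : memv A (fun n => D.sys.α g (b n)) = ⊥ := by simp [memv, hb']
      rw [h1, h2, map_bot]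
  cases ε
  · simp only [sgn, Bool.false_eq_true, if_false, map_compl, key]
  · simp only [sgn, if_true, key]

/-- The pairs deciding `A` are dense. Suppose that no extension of `(p, s)` satisfies `EP true` or
`EP false`. By `exists_of_not_EP` there are `Q₁, F₁, z₁` for `(p, s)`, `ε = true`. Let
`(p₁, s₁) ≤ (p, s)` be a reduction of `z₁` (`Full.base.exists_red`). There are `Q₂, F₂, z₂` for
`(p₁, s₁)`, `ε = false`, and a reduction `(p₂, s₂) ≤ (p₁, s₁)` of `z₂`. Let `g` fix `P.X` and move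
`Q₂.X \ P.X` away from `Q₁.X` (`exists_perm`); `Full.act`, and `Red` is transported. By `amalg_full`
for `Q₁` and `Sw.act g Q₂` there is `T` with `T.cmp z₁ (g z₂)`, where the two names are equal. A common
lower bound `w` has `eS T w ≤ ⊥` by `eqB_rb_ext`, `act_memv`, `α_rb`, `memv_congr`. -/
theorem EE_dense {A : D.sys.HSet} {P : Sw D.U} (hA : Fixd A P) (hP : P.Small) :
    DenseZ P {a | a.1 ∈ P.X ∧ ∃ ε, EP A P ε a.1 a.2} := by
  intro p hp s
  by_contra hcon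
  have hno : ∀ p' ∈ P.X, P.le p' p → ∀ s', s <+: s' → ∀ ε, ¬ EP A P ε p' s' := by
    intro p' hp' hle s' hs' ε hE
    exact hcon ⟨(p', s'), ⟨hp', ε, hE⟩, hp', hle, hs'⟩
  -- the first name
  obtain ⟨Q₁, F₁, z₁, hQ₁, hF₁, hz₁, hz₁p, hFz₁, he₁⟩ :=
    exists_of_not_EP hp (hno p hp (P.refl p hp) s (List.prefix_refl _) true)
  have hm₁ : z₁ ∈ FC P Q₁ F₁ (CP.mk p hp s) := ⟨hz₁, hz₁p, hFz₁⟩
  obtain ⟨a₁, ha₁, hred₁⟩ := hF₁.base.exists_red hm₁
  -- the second name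
  obtain ⟨Q₂, F₂, z₂, hQ₂, hF₂, hz₂, hz₂p, hFz₂, he₂⟩ :=
    exists_of_not_EP a₁.2 (hno a₁.1.1 a₁.2 ha₁.1 a₁.1.2 ha₁.2 false)
  have hm₂ : z₂ ∈ FC P Q₂ F₂ (CP.mk a₁.1.1 a₁.2 a₁.1.2) := ⟨hz₂, hz₂p, hFz₂⟩
  obtain ⟨a₂, ha₂, hred₂⟩ := hF₂.base.exists_red hm₂
  have ha₂₁ : a₂ ≤ a₁ := ha₂
  -- move the second name
  obtain ⟨g, hg, hgd⟩ := exists_perm D.hU Q₂.X Q₁.X hQ₂ hQ₁ P.X hF₂.sub.sub
  have hF₂' : Full P (Sw.act g Q₂) (actF g F₂) := hF₂.act g hg
  have hQ₂' : (Sw.act g Q₂).Small := Sw.act_small g hQ₂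
  have hz₂' : g z₂ ∈ (Sw.act g Q₂).X := by simpa [Sw.mem_act] using hz₂
  have hd : ∀ x ∈ Q₁.X, x ∈ (Sw.act g Q₂).X → x ∈ P.X := by
    intro x hx hx'
    have h1 : g.symm x ∈ Q₂.X := hx'
    have h2 : g.symm x ∈ P.X := hgd _ h1 (by simpa using hx)
    have h3 : g (g.symm x) = g.symm x := hg _ h2
    rw [Equiv.apply_symm_apply] at h3
    rw [h3]; exact h2
  obtain ⟨T, hT, hs1, hs2, hcmp, hext⟩ :=
    amalg_full D.hU P Q₁ (Sw.act g Q₂) hQ₁ hQ₂' hd F₁ (actF g F₂) hF₁ hF₂'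
  have hred₂' : Red (Sw.act g Q₂) (FC P (Sw.act g Q₂) (actF g F₂)) a₂ (g z₂) := by
    intro q hq
    obtain ⟨z, hz, hzz⟩ := hred₂ q hq
    refine ⟨g z, ⟨?_, ?_, ?_⟩, ?_⟩
    · simpa [Sw.mem_act] using hz.1
    · change Q₂.le (g.symm (g z)) (g.symm q.1.1)
      have h1 : g.symm q.1.1 = q.1.1 := by
        rw [Equiv.symm_apply_eq]; exact (hg _ q.2).symm
      rw [h1, Equiv.symm_apply_apply]
      exact hz.2.1
    · change F₂ (g.symm (g z)) q.1.2
      rw [Equiv.symm_apply_apply]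
      exact hz.2.2
    · change Q₂.le (g.symm (g z)) (g.symm (g z₂))
      rw [Equiv.symm_apply_apply, Equiv.symm_apply_apply]
      exact hzz
  obtain ⟨w, hw, hw1, hw2⟩ := hcmp a₂ z₁ (g z₂) hz₁ hz₂' (hred₁.low ha₂₁) hred₂'
  -- the values
  have hwT : eS T w ≤ eS T T.top := eS_mono hw T.top_mem (T.le_top _ hw)
  have hE1 : eS T w ≤ sgn false (memv A (rb Q₁ F₁)) :=
    ((eS_mono hw (hs1.sub hz₁) hw1).trans (eS_sub hs1 hQ₁ hz₁)).trans he₁
  have hE2 : eS T w ≤ sgn true (memv A (rb (Sw.act g Q₂) (actF g F₂))) := by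
    have h1 : eS T w ≤ eS (Sw.act g Q₂) (g z₂) :=
      (eS_mono hw (hs2.sub hz₂') hw2).trans (eS_sub hs2 hQ₂' hz₂')
    have h2 : eS (Sw.act g Q₂) (g z₂) ≤ sgn true (memv A (rb (Sw.act g Q₂) (actF g F₂))) := by
      have h3 := (D.sys.α g).monotone he₂
      rw [α_eS, act_memv hA g hg] at h3
      have h4 : (fun n => D.sys.α g (rb Q₂ F₂ n)) = rb (Sw.act g Q₂) (actF g F₂) := by
        funext n
        exact α_rb g Q₂ F₂ n
      rw [h4] at h3
      exact h3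
    exact h1.trans h2
  have hR : rb T (extF Q₁ T F₁) = rb T (extF (Sw.act g Q₂) T (actF g F₂)) := by
    funext n
    unfold rb
    refine iSup_congr fun z => iSup_congr fun s => ?_
    refine iSup_congr_Prop ?_ fun _ => rfl
    constructor
    · rintro ⟨h1, h2, h3⟩
      exact ⟨h1, (hext z h1 s).1 h2, h3⟩
    · rintro ⟨h1, h2, h3⟩
      exact ⟨h1, (hext z h1 s).2 h2, h3⟩
  have hV1 : eS T w ≤ sgn false (memv A (rb T (extF Q₁ T F₁))) := by
    have h1 : eS T w ≤ eqB (S := D.sys) (rb Q₁ F₁) (rb T (extF Q₁ T F₁)) :=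
      hwT.trans (eqB_rb_ext hF₁.rn hQ₁ hT hs1)
    exact (le_inf h1 hE1).trans (memv_congr A (symB_rb Q₁ hQ₁ F₁) (symB_rb T hT _) _)
  have hV2 : eS T w ≤ sgn true (memv A (rb T (extF Q₁ T F₁))) := by
    have h1 : eS T w ≤ eqB (S := D.sys) (rb (Sw.act g Q₂) (actF g F₂))
        (rb T (extF (Sw.act g Q₂) T (actF g F₂))) :=
      hwT.trans (eqB_rb_ext hF₂'.rn hQ₂' hT hs2)
    rw [hR]
    exact (le_inf h1 hE2).trans
      (memv_congr A (symB_rb (Sw.act g Q₂) hQ₂' _) (symB_rb T hT _) _)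
  have hbot : eS T w ≤ ⊥ := by
    refine (le_inf hV2 hV1).trans ?_
    simp [sgn]
  exact eS_ne_bot hw hT (le_bot_iff.1 hbot)

end Setup

end Pool.Agent.Lib.BPLM
end
end
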