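import Mathlib
import Pool.Agent.Lib.MP_c00cb7_lc.Capture

section

/-!
# Formulas for pairs, relations and ordinals, and their Boolean values
-/

set_option autoImplicit false

open Set

namespace Pool.Agent.Lib.KZF

open Pool.Agent.Lib.SymZF Pool.Agent.Lib.SymZF.SymSys Name Pool.Agent.Lib.BPLM

/-- `v k = {v i, v j}` -/
def fUPair (i j k : ℕ) : Fml :=
  Fml.all ((Fml.mem 0 (k + 1)).iff ((Fml.eq 0 (i + 1)).or (Fml.eq 0 (j + 1))))

/-- `v k = (v i, v j)` -/
def fOPair (i j k : ℕ) : Fml :=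
  Fml.ex (Fml.ex ((fUPair (i + 2) (i + 2) 1).and ((fUPair (i + 2) (j + 2) 0).and
    (fUPair 1 0 (k + 2)))))

/-- `(v i, v j) ∈ v r` -/
def fRel (r i j : ℕ) : Fml := Fml.ex ((fOPair (i + 1) (j + 1) 0).and (Fml.mem 0 (r + 1)))

section sat
variable {M : Type} (E : M → M → Prop) (v : ℕ → M)

lemma sat_fUPair (i j k : ℕ) : Sat E (fUPair i j k) v ↔ IsUPair E (v i) (v j) (v k) := by
  simp only [fUPair, sat_all, sat_iff, sat_or, sat_mem, sat_eq]
  exact Iff.rfl

lemma sat_fOPair (i j k : ℕ) : Sat E (fOPair i j k) v ↔ IsOPair E (v i) (v j) (v k) := by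
  simp only [fOPair, sat_ex, sat_and, sat_fUPair]
  exact Iff.rfl

lemma sat_fRel (r i j : ℕ) : Sat E (fRel r i j) v ↔ Rel E (v r) (v i) (v j) := by
  simp only [fRel, sat_ex, sat_and, sat_fOPair, sat_mem]
  exact Iff.rfl

end sat

namespace KSys

variable {S : KSys}

private lemma eq_eq_iInf (x y : S.HSet) :
    x.eq y = ⨅ z : S.HSet, (z.mem x ⇨ z.mem y) ⊓ (z.mem y ⇨ z.mem x) := by
  apply le_antisymm
  · refine le_iInf fun z => le_inf ?_ ?_
    · rw [le_himp_iff]
      exact HSet.mem_congr_right _ _ _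
    · rw [le_himp_iff, HSet.eq_symm]
      exact HSet.mem_congr_right _ _ _
  · refine HSet.le_eq (fun z => ?_) (fun z => ?_)
    · exact (inf_le_inf_right _ ((iInf_le _ z).trans inf_le_left)).trans himp_inf_le
    · exact (inf_le_inf_right _ ((iInf_le _ z).trans inf_le_right)).trans himp_inf_le

lemma bval_fUPair (v : ℕ → S.HSet) (i j k : ℕ) :
    bval (fUPair i j k) v = (v k).eq ((v i).pair (v j)) := by
  rw [eq_eq_iInf]
  simp only [fUPair, bval_all, bval_iff, bval_or, bval_mem, bval_eq, HSet.mem_pair]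
  rfl

lemma bval_fOPair (v : ℕ → S.HSet) (i j k : ℕ) :
    bval (fOPair i j k) v = (v k).eq ((v i).opair (v j)) := by
  have h0 : bval (fOPair i j k) v = ⨆ a : S.HSet, ⨆ b : S.HSet,
      a.eq ((v i).pair (v i)) ⊓ (b.eq ((v i).pair (v j)) ⊓ (v k).eq (a.pair b)) := by
    simp only [fOPair, bval_ex, bval_and, bval_fUPair]
    rfl
  rw [h0]
  apply le_antisymm
  · refine iSup_le fun a => iSup_le fun b => ?_
    have h1 : a.eq ((v i).pair (v i)) ⊓ (b.eq ((v i).pair (v j)) ⊓ (v k).eq (a.pair b)) ≤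
        (v k).eq (a.pair b) ⊓ (a.pair b).eq (((v i).pair (v i)).pair ((v i).pair (v j))) := by
      refine le_inf (inf_le_right.trans inf_le_right) ?_
      refine le_trans ?_ (HSet.pair_congr _ _ _ _)
      exact le_inf inf_le_left (inf_le_right.trans inf_le_left)
    exact h1.trans (HSet.eq_trans _ _ _)
  · refine le_iSup_of_le ((v i).pair (v i)) (le_iSup_of_le ((v i).pair (v j)) ?_)
    rw [HSet.eq_refl, HSet.eq_refl, top_inf_eq, top_inf_eq]
    exact le_rfl

lemma bval_fRel (v : ℕ → S.HSet) (r i j : ℕ) :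
    bval (fRel r i j) v = ((v i).opair (v j)).mem (v r) := by
  have h0 : bval (fRel r i j) v = ⨆ p : S.HSet, p.eq ((v i).opair (v j)) ⊓ p.mem (v r) := by
    simp only [fRel, bval_ex, bval_and, bval_fOPair, bval_mem]
    rfl
  rw [h0]
  apply le_antisymm
  · exact iSup_le fun p => HSet.mem_congr_left _ _ _
  · refine le_iSup_of_le ((v i).opair (v j)) ?_
    rw [HSet.eq_refl, top_inf_eq]

/-- the Boolean value of: for all `x ∈ X` there is `y ∈ X` with `(x, y) ∈ R` -/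
noncomputable def totv (X R : S.HSet) : S.B :=
  ⨅ x : S.HSet, x.mem X ⇨ ⨆ y : S.HSet, y.mem X ⊓ (x.opair y).mem R

namespace GM

variable {M : Type} {E : M → M → Prop} (G : GM S M E)

/-- the coordinates of a pair with a value have values -/
lemma exists_of_opair {p : M} {ρ τ : S.HSet} (hp : G.IsVal p (ρ.opair τ)) :
    ∃ u v, G.IsVal u ρ ∧ G.IsVal v τ ∧ IsOPair E u v p := by
  have h1 : Sat E (Fml.ex (Fml.ex (fOPair 1 0 2))) (fun _ => p) := by
    refine (G.dec (Fml.ex (Fml.ex (fOPair 1 0 2))) (fun _ => p) (fun _ => ρ.opair τ)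
      fun _ _ => hp).1.2 ?_
    refine G.up G.top ?_
    simp only [bval_ex, bval_fOPair]
    refine le_iSup_of_le ρ (le_iSup_of_le τ ?_)
    exact (HSet.eq_refl _).ge
  simp only [sat_ex, sat_fOPair] at h1
  obtain ⟨u, v, huv⟩ := h1
  have huv : IsOPair E u v p := huv
  have h2 : G.IsVal p ((G.nm u).opair (G.nm v)) :=
    G.isVal_of_isOPair (G.isVal_nm u) (G.isVal_nm v) huv
  have h3 : ((G.nm u).opair (G.nm v)).eq (ρ.opair τ) ∈ G.U := by
    refine G.up (G.inf h2 hp) ?_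
    rw [HSet.eq_symm (G.nm p) ((G.nm u).opair (G.nm v))]
    exact HSet.eq_trans _ _ _
  have h4 := G.up h3 (HSet.opair_eq_le _ _ _ _)
  exact ⟨u, v, G.up h4 inf_le_left, G.up h4 inf_le_right, huv⟩

lemma rel_iff {r u v : M} {ϱ ρ τ : S.HSet} (hr : G.IsVal r ϱ) (hu : G.IsVal u ρ)
    (hv : G.IsVal v τ) : Rel E r u v ↔ (ρ.opair τ).mem ϱ ∈ G.U := by
  have h1 := (G.dec (fRel 0 1 2) (scons r (scons u (fun _ => v)))
    (scons ϱ (scons ρ (fun _ => τ))) (fun i _ => by
      rcases i with _ | _ | i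
      · exact hr
      · exact hu
      · exact hv)).1
  rw [sat_fRel, bval_fRel] at h1
  exact h1

lemma tot_iff {X R : M} {χ ϱ : S.HSet} (hX : G.IsVal X χ) (hR : G.IsVal R ϱ) :
    (∀ x, E x X → ∃ y, E y X ∧ Rel E R x y) ↔ totv χ ϱ ∈ G.U := by
  have h1 := (G.dec (Fml.all ((Fml.mem 0 1).imp (Fml.ex ((Fml.mem 0 2).and (fRel 3 1 0)))))
    (scons X (fun _ => R)) (scons χ (fun _ => ϱ)) (fun i _ => by
      rcases i with _ | i
      · exact hX
      · exact hR)).1
  simp only [sat_all, sat_imp, sat_ex, sat_and, sat_mem, sat_fRel, bval_all, bval_imp, bval_ex,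
    bval_and, bval_mem, bval_fRel] at h1
  exact h1

lemma ne_iff {X : M} {χ : S.HSet} (hX : G.IsVal X χ) :
    (∃ x, E x X) ↔ (⨆ x : S.HSet, x.mem χ) ∈ G.U := by
  have h1 := (G.dec (Fml.ex (Fml.mem 0 1)) (fun _ => X) (fun _ => χ) (fun i _ => hX)).1
  simp only [sat_ex, sat_mem, bval_ex, bval_mem] at h1
  exact h1

/-- elements of names with values: if `ρ` is an element of the value of `τ ∈ Nm` there is
an element of `M`; here: if `(ρ, ·) ∈ τ` for the values -/
lemma exists_rel {r u : M} {ϱ ρ τ : S.HSet} (hr : G.IsVal r ϱ) (hu : G.IsVal u ρ)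
    (h : (ρ.opair τ).mem ϱ ∈ G.U) : ∃ v, Rel E r u v := by
  have h1 := (G.dec (Fml.ex (fRel 1 2 0)) (scons r (fun _ => u)) (scons ϱ (fun _ => ρ))
    (fun i _ => by
      rcases i with _ | i
      · exact hr
      · exact hu)).1
  simp only [sat_ex, sat_fRel, bval_ex, bval_fRel] at h1
  refine h1.2 (G.up h ?_)
  exact le_iSup (fun y : S.HSet => (ρ.opair y).mem ϱ) τ

lemma ord_iff {a : M} {α : S.HSet} (ha : G.IsVal a α) : IsOrd E a ↔ α.ordv ∈ G.U := by
  have h1 := (G.dec ((Fml.all ((Fml.mem 0 1).imp (Fml.all ((Fml.mem 0 1).imp (Fml.mem 0 2))))).and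
    (Fml.all ((Fml.mem 0 1).imp (Fml.all ((Fml.mem 0 1).imp (Fml.all ((Fml.mem 0 1).imp
      (Fml.mem 0 2)))))))) (fun _ => a) (fun _ => α) (fun i _ => ha)).1
  simp only [sat_all, sat_imp, sat_and, sat_mem, bval_all, bval_imp,
    bval_and, bval_mem] at h1
  exact h1

end GM

private lemma chk_trans (i : S.Kt) (y z : S.HSet) :
    y.mem (HSet.chk i) ⊓ z.mem y ≤ z.mem (HSet.chk i : S.HSet) := by
  rw [HSet.mem_chk y, iSup_inf_eq]
  refine iSup_le fun j => ?_
  refine (HSet.mem_congr_right _ _ _).trans ?_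
  rw [HSet.mem_chk, HSet.mem_chk]
  refine iSup_le fun k => ?_
  exact le_iSup (fun k : {k : S.Kt // k < i} => z.eq (HSet.chk k.1)) ⟨k.1, k.2.trans j.2⟩

lemma ordv_chk (i : S.Kt) : (HSet.chk i : S.HSet).ordv = ⊤ := by
  rw [HSet.ordv, eq_top_iff]
  refine le_inf ?_ ?_
  · refine le_iInf fun y => ?_
    rw [le_himp_iff, top_inf_eq]
    refine le_iInf fun z => ?_
    rw [le_himp_iff]
    exact chk_trans i y z
  · refine le_iInf fun y => ?_
    rw [le_himp_iff, top_inf_eq]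
    refine le_iInf fun z => ?_
    rw [le_himp_iff]
    refine le_iInf fun w => ?_
    rw [le_himp_iff, HSet.mem_chk, iSup_inf_eq, iSup_inf_eq]
    refine iSup_le fun j => ?_
    -- on `y = chk j`
    have h1 : y.eq (HSet.chk j.1) ⊓ z.mem y ⊓ w.mem z ≤
        y.eq (HSet.chk j.1) ⊓ (z.mem (HSet.chk j.1) ⊓ w.mem z) := by
      refine le_inf (inf_le_left.trans inf_le_left) (le_inf ?_ inf_le_right)
      exact inf_le_left.trans (HSet.mem_congr_right _ _ _)
    refine h1.trans ?_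
    refine (inf_le_inf_left _ (chk_trans j.1 z w)).trans ?_
    rw [HSet.eq_symm y]
    exact HSet.mem_congr_right _ _ _

end KSys

end Pool.Agent.Lib.KZF
end

section

/-!
# Mixing of names, and dependent choices at the level of names
-/

set_option autoImplicit false

open Set

namespace Pool.Agent.Lib.KZF

open Pool.Agent.Lib.SymZF Pool.Agent.Lib.SymZF.SymSys Name

namespace KSys

variable {S : KSys} [CountableInterFilter S.F]

/-- The name of the sequence `n ↦ F n`. -/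
noncomputable def HSet.seq (F : ℕ → S.HSet) : S.HSet :=
  HSet.fam (S.small_of_countable ℕ) (fun n => (HSet.num S n).opair (F n)) (fun _ => ⊤) (by
    have h : ∀ᶠ g in S.F, ∀ n, ((F n).smul g).eq (F n) = ⊤ :=
      eventually_countable_forall.2 fun n => (F n).sym
    filter_upwards [h] with g hg
    have key : ∀ n, (((HSet.num S n).opair (F n)).smul g).eq ((HSet.num S n).opair (F n)) = ⊤ := by
      intro n
      rw [HSet.smul_opair, HSet.smul_num, eq_top_iff]
      refine le_trans ?_ (HSet.opair_congr _ _ _ _)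
      rw [HSet.eq_refl, hg n, top_inf_eq]
    exact ⟨fun i => ⟨i, key i, le_top⟩, fun i => ⟨i, key i, by simp⟩⟩)

end KSys

end Pool.Agent.Lib.KZF

namespace Pool.Agent.Lib.BPLM

open Pool.Agent.Lib.SymZF Pool.Agent.Lib.KZF Pool.Agent.Lib.KZF.KSys

namespace Setup

variable {D : Setup}

/-- Mixing over a countable antichain of a small sweet preorder: the name with index type
`Σ a : A, (y a).idx`, elements `(y a).el k`, values `(y a).vl k ⊓ eS S a`. Its support is the union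
of `S.X` and of the (countably many) supports of the `y a` (`HSet.sym`, `mem_F`, `α_eS_fix`; use
`HS_of_equivariant` or argue directly that `g` in the stabilizer gives an equal name). -/
theorem exists_mix {S : Sw D.U} (hS : S.Small) (A : Set D.U) (hA : A ⊆ S.X) (hAc : A.Countable)
    (hanti : ∀ a ∈ A, ∀ b ∈ A, a ≠ b → ¬ S.cmp a b) (y : D.U → D.sys.HSet) :
    ∃ z : D.sys.HSet, ∀ a ∈ A, eS S a ≤ z.eq (y a) := by
  have hcA : Countable A := hAc
  -- the index set and the name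
  let I : Type := Σ a : A, (y a).idx
  let f : I → D.sys.HSet := fun s => (y s.1).el s.2
  let b : I → D.B := fun s => (y s.1).vl s.2 ⊓ eS S s.1
  have hval : ∀ w : D.sys.HSet, Name.bmem w.1 (.mk I (fun i => (f i).1) b) =
      ⨆ a : A, eS S a ⊓ w.mem (y a) := by
    intro w
    have h1 : Name.bmem w.1 (.mk I (fun i => (f i).1) b) = ⨆ s : I, b s ⊓ w.eq (f s) := rfl
    rw [h1]
    have h2 : (⨆ s : I, b s ⊓ w.eq (f s)) = ⨆ a : A, ⨆ i : (y a).idx, b ⟨a, i⟩ ⊓ w.eq (f ⟨a, i⟩) :=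
      iSup_sigma
    rw [h2]
    refine iSup_congr fun a => ?_
    rw [KSys.HSet.mem_eq w (y a), inf_iSup_eq]
    refine iSup_congr fun i => ?_
    show (y a).vl i ⊓ eS S a ⊓ w.eq ((y a).el i) = eS S a ⊓ ((y a).vl i ⊓ w.eq ((y a).el i))
    rw [inf_comm ((y a).vl i), inf_assoc]
  have hI : Cardinal.mk I < D.sys.κ :=
    D.sys.small_sigma (D.sys.small_of_countable A) fun a => (y a).idx_lt
  have hHS : D.sys.HS (.mk I (fun i => (f i).1) b) := by
    refine HS_of_equivariant f b ?_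
    have h1 : ∀ᶠ g in D.sys.F, ∀ a : A, ((y a).smul g).eq (y a) = ⊤ :=
      eventually_countable_forall.2 fun a => (y a).sym
    have h2 : {g : Equiv.Perm D.U | ∀ x ∈ S.X, g x = x} ∈ D.sys.F :=
      (mem_F _).2 ⟨S.X, hS, fun g hg => hg⟩
    filter_upwards [h1, h2] with g hg1 hg2 w
    rw [hval, hval, map_iSup]
    refine iSup_congr fun a => ?_
    rw [map_inf, α_eS_fix g S hg2, ← KSys.HSet.smul_mem,
      KSys.HSet.mem_of_eq_top_right (hg1 a)]
  refine ⟨⟨_, hHS, ⟨hI, fun i => (f i).3⟩⟩, fun a ha => ?_⟩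
  refine KSys.HSet.le_eq (fun w => ?_) (fun w => ?_)
  · refine (inf_le_inf_left _ (hval w).le).trans ?_
    rw [inf_iSup_eq]
    refine iSup_le fun c => ?_
    by_cases hac : a = c.1
    · rw [hac]
      exact inf_le_right.trans inf_le_right
    · have h1 : eS S a ⊓ eS S c.1 = ⊥ := by
        by_contra hne
        exact hanti a ha c.1 c.2 hac ((eS_inf_ne_bot hS (hA ha) (hA c.2)).1 hne)
      rw [← inf_assoc, h1, bot_inf_eq]
      exact bot_le
  · refine le_trans ?_ (hval w).ge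
    exact le_iSup (fun c : A => eS S c ⊓ w.mem (y c)) ⟨a, ha⟩

/-- Mixing for an arbitrary property `Φ` of Boolean values: if names `y` with `Φ y` in the filter are
dense below `(S, x)`, then there are `T ≥ S` and one name `z` with `eS T x ≤ Φ z`. Here `Φ` is
extensional: `y.eq z ⊓ Φ y ≤ Φ z`.
Proof: the set `Δ` of the conditions `c` with `e c ≤ Φ y` for some `y`, or `e c ⊓ eS S x = ⊥`, is open
and dense; by `exists_dense_one` there is `T ≥ S` such that `Δ` is dense in `T`. Let `A` be a maximal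
antichain of elements `a ∈ T.X` with `(T, a) ∈ Δ` (countable by `Sw.ccc`; predense in `T`), `y a` the
witnesses (`num 0` if there is none), `z` the mixture. `eS T x ≤ ⨆ a ∈ A, eS T a` (`eS_le_iSup`). -/
theorem exists_mix_dense {S : Sw D.U} (hS : S.Small) {x : D.U} (hx : x ∈ S.X)
    (Φ : D.sys.HSet → D.B) (hext : ∀ y z, y.eq z ⊓ Φ y ≤ Φ z)
    (h : eS S x ≤ ⨆ y, Φ y) :
    ∃ (T : Sw D.U) (z : D.sys.HSet), S.Sub T ∧ T.Small ∧ eS T x ≤ Φ z := by
  classical
  obtain ⟨T, hST, hT, hd⟩ := exists_dense_one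
    {c : Cond D.U | (∃ y, e c ≤ Φ y) ∨ e c ⊓ eS S x = ⊥} (by
      rintro c (⟨y, hy⟩ | hc) d hdc
      · exact Or.inl ⟨y, (e_mono hdc).trans hy⟩
      · refine Or.inr ?_
        rw [← le_bot_iff, ← hc]
        exact inf_le_inf_right _ (e_mono hdc)) S hS (by
      intro c _
      by_cases hc : e c ⊓ eS S x = ⊥
      · exact ⟨c, le_rfl, Or.inr hc⟩
      · obtain ⟨r, hrc, hr⟩ := exists_le_of_inf_ne_bot hc
        obtain ⟨r', y, hr', hy⟩ := exists_le_of_le_iSup (hr.trans h)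
        exact ⟨r', hr'.trans hrc, Or.inl ⟨y, hy⟩⟩)
  -- a maximal antichain of elements of `Δ`
  let P : Set (Set D.U) := {A | (∀ a ∈ A, ∃ ha : a ∈ T.X, (∃ y, e (⟨T, a, ha, hT⟩ : Cond D.U) ≤ Φ y) ∨
    e (⟨T, a, ha, hT⟩ : Cond D.U) ⊓ eS S x = ⊥) ∧ ∀ a ∈ A, ∀ b ∈ A, a ≠ b → ¬ T.cmp a b}
  obtain ⟨A, hAmax⟩ := zorn_subset P (by
    intro C hC hchain
    refine ⟨⋃₀ C, ⟨?_, ?_⟩, fun s hs => subset_sUnion_of_mem hs⟩
    · rintro a ⟨s, hs, has⟩
      exact (hC hs).1 a has
    · rintro a ⟨s, hs, has⟩ b ⟨t, ht, hbt⟩ hab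
      rcases hchain.total hs ht with hst | hts
      · exact (hC ht).2 a (hst has) b hbt hab
      · exact (hC hs).2 a has b (hts hbt) hab)
  have hAP : A ∈ P := hAmax.prop
  have hAX : A ⊆ T.X := fun a ha => (hAP.1 a ha).1
  have hAc : A.Countable := T.ccc A hAX hAP.2
  have hxT : x ∈ T.X := hST.sub hx
  have hpd : T.Pd A x := by
    intro w hw _
    obtain ⟨u, hu, huw, hΔ⟩ := hd w hw
    by_contra hcon
    push Not at hcon
    have hnc : ∀ a ∈ A, ¬ T.cmp u a := by
      rintro a ha ⟨z, hz, hzu, hza⟩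
      exact hcon a ha ⟨z, hz, T.trans _ hz _ hu _ hw hzu huw, hza⟩
    have hins : insert u A ∈ P := by
      refine ⟨?_, ?_⟩
      · rintro a (rfl | ha)
        · exact ⟨hu, hΔ⟩
        · exact hAP.1 a ha
      · rintro a (rfl | ha) b (rfl | hb) hab
        · exact absurd rfl hab
        · exact hnc b hb
        · rintro ⟨z, hz, h1, h2⟩
          exact hnc a ha ⟨z, hz, h2, h1⟩
        · exact hAP.2 a ha b hb hab
    have h1 : u ∈ A := (hAmax.eq_of_subset hins (subset_insert u A)) ▸ mem_insert u A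
    exact hnc u h1 ⟨u, hu, T.refl u hu, T.refl u hu⟩
  -- the witnesses
  have hwit : ∀ a : D.U, ∃ y : D.sys.HSet, ∀ ha : a ∈ A, eS T a ≤ Φ y ∨ eS T a ⊓ eS S x = ⊥ := by
    intro a
    by_cases ha : a ∈ A
    · obtain ⟨haX, hor⟩ := hAP.1 a ha
      rcases hor with ⟨y, hy⟩ | hb
      · exact ⟨y, fun _ => Or.inl (by rw [eS_eq T a haX hT]; exact hy)⟩
      · exact ⟨HSet.num D.sys 0, fun _ => Or.inr (by rw [eS_eq T a haX hT]; exact hb)⟩
    · exact ⟨HSet.num D.sys 0, fun h => absurd h ha⟩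
  choose y hy using hwit
  obtain ⟨z, hz⟩ := exists_mix hT A hAX hAc hAP.2 y
  refine ⟨T, z, hST, hT, ?_⟩
  have h1 : eS T x ≤ ⨆ a ∈ A, eS T a := eS_le_iSup hT hAX hxT hpd
  calc eS T x ≤ eS T x ⊓ ⨆ a ∈ A, eS T a := le_inf le_rfl h1
    _ = ⨆ a ∈ A, eS T x ⊓ eS T a := by rw [inf_iSup₂_eq]
    _ ≤ Φ z := by
      refine iSup₂_le fun a ha => ?_
      rcases hy a ha with h2 | h2
      · have h3 : eS T a ≤ (y a).eq z := by
          rw [KSys.HSet.eq_symm]
          exact hz a ha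
        exact inf_le_right.trans ((le_inf h3 h2).trans (hext _ _))
      · have h3 : eS T x ⊓ eS T a ≤ ⊥ := by
          rw [← h2, inf_comm]
          exact inf_le_inf_left _ (eS_sub hST hS hx)
        exact h3.trans bot_le

/-- Dependent choices for names: iterate `exists_mix_dense` (with
`Φ y = y.mem X ⊓ ((F n).opair y).mem R`) and take the union of the `T n` (`exists_union_nat`). -/
theorem exists_dc (X R : D.sys.HSet) (c : Cond D.U)
    (hc : e c ≤ (⨆ x : D.sys.HSet, x.mem X) ⊓ totv X R) :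
    ∃ d ≤ c, ∃ F : ℕ → D.sys.HSet, ∀ n, e d ≤ (F n).mem X ⊓ ((F n).opair (F (n + 1))).mem R := by
  classical
  have hc1 : eS c.S c.x ≤ ⨆ x : D.sys.HSet, x.mem X := by
    rw [eS_cond]
    exact hc.trans inf_le_left
  have hc2 : eS c.S c.x ≤ totv X R := by
    rw [eS_cond]
    exact hc.trans inf_le_right
  obtain ⟨T0, z0, h0S, h0s, h0⟩ := exists_mix_dense c.small c.mem (fun y => y.mem X)
    (fun y z => KSys.HSet.mem_congr_left _ _ _) hc1
  let P : Type 1 := {p : Sw D.U × D.sys.HSet // c.S.Sub p.1 ∧ p.1.Small ∧ eS p.1 c.x ≤ p.2.mem X}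
  have step : ∀ p : P, ∃ q : P, p.1.1.Sub q.1.1 ∧
      eS q.1.1 c.x ≤ (p.1.2.opair q.1.2).mem R := by
    intro p
    have hx : c.x ∈ p.1.1.X := p.2.1.sub c.mem
    have h1 : eS p.1.1 c.x ≤ ⨆ y : D.sys.HSet, y.mem X ⊓ (p.1.2.opair y).mem R := by
      have h2 : eS p.1.1 c.x ≤ totv X R := (eS_sub p.2.1 c.small c.mem).trans hc2
      have h3 : eS p.1.1 c.x ≤ (p.1.2.mem X ⇨ ⨆ y : D.sys.HSet, y.mem X ⊓ (p.1.2.opair y).mem R) :=
        h2.trans (iInf_le _ _)
      exact (le_inf h3 p.2.2.2).trans himp_inf_le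
    obtain ⟨T, z, hT1, hT2, hT3⟩ := exists_mix_dense p.2.2.1 hx
      (fun y => y.mem X ⊓ (p.1.2.opair y).mem R) (fun y z => by
        refine le_inf ?_ ?_
        · exact (inf_le_inf_left _ inf_le_left).trans (KSys.HSet.mem_congr_left _ _ _)
        · have h4 : y.eq z ≤ (p.1.2.opair y).eq (p.1.2.opair z) := by
            refine le_trans ?_ (HSet.opair_congr _ _ _ _)
            rw [HSet.eq_refl, top_inf_eq]
          exact (inf_le_inf h4 inf_le_right).trans (KSys.HSet.mem_congr_left _ _ _)) h1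
    exact ⟨⟨(T, z), p.2.1.trans hT1, hT2, hT3.trans inf_le_left⟩, hT1, hT3.trans inf_le_right⟩
  choose nx hnx1 hnx2 using step
  let C : ℕ → P := fun n => Nat.rec ⟨(T0, z0), h0S, h0s, h0⟩ (fun _ p => nx p) n
  have hC : ∀ n, C (n + 1) = nx (C n) := fun n => rfl
  obtain ⟨T, hT, hCT⟩ := exists_union_nat (fun n => (C n).1.1)
    (fun n => by rw [hC n]; exact hnx1 (C n)) (fun n => (C n).2.2.1)
  have hcT : c.S.Sub T := (C 0).2.1.trans (hCT 0)
  have hxT : c.x ∈ T.X := hcT.sub c.mem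
  refine ⟨⟨T, c.x, hxT, hT⟩, ⟨hcT, T.refl _ hxT⟩, fun n => (C n).1.2, fun n => ?_⟩
  rw [← eS_eq T c.x hxT hT]
  refine le_inf ?_ ?_
  · exact (eS_sub (hCT n) (C n).2.2.1 ((C n).2.1.sub c.mem)).trans (C n).2.2.2
  · have h1 := hnx2 (C n)
    rw [← hC n] at h1
    exact (eS_sub (hCT (n + 1)) (C (n + 1)).2.2.1 ((C (n + 1)).2.1.sub c.mem)).trans h1

end Setup

end Pool.Agent.Lib.BPLM
end
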