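import Mathlib
import Pool.Agent.Lib.MP_c00cb7_lc.MDefs

/-!
# Ramsey cardinals: many colours, and hulls of indiscernibles
-/

set_option autoImplicit false

open Set

namespace Pool.Agent.Lib.BPLM

private theorem bound_of_lt {κ : Cardinal.{0}} (h1 : κ.IsInaccessible) {C : Type} (hC : Cardinal.mk C < κ)
    (x : C → κ.ord.ToType) : ∃ y, ∀ c, x c < y := by
  have h : ¬ IsCofinal (range x) := by
    intro h
    have h2 := Order.cof_le h
    rw [Ordinal.cof_toType] at h2
    exact absurd ((h1.le_cof_ord.trans h2).trans Cardinal.mk_range_le) (not_le.2 hC)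
  obtain ⟨y, hy⟩ := not_isCofinal_iff.1 h
  exact ⟨y, fun c => hy _ ⟨c, rfl⟩⟩

private theorem exists_block {κ : Cardinal.{0}} (h1 : κ.IsInaccessible) {I : Set κ.ord.ToType}
    (hI : Cardinal.mk I = κ) (x : κ.ord.ToType) (n : ℕ) :
    ∃ a : Finset κ.ord.ToType, ↑a ⊆ I ∧ a.card = n ∧ ∀ z ∈ a, x < z := by
  have hinf : (I ∩ Ioi x).Infinite := by
    intro hf
    have h3 : Cardinal.mk I ≤ Cardinal.mk (I ∩ Ioi x : Set κ.ord.ToType) + Cardinal.mk (Iic x) := by
      refine (Cardinal.mk_le_mk_of_subset ?_).trans (Cardinal.mk_union_le _ _)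
      intro z hz
      rcases le_or_gt z x with h | h
      · exact Or.inr h
      · exact Or.inl ⟨hz, h⟩
    have h4 : Cardinal.mk (I ∩ Ioi x : Set κ.ord.ToType) < κ :=
      (Cardinal.lt_aleph0_iff_set_finite.2 hf).trans h1.aleph0_lt
    have h5 : Cardinal.mk (Iic x) < κ := by
      have h6 : (Iic x : Set κ.ord.ToType) = insert x (Iio x) := by
        ext z; simp [le_iff_eq_or_lt]
      rw [h6]
      refine (Cardinal.mk_insert_le).trans_lt ?_
      exact Cardinal.add_lt_of_lt h1.aleph0_lt.le (by simpa using Cardinal.mk_Iio_lt x (by simp))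
        (Cardinal.one_lt_aleph0.trans h1.aleph0_lt)
    rw [hI] at h3
    exact absurd h3 (not_le.2 (Cardinal.add_lt_of_lt h1.aleph0_lt.le h4 h5))
  obtain ⟨a, ha, hc⟩ := hinf.exists_subset_card_eq n
  exact ⟨a, fun z hz => (ha hz).1, hc, fun z hz => (ha hz).2⟩

/-- lower half -/
private noncomputable def low {K : Type} [LinearOrder K] (s : Finset K) : Finset K :=
  s.filter (fun x => (s.filter (· < x)).card < s.card / 2)
/-- upper half -/
private noncomputable def high {K : Type} [LinearOrder K] (s : Finset K) : Finset K :=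
  s.filter (fun x => ¬ (s.filter (· < x)).card < s.card / 2)

private theorem low_union {K : Type} [LinearOrder K] (a b : Finset K) (h : ∀ x ∈ a, ∀ y ∈ b, x < y)
    (hc : a.card = b.card) : low (a ∪ b) = a ∧ high (a ∪ b) = b := by
  have hd : Disjoint a b := Finset.disjoint_left.2 fun x hx hy => lt_irrefl _ (h x hx x hy)
  have hcard : (a ∪ b).card / 2 = a.card := by
    rw [Finset.card_union_of_disjoint hd, ← hc]; omega
  have ha : ∀ x ∈ a, ((a ∪ b).filter (· < x)).card < (a ∪ b).card / 2 := by
    intro x hx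
    rw [hcard]
    apply Finset.card_lt_card
    refine ⟨?_, fun hh => ?_⟩
    · intro z hz
      rw [Finset.mem_filter, Finset.mem_union] at hz
      rcases hz.1 with h1 | h1
      · exact h1
      · exact absurd (hz.2.trans (h x hx z h1)) (lt_irrefl _)
    · exact lt_irrefl x (Finset.mem_filter.1 (hh hx)).2
  have hb : ∀ x ∈ b, ¬ ((a ∪ b).filter (· < x)).card < (a ∪ b).card / 2 := by
    intro x hx
    rw [hcard, not_lt]
    apply Finset.card_le_card
    intro z hz
    exact Finset.mem_filter.2 ⟨Finset.mem_union_left _ hz, h z hz x hx⟩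
  constructor
  · ext x
    unfold low
    rw [Finset.mem_filter, Finset.mem_union]
    constructor
    · rintro ⟨h1 | h1, h2⟩
      · exact h1
      · exact absurd h2 (hb x h1)
    · intro h1; exact ⟨Or.inl h1, ha x h1⟩
  · ext x
    unfold high
    rw [Finset.mem_filter, Finset.mem_union]
    constructor
    · rintro ⟨h1 | h1, h2⟩
      · exact absurd (ha x h1) h2
      · exact h1
    · intro h1; exact ⟨Or.inr h1, hb x h1⟩

/-- Homogeneous sets for fewer than `κ` colours.
Proof: for a finite set `s` of size `2n` let `s₁` be its first `n` elements and `s₂` the last `n`;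
colour `s` by `true` if `f s₁ = f s₂`, by `false` otherwise (sets of odd size: anything). Let `I` be
homogeneous of size `κ` (so of order type `κ.ord`, in particular without bound). On the subsets of
size `2n` (`n > 0`) the colour is `true`: otherwise take `κ` many disjoint
blocks of `n` consecutive elements of `I`; their `f`-values would be pairwise different, but there
are fewer than `κ` colours. Then for `s, s' ⊆ I` of size `n` choose `s'' ⊆ I` of size `n` above both:
`f s = f s'' = f s'`. -/
theorem ramsey_colours (κ : Cardinal.{0}) (h1 : κ.IsInaccessible) (h2 : RamseyCard κ)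
    {C : Type} (hC : Cardinal.mk C < κ) (f : Finset κ.ord.ToType → C) :
    ∃ I : Set κ.ord.ToType, Cardinal.mk I = κ ∧
      ∀ n, ∃ c, ∀ s : Finset κ.ord.ToType, ↑s ⊆ I → s.card = n → f s = c := by
  classical
  obtain ⟨I, hI, hg⟩ := h2 (fun s => decide (f (low s) = f (high s)))
  have hne : Nonempty κ.ord.ToType := by
    rw [← Cardinal.mk_ne_zero_iff]
    simpa using h1.ne_zero
  have x0 : κ.ord.ToType := Classical.choice hne
  have hblock := fun x n => exists_block h1 hI x n
  refine ⟨I, hI, fun n => ?_⟩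
  rcases Nat.eq_zero_or_pos n with rfl | hn
  · exact ⟨f ∅, fun s _ hs => by rw [Finset.card_eq_zero.1 hs]⟩
  obtain ⟨c, hc⟩ := hg (2 * n)
  have hkey : ∀ a b : Finset κ.ord.ToType, ↑a ⊆ I → ↑b ⊆ I → a.card = n → b.card = n →
      (∀ x ∈ a, ∀ y ∈ b, x < y) → decide (f a = f b) = c := by
    intro a b ha1 hb1 ha2 hb2 hab
    have hd : Disjoint a b := Finset.disjoint_left.2 fun x hx hy => lt_irrefl _ (hab x hx x hy)
    have h := hc (a ∪ b) (by rw [Finset.coe_union]; exact Set.union_subset ha1 hb1)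
      (by rw [Finset.card_union_of_disjoint hd]; omega)
    obtain ⟨e1, e2⟩ := low_union a b hab (ha2.trans hb2.symm)
    rw [e1, e2] at h
    exact h
  have hct : c = true := by
    have h3 : ∃ d : C, ∀ x, ∃ a : Finset κ.ord.ToType, ↑a ⊆ I ∧ a.card = n ∧ f a = d ∧
        ∀ z ∈ a, x < z := by
      by_contra hcon
      push Not at hcon
      choose x hx using hcon
      obtain ⟨y, hy⟩ := bound_of_lt h1 hC x
      obtain ⟨a, ha1, ha2, ha3⟩ := hblock y n
      obtain ⟨z, hz, hz2⟩ := hx (f a) a ha1 ha2 rfl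
      exact absurd ((hy _).trans (ha3 z hz)) (not_lt.2 hz2)
    obtain ⟨d, hd⟩ := h3
    obtain ⟨a, ha1, ha2, ha3, _⟩ := hd x0
    obtain ⟨m, hm⟩ := a.exists_le
    obtain ⟨b, hb1, hb2, hb3, hb4⟩ := hd m
    have h := hkey a b ha1 hb1 ha2 hb2 (fun x hx y hy => (hm x hx).trans_lt (hb4 y hy))
    rw [ha3, hb3] at h
    simpa using h.symm
  obtain ⟨a0, ha1, ha2, _⟩ := hblock x0 n
  refine ⟨f a0, fun s hs hsn => ?_⟩
  obtain ⟨m, hm⟩ := (s ∪ a0).exists_le
  obtain ⟨b, hb1, hb2, hb3⟩ := hblock m n
  have e1 := hkey s b hs hb1 hsn hb2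
    (fun x hx y hy => (hm x (Finset.mem_union_left _ hx)).trans_lt (hb3 y hy))
  have e2 := hkey a0 b ha1 hb1 ha2 hb2
    (fun x hx y hy => (hm x (Finset.mem_union_right _ hx)).trans_lt (hb3 y hy))
  rw [hct, decide_eq_true_iff] at e1 e2
  rw [e1, e2]

/-- terms for the operations `Γ k` on lists; the value of a term is a list -/
inductive Tm : Type
  | var (i : ℕ) : Tm
  | nil : Tm
  | app (k : ℕ) (a : Tm) : Tm
  | cons (a b : Tm) : Tm
deriving Countable

/-- value of a term -/
def Tm.ev {X : Type*} (Γ : ℕ → List X → X) (s : ℕ → X) : Tm → List X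
  | .var i => [s i]
  | .nil => []
  | .app k a => [Γ k (ev Γ s a)]
  | .cons a b => ev Γ s a ++ ev Γ s b

/-- renaming of variables -/
def Tm.ren (ρ : ℕ → ℕ) : Tm → Tm
  | .var i => .var (ρ i)
  | .nil => .nil
  | .app k a => .app k (ren ρ a)
  | .cons a b => .cons (ren ρ a) (ren ρ b)

theorem Tm.ev_ren {X : Type*} (Γ : ℕ → List X → X) (s : ℕ → X) (ρ : ℕ → ℕ) (t : Tm) :
    (t.ren ρ).ev Γ s = t.ev Γ (fun i => s (ρ i)) := by
  induction t with
  | var i => rfl
  | nil => rfl
  | app k a ih => simp only [Tm.ren, Tm.ev, ih]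
  | cons a b iha ihb => simp only [Tm.ren, Tm.ev, iha, ihb]

/-- enumeration of a finite set, padded by `k₀` -/
private noncomputable def seq {K X : Type*} [LinearOrder K] (ord : K → X) (k₀ : K) (s : Finset K)
    (i : ℕ) : X :=
  if h : i < s.card then ord (s.orderEmbOfFin rfl ⟨i, h⟩) else ord k₀

private theorem seq_ren {K X : Type*} [LinearOrder K] (ord : K → X) (k₀ : K) {s s' : Finset K}
    (hs : s' ⊆ s) : ∃ ρ : ℕ → ℕ, ∀ i, seq ord k₀ s (ρ i) = seq ord k₀ s' i := by
  have h : ∀ i, ∃ j, seq ord k₀ s j = seq ord k₀ s' i := by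
    intro i
    by_cases hi : i < s'.card
    · have h1 : s'.orderEmbOfFin rfl ⟨i, hi⟩ ∈ s := hs (s'.orderEmbOfFin_mem rfl _)
      have h2 : s'.orderEmbOfFin rfl ⟨i, hi⟩ ∈ Set.range (s.orderEmbOfFin rfl) := by
        rw [Finset.range_orderEmbOfFin]; exact h1
      obtain ⟨j, hj⟩ := h2
      refine ⟨j, ?_⟩
      unfold seq
      rw [dif_pos j.2, dif_pos hi]
      rw [← hj]
    · refine ⟨s.card, ?_⟩
      unfold seq
      rw [dif_neg (lt_irrefl _), dif_neg hi]
  choose ρ hρ using h
  exact ⟨ρ, hρ⟩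

private theorem small_pred {κ : Cardinal.{0}} (h1 : κ.IsInaccessible) :
    Cardinal.mk {i : κ.ord.ToType // Countable {j // j < i}} < κ := by
  have h2 : (Order.succ Cardinal.aleph0).ord < Ordinal.type (α := κ.ord.ToType) (· < ·) := by
    rw [Ordinal.type_toType, Cardinal.ord_lt_ord]
    exact (Order.succ_le_of_lt (Cardinal.cantor _)).trans_lt (h1.isStrongPrelimit h1.aleph0_lt)
  obtain ⟨i0, hi0⟩ : ∃ i0, Ordinal.typein (α := κ.ord.ToType) (· < ·) i0 =
      (Order.succ Cardinal.aleph0).ord := ⟨_, Ordinal.typein_enum _ h2⟩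
  have h3 : Cardinal.mk {j // j < i0} = Order.succ Cardinal.aleph0 := by
    rw [← Ordinal.card_typein, hi0, Cardinal.card_ord]
  have h4 : ∀ i : {i : κ.ord.ToType // Countable {j // j < i}}, i.1 < i0 := by
    intro i
    by_contra hcon
    rw [not_lt] at hcon
    have h5 : Cardinal.mk {j // j < i0} ≤ Cardinal.aleph0 := by
      refine le_trans ?_ (Cardinal.mk_le_aleph0_iff.2 i.2)
      exact Cardinal.mk_le_of_injective (f := fun j : {j // j < i0} =>
        (⟨j.1, j.2.trans_le hcon⟩ : {j // j < i.1})) (fun a b hab => by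
          apply Subtype.ext
          simpa using hab)
    rw [h3] at h5
    exact absurd h5 (not_le.2 (Order.lt_succ _))
  have h6 : Cardinal.mk {i : κ.ord.ToType // Countable {j // j < i}} ≤
      Cardinal.mk {j // j < i0} :=
    Cardinal.mk_le_of_injective (f := fun i => (⟨i.1, h4 i⟩ : {j // j < i0})) (fun a b hab => by
          apply Subtype.ext
          simpa using hab)
  refine h6.trans_lt ?_
  rw [h3]
  exact (Order.succ_le_of_lt (Cardinal.cantor _)).trans_lt (h1.isStrongPrelimit h1.aleph0_lt)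

/-- The hull of indiscernibles. Let `K = κ.ord.ToType`, `k₀ : K` any element. For a finite set
`s ⊆ K` let `seq s i = ord (the i-th element of s)`, and `ord k₀` for `i ≥ |s|`. Colour `s` by the
function which maps the term `t` to `some i` if `t.ev Γ (seq s) = [ord i]` and `i` has countably many
predecessors, and to `none` otherwise. There are fewer than `κ` colours (countably many terms,
`ℵ₁` many such `i`, `κ` is a strong limit). Let `I` be homogeneous of size `κ` (`ramsey_colours`),
and let `H` be the set of all `x` with `t.ev Γ (seq s) = [x]` for some finite `s ⊆ I` and some `t`.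
* `H` is closed: all elements of `l` are values for some `s_x ⊆ I`; let `s` be the union; by renaming
  variables (`Tm.ev_ren`; variables `≥ |s_x|` go to variables `≥ |s|`) `l` is the value of one term
  for `s`.
* countable: the `i` with countably many predecessors and `ord i ∈ H` are determined by the term
  and the size of `s`.
* `ord i ∈ H` for `i ∈ I`. -/
theorem exists_hull (κ : Cardinal.{0}) (h1 : κ.IsInaccessible) (h2 : RamseyCard κ)
    {X : Type*} (ord : κ.ord.ToType → X) (hord : Function.Injective ord) (Γ : ℕ → List X → X) :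
    ∃ H : Set X, (∀ k l, (∀ x ∈ l, x ∈ H) → Γ k l ∈ H) ∧
      {i : κ.ord.ToType | Countable {j // j < i} ∧ ord i ∈ H}.Countable ∧
      Cardinal.mk {i : κ.ord.ToType | ord i ∈ H} = κ := by
  classical
  have hne : Nonempty κ.ord.ToType := by
    rw [← Cardinal.mk_ne_zero_iff]
    simpa using h1.ne_zero
  have k₀ : κ.ord.ToType := Classical.choice hne
  let D : Type := {i : κ.ord.ToType // Countable {j // j < i}}
  have hD : Cardinal.mk D < κ := small_pred h1
  have hC : Cardinal.mk (Tm → Option D) < κ := by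
    have hO : Cardinal.mk (Option D) < κ := by
      rw [Cardinal.mk_option]
      exact Cardinal.add_lt_of_lt h1.aleph0_lt.le hD (Cardinal.one_lt_aleph0.trans h1.aleph0_lt)
    let d : Cardinal := max (Cardinal.mk (Option D)) Cardinal.aleph0
    have hd : d < κ := max_lt hO h1.aleph0_lt
    have h3 : Cardinal.mk (Tm → Option D) ≤ 2 ^ d := by
      rw [← Cardinal.power_def]
      calc Cardinal.mk (Option D) ^ Cardinal.mk Tm ≤ (2 ^ d) ^ Cardinal.aleph0 := by
            refine (Cardinal.power_le_power_right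
              ((le_max_left _ _).trans (Cardinal.cantor d).le)).trans ?_
            refine Cardinal.power_le_power_left ?_ Cardinal.mk_le_aleph0
            exact (Cardinal.power_pos _ two_pos).ne'
        _ = 2 ^ d := by
            rw [← Cardinal.power_mul, Cardinal.mul_aleph0_eq (le_max_right _ _)]
    exact h3.trans_lt (h1.isStrongPrelimit hd)
  let col : Finset κ.ord.ToType → Tm → Option D := fun s t =>
    if h : ∃ i : D, t.ev Γ (seq ord k₀ s) = [ord i.1] then some h.choose else none
  have hcol : ∀ s t (i : D), t.ev Γ (seq ord k₀ s) = [ord i.1] → col s t = some i := by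
    intro s t i hi
    have h : ∃ i : D, t.ev Γ (seq ord k₀ s) = [ord i.1] := ⟨i, hi⟩
    have e : col s t = some h.choose := dif_pos h
    rw [e]
    have h3 := hi.symm.trans h.choose_spec
    have h4 : ord i.1 = ord h.choose.1 := by simpa using h3
    exact congrArg some (Subtype.ext (hord h4).symm)
  obtain ⟨I, hI, hhom⟩ := ramsey_colours κ h1 h2 hC col
  choose c hc using hhom
  have hun : ∀ (s s' : Finset κ.ord.ToType) (t : Tm), s' ⊆ s →
      ∃ t' : Tm, t'.ev Γ (seq ord k₀ s) = t.ev Γ (seq ord k₀ s') := by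
    intro s s' t hs
    obtain ⟨ρ, hρ⟩ := seq_ren ord k₀ hs
    refine ⟨t.ren ρ, ?_⟩
    rw [Tm.ev_ren]
    congr 1
    funext i
    exact hρ i
  refine ⟨{x | ∃ s : Finset κ.ord.ToType, ↑s ⊆ I ∧ ∃ t : Tm, t.ev Γ (seq ord k₀ s) = [x]},
    ?_, ?_, ?_⟩
  · intro k l hl
    have hval : ∀ l : List X, (∀ x ∈ l, ∃ s : Finset κ.ord.ToType, ↑s ⊆ I ∧
        ∃ t : Tm, t.ev Γ (seq ord k₀ s) = [x]) →
        ∃ s : Finset κ.ord.ToType, ↑s ⊆ I ∧ ∃ t : Tm, t.ev Γ (seq ord k₀ s) = l := by
      intro l
      induction l with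
      | nil => intro _; exact ⟨∅, by simp, Tm.nil, rfl⟩
      | cons x l ih =>
        intro h
        obtain ⟨s1, hs1, t1, e1⟩ := h x List.mem_cons_self
        obtain ⟨s2, hs2, t2, e2⟩ := ih (fun y hy => h y (List.mem_cons_of_mem _ hy))
        obtain ⟨t1', e1'⟩ := hun (s1 ∪ s2) s1 t1 Finset.subset_union_left
        obtain ⟨t2', e2'⟩ := hun (s1 ∪ s2) s2 t2 Finset.subset_union_right
        refine ⟨s1 ∪ s2, by rw [Finset.coe_union]; exact Set.union_subset hs1 hs2,
          Tm.cons t1' t2', ?_⟩
        rw [Tm.ev, e1', e2', e1, e2]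
        rfl
    obtain ⟨s, hs, t, e⟩ := hval l hl
    exact ⟨s, hs, Tm.app k t, by rw [Tm.ev, e]⟩
  · have hsub : {i : κ.ord.ToType | Countable {j // j < i} ∧ ord i ∈
        {x | ∃ s : Finset κ.ord.ToType, ↑s ⊆ I ∧ ∃ t : Tm, t.ev Γ (seq ord k₀ s) = [x]}} ⊆
        ⋃ p : ℕ × Tm, {i | ∃ h : Countable {j // j < i}, c p.1 p.2 = some ⟨i, h⟩} := by
      rintro i ⟨hi, s, hs, t, e⟩
      rw [Set.mem_iUnion]
      refine ⟨(s.card, t), hi, ?_⟩
      have h3 := hcol s t ⟨i, hi⟩ e
      rw [hc s.card s hs rfl] at h3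
      exact h3
    refine Set.Countable.mono hsub (Set.countable_iUnion fun p => ?_)
    refine Set.Subsingleton.countable ?_
    rintro i ⟨hi, e⟩ j ⟨hj, e'⟩
    rw [e] at e'
    have := Option.some.inj e'
    exact congrArg Subtype.val this
  · apply le_antisymm
    · refine (Cardinal.mk_set_le _).trans ?_
      simp
    · refine hI.symm.le.trans (Cardinal.mk_le_mk_of_subset ?_)
      intro i hi
      refine ⟨{i}, by simpa using hi, Tm.var 0, ?_⟩
      have h3 : seq ord k₀ {i} 0 = ord i := by
        unfold seq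
        rw [dif_pos (by simp)]
        congr 1
        have := Finset.orderEmbOfFin_mem ({i} : Finset κ.ord.ToType) rfl ⟨0, by simp⟩
        exact Finset.mem_singleton.1 this
      rw [Tm.ev, h3]

end Pool.Agent.Lib.BPLM
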