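import Mathlib
import Pool.Agent.Lib.MP_c00cb7_lc.KReal
import Pool.Agent.Lib.MP_c00cb7_lc.RamHull
import Pool.Agent.Lib.MP_c00cb7_lc.KModel

/-!
# The full Boolean-valued model over an algebra with the countable chain condition, hulls and their
collapses
-/

set_option autoImplicit false

open Set

namespace Pool.Agent.Lib.KZF

open Pool.Agent.Lib.SymZF Pool.Agent.Lib.SymZF.SymSys Name Pool.Agent.Lib.BPLM

/-- The system with the trivial group: all names of hereditary size `< κ`. -/
noncomputable def trivSys (B : Type) [CompleteBooleanAlgebra B] (κ : Cardinal.{0})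
    (hκ : κ.IsInaccessible) (hB : Cardinal.mk B < κ) : KSys where
  B := B
  G := Unit
  α := 1
  F := ⊤
  conj := fun _ => Filter.tendsto_top
  κ := κ
  inacc := hκ
  hB := hB

/-- countable suprema suffice -/
def CCC (B : Type) [CompleteBooleanAlgebra B] : Prop :=
  ∀ (I : Type 1) (b : I → B), ∃ A : Set I, A.Countable ∧ ⨆ i, b i = ⨆ i ∈ A, b i

/-- all names of the trivial system are hereditarily symmetric -/
lemma HS_triv (B : Type) [CompleteBooleanAlgebra B] (κ : Cardinal.{0})
    (hκ : κ.IsInaccessible) (hB : Cardinal.mk B < κ) (x : Name B) :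
    (trivSys B κ hκ hB).toSymSys.HS x := by
  induction x with
  | mk ι f b ih =>
    refine ⟨?_, ih⟩
    refine Filter.mem_top.2 ?_
    refine Set.eq_univ_of_forall fun g => ?_
    have hg : g = 1 := Subsingleton.elim (α := Unit) g 1
    subst hg
    change beq ((trivSys B κ hκ hB).toSymSys.act 1 (.mk ι f b)) (.mk ι f b) = ⊤
    rw [act_one]
    exact beq_refl _

namespace KSys

variable {S : KSys}

/-- The hull conditions for a set `H` of names in a full Boolean-valued model: for every formula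
`φ` and all parameters from `H` the infimum over all names is attained on `H`; and the suprema and
infima in the definitions of the Boolean values of `∈` and `=` between elements of `H` are attained
on the elements in `H`; `H` is closed under pairs and contains the numerals. -/
structure Hull (S : KSys) (H : Set S.HSet) : Prop where
  num : ∀ n, HSet.num S n ∈ H
  pair : ∀ x ∈ H, ∀ y ∈ H, x.pair y ∈ H
  /-- Tarski–Vaught -/
  tv : ∀ (φ : Fml) (v : ℕ → S.HSet), (∀ i, v i ∈ H) →
    (⨅ x : S.HSet, bval φ (scons x v)) = ⨅ x : H, bval φ (scons x.1 v)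
  /-- membership of an element of `H` in an element of `H` -/
  mem : ∀ x ∈ H, ∀ y ∈ H, x.mem y = ⨆ k : {k : y.idx // y.el k ∈ H}, y.vl k.1 ⊓ x.eq (y.el k.1)
  /-- inclusion between elements of `H` -/
  sub : ∀ x ∈ H, ∀ y ∈ H, (⨅ k : x.idx, x.vl k ⇨ (x.el k).mem y) =
    ⨅ k : {k : x.idx // x.el k ∈ H}, x.vl k.1 ⇨ (x.el k.1).mem y

/-- The collapse of a name relative to `H` -/
def colN (H : Set S.HSet) : (x : Name S.B) → S.HS x → Sm S.κ x → Name S.B
  | .mk ι f b, h, h' => .mk {i : ι // (⟨f i, h.2 i, h'.2 i⟩ : S.HSet) ∈ H}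
      (fun i => colN H (f i.1) (h.2 i.1) (h'.2 i.1)) (fun i => b i.1)

lemma Sm_colN (H : Set S.HSet) (x : Name S.B) (h : S.HS x) (h' : Sm S.κ x) :
    Sm S.κ (colN H x h h') := by
  induction x with
  | mk ι f b ih =>
    exact ⟨S.small_subtype h'.1 _, fun i => ih i.1 (h.2 i.1) (h'.2 i.1)⟩

/-- the collapse, for systems in which all names are symmetric -/
def col (H : Set S.HSet) (hS : ∀ x : Name S.B, S.HS x) (x : S.HSet) : S.HSet :=
  ⟨colN H x.1 x.2 x.3, hS _, Sm_colN H x.1 x.2 x.3⟩

variable {H : Set S.HSet} (hS : ∀ x : Name S.B, S.HS x)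

/-- the elements of a collapse are the collapses of the elements in `H` -/
lemma mem_col (w x : S.HSet) :
    w.mem (col H hS x) = ⨆ k : {k : x.idx // x.el k ∈ H}, x.vl k.1 ⊓ w.eq (col H hS (x.el k.1)) := by
  obtain ⟨x, hx, hs⟩ := x
  cases x with
  | mk ι f b => rfl

/-- the value of equality in terms of the elements -/
private lemma eq_expand (x y : S.HSet) :
    x.eq y = (⨅ k : x.idx, x.vl k ⇨ (x.el k).mem y) ⊓ (⨅ l : y.idx, y.vl l ⇨ (y.el l).mem x) := by
  apply le_antisymm
  · refine le_inf (le_iInf fun k => ?_) (le_iInf fun l => ?_)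
    · rw [le_himp_iff]
      exact (inf_le_inf_left _ (x.vl_le_mem k)).trans (HSet.mem_congr_right _ _ _)
    · rw [le_himp_iff, HSet.eq_symm x y]
      exact (inf_le_inf_left _ (y.vl_le_mem l)).trans (HSet.mem_congr_right _ _ _)
  · refine HSet.le_eq (fun z => ?_) (fun z => ?_)
    · rw [HSet.mem_eq z x, inf_iSup_eq]
      refine iSup_le fun k => ?_
      refine le_trans ?_ (HSet.mem_congr_left (x.el k) z y)
      refine le_inf ?_ ?_
      · rw [HSet.eq_symm]; exact inf_le_right.trans inf_le_right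
      · exact (inf_le_inf (inf_le_left.trans (iInf_le _ k)) inf_le_left).trans himp_inf_le
    · rw [HSet.mem_eq z y, inf_iSup_eq]
      refine iSup_le fun k => ?_
      refine le_trans ?_ (HSet.mem_congr_left (y.el k) z x)
      refine le_inf ?_ ?_
      · rw [HSet.eq_symm]; exact inf_le_right.trans inf_le_right
      · exact (inf_le_inf (inf_le_right.trans (iInf_le _ k)) inf_le_left).trans himp_inf_le

/-- the value of equality of two collapses -/
private lemma col_eq_expand (x y : S.HSet) :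
    (col H hS x).eq (col H hS y) =
      (⨅ k : {k : x.idx // x.el k ∈ H}, x.vl k.1 ⇨
        (col H hS (x.el k.1)).mem (col H hS y)) ⊓
      (⨅ l : {l : y.idx // y.el l ∈ H}, y.vl l.1 ⇨
        (col H hS (y.el l.1)).mem (col H hS x)) := by
  rw [eq_expand (col H hS x) (col H hS y)]
  obtain ⟨x, hx, hs⟩ := x
  obtain ⟨y, hy, ht⟩ := y
  cases x with
  | mk ι f b =>
    cases y with
    | mk κ g c => rfl

/-- The collapse preserves the Boolean values of equality (and of membership). Induction on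
`(x, y)` (e.g. on the names, `generalizing y`) using `beq_mk`, `Hull.mem`, `Hull.sub`: both sides
are `(⨅ k ∈ H, x.vl k ⇨ ⨆ l ∈ H, y.vl l ⊓ (x.el k).eq (y.el l)) ⊓ (symmetric)`. -/
theorem col_eq (hH : Hull S H) (x y : S.HSet) (hx : x ∈ H) (hy : y ∈ H) :
    (col H hS x).eq (col H hS y) = x.eq y := by
  have key : ∀ (n : Name S.B) (h : S.HS n) (h' : Sm S.κ n) (y : S.HSet),
      (⟨n, h, h'⟩ : S.HSet) ∈ H → y ∈ H →
      (col H hS ⟨n, h, h'⟩).eq (col H hS y) = (⟨n, h, h'⟩ : S.HSet).eq y := by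
    intro n
    induction n with
    | mk ι f b ih =>
      intro h h' y hx hy
      set x : S.HSet := ⟨.mk ι f b, h, h'⟩ with hxdef
      have ih' : ∀ (k : x.idx) (y : S.HSet), x.el k ∈ H → y ∈ H →
          (col H hS (x.el k)).eq (col H hS y) = (x.el k).eq y :=
        fun k y h1 h2 => ih k (h.2 k) (h'.2 k) y h1 h2
      rw [col_eq_expand hS x y, eq_expand x y, hH.sub x hx y hy, hH.sub y hy x hx]
      congr 1
      · refine iInf_congr fun k => ?_
        congr 1
        rw [mem_col, hH.mem _ k.2 _ hy]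
        refine iSup_congr fun l => ?_
        rw [ih' k.1 _ k.2 l.2]
      · refine iInf_congr fun l => ?_
        congr 1
        rw [mem_col, hH.mem _ l.2 _ hx]
        refine iSup_congr fun k => ?_
        rw [HSet.eq_symm, ih' k.1 _ k.2 l.2, HSet.eq_symm]
  exact key x.1 x.2 x.3 y hx hy

theorem col_mem (hH : Hull S H) (x y : S.HSet) (hx : x ∈ H) (hy : y ∈ H) :
    (col H hS x).mem (col H hS y) = x.mem y := by
  rw [mem_col, hH.mem x hx y hy]
  refine iSup_congr fun k => ?_
  rw [col_eq hS hH x _ hx k.2]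

/-- equal values of membership -/
private lemma eq_top_of_mem {x y : S.HSet} (h : ∀ z : S.HSet, z.mem x = z.mem y) :
    x.eq y = ⊤ := by
  rw [eq_top_iff]
  exact HSet.le_eq (fun z => by rw [h]; exact inf_le_right)
    (fun z => by rw [h]; exact inf_le_right)

/-- a name all of whose elements are in `H` and are not changed is not changed -/
private lemma col_fix (x : S.HSet) (h : ∀ k, x.el k ∈ H ∧ (col H hS (x.el k)).eq (x.el k) = ⊤) :
    (col H hS x).eq x = ⊤ := by
  have e : ∀ (z : S.HSet) k, z.eq (col H hS (x.el k)) = z.eq (x.el k) := fun z k => by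
    rw [HSet.eq_symm z, HSet.eq_of_eq_top_left (h k).2, HSet.eq_symm]
  refine eq_top_of_mem fun z => ?_
  rw [mem_col, HSet.mem_eq z x]
  apply le_antisymm
  · refine iSup_le fun k => le_iSup_of_le k.1 ?_
    exact le_of_eq (congrArg _ (e z k.1))
  · refine iSup_le fun k => le_iSup_of_le ⟨k, (h k).1⟩ ?_
    exact le_of_eq (congrArg _ (e z k).symm)

private lemma num_el (n : ℕ) (k : (HSet.num S n).idx) :
    ∃ j < n, (HSet.num S n).el k = HSet.num S j := by
  have key : ∀ n : ℕ, ∀ k : (Name.num S.B n).idx, ∃ j < n, (Name.num S.B n).el k =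
      Name.num S.B j := by
    intro n
    induction n with
    | zero => intro k; exact Empty.elim k
    | succ n ih =>
      have key2 : ∀ (x : Name S.B) (k : x.succ.idx), x.succ.el k = x ∨
          ∃ l : x.idx, x.succ.el k = x.el l := by
        intro x k
        cases x with
        | mk ι f b =>
          change Option ι at k
          cases k with
          | none => exact Or.inl rfl
          | some i => exact Or.inr ⟨i, rfl⟩
      intro k
      rcases key2 (Name.num S.B n) k with h | ⟨l, hl⟩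
      · exact ⟨n, Nat.lt_succ_self n, h⟩
      · obtain ⟨j, hj, hj'⟩ := ih l
        exact ⟨j, by omega, hl.trans hj'⟩
  obtain ⟨j, hj, hj'⟩ := key n k
  exact ⟨j, hj, HSet.ext hj'⟩

lemma col_num (hH : Hull S H) (n : ℕ) : (col H hS (HSet.num S n)).eq (HSet.num S n) = ⊤ := by
  induction n using Nat.strong_induction_on with
  | _ n ih =>
    refine col_fix hS _ fun k => ?_
    obtain ⟨j, hj, hj'⟩ := num_el n k
    rw [hj']
    exact ⟨hH.num j, ih j hj⟩

lemma col_pair (hH : Hull S H) (x y : S.HSet) (hx : x ∈ H) (hy : y ∈ H) :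
    (col H hS (x.pair y)).eq ((col H hS x).pair (col H hS y)) = ⊤ := by
  refine eq_top_of_mem fun z => ?_
  rw [mem_col, HSet.mem_pair]
  apply le_antisymm
  · refine iSup_le ?_
    rintro ⟨k, hk⟩
    change Bool at k
    refine inf_le_right.trans ?_
    cases k with
    | true => exact le_sup_left
    | false => exact le_sup_right
  · refine sup_le ?_ ?_
    · refine le_iSup_of_le (⟨(true : Bool), hx⟩ : {k : (x.pair y).idx // (x.pair y).el k ∈ H}) ?_
      exact le_inf le_top le_rfl
    · refine le_iSup_of_le (⟨(false : Bool), hy⟩ : {k : (x.pair y).idx // (x.pair y).el k ∈ H}) ?_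
      exact le_inf le_top le_rfl

/-- a name for a subset of `ω` is not changed -/
lemma col_rnm (hH : Hull S H) (b : ℕ → S.B) (hb : SymB b) (h : HSet.rnm b hb ∈ H) :
    (col H hS (HSet.rnm b hb)).eq (HSet.rnm b hb) = ⊤ := by
  refine col_fix hS _ fun k => ?_
  exact ⟨hH.num k, col_num hS hH k⟩

/-- The collapse of an ordinal `i` with `chk i ∈ H` is the ordinal `i'` which has the order type of
`{j < i : chk j ∈ H}`. (`i'` exists in `Kt`: the order type of a subset of an initial segment; define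
`i'` by well-founded recursion as the least upper bound of the `j' + 1`, or use `Ordinal.typein`
and `Ordinal.enum`.) -/
theorem exists_col_chk (hH : Hull S H) :
    ∃ c : S.Kt → S.Kt, (∀ i, HSet.chk i ∈ H → (col H hS (HSet.chk i)).eq (HSet.chk (c i)) = ⊤) ∧
      (∀ i j, HSet.chk i ∈ H → HSet.chk j ∈ H → (i < j ↔ c i < c j)) ∧
      (∀ i, HSet.chk i ∈ H → ∀ k < c i, ∃ j < i, HSet.chk j ∈ H ∧ c j = k) ∧
      (Cardinal.mk {i : S.Kt | HSet.chk i ∈ H} = S.κ → ∀ k, ∃ i, HSet.chk i ∈ H ∧ c i = k) := by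
  classical
  let A : Set S.Kt := {i : S.Kt | HSet.chk i ∈ H}
  let e : ((· < ·) : A → A → Prop) ↪r ((· < ·) : S.Kt → S.Kt → Prop) :=
    ⟨⟨Subtype.val, Subtype.val_injective⟩, Iff.rfl⟩
  let g := e.collapse
  let c : S.Kt → S.Kt := fun i => if h : i ∈ A then g ⟨i, h⟩ else i
  have hc : ∀ i (h : i ∈ A), c i = g ⟨i, h⟩ := fun i h => dif_pos h
  have h2 : ∀ i j, i ∈ A → j ∈ A → (i < j ↔ c i < c j) := by
    intro i j hi hj
    rw [hc i hi, hc j hj]
    exact (g.map_rel_iff (a := ⟨i, hi⟩) (b := ⟨j, hj⟩)).symm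
  have h3 : ∀ i, i ∈ A → ∀ k < c i, ∃ j < i, j ∈ A ∧ c j = k := by
    intro i hi k hk
    rw [hc i hi] at hk
    obtain ⟨j, hj⟩ := g.mem_range_of_rel hk
    refine ⟨j.1, ?_, j.2, ?_⟩
    · rw [← hj] at hk
      exact (g.map_rel_iff (a := j) (b := ⟨i, hi⟩)).1 hk
    · rw [hc j.1 j.2]; exact hj
  refine ⟨c, ?_, h2, h3, ?_⟩
  · intro i
    induction i using WellFoundedLT.induction with
    | ind i ih =>
      intro hi
      refine eq_top_of_mem fun z => ?_
      have e1 : (HSet.chk i : S.HSet) = ⟨Name.mk {j : S.Kt // j < i} (fun j => chkN S j.1)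
          (fun _ => ⊤), chkN_eq i ▸ HS_chkN i, chkN_eq i ▸ Sm_chkN i⟩ := HSet.ext (chkN_eq i)
      rw [e1, mem_col, HSet.mem_chk]
      apply le_antisymm
      · refine iSup_le ?_
        rintro ⟨⟨j, hj⟩, hj'⟩
        change HSet.chk j ∈ H at hj'
        refine inf_le_right.trans ?_
        refine le_iSup_of_le ⟨c j, (h2 j i hj' hi).1 hj⟩ ?_
        change z.eq (col H hS (HSet.chk j)) ≤ _
        rw [HSet.eq_symm z, HSet.eq_of_eq_top_left (ih j hj hj'), HSet.eq_symm]
      · refine iSup_le ?_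
        rintro ⟨k, hk⟩
        obtain ⟨j, hj, hj', rfl⟩ := h3 i hi k hk
        refine le_iSup_of_le ⟨⟨j, hj⟩, hj'⟩ ?_
        refine le_inf le_top ?_
        change _ ≤ z.eq (col H hS (HSet.chk j))
        rw [HSet.eq_symm z (col H hS _), HSet.eq_of_eq_top_left (ih j hj hj'), HSet.eq_symm]
  · intro hcard k
    by_contra hk
    push Not at hk
    have h4 : ∀ a : A, g a < k := by
      intro a
      by_contra h5
      rw [not_lt] at h5
      rcases h5.lt_or_eq with h6 | h6
      · obtain ⟨j, hj⟩ := g.mem_range_of_rel h6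
        exact hk j.1 j.2 ((hc j.1 j.2).trans hj)
      · exact hk a.1 a.2 ((hc a.1 a.2).trans h6.symm)
    have h5 : Cardinal.mk A ≤ Cardinal.mk {j : S.Kt // j < k} :=
      Cardinal.mk_le_of_injective (f := fun a : A => (⟨g a, h4 a⟩ : {j : S.Kt // j < k}))
        (fun a b hab => g.injective (congrArg Subtype.val hab))
    exact absurd (h5.trans_lt (Kt_small k)) (by rw [show Cardinal.mk A = S.κ from hcard]; exact lt_irrefl _)

private lemma ccc_bound {B : Type} [CompleteBooleanAlgebra B] (hB : CCC B) {K : Type}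
    (E : ℕ → K → B) :
    ∃ C : Set K, C.Countable ∧ ∀ n, ∀ i ∉ C, E n i ⊓
      (⨅ m : ℕ, ⨅ i : K, ⨅ j : {j : K // j ≠ i}, (E m i ⊓ E m j.1)ᶜ) = ⊥ := by
  generalize hV : (⨅ m : ℕ, ⨅ i : K, ⨅ j : {j : K // j ≠ i}, (E m i ⊓ E m j.1)ᶜ) = V
  have hV' : ∀ n i j, j ≠ i → V ≤ (E n i ⊓ E n j)ᶜ := by
    intro n i j hne
    rw [← hV]
    exact (iInf_le _ n).trans ((iInf_le _ i).trans
      (iInf_le (fun j : {j : K // j ≠ i} => (E n i ⊓ E n j.1)ᶜ) ⟨j, hne⟩))
  have h1 : ∀ n, ∃ C : Set K, C.Countable ∧ ∀ i ∉ C, E n i ⊓ V = ⊥ := by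
    intro n
    obtain ⟨A, hA, hA'⟩ := hB (ULift K) (fun i => E n i.down ⊓ V)
    refine ⟨ULift.down '' A, hA.image _, fun i hi => ?_⟩
    have h2 : E n i ⊓ V ≤ ⨆ j ∈ A, E n j.down ⊓ V := by
      rw [← hA']
      exact le_iSup (fun i : ULift K => E n i.down ⊓ V) (ULift.up i)
    rw [← le_bot_iff]
    calc E n i ⊓ V ≤ (E n i ⊓ V) ⊓ ⨆ j ∈ A, E n j.down ⊓ V := le_inf le_rfl h2
      _ = ⨆ j ∈ A, (E n i ⊓ V) ⊓ (E n j.down ⊓ V) := by
          rw [inf_iSup_eq]
          exact iSup_congr fun j => by rw [inf_iSup_eq]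
      _ ≤ ⊥ := by
          refine iSup_le fun j => iSup_le fun hj => ?_
          have hne : j.down ≠ i := fun h => hi ⟨j, hj, h⟩
          calc (E n i ⊓ V) ⊓ (E n j.down ⊓ V) ≤ (E n i ⊓ E n j.down) ⊓ (E n i ⊓ E n j.down)ᶜ :=
                le_inf (le_inf (inf_le_left.trans inf_le_left) (inf_le_right.trans inf_le_left))
                  ((inf_le_left.trans inf_le_right).trans (hV' n i j.down hne))
            _ ≤ ⊥ := by rw [inf_compl_self]
  choose C hC hC' using h1
  exact ⟨⋃ n, C n, Set.countable_iUnion hC, fun n i hi =>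
    hC' n i (fun h => hi (Set.mem_iUnion.2 ⟨n, h⟩))⟩

/-- bound for the values of names of functions from `ω` to `ω₁`: for every name `σ` there is a
countable set `C` of ordinals `i` such that for every `n` and every `i ∉ C`:
`(n, i) ∈ σ` is incompatible with '`σ` is single-valued on the ordinals'. By (CCC), as for fixed `n`
the values `((n, i) ∈ σ) ⊓ singleValued` are pairwise disjoint. -/
theorem exists_bound (hB : CCC S.B) (σ : S.HSet) :
    ∃ C : Set S.Kt, C.Countable ∧ ∀ n, ∀ i ∉ C,
      ((HSet.num S n).opair (HSet.chk i)).mem σ ⊓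
        (⨅ m : ℕ, ⨅ i : S.Kt, ⨅ j : {j : S.Kt // j ≠ i},
          (((HSet.num S m).opair (HSet.chk i)).mem σ ⊓
            ((HSet.num S m).opair (HSet.chk j.1)).mem σ)ᶜ) = ⊥ := by
  exact ccc_bound hB (fun m i => ((HSet.num S m).opair (HSet.chk i)).mem σ)

end KSys

end Pool.Agent.Lib.KZF
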