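import Mathlib
import Pool.Agent.Lib.MP_c00cb7_lc.Setup
import Pool.Agent.Lib.MP_c00cb7_lc.KTriv

/-!
# The Boolean-valued model over a small sweet preorder, and its embedding
-/

set_option autoImplicit false

open Set

namespace Pool.Agent.Lib.BPLM

open Pool.Agent.Lib.SymZF Pool.Agent.Lib.KZF Pool.Agent.Lib.KZF.KSys

/-- the preorder of the elements of a sweet preorder -/
def QP {U : Type} (Q : Sw U) : Type := {x : U // x ∈ Q.X}

instance {U : Type} (Q : Sw U) : Preorder (QP Q) where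
  le a b := Q.le a.1 b.1
  le_refl a := Q.refl _ a.2
  le_trans a b c h h' := Q.trans _ a.2 _ b.2 _ c.2 h h'

/-- an element of `QP Q` -/
def mkQ {U : Type} {Q : Sw U} (z : U) (hz : z ∈ Q.X) : QP Q := ⟨z, hz⟩

theorem QP.le_def {U : Type} {Q : Sw U} (a b : QP Q) : a ≤ b ↔ Q.le a.1 b.1 := Iff.rfl

/-- By `Sw.ccc`: a maximal family of disjoint nonzero elements of the form `em x`, each below some
`b i`, is countable. -/
theorem ccc_QP {U : Type} (Q : Sw U) : CCC (RB (QP Q)) := by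
  classical
  intro I b
  let P : ℕ → Prop := fun m => ∃ i : I, ∃ x : QP Q, em x ≤ b i ∧ Q.cd 0 x.1 = m
  let A : Set I := {i | ∃ m, ∃ h : P m, h.choose = i}
  have hA : A.Countable := by
    have h1 : A = range (fun m : {m : ℕ // P m} => m.2.choose) := by
      ext i
      simp only [mem_range, Subtype.exists]
      rfl
    rw [h1]
    exact countable_range _
  refine ⟨A, hA, le_antisymm ?_ (iSup₂_le fun i _ => le_iSup b i)⟩
  refine le_of_forall_em fun q hq => ?_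
  obtain ⟨r, i, hrq, hri⟩ := exists_le_of_le_iSup hq
  have hP : P (Q.cd 0 r.1) := ⟨i, r, hri, rfl⟩
  obtain ⟨x, hx, hcd⟩ := hP.choose_spec
  obtain ⟨z, hz, h1, h2, -⟩ := Q.dir 0 r.1 r.2 x.1 x.2 hcd.symm
  refine ⟨mkQ z hz, le_trans (b := r) h1 hrq, ?_⟩
  refine (em_mono (p := (mkQ z hz : QP Q)) (q := x) h2).trans (hx.trans ?_)
  exact le_iSup₂_of_le hP.choose ⟨_, hP, rfl⟩ le_rfl

theorem RB_QP_ne {U : Type} (Q : Sw U) : (⊥ : RB (QP Q)) ≠ ⊤ := by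
  intro h
  apply em_ne_bot (mkQ Q.top Q.top_mem : QP Q)
  rw [← le_bot_iff, h]
  exact le_top

namespace Setup

variable {D : Setup}

theorem card_RB_QP (Q : Sw D.U) : Cardinal.mk (RB (QP Q)) < D.κ := by
  have h2 : Cardinal.mk (RB (QP Q)) ≤ 2 ^ Cardinal.mk (QP Q) := by
    rw [← Cardinal.mk_set]
    refine Cardinal.mk_le_of_injective (f := fun b : RB (QP Q) => b.st) ?_
    intro a b hab
    refine Heyting.Regular.coe_injective ?_
    exact LowerSet.ext hab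
  have h1 : Cardinal.mk (QP Q) ≤ Cardinal.mk D.U := Cardinal.mk_subtype_le _
  refine (h2.trans (Cardinal.power_le_power_left two_ne_zero h1)).trans_lt ?_
  exact D.inacc.isStrongLimit.isStrongPrelimit D.hUκ

/-- the system of `Q`: all names over the algebra of `Q` -/
noncomputable def qs (Q : Sw D.U) : KSys := trivSys (RB (QP Q)) D.κ D.inacc (card_RB_QP Q)

theorem qs_HS (Q : Sw D.U) (x : Name (qs Q).B) : (qs Q).HS x := HS_triv _ _ _ _ x

/-- an element of `Q` in its algebra -/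
noncomputable def emQ {Q : Sw D.U} (x : QP Q) : (qs Q).B := (em x : RB (QP Q))

lemma le_of_forall_emQ {Q : Sw D.U} {a b : (qs Q).B}
    (h : ∀ q : QP Q, emQ q ≤ a → ∃ r, r ≤ q ∧ emQ r ≤ b) : a ≤ b :=
  le_of_forall_em (P := QP Q) h

/-- the embedding of the algebra of `Q` into the algebra `D.B` -/
noncomputable def jm (Q : Sw D.U) (b : (qs Q).B) : D.B := ⨆ (x : QP Q) (_ : emQ x ≤ b), eS Q x.1

lemma emQ_mono {Q : Sw D.U} {x y : QP Q} (h : x ≤ y) : emQ x ≤ emQ y := em_mono h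

lemma emQ_ne_bot {Q : Sw D.U} (x : QP Q) : emQ x ≠ ⊥ := em_ne_bot x

lemma emQ_le_iff {Q : Sw D.U} (x y : QP Q) : emQ x ≤ emQ y ↔ x ≤ y := by
  refine ⟨fun h => ?_, emQ_mono⟩
  refine Q.sep x.1 x.2 y.1 y.2 fun z hz hzx => ?_
  have h1 : (em (mkQ z hz : QP Q) : RB (QP Q)) ≤ em y :=
    (em_mono (p := (mkQ z hz : QP Q)) (q := x) hzx).trans h
  obtain ⟨w, h2, h3⟩ := BPLM.exists_le_of_em_le h1
  exact ⟨w.1, w.2, h2, h3⟩

lemma exists_le_of_emQ_le_iSup {Q : Sw D.U} {ι : Sort*} {q : QP Q} {b : ι → (qs Q).B}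
    (h : emQ q ≤ ⨆ i, b i) : ∃ r i, r ≤ q ∧ emQ r ≤ b i :=
  BPLM.exists_le_of_le_iSup (P := QP Q) (b := b) h

lemma emQ_le_of_forall {Q : Sw D.U} {q : QP Q} {b : (qs Q).B}
    (h : ∀ r, r ≤ q → ∃ s, s ≤ r ∧ emQ s ≤ b) : emQ q ≤ b :=
  em_le_of_forall (P := QP Q) (b := b) h

/-- Two elements of `Q` above a condition have a common lower bound in `Q` above an extension of
the condition. -/
lemma exists_common {Q : Sw D.U} (hQ : Q.Small) {c : Cond D.U} {x y : D.U} (hx : x ∈ Q.X)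
    (hy : y ∈ Q.X) (h1 : c ≤ ⟨Q, x, hx, hQ⟩) (h2 : c ≤ ⟨Q, y, hy, hQ⟩) :
    ∃ w, ∃ hw : w ∈ Q.X, Q.le w x ∧ Q.le w y ∧ ∃ d, d ≤ c ∧ d ≤ ⟨Q, w, hw, hQ⟩ := by
  obtain ⟨r, hr, hr'⟩ := h1.1.red c.x c.mem
  have hsub := h1.1
  have hS1 : c.S.le c.x x := h1.2
  have hS2 : c.S.le c.x y := h2.2
  have hx' := hsub.sub hx
  have hy' := hsub.sub hy
  have hr1 := hsub.sub hr
  -- `r` and `x`
  have k1 : Q.cmp r x := by
    obtain ⟨z, hz, h3, h4⟩ := hr' r hr (Q.refl r hr)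
    exact hsub.cmp_of r hr x hx ⟨z, hz, h3, c.S.trans _ hz _ c.mem _ hx' h4 hS1⟩
  obtain ⟨v, hv, hvr, hvx⟩ := k1
  have k2 : Q.cmp v y := by
    obtain ⟨z, hz, h3, h4⟩ := hr' v hv hvr
    exact hsub.cmp_of v hv y hy ⟨z, hz, h3, c.S.trans _ hz _ c.mem _ hy' h4 hS2⟩
  obtain ⟨w, hw, hwv, hwy⟩ := k2
  obtain ⟨z, hz, h3, h4⟩ := hr' w hw (Q.trans _ hw _ hv _ hr hwv hvr)
  exact ⟨w, hw, Q.trans _ hw _ hv _ hx hwv hvx, hwy, ⟨c.S, z, hz, c.small⟩,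
    ⟨Sw.Sub.refl _, h4⟩, ⟨hsub, h3⟩⟩

lemma eS_le_jm {Q : Sw D.U} (x : QP Q) {b : (qs Q).B} (h : emQ x ≤ b) : eS Q x.1 ≤ jm Q b :=
  le_iSup₂_of_le x h le_rfl

variable {Q : Sw D.U} (hQ : Q.Small)
include hQ

theorem jm_em (x : QP Q) : jm Q (emQ x) = eS Q x.1 := by
  have _ := hQ
  refine le_antisymm (iSup₂_le fun y hy => ?_) (eS_le_jm x le_rfl)
  exact eS_mono y.2 x.2 ((emQ_le_iff y x).1 hy)

omit hQ in
theorem jm_mono {a b : (qs Q).B} (h : a ≤ b) : jm Q a ≤ jm Q b :=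
  iSup₂_le fun y hy => eS_le_jm y (hy.trans h)

theorem jm_top : jm Q (⊤ : (qs Q).B) = eS Q Q.top := by
  have _ := hQ
  refine le_antisymm (iSup₂_le fun y _ => eS_mono y.2 Q.top_mem (Q.le_top _ y.2)) ?_
  exact eS_le_jm (mkQ Q.top Q.top_mem : QP Q) le_top

omit hQ in
theorem jm_bot : jm Q (⊥ : (qs Q).B) = ⊥ := by
  rw [← le_bot_iff]
  refine iSup₂_le fun y hy => ?_
  exact absurd (le_bot_iff.1 hy) (emQ_ne_bot y)

/-- `jm` preserves finite meets: for a condition below `jm a ⊓ jm b` there are `x, y ∈ Q` with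
`emQ x ≤ a`, `emQ y ≤ b` and an extension `(T, z)` with `Q ≤ T`, `z ≤ x, y`; take `w ≤ x, y` in `Q`
(by `cmp_of`), and so on (densely). -/
theorem jm_inf (a b : (qs Q).B) : jm Q (a ⊓ b) = jm Q a ⊓ jm Q b := by
  apply le_antisymm
  · exact le_inf (jm_mono inf_le_left) (jm_mono inf_le_right)
  refine le_of_forall_e fun q hq => ?_
  have h1 : e q ≤ ⨆ (x : {x : QP Q // emQ x ≤ a}), eS Q x.1.1 := by
    rw [iSup_subtype]
    exact hq.trans inf_le_left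
  obtain ⟨r, ⟨x, hx⟩, hrq, hrx⟩ := exists_le_of_le_iSup h1
  have h2 : e r ≤ ⨆ (x : {x : QP Q // emQ x ≤ b}), eS Q x.1.1 := by
    rw [iSup_subtype]
    exact (e_mono hrq).trans (hq.trans inf_le_right)
  obtain ⟨s, ⟨y, hy⟩, hsr, hsy⟩ := exists_le_of_le_iSup h2
  have h3 : e s ≤ e (⟨Q, x.1, x.2, hQ⟩ : Cond D.U) := by
    rw [← eS_eq Q x.1 x.2 hQ]
    exact (e_mono hsr).trans hrx
  obtain ⟨t, hts, htx⟩ := exists_le_of_e_le h3
  have h4 : e t ≤ e (⟨Q, y.1, y.2, hQ⟩ : Cond D.U) := by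
    rw [← eS_eq Q y.1 y.2 hQ]
    exact (e_mono hts).trans hsy
  obtain ⟨u, hut, huy⟩ := exists_le_of_e_le h4
  obtain ⟨w, hw, hwx, hwy, d, hdu, hdw⟩ := exists_common hQ x.2 y.2 (hut.trans htx) huy
  refine ⟨d, hdu.trans (hut.trans (hts.trans (hsr.trans hrq))), ?_⟩
  have h5 : eS Q w ≤ jm Q (a ⊓ b) := by
    refine eS_le_jm (mkQ w hw : QP Q) (le_inf ?_ ?_)
    · exact (emQ_mono (x := (mkQ w hw : QP Q)) (y := x) hwx).trans hx
    · exact (emQ_mono (x := (mkQ w hw : QP Q)) (y := y) hwy).trans hy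
  refine le_trans ?_ h5
  rw [eS_eq Q w hw hQ]
  exact e_mono hdw

/-- Key: if `x ∈ Q` with `eS Q x ≤ jm b` then `emQ x ≤ b`. -/
theorem le_of_eS_le_jm {x : QP Q} {b : (qs Q).B} (h : eS Q x.1 ≤ jm Q b) : emQ x ≤ b := by
  refine emQ_le_of_forall fun r hr => ?_
  have h1 : e (⟨Q, r.1, r.2, hQ⟩ : Cond D.U) ≤ ⨆ (x : {x : QP Q // emQ x ≤ b}), eS Q x.1.1 := by
    rw [iSup_subtype, ← eS_eq Q r.1 r.2 hQ]
    exact (eS_mono r.2 x.2 hr).trans h
  obtain ⟨c, ⟨y, hy⟩, hc, hcy⟩ := exists_le_of_le_iSup h1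
  rw [eS_eq Q y.1 y.2 hQ] at hcy
  obtain ⟨d, hdc, hdy⟩ := exists_le_of_e_le hcy
  obtain ⟨w, hw, hwr, hwy, -⟩ := exists_common hQ r.2 y.2 (hdc.trans hc) hdy
  exact ⟨mkQ w hw, hwr, (emQ_mono (x := (mkQ w hw : QP Q)) (y := y) hwy).trans hy⟩

theorem jm_iSup {I : Sort*} (b : I → (qs Q).B) : jm Q (⨆ i, b i) = ⨆ i, jm Q (b i) := by
  apply le_antisymm
  · refine iSup₂_le fun x hx => ?_
    have hpd : Q.Pd {y | ∃ h : y ∈ Q.X, ∃ i, emQ (mkQ y h : QP Q) ≤ b i} x.1 := by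
      intro w hw hwx
      obtain ⟨r, i, hrw, hri⟩ := exists_le_of_emQ_le_iSup (q := (mkQ w hw : QP Q))
        ((emQ_mono (x := (mkQ w hw : QP Q)) (y := x) hwx).trans hx)
      exact ⟨r.1, ⟨r.2, i, hri⟩, r.1, r.2, hrw, Q.refl _ r.2⟩
    refine (eS_le_iSup hQ (fun y hy => hy.choose) x.2 hpd).trans ?_
    refine iSup₂_le fun y hy => ?_
    obtain ⟨hy1, i, hi⟩ := hy
    exact (eS_le_jm (mkQ y hy1 : QP Q) hi).trans (le_iSup (fun i => jm Q (b i)) i)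
  · exact iSup_le fun i => jm_mono (le_iSup b i)

theorem jm_sup (a b : (qs Q).B) : jm Q (a ⊔ b) = jm Q a ⊔ jm Q b := by
  have h := jm_iSup hQ (fun i : Bool => cond i a b)
  rw [iSup_bool_eq, iSup_bool_eq] at h
  exact h

theorem jm_le (b : (qs Q).B) : jm Q b ≤ eS Q Q.top := by
  rw [← jm_top hQ]
  exact jm_mono le_top

theorem jm_compl (b : (qs Q).B) : jm Q bᶜ = eS Q Q.top ⊓ (jm Q b)ᶜ := by
  apply le_antisymm
  · refine le_inf (jm_le hQ _) ?_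
    rw [le_compl_iff_disjoint_right, disjoint_iff, ← jm_inf hQ, compl_inf_self, jm_bot]
  · have h : eS Q Q.top = jm Q b ⊔ jm Q bᶜ := by
      rw [← jm_sup hQ, sup_compl_eq_top, jm_top hQ]
    rw [h, inf_sup_right, inf_compl_self, bot_sup_eq]
    exact inf_le_left

theorem jm_iInf {I : Sort*} (b : I → (qs Q).B) :
    jm Q (⨅ i, b i) = eS Q Q.top ⊓ ⨅ i, jm Q (b i) := by
  apply le_antisymm
  · exact le_inf (jm_le hQ _) (le_iInf fun i => jm_mono (iInf_le b i))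
  · have h : (⨅ i, b i) = (⨆ i, (b i)ᶜ)ᶜ := by simp [compl_iSup]
    rw [h, jm_compl hQ, jm_iSup hQ, compl_iSup]
    refine le_inf inf_le_left (le_iInf fun i => ?_)
    rw [jm_compl hQ, compl_inf, compl_compl]
    exact inf_le_right.trans ((iInf_le _ i).trans le_sup_right)

theorem jm_himp (a b : (qs Q).B) : jm Q (a ⇨ b) = eS Q Q.top ⊓ (jm Q a ⇨ jm Q b) := by
  rw [himp_eq, himp_eq, jm_sup hQ, jm_compl hQ, inf_sup_left,
    inf_eq_right.2 (jm_le hQ b)]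

omit hQ in
theorem α_jm (g : Equiv.Perm D.U) (hg : ∀ x ∈ Q.X, g x = x) (b : (qs Q).B) :
    D.sys.α g (jm Q b) = jm Q b := by
  unfold jm
  rw [OrderIso.map_iSup]
  refine iSup_congr fun x => ?_
  rw [OrderIso.map_iSup]
  refine iSup_congr fun _ => ?_
  exact α_eS_fix g Q hg x.1

end Setup

end Pool.Agent.Lib.BPLM
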