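import Mathlib
import Pool.Agent.Lib.MP_c00cb7_lc.QEmb
import Pool.Agent.Lib.MP_c00cb7_lc.Capture
import Pool.Agent.Lib.MP_c00cb7_lc.Setup

/-!
# Countable generic models meeting countably many tasks
-/

set_option autoImplicit false

open Set

namespace Pool.Agent.Lib.BPLM

open Pool.Agent.Lib.SymZF Pool.Agent.Lib.KZF Pool.Agent.Lib.KZF.KSys Setup

/-- The objects collected during the construction: symmetric names, sequences of strings, pairs (small
sweet preorder, set of names over it), and elements of such sets of names. -/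
inductive XX (D : Setup) : Type 1
  | nm (x : D.sys.HSet) : XX D
  | tt (t : ℕ → List Bool) : XX D
  | hd (Q : Sw D.U) (H : Set (qs Q).HSet) : XX D
  | hs (Q : Sw D.U) (H : Set (qs Q).HSet) (σ : (qs Q).HSet) : XX D

variable {D : Setup}

/-- the symmetric name contained in an object (`0` for objects of the other kinds) -/
noncomputable def XX.name : XX D → D.sys.HSet
  | .nm x => x
  | _ => HSet.num D.sys 0

/-- the default object -/
noncomputable def XX.dflt : XX D := .nm (HSet.num D.sys 0)

/-- the `i`-th object of a list -/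
noncomputable def XX.at (l : List (XX D)) (i : ℕ) : XX D := l.getD i XX.dflt

/-- the assignment given by a list of objects -/
noncomputable def XX.asg (l : List (XX D)) : ℕ → D.sys.HSet := fun i => (XX.at l i).name

/-- A task: below `goal l` witnesses are dense. -/
structure Task (D : Setup) where
  /-- the Boolean value of the assumption -/
  goal : List (XX D) → D.B
  /-- the witnesses -/
  wit : List (XX D) → Cond D.U → XX D → Prop
  dense : ∀ l c, e c ≤ goal l → ∃ d ≤ c, ∃ y, wit l d y

/-- `⨆ j, f l j` in the filter implies `f l j` in the filter for some `j` -/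
noncomputable def Task.sup {J : Type*} (f : List (XX D) → J → D.B) : Task D where
  goal l := ⨆ j, f l j
  wit l c _ := ∃ j, e c ≤ f l j
  dense l c h := by
    obtain ⟨r, i, h1, h2⟩ := exists_le_of_le_iSup h
    exact ⟨r, h1, XX.dflt, i, h2⟩

/-- closure under a function -/
noncomputable def Task.fn (F : List (XX D) → XX D) : Task D where
  goal _ := ⊤
  wit l _ y := y = F l
  dense l c _ := ⟨c, le_rfl, F l, rfl⟩

/-- existence of an object `y` with `W l y` in the filter -/
noncomputable def Task.obj (g : List (XX D) → D.B) (W : List (XX D) → XX D → D.B)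
    (h : ∀ l, g l ≤ ⨆ y, W l y) : Task D where
  goal := g
  wit l c y := e c ≤ W l y
  dense l c hc := by
    obtain ⟨r, i, h1, h2⟩ := exists_le_of_le_iSup (hc.trans (h l))
    exact ⟨r, h1, i, h2⟩

/-- A sequence of objects and a decreasing sequence of conditions. -/
structure Mod (D : Setup) where
  /-- the objects -/
  ξ : ℕ → XX D
  /-- the conditions -/
  c : ℕ → Cond D.U
  anti : ∀ n, c (n + 1) ≤ c n

namespace Mod

variable (m : Mod D)

/-- the filter generated by the conditions -/
def U : Set D.B := {b | ∃ n, e (m.c n) ≤ b}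

variable {m}

theorem anti_le {i j : ℕ} (h : i ≤ j) : m.c j ≤ m.c i :=
  antitone_nat_of_succ_le m.anti h

theorem up {a b : D.B} (h : a ∈ m.U) (hab : a ≤ b) : b ∈ m.U := by
  obtain ⟨n, hn⟩ := h
  exact ⟨n, hn.trans hab⟩

theorem inf {a b : D.B} (h : a ∈ m.U) (h' : b ∈ m.U) : a ⊓ b ∈ m.U := by
  obtain ⟨n, hn⟩ := h
  obtain ⟨k, hk⟩ := h'
  exact ⟨max n k, le_inf ((e_mono (anti_le (le_max_left n k))).trans hn)
    ((e_mono (anti_le (le_max_right n k))).trans hk)⟩

theorem bot : (⊥ : D.B) ∉ m.U := by
  rintro ⟨n, hn⟩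
  exact e_ne_bot _ (le_bot_iff.1 hn)

theorem top : (⊤ : D.B) ∈ m.U := ⟨0, le_top⟩

theorem compl_mem {a : D.B} (h : a ∈ m.U) (h' : aᶜ ∈ m.U) : False :=
  bot (up (inf h h') (by simp))

/-- the objects and the filter meet the task -/
def Meets (m : Mod D) (T : Task D) : Prop :=
  ∀ l : List ℕ, (T.goal (l.map m.ξ))ᶜ ∈ m.U ∨ ∃ n k, T.wit (l.map m.ξ) (m.c n) (m.ξ k)

theorem Meets.sup {J : Type*} {f : List (XX D) → J → D.B} (h : m.Meets (Task.sup f))
    (l : List ℕ) : (∃ j, f (l.map m.ξ) j ∈ m.U) ∨ (⨆ j, f (l.map m.ξ) j)ᶜ ∈ m.U := by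
  rcases h l with h1 | ⟨n, k, j, hj⟩
  · exact Or.inr h1
  · exact Or.inl ⟨j, n, hj⟩

theorem Meets.fn {F : List (XX D) → XX D} (h : m.Meets (Task.fn F)) (l : List ℕ) :
    ∃ k, m.ξ k = F (l.map m.ξ) := by
  rcases h l with h1 | ⟨n, k, hk⟩
  · exact (compl_mem top h1).elim
  · exact ⟨k, hk⟩

theorem Meets.obj {g : List (XX D) → D.B} {W : List (XX D) → XX D → D.B}
    {h : ∀ l, g l ≤ ⨆ y, W l y} (h : m.Meets (Task.obj g W h)) (l : List ℕ)
    (hg : g (l.map m.ξ) ∈ m.U) : ∃ k, W (l.map m.ξ) (m.ξ k) ∈ m.U := by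
  rcases h l with h1 | ⟨n, k, hk⟩
  · exact (compl_mem hg h1).elim
  · exact ⟨k, n, hk⟩

end Mod

/-- a trivial condition -/
private theorem nonempty_cond (D : Setup) : Nonempty (Cond D.U) := by
  have hU : Cardinal.mk D.U ≠ 0 := by
    intro h
    have := D.hU
    rw [h] at this
    exact absurd this not_lt_zero
  obtain ⟨u⟩ := Cardinal.mk_ne_zero_iff.1 hU
  refine ⟨{
    S := {
      X := {u}
      top := u
      le := fun _ _ => True
      cd := fun _ _ => 0
      top_mem := rfl
      refl := fun _ _ => trivial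
      trans := fun _ _ _ _ _ _ _ _ => trivial
      le_top := fun _ _ => trivial
      sep := fun _ _ _ _ _ => trivial
      mono := fun _ _ _ _ _ _ => rfl
      dir := fun _ x hx _ _ _ => ⟨x, hx, trivial, trivial, rfl⟩
      lim := fun _ y _ hy _ _ => ⟨y, hy, fun _ _ => trivial, rfl⟩
      W := fun _ _ _ y _ hy _ =>
        ⟨y, hy, trivial, fun _ => ⟨0, fun _ _ _ => ⟨y, hy, fun _ => trivial, rfl⟩⟩⟩
      iso := fun _ hx _ => hx }
    x := u
    mem := rfl
    small := ?_ }⟩
  change Cardinal.mk ({u} : Set D.U) ≤ Cardinal.continuum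
  rw [Cardinal.mk_singleton]
  exact (Cardinal.one_le_aleph0).trans Cardinal.aleph0_le_continuum

/-- Existence of countable generic sequences. At stage `n` the objects `ξ 0, …, ξ (n - 1)` and the
condition `c n` are given; let `n = Nat.pair i k`, and let `i` code a pair `(j, l)`, `j` (a code
of) a task, `l : List ℕ`. If all entries of `l` are `< n` then decide whether the goal of the task at
`l.map ξ` holds: there is `r ≤ c n` with `e r ≤ goal` or `e r ≤ goalᶜ` (`decide_or`), in the first
case `dense` gives `c (n + 1) ≤ r` and the object `ξ n`; otherwise `ξ n` is the default object. -/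
theorem exists_mod {J : Type} [Countable J] (T : J → Task D) :
    ∃ m : Mod D, ∀ j, m.Meets (T j) := by
  classical
  obtain ⟨c₀⟩ := nonempty_cond D
  obtain ⟨enum, henum⟩ := exists_surjective_nat (Option (J × List ℕ))
  have hstep : ∀ (n : ℕ) (ξ : ℕ → XX D) (c : Cond D.U), ∃ (c' : Cond D.U) (y : XX D), c' ≤ c ∧
      ∀ j l, enum n.unpair.1 = some (j, l) →
        (e c' ≤ ((T j).goal (l.map ξ))ᶜ ∨ (T j).wit (l.map ξ) c' y) := by
    intro n ξ c
    rcases hen : enum n.unpair.1 with _ | ⟨j, l⟩
    · refine ⟨c, XX.dflt, le_rfl, fun j l h => ?_⟩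
      exact absurd h (by simp)
    · obtain ⟨r, hrc, h1 | h1⟩ := Setup.decide_or c ((T j).goal (l.map ξ))
      · obtain ⟨d, hdr, y, hy⟩ := (T j).dense _ _ h1
        refine ⟨d, y, hdr.trans hrc, fun j' l' h => Or.inr ?_⟩
        simp only [Option.some.injEq, Prod.mk.injEq] at h
        obtain ⟨rfl, rfl⟩ := h
        exact hy
      · refine ⟨r, XX.dflt, hrc, fun j' l' h => Or.inl ?_⟩
        simp only [Option.some.injEq, Prod.mk.injEq] at h
        obtain ⟨rfl, rfl⟩ := h
        exact h1
  choose nc ny hnc hny using hstep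
  let s : ℕ → (ℕ → XX D) × Cond D.U := fun n => Nat.rec (fun _ => XX.dflt, c₀)
    (fun n st => (Function.update st.1 n (ny n st.1 st.2), nc n st.1 st.2)) n
  have hs : ∀ n, s (n + 1) = (Function.update (s n).1 n (ny n (s n).1 (s n).2),
      nc n (s n).1 (s n).2) := fun n => rfl
  have hagree : ∀ m i, i < m → (s m).1 i = (s (i + 1)).1 i := by
    intro m
    induction m with
    | zero => intro i hi; exact absurd hi (Nat.not_lt_zero i)
    | succ m ih =>
      intro i hi
      rcases Nat.lt_succ_iff_lt_or_eq.1 hi with h | rfl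
      · rw [← ih i h, hs m]
        exact Function.update_of_ne h.ne _ _
      · rfl
  let m : Mod D :=
    { ξ := fun n => (s (n + 1)).1 n
      c := fun n => (s n).2
      anti := fun n => by
        rw [hs]
        exact hnc n _ _ }
  refine ⟨m, fun j l => ?_⟩
  obtain ⟨i, hi⟩ := henum (some (j, l))
  have hn : enum (Nat.pair i (l.sum + 1)).unpair.1 = some (j, l) := by
    rw [Nat.unpair_pair]
    exact hi
  have hlt : ∀ a ∈ l, a < Nat.pair i (l.sum + 1) := by
    intro a ha
    have h1 : a ≤ l.sum := List.le_sum_of_mem ha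
    have h2 := Nat.right_le_pair i (l.sum + 1)
    omega
  have hmap : l.map (s (Nat.pair i (l.sum + 1))).1 = l.map m.ξ := by
    apply List.map_congr_left
    intro a ha
    exact hagree _ a (hlt a ha)
  rcases hny _ (s (Nat.pair i (l.sum + 1))).1 (s (Nat.pair i (l.sum + 1))).2 j l hn with h | h
  · rw [hmap] at h
    exact Or.inl ⟨Nat.pair i (l.sum + 1) + 1, h⟩
  · rw [hmap] at h
    refine Or.inr ⟨Nat.pair i (l.sum + 1) + 1, Nat.pair i (l.sum + 1), ?_⟩
    have h3 : m.ξ (Nat.pair i (l.sum + 1)) = ny (Nat.pair i (l.sum + 1))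
        (s (Nat.pair i (l.sum + 1))).1 (s (Nat.pair i (l.sum + 1))).2 := by
      change (s (Nat.pair i (l.sum + 1) + 1)).1 _ = _
      rw [hs]
      exact Function.update_self _ _ _
    rw [h3]
    exact h

/-! ### The model -/

/-- the basic tasks -/
inductive BaseJ : Type
  | dec (φ : Fml)
  | ex (φ : Fml)
  | mem
  | num (n : ℕ)
  | om
  | pair
deriving Countable

/-- the basic tasks: deciding formulas, witnesses for existential formulas, elements of names,
numerals, `ω` and pairs -/
noncomputable def baseTask (D : Setup) : BaseJ → Task D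
  | .dec φ => Task.sup (J := Unit) fun l _ => bval φ (XX.asg l)
  | .ex φ => Task.obj (fun l => ⨆ x : D.sys.HSet, bval φ (scons x (XX.asg l)))
      (fun l y => bval φ (scons y.name (XX.asg l)))
      (fun l => iSup_le fun x => le_iSup_of_le (XX.nm x) le_rfl)
  | .mem =>
    { goal := fun l => (XX.asg l 0).mem (XX.asg l 1)
      wit := fun l c y => ∃ k : (XX.asg l 1).idx, y = XX.nm ((XX.asg l 1).el k) ∧
        e c ≤ (XX.asg l 1).vl k ⊓ (XX.asg l 0).eq ((XX.asg l 1).el k)
      dense := fun l c h => by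
        rw [HSet.mem_eq] at h
        obtain ⟨r, i, h1, h2⟩ := exists_le_of_le_iSup h
        exact ⟨r, h1, _, i, rfl, h2⟩ }
  | .num n => Task.fn fun _ => XX.nm (HSet.num D.sys n)
  | .om => Task.fn fun _ => XX.nm (HSet.om D.sys)
  | .pair => Task.fn fun l => XX.nm ((XX.asg l 0).pair (XX.asg l 1))

/-- A generic model: the values of the names among the objects. -/
structure GMod (D : Setup) extends Mod D where
  /-- the model -/
  M : Type
  /-- its membership relation -/
  E : M → M → Prop
  /-- the evaluation -/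
  G : GM D.sys M E
  hU : G.U = toMod.U
  hNm : ∀ i, (toMod.ξ i).name ∈ G.Nm
  val : ∀ i, ∃ u, G.IsVal u (toMod.ξ i).name
  nmx : ∀ u, ∃ i, G.nm u = (toMod.ξ i).name
  /-- the model is well-founded -/
  wf : WellFounded E
  /-- the model is countable -/
  ctb : Countable M

private lemma asg_map (ξ : ℕ → XX D) (l : List ℕ) (i : ℕ) (h : i < l.length) :
    XX.asg (l.map ξ) i = (ξ l[i]).name := by
  simp [XX.asg, XX.at, List.getD, h]

private lemma asg_range (ξ : ℕ → XX D) (v : ℕ → ℕ) (n i : ℕ) (hi : i < n) :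
    XX.asg (((List.range n).map v).map ξ) i = (ξ (v i)).name := by
  rw [asg_map _ _ _ (by simpa using hi)]
  simp

private lemma bval_asg (ξ : ℕ → XX D) (φ : Fml) (v : ℕ → ℕ) :
    bval φ (XX.asg (((List.range φ.bd).map v).map ξ)) = bval φ (fun i => (ξ (v i)).name) :=
  bval_bd _ _ _ fun i hi => asg_range ξ v _ i hi

private lemma bval_scons_asg (ξ : ℕ → XX D) (φ : Fml) (v : ℕ → ℕ) (x : D.sys.HSet) :
    bval φ (scons x (XX.asg (((List.range φ.bd).map v).map ξ))) =
      bval φ (scons x (fun i => (ξ (v i)).name)) := by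
  apply bval_bd
  intro i hi
  cases i with
  | zero => rfl
  | succ n =>
    simp only [scons_succ]
    exact asg_range ξ v _ n (by omega)

/-- equality of the names of the objects modulo the filter -/
private def mSetoid (m : Mod D) : Setoid ℕ where
  r i j := (m.ξ i).name.eq (m.ξ j).name ∈ m.U
  iseqv :=
    { refl := fun i => by rw [HSet.eq_refl]; exact Mod.top
      symm := fun {i j} h => by rw [HSet.eq_symm]; exact h
      trans := fun {i j k} h1 h2 => Mod.up (Mod.inf h1 h2) (HSet.eq_trans _ _ _) }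

/-- the elements -/
private def MM (m : Mod D) : Type := Quotient (mSetoid m)

private def toM (m : Mod D) (i : ℕ) : MM m := Quotient.mk (mSetoid m) i

private lemma toM_surj {m : Mod D} (x : MM m) : ∃ i, toM m i = x := Quotient.exists_rep x

private lemma toM_eq {m : Mod D} (i j : ℕ) :
    toM m i = toM m j ↔ (m.ξ i).name.eq (m.ξ j).name ∈ m.U :=
  Quotient.eq (r := mSetoid m)

private noncomputable def outM {m : Mod D} (x : MM m) : ℕ := (toM_surj x).choose

private lemma toM_outM {m : Mod D} (x : MM m) : toM m (outM x) = x := (toM_surj x).choose_spec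

/-- membership -/
private def EE (m : Mod D) : MM m → MM m → Prop :=
  Quotient.lift₂ (fun i j => (m.ξ i).name.mem (m.ξ j).name ∈ m.U) (by
    have key : ∀ i j i' j', (m.ξ i).name.eq (m.ξ i').name ∈ m.U →
        (m.ξ j).name.eq (m.ξ j').name ∈ m.U →
        (m.ξ i).name.mem (m.ξ j).name ∈ m.U → (m.ξ i').name.mem (m.ξ j').name ∈ m.U := by
      intro i j i' j' h1 h2 h
      have h3 := Mod.up (Mod.inf h1 h) (HSet.mem_congr_left _ _ _)
      exact Mod.up (Mod.inf h2 h3) (HSet.mem_congr_right _ _ _)
    intro i j i' j' h1 h2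
    refine propext ⟨key i j i' j' h1 h2, key i' j' i j ?_ ?_⟩
    · rw [HSet.eq_symm]; exact h1
    · rw [HSet.eq_symm]; exact h2)

private lemma EE_toM {m : Mod D} (i j : ℕ) :
    EE m (toM m i) (toM m j) ↔ (m.ξ i).name.mem (m.ξ j).name ∈ m.U := Iff.rfl

/-- The truth lemma. -/
private theorem truthM {m : Mod D} (hm : ∀ b, m.Meets (baseTask D b)) (φ : Fml) (v : ℕ → ℕ) :
    Sat (EE m) φ (fun i => toM m (v i)) ↔ bval φ (fun i => (m.ξ (v i)).name) ∈ m.U := by
  have hdec : ∀ (φ : Fml) (v : ℕ → ℕ), bval φ (fun i => (m.ξ (v i)).name) ∈ m.U ∨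
      (bval φ (fun i => (m.ξ (v i)).name))ᶜ ∈ m.U := by
    intro φ v
    rcases Mod.Meets.sup (hm (.dec φ)) ((List.range φ.bd).map v) with ⟨-, h⟩ | h
    · left
      rwa [bval_asg] at h
    · right
      rw [bval_asg] at h
      simpa using h
  have hex : ∀ (φ : Fml) (v : ℕ → ℕ),
      (⨆ x : D.sys.HSet, bval φ (scons x (fun i => (m.ξ (v i)).name))) ∈ m.U →
      ∃ j, bval φ (scons (m.ξ j).name (fun i => (m.ξ (v i)).name)) ∈ m.U := by
    intro φ v h
    obtain ⟨k, hk⟩ := @Mod.Meets.obj D m
      (fun l => ⨆ x : D.sys.HSet, bval φ (scons x (XX.asg l)))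
      (fun l y => bval φ (scons y.name (XX.asg l)))
      (fun l => iSup_le fun x => le_iSup_of_le (XX.nm x) le_rfl)
      (hm (.ex φ)) ((List.range φ.bd).map v) (by
      simpa only [bval_scons_asg] using h)
    refine ⟨k, ?_⟩
    simpa only [bval_scons_asg] using hk
  induction φ generalizing v with
  | bot => exact ⟨fun h => h.elim, fun h => Mod.bot h⟩
  | mem i j => exact EE_toM _ _
  | eq i j => exact toM_eq _ _
  | imp φ ψ ih1 ih2 =>
    have h1' := ih1 v
    have h2' := ih2 v
    rw [sat_imp, bval_imp]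
    constructor
    · intro h
      rcases hdec φ v with h1 | h1
      · exact Mod.up (h2'.1 (h (h1'.2 h1))) le_himp
      · exact Mod.up h1 (by rw [himp_eq]; exact le_sup_right)
    · intro h h1
      exact h2'.2 (Mod.up (Mod.inf h (h1'.1 h1)) himp_inf_le)
  | all φ ih =>
    rw [sat_all, bval_all]
    have hc : ∀ j, Sat (EE m) φ (scons (toM m j) (fun i => toM m (v i))) ↔
        bval φ (scons (m.ξ j).name (fun i => (m.ξ (v i)).name)) ∈ m.U := by
      intro j
      have h1 := ih (scons j v)
      have e1 : (fun i => toM m (scons j v i)) = scons (toM m j) (fun i => toM m (v i)) :=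
        SymSys.scons_comp j v (toM m)
      have e2 : (fun i => (m.ξ (scons j v i)).name) =
          scons (m.ξ j).name (fun i => (m.ξ (v i)).name) :=
        SymSys.scons_comp j v (fun i => (m.ξ i).name)
      rw [e1, e2] at h1
      exact h1
    constructor
    · intro h
      by_contra hcon
      have h1 : bval φ.neg.ex (fun i => (m.ξ (v i)).name) ∈ m.U := by
        rcases hdec (.all φ) v with h1 | h1
        · exact (hcon h1).elim
        · rw [bval_all, compl_iInf] at h1
          simpa using h1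
      rw [bval_ex] at h1
      obtain ⟨j, hj⟩ := hex _ _ h1
      rw [bval_neg] at hj
      exact Mod.compl_mem ((hc j).1 (h (toM m j))) hj
    · intro h x
      obtain ⟨j, rfl⟩ := toM_surj x
      exact (hc j).2 (Mod.up h (iInf_le (fun x : D.sys.HSet =>
        bval φ (scons x (fun i => (m.ξ (v i)).name))) _))

private lemma el_mk {z : D.sys.HSet} {ι : Type} {f : ι → Name D.B} {b : ι → D.B}
    (h : z.1 = .mk ι f b) (k : z.idx) : ∃ a : ι, (z.el k).1 = f a := by
  obtain ⟨z, hz, hz'⟩ := z
  subst h
  exact ⟨k, rfl⟩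

/-- The model is well-founded: by induction on the name of `ξ i` (every element of its value is the
value of an element of the name, which is among the objects by the task `mem`). -/
private theorem acc_toM {m : Mod D} (hm : ∀ b, m.Meets (baseTask D b)) (x : Name D.B) :
    ∀ i, (m.ξ i).name.1 = x → Acc (EE m) (toM m i) := by
  induction x with
  | mk ι f b ih =>
    intro i hi
    refine ⟨_, fun y hy => ?_⟩
    obtain ⟨j, rfl⟩ := toM_surj y
    have hy' : (m.ξ j).name.mem (m.ξ i).name ∈ m.U := hy
    rcases hm .mem [j, i] with h1 | ⟨n, k', k, hk', hk⟩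
    · exact (Mod.compl_mem hy' h1).elim
    · have h2 : (m.ξ j).name.eq ((m.ξ i).name.el k) ∈ m.U := ⟨n, hk.trans inf_le_right⟩
      have h3 : (m.ξ k').name = (m.ξ i).name.el k := by
        rw [hk']; rfl
      have h4 : toM m j = toM m k' := (toM_eq j k').2 (by rw [h3]; exact h2)
      rw [h4]
      obtain ⟨a, ha⟩ := el_mk hi k
      exact ih a k' (by rw [h3, ha])

/-- Generic models exist. `M` is the quotient of `ℕ` by `i ~ j :⟺ (name of ξ i).eq (name of ξ j) ∈ U`,
`E` is induced by `mem`, `nm` chooses a representative, `Nm` is the set of the names of the objects;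
the truth lemma is proved as in
`SymZF/Model.lean` (`Gen.truth`) from the tasks `dec`, `ex`. -/
theorem exists_gmod {J : Type} [Countable J] (T : J → Task D) :
    ∃ g : GMod D, ∀ j, g.toMod.Meets (T j) := by
  classical
  obtain ⟨m, hm⟩ := exists_mod (D := D) (fun j : BaseJ ⊕ J => Sum.elim (baseTask D) T j)
  have hb : ∀ b, m.Meets (baseTask D b) := fun b => hm (Sum.inl b)
  have hT : ∀ j, m.Meets (T j) := fun j => hm (Sum.inr j)
  have hval : ∀ i, (m.ξ (outM (toM m i))).name.eq (m.ξ i).name ∈ m.U := fun i =>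
    (toM_eq _ _).1 (toM_outM (toM m i))
  have hfn : ∀ {x : D.sys.HSet}, (∃ k, m.ξ k = XX.nm x) → ∃ k, (m.ξ k).name = x := by
    rintro x ⟨k, hk⟩
    exact ⟨k, by rw [hk]; rfl⟩
  have hnum : ∀ n, ∃ k, (m.ξ k).name = HSet.num D.sys n := fun n =>
    hfn (Mod.Meets.fn (hb (.num n)) [])
  have hom : ∃ k, (m.ξ k).name = HSet.om D.sys := hfn (Mod.Meets.fn (hb .om) [])
  have hpair : ∀ i j, ∃ k, (m.ξ k).name = (m.ξ i).name.pair (m.ξ j).name := fun i j =>
    hfn (Mod.Meets.fn (hb .pair) [i, j])
  let G : GM D.sys (MM m) (EE m) :=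
    { pt := toM m 0
      nm := fun x => (m.ξ (outM x)).name
      U := m.U
      top := Mod.top
      truth := fun φ v => by
        have h := truthM hb φ (fun i => outM (v i))
        simp only [toM_outM] at h
        exact h
      up := Mod.up
      inf := Mod.inf
      bot := Mod.bot
      Nm := range fun i => (m.ξ i).name
      nm_mem := fun u => mem_range_self _
      om_mem := by
        obtain ⟨k, hk⟩ := hom
        exact ⟨k, hk⟩
      memg := by
        rintro u τ ⟨j, rfl⟩ h
        rcases hb .mem [outM u, j] with h1 | ⟨n, -, k, -, hk⟩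
        · exact (Mod.compl_mem h h1).elim
        · exact ⟨k, ⟨n, hk.trans inf_le_left⟩, ⟨n, hk.trans inf_le_right⟩⟩
      hnum := fun n => by
        obtain ⟨k, hk⟩ := hnum n
        exact ⟨toM m k, by rw [← hk]; exact hval k⟩
      hom := by
        obtain ⟨k, hk⟩ := hom
        exact ⟨toM m k, by rw [← hk]; exact hval k⟩
      hpair := fun u v => by
        obtain ⟨k, hk⟩ := hpair (outM u) (outM v)
        exact ⟨toM m k, by rw [← hk]; exact hval k⟩ }
  exact ⟨{
    toMod := m
    M := MM m
    E := EE m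
    G := G
    hU := rfl
    hNm := fun i => mem_range_self _
    val := fun i => ⟨toM m i, hval i⟩
    nmx := fun u => ⟨outM u, rfl⟩
    wf := ⟨fun x => by
      obtain ⟨i, rfl⟩ := toM_surj x
      exact acc_toM hb _ i rfl⟩
    ctb := (Quotient.mk_surjective (s := mSetoid m)).countable }, hT⟩

end Pool.Agent.Lib.BPLM
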