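import Mathlib
import Pool.Agent.Lib.MP_c00cb7_lc.Tasks
import Pool.Agent.Lib.MP_c00cb7_lc.Mix

section

section

/-!
# The reals of the generic model are closed under Borel functionals
-/

set_option autoImplicit false

open Set

namespace Pool.Agent.Lib.BPLM

open Pool.Agent.Lib.SymZF Pool.Agent.Lib.KZF Pool.Agent.Lib.KZF.KSys Setup

/-- the bits of a name in the model are decided -/
lemma bit_or {D : Setup} (g : GMod D) (u : g.M) (n : ℕ) :
    (g.G.nm u).bit n ∈ g.toMod.U ∨ ((g.G.nm u).bit n)ᶜ ∈ g.toMod.U := by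
  obtain ⟨z, hz⟩ := g.G.hnum n
  have h := g.G.mem_or (u := z) (v := u) (ρ := HSet.num D.sys n) (τ := g.G.nm u) hz
    (g.G.isVal_nm u)
  rw [g.hU] at h
  exact h

lemma symB_bs {S : KSys} (φ : ℕ → BF) {b : ℕ → S.B} (hb : SymB b) :
    SymB (fun n => (φ n).bs b) := by
  refine hb.mono fun g hg n => ?_
  rw [← BF.bs_map (S.α g) (φ n) b]
  have h1 : (fun n => S.α g (b n)) = b := funext hg
  rw [h1]

section

variable {FI : Type} (Fn : FI → (ℕ → Prop) → (ℕ → Prop))
  (hB : ∀ i n, IsBor (fun r => Fn i r n))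

/-- the codes of the functionals -/
noncomputable def borCode (i : FI) (n : ℕ) : BF := (hB i n).choose

lemma borCode_sem (i : FI) (n : ℕ) (r : ℕ → Prop) : (borCode Fn hB i n).sem r ↔ Fn i r n :=
  (hB i n).choose_spec r

/-- the indices of the tasks -/
abbrev BorJ : Type := FI ⊕ (Σ i : FI, Σ n : ℕ, ↥(BF.sups (borCode Fn hB i n)))

instance [Countable FI] : Countable (BorJ Fn hB) := by
  have h : ∀ i n, Countable ↥(BF.sups (borCode Fn hB i n)) := fun i n =>
    (BF.sups_countable _).to_subtype
  unfold BorJ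
  infer_instance

/-- the tasks: the name of the value of the functional, and the suprema in its codes -/
noncomputable def borTask (D : Setup) : BorJ Fn hB → Task D
  | .inl i => Task.fn fun l => XX.nm (HSet.rnm (fun n => (borCode Fn hB i n).bs (XX.asg l 0).bit)
      (symB_bs _ (XX.asg l 0).symB_bit))
  | .inr ⟨_, _, f⟩ => Task.sup fun l (k : ℕ) => (f.1 k).bs (XX.asg l 0).bit

/-- Closure under the functionals. Let `r = rl x`, `b = (nm x).bit`, `nm x` the name of `ξ j`.
`BF.resp_of` (with `bit_or` and the tasks `inr`), `BF.Resp.truth`; the value of the witness of the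
task `inl i` (`inM_of_rnm`). -/
theorem inM_of_bor {D : Setup} (g : GMod D) (h : ∀ j, g.toMod.Meets (borTask Fn hB D j))
    (i : FI) {r : ℕ → Prop} (hr : InM g.E r) : InM g.E (Fn i r) := by
  obtain ⟨x, hx, rfl⟩ := hr
  obtain ⟨j, hj⟩ := g.nmx x
  have hasg : XX.asg ([j].map g.toMod.ξ) 0 = g.G.nm x := hj.symm
  obtain ⟨k, hk⟩ := Mod.Meets.fn (h (Sum.inl i)) [j]
  obtain ⟨u, hu⟩ := g.val k
  have hname : (g.toMod.ξ k).name = HSet.rnm
      (fun n => (borCode Fn hB i n).bs (XX.asg ([j].map g.toMod.ξ) 0).bit)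
      (symB_bs _ (XX.asg ([j].map g.toMod.ξ) 0).symB_bit) := by
    rw [hk]
    rfl
  rw [hname] at hu
  have h1 := g.G.inM_of_rnm hu
  have h2 : (fun n => (borCode Fn hB i n).bs (XX.asg ([j].map g.toMod.ξ) 0).bit ∈ g.G.U) =
      Fn i (rl g.E x) := by
    funext n
    apply propext
    rw [hasg, ← borCode_sem Fn hB i n, g.G.rl_eq (g.G.isVal_nm x), g.hU]
    have hresp : BF.Resp g.toMod.U (g.G.nm x).bit (borCode Fn hB i n) := by
      refine BF.resp_of (fun k => bit_or g x k) fun f hf => ?_
      have h3 := Mod.Meets.sup (h (Sum.inr ⟨i, n, ⟨f, hf⟩⟩)) [j]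
      rw [hasg] at h3
      exact h3
    exact (BF.Resp.truth Mod.up Mod.inf Mod.bot hresp).1
  rwa [h2] at h1

end

/-- the join of two reals -/
def jn {α : Type*} (x y : ℕ → α) (n : ℕ) : α := if n % 2 = 0 then x (n / 2) else y (n / 2)

/-- the even part -/
def evn {α : Type*} (x : ℕ → α) (n : ℕ) : α := x (2 * n)

/-- the odd part -/
def odn {α : Type*} (x : ℕ → α) (n : ℕ) : α := x (2 * n + 1)

@[simp] lemma evn_jn {α : Type*} (x y : ℕ → α) : evn (jn x y) = x := by
  funext n; simp [evn, jn]

@[simp] lemma odn_jn {α : Type*} (x y : ℕ → α) : odn (jn x y) = y := by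
  funext n
  have h1 : (2 * n + 1) % 2 = 1 := by omega
  have h2 : (2 * n + 1) / 2 = n := by omega
  simp [odn, jn, h1, h2]

@[simp] lemma jn_evn_odn {α : Type*} (x : ℕ → α) : jn (evn x) (odn x) = x := by
  funext n
  unfold jn evn odn
  split_ifs with h
  · congr 1; omega
  · congr 1; omega

lemma symB_jn {S : KSys} {b c : ℕ → S.B} (hb : SymB b) (hc : SymB c) : SymB (jn b c) := by
  have h := Filter.Eventually.and hb hc
  refine h.mono fun g hg n => ?_
  unfold jn
  split_ifs
  · exact hg.1 _
  · exact hg.2 _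

lemma symB_evn {S : KSys} {b : ℕ → S.B} (hb : SymB b) : SymB (evn b) :=
  hb.mono fun _ h n => h (2 * n)

lemma symB_odn {S : KSys} {b : ℕ → S.B} (hb : SymB b) : SymB (odn b) :=
  hb.mono fun _ h n => h (2 * n + 1)

/-- the task for the join of two reals -/
noncomputable def jnTask (D : Setup) : Task D :=
  Task.fn fun l => XX.nm (HSet.rnm (jn (XX.asg l 0).bit (XX.asg l 1).bit)
    (symB_jn (XX.asg l 0).symB_bit (XX.asg l 1).symB_bit))

theorem inM_jn {D : Setup} (g : GMod D) (h : g.toMod.Meets (jnTask D)) {x y : ℕ → Prop}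
    (hx : InM g.E x) (hy : InM g.E y) : InM g.E (jn x y) := by
  obtain ⟨x', hx', rfl⟩ := hx
  obtain ⟨y', hy', rfl⟩ := hy
  obtain ⟨i, hi⟩ := g.nmx x'
  obtain ⟨j, hj⟩ := g.nmx y'
  have hasg0 : XX.asg ([i, j].map g.toMod.ξ) 0 = g.G.nm x' := hi.symm
  have hasg1 : XX.asg ([i, j].map g.toMod.ξ) 1 = g.G.nm y' := hj.symm
  obtain ⟨k, hk⟩ := Mod.Meets.fn h [i, j]
  obtain ⟨u, hu⟩ := g.val k
  have hname : (g.toMod.ξ k).name = HSet.rnm
      (jn (XX.asg ([i, j].map g.toMod.ξ) 0).bit (XX.asg ([i, j].map g.toMod.ξ) 1).bit)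
      (symB_jn (XX.asg ([i, j].map g.toMod.ξ) 0).symB_bit
        (XX.asg ([i, j].map g.toMod.ξ) 1).symB_bit) := by
    rw [hk]
    rfl
  rw [hname] at hu
  have h1 := g.G.inM_of_rnm hu
  have h2 : (fun n => jn (XX.asg ([i, j].map g.toMod.ξ) 0).bit
      (XX.asg ([i, j].map g.toMod.ξ) 1).bit n ∈ g.G.U) = jn (rl g.E x') (rl g.E y') := by
    rw [hasg0, hasg1, g.G.rl_eq (g.G.isVal_nm x'), g.G.rl_eq (g.G.isVal_nm y')]
    funext n
    unfold jn
    split_ifs <;> rfl
  rwa [h2] at h1

end Pool.Agent.Lib.BPLM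
end

section

/-!
# Finite combinatorics of measure: definitions, and Borel functionals
-/

set_option autoImplicit false

open Set

namespace Pool.Agent.Lib.BPLM

open Pool.Agent.Lib.SymZF Pool.Agent.Lib.KZF Pool.Agent.Lib.KZF.KSys

open Classical in
section

/-! ### Strings -/

/-- the string `s` has an initial segment in `u` -/
def Cov (u : Set (List Bool)) (s : List Bool) : Prop := ∃ t ∈ u, t <+: s

/-- the strings of length `m` -/
noncomputable def strs (m : ℕ) : Finset (List Bool) := (List.finite_length_eq Bool m).toFinset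

@[simp] lemma mem_strs {m : ℕ} {s : List Bool} : s ∈ strs m ↔ s.length = m := by simp [strs]

/-- the proportion of the strings of length `m` with the property `P` -/
noncomputable def ms (m : ℕ) (P : List Bool → Prop) : ℝ := ((strs m).filter P).card / 2 ^ m

/-- the interleaving of two strings of the same length -/
def il : List Bool → List Bool → List Bool
  | a :: s, b :: t => a :: b :: il s t
  | _, _ => []

/-- the interleaving, in the order given by `ε` -/
def il' (ε : Bool) (s t : List Bool) : List Bool := if ε = true then il s t else il t s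

/-- the entries at even places -/
def evs : List Bool → List Bool
  | [] => []
  | [a] => [a]
  | a :: _ :: s => a :: evs s

/-- the entries at odd places -/
def ods : List Bool → List Bool
  | [] => []
  | [_] => []
  | _ :: b :: s => b :: ods s

/-- the initial segment of length `m` of a real -/
noncomputable def rst (r : ℕ → Prop) (m : ℕ) : List Bool := List.ofFn fun i : Fin m => decide (r i)

/-- the join of two reals, in the order given by `ε` -/
def jn' (ε : Bool) (x y : ℕ → Prop) : ℕ → Prop := if ε = true then jn x y else jn y x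

/-! ### The leftmost branch -/

/-- the string `s` has uncovered extensions of all lengths -/
def Tr (u : Set (List Bool)) (s : List Bool) : Prop :=
  ∀ m, s.length ≤ m → ∃ t : List Bool, t.length = m ∧ s <+: t ∧ ¬ Cov u t

/-- the initial segments of the leftmost branch -/
noncomputable def brs (u : Set (List Bool)) : ℕ → List Bool
  | 0 => []
  | n + 1 => if Tr u (brs u n ++ [false]) then brs u n ++ [false] else brs u n ++ [true]

/-- the leftmost branch of the complement of the open set given by `u` -/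
noncomputable def Br (u : Set (List Bool)) (n : ℕ) : Prop := ¬ Tr u (brs u n ++ [false])

/-! ### Sections -/

/-- the open set of the strings `τ` for which the section of the complement of `O_w` has measure
`< 2^{-k}` -/
noncomputable def Bd (w : Set (List Bool)) (ε : Bool) (k : ℕ) : Set (List Bool) :=
  {τ | ms τ.length (fun s => ¬ Cov w (il' ε s τ)) < (1 / 2) ^ k}

/-- the section of the open set given by `w` at the real `y` -/
noncomputable def sec (ε : Bool) (w : Set (List Bool)) (y : ℕ → Prop) : Set (List Bool) :=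
  {s | Cov w (il' ε s (rst y s.length))}

/-- the complement of the square of the complement of the open set given by `v` -/
def sq (v : Set (List Bool)) : Set (List Bool) := {s | Cov v (evs s) ∨ Cov v (ods s)}

/-- the set of strings coded by a real -/
def dS (c : ℕ → Prop) : Set (List Bool) := {s | c (Encodable.encode s)}

@[simp] lemma dS_codeS (u : Set (List Bool)) : dS (codeS u) = u := by
  ext s
  constructor
  · rintro ⟨t, h1, h2⟩
    first
      | exact Encodable.encode_injective h1 ▸ h2
      | exact Encodable.encode_injective h2 ▸ h1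
  · intro h
    first
      | exact ⟨s, rfl, h⟩
      | exact ⟨s, h, rfl⟩

/-- the indices of the functionals -/
inductive FI : Type
  | ev
  | od
  | br
  | bd (ε : Bool) (k : ℕ)
  | un
  | sec (ε : Bool)
  | sq
deriving Countable

/-- the functionals: even and odd part, leftmost branch, bad strings, union of two open sets, section
of an open set at a real, squares -/
noncomputable def Fn : FI → (ℕ → Prop) → (ℕ → Prop)
  | .ev, c => evn c
  | .od, c => odn c
  | .br, c => Br (dS c)
  | .bd ε k, c => codeS (Bd (dS c) ε k)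
  | .un, c => codeS (dS (evn c) ∪ dS (odn c))
  | .sec ε, c => codeS (BPLM.sec ε (dS (evn c)) (odn c))
  | .sq, c => codeS (BPLM.sq (dS c))

end

end Pool.Agent.Lib.BPLM
end
end

section

section

/-!
# The functionals are Borel
-/

set_option autoImplicit false

open Set

namespace Pool.Agent.Lib.BPLM

open Pool.Agent.Lib.SymZF Pool.Agent.Lib.KZF Pool.Agent.Lib.KZF.KSys

lemma isBor_mem_dS (s : List Bool) : IsBor (fun c => s ∈ dS c) := IsBor.atom _

/-- `codeS (f c)` is Borel if the membership in `f c` is -/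
lemma isBor_codeS {f : (ℕ → Prop) → Set (List Bool)} (h : ∀ s, IsBor (fun c => s ∈ f c)) (n : ℕ) :
    IsBor (fun c => codeS (f c) n) := by
  unfold codeS
  exact IsBor.ex fun s => (h s).and (IsBor.const _)

lemma isBor_cov {f : (ℕ → Prop) → Set (List Bool)} (h : ∀ s, IsBor (fun c => s ∈ f c))
    (s : List Bool) : IsBor (fun c => Cov (f c) s) := by
  unfold Cov
  exact IsBor.ex fun t => (h t).and (IsBor.const _)

private lemma isBor_Tr (s : List Bool) : IsBor (fun c => Tr (dS c) s) := by
  unfold Tr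
  exact IsBor.all fun m => (IsBor.const _).imp (IsBor.ex fun t => (IsBor.const _).and
    ((IsBor.const _).and (isBor_cov isBor_mem_dS t).not))

private lemma isBor_brs (n : ℕ) : ∀ s : List Bool, IsBor (fun c => brs (dS c) n = s) := by
  induction n with
  | zero =>
    intro s
    exact IsBor.const ([] = s)
  | succ n ih =>
    intro s
    refine (IsBor.ex (P := fun (t : List Bool) c => brs (dS c) n = t ∧
      ((Tr (dS c) (t ++ [false]) ∧ t ++ [false] = s) ∨
        (¬ Tr (dS c) (t ++ [false]) ∧ t ++ [true] = s))) fun t => (ih t).and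
        (((isBor_Tr _).and (IsBor.const _)).or ((isBor_Tr _).not.and (IsBor.const _)))).congr ?_
    intro c
    constructor
    · rintro ⟨t, rfl, (⟨h1, h2⟩ | ⟨h1, h2⟩)⟩
      · rw [brs, if_pos h1]; exact h2
      · rw [brs, if_neg h1]; exact h2
    · intro h
      refine ⟨_, rfl, ?_⟩
      by_cases h1 : Tr (dS c) (brs (dS c) n ++ [false])
      · rw [brs, if_pos h1] at h
        exact Or.inl ⟨h1, h⟩
      · rw [brs, if_neg h1] at h
        exact Or.inr ⟨h1, h⟩

/-- `Tr (dS c) s` is Borel, `brs (dS c) n = s` is Borel (induction on `n`) -/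
lemma isBor_Br (n : ℕ) : IsBor (fun c => Br (dS c) n) := by
  refine (IsBor.ex (P := fun (t : List Bool) c => brs (dS c) n = t ∧
    ¬ Tr (dS c) (t ++ [false])) fun t => (isBor_brs n t).and (isBor_Tr _).not).congr ?_
  intro c
  unfold Br
  constructor
  · rintro ⟨t, rfl, h⟩
    exact h
  · intro h
    exact ⟨_, rfl, h⟩

/-- A condition on the proportion of the strings of length `m` with a Borel property is Borel: it is
equivalent to the existence of a finite set `F` of strings such that `∀ s ∈ strs m, (s ∈ F ↔ P c s)`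
and the condition holds for `F`. -/
lemma isBor_ms {P : (ℕ → Prop) → List Bool → Prop} (h : ∀ s, IsBor (fun c => P c s)) (m : ℕ)
    (a : ℝ) : IsBor (fun c => ms m (P c) < a) := by
  classical
  refine (IsBor.ex (P := fun (F : Finset (List Bool)) c =>
    (∀ s : List Bool, s ∈ strs m → (s ∈ F ↔ P c s)) ∧ ms m (fun s => s ∈ F) < a) fun F =>
      (IsBor.all fun s => (IsBor.const _).imp ((IsBor.const _).iff (h s))).and
        (IsBor.const _)).congr ?_
  intro c
  have key : ∀ F : Finset (List Bool), (∀ s : List Bool, s ∈ strs m → (s ∈ F ↔ P c s)) →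
      ms m (fun s => s ∈ F) = ms m (P c) := by
    intro F hF
    unfold ms
    have h1 : (strs m).filter (fun s => s ∈ F) = (strs m).filter (P c) :=
      Finset.filter_congr fun s hs => hF s hs
    have h2 := congrArg (fun A : Finset (List Bool) => (A.card : ℝ) / 2 ^ m) h1
    convert h2
  constructor
  · rintro ⟨F, h1, h2⟩
    rwa [key F h1] at h2
  · intro h1
    have h2 : ∀ s : List Bool, s ∈ strs m → (s ∈ (strs m).filter (P c) ↔ P c s) := by
      intro s hs
      rw [Finset.mem_filter]
      exact ⟨fun h => h.2, fun h => ⟨hs, h⟩⟩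
    exact ⟨_, h2, by rwa [key _ h2]⟩

/-- `rst y m = τ` is Borel in `y` -/
lemma isBor_rst (m : ℕ) (τ : List Bool) : IsBor (fun y => rst y m = τ) := by
  classical
  refine (((IsBor.const (τ.length = m)).and (IsBor.all (P := fun (i : ℕ) y =>
    ∀ h : i < τ.length, (y i ↔ τ[i] = true)) fun i => ?_))).congr ?_
  · by_cases hi : i < τ.length
    · refine ((IsBor.atom i).iff (IsBor.const (τ[i] = true))).congr fun r => ?_
      exact ⟨fun h _ => h, fun h => h hi⟩
    · refine (IsBor.const True).congr fun r => ?_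
      exact ⟨fun _ h => (hi h).elim, fun _ => trivial⟩
  · intro y
    constructor
    · rintro ⟨h1, h2⟩
      subst h1
      refine List.ext_getElem (by simp [rst]) ?_
      intro i hi hi'
      simp only [rst, List.getElem_ofFn]
      rw [Bool.eq_iff_iff, decide_eq_true_iff]
      exact h2 i hi'
    · intro h
      subst h
      refine ⟨by simp [rst], ?_⟩
      intro i hi
      simp only [rst, List.getElem_ofFn, decide_eq_true_iff]

private lemma isBor_evn {P : (ℕ → Prop) → Prop} (h : IsBor P) : IsBor (fun r => P (evn r)) :=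
  h.comp fun n => IsBor.atom (2 * n)

private lemma isBor_odn {P : (ℕ → Prop) → Prop} (h : IsBor P) : IsBor (fun r => P (odn r)) :=
  h.comp fun n => IsBor.atom (2 * n + 1)

/-- all the functionals are Borel (for `sec`: `s ∈ sec ε (dS (evn c)) (odn c)` iff there is `τ` with
`rst (odn c) s.length = τ` and `Cov (dS (evn c)) (il' ε s τ)`) -/
theorem isBor_Fn (i : FI) (n : ℕ) : IsBor (fun r => Fn i r n) := by
  cases i with
  | ev => exact IsBor.atom (2 * n)
  | od => exact IsBor.atom (2 * n + 1)
  | br => exact isBor_Br n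
  | bd ε k =>
    refine isBor_codeS (f := fun c => Bd (dS c) ε k) (fun s => ?_) n
    exact isBor_ms (P := fun c t => ¬ Cov (dS c) (il' ε t s))
      (fun t => (isBor_cov isBor_mem_dS _).not) _ _
  | un =>
    refine isBor_codeS (f := fun c => dS (evn c) ∪ dS (odn c)) (fun s => ?_) n
    exact (isBor_evn (isBor_mem_dS s)).or (isBor_odn (isBor_mem_dS s))
  | sec ε =>
    refine isBor_codeS (f := fun c => sec ε (dS (evn c)) (odn c)) (fun s => ?_) n
    refine (IsBor.ex (P := fun (τ : List Bool) c => rst (odn c) s.length = τ ∧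
      Cov (dS (evn c)) (il' ε s τ)) fun τ => (isBor_odn (isBor_rst _ τ)).and
        (isBor_evn (isBor_cov isBor_mem_dS _))).congr ?_
    intro c
    constructor
    · rintro ⟨τ, rfl, h⟩
      exact h
    · intro h
      exact ⟨_, rfl, h⟩
  | sq =>
    refine isBor_codeS (f := fun c => sq (dS c)) (fun s => ?_) n
    exact (isBor_cov isBor_mem_dS _).or (isBor_cov isBor_mem_dS _)

end Pool.Agent.Lib.BPLM
end

section

/-!
# Strings, interleaving, and leftmost branches
-/

set_option autoImplicit false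

open Set

namespace Pool.Agent.Lib.BPLM

lemma Cov.mono {u : Set (List Bool)} {s t : List Bool} (h : Cov u s) (hst : s <+: t) :
    Cov u t := by
  obtain ⟨r, hr, hrs⟩ := h
  exact ⟨r, hr, hrs.trans hst⟩

@[simp] lemma rst_length (r : ℕ → Prop) (m : ℕ) : (rst r m).length = m := by
  simp [rst]

private lemma rst_getElem (r : ℕ → Prop) (m i : ℕ) (h : i < (rst r m).length) :
    (rst r m)[i] = true ↔ r i := by
  simp [rst]

lemma rst_mono (r : ℕ → Prop) {m n : ℕ} (h : m ≤ n) : rst r m <+: rst r n := by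
  rw [List.prefix_iff_eq_take]
  apply List.ext_getElem
  · simp [h]
  · intro i h1 h2
    rw [List.getElem_take]
    simp [rst]

private lemma prefix_rst {r : ℕ → Prop} {m : ℕ} {t : List Bool} (h : t <+: rst r m) :
    t = rst r t.length := by
  have h1 : t.length ≤ m := by
    have := h.length_le
    simpa using this
  exact (List.prefix_of_prefix_length_le h (rst_mono r h1) (by simp)).eq_of_length (by simp)

lemma ext_iff_rst (s : List Bool) (r : ℕ → Prop) : Ext s r ↔ s = rst r s.length := by
  constructor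
  · intro h
    apply List.ext_getElem
    · simp
    · intro i h1 h2
      rw [Bool.eq_iff_iff, rst_getElem]
      exact (h i h1).symm
  · intro h i hi
    have h2 : i < (rst r s.length).length := by simpa using hi
    have h1 := rst_getElem r s.length i h2
    rw [← h1]
    have h3 : s[i] = (rst r s.length)[i] := by
      congr 1
    rw [h3]

lemma inO_iff (u : Set (List Bool)) (r : ℕ → Prop) : InO u r ↔ ∃ m, Cov u (rst r m) := by
  constructor
  · rintro ⟨s, hs, he⟩
    rw [ext_iff_rst] at he
    exact ⟨s.length, s, hs, he ▸ List.prefix_rfl⟩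
  · rintro ⟨m, t, ht, hp⟩
    exact ⟨t, ht, (ext_iff_rst t r).2 (prefix_rst hp)⟩

lemma inO_union (u v : Set (List Bool)) (r : ℕ → Prop) : InO (u ∪ v) r ↔ InO u r ∨ InO v r := by
  constructor
  · rintro ⟨s, hs | hs, he⟩
    · exact Or.inl ⟨s, hs, he⟩
    · exact Or.inr ⟨s, hs, he⟩
  · rintro (⟨s, hs, he⟩ | ⟨s, hs, he⟩)
    · exact ⟨s, Or.inl hs, he⟩
    · exact ⟨s, Or.inr hs, he⟩

lemma cov_union (u v : Set (List Bool)) (s : List Bool) : Cov (u ∪ v) s ↔ Cov u s ∨ Cov v s := by
  constructor
  · rintro ⟨t, hs | hs, he⟩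
    · exact Or.inl ⟨t, hs, he⟩
    · exact Or.inr ⟨t, hs, he⟩
  · rintro (⟨t, hs, he⟩ | ⟨t, hs, he⟩)
    · exact ⟨t, Or.inl hs, he⟩
    · exact ⟨t, Or.inr hs, he⟩

/-! ### The leftmost branch -/

lemma Tr.not_cov {u : Set (List Bool)} {s : List Bool} (h : Tr u s) : ¬ Cov u s := by
  obtain ⟨t, ht, hst, hc⟩ := h s.length le_rfl
  rwa [hst.eq_of_length ht.symm]

private lemma not_tr {u : Set (List Bool)} {s : List Bool} (h : ¬ Tr u s) :
    ∃ m, ∀ t : List Bool, m ≤ t.length → s <+: t → Cov u t := by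
  unfold Tr at h
  push Not at h
  obtain ⟨m, hm, h⟩ := h
  refine ⟨m, fun t ht hst => ?_⟩
  have h1 : s <+: t.take m := by
    refine List.prefix_of_prefix_length_le hst (List.take_prefix m t) ?_
    rw [List.length_take]
    omega
  have h2 := h (t.take m) (by rw [List.length_take]; omega) h1
  exact h2.mono (List.take_prefix m t)

lemma Tr.step {u : Set (List Bool)} {s : List Bool} (h : Tr u s) :
    Tr u (s ++ [false]) ∨ Tr u (s ++ [true]) := by
  by_contra hcon
  push Not at hcon
  obtain ⟨m1, h1⟩ := not_tr hcon.1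
  obtain ⟨m2, h2⟩ := not_tr hcon.2
  obtain ⟨t, ht, hst, hc⟩ := h (max (max m1 m2) (s.length + 1)) (by omega)
  obtain ⟨w, rfl⟩ := hst
  rw [List.length_append] at ht
  rcases w with _ | ⟨b, w⟩
  · simp at ht
    omega
  · have e : s ++ b :: w = (s ++ [b]) ++ w := by simp
    have hl : (s ++ b :: w).length = max (max m1 m2) (s.length + 1) := by
      rw [List.length_append, ht]
    rcases b with _ | _
    · exact hc (h1 _ (by rw [hl]; omega) ⟨w, e.symm⟩)
    · exact hc (h2 _ (by rw [hl]; omega) ⟨w, e.symm⟩)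

private lemma rst_succ (r : ℕ → Prop) (m : ℕ) [Decidable (r m)] :
    rst r (m + 1) = rst r m ++ [decide (r m)] := by
  apply List.ext_getElem
  · simp
  · intro i h1 h2
    rw [Bool.eq_iff_iff, rst_getElem]
    rw [rst_length] at h1
    by_cases hi : i < m
    · rw [List.getElem_append_left (by simpa using hi), rst_getElem]
    · have : i = m := by omega
      subst this
      rw [List.getElem_append_right (by simp)]
      simp

lemma rst_Br (u : Set (List Bool)) (m : ℕ) : rst (Br u) m = brs u m := by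
  classical
  induction m with
  | zero => simp [rst, brs]
  | succ m ih =>
    rw [rst_succ, ih, brs]
    by_cases h : Tr u (brs u m ++ [false])
    · rw [if_pos h]
      simp [Br, h]
    · rw [if_neg h]
      simp [Br, h]

/-- König: if there are uncovered strings of all lengths then the leftmost branch is not in the open
set. -/
theorem br_not_mem {u : Set (List Bool)} (h : ∀ m, ∃ s : List Bool, s.length = m ∧ ¬ Cov u s) :
    ¬ InO u (Br u) := by
  have key : ∀ m, Tr u (brs u m) := by
    intro m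
    induction m with
    | zero =>
      intro m _
      obtain ⟨s, hs, hc⟩ := h m
      exact ⟨s, hs, List.nil_prefix, hc⟩
    | succ m ih =>
      rw [brs]
      by_cases h' : Tr u (brs u m ++ [false])
      · rw [if_pos h']; exact h'
      · rw [if_neg h']
        exact ih.step.resolve_left h'
  rw [inO_iff]
  rintro ⟨m, hm⟩
  rw [rst_Br] at hm
  exact (key m).not_cov hm

/-! ### Interleaving -/

lemma il_length {s t : List Bool} (h : s.length = t.length) : (il s t).length = 2 * s.length := by
  induction s generalizing t with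
  | nil => simp [il]
  | cons a s ih =>
    rcases t with _ | ⟨b, t⟩
    · simp at h
    · simp only [List.length_cons, add_left_inj] at h
      simp only [il, List.length_cons, ih h]
      ring

lemma evs_il {s t : List Bool} (h : s.length = t.length) : evs (il s t) = s := by
  induction s generalizing t with
  | nil => simp [il, evs]
  | cons a s ih =>
    rcases t with _ | ⟨b, t⟩
    · simp at h
    · simp only [List.length_cons, add_left_inj] at h
      simp only [il, evs, ih h]

lemma ods_il {s t : List Bool} (h : s.length = t.length) : ods (il s t) = t := by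
  induction s generalizing t with
  | nil =>
    have : t = [] := List.eq_nil_of_length_eq_zero (by simpa using h.symm)
    subst this
    simp [il, ods]
  | cons a s ih =>
    rcases t with _ | ⟨b, t⟩
    · simp at h
    · simp only [List.length_cons, add_left_inj] at h
      simp only [il, ods, ih h]

lemma il_evs_ods {s : List Bool} {m : ℕ} (h : s.length = 2 * m) :
    il (evs s) (ods s) = s ∧ (evs s).length = m ∧ (ods s).length = m := by
  induction m generalizing s with
  | zero =>
    have : s = [] := List.eq_nil_of_length_eq_zero (by simpa using h)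
    subst this
    simp [il, evs, ods]
  | succ m ih =>
    rcases s with _ | ⟨a, _ | ⟨b, s⟩⟩
    · simp at h
    · simp at h
      omega
    · have h' : s.length = 2 * m := by
        simp only [List.length_cons] at h
        omega
      obtain ⟨h1, h2, h3⟩ := ih h'
      simp only [evs, ods, il, List.length_cons, h1, h2, h3, and_self]

lemma il_prefix {s s' t t' : List Bool} (h : s.length = t.length) (h' : s'.length = t'.length)
    (hs : s <+: s') (ht : t <+: t') : il s t <+: il s' t' := by
  induction s generalizing t s' t' with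
  | nil => simp [il]
  | cons a s ih =>
    rcases t with _ | ⟨b, t⟩
    · simp at h
    rcases s' with _ | ⟨a', s'⟩
    · simp at hs
    rcases t' with _ | ⟨b', t'⟩
    · simp at ht
    rw [List.cons_prefix_cons] at hs ht
    simp only [List.length_cons, add_left_inj] at h h'
    simp only [il, List.cons_prefix_cons]
    exact ⟨hs.1, ht.1, ih h h' hs.2 ht.2⟩

lemma evs_prefix {s t : List Bool} (h : s <+: t) : evs s <+: evs t := by
  induction s using evs.induct generalizing t with
  | case1 => simp [evs]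
  | case2 a =>
    rcases t with _ | ⟨a', _ | ⟨b', t⟩⟩
    · simp at h
    · simpa [evs] using h
    · rw [List.cons_prefix_cons] at h
      simp [evs, h.1]
  | case3 a b s ih =>
    rcases t with _ | ⟨a', _ | ⟨b', t⟩⟩
    · simp at h
    · simp at h
    · rw [List.cons_prefix_cons, List.cons_prefix_cons] at h
      simp only [evs, List.cons_prefix_cons]
      exact ⟨h.1, ih h.2.2⟩

lemma ods_prefix {s t : List Bool} (h : s <+: t) : ods s <+: ods t := by
  induction s using ods.induct generalizing t with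
  | case1 => simp [ods]
  | case2 a => simp [ods]
  | case3 a b s ih =>
    rcases t with _ | ⟨a', _ | ⟨b', t⟩⟩
    · simp at h
    · simp at h
    · rw [List.cons_prefix_cons, List.cons_prefix_cons] at h
      simp only [ods, List.cons_prefix_cons]
      exact ⟨h.2.1, ih h.2.2⟩

private lemma rst_cons (r : ℕ → Prop) (m : ℕ) [Decidable (r 0)] :
    rst r (m + 1) = decide (r 0) :: rst (fun n => r (n + 1)) m := by
  apply List.ext_getElem
  · simp
  · intro i h1 h2
    rw [Bool.eq_iff_iff, rst_getElem]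
    rcases i with _ | i
    · simp
    · rw [List.getElem_cons_succ, rst_getElem]

lemma rst_jn (x y : ℕ → Prop) (m : ℕ) : rst (jn x y) (2 * m) = il (rst x m) (rst y m) := by
  classical
  induction m generalizing x y with
  | zero => simp [rst, il]
  | succ m ih =>
    have e : 2 * (m + 1) = 2 * m + 1 + 1 := by ring
    have e2 : (fun n => jn x y (n + 1 + 1)) = jn (fun n => x (n + 1)) (fun n => y (n + 1)) := by
      funext n
      have h1 : (n + 1 + 1) % 2 = n % 2 := by omega
      have h2 : (n + 1 + 1) / 2 = n / 2 + 1 := by omega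
      simp only [jn, h1, h2]
    have e3 : jn x y 0 = x 0 := by simp [jn]
    have e4 : jn x y (0 + 1) = y 0 := by simp [jn]
    rw [e, rst_cons, rst_cons, rst_cons x, rst_cons y, il, ← ih, e2]
    congr 1

private lemma rst_jn' (ε : Bool) (x y : ℕ → Prop) (m : ℕ) :
    rst (jn' ε x y) (2 * m) = il' ε (rst x m) (rst y m) := by
  unfold jn' il'
  split_ifs
  · exact rst_jn x y m
  · exact rst_jn y x m

lemma inO_sec (ε : Bool) (w : Set (List Bool)) (x y : ℕ → Prop) :
    InO (sec ε w y) x ↔ InO w (jn' ε x y) := by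
  rw [inO_iff w]
  constructor
  · rintro ⟨s, hs, he⟩
    rw [ext_iff_rst] at he
    have hs' : Cov w (il' ε s (rst y s.length)) := hs
    refine ⟨2 * s.length, ?_⟩
    rw [rst_jn', ← he]
    exact hs'
  · rintro ⟨m, hm⟩
    have h1 := hm.mono (rst_mono (jn' ε x y) (show m ≤ 2 * m by omega))
    rw [rst_jn'] at h1
    refine ⟨rst x m, ?_, ?_⟩
    · change Cov w (il' ε (rst x m) (rst y (rst x m).length))
      rwa [rst_length]
    · rw [ext_iff_rst, rst_length]

lemma inO_sq (ε : Bool) (v : Set (List Bool)) (x y : ℕ → Prop) :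
    InO (sq v) (jn' ε x y) ↔ InO v x ∨ InO v y := by
  have hl : ∀ m, (rst x m).length = (rst y m).length := fun m => by simp
  constructor
  · rintro ⟨s, hs, he⟩
    rw [ext_iff_rst] at he
    have h1 : s <+: rst (jn' ε x y) (2 * s.length) := by
      have := rst_mono (jn' ε x y) (show s.length ≤ 2 * s.length by omega)
      rwa [← he] at this
    rw [rst_jn'] at h1
    have h2 := evs_prefix h1
    have h3 := ods_prefix h1
    unfold il' at h2 h3
    rcases ε with _ | _
    · simp only [Bool.false_eq_true, if_false] at h2 h3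
      rw [evs_il (hl _).symm] at h2
      rw [ods_il (hl _).symm] at h3
      rcases hs with hs | hs
      · exact Or.inr ((inO_iff v y).2 ⟨_, Cov.mono hs h2⟩)
      · exact Or.inl ((inO_iff v x).2 ⟨_, Cov.mono hs h3⟩)
    · simp only [if_true] at h2 h3
      rw [evs_il (hl _)] at h2
      rw [ods_il (hl _)] at h3
      rcases hs with hs | hs
      · exact Or.inl ((inO_iff v x).2 ⟨_, Cov.mono hs h2⟩)
      · exact Or.inr ((inO_iff v y).2 ⟨_, Cov.mono hs h3⟩)
  · intro h
    have key : ∀ m, Cov v (rst x m) ∨ Cov v (rst y m) → InO (sq v) (jn' ε x y) := by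
      intro m hm
      refine ⟨rst (jn' ε x y) (2 * m), ?_, ?_⟩
      · change Cov v (evs _) ∨ Cov v (ods _)
        rw [rst_jn']
        unfold il'
        rcases ε with _ | _
        · simp only [Bool.false_eq_true, if_false]
          rw [evs_il (hl _).symm, ods_il (hl _).symm]
          exact hm.symm
        · simp only [if_true]
          rw [evs_il (hl _), ods_il (hl _)]
          exact hm
      · rw [ext_iff_rst, rst_length]
    rcases h with h | h
    · obtain ⟨m, hm⟩ := (inO_iff v x).1 h
      exact key m (Or.inl hm)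
    · obtain ⟨m, hm⟩ := (inO_iff v y).1 h
      exact key m (Or.inr hm)

end Pool.Agent.Lib.BPLM
end

section

/-!
# Finite combinatorics of measure: counting
-/

set_option autoImplicit false

open Set

namespace Pool.Agent.Lib.BPLM

lemma card_strs (m : ℕ) : (strs m).card = 2 ^ m := by
  classical
  have h : strs m = (Finset.univ : Finset (Fin m → Bool)).image List.ofFn := by
    ext s
    rw [mem_strs, Finset.mem_image]
    constructor
    · rintro rfl
      exact ⟨fun i => s[i], Finset.mem_univ _, by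
        apply List.ext_getElem
        · simp
        · intro i h1 h2
          simp⟩
    · rintro ⟨f, -, rfl⟩
      simp
  rw [h, Finset.card_image_of_injective _ List.ofFn_injective]
  simp

private lemma ms_eq (m : ℕ) (P : List Bool → Prop) [DecidablePred P] :
    ms m P = ((strs m).filter P).card / 2 ^ m := by
  unfold ms
  congr!

lemma natCard_eq (m : ℕ) (P : List Bool → Prop) :
    (Nat.card {s : List Bool // s.length = m ∧ P s} : ℝ) = ms m P * 2 ^ m := by
  classical
  have h : Nat.card {s : List Bool // s.length = m ∧ P s} = ((strs m).filter P).card := by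
    refine Nat.subtype_card _ fun s => ?_
    rw [Finset.mem_filter, mem_strs]
  rw [h, ms_eq, div_mul_cancel₀ _ (by positivity)]

lemma ms_nonneg (m : ℕ) (P : List Bool → Prop) : 0 ≤ ms m P := by
  unfold ms
  positivity

lemma ms_mono {m : ℕ} {P Q : List Bool → Prop} (h : ∀ s : List Bool, s.length = m → P s → Q s) :
    ms m P ≤ ms m Q := by
  classical
  unfold ms
  refine div_le_div_of_nonneg_right ?_ (by positivity)
  norm_cast
  refine Finset.card_le_card fun s hs => ?_
  rw [Finset.mem_filter, mem_strs] at hs ⊢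
  exact ⟨hs.1, h s hs.1 hs.2⟩

lemma ms_not (m : ℕ) (P : List Bool → Prop) : ms m (fun s => ¬ P s) = 1 - ms m P := by
  classical
  rw [ms_eq, ms_eq m P, eq_sub_iff_add_eq, ← add_div, div_eq_one_iff_eq (by positivity)]
  have h := Finset.card_filter_add_card_filter_not (s := strs m) P
  rw [card_strs] at h
  rw [add_comm]
  exact_mod_cast h

lemma ms_or_le (m : ℕ) (P Q : List Bool → Prop) :
    ms m (fun s => P s ∨ Q s) ≤ ms m P + ms m Q := by
  classical
  rw [ms_eq, ms_eq m P, ms_eq m Q, ← add_div]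
  refine div_le_div_of_nonneg_right ?_ (by positivity)
  norm_cast
  rw [Finset.filter_or]
  exact Finset.card_union_le _ _

private lemma ms_up_one {P : List Bool → Prop} (h : ∀ s t, P s → s <+: t → P t) (m : ℕ) :
    ms m P ≤ ms (m + 1) P := by
  classical
  unfold ms
  rw [div_le_div_iff₀ (by positivity) (by positivity)]
  have key : ((strs m).filter P).card * 2 ≤ ((strs (m + 1)).filter P).card := by
    have h1 : (((strs m).filter P) ×ˢ (Finset.univ : Finset Bool)).card =
        ((strs m).filter P).card * 2 := by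
      rw [Finset.card_product]
      simp
    rw [← h1]
    refine Finset.card_le_card_of_injOn (fun p => p.1 ++ [p.2]) ?_ ?_
    · rintro ⟨s, b⟩ hs
      simp only [Finset.coe_product, Set.mem_prod, Finset.mem_coe, Finset.mem_filter,
        mem_strs] at hs ⊢
      exact ⟨by simp [hs.1.1], h s _ hs.1.2 (List.prefix_append _ _)⟩
    · rintro ⟨s, b⟩ _ ⟨s', b'⟩ _ he
      simp only at he
      have := List.append_inj' he rfl
      simp only [List.cons.injEq, and_true] at this
      rw [Prod.mk.injEq]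
      exact this
  have key' : (((strs m).filter P).card : ℝ) * 2 ≤ (((strs (m + 1)).filter P).card : ℝ) := by
    exact_mod_cast key
  calc (((strs m).filter P).card : ℝ) * 2 ^ (m + 1)
      = ((((strs m).filter P).card : ℝ) * 2) * 2 ^ m := by ring
    _ ≤ (((strs (m + 1)).filter P).card : ℝ) * 2 ^ m :=
        mul_le_mul_of_nonneg_right key' (by positivity)

/-- the proportion of an upwards closed property increases -/
lemma ms_up {P : List Bool → Prop} (h : ∀ s t, P s → s <+: t → P t) {m n : ℕ} (hmn : m ≤ n) :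
    ms m P ≤ ms n P := by
  induction n, hmn using Nat.le_induction with
  | base => exact le_rfl
  | succ n _ ih => exact ih.trans (ms_up_one h n)

lemma measLe_iff (n : ℕ) (u v : Set (List Bool)) :
    MeasLe n u v ↔ ∀ m, ms m (fun s => Cov u s ∧ Cov v s) ≤ (1 / 2) ^ n := by
  unfold MeasLe
  refine forall_congr' fun m => ?_
  have h1 := natCard_eq m (fun s => Cov u s ∧ Cov v s)
  have h2 : (Nat.card {s : List Bool // s.length = m ∧ (∃ t ∈ u, t <+: s) ∧ ∃ t ∈ v, t <+: s} : ℝ)
      = ms m (fun s => Cov u s ∧ Cov v s) * 2 ^ m := h1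
  have h3 : (Nat.card {s : List Bool // s.length = m ∧ (∃ t ∈ u, t <+: s) ∧ ∃ t ∈ v, t <+: s} *
      2 ^ n ≤ 2 ^ m) ↔ ((Nat.card {s : List Bool // s.length = m ∧ (∃ t ∈ u, t <+: s) ∧
        ∃ t ∈ v, t <+: s} : ℝ) * 2 ^ n ≤ 2 ^ m) := by
    norm_cast
  rw [h3, h2, one_div, inv_pow, ← one_div, le_div_iff₀ (by positivity)]
  have h4 : (0 : ℝ) < 2 ^ m := by positivity
  constructor
  · intro h
    have : (ms m (fun s => Cov u s ∧ Cov v s) * 2 ^ n) * 2 ^ m ≤ 1 * 2 ^ m := by linarith
    exact le_of_mul_le_mul_right this h4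
  · intro h
    have := mul_le_mul_of_nonneg_right h h4.le
    linarith

lemma exists_of_ms_pos {m : ℕ} {P : List Bool → Prop} (h : 0 < ms m P) :
    ∃ s : List Bool, s.length = m ∧ P s := by
  classical
  by_contra hcon
  push Not at hcon
  have h1 : ms m P ≤ ms m (fun _ => False) := ms_mono fun s hs hP => hcon s hs hP
  have h2 : ms m (fun _ => False) = 0 := by
    unfold ms
    simp
  linarith

private lemma il'_inj {ε : Bool} {m : ℕ} {s s' τ τ' : List Bool} (hs : s.length = m)
    (hs' : s'.length = m) (ht : τ.length = m) (ht' : τ'.length = m)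
    (h : il' ε s τ = il' ε s' τ') : s = s' ∧ τ = τ' := by
  unfold il' at h
  split_ifs at h
  · have h1 := congrArg evs h
    have h2 := congrArg ods h
    rw [evs_il (hs.trans ht.symm), evs_il (hs'.trans ht'.symm)] at h1
    rw [ods_il (hs.trans ht.symm), ods_il (hs'.trans ht'.symm)] at h2
    exact ⟨h1, h2⟩
  · have h1 := congrArg evs h
    have h2 := congrArg ods h
    rw [evs_il (ht.trans hs.symm), evs_il (ht'.trans hs'.symm)] at h1
    rw [ods_il (ht.trans hs.symm), ods_il (ht'.trans hs'.symm)] at h2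
    exact ⟨h2, h1⟩

private lemma il'_length {ε : Bool} {m : ℕ} {s τ : List Bool} (hs : s.length = m)
    (ht : τ.length = m) : (il' ε s τ).length = 2 * m := by
  unfold il'
  split_ifs
  · rw [il_length (hs.trans ht.symm), hs]
  · rw [il_length (ht.trans hs.symm), ht]

private lemma il'_surj (ε : Bool) {m : ℕ} {z : List Bool} (hz : z.length = 2 * m) :
    ∃ s τ : List Bool, s.length = m ∧ τ.length = m ∧ il' ε s τ = z := by
  obtain ⟨h1, h2, h3⟩ := il_evs_ods hz
  unfold il'
  split_ifs
  · exact ⟨_, _, h2, h3, h1⟩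
  · exact ⟨_, _, h3, h2, h1⟩

/-- the proportion of the strings of length `2 m`, by sections -/
lemma ms_il (ε : Bool) (m : ℕ) (P : List Bool → Prop) :
    ms (2 * m) P = (∑ τ ∈ strs m, ms m (fun s => P (il' ε s τ))) / 2 ^ m := by
  classical
  have key : ((strs (2 * m)).filter P).card =
      ∑ τ ∈ strs m, ((strs m).filter fun s => P (il' ε s τ)).card := by
    rw [← Finset.card_sigma]
    refine (Finset.card_bij (fun p _ => il' ε p.2 p.1) ?_ ?_ ?_).symm
    · rintro ⟨τ, s⟩ hp
      simp only [Finset.mem_sigma, Finset.mem_filter, mem_strs] at hp ⊢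
      exact ⟨il'_length hp.2.1 hp.1, hp.2.2⟩
    · rintro ⟨τ, s⟩ hp ⟨τ', s'⟩ hp' he
      simp only [Finset.mem_sigma, Finset.mem_filter, mem_strs] at hp hp'
      obtain ⟨h1, h2⟩ := il'_inj hp.2.1 hp'.2.1 hp.1 hp'.1 he
      subst h1 h2
      rfl
    · intro z hz
      rw [Finset.mem_filter, mem_strs] at hz
      obtain ⟨s, τ, h1, h2, h3⟩ := il'_surj ε hz.1
      refine ⟨⟨τ, s⟩, ?_, h3⟩
      simp only [Finset.mem_sigma, Finset.mem_filter, mem_strs]
      exact ⟨h2, h1, by rw [h3]; exact hz.2⟩
  unfold ms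
  rw [← Finset.sum_div, div_div, ← pow_add, ← two_mul, ← Nat.cast_sum]
  congr 2

private lemma il'_prefix {ε : Bool} {s s' t t' : List Bool} (h : s.length = t.length)
    (h' : s'.length = t'.length) (hs : s <+: s') (ht : t <+: t') : il' ε s t <+: il' ε s' t' := by
  unfold il'
  split_ifs
  · exact il_prefix h h' hs ht
  · exact il_prefix h.symm h'.symm ht hs

/-- The bad strings are closed under extensions: for `|τ'| = |τ| + 1`, `τ <+: τ'`, every string `s'`
with `¬ Cov w (il' ε s' τ')` extends a string `s` with `¬ Cov w (il' ε s τ)`. -/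
lemma Bd_up (w : Set (List Bool)) (ε : Bool) (k : ℕ) {τ τ' : List Bool} (h : τ ∈ Bd w ε k)
    (h' : τ <+: τ') : τ' ∈ Bd w ε k := by
  have h0 : ms τ.length (fun s => ¬ Cov w (il' ε s τ)) < (1 / 2) ^ k := h
  change ms τ'.length (fun s => ¬ Cov w (il' ε s τ')) < (1 / 2) ^ k
  rw [ms_not] at h0 ⊢
  set U : List Bool → Prop := fun s' => ∃ s, s <+: s' ∧ s.length = τ.length ∧
    Cov w (il' ε s τ) with hU
  have h1 : ms τ.length (fun s => Cov w (il' ε s τ)) ≤ ms τ.length U :=
    ms_mono fun s hs hc => ⟨s, List.prefix_rfl, hs, hc⟩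
  have h2 : ms τ.length U ≤ ms τ'.length U :=
    ms_up (fun s t hs hst => by
      obtain ⟨r, hr, hr2⟩ := hs
      exact ⟨r, hr.trans hst, hr2⟩) h'.length_le
  have h3 : ms τ'.length U ≤ ms τ'.length (fun s => Cov w (il' ε s τ')) :=
    ms_mono fun s hs hc => by
      obtain ⟨r, hr, hr2, hr3⟩ := hc
      exact hr3.mono (il'_prefix hr2 hs hr h')
  linarith

/-- Fubini: good strings of all lengths -/
theorem exists_good {w : Set (List Bool)} (ε : Bool) {k : ℕ}
    (h : ∀ m, 2 * (1 / 2) ^ k ≤ ms (2 * m) (fun s => ¬ Cov w s)) (m : ℕ) :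
    ∃ τ : List Bool, τ.length = m ∧ ¬ Cov (Bd w ε k) τ := by
  by_contra hcon
  push Not at hcon
  have h1 := h m
  rw [ms_il ε] at h1
  have h2 : ∑ τ ∈ strs m, ms m (fun s => ¬ Cov w (il' ε s τ)) ≤
      ∑ τ ∈ strs m, ((1 / 2 : ℝ)) ^ k := by
    refine Finset.sum_le_sum fun τ hτ => ?_
    rw [mem_strs] at hτ
    obtain ⟨t, ht, htτ⟩ := hcon τ hτ
    have h3 : ms τ.length (fun s => ¬ Cov w (il' ε s τ)) < (1 / 2) ^ k := Bd_up w ε k ht htτ
    rw [hτ] at h3
    exact h3.le
  rw [Finset.sum_const, card_strs, nsmul_eq_mul] at h2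
  push_cast at h2
  rw [le_div_iff₀ (by positivity)] at h1
  have h4 : (0 : ℝ) < (1 / 2) ^ k * 2 ^ m := by positivity
  linarith

/-- Fubini: the section at the leftmost branch of the good strings is large -/
theorem sec_big {w : Set (List Bool)} (ε : Bool) {k : ℕ}
    (h : ∀ m, 2 * (1 / 2) ^ k ≤ ms (2 * m) (fun s => ¬ Cov w s)) (m : ℕ) :
    (1 / 2) ^ k ≤ ms m (fun s => ¬ Cov (sec ε w (Br (Bd w ε k))) s) := by
  set y := Br (Bd w ε k) with hy
  have h1 : ¬ InO (Bd w ε k) y := br_not_mem (exists_good ε h)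
  have h2 : rst y m ∉ Bd w ε k := fun hc =>
    h1 ((inO_iff _ _).2 ⟨m, rst y m, hc, List.prefix_rfl⟩)
  have h3 : ¬ ms (rst y m).length (fun s => ¬ Cov w (il' ε s (rst y m))) < (1 / 2) ^ k := h2
  rw [rst_length, not_lt] at h3
  refine h3.trans (ms_mono fun s hs hc hc' => hc ?_)
  obtain ⟨t, ht, hts⟩ := hc'
  have ht' : Cov w (il' ε t (rst y t.length)) := ht
  exact ht'.mono (il'_prefix (by simp) (by simp [hs]) hts
    (rst_mono y (by rw [← hs]; exact hts.length_le)))

/-- the measure of the square -/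
theorem ms_sq {v : Set (List Bool)} {k : ℕ} (h : ∀ m, (1 / 2) ^ k ≤ ms m (fun s => ¬ Cov v s))
    (m : ℕ) : (1 / 2) ^ (2 * k) ≤ ms (2 * m) (fun s => ¬ Cov (sq v) s) := by
  classical
  have h1 : ms (2 * m) (fun s => ¬ Cov v (evs s) ∧ ¬ Cov v (ods s)) ≤
      ms (2 * m) (fun s => ¬ Cov (sq v) s) := by
    refine ms_mono fun s _ hc hc' => ?_
    obtain ⟨t, ht, hts⟩ := hc'
    rcases ht with ht | ht
    · exact hc.1 (Cov.mono ht (evs_prefix hts))
    · exact hc.2 (Cov.mono ht (ods_prefix hts))
  refine le_trans ?_ h1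
  rw [ms_il true]
  set A := ms m (fun s => ¬ Cov v s) with hA
  have h2 : ∀ τ ∈ strs m, (if ¬ Cov v τ then A else 0) ≤
      ms m (fun s => ¬ Cov v (evs (il' true s τ)) ∧ ¬ Cov v (ods (il' true s τ))) := by
    intro τ hτ
    rw [mem_strs] at hτ
    by_cases hc : Cov v τ
    swap
    · rw [if_pos hc]
      refine ms_mono fun s hs hc' => ?_
      have e1 : evs (il' true s τ) = s := by
        unfold il'
        rw [if_pos rfl, evs_il (hs.trans hτ.symm)]
      have e2 : ods (il' true s τ) = τ := by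
        unfold il'
        rw [if_pos rfl, ods_il (hs.trans hτ.symm)]
      rw [e1, e2]
      exact ⟨hc', hc⟩
    · rw [if_neg (not_not.2 hc)]
      exact ms_nonneg _ _
  have h3 := Finset.sum_le_sum h2
  rw [← Finset.sum_filter, Finset.sum_const, nsmul_eq_mul] at h3
  have h4 : (((strs m).filter fun τ => ¬ Cov v τ).card : ℝ) = A * 2 ^ m := by
    rw [hA, ms_eq, div_mul_cancel₀ _ (by positivity)]
  rw [h4] at h3
  rw [le_div_iff₀ (by positivity)]
  refine le_trans ?_ h3
  have h5 := h m
  have h6 : (0 : ℝ) ≤ (1 / 2) ^ k := by positivity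
  have h7 : ((1 / 2 : ℝ)) ^ (2 * k) ≤ A * A := by
    rw [two_mul, pow_add]
    exact mul_le_mul h5 h5 h6 (h6.trans h5)
  have h8 : (0 : ℝ) < 2 ^ m := by positivity
  nlinarith

private lemma cov_and_self (v : Set (List Bool)) (m : ℕ) :
    ms m (fun s => Cov v s ∧ Cov v s) = ms m (fun s => Cov v s) := by
  simp only [and_self]

/-- a small open set does not cover a large closed set -/
theorem ms_diff {u v : Set (List Bool)} {k : ℕ} (h : ∀ m, (1 / 2) ^ k ≤ ms m (fun s => ¬ Cov u s))
    (hv : MeasLe (k + 1) v v) (m : ℕ) : ∃ s : List Bool, s.length = m ∧ ¬ Cov (u ∪ v) s := by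
  apply exists_of_ms_pos
  have h1 := h m
  have h2 := (measLe_iff _ _ _).1 hv m
  rw [cov_and_self] at h2
  have h3 := ms_or_le m (fun s => ¬ Cov (u ∪ v) s) (fun s => Cov v s)
  have h4 : ms m (fun s => ¬ Cov u s) ≤ ms m (fun s => ¬ Cov (u ∪ v) s ∨ Cov v s) :=
    ms_mono fun s _ hc => by
      by_cases hcv : Cov v s
      · exact Or.inr hcv
      · refine Or.inl ?_
        rw [cov_union]
        exact fun hc' => hc'.elim hc hcv
  have h5 : (0 : ℝ) < (1 / 2) ^ k := by positivity
  rw [pow_succ] at h2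
  linarith

/-- the proportion of the uncovered strings decreases -/
private lemma ms_not_anti (u : Set (List Bool)) {m n : ℕ} (h : m ≤ n) :
    ms n (fun s => ¬ Cov u s) ≤ ms m (fun s => ¬ Cov u s) := by
  rw [ms_not, ms_not]
  have := ms_up (P := fun s => Cov u s) (fun s t hs hst => Cov.mono hs hst) h
  linarith

/-- one of the two parts of a large closed set is large -/
theorem ms_split {f u v : Set (List Bool)} {k : ℕ}
    (h : ∀ m, (1 / 2) ^ k ≤ ms (2 * m) (fun s => ¬ Cov f s)) (huv : MeasLe (k + 1) u v) :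
    (∀ m, 2 * (1 / 2) ^ (k + 3) ≤ ms (2 * m) (fun s => ¬ Cov (f ∪ v) s)) ∨
      ∀ m, 2 * (1 / 2) ^ (k + 3) ≤ ms (2 * m) (fun s => ¬ Cov (f ∪ u) s) := by
  by_contra hcon
  push Not at hcon
  obtain ⟨⟨m1, h1⟩, m2, h2⟩ := hcon
  set m := max m1 m2 with hm
  have h3 := ms_not_anti (f ∪ v) (show 2 * m1 ≤ 2 * m by omega)
  have h4 := ms_not_anti (f ∪ u) (show 2 * m2 ≤ 2 * m by omega)
  have h5 := h m
  have h6 := (measLe_iff _ _ _).1 huv (2 * m)
  have h7 : ms (2 * m) (fun s => ¬ Cov f s) ≤ ms (2 * m)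
      (fun s => ¬ Cov (f ∪ v) s ∨ (¬ Cov (f ∪ u) s ∨ (Cov u s ∧ Cov v s))) :=
    ms_mono fun s _ hc => by
      rw [cov_union, cov_union]
      tauto
  have h8 := ms_or_le (2 * m) (fun s => ¬ Cov (f ∪ v) s)
    (fun s => ¬ Cov (f ∪ u) s ∨ (Cov u s ∧ Cov v s))
  have h9 := ms_or_le (2 * m) (fun s => ¬ Cov (f ∪ u) s) (fun s => Cov u s ∧ Cov v s)
  have h10 : (0 : ℝ) < (1 / 2) ^ k := by positivity
  rw [pow_add] at h1 h2 h6
  norm_num at h1 h2 h6 h5 h10
  linarith

/-- the complement of `O_v` is large if `O_u` is large and `O_u ∩ O_v` is small -/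
theorem ms_compl {u v : Set (List Bool)} {n : ℕ} (h : ¬ MeasLe n u u) (huv : MeasLe (n + 1) u v)
    (m : ℕ) : (1 / 2) ^ (n + 1) ≤ ms m (fun s => ¬ Cov v s) := by
  rw [measLe_iff] at h
  push Not at h
  obtain ⟨m0, h0⟩ := h
  rw [cov_and_self] at h0
  have h1 := ms_up (P := fun s => Cov u s) (fun s t hs hst => Cov.mono hs hst)
    (show m0 ≤ max m m0 by omega)
  have h2 := (measLe_iff _ _ _).1 huv (max m m0)
  have h3 := ms_not_anti v (show m ≤ max m m0 by omega)
  have h4 : ms (max m m0) (fun s => Cov u s) ≤ ms (max m m0)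
      (fun s => ¬ Cov v s ∨ (Cov u s ∧ Cov v s)) :=
    ms_mono fun s _ hc => by tauto
  have h5 := ms_or_le (max m m0) (fun s => ¬ Cov v s) (fun s => Cov u s ∧ Cov v s)
  have h6 : (0 : ℝ) < (1 / 2) ^ n := by positivity
  rw [pow_succ] at h2 ⊢
  linarith

/-- unions of small open sets -/
theorem measLe_union {u v : Set (List Bool)} {n : ℕ} (hu : MeasLe (n + 1) u u)
    (hv : MeasLe (n + 1) v v) : MeasLe n (u ∪ v) (u ∪ v) := by
  rw [measLe_iff] at hu hv ⊢
  intro m
  have h1 := hu m
  have h2 := hv m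
  rw [cov_and_self] at h1 h2 ⊢
  have h3 : ms m (fun s => Cov (u ∪ v) s) ≤ ms m (fun s => Cov u s ∨ Cov v s) :=
    ms_mono fun s _ hc => (cov_union u v s).1 hc
  have h4 := ms_or_le m (fun s => Cov u s) (fun s => Cov v s)
  rw [pow_succ] at h1 h2
  linarith

private lemma ms_prefix_le (m : ℕ) (t : List Bool) :
    ms m (fun s => t <+: s) ≤ (1 / 2) ^ t.length := by
  classical
  by_cases hle : t.length ≤ m
  · have h1 : ((strs m).filter fun s => t <+: s).card ≤ (strs (m - t.length)).card := by
      refine Finset.card_le_card_of_injOn (fun s => s.drop t.length) ?_ ?_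
      · intro s hs
        simp only [Finset.mem_coe, Finset.mem_filter, mem_strs] at hs ⊢
        rw [List.length_drop, hs.1]
      · intro s hs s' hs' he
        simp only [Finset.mem_coe, Finset.mem_filter, mem_strs] at hs hs'
        simp only at he
        obtain ⟨r, rfl⟩ := hs.2
        obtain ⟨r', rfl⟩ := hs'.2
        simp only [List.drop_left] at he
        rw [he]
    rw [card_strs] at h1
    rw [ms_eq, div_le_iff₀ (by positivity)]
    have h2 : (((strs m).filter fun s => t <+: s).card : ℝ) ≤ 2 ^ (m - t.length) := by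
      exact_mod_cast h1
    have h3 : ((1 / 2 : ℝ)) ^ t.length * 2 ^ m = 2 ^ (m - t.length) := by
      have h4 : (2 : ℝ) ^ m = 2 ^ t.length * 2 ^ (m - t.length) := by
        rw [← pow_add]
        congr 1
        omega
      rw [h4, ← mul_assoc, ← mul_pow]
      norm_num
    rw [h3]
    exact h2
  · have h1 : ms m (fun s => t <+: s) ≤ ms m (fun _ => False) :=
      ms_mono fun s hs hp => by
        have := hp.length_le
        omega
    have h2 : ms m (fun _ => False) = 0 := by
      unfold ms
      simp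
    have h3 : (0 : ℝ) < (1 / 2) ^ t.length := by positivity
    linarith

/-- the open set given by strings `t j` of length `j`, `j > n` -/
theorem measLe_tail {t : ℕ → List Bool} (ht : ∀ j, (t j).length = j) (n : ℕ) :
    MeasLe n {s | ∃ j, n < j ∧ t j = s} {s | ∃ j, n < j ∧ t j = s} := by
  rw [measLe_iff]
  intro m
  rw [cov_and_self]
  have key : ∀ M, n ≤ M → ms m (fun s => ∃ j, n < j ∧ j ≤ M ∧ t j <+: s) ≤
      (1 / 2) ^ n - (1 / 2) ^ M := by
    intro M hM
    induction M, hM using Nat.le_induction with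
    | base =>
      have h1 : ms m (fun s => ∃ j, n < j ∧ j ≤ n ∧ t j <+: s) ≤ ms m (fun _ => False) :=
        ms_mono fun s _ hp => by
          obtain ⟨j, h1, h2, -⟩ := hp
          omega
      have h2 : ms m (fun _ => False) = 0 := by
        unfold ms
        simp
      linarith
    | succ M hM ih =>
      have h1 : ms m (fun s => ∃ j, n < j ∧ j ≤ M + 1 ∧ t j <+: s) ≤
          ms m (fun s => (∃ j, n < j ∧ j ≤ M ∧ t j <+: s) ∨ t (M + 1) <+: s) :=
        ms_mono fun s _ hp => by
          obtain ⟨j, h1, h2, h3⟩ := hp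
          by_cases hj : j ≤ M
          · exact Or.inl ⟨j, h1, hj, h3⟩
          · have : j = M + 1 := by omega
            subst this
            exact Or.inr h3
      have h2 := ms_or_le m (fun s => ∃ j, n < j ∧ j ≤ M ∧ t j <+: s) (fun s => t (M + 1) <+: s)
      have h3 := ms_prefix_le m (t (M + 1))
      rw [ht, pow_succ] at h3
      rw [pow_succ]
      linarith
  have h1 : ms m (fun s => Cov {s | ∃ j, n < j ∧ t j = s} s) ≤
      ms m (fun s => ∃ j, n < j ∧ j ≤ max n m ∧ t j <+: s) :=
    ms_mono fun s hs hp => by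
      obtain ⟨r, ⟨j, hj, rfl⟩, h2⟩ := hp
      refine ⟨j, hj, ?_, h2⟩
      have := h2.length_le
      rw [ht] at this
      omega
  have h2 := key (max n m) (by omega)
  have h3 : (0 : ℝ) < (1 / 2) ^ (max n m) := by positivity
  linarith

end Pool.Agent.Lib.BPLM
end

section

/-!
# A non-measurable set from a well-ordered cover by null sets
-/

set_option autoImplicit false

open Set

namespace Pool.Agent.Lib.BPLM

/-- `A` is measurable relative to the reals in `R` -/
def LMR (R A : Set (ℕ → Prop)) : Prop :=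
  ∀ n, ∃ u v : Set (List Bool), codeS u ∈ R ∧ codeS v ∈ R ∧
    (∀ r ∈ R, r ∈ A → InO u r) ∧ (∀ r ∈ R, r ∉ A → InO v r) ∧ MeasLe n u v

/-- `A` is null relative to the reals in `R` -/
def NullR (R A : Set (ℕ → Prop)) : Prop :=
  ∀ n, ∃ u : Set (List Bool), codeS u ∈ R ∧ (∀ r ∈ R, r ∈ A → InO u r) ∧ MeasLe n u u

lemma NullR.mono {R A B : Set (ℕ → Prop)} (h : NullR R B) (hAB : A ⊆ B) : NullR R A := by
  intro n
  obtain ⟨u, hu, hc, hm⟩ := h n
  exact ⟨u, hu, fun r hr hA => hc r hr (hAB hA), hm⟩

/-- `R` is closed under joins and under the functionals -/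
structure Clo (R : Set (ℕ → Prop)) : Prop where
  jn : ∀ x ∈ R, ∀ y ∈ R, BPLM.jn x y ∈ R
  fn : ∀ i, ∀ x ∈ R, Fn i x ∈ R

namespace Clo

variable {R : Set (ℕ → Prop)} (h : Clo R)

include h

lemma jn' (ε : Bool) {x y : ℕ → Prop} (hx : x ∈ R) (hy : y ∈ R) : BPLM.jn' ε x y ∈ R := by
  unfold BPLM.jn'
  split_ifs
  · exact h.jn x hx y hy
  · exact h.jn y hy x hx

lemma un {u v : Set (List Bool)} (hu : codeS u ∈ R) (hv : codeS v ∈ R) : codeS (u ∪ v) ∈ R := by
  have h1 := h.fn .un _ (h.jn _ hu _ hv)
  simp only [Fn, evn_jn, odn_jn, dS_codeS] at h1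
  exact h1

lemma br {u : Set (List Bool)} (hu : codeS u ∈ R) : Br u ∈ R := by
  have h1 := h.fn .br _ hu
  simp only [Fn, dS_codeS] at h1
  exact h1

lemma bd {w : Set (List Bool)} (hw : codeS w ∈ R) (ε : Bool) (k : ℕ) : codeS (Bd w ε k) ∈ R := by
  have h1 := h.fn (.bd ε k) _ hw
  simp only [Fn, dS_codeS] at h1
  exact h1

lemma sec (ε : Bool) {w : Set (List Bool)} (hw : codeS w ∈ R) {y : ℕ → Prop} (hy : y ∈ R) :
    codeS (BPLM.sec ε w y) ∈ R := by
  have h1 := h.fn (.sec ε) _ (h.jn _ hw _ hy)
  simp only [Fn, evn_jn, odn_jn, dS_codeS] at h1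
  exact h1

lemma sq {v : Set (List Bool)} (hv : codeS v ∈ R) : codeS (BPLM.sq v) ∈ R := by
  have h1 := h.fn .sq _ hv
  simp only [Fn, dS_codeS] at h1
  exact h1

lemma null_union {A B : Set (ℕ → Prop)} (hA : NullR R A) (hB : NullR R B) :
    NullR R (A ∪ B) := by
  intro n
  obtain ⟨u, hu, huc, hum⟩ := hA (n + 1)
  obtain ⟨v, hv, hvc, hvm⟩ := hB (n + 1)
  refine ⟨u ∪ v, h.un hu hv, fun r hr hAB => ?_, measLe_union hum hvm⟩
  rw [inO_union]
  rcases hAB with hr' | hr'
  · exact Or.inl (huc r hr hr')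
  · exact Or.inr (hvc r hr hr')

/-- the set of all reals is not null (`br_not_mem`, `measLe_iff`) -/
lemma not_null : ¬ NullR R univ := by
  intro hn
  obtain ⟨u, hu, hc, hm⟩ := hn 1
  rw [measLe_iff] at hm
  have h1 : ∀ m, ∃ s : List Bool, s.length = m ∧ ¬ Cov u s := by
    intro m
    apply exists_of_ms_pos
    rw [ms_not]
    have h2 := hm m
    simp only [and_self, pow_one] at h2
    linarith
  exact br_not_mem h1 (hc _ (h.br hu) (mem_univ _))

/-- The main step, for one of the two coordinates: a large closed set `2^ω \ O_w` such that for all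
`x`, `y` in `R` with `jn' ε x y ∉ O_w` the real `y` has the property that `G y` is null and `x ∈ G y`.
Let `y = Br (Bd w ε K)` (in `R`), `u = sec ε w y`; by `sec_big` and `ms_diff` (with `v = ∅`, or
`br_not_mem` for `u`) there is `x ∈ R`, `x ∉ O_u`, so `jn' ε x y ∉ O_w` (`inO_sec`) and `G y` is null:
let `G y ∩ R ⊆ O_v`, `MeasLe (K + 1) v v`; `x' = Br (u ∪ v)` is in `R`, not in `O_u`, and not in `O_v`,
contradiction. -/
theorem main_step {w : Set (List Bool)} (hw : codeS w ∈ R) (ε : Bool) {K : ℕ}
    (hK : ∀ m, 2 * (1 / 2) ^ K ≤ ms (2 * m) (fun s => ¬ Cov w s))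
    (G : (ℕ → Prop) → Set (ℕ → Prop))
    (hG : ∀ x ∈ R, ∀ y ∈ R, ¬ InO w (BPLM.jn' ε x y) → NullR R (G y) ∧ x ∈ G y) : False := by
  set y := Br (Bd w ε K) with hy
  have hyR : y ∈ R := h.br (h.bd hw ε K)
  set u := BPLM.sec ε w y with hu
  have huR : codeS u ∈ R := h.sec ε hw hyR
  have hbig : ∀ m, (1 / 2) ^ K ≤ ms m (fun s => ¬ Cov u s) := fun m => sec_big ε hK m
  have h1 : ¬ InO u (Br u) := by
    refine br_not_mem fun m => ?_
    exact exists_of_ms_pos (lt_of_lt_of_le (by positivity) (hbig m))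
  rw [hu, inO_sec] at h1
  have hG1 := (hG _ (h.br huR) y hyR h1).1
  obtain ⟨v, hv, hvc, hvm⟩ := hG1 (K + 1)
  have h2 : ¬ InO (u ∪ v) (Br (u ∪ v)) := br_not_mem fun m => ms_diff hbig hvm m
  rw [inO_union, not_or] at h2
  have h3 : ¬ InO w (BPLM.jn' ε (Br (u ∪ v)) y) := by
    rw [← inO_sec]
    exact h2.1
  have hxR : Br (u ∪ v) ∈ R := h.br (h.un huR hv)
  exact h2.2 (hvc _ hxR (hG _ hxR y hyR h3).2)

/-- The core: `Y` is measurable and not null, but the sets `{r | rk r ≤ rk y}` (`y ∈ Y`) are null, and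
the comparison of ranks is measurable. By `ms_compl` there are `n` and `v` with `R \ Y ⊆ O_v` and
`(1/2)^(n+1) ≤ ms m (¬ Cov v)`. By `ms_sq`, `ms_split` (for `f = sq v` and the codes `u', v'` for
`h3`, `MeasLe (2 * (n + 1) + 1) u' v'`) one of the closed sets `sq v ∪ v'` (where `rk x ≤ rk y`) and
`sq v ∪ u'` (where `¬ rk x ≤ rk y`) is large. Apply `main_step` with `ε = true`,
`G y = {r | rk r ≤ rk y}` in the first case, and with `ε = false` and the same `G` in the second
case (there `jn' false x y = jn y x`, and `¬ rk y ≤ rk x`). -/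
theorem core {T : Type} [LinearOrder T] (rk : (ℕ → Prop) → T) (Y : Set (ℕ → Prop))
    (hY : LMR R Y) (hn : ¬ NullR R Y) (hs : ∀ y ∈ R, y ∈ Y → NullR R {r | rk r ≤ rk y})
    (h3 : LMR R {z | rk (evn z) ≤ rk (odn z)}) : False := by
  obtain ⟨n, hn⟩ : ∃ n, ¬ ∃ u : Set (List Bool), codeS u ∈ R ∧
      (∀ r ∈ R, r ∈ Y → InO u r) ∧ MeasLe n u u := by
    by_contra hcon
    push Not at hcon
    exact hn fun n => hcon n
  obtain ⟨u, v, hu, hv, huc, hvc, huv⟩ := hY (n + 1)
  have hun : ¬ MeasLe n u u := fun hm => hn ⟨u, hu, huc, hm⟩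
  have hsq := fun m => ms_sq (fun m => ms_compl hun huv m) m
  obtain ⟨u', v', hu', hv', huc', hvc', huv'⟩ := h3 (2 * (n + 1) + 1)
  have hYv : ∀ r ∈ R, ¬ InO v r → r ∈ Y := by
    intro r hr hv
    by_contra hY
    exact hv (hvc r hr hY)
  rcases ms_split hsq huv' with hK | hK
  · refine h.main_step (h.un (h.sq hv) hv') true hK (fun y => {r | rk r ≤ rk y}) ?_
    intro x hx y hy hw
    rw [inO_union, inO_sq, not_or, not_or] at hw
    refine ⟨hs y hy (hYv y hy hw.1.2), ?_⟩
    by_contra hcon
    apply hw.2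
    refine hvc' _ (h.jn' true hx hy) fun hmem => hcon ?_
    have e : BPLM.jn' true x y = BPLM.jn x y := if_pos rfl
    rw [e] at hmem
    simpa using hmem
  · refine h.main_step (h.un (h.sq hv) hu') false hK (fun y => {r | rk r ≤ rk y}) ?_
    intro x hx y hy hw
    rw [inO_union, inO_sq, not_or, not_or] at hw
    refine ⟨hs y hy (hYv y hy hw.1.2), ?_⟩
    by_contra hcon
    apply hw.2
    refine huc' _ (h.jn' false hx hy) ?_
    have e : BPLM.jn' false x y = BPLM.jn y x := if_neg (by simp)
    rw [e]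
    have hcon' : rk y < rk x := not_le.mp hcon
    simpa using hcon'.le

/-- The abstract form of: a well-ordered cover of the reals by null sets gives a non-measurable set.
If `{r | rk r < t}` is not null for some `t ∈ TM` take the least such `t` and
`Y = {r | rk r < t}`; otherwise `Y = univ`. For `y ∈ Y` the set `{r | rk r ≤ rk y}` is the union of
`{r | rk r < rk y}` and `{r | rk r = rk y}`. -/
theorem no_lm {T : Type} [LinearOrder T] [WellFoundedLT T] (TM : Set T)
    (rk : (ℕ → Prop) → T) (hrk : ∀ y ∈ R, rk y ∈ TM)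
    (hN : ∀ t ∈ TM, NullR R {r | rk r = t}) (h1 : ∀ t ∈ TM, LMR R {r | rk r < t})
    (h2 : LMR R univ) (h3 : LMR R {z | rk (evn z) ≤ rk (odn z)}) : False := by
  have hle : ∀ y ∈ R, NullR R {r | rk r < rk y} → NullR R {r | rk r ≤ rk y} := by
    intro y hy hlt
    refine (h.null_union hlt (hN (rk y) (hrk y hy))).mono fun r hr => ?_
    exact lt_or_eq_of_le hr
  by_cases hex : ∃ t, t ∈ TM ∧ ¬ NullR R {r | rk r < t}
  · obtain ⟨t, ⟨htM, htn⟩, hmin⟩ := WellFounded.has_min (wellFounded_lt (α := T))
      {t | t ∈ TM ∧ ¬ NullR R {r | rk r < t}} hex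
    refine h.core rk {r | rk r < t} (h1 t htM) htn (fun y hy hyt => hle y hy ?_) h3
    by_contra hcon
    exact hmin (rk y) ⟨hrk y hy, hcon⟩ hyt
  · push Not at hex
    exact h.core rk univ h2 h.not_null (fun y hy _ => hle y hy (hex _ (hrk y hy))) h3

end Clo

end Pool.Agent.Lib.BPLM
end

section

/-!
# Dependent choices in the generic model
-/

set_option autoImplicit false

open Set

namespace Pool.Agent.Lib.BPLM

open Pool.Agent.Lib.SymZF Pool.Agent.Lib.KZF Pool.Agent.Lib.KZF.KSys Setup

/-- the task for dependent choices -/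
noncomputable def dcTask (D : Setup) : Task D where
  goal l := (⨆ x : D.sys.HSet, x.mem (XX.asg l 0)) ⊓ totv (XX.asg l 0) (XX.asg l 1)
  wit l c y := ∃ F : ℕ → D.sys.HSet, y = XX.nm (HSet.seq F) ∧
    ∀ n, e c ≤ (F n).mem (XX.asg l 0) ⊓ ((F n).opair (F (n + 1))).mem (XX.asg l 1)
  dense l c h := by
    obtain ⟨d, hd, F, hF⟩ := exists_dc _ _ c h
    exact ⟨d, hd, _, F, rfl, hF⟩

/-- Dependent choices. `w` = the value of `om`, `f` = the value of the witness `seq F` (which is in
`G.Nm`, `hNm`). The elements of `f` are the values of the pairs `(num n, F n)` (`E_fam`), and their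
coordinates have values (`exists_of_opair`); for every `n` there is a value of `F n`
(`exists_rel`, then `rel_fam` / `opair_eq_le`). -/
theorem isDC_of {D : Setup} (g : GMod D) (h : g.toMod.Meets (dcTask D)) : IsDC g.E := by
  intro X R hne htot
  obtain ⟨i, hi⟩ := g.nmx X
  obtain ⟨j, hj⟩ := g.nmx R
  have hX : g.G.IsVal X (g.toMod.ξ i).name := by rw [← hi]; exact g.G.isVal_nm X
  have hR : g.G.IsVal R (g.toMod.ξ j).name := by rw [← hj]; exact g.G.isVal_nm R
  have hgoal : (dcTask D).goal ([i, j].map g.toMod.ξ) ∈ g.toMod.U := by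
    rw [← g.hU]
    exact g.G.inf ((g.G.ne_iff hX).1 hne) ((g.G.tot_iff hX hR).1 htot)
  rcases h [i, j] with h1 | ⟨n, k, F, hk, hF⟩
  · exact (Mod.compl_mem hgoal h1).elim
  have hFX : ∀ n, (F n).mem (g.toMod.ξ i).name ∈ g.G.U := by
    intro m
    rw [g.hU]
    exact ⟨n, (hF m).trans inf_le_left⟩
  have hFR : ∀ n, ((F n).opair (F (n + 1))).mem (g.toMod.ξ j).name ∈ g.G.U := by
    intro m
    rw [g.hU]
    exact ⟨n, (hF m).trans inf_le_right⟩
  obtain ⟨w, hw⟩ := g.G.hom
  have hw : g.G.IsVal w (HSet.om D.sys) := hw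
  obtain ⟨f, hf⟩ := g.val k
  have hN := g.hNm k
  rw [hk] at hf hN
  have hf : g.G.IsVal f (HSet.seq F) := hf
  have hN : HSet.seq F ∈ g.G.Nm := hN
  have hrel : ∀ u v, Rel g.E f u v ↔ ∃ m : ℕ, (⊤ : D.B) ∈ g.G.U ∧
      g.G.IsVal u (HSet.num D.sys m) ∧ g.G.IsVal v (F m) := fun u v => g.G.rel_fam hN hf u v
  have hvF : ∀ (m : ℕ) (u : g.M), g.G.IsVal u (HSet.num D.sys m) → ∀ v, Rel g.E f u v →
      g.G.IsVal v (F m) := by
    intro m u hu v huv
    obtain ⟨m', -, hu', hv⟩ := (hrel u v).1 huv
    by_cases hmm : m' = m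
    · rwa [hmm] at hv
    · exfalso
      have h2 := (g.G.eq_iff hu' hu).1 rfl
      rw [HSet.num_eq_bot hmm] at h2
      exact g.G.bot h2
  have hex : ∀ (m : ℕ) (u : g.M), g.G.IsVal u (HSet.num D.sys m) → ∃ v, Rel g.E f u v := by
    intro m u hu
    refine g.G.exists_rel hf hu (τ := F m) ?_
    refine g.G.up g.G.top ?_
    have h3 : ((HSet.num D.sys m).opair (F m)).mem (HSet.seq F) =
        ⨆ m' : ℕ, (⊤ : D.B) ⊓ ((HSet.num D.sys m).opair (F m)).eq
          ((HSet.num D.sys m').opair (F m')) := rfl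
    rw [h3]
    refine le_iSup_of_le m ?_
    rw [HSet.eq_refl, top_inf_eq]
  refine ⟨w, f, g.G.isOmega hw, ⟨?_, ?_⟩, ?_⟩
  · intro p hp
    obtain ⟨m, -, hm⟩ : ∃ m : ℕ, (⊤ : D.B) ∈ g.G.U ∧
      g.G.IsVal p ((HSet.num D.sys m).opair (F m)) := (g.G.E_fam hN hf p).1 hp
    obtain ⟨u, v, hu, hv, huv⟩ := g.G.exists_of_opair hm
    exact ⟨u, v, (g.G.E_om hw u).2 ⟨m, g.G.isNum hu⟩, (g.G.E_iff hv hX).2 (hFX m), huv⟩
  · intro a ha
    obtain ⟨m, hm⟩ := (g.G.E_om hw a).1 ha
    rw [g.G.isNum_iff] at hm
    obtain ⟨v, hv⟩ := hex m a hm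
    refine ⟨v, hv, fun v' hv' => ?_⟩
    refine (g.G.eq_iff (hvF m a hm v' hv') (hvF m a hm v hv)).2 ?_
    rw [HSet.eq_refl]
    exact g.G.top
  · intro a b ha hab x y hx hy
    obtain ⟨m, hm⟩ := (g.G.E_om hw a).1 ha
    have hb : IsNum g.E (m + 1) b := ⟨a, hm, hab⟩
    rw [g.G.isNum_iff] at hm hb
    exact (g.G.rel_iff hR (hvF m a hm x hx) (hvF (m + 1) b hb y hy)).2 (hFR m)

end Pool.Agent.Lib.BPLM
end
end
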