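import Mathlib
import Pool.Agent.Lib.MP_c00cb7_lc.KTriv
import Pool.Agent.Lib.MP_c00cb7_lc.QEmb
import Pool.Agent.Lib.MP_c00cb7_lc.Capture
import Pool.Agent.Lib.MP_c00cb7_lc.Mix
import Pool.Agent.Lib.MP_c00cb7_lc.Tasks

section

/-!
# Good hulls from a Ramsey cardinal
-/

set_option autoImplicit false

open Set

namespace Pool.Agent.Lib.KZF

open Pool.Agent.Lib.SymZF Pool.Agent.Lib.SymZF.SymSys Name Pool.Agent.Lib.BPLM

namespace KSys

variable {S : KSys}

/-- the ordinal `i` is countable (`i < ω₁`) -/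
def Ctb (i : S.Kt) : Prop := Countable {j : S.Kt // j < i}

/-- the Boolean value of 'σ is single-valued on the ordinals' -/
noncomputable def sv (σ : S.HSet) : S.B :=
  ⨅ m : ℕ, ⨅ i : S.Kt, ⨅ j : {j : S.Kt // j ≠ i},
    (((HSet.num S m).opair (HSet.chk i)).mem σ ⊓ ((HSet.num S m).opair (HSet.chk j.1)).mem σ)ᶜ

/-- a good hull -/
structure GoodHull (S : KSys) (H : Set S.HSet) : Prop extends Hull S H where
  /-- every function from `ω` to `ω₁` in the hull is bounded by a countable ordinal in the hull -/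
  bd : ∀ σ ∈ H, ∃ i : S.Kt, Ctb i ∧ HSet.chk i ∈ H ∧ ∀ n, ∀ j : S.Kt, Ctb j → i ≤ j →
    ((HSet.num S n).opair (HSet.chk j)).mem σ ⊓ sv σ = ⊥
  /-- two values of a multi-valued `σ` in the hull can be found in the hull -/
  svH : ∀ σ ∈ H, sv σ = ⨅ m : ℕ, ⨅ i : {i : S.Kt // HSet.chk i ∈ H},
    ⨅ j : {j : S.Kt // j ≠ i.1 ∧ HSet.chk j ∈ H},
    (((HSet.num S m).opair (HSet.chk i.1)).mem σ ⊓
      ((HSet.num S m).opair (HSet.chk j.1)).mem σ)ᶜ
  ctb : {i : S.Kt | Ctb i ∧ HSet.chk i ∈ H}.Countable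
  card : Cardinal.mk {i : S.Kt | HSet.chk i ∈ H} = S.κ

/-- the countable ordinals are unbounded in `ω₁`: a countable set of countable ordinals has a
countable upper bound, and `ω₁ < κ` -/
lemma exists_ctb_bound (C : Set S.Kt) (hC : C.Countable) (h : ∀ i ∈ C, Ctb i) :
    ∃ i : S.Kt, Ctb i ∧ ∀ j ∈ C, j < i := by
  have hD : (⋃ j ∈ C, {k : S.Kt | k ≤ j}).Countable := by
    refine hC.biUnion fun j hj => ?_
    have h1 : {k : S.Kt | k < j}.Countable := Set.countable_coe_iff.1 (h j hj)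
    refine (h1.union (Set.countable_singleton j)).mono fun k hk => ?_
    rcases (show k ≤ j from hk).lt_or_eq with h2 | h2
    · exact Or.inl h2
    · exact Or.inr h2
  set D : Set S.Kt := ⋃ j ∈ C, {k : S.Kt | k ≤ j} with hDdef
  have hne : (Dᶜ).Nonempty := by
    by_contra hcon
    rw [Set.not_nonempty_iff_eq_empty, Set.compl_empty_iff] at hcon
    rw [hcon] at hD
    have h1 : Cardinal.mk (Set.univ : Set S.Kt) ≤ Cardinal.aleph0 := Cardinal.le_aleph0_iff_set_countable.2 hD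
    rw [Cardinal.mk_univ, Cardinal.mk_toType, Cardinal.card_ord] at h1
    exact absurd S.aleph0_lt (not_lt.2 h1)
  obtain ⟨i, hi, hmin⟩ := WellFounded.has_min (r := fun a b : S.Kt => a < b) wellFounded_lt _ hne
  refine ⟨i, ?_, fun j hj => ?_⟩
  · refine Set.countable_coe_iff.2 (hD.mono fun k hk => ?_)
    by_contra hk'
    exact hmin k hk' hk
  · by_contra hji
    exact hi (Set.mem_biUnion hj (show i ≤ j from not_lt.1 hji))

/-- infima over a type in universe `1` -/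
private lemma ccc_inf1 (hB : CCC S.B) {I : Type 1} (b : I → S.B) :
    ∃ A : Set I, A.Countable ∧ ⨅ i, b i = ⨅ i ∈ A, b i := by
  obtain ⟨A, hA, h⟩ := hB I fun i => (b i)ᶜ
  refine ⟨A, hA, ?_⟩
  rw [← compl_inj_iff, compl_iInf, h]
  simp only [compl_iInf]

/-- infima over a type in universe `0` -/
private lemma ccc_inf0 (hB : CCC S.B) {I : Type} (b : I → S.B) :
    ∃ A : Set I, A.Countable ∧ ⨅ i, b i = ⨅ i ∈ A, b i := by
  obtain ⟨A, hA, h⟩ := ccc_inf1 hB (I := ULift.{1} I) fun i => b i.down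
  refine ⟨ULift.down '' A, hA.image _, ?_⟩
  rw [iInf_image, ← h]
  exact (Equiv.ulift.iInf_comp (g := b)).symm

/-- suprema over a type in universe `0` -/
private lemma ccc_sup0 (hB : CCC S.B) {I : Type} (b : I → S.B) :
    ∃ A : Set I, A.Countable ∧ ⨆ i, b i = ⨆ i ∈ A, b i := by
  obtain ⟨A, hA, h⟩ := ccc_inf0 hB fun i => (b i)ᶜ
  refine ⟨A, hA, ?_⟩
  rw [← compl_inj_iff, compl_iSup, h]
  simp only [compl_iSup]

private lemma exists_tvE (hB : CCC S.B) (φ : Fml) (v : ℕ → S.HSet) :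
    ∃ E : Set S.HSet, E.Countable ∧ ∀ H : Set S.HSet, E ⊆ H →
      (⨅ x : S.HSet, bval φ (scons x v)) = ⨅ x : H, bval φ (scons x.1 v) := by
  obtain ⟨A, hA, h⟩ := ccc_inf1 hB fun x : S.HSet => bval φ (scons x v)
  refine ⟨A, hA, fun H hH => le_antisymm (le_iInf fun x => iInf_le _ x.1) ?_⟩
  rw [h]
  exact le_iInf₂ fun x hx => iInf_le (fun x : H => bval φ (scons x.1 v)) ⟨x, hH hx⟩

private lemma exists_memE (hB : CCC S.B) (x y : S.HSet) :
    ∃ E : Set S.HSet, E.Countable ∧ ∀ H : Set S.HSet, E ⊆ H →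
      x.mem y = ⨆ k : {k : y.idx // y.el k ∈ H}, y.vl k.1 ⊓ x.eq (y.el k.1) := by
  obtain ⟨A, hA, h⟩ := ccc_sup0 hB fun k : y.idx => y.vl k ⊓ x.eq (y.el k)
  refine ⟨y.el '' A, hA.image _, fun H hH => ?_⟩
  rw [HSet.mem_eq, h]
  apply le_antisymm
  · exact iSup₂_le fun k hk => le_iSup (fun k : {k : y.idx // y.el k ∈ H} =>
      y.vl k.1 ⊓ x.eq (y.el k.1)) ⟨k, hH (Set.mem_image_of_mem _ hk)⟩
  · rw [← h]
    exact iSup_le fun k => le_iSup (fun k : y.idx => y.vl k ⊓ x.eq (y.el k)) k.1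

private lemma exists_subE (hB : CCC S.B) (x y : S.HSet) :
    ∃ E : Set S.HSet, E.Countable ∧ ∀ H : Set S.HSet, E ⊆ H →
      (⨅ k : x.idx, x.vl k ⇨ (x.el k).mem y) =
        ⨅ k : {k : x.idx // x.el k ∈ H}, x.vl k.1 ⇨ (x.el k.1).mem y := by
  obtain ⟨A, hA, h⟩ := ccc_inf0 hB fun k : x.idx => x.vl k ⇨ (x.el k).mem y
  refine ⟨x.el '' A, hA.image _, fun H hH => le_antisymm ?_ ?_⟩
  · exact le_iInf fun k => iInf_le (fun k : x.idx => x.vl k ⇨ (x.el k).mem y) k.1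
  · rw [h]
    exact le_iInf₂ fun k hk => iInf_le (fun k : {k : x.idx // x.el k ∈ H} =>
      x.vl k.1 ⇨ (x.el k.1).mem y) ⟨k, hH (Set.mem_image_of_mem _ hk)⟩

private lemma exists_svE (hB : CCC S.B) (σ : S.HSet) :
    ∃ E : Set S.HSet, E.Countable ∧ ∀ H : Set S.HSet, E ⊆ H →
      sv σ = ⨅ m : ℕ, ⨅ i : {i : S.Kt // HSet.chk i ∈ H},
        ⨅ j : {j : S.Kt // j ≠ i.1 ∧ HSet.chk j ∈ H},
        (((HSet.num S m).opair (HSet.chk i.1)).mem σ ⊓
          ((HSet.num S m).opair (HSet.chk j.1)).mem σ)ᶜ := by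
  obtain ⟨A, hA, h⟩ := ccc_inf0 hB fun t : {t : ℕ × S.Kt × S.Kt // t.2.2 ≠ t.2.1} =>
    (((HSet.num S t.1.1).opair (HSet.chk t.1.2.1)).mem σ ⊓
      ((HSet.num S t.1.1).opair (HSet.chk t.1.2.2)).mem σ)ᶜ
  have h0 : sv σ = ⨅ t : {t : ℕ × S.Kt × S.Kt // t.2.2 ≠ t.2.1},
      (((HSet.num S t.1.1).opair (HSet.chk t.1.2.1)).mem σ ⊓
      ((HSet.num S t.1.1).opair (HSet.chk t.1.2.2)).mem σ)ᶜ := by
    apply le_antisymm
    · refine le_iInf fun t => ?_
      exact (iInf_le _ t.1.1).trans ((iInf_le _ t.1.2.1).trans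
        (iInf_le (fun j : {j : S.Kt // j ≠ t.1.2.1} =>
          (((HSet.num S t.1.1).opair (HSet.chk t.1.2.1)).mem σ ⊓
            ((HSet.num S t.1.1).opair (HSet.chk j.1)).mem σ)ᶜ) ⟨t.1.2.2, t.2⟩))
    · refine le_iInf fun m => le_iInf fun i => le_iInf fun j => ?_
      exact iInf_le (fun t : {t : ℕ × S.Kt × S.Kt // t.2.2 ≠ t.2.1} =>
        (((HSet.num S t.1.1).opair (HSet.chk t.1.2.1)).mem σ ⊓
          ((HSet.num S t.1.1).opair (HSet.chk t.1.2.2)).mem σ)ᶜ) ⟨(m, i, j.1), j.2⟩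
  refine ⟨(fun t => HSet.chk t.1.2.1) '' A ∪ (fun t => HSet.chk t.1.2.2) '' A,
    (hA.image _).union (hA.image _), fun H hH => le_antisymm ?_ ?_⟩
  · refine le_iInf fun m => le_iInf fun i => le_iInf fun j => ?_
    exact (iInf_le _ m).trans ((iInf_le _ i.1).trans
        (iInf_le (fun j : {j : S.Kt // j ≠ i.1} =>
          (((HSet.num S m).opair (HSet.chk i.1)).mem σ ⊓
            ((HSet.num S m).opair (HSet.chk j.1)).mem σ)ᶜ) ⟨j.1, j.2.1⟩))
  · rw [h0, h]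
    refine le_iInf₂ fun t ht => ?_
    have h1 : (HSet.chk t.1.2.1 : S.HSet) ∈ H := hH (Or.inl (Set.mem_image_of_mem _ ht))
    have h2 : (HSet.chk t.1.2.2 : S.HSet) ∈ H := hH (Or.inr (Set.mem_image_of_mem _ ht))
    refine (iInf_le _ t.1.1).trans ((iInf_le _ (⟨t.1.2.1, h1⟩ : {i : S.Kt // HSet.chk i ∈ H})).trans ?_)
    exact iInf_le (fun j : {j : S.Kt // j ≠ t.1.2.1 ∧ HSet.chk j ∈ H} =>
        (((HSet.num S t.1.1).opair (HSet.chk t.1.2.1)).mem σ ⊓
          ((HSet.num S t.1.1).opair (HSet.chk j.1)).mem σ)ᶜ) ⟨t.1.2.2, t.2, h2⟩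

private lemma exists_bdI (hB : CCC S.B) (σ : S.HSet) : ∃ i : S.Kt, Ctb i ∧
    ∀ n, ∀ j : S.Kt, Ctb j → i ≤ j →
      ((HSet.num S n).opair (HSet.chk j)).mem σ ⊓ sv σ = ⊥ := by
  obtain ⟨C, hC, h⟩ := exists_bound hB σ
  obtain ⟨i, hi, hi'⟩ := exists_ctb_bound (C ∩ {j | Ctb j}) (hC.mono Set.inter_subset_left)
    fun j hj => hj.2
  refine ⟨i, hi, fun n j hj hij => h n j fun hjC => ?_⟩
  exact absurd (hi' j ⟨hjC, hj⟩) (not_lt.2 hij)

/-- the operations -/
private inductive Op : Type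
  | cst : Op
  | num (n : ℕ) : Op
  | pair : Op
  | tv (φ : Fml) (n : ℕ) : Op
  | mem (n : ℕ) : Op
  | sub (n : ℕ) : Op
  | bd : Op
  | sv (n : ℕ) : Op
deriving Countable

/-- Good hulls exist. Apply `exists_hull` with `X = S.HSet`, `ord = HSet.chk`
(`HSet.chk_injective`) and the following countably many operations `Γ` on lists (the constants are
operations which ignore the list; assignments are given by lists, `fun i => l.getD i (num 0)`, and
`bval` depends only on finitely many variables, `bval_bd`):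
* the constants `x₀`, `num n`; the operation `pair`;
* for every formula `φ` and `n`: the `n`-th element of a countable set of names on which the infimum
  `⨅ x, bval φ (scons x v)` is attained (`CCC`, for infima by complements);
* for `(x, y)` and `n`: the name `y.el k_n`, where the supremum `x.mem y = ⨆ k, y.vl k ⊓ x.eq (y.el k)`
  (`HSet.mem_eq`) is attained on the `k_n`; and the name `x.el k_n`, where the infimum
  `⨅ k, x.vl k ⇨ (x.el k).mem y` is attained on the `k_n` (if `idx` is empty: anything);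
* for `σ`: `chk i`, where `i` is a countable ordinal above all the countable ordinals in the countable
  set of `exists_bound` (`exists_ctb_bound`);
* for `σ` and `n`: `chk i_n` and `chk j_n`, where the infimum `sv σ` is attained on countably many
  triples `(m, i, j)`. -/
theorem exists_goodHull (hS : ∀ x : Name S.B, S.HS x) (hB : CCC S.B) (hne : (⊥ : S.B) ≠ ⊤)
    (hR : RamseyCard S.κ) (x₀ : S.HSet) : ∃ H : Set S.HSet, GoodHull S H ∧ x₀ ∈ H := by
  classical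
  have : Nonempty S.HSet := ⟨x₀⟩
  choose tE htc ht using exists_tvE (S := S) hB
  choose mE hmc hm using exists_memE (S := S) hB
  choose sE hsc hs using exists_subE (S := S) hB
  choose vE hvc hv using exists_svE (S := S) hB
  choose bI hbc hb using exists_bdI (S := S) hB
  have henum : ∀ E : Set S.HSet, E.Countable → ∃ f : ℕ → S.HSet, E ⊆ Set.range f := fun E hE =>
    Set.countable_iff_exists_subset_range.1 hE
  choose tf htf using fun φ v => henum _ (htc φ v)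
  choose mf hmf using fun x y => henum _ (hmc x y)
  choose sf hsf using fun x y => henum _ (hsc x y)
  choose vf hvf using fun σ => henum _ (hvc σ)
  let Γo : Op → List S.HSet → S.HSet := fun o l => match o with
    | .cst => x₀
    | .num n => HSet.num S n
    | .pair => (l.getD 0 x₀).pair (l.getD 1 x₀)
    | .tv φ n => tf φ (fun i => l.getD i x₀) n
    | .mem n => mf (l.getD 0 x₀) (l.getD 1 x₀) n
    | .sub n => sf (l.getD 0 x₀) (l.getD 1 x₀) n
    | .bd => HSet.chk (bI (l.getD 0 x₀))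
    | .sv n => vf (l.getD 0 x₀) n
  have : Nonempty Op := ⟨.cst⟩
  obtain ⟨dec, hdec⟩ := exists_surjective_nat Op
  obtain ⟨H, hcl, hct, hcard⟩ := exists_hull S.κ S.inacc hR (HSet.chk : S.Kt → S.HSet)
    (HSet.chk_injective hne) (fun k l => Γo (dec k) l)
  have hop : ∀ (o : Op) (l : List S.HSet), (∀ x ∈ l, x ∈ H) → Γo o l ∈ H := by
    intro o l hl
    obtain ⟨k, rfl⟩ := hdec o
    exact hcl k l hl
  have h1 : ∀ x ∈ H, ∀ y ∈ ([x] : List S.HSet), y ∈ H := by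
    intro x hx y hy
    rw [List.mem_singleton] at hy
    rw [hy]; exact hx
  have h2 : ∀ x ∈ H, ∀ y ∈ H, ∀ z ∈ ([x, y] : List S.HSet), z ∈ H := by
    intro x hx y hy z hz
    rcases List.mem_cons.1 hz with rfl | hz
    · exact hx
    · exact h1 y hy z hz
  refine ⟨H, { num := ?_, pair := ?_, tv := ?_, mem := ?_, sub := ?_, bd := ?_, svH := ?_, ctb := ?_, card := ?_ }, ?_⟩
  · exact fun n => hop (.num n) [] (fun x hx => absurd hx List.not_mem_nil)
  · exact fun x hx y hy => hop .pair [x, y] (h2 x hx y hy)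
  · intro φ v hvH
    have e1 : ∀ x : S.HSet, bval φ (scons x v) =
        bval φ (scons x (fun i => ((List.range φ.bd).map v).getD i x₀)) := by
      intro x
      refine bval_bd _ _ _ fun i hi => ?_
      cases i with
      | zero => rfl
      | succ n =>
        show v n = ((List.range φ.bd).map v).getD n x₀
        rw [List.getD_eq_getElem?_getD, List.getElem?_map, List.getElem?_range (by omega)]
        rfl
    simp only [e1]
    apply ht
    refine (htf _ _).trans ?_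
    rintro _ ⟨n, rfl⟩
    refine hop (.tv φ n) ((List.range φ.bd).map v) fun x hx => ?_
    obtain ⟨i, -, rfl⟩ := List.mem_map.1 hx
    exact hvH i
  · intro x hx y hy
    apply hm
    refine (hmf _ _).trans ?_
    rintro _ ⟨n, rfl⟩
    exact hop (.mem n) [x, y] (h2 x hx y hy)
  · intro x hx y hy
    apply hs
    refine (hsf _ _).trans ?_
    rintro _ ⟨n, rfl⟩
    exact hop (.sub n) [x, y] (h2 x hx y hy)
  · intro σ hσ
    exact ⟨bI σ, hbc σ, hop .bd [σ] (h1 σ hσ), hb σ⟩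
  · intro σ hσ
    apply hv
    refine (hvf _).trans ?_
    rintro _ ⟨n, rfl⟩
    exact hop (.sv n) [σ] (h1 σ hσ)
  · exact hct
  · exact hcard
  · exact hop .cst [] (fun x hx => absurd hx List.not_mem_nil)

end KSys

end Pool.Agent.Lib.KZF
end

section

/-!
# Names over a small sweet preorder as symmetric names
-/

set_option autoImplicit false

open Set

namespace Pool.Agent.Lib.BPLM

open Pool.Agent.Lib.SymZF Pool.Agent.Lib.SymZF.SymSys Pool.Agent.Lib.KZF Pool.Agent.Lib.KZF.KSys Name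

namespace Setup

variable {D : Setup}

/-- the image of a name over `Q` -/
noncomputable def JN (Q : Sw D.U) : Name (qs Q).B → Name D.B
  | .mk ι f b => .mk ι (fun i => JN Q (f i)) (fun i => jm Q (b i))

lemma act_JN {Q : Sw D.U} (g : Equiv.Perm D.U) (hg : ∀ x ∈ Q.X, g x = x) (x : Name (qs Q).B) :
    D.sys.act g (JN Q x) = JN Q x := by
  induction x with
  | mk ι f b ih =>
    simp only [JN, act_mk]
    congr 1
    · funext i; exact ih i
    · funext i; exact α_jm g hg (b i)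

/-- the support is `Q.X` -/
lemma HS_JN {Q : Sw D.U} (hQ : Q.Small) (x : Name (qs Q).B) : D.sys.HS (JN Q x) := by
  induction x with
  | mk ι f b ih =>
    refine ⟨?_, fun i => ih i⟩
    refine (mem_F _).2 ⟨Q.X, hQ, fun g hg => ?_⟩
    have h1 := act_JN g hg (.mk ι f b)
    simp only [JN] at h1
    change beq (D.sys.act g (.mk ι (fun i => JN Q (f i)) (fun i => jm Q (b i)))) _ = ⊤
    rw [h1, beq_refl]

lemma Sm_JN {Q : Sw D.U} (x : Name (qs Q).B) (h : Sm (qs Q).κ x) : Sm D.sys.κ (JN Q x) := by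
  induction x with
  | mk ι f b ih => exact ⟨h.1, fun i => ih i (h.2 i)⟩

/-- the image of a name over `Q` as a symmetric name -/
noncomputable def JH {Q : Sw D.U} (hQ : Q.Small) (x : (qs Q).HSet) : D.sys.HSet :=
  ⟨JN Q x.1, HS_JN hQ x.1, Sm_JN x.1 x.3⟩

variable {Q : Sw D.U} (hQ : Q.Small)

private lemma aux_himp {B : Type} [CompleteBooleanAlgebra B] {J : Type} (t p : B) (q r : J → B) :
    t ⊓ (p ⇨ ⨆ j, q j ⊓ (t ⊓ r j)) = t ⊓ (p ⇨ ⨆ j, q j ⊓ r j) := by
  apply le_antisymm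
  · refine inf_le_inf_left _ (himp_le_himp_left (iSup_mono fun j => ?_))
    exact inf_le_inf_left _ inf_le_right
  · refine le_inf inf_le_left ?_
    rw [le_himp_iff]
    calc t ⊓ (p ⇨ ⨆ j, q j ⊓ r j) ⊓ p ≤ t ⊓ ⨆ j, q j ⊓ r j := by
          rw [inf_assoc]
          exact inf_le_inf_left _ himp_inf_le
      _ ≤ _ := by
          rw [inf_iSup_eq]
          refine iSup_mono fun j => ?_
          exact le_inf (inf_le_right.trans inf_le_left)
            (le_inf inf_le_left (inf_le_right.trans inf_le_right))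

private lemma aux_iInf {B : Type} [CompleteBooleanAlgebra B] {I : Type} (t : B) (u : I → B) :
    (t ⊓ ⨅ i, t ⊓ u i) = t ⊓ ⨅ i, u i := by
  apply le_antisymm
  · refine inf_le_inf_left _ (le_iInf fun i => (iInf_le _ i).trans inf_le_right)
  · refine le_inf inf_le_left (le_iInf fun i => le_inf inf_le_left ?_)
    exact inf_le_right.trans (iInf_le _ i)

include hQ in
private lemma jm_side {I J : Type} (b : I → (qs Q).B) (c : J → (qs Q).B)
    (r : I → J → (qs Q).B) (R : I → J → D.B)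
    (h : ∀ i j, eS Q Q.top ⊓ R i j = jm Q (r i j)) :
    jm Q (⨅ i, b i ⇨ ⨆ j, c j ⊓ r i j) =
      eS Q Q.top ⊓ ⨅ i, jm Q (b i) ⇨ ⨆ j, jm Q (c j) ⊓ R i j := by
  rw [jm_iInf hQ]
  have h1 : ∀ i, jm Q (b i ⇨ ⨆ j, c j ⊓ r i j) =
      eS Q Q.top ⊓ (jm Q (b i) ⇨ ⨆ j, jm Q (c j) ⊓ R i j) := fun i => by
    rw [jm_himp hQ, jm_iSup hQ]
    have h2 : ∀ j, jm Q (c j ⊓ r i j) = jm Q (c j) ⊓ (eS Q Q.top ⊓ R i j) := fun j => by
      rw [jm_inf hQ, h]
    rw [iSup_congr h2, aux_himp]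
  rw [iInf_congr h1, aux_iInf]

include hQ in
private lemma jm_beq (x y : Name (qs Q).B) :
    eS Q Q.top ⊓ beq (JN Q x) (JN Q y) = jm Q (beq x y) := by
  induction x generalizing y with
  | mk ι f b ih =>
    cases y with
    | mk κ g c =>
      simp only [JN]
      rw [beq_mk, beq_mk, jm_inf hQ,
        jm_side hQ b c (fun i j => beq (f i) (g j)) (fun i j => beq (JN Q (f i)) (JN Q (g j)))
          (fun i j => ih i (g j)),
        jm_side hQ c b (fun j i => beq (f i) (g j)) (fun j i => beq (JN Q (f i)) (JN Q (g j)))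
          (fun j i => ih i (g j)), inf_inf_distrib_left]

/-- Induction on the names with `beq_mk` and the preservation properties of `jm`. -/
theorem JH_eq (x y : (qs Q).HSet) : eS Q Q.top ⊓ (JH hQ x).eq (JH hQ y) = jm Q (x.eq y) := by
  exact jm_beq hQ x.1 y.1

theorem JH_mem (x y : (qs Q).HSet) : eS Q Q.top ⊓ (JH hQ x).mem (JH hQ y) = jm Q (x.mem y) := by
  obtain ⟨y, hy, hy'⟩ := y
  cases y with
  | mk κ g c =>
    change eS Q Q.top ⊓ (⨆ j, jm Q (c j) ⊓ beq (JN Q x.1) (JN Q (g j))) =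
      jm Q (⨆ j, c j ⊓ beq x.1 (g j))
    rw [jm_iSup hQ, inf_iSup_eq]
    refine iSup_congr fun j => ?_
    rw [jm_inf hQ, ← jm_beq hQ, inf_left_comm]

/-- the index type and the elements of an image (definitional) -/
theorem mem_JH (w : D.sys.HSet) (x : (qs Q).HSet) :
    w.mem (JH hQ x) = ⨆ k : x.idx, jm Q (x.vl k) ⊓ w.eq (JH hQ (x.el k)) := by
  obtain ⟨x, hx, hx'⟩ := x
  cases x with
  | mk ι f b => rfl

private lemma eq_of_mem {x y : D.sys.HSet} {t : D.B}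
    (h : ∀ w : D.sys.HSet, t ⊓ w.mem x = t ⊓ w.mem y) : t ≤ x.eq y :=
  KSys.HSet.le_eq (fun z => (h z).le.trans inf_le_right) (fun z => (h z).ge.trans inf_le_right)

private lemma mem_of_eq {x y : D.sys.HSet} {t : D.B} (h : t ≤ x.eq y) (w : D.sys.HSet) :
    t ⊓ w.mem x = t ⊓ w.mem y := by
  apply le_antisymm
  · refine le_inf inf_le_left ?_
    exact (inf_le_inf_right _ h).trans (KSys.HSet.mem_congr_right _ _ _)
  · refine le_inf inf_le_left ?_
    rw [KSys.HSet.eq_symm] at h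
    exact (inf_le_inf_right _ h).trans (KSys.HSet.mem_congr_right _ _ _)

private lemma eq_of_eq {x y : D.sys.HSet} {t : D.B} (h : t ≤ x.eq y) (w : D.sys.HSet) :
    t ⊓ w.eq x = t ⊓ w.eq y := by
  apply le_antisymm
  · refine le_inf inf_le_left ?_
    rw [inf_comm]
    exact (inf_le_inf_left _ h).trans (KSys.HSet.eq_trans _ _ _)
  · refine le_inf inf_le_left ?_
    rw [KSys.HSet.eq_symm] at h
    rw [inf_comm]
    exact (inf_le_inf_left _ h).trans (KSys.HSet.eq_trans _ _ _)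

theorem JH_num (n : ℕ) : eS Q Q.top ≤ (JH hQ (HSet.num (qs Q) n)).eq (HSet.num D.sys n) := by
  induction n with
  | zero =>
    refine eq_of_mem fun w => ?_
    rw [KSys.HSet.mem_num_zero]
    have : w.mem (JH hQ (HSet.num (qs Q) 0)) = ⊥ := by
      change bmem w.1 (JN Q (Name.num _ 0)) = ⊥
      simp only [Name.num, JN]
      rw [bmem_mk, iSup_of_empty]
    rw [this]
  | succ n ih =>
    refine eq_of_mem fun w => ?_
    have h1 : w.mem (JH hQ (HSet.num (qs Q) (n + 1))) =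
        w.mem (JH hQ (HSet.num (qs Q) n)) ⊔
          (eS Q Q.top ⊓ w.eq (JH hQ (HSet.num (qs Q) n))) := by
      have h2 : ∀ z : (qs Q).HSet, bmem w.1 (JN Q z.1.succ) =
          w.mem (JH hQ z) ⊔ (eS Q Q.top ⊓ w.eq (JH hQ z)) := by
        intro z
        obtain ⟨z, hz, hz'⟩ := z
        cases z with
        | mk ι f b =>
          simp only [Name.succ, JN]
          rw [bmem_mk, iSup_option, sup_comm]
          simp only [Option.elim_none, Option.elim_some, jm_top hQ]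
          rfl
      exact h2 (HSet.num (qs Q) n)
    rw [h1, KSys.HSet.mem_num_succ, inf_sup_left, inf_sup_left, ← inf_assoc, inf_idem,
      mem_of_eq ih, eq_of_eq ih]

theorem JH_pair (x y : (qs Q).HSet) :
    eS Q Q.top ≤ (JH hQ (x.pair y)).eq ((JH hQ x).pair (JH hQ y)) := by
  refine eq_of_mem fun w => ?_
  have h1 : w.mem (JH hQ (x.pair y)) =
      ⨆ i : Bool, eS Q Q.top ⊓ w.eq (JH hQ (cond i x y)) := by
    rw [← jm_top hQ]
    rfl
  rw [h1, ← inf_iSup_eq, ← inf_assoc, inf_idem, iSup_bool_eq, KSys.HSet.mem_pair]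
  rfl

theorem JH_chk (i : D.sys.Kt) :
    eS Q Q.top ≤ (JH hQ (HSet.chk (S := qs Q) i)).eq (HSet.chk (S := D.sys) i) := by
  induction i using WellFoundedLT.induction with
  | ind i ih =>
    refine eq_of_mem fun w => ?_
    have h1 : w.mem (JH hQ (HSet.chk (S := qs Q) i)) =
        ⨆ j : {j : (qs Q).Kt // j < i}, eS Q Q.top ⊓ w.eq (JH hQ (HSet.chk (S := qs Q) j.1)) := by
      have h2 : JN Q (chkN (qs Q) i) = Name.mk {j : (qs Q).Kt // j < i}
          (fun j => JN Q (chkN (qs Q) j.1)) (fun _ => jm Q ⊤) := by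
        rw [chkN_eq]
        rfl
      change bmem w.1 (JN Q (chkN (qs Q) i)) = _
      rw [h2, bmem_mk, jm_top hQ]
      rfl
    have h3 : ∀ j : {j : (qs Q).Kt // j < i},
        eS Q Q.top ⊓ w.eq (JH hQ (HSet.chk (S := qs Q) j.1)) =
        eS Q Q.top ⊓ w.eq (HSet.chk (S := D.sys) j.1) := fun j => eq_of_eq (ih j.1 j.2) w
    rw [h1, iSup_congr h3, ← inf_iSup_eq, ← inf_assoc, inf_idem, KSys.HSet.mem_chk]
    rfl

theorem JH_rnm (b : ℕ → (qs Q).B) (hb : SymB b) (hb' : SymB (S := D.sys) fun n => jm Q (b n)) :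
    eS Q Q.top ≤ (JH hQ (HSet.rnm b hb)).eq (HSet.rnm (fun n => jm Q (b n)) hb') := by
  refine eq_of_mem fun w => ?_
  have h1 : w.mem (JH hQ (HSet.rnm b hb)) =
      ⨆ n, jm Q (b n) ⊓ w.eq (JH hQ (HSet.num (qs Q) n)) := rfl
  rw [h1, KSys.HSet.mem_rnm, inf_iSup_eq, inf_iSup_eq]
  refine iSup_congr fun n => ?_
  rw [inf_left_comm, eq_of_eq (JH_num hQ n), inf_left_comm]

include hQ in
theorem symB_jm (b : ℕ → (qs Q).B) : SymB (S := D.sys) fun n => jm Q (b n) := by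
  refine (mem_F _).2 ⟨Q.X, hQ, fun g hg n => α_jm g hg (b n)⟩

omit hQ in
theorem symB_qs (b : ℕ → (qs Q).B) : SymB b := by
  exact Filter.Eventually.of_forall fun g n => rfl

include hQ in
/-- a captured value comes from the algebra of `Q` (`Cap.inf_eq`) -/
theorem exists_jm_eq {b : D.B} (h : Cap Q b) : ∃ c : (qs Q).B, jm Q c = eS Q Q.top ⊓ b := by
  refine ⟨⨆ (y : QP Q) (_ : eS Q y.1 ≤ b), emQ y, ?_⟩
  rw [h.inf_eq hQ, jm_iSup hQ]
  have h1 : ∀ y : QP Q, jm Q (⨆ (_ : eS Q y.1 ≤ b), emQ y) = ⨆ (_ : eS Q y.1 ≤ b), eS Q y.1 :=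
    fun y => by
      rw [jm_iSup hQ]
      exact iSup_congr fun _ => jm_em hQ y
  rw [iSup_congr h1]
  apply le_antisymm
  · refine iSup_le fun y => iSup_le fun hy => ?_
    exact le_iSup₂_of_le y.1 ⟨y.2, hy⟩ le_rfl
  · refine iSup₂_le fun y hy => ?_
    exact le_iSup₂_of_le (⟨y, hy.1⟩ : QP Q) hy.2 le_rfl

end Setup

end Pool.Agent.Lib.BPLM
end

section

/-!
# Values of the names of ordinals and of sequences of ordinals in generic models
-/

set_option autoImplicit false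

open Set

namespace Pool.Agent.Lib.KZF

open Pool.Agent.Lib.SymZF Pool.Agent.Lib.SymZF.SymSys Name Pool.Agent.Lib.BPLM

namespace KSys

variable {S : KSys}

private lemma el_of_eq {B : Type} {I : Type} {f : I → Name B} {b : I → B} {x : Name B}
    (hx : x = Name.mk I f b) (k : x.idx) : ∃ i : I, x.el k = f i := by
  subst hx
  exact ⟨k, rfl⟩

/-- the elements of the name `chk α` (`chkN_eq`) -/
lemma el_chk (α : S.Kt) (k : (HSet.chk α : S.HSet).idx) :
    ∃ j < α, (HSet.chk α : S.HSet).el k = HSet.chk j := by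
  obtain ⟨j, hj⟩ := el_of_eq (chkN_eq α) k
  exact ⟨j.1, j.2, HSet.ext hj⟩

namespace GM

variable {M : Type} {E : M → M → Prop} (G : GM S M E)

lemma num_inj {u : M} {n m : ℕ} (h1 : G.IsVal u (HSet.num S n)) (h2 : G.IsVal u (HSet.num S m)) :
    n = m := by
  by_contra hnm
  have h3 := (G.eq_iff h1 h2).1 rfl
  rw [HSet.num_eq_bot hnm] at h3
  exact G.bot h3

lemma chk_inj {u : M} {i j : S.Kt} (h1 : G.IsVal u (HSet.chk i)) (h2 : G.IsVal u (HSet.chk j)) :
    i = j := by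
  by_contra hij
  have h3 := (G.eq_iff h1 h2).1 rfl
  rw [HSet.chk_ne hij] at h3
  exact G.bot h3

/-- the elements of the ordinal `α` -/
lemma E_chk {α : S.Kt} (hN : HSet.chk α ∈ G.Nm) {a : M} (ha : G.IsVal a (HSet.chk α)) (y : M) :
    E y a ↔ ∃ k < α, G.IsVal y (HSet.chk k) := by
  constructor
  · intro h
    obtain ⟨k, _, hk⟩ := G.exists_el hN ha h
    obtain ⟨j, hj, he⟩ := el_chk α k
    rw [he] at hk
    exact ⟨j, hj, hk⟩
  · rintro ⟨k, hk, hy⟩
    rw [G.E_iff hy ha, HSet.chk_lt hk]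
    exact G.top

/-- if `v` is the only `y` with `(u, y) ∈ r` then every name `τ` with `(u, τ) ∈ r` is a name of
`v` (the truth lemma for the formula `∀ y, fRel → y = v`, `bval_fRel`) -/
lemma rel_unique {r u v : M} {ϱ ρ θ : S.HSet} (hr : G.IsVal r ϱ) (hu : G.IsVal u ρ)
    (hv : G.IsVal v θ) (h : ∀ y, Rel E r u y → y = v) (τ : S.HSet)
    (hτ : (ρ.opair τ).mem ϱ ∈ G.U) : τ.eq θ ∈ G.U := by
  have h1 := (G.dec (Fml.all ((fRel 1 2 0).imp (Fml.eq 0 3))) (scons r (scons u (fun _ => v)))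
    (scons ϱ (scons ρ (fun _ => θ))) (fun i _ => by
      rcases i with _ | _ | i
      · exact hr
      · exact hu
      · exact hv)).1
  simp only [sat_all, sat_imp, sat_fRel, sat_eq, bval_all, bval_imp, bval_fRel, bval_eq] at h1
  have h2 := h1.1 h
  refine G.up (G.inf (G.up h2 (iInf_le _ τ)) hτ) ?_
  exact himp_inf_le

section seq

variable [CountableInterFilter S.F] {α : S.Kt} {h : ℕ → S.Kt} (hh : ∀ k, k < α ↔ ∃ n, h n = k)
  {w f : M} (hw : G.IsVal w (HSet.om S)) (hf : G.IsVal f (HSet.seq fun n => HSet.chk (h n)))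
  (hfN : (HSet.seq fun n => HSet.chk (h n) : S.HSet) ∈ G.Nm)

include hw hf hfN

/-- the relation `f` (`rel_fam`; `HSet.seq` is a `HSet.fam`) -/
lemma rel_seq (u v : M) : Rel E f u v ↔ ∃ n, G.IsVal u (HSet.num S n) ∧
    G.IsVal v (HSet.chk (h n)) := by
  have h1 : Rel E f u v ↔ ∃ n : ℕ, (⊤ : S.B) ∈ G.U ∧
      G.IsVal u (HSet.num S n) ∧ G.IsVal v (HSet.chk (h n)) := G.rel_fam hfN hf u v
  rw [h1]
  constructor
  · rintro ⟨n, -, hn⟩
    exact ⟨n, hn⟩
  · rintro ⟨n, hn⟩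
    exact ⟨n, G.top, hn⟩

/-- all the `chk (h n)` have values (`exists_rel`, `rel_seq`, `num_inj`) -/
lemma exists_chk (n : ℕ) : ∃ y, G.IsVal y (HSet.chk (h n)) := by
  obtain ⟨u, hu⟩ := G.hnum n
  obtain ⟨v, hv⟩ : ∃ v, Rel E f u v := by
    refine G.exists_rel hf hu (τ := HSet.chk (h n)) ?_
    refine G.up G.top ?_
    have h3 : ((HSet.num S n).opair (HSet.chk (h n))).mem (HSet.seq fun n => HSet.chk (h n)) =
        ⨆ m' : ℕ, (⊤ : S.B) ⊓ ((HSet.num S n).opair (HSet.chk (h n))).eq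
          ((HSet.num S m').opair (HSet.chk (h m'))) := rfl
    rw [h3]
    refine le_iSup_of_le n ?_
    rw [HSet.eq_refl, top_inf_eq]
  obtain ⟨m, hm, hvm⟩ := (rel_seq G hw hf hfN u v).1 hv
  rw [num_inj G hu hm]
  exact ⟨v, hvm⟩

include hh

/-- `f` is a function from `ω` onto the ordinal `α` -/
theorem isOnto_seq {a : M} (ha : G.IsVal a (HSet.chk α)) (haN : HSet.chk α ∈ G.Nm) :
    IsOnto E f w a := by
  have hrel := rel_seq G hw hf hfN
  refine ⟨⟨?_, ?_⟩, ?_⟩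
  · intro p hp
    obtain ⟨m, -, hm⟩ : ∃ m : ℕ, (⊤ : S.B) ∈ G.U ∧
      G.IsVal p ((HSet.num S m).opair (HSet.chk (h m))) := (G.E_fam hfN hf p).1 hp
    obtain ⟨u, v, hu, hv, huv⟩ := G.exists_of_opair hm
    exact ⟨u, v, (G.E_om hw u).2 ⟨m, G.isNum hu⟩,
      (E_chk G haN ha v).2 ⟨h m, (hh (h m)).2 ⟨m, rfl⟩, hv⟩, huv⟩
  · intro x hx
    obtain ⟨m, hm⟩ := (G.E_om hw x).1 hx
    rw [G.isNum_iff] at hm
    obtain ⟨y, hy⟩ := exists_chk G hw hf hfN m
    refine ⟨y, (hrel x y).2 ⟨m, hm, hy⟩, fun y' hy' => ?_⟩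
    obtain ⟨m', hm', hy'⟩ := (hrel x y').1 hy'
    have := num_inj G hm hm'
    subst this
    refine (G.eq_iff hy' hy).2 ?_
    rw [HSet.eq_refl]
    exact G.top
  · intro y hy
    obtain ⟨k, hk, hyk⟩ := (E_chk G haN ha y).1 hy
    obtain ⟨n, rfl⟩ := (hh k).1 hk
    obtain ⟨u, hu⟩ := G.hnum n
    exact ⟨u, (G.E_om hw u).2 ⟨n, G.isNum hu⟩, (hrel u y).2 ⟨n, hu, hyk⟩⟩

end seq

end GM

end KSys

end Pool.Agent.Lib.KZF
end

section

/-!
# Small inner models of the generic model: the tasks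
-/

set_option autoImplicit false

open Set

namespace Pool.Agent.Lib.BPLM

open Pool.Agent.Lib.SymZF Pool.Agent.Lib.KZF Pool.Agent.Lib.KZF.KSys Setup

variable {D : Setup}

open Classical in
/-- the collapse of a name over `Q` relative to `H`, as a symmetric name -/
noncomputable def PI (Q : Sw D.U) (H : Set (qs Q).HSet) (σ : (qs Q).HSet) : D.sys.HSet :=
  if hQ : Q.Small then JH hQ (col H (qs_HS Q) σ) else HSet.num D.sys 0

lemma PI_def {Q : Sw D.U} (hQ : Q.Small) (H : Set (qs Q).HSet) (σ : (qs Q).HSet) :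
    PI Q H σ = JH hQ (col H (qs_HS Q) σ) := by
  simp [PI, hQ]

/-- the object is an element of `H` -/
def XX.isH (Q : Sw D.U) (H : Set (qs Q).HSet) (y : XX D) : Prop := ∃ σ ∈ H, y = XX.hs Q H σ

open Classical in
/-- the name over `Q` contained in an object -/
noncomputable def XX.sg (Q : Sw D.U) (H : Set (qs Q).HSet) (y : XX D) : (qs Q).HSet :=
  if h : ∃ σ, y = XX.hs Q H σ then h.choose else HSet.num (qs Q) 0

@[simp] lemma XX.sg_hs (Q : Sw D.U) (H : Set (qs Q).HSet) (σ : (qs Q).HSet) :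
    (XX.hs Q H σ).sg Q H = σ := by
  have h : ∃ σ', XX.hs Q H σ = XX.hs Q H σ' := ⟨σ, rfl⟩
  unfold XX.sg
  rw [dif_pos h]
  have h2 := h.choose_spec
  rw [XX.hs.injEq] at h2
  exact (eq_of_heq h2.2.2).symm

/-- The object `hd Q H` is good for the real `x`: `H` is a good hull of names over `Q` which contains
a name of `x`. -/
def GoodC (Q : Sw D.U) (H : Set (qs Q).HSet) (c : Cond D.U) (x : D.sys.HSet) : Prop :=
  Q.Small ∧ GoodHull (qs Q) H ∧ e c ≤ eS Q Q.top ∧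
    ∃ b : ℕ → (qs Q).B, HSet.rnm b (symB_qs b) ∈ H ∧ ∀ n, jm Q (b n) = eS Q Q.top ⊓ x.bit n

/-- Let `d ≤ c` capture the bits of `x` (`exists_cap_le`), `Q = d.S`, `b` by `exists_jm_eq`, `H` by
`exists_goodHull` (`qs_HS`, `ccc_QP`, `RB_QP_ne`). -/
theorem exists_goodC (hR : RamseyCard D.κ) (x : D.sys.HSet) (c : Cond D.U) :
    ∃ d ≤ c, ∃ Q H, GoodC Q H d x := by
  obtain ⟨d, hd, hcap⟩ := exists_cap_le x.bit c
  choose b hb using fun n => exists_jm_eq d.small (hcap n)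
  obtain ⟨H, hH, hx⟩ := exists_goodHull (S := qs d.S) (qs_HS d.S) (ccc_QP d.S) (RB_QP_ne d.S) hR
    (HSet.rnm b (symB_qs b))
  refine ⟨d, hd, d.S, H, d.small, hH, ?_, b, hx, hb⟩
  rw [← eS_cond d]
  exact eS_mono d.mem d.S.top_mem (d.S.le_top _ d.mem)

lemma Kt_nonempty (S : KSys) : Nonempty S.Kt := by
  rw [← Cardinal.mk_ne_zero_iff, Cardinal.mk_toType, Cardinal.card_ord]
  exact (Cardinal.aleph0_pos.trans S.aleph0_lt).ne'

/-- the order types of the countable ordinals in a good hull -/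
private def cty {S : KSys} (H : Set S.HSet) (hS : ∀ x : Name S.B, S.HS x) : Set S.Kt :=
  {k | ∃ i : S.Kt, Ctb i ∧ HSet.chk i ∈ H ∧ (col H hS (HSet.chk i)).eq (HSet.chk k) = ⊤}

private lemma cty_eq {S : KSys} {H : Set S.HSet} (hS : ∀ x : Name S.B, S.HS x)
    (hne : (⊥ : S.B) ≠ ⊤) (c : S.Kt → S.Kt)
    (hc : ∀ i, HSet.chk i ∈ H → (col H hS (HSet.chk i)).eq (HSet.chk (c i)) = ⊤) :
    cty H hS = c '' {i : S.Kt | Ctb i ∧ HSet.chk i ∈ H} := by
  ext k
  constructor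
  · rintro ⟨i, h1, h2, h3⟩
    refine ⟨i, ⟨h1, h2⟩, ?_⟩
    by_contra h4
    have h5 := hc i h2
    have h6 := HSet.eq_trans (HSet.chk (c i)) (col H hS (HSet.chk i)) (HSet.chk k)
    rw [HSet.eq_symm (HSet.chk (c i)), h5, h3, HSet.chk_ne h4] at h6
    apply hne
    rw [eq_comm, ← le_bot_iff]
    simpa using h6
  · rintro ⟨i, ⟨h1, h2⟩, rfl⟩
    exact ⟨i, h1, h2, hc i h2⟩

private lemma cty_facts {S : KSys} {H : Set S.HSet} (hS : ∀ x : Name S.B, S.HS x)
    (hne : (⊥ : S.B) ≠ ⊤) (hH : GoodHull S H) :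
    (cty H hS).Countable ∧ (cty H hS).Nonempty ∧ ∀ k ∈ cty H hS, ∀ l < k, l ∈ cty H hS := by
  obtain ⟨c, hc1, hc2, hc3, -⟩ := exists_col_chk hS hH.toHull
  have h1 := cty_eq hS hne c hc1
  refine ⟨?_, ?_, ?_⟩
  · rw [h1]
    exact hH.ctb.image _
  · rw [h1]
    obtain ⟨i, hi, hi', -⟩ := hH.bd _ (hH.num 0)
    exact ⟨_, i, ⟨hi, hi'⟩, rfl⟩
  · rw [h1]
    rintro _ ⟨i, ⟨hi, hi'⟩, rfl⟩ l hl
    obtain ⟨j, hj, hj', rfl⟩ := hc3 i hi' l hl
    refine ⟨j, ⟨?_, hj'⟩, rfl⟩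
    have h2 : {k : S.Kt | k < i}.Countable := Set.countable_coe_iff.1 hi
    exact Set.countable_coe_iff.2 (h2.mono fun k hk => lt_trans hk hj)

private lemma exists_ini {S : KSys} {A : Set S.Kt} (hA : A.Countable)
    (hd : ∀ k ∈ A, ∀ l < k, l ∈ A) : ∃ α : S.Kt, ∀ k, k < α ↔ k ∈ A := by
  have hne : (Aᶜ).Nonempty := by
    by_contra hcon
    rw [Set.not_nonempty_iff_eq_empty, Set.compl_empty_iff] at hcon
    rw [hcon] at hA
    have h1 : Cardinal.mk (Set.univ : Set S.Kt) ≤ Cardinal.aleph0 :=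
      Cardinal.le_aleph0_iff_set_countable.2 hA
    rw [Cardinal.mk_univ, Cardinal.mk_toType, Cardinal.card_ord] at h1
    exact absurd S.aleph0_lt (not_lt.2 h1)
  obtain ⟨i, hi, hmin⟩ := WellFounded.has_min (r := fun a b : S.Kt => a < b) wellFounded_lt _ hne
  refine ⟨i, fun k => ⟨fun hk => ?_, fun hk => ?_⟩⟩
  · by_contra hk'
    exact hmin k hk' hk
  · by_contra hk'
    rw [not_lt] at hk'
    rcases hk'.lt_or_eq with h | h
    · exact hi (hd k hk i h)
    · exact hi (h ▸ hk)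

open Classical in
/-- the order type of the countable ordinals in `H` -/
noncomputable def alph (Q : Sw D.U) (H : Set (qs Q).HSet) : D.sys.Kt :=
  if h : ∃ α : D.sys.Kt, ∀ k : D.sys.Kt, k < α ↔ ∃ i : (qs Q).Kt, Ctb i ∧ HSet.chk i ∈ H ∧
    (col H (qs_HS Q) (HSet.chk i)).eq (HSet.chk (S := qs Q) k) = ⊤ then h.choose else
    Classical.choice (Kt_nonempty D.sys)

/-- `alph` has the property in its definition: the set of the `c i` (`exists_col_chk`), `i` countable,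
`chk i ∈ H`, is a countable initial segment of `Kt` -/
theorem alph_spec {Q : Sw D.U} {H : Set (qs Q).HSet} (hH : GoodHull (qs Q) H) (k : D.sys.Kt) :
    k < alph Q H ↔ ∃ i : (qs Q).Kt, Ctb i ∧ HSet.chk i ∈ H ∧
      (col H (qs_HS Q) (HSet.chk i)).eq (HSet.chk (S := qs Q) k) = ⊤ := by
  have h : ∃ α : D.sys.Kt, ∀ k : D.sys.Kt, k < α ↔ ∃ i : (qs Q).Kt, Ctb i ∧ HSet.chk i ∈ H ∧
      (col H (qs_HS Q) (HSet.chk i)).eq (HSet.chk (S := qs Q) k) = ⊤ := by
    obtain ⟨h1, -, h3⟩ := cty_facts (qs_HS Q) (RB_QP_ne Q) hH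
    exact exists_ini (S := qs Q) h1 h3
  unfold alph
  rw [dif_pos h]
  exact h.choose_spec k

/-- `alph` is countable and not empty -/
theorem exists_srj {Q : Sw D.U} {H : Set (qs Q).HSet} (hH : GoodHull (qs Q) H) :
    ∃ h : ℕ → D.sys.Kt, ∀ k, k < alph Q H ↔ ∃ n, h n = k := by
  obtain ⟨h1, h2, -⟩ := cty_facts (qs_HS Q) (RB_QP_ne Q) hH
  obtain ⟨f, hf⟩ := h1.exists_eq_range h2
  refine ⟨f, fun k => (alph_spec hH k).trans ?_⟩
  change k ∈ cty H (qs_HS Q) ↔ k ∈ Set.range f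
  rw [hf]

open Classical in
/-- a surjection of `ℕ` onto `alph` -/
noncomputable def srj (Q : Sw D.U) (H : Set (qs Q).HSet) : ℕ → D.sys.Kt :=
  if h : ∃ h : ℕ → D.sys.Kt, ∀ k, k < alph Q H ↔ ∃ n, h n = k then h.choose else fun _ => alph Q H

theorem srj_spec {Q : Sw D.U} {H : Set (qs Q).HSet} (hH : GoodHull (qs Q) H) (k : D.sys.Kt) :
    k < alph Q H ↔ ∃ n, srj Q H n = k := by
  have h := exists_srj hH
  rw [srj, dif_pos h]
  exact h.choose_spec k

/-- existence of an object -/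
noncomputable def Task.exi (W : List (XX D) → XX D → D.B) : Task D :=
  Task.obj (fun l => ⨆ y, W l y) W fun _ => le_rfl

/-- the value of: the object `y` is an element of `H` whose collapse is `x` -/
noncomputable def findW : XX D → D.sys.HSet → XX D → D.B
  | .hd Q H, x, y => ⨆ _ : y.isH Q H, x.eq (PI Q H (y.sg Q H))
  | _, _, _ => ⊥

/-- the assignment of names over `Q` -/
noncomputable def XX.sgs (Q : Sw D.U) (H : Set (qs Q).HSet) (l : List (XX D)) :
    ℕ → (qs Q).HSet := fun i => (XX.at l (i + 1)).sg Q H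

/-- the value of a formula in the model of the names over `Q` -/
noncomputable def decW (φ : Fml) (l : List (XX D)) : D.B :=
  match XX.at l 0 with
  | .hd Q H => jm Q (bval φ (XX.sgs Q H l))
  | _ => ⊥

/-- the value of a formula with a witness -/
noncomputable def exW (φ : Fml) (l : List (XX D)) (y : XX D) : D.B :=
  match XX.at l 0 with
  | .hd Q H => ⨆ _ : y.isH Q H, jm Q (bval φ (scons (y.sg Q H) (XX.sgs Q H l)))
  | _ => ⊥

/-- two values of a relation -/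
noncomputable def mvW (l : List (XX D)) (p : ℕ × D.sys.Kt × D.sys.Kt) : D.B :=
  match XX.at l 0 with
  | .hd Q H => ⨆ _ : p.2.1 ≠ p.2.2 ∧ HSet.chk (S := qs Q) p.2.1 ∈ H ∧
      HSet.chk (S := qs Q) p.2.2 ∈ H,
      jm Q (((HSet.num (qs Q) p.1).opair (HSet.chk (S := qs Q) p.2.1)).mem ((XX.at l 1).sg Q H) ⊓
        ((HSet.num (qs Q) p.1).opair (HSet.chk (S := qs Q) p.2.2)).mem ((XX.at l 1).sg Q H))
  | _ => ⊥

/-- three functions on objects: the collapse of an element of `H`; the ordinal `alph`; a function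
from `ω` onto it -/
noncomputable def pinF : XX D → XX D → D.sys.HSet
  | .hd Q H, y => PI Q H (y.sg Q H)
  | _, _ => HSet.num D.sys 0

/-- see `pinF` -/
noncomputable def alF : XX D → D.sys.HSet
  | .hd Q H => HSet.chk (alph Q H)
  | _ => HSet.num D.sys 0

/-- see `pinF` -/
noncomputable def sfF : XX D → D.sys.HSet
  | .hd Q H => HSet.seq fun n => HSet.chk (srj Q H n)
  | _ => HSet.num D.sys 0

/-- the indices of the tasks -/
inductive EJ : Type
  | hd
  | find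
  | dec (φ : Fml)
  | ex (φ : Fml)
  | mv
  | pin
  | al
  | sf
deriving Countable

/-- the tasks -/
noncomputable def eTask (D : Setup) (hR : RamseyCard D.κ) : EJ → Task D
  | .hd =>
    { goal := fun _ => ⊤
      wit := fun l c y => ∃ Q H, y = XX.hd Q H ∧ GoodC Q H c (XX.asg l 0)
      dense := fun l c _ => by
        obtain ⟨d, hd, Q, H, h⟩ := exists_goodC hR (XX.asg l 0) c
        exact ⟨d, hd, _, Q, H, rfl, h⟩ }
  | .find => Task.exi fun l y => findW (XX.at l 0) (XX.asg l 1) y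
  | .dec φ => Task.sup (J := Unit) fun l _ => decW φ l
  | .ex φ => Task.exi (exW φ)
  | .mv => Task.sup mvW
  | .pin => Task.fn fun l => XX.nm (pinF (XX.at l 0) (XX.at l 1))
  | .al => Task.fn fun l => XX.nm (alF (XX.at l 0))
  | .sf => Task.fn fun l => XX.nm (sfF (XX.at l 0))

end Pool.Agent.Lib.BPLM
end

section

/-!
# Small inner models of the generic model
-/

set_option autoImplicit false

open Set

namespace Pool.Agent.Lib.BPLM

open Pool.Agent.Lib.SymZF Pool.Agent.Lib.KZF Pool.Agent.Lib.KZF.KSys Setup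

variable {D : Setup}

/-! ### Boolean values -/

private lemma ew_trans {x y z : D.sys.HSet} {t : D.B} (h1 : t ≤ x.eq y) (h2 : t ≤ y.eq z) :
    t ≤ x.eq z := (le_inf h1 h2).trans (KSys.HSet.eq_trans _ _ _)

private lemma ew_symm {x y : D.sys.HSet} {t : D.B} (h : t ≤ x.eq y) : t ≤ y.eq x := by
  rwa [KSys.HSet.eq_symm] at h

private lemma ew_JH_top {Q : Sw D.U} (hQ : Q.Small) {x y : (qs Q).HSet} (h : x.eq y = ⊤) :
    eS Q Q.top ≤ (JH hQ x).eq (JH hQ y) := by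
  have h1 := JH_eq hQ x y
  rw [h, jm_top hQ] at h1
  exact inf_eq_left.1 h1

private lemma ew_pair_congr {x x' y y' : D.sys.HSet} {t : D.B} (h1 : t ≤ x.eq x')
    (h2 : t ≤ y.eq y') : t ≤ (x.pair y).eq (x'.pair y') :=
  (le_inf h1 h2).trans (KSys.HSet.pair_congr _ _ _ _)

private lemma ew_PI_pair {Q : Sw D.U} (hQ : Q.Small) {H : Set (qs Q).HSet} (hH : Hull (qs Q) H)
    {x y : (qs Q).HSet} (hx : x ∈ H) (hy : y ∈ H) {x' y' : D.sys.HSet}
    (h1 : eS Q Q.top ≤ (PI Q H x).eq x') (h2 : eS Q Q.top ≤ (PI Q H y).eq y') :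
    eS Q Q.top ≤ (PI Q H (x.pair y)).eq (x'.pair y') := by
  rw [PI_def hQ] at h1 h2 ⊢
  refine ew_trans (ew_JH_top hQ (col_pair (qs_HS Q) hH x y hx hy)) ?_
  exact ew_trans (JH_pair hQ _ _) (ew_pair_congr h1 h2)

private lemma ew_PI_num {Q : Sw D.U} (hQ : Q.Small) {H : Set (qs Q).HSet} (hH : Hull (qs Q) H)
    (n : ℕ) : eS Q Q.top ≤ (PI Q H (HSet.num (qs Q) n)).eq (HSet.num D.sys n) := by
  rw [PI_def hQ]
  exact ew_trans (ew_JH_top hQ (col_num (qs_HS Q) hH n)) (JH_num hQ n)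

private lemma ew_PI_chk {Q : Sw D.U} (hQ : Q.Small) {H : Set (qs Q).HSet}
    {i : (qs Q).Kt} {c : D.sys.Kt}
    (hc : (col H (qs_HS Q) (HSet.chk i)).eq (HSet.chk (S := qs Q) c) = ⊤) :
    eS Q Q.top ≤ (PI Q H (HSet.chk i)).eq (HSet.chk c) := by
  rw [PI_def hQ]
  exact ew_trans (ew_JH_top hQ hc) (JH_chk hQ c)

/-- `JH_eq`, `col_eq` -/
theorem PI_eq {Q : Sw D.U} (hQ : Q.Small) {H : Set (qs Q).HSet} (hH : Hull (qs Q) H)
    {σ τ : (qs Q).HSet} (hσ : σ ∈ H) (hτ : τ ∈ H) :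
    eS Q Q.top ⊓ (PI Q H σ).eq (PI Q H τ) = jm Q (σ.eq τ) := by
  rw [PI_def hQ, PI_def hQ, JH_eq hQ, col_eq (qs_HS Q) hH σ τ hσ hτ]

theorem PI_mem {Q : Sw D.U} (hQ : Q.Small) {H : Set (qs Q).HSet} (hH : Hull (qs Q) H)
    {σ τ : (qs Q).HSet} (hσ : σ ∈ H) (hτ : τ ∈ H) :
    eS Q Q.top ⊓ (PI Q H σ).mem (PI Q H τ) = jm Q (σ.mem τ) := by
  rw [PI_def hQ, PI_def hQ, JH_mem hQ, col_mem (qs_HS Q) hH σ τ hσ hτ]

/-- the elements of a collapse are collapses of elements of `H` (`mem_JH`; the elements of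
`col H _ σ` are the `col H _ (σ.el k)` with `σ.el k ∈ H`) -/
theorem mem_PI_le {Q : Sw D.U} (hQ : Q.Small) {H : Set (qs Q).HSet} (σ : (qs Q).HSet)
    (w : D.sys.HSet) : w.mem (PI Q H σ) ≤ ⨆ τ : H, w.eq (PI Q H τ.1) := by
  rw [PI_def hQ, mem_JH hQ]
  obtain ⟨σ, hσ, hσ'⟩ := σ
  cases σ with
  | mk ι f b =>
    refine iSup_le ?_
    rintro ⟨k, hk⟩
    refine inf_le_right.trans ?_
    have h1 := le_iSup (fun τ : H => w.eq (PI Q H τ.1)) ⟨⟨f k, hσ.2 k, hσ'.2 k⟩, hk⟩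
    rw [PI_def hQ] at h1
    exact h1

/-- `exists_col_chk` (surjectivity), `JH_chk`, `JH_eq` -/
theorem exists_PI_chk {Q : Sw D.U} (hQ : Q.Small) {H : Set (qs Q).HSet} (hH : GoodHull (qs Q) H)
    (k : D.sys.Kt) : ∃ σ ∈ H, eS Q Q.top ≤ (HSet.chk k).eq (PI Q H σ) := by
  obtain ⟨c, hc1, -, -, hc4⟩ := exists_col_chk (qs_HS Q) hH.toHull
  obtain ⟨i, hi, hik⟩ := hc4 hH.card k
  refine ⟨HSet.chk i, hi, ew_symm (ew_PI_chk hQ ?_)⟩
  rw [← hik]
  exact hc1 i hi

/-- `col_rnm`, `JH_rnm`, `JH_eq` -/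
theorem PI_rnm {Q : Sw D.U} (hQ : Q.Small) {H : Set (qs Q).HSet} (hH : Hull (qs Q) H)
    {b : ℕ → (qs Q).B} (hb : HSet.rnm b (symB_qs b) ∈ H) {x : D.sys.HSet}
    (hx : ∀ n, jm Q (b n) = eS Q Q.top ⊓ x.bit n) :
    eS Q Q.top ≤ (HSet.rnm x.bit x.symB_bit).eq (PI Q H (HSet.rnm b (symB_qs b))) := by
  refine ew_symm ?_
  rw [PI_def hQ]
  refine ew_trans (ew_JH_top hQ (col_rnm (qs_HS Q) hH b (symB_qs b) hb)) ?_
  refine ew_trans (JH_rnm hQ b (symB_qs b) (symB_jm hQ b)) ?_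
  rw [HSet.rnm_eq]
  refine le_iInf fun n => le_inf ?_ ?_
  · rw [le_himp_iff]
    show eS Q Q.top ⊓ jm Q (b n) ≤ x.bit n
    rw [hx]
    exact inf_le_right.trans inf_le_right
  · rw [le_himp_iff]
    show eS Q Q.top ⊓ x.bit n ≤ jm Q (b n)
    rw [hx]

/-- pairs of a natural number and an ordinal: `c` is the image of the ordinal `i` under the collapse
(`col_pair`, `col_num`, `JH_pair`, `JH_num`, `JH_chk`, `JH_eq`, `pair_congr`) -/
theorem PI_opair {Q : Sw D.U} (hQ : Q.Small) {H : Set (qs Q).HSet} (hH : Hull (qs Q) H) (n : ℕ)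
    {i : (qs Q).Kt} (hi : HSet.chk i ∈ H) {c : D.sys.Kt}
    (hc : (col H (qs_HS Q) (HSet.chk i)).eq (HSet.chk (S := qs Q) c) = ⊤) :
    ((HSet.num (qs Q) n).opair (HSet.chk i)) ∈ H ∧
    eS Q Q.top ≤ (PI Q H ((HSet.num (qs Q) n).opair (HSet.chk i))).eq
      ((HSet.num D.sys n).opair (HSet.chk c)) := by
  have hn := hH.num n
  refine ⟨hH.pair _ (hH.pair _ hn _ hn) _ (hH.pair _ hn _ hi), ?_⟩
  have h1 := ew_PI_num hQ hH n
  have h2 := ew_PI_chk hQ hc
  exact ew_PI_pair hQ hH (hH.pair _ hn _ hn) (hH.pair _ hn _ hi)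
    (ew_PI_pair hQ hH hn hn h1 h1) (ew_PI_pair hQ hH hn hi h1 h2)

/-! ### The class -/

/-- The setting: a generic model meeting the tasks, and a good hull over `Q` among the objects. -/
structure ESet {D : Setup} (hR : RamseyCard D.κ) (g : GMod D) (Q : Sw D.U)
    (H : Set (qs Q).HSet) : Prop where
  meets : ∀ j, g.toMod.Meets (eTask D hR j)
  small : Q.Small
  good : GoodHull (qs Q) H
  top : eS Q Q.top ∈ g.toMod.U
  obj : ∃ k, g.toMod.ξ k = XX.hd Q H

/-- the class of the values of the collapses of the elements of `H` among the objects -/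
def WW {D : Setup} (g : GMod D) (Q : Sw D.U) (H : Set (qs Q).HSet) : Set g.M :=
  {u | ∃ σ ∈ H, (∃ k, g.toMod.ξ k = XX.hs Q H σ) ∧ g.G.IsVal u (PI Q H σ)}

private lemma ew_at_cons (x : XX D) (l : List (XX D)) : XX.at (x :: l) 0 = x := rfl

private lemma ew_at_succ (x : XX D) (l : List (XX D)) (i : ℕ) :
    XX.at (x :: l) (i + 1) = XX.at l i := rfl

private lemma ew_decW {Q : Sw D.U} {H : Set (qs Q).HSet} {φ : Fml} {l : List (XX D)}
    (h : XX.at l 0 = XX.hd Q H) : decW φ l = jm Q (bval φ (XX.sgs Q H l)) := by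
  unfold decW
  rw [h]

private lemma ew_exW {Q : Sw D.U} {H : Set (qs Q).HSet} {φ : Fml} {l : List (XX D)} {y : XX D}
    (h : XX.at l 0 = XX.hd Q H) : exW φ l y =
      ⨆ _ : y.isH Q H, jm Q (bval φ (scons (y.sg Q H) (XX.sgs Q H l))) := by
  unfold exW
  rw [h]

private lemma ew_sgs {Q : Sw D.U} {H : Set (qs Q).HSet} (ξ : ℕ → XX D) (k0 : ℕ) (kk : ℕ → ℕ)
    (v : ℕ → (qs Q).HSet) (hkk : ∀ i, ξ (kk i) = XX.hs Q H (v i)) {n i : ℕ} (hi : i < n) :
    XX.sgs Q H ((k0 :: (List.range n).map kk).map ξ) i = v i := by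
  have h1 : XX.at ((k0 :: (List.range n).map kk).map ξ) (i + 1) = ξ (kk i) := by
    rw [List.map_cons, ew_at_succ]
    simp [XX.at, List.getD, hi]
  rw [XX.sgs, h1, hkk, XX.sg_hs]

namespace ESet

variable {hR : RamseyCard D.κ} {g : GMod D} {Q : Sw D.U} {H : Set (qs Q).HSet}
  (h : ESet hR g Q H)

include h

/-- `jm Q a ∈ U` or its complement, for the values of formulas at the names among the objects
(the task `dec`, with the list of `hd Q H` and the `hs Q H (v i)`, `i < φ.bd`; `bval_bd`) -/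
theorem dec (φ : Fml) (v : ℕ → (qs Q).HSet) (hv : ∀ i, ∃ k, g.toMod.ξ k = XX.hs Q H (v i)) :
    jm Q (bval φ v) ∈ g.toMod.U ∨ (jm Q (bval φ v))ᶜ ∈ g.toMod.U := by
  obtain ⟨k0, hk0⟩ := h.obj
  choose kk hkk using hv
  have hl := h.meets (.dec φ)
  have h1 := Mod.Meets.sup hl (k0 :: (List.range φ.bd).map kk)
  rw [ew_decW (Q := Q) (H := H) (by rw [List.map_cons, ew_at_cons, hk0])] at h1
  have h2 : bval φ (XX.sgs Q H ((k0 :: (List.range φ.bd).map kk).map g.toMod.ξ)) = bval φ v :=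
    bval_bd _ _ _ fun i hi => ew_sgs g.toMod.ξ k0 kk v hkk hi
  rw [h2] at h1
  rcases h1 with ⟨-, h1⟩ | h1
  · exact Or.inl h1
  · rw [iSup_const] at h1
    exact Or.inr h1

/-- witnesses (the task `ex`) -/
theorem ex (φ : Fml) (v : ℕ → (qs Q).HSet) (hv : ∀ i, ∃ k, g.toMod.ξ k = XX.hs Q H (v i))
    (hex : (⨆ σ : H, jm Q (bval φ (scons σ.1 v))) ∈ g.toMod.U) :
    ∃ σ ∈ H, (∃ k, g.toMod.ξ k = XX.hs Q H σ) ∧ jm Q (bval φ (scons σ v)) ∈ g.toMod.U := by
  obtain ⟨k0, hk0⟩ := h.obj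
  choose kk hkk using hv
  have hat : XX.at ((k0 :: (List.range φ.bd).map kk).map g.toMod.ξ) 0 = XX.hd Q H := by
    rw [List.map_cons, ew_at_cons, hk0]
  have hb : ∀ x : (qs Q).HSet,
      bval φ (scons x (XX.sgs Q H ((k0 :: (List.range φ.bd).map kk).map g.toMod.ξ))) =
        bval φ (scons x v) := by
    intro x
    refine bval_bd _ _ _ fun i hi => ?_
    cases i with
    | zero => rfl
    | succ i => exact ew_sgs g.toMod.ξ k0 kk v hkk (by omega)
  have hobj := Mod.Meets.obj (h := fun _ => le_rfl) (h.meets (.ex φ))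
    (k0 :: (List.range φ.bd).map kk) (by
      refine Mod.up hex (iSup_le fun σ => ?_)
      refine le_trans ?_ (le_iSup _ (XX.hs Q H σ.1))
      rw [ew_exW hat]
      refine le_trans ?_ (le_iSup _ (⟨σ.1, σ.2, rfl⟩ : (XX.hs Q H σ.1).isH Q H))
      rw [XX.sg_hs, hb])
  obtain ⟨k, hk⟩ := hobj
  rw [ew_exW hat] at hk
  by_cases hi : (g.toMod.ξ k).isH Q H
  · rw [iSup_pos hi] at hk
    obtain ⟨σ, hσ, hσk⟩ := hi
    rw [hσk, XX.sg_hs, hb] at hk
    exact ⟨σ, hσ, ⟨k, hσk⟩, hk⟩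
  · rw [iSup_neg hi] at hk
    exact (Mod.bot hk).elim

/-- the collapses of the objects have values (the task `pin`) -/
theorem val {σ : (qs Q).HSet} (hσ : σ ∈ H) (hk : ∃ k, g.toMod.ξ k = XX.hs Q H σ) :
    ∃ u ∈ WW g Q H, g.G.IsVal u (PI Q H σ) ∧ PI Q H σ ∈ g.G.Nm := by
  obtain ⟨k0, hk0⟩ := h.obj
  obtain ⟨k, hk⟩ := hk
  obtain ⟨k', hk'⟩ := Mod.Meets.fn (h.meets .pin) [k0, k]
  have h1 : (g.toMod.ξ k').name = PI Q H σ := by
    rw [hk']
    have e0 : XX.at (([k0, k] : List ℕ).map g.toMod.ξ) 0 = XX.hd Q H := by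
      rw [List.map_cons, ew_at_cons, hk0]
    have e1 : XX.at (([k0, k] : List ℕ).map g.toMod.ξ) 1 = XX.hs Q H σ := by
      rw [List.map_cons, ew_at_succ, List.map_cons, ew_at_cons, hk]
    rw [e0, e1]
    show PI Q H ((XX.hs Q H σ).sg Q H) = PI Q H σ
    rw [XX.sg_hs]
  obtain ⟨u, hu⟩ := g.val k'
  have hN := g.hNm k'
  rw [h1] at hu hN
  exact ⟨u, ⟨σ, hσ, ⟨k, hk⟩, hu⟩, hu, hN⟩

/-- the task `find` for `hd Q H` and `nm u` (`nmx`) -/
theorem mem_WW_of {u : g.M} (hu : (⨆ σ : H, (g.G.nm u).eq (PI Q H σ.1)) ∈ g.toMod.U) :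
    u ∈ WW g Q H := by
  obtain ⟨k0, hk0⟩ := h.obj
  obtain ⟨i, hi⟩ := g.nmx u
  have e0 : XX.at (([k0, i] : List ℕ).map g.toMod.ξ) 0 = XX.hd Q H := by
    rw [List.map_cons, ew_at_cons, hk0]
  have e1 : XX.asg (([k0, i] : List ℕ).map g.toMod.ξ) 1 = g.G.nm u := by
    rw [XX.asg, List.map_cons, ew_at_succ, List.map_cons, ew_at_cons, hi]
  have hobj := Mod.Meets.obj (h := fun _ => le_rfl) (h.meets .find) [k0, i] (by
      refine Mod.up hu (iSup_le fun σ => ?_)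
      refine le_trans ?_ (le_iSup _ (XX.hs Q H σ.1))
      rw [e0, e1]
      show _ ≤ ⨆ _ : (XX.hs Q H σ.1).isH Q H, (g.G.nm u).eq (PI Q H ((XX.hs Q H σ.1).sg Q H))
      refine le_trans ?_ (le_iSup _ (⟨σ.1, σ.2, rfl⟩ : (XX.hs Q H σ.1).isH Q H))
      rw [XX.sg_hs])
  obtain ⟨k, hk⟩ := hobj
  rw [e0, e1] at hk
  change (⨆ _ : (g.toMod.ξ k).isH Q H, (g.G.nm u).eq (PI Q H ((g.toMod.ξ k).sg Q H))) ∈
    g.toMod.U at hk
  by_cases hki : (g.toMod.ξ k).isH Q H
  · rw [iSup_pos hki] at hk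
    obtain ⟨σ, hσ, hσk⟩ := hki
    rw [hσk, XX.sg_hs] at hk
    refine ⟨σ, hσ, ⟨k, hσk⟩, ?_⟩
    rw [GM.IsVal, g.hU]
    exact hk
  · rw [iSup_neg hki] at hk
    exact (Mod.bot hk).elim

/-- `mem_PI_le`, `mem_WW_of` -/
theorem trans : ∀ u ∈ WW g Q H, ∀ y, g.E y u → y ∈ WW g Q H := by
  rintro u ⟨σ, hσ, -, hu⟩ y hy
  rw [g.G.E_iff (g.G.isVal_nm y) hu, g.hU] at hy
  exact h.mem_WW_of (Mod.up hy (mem_PI_le h.small σ (g.G.nm y)))

/-- `ord_iff`, `ordv_le`, `exists_PI_chk`, `mem_WW_of` -/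
theorem ord : ∀ a, IsOrd g.E a → a ∈ WW g Q H := by
  intro a ha
  rw [g.G.ord_iff (g.G.isVal_nm a), g.hU] at ha
  refine h.mem_WW_of (Mod.up (Mod.inf h.top ha) ?_)
  refine (inf_le_inf_left _ (HSet.ordv_le _)).trans ?_
  rw [inf_iSup_eq]
  refine iSup_le fun i => ?_
  obtain ⟨σ, hσ, hi⟩ := exists_PI_chk h.small h.good i
  refine le_trans ?_ (le_iSup _ ⟨σ, hσ⟩)
  exact ew_trans inf_le_right (inf_le_left.trans hi)

/-- `isReal_iff`, `PI_rnm`, `mem_WW_of` -/
theorem real {x : g.M} (hx : IsReal g.E x) {b : ℕ → (qs Q).B}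
    (hb : HSet.rnm b (symB_qs b) ∈ H)
    (hx' : ∀ n, jm Q (b n) = eS Q Q.top ⊓ (g.G.nm x).bit n) : x ∈ WW g Q H := by
  have h1 := g.G.isReal_iff hx
  rw [GM.IsVal, g.hU] at h1
  have h2 := PI_rnm h.small h.good.toHull hb hx'
  refine h.mem_WW_of (Mod.up (Mod.inf h.top h1) ?_)
  refine le_trans ?_ (le_iSup _ ⟨HSet.rnm b (symB_qs b), hb⟩)
  exact ew_trans inf_le_right (inf_le_left.trans h2)

/-- The truth lemma for `WW`, for the names `nu u ∈ H`. Induction on `φ`: `mem`, `eq`: `PI_mem`,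
`PI_eq`, `E_iff`, `eq_iff`; `imp`: `dec` and `jm_himp`; `all`: `Hull.tv`, `jm_iInf`; if the value is not
in `U` then its complement is (`dec`), it is (with `eS Q Q.top`)
`⨆ σ : H, jm Q (bval φ.neg (scons σ v))`; `ex` gives `σ`, its value `u ∈ WW` (`val`), and
`bval_congr_scons` for `σ` and `nu u` (`PI_eq`). -/
theorem truth (nu : WW g Q H → (qs Q).HSet) (hnu : ∀ u, nu u ∈ H ∧
    (∃ k, g.toMod.ξ k = XX.hs Q H (nu u)) ∧ g.G.IsVal u.1 (PI Q H (nu u)))
    (φ : Fml) (v : ℕ → WW g Q H) : Sat (fun x y : WW g Q H => g.E x.1 y.1) φ v ↔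
      jm Q (bval φ (fun i => nu (v i))) ∈ g.toMod.U := by
  have hQ := h.small
  have hH := h.good.toHull
  have hdec : ∀ (φ : Fml) (v : ℕ → WW g Q H), jm Q (bval φ fun i => nu (v i)) ∈ g.toMod.U ∨
      (jm Q (bval φ fun i => nu (v i)))ᶜ ∈ g.toMod.U := fun φ v =>
    h.dec φ _ fun i => (hnu (v i)).2.1
  have hmem : ∀ {b : D.B} {c : (qs Q).B}, eS Q Q.top ⊓ b = jm Q c →
      (b ∈ g.toMod.U ↔ jm Q c ∈ g.toMod.U) := by
    intro b c hbc
    rw [← hbc]
    exact ⟨fun h1 => Mod.inf h.top h1, fun h1 => Mod.up h1 inf_le_right⟩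
  induction φ generalizing v with
  | bot =>
    rw [sat_bot, bval_bot, jm_bot]
    exact ⟨fun h1 => h1.elim, fun h1 => Mod.bot h1⟩
  | mem i j =>
    rw [sat_mem, bval_mem, g.G.E_iff (hnu (v i)).2.2 (hnu (v j)).2.2, g.hU]
    exact hmem (PI_mem hQ hH (hnu _).1 (hnu _).1)
  | eq i j =>
    rw [sat_eq, bval_eq, Subtype.ext_iff, g.G.eq_iff (hnu (v i)).2.2 (hnu (v j)).2.2, g.hU]
    exact hmem (PI_eq hQ hH (hnu _).1 (hnu _).1)
  | imp φ ψ ih1 ih2 =>
    have h1' := ih1 v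
    have h2' := ih2 v
    rw [sat_imp, bval_imp, jm_himp hQ]
    constructor
    · intro h3
      refine Mod.inf h.top ?_
      rcases hdec φ v with h1 | h1
      · exact Mod.up (h2'.1 (h3 (h1'.2 h1))) le_himp
      · exact Mod.up h1 (by rw [himp_eq]; exact le_sup_right)
    · intro h3 h1
      exact h2'.2 (Mod.up (Mod.inf h3 (h1'.1 h1)) ((inf_le_inf_right _ inf_le_right).trans
        himp_inf_le))
  | all φ ih =>
    rw [sat_all, bval_all]
    have hc : ∀ x : WW g Q H, Sat (fun x y : WW g Q H => g.E x.1 y.1) φ (scons x v) ↔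
        jm Q (bval φ (scons (nu x) (fun i => nu (v i)))) ∈ g.toMod.U := by
      intro x
      have h1 := ih (scons x v)
      have e1 : (fun i => nu (scons x v i)) = scons (nu x) (fun i => nu (v i)) :=
        SymSys.scons_comp x v nu
      rw [e1] at h1
      exact h1
    constructor
    · intro hall
      by_contra hcon
      have h1 : (jm Q (⨅ x, bval φ (scons x fun i => nu (v i))))ᶜ ∈ g.toMod.U := by
        rcases hdec (.all φ) v with h1 | h1
        · exact (hcon h1).elim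
        · exact h1
      have h2 : (⨆ σ : H, jm Q (bval φ.neg (scons σ.1 fun i => nu (v i)))) ∈ g.toMod.U := by
        refine Mod.up (Mod.inf h.top h1) ?_
        rw [hH.tv φ _ fun i => (hnu (v i)).1, jm_iInf hQ, compl_inf, inf_sup_left,
          inf_compl_self, bot_sup_eq, compl_iInf, inf_iSup_eq]
        refine iSup_mono fun σ => ?_
        rw [bval_neg, jm_compl hQ]
      obtain ⟨σ, hσ, hk, hσU⟩ := h.ex φ.neg _ (fun i => (hnu (v i)).2.1) h2
      obtain ⟨u, huW, hu, -⟩ := h.val hσ hk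
      have h3 : (PI Q H σ).eq (PI Q H (nu ⟨u, huW⟩)) ∈ g.G.U :=
        (g.G.eq_iff hu (hnu ⟨u, huW⟩).2.2).1 rfl
      rw [g.hU] at h3
      have h4 : jm Q (σ.eq (nu ⟨u, huW⟩)) ∈ g.toMod.U :=
        (hmem (PI_eq hQ hH hσ (hnu ⟨u, huW⟩).1)).1 h3
      have h5 : jm Q (bval φ.neg (scons (nu ⟨u, huW⟩) fun i => nu (v i))) ∈ g.toMod.U := by
        refine Mod.up (Mod.inf h4 hσU) ?_
        rw [← jm_inf hQ]
        exact jm_mono (bval_congr_scons φ.neg σ (nu ⟨u, huW⟩) _)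
      have h6 := (hc ⟨u, huW⟩).1 (hall ⟨u, huW⟩)
      rw [bval_neg, jm_compl hQ] at h5
      exact Mod.compl_mem h6 (Mod.up h5 inf_le_right)
    · intro h1 x
      exact (hc x).2 (Mod.up h1 (jm_mono (iInf_le _ (nu x))))

/-- `TModel.isZF` for the system `qs Q` and `U = {b | jm Q b ∈ g.toMod.U}` -/
theorem zf : IsZF (fun x y : WW g Q H => g.E x.1 y.1) := by
  have hne : ∃ u, u ∈ WW g Q H := by
    obtain ⟨u, hu⟩ := g.G.hnum 0
    rw [g.hU] at hu
    refine ⟨u, h.mem_WW_of (Mod.up (Mod.inf h.top hu) ?_)⟩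
    refine le_trans ?_ (le_iSup _ ⟨HSet.num (qs Q) 0, h.good.toHull.num 0⟩)
    exact ew_trans inf_le_right (inf_le_left.trans (ew_symm (ew_PI_num h.small h.good.toHull 0)))
  obtain ⟨u0, hu0⟩ := hne
  have hex : ∀ u : WW g Q H, ∃ σ, σ ∈ H ∧ (∃ k, g.toMod.ξ k = XX.hs Q H σ) ∧
      g.G.IsVal u.1 (PI Q H σ) := by
    rintro ⟨u, σ, hσ, hk, hu⟩
    exact ⟨σ, hσ, hk, hu⟩
  choose nu hnu using hex
  exact TModel.isZF (S := qs Q)
    { pt := ⟨u0, hu0⟩
      nm := nu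
      U := {b | jm Q b ∈ g.toMod.U}
      top := by
        show jm Q ⊤ ∈ g.toMod.U
        rw [jm_top h.small]
        exact h.top
      truth := fun φ v => h.truth nu hnu φ v }

theorem innerModel : InnerModel g.E (WW g Q H) := ⟨h.trans, h.ord, h.zf⟩

end ESet

end Pool.Agent.Lib.BPLM
end
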