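import Mathlib
import Pool.Agent.Lib.MP_c00cb7_lc.SwMap
import Pool.Agent.Lib.MP_c00cb7_lc.SwRN

section

/-!
# The dominating extension of a sweet preorder: definitions

A condition of the dominating extension is `(p, s, R, c)`: `p ∈ S.X`, `s` a finite sequence of
numbers, and for every `m` a predense (below `p`) family `R m j`, `j < ω`, with numbers `c m j`
(a name for a function: its value at `m` is the least `c m j` with `R m j` in the generic filter).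
-/

set_option autoImplicit false

open Set

namespace Pool.Agent.Lib.BPLM

/-- Data `(p, s, R, c)`. -/
@[ext] structure DC (U : Type) where
  /-- the old condition -/
  p : U
  /-- the finite part of the dominating real -/
  s : List ℕ
  /-- the conditions deciding the function -/
  R : ℕ → ℕ → U
  /-- the decided values -/
  c : ℕ → ℕ → ℕ

namespace Sw

variable {U : Type} (S : Sw U)

/-- conditions of the dominating extension -/
def DV (d : DC U) : Prop :=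
  d.p ∈ S.X ∧ (∀ m j, d.R m j ∈ S.X) ∧ ∀ m, S.Pd (range (d.R m)) d.p

/-- the order of the dominating extension: `d' ≤ d` -/
def dle (d' d : DC U) : Prop :=
  S.le d'.p d.p ∧ d.s <+: d'.s ∧
  (∀ m, d.s.length ≤ m → ∀ h : m < d'.s.length, S.Pd {x | ∃ j, x = d.R m j ∧ d.c m j ≤ d'.s[m]} d'.p) ∧
  (∀ m, d'.s.length ≤ m → ∀ j, ∀ z ∈ S.X, S.le z d'.p → S.le z (d'.R m j) →
    S.Pd {x | ∃ i, x = d.R m i ∧ d.c m i ≤ d'.c m j} z)

/-- the separative closure of the order -/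
def dles (a b : DC U) : Prop :=
  ∀ d, S.DV d → S.dle d a → ∃ d', S.DV d' ∧ S.dle d' d ∧ S.dle d' b

/-- the classes of the dominating extension -/
def dE (n : ℕ) (d d' : DC U) : Prop :=
  S.cd n d.p = S.cd n d'.p ∧ d.s = d'.s ∧
  ∀ m j, m ≤ n → j ≤ n → S.cd n (d.R m j) = S.cd n (d'.R m j) ∧ d.c m j = d'.c m j

/-- the code of the class -/
def dcode (n : ℕ) (d : DC U) : ℕ :=
  Encodable.encode (S.cd n d.p, d.s,
    (List.range (n + 1)).map fun m => (List.range (n + 1)).map fun j =>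
      (S.cd n (d.R m j), d.c m j))

/-- the elements of the extension as conditions -/
def dι : U ⊕ DC U → DC U
  | .inl x => ⟨x, [], fun _ _ => S.top, fun _ _ => 0⟩
  | .inr d => d

theorem dcode_eq_iff (n : ℕ) (d d' : DC U) : S.dcode n d = S.dcode n d' ↔ S.dE n d d' := by
  unfold dcode dE
  rw [Encodable.encode_injective.eq_iff]
  simp only [Prod.mk.injEq, List.map_inj_left, List.mem_range]
  constructor
  · rintro ⟨h1, h2, h3⟩
    exact ⟨h1, h2, fun m j hm hj => h3 m (by omega) j (by omega)⟩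
  · rintro ⟨h1, h2, h3⟩
    exact ⟨h1, h2, fun m hm j hj => h3 m j (by omega) (by omega)⟩

theorem dle_refl (d : DC U) (hd : S.DV d) : S.dle d d := by
  refine ⟨S.refl _ hd.1, List.prefix_refl _, fun m hm h => absurd h (by omega), ?_⟩
  intro m _ j z hz _ hzR w hw hwz
  exact ⟨d.R m j, ⟨j, rfl, le_rfl⟩, w, hw, S.refl _ hw,
    S.trans _ hw _ hz _ (hd.2.1 m j) hwz hzR⟩

/-- Transitivity. For `d₂ ≤ d₁ ≤ d₀` and `m ∈ [|s₁|, |s₂|)`: given `w ≤ p₂` there are `j` and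
`v ≤ w, R₁ m j` with `c₁ m j ≤ s₂[m]`; then `{R₀ m i : c₀ m i ≤ c₁ m j}` is predense below `v`.
For `m ≥ |s₂|` similarly. -/
theorem dle_trans (d₀ d₁ d₂ : DC U) (h₀ : S.DV d₀) (h₁ : S.DV d₁) (h₂ : S.DV d₂)
    (h : S.dle d₂ d₁) (h' : S.dle d₁ d₀) : S.dle d₂ d₀ := by
  have hX2 := h₂.1
  have hX1 := h₁.1
  have hX0 := h₀.1
  refine ⟨S.trans _ hX2 _ hX1 _ hX0 h.1 h'.1, h'.2.1.trans h.2.1, ?_, ?_⟩
  · intro m hm hm2 w hw hwp
    rcases Nat.lt_or_ge m d₁.s.length with hlt | hge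
    · have hwp1 : S.le w d₁.p := S.trans _ hw _ hX2 _ hX1 hwp h.1
      obtain ⟨x, ⟨j, hx, hj⟩, hc⟩ := h'.2.2.1 m hm hlt w hw hwp1
      refine ⟨x, ⟨j, hx, ?_⟩, hc⟩
      rw [← h.2.1.getElem hlt]
      exact hj
    · obtain ⟨x, ⟨j, hx, hj⟩, v, hv, hvw, hvx⟩ := h.2.2.1 m hge hm2 w hw hwp
      have hvp2 : S.le v d₂.p := S.trans _ hv _ hw _ hX2 hvw hwp
      have hvp1 : S.le v d₁.p := S.trans _ hv _ hX2 _ hX1 hvp2 h.1
      rw [hx] at hvx
      obtain ⟨y, ⟨i, hy, hi⟩, u, hu, huv, huy⟩ :=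
        h'.2.2.2 m hge j v hv hvp1 hvx v hv (S.refl _ hv)
      exact ⟨y, ⟨i, hy, hi.trans hj⟩, u, hu, S.trans _ hu _ hv _ hw huv hvw, huy⟩
  · intro m hm j z hz hzp hzR w hw hwz
    have hlen : d₁.s.length ≤ d₂.s.length := h.2.1.length_le
    obtain ⟨x, ⟨i1, hx, hi1⟩, v, hv, hvw, hvx⟩ := h.2.2.2 m hm j z hz hzp hzR w hw hwz
    have hvz : S.le v z := S.trans _ hv _ hw _ hz hvw hwz
    have hvp2 : S.le v d₂.p := S.trans _ hv _ hz _ hX2 hvz hzp
    have hvp1 : S.le v d₁.p := S.trans _ hv _ hX2 _ hX1 hvp2 h.1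
    rw [hx] at hvx
    obtain ⟨y, ⟨i, hy, hi⟩, u, hu, huv, huy⟩ :=
      h'.2.2.2 m (hlen.trans hm) i1 v hv hvp1 hvx v hv (S.refl _ hv)
    exact ⟨y, ⟨i, hy, hi.trans hi1⟩, u, hu, S.trans _ hu _ hv _ hw huv hvw, huy⟩

theorem dles_refl (d : DC U) : S.dles d d := by
  intro d' hd' h
  exact ⟨d', hd', S.dle_refl d' hd', h⟩

theorem dles_of_dle (a b : DC U) (ha : S.DV a) (hb : S.DV b) (h : S.dle a b) : S.dles a b := by
  intro d hd hda
  exact ⟨d, hd, S.dle_refl d hd, S.dle_trans b a d hb ha hd hda h⟩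

theorem dles_trans (a b c : DC U) (ha : S.DV a) (hb : S.DV b) (hc : S.DV c)
    (h : S.dles a b) (h' : S.dles b c) : S.dles a c := by
  intro d hd hda
  obtain ⟨d', hd', h1, h2⟩ := h d hd hda
  obtain ⟨d'', hd'', h3, h4⟩ := h' d' hd' h2
  exact ⟨d'', hd'', S.dle_trans d d' d'' hd hd' hd'' h3 h1, h4⟩

theorem DV_inl (x : U) (hx : x ∈ S.X) : S.DV (S.dι (.inl x)) := by
  refine ⟨hx, fun _ _ => S.top_mem, ?_⟩
  intro m w hw _
  exact ⟨S.top, ⟨0, rfl⟩, w, hw, S.refl _ hw, S.le_top _ hw⟩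

theorem dle_inl_iff (x y : U) (hx : x ∈ S.X) (hy : y ∈ S.X) :
    S.dle (S.dι (.inl x)) (S.dι (.inl y)) ↔ S.le x y := by
  constructor
  · intro h
    exact h.1
  · intro h
    refine ⟨h, List.prefix_refl _, ?_, ?_⟩
    · intro m _ h1
      exact absurd h1 (Nat.not_lt_zero m)
    · intro m _ j z hz _ _ w hw _
      exact ⟨S.top, ⟨0, rfl, le_rfl⟩, w, hw, S.refl _ hw, S.le_top _ hw⟩

theorem dle_inl_of (d : DC U) (hd : S.DV d) (y : U) (hy : y ∈ S.X) :
    S.dle d (S.dι (.inl y)) ↔ S.le d.p y := by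
  constructor
  · intro h
    exact h.1
  · intro h
    refine ⟨h, List.nil_prefix, ?_, ?_⟩
    · intro m _ h1 w hw _
      exact ⟨S.top, ⟨0, rfl, Nat.zero_le _⟩, w, hw, S.refl _ hw, S.le_top _ hw⟩
    · intro m _ j z hz _ _ w hw _
      exact ⟨S.top, ⟨0, rfl, Nat.zero_le _⟩, w, hw, S.refl _ hw, S.le_top _ hw⟩

/-- By `S.sep`; a condition `d ≤ x` is restricted to `d.p`. -/
theorem dles_inl_iff (x y : U) (hx : x ∈ S.X) (hy : y ∈ S.X) :
    S.dles (S.dι (.inl x)) (S.dι (.inl y)) ↔ S.le x y := by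
  constructor
  · intro h
    refine S.sep x hx y hy fun z hz hzx => ?_
    obtain ⟨d', hd', h1, h2⟩ := h (S.dι (.inl z)) (S.DV_inl z hz)
      ((S.dle_inl_iff z x hz hx).mpr hzx)
    exact ⟨d'.p, hd'.1, h1.1, h2.1⟩
  · intro h
    exact S.dles_of_dle _ _ (S.DV_inl x hx) (S.DV_inl y hy) ((S.dle_inl_iff x y hx hy).mpr h)

/-- Strengthening the old condition: `(q, s, R, c) ≤ (p, s, R, c)` for `q ≤ p`. -/
theorem DV_of_le (d : DC U) (hd : S.DV d) (q : U) (hq : q ∈ S.X) (h : S.le q d.p) :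
    S.DV ⟨q, d.s, d.R, d.c⟩ ∧ S.dle ⟨q, d.s, d.R, d.c⟩ d := by
  refine ⟨⟨hq, hd.2.1, ?_⟩, h, List.prefix_refl _, ?_, ?_⟩
  · intro m w hw hwq
    exact hd.2.2 m w hw (S.trans _ hw _ hq _ hd.1 hwq h)
  · intro m hm h1
    exact absurd h1 (Nat.not_lt.mpr hm)
  · intro m _ j z hz _ hzR w hw hwz
    exact ⟨d.R m j, ⟨j, rfl, le_rfl⟩, w, hw, S.refl _ hw,
      S.trans _ hw _ hz _ (hd.2.1 m j) hwz hzR⟩

/-- The filling lemma. Let `L : ι → DC U` be a finite family of conditions, `q ∈ S.X`, and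
suppose that for every `l` the family `(L l).R m j` (`j < ω`) is predense below `q`.
Then there are `R : ℕ → U`, `c : ℕ → ℕ` with `{R j}` predense below `q` and for every `j` and `l`
there is `i` with `R j ≤ (L l).R m i` and `(L l).c m i ≤ c j`.
Proof: apply `exists_countable_pd` to the set of all `z ∈ S.X` such that for every `l` there is
`i` with `z ≤ (L l).R m i` (dense below `q`, by induction on the finite family), and let `c j` be
the maximum over `l` of the chosen `(L l).c m i`. -/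
theorem exists_fill {ι : Type} [Finite ι] (L : ι → DC U) (hL : ∀ l, S.DV (L l)) (q : U)
    (hq : q ∈ S.X) (m : ℕ) (h : ∀ l, S.Pd (range ((L l).R m)) q) :
    ∃ (R : ℕ → U) (c : ℕ → ℕ), (∀ j, R j ∈ S.X) ∧ S.Pd (range R) q ∧
      ∀ j l, ∃ i, S.le (R j) ((L l).R m i) ∧ (L l).c m i ≤ c j := by
  classical
  have : Fintype ι := Fintype.ofFinite ι
  let D : Set U := {z | z ∈ S.X ∧ ∀ l, ∃ i, S.le z ((L l).R m i)}
  have hD : D ⊆ S.X := fun z hz => hz.1
  have hlow : ∀ d ∈ D, ∀ e ∈ S.X, S.le e d → e ∈ D := by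
    intro d hd e he hed
    refine ⟨he, fun l => ?_⟩
    obtain ⟨i, hi⟩ := hd.2 l
    exact ⟨i, S.trans _ he _ hd.1 _ ((hL l).2.1 m i) hed hi⟩
  have hfin : ∀ s : Finset ι, ∀ w ∈ S.X, S.le w q → ∃ z ∈ S.X, S.le z w ∧
      ∀ l ∈ s, ∃ i, S.le z ((L l).R m i) := by
    intro s
    induction s using Finset.induction_on with
    | empty =>
      intro w hw _
      exact ⟨w, hw, S.refl _ hw, fun l hl => absurd hl (Finset.notMem_empty l)⟩
    | insert a s ha ih =>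
      intro w hw hwq
      obtain ⟨z, hz, hzw, hzs⟩ := ih w hw hwq
      have hzq : S.le z q := S.trans _ hz _ hw _ hq hzw hwq
      obtain ⟨_, ⟨i, rfl⟩, v, hv, hvz, hvi⟩ := h a z hz hzq
      refine ⟨v, hv, S.trans _ hv _ hz _ hw hvz hzw, fun l hl => ?_⟩
      rcases Finset.mem_insert.mp hl with rfl | hl
      · exact ⟨i, hvi⟩
      · obtain ⟨k, hk⟩ := hzs l hl
        exact ⟨k, S.trans _ hv _ hz _ ((hL l).2.1 m k) hvz hk⟩
  have hdense : ∀ w ∈ S.X, S.le w q → ∃ d ∈ D, S.cmp w d := by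
    intro w hw hwq
    obtain ⟨z, hz, hzw, hzs⟩ := hfin Finset.univ w hw hwq
    exact ⟨z, ⟨hz, fun l => hzs l (Finset.mem_univ l)⟩, z, hz, hzw, S.refl _ hz⟩
  obtain ⟨f, hf, hpd⟩ := S.exists_countable_pd q hq D hD hlow hdense
  have hch : ∀ j l, ∃ i, S.le (f j) ((L l).R m i) := fun j l => (hf j).2 l
  choose g hg using hch
  refine ⟨f, fun j => Finset.univ.sup fun l => (L l).c m (g j l), fun j => (hf j).1, hpd, ?_⟩
  intro j l
  exact ⟨g j l, hg j l, Finset.le_sup (f := fun l => (L l).c m (g j l)) (Finset.mem_univ l)⟩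

end Sw

end Pool.Agent.Lib.BPLM
end

section

section

/-!
# The dominating extension: directedness of the classes
-/

set_option autoImplicit false

open Set

namespace Pool.Agent.Lib.BPLM

namespace Sw

variable {U : Type} (S : Sw U)

/-- A condition with stronger old part, the same finite part, and whose deciding conditions refine
those of `d`, is stronger than `d`. -/
theorem dle_of_refine (d d'' : DC U) (hd : S.DV d) (hd'' : S.DV d'') (hp : S.le d''.p d.p)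
    (hs : d''.s = d.s)
    (h : ∀ m j, ∃ i, S.le (d''.R m j) (d.R m i) ∧ d.c m i ≤ d''.c m j) : S.dle d'' d := by
  refine ⟨hp, by rw [hs], ?_, ?_⟩
  · intro m hm hlt
    exact absurd hlt (by rw [hs]; omega)
  · intro m _ j z hz _ hzR w hw hwz
    obtain ⟨i, hi, hc⟩ := h m j
    refine ⟨d.R m i, ⟨i, rfl, hc⟩, w, hw, S.refl _ hw, ?_⟩
    exact S.trans _ hw _ hz _ (hd.2.1 m i) hwz
      (S.trans _ hz _ (hd''.2.1 m j) _ (hd.2.1 m i) hzR hi)

/-- Proof. `p'' ≤ p, p'` with `p'' E_n p` by `S.dir`. For `m, j ≤ n`: `R'' m j ≤ R m j, R' m j`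
with `R'' m j E_n R m j` by `S.dir`, `c'' m j = c m j = c' m j`. The remaining `R'' m j, c'' m j`
(`j > n` if `m ≤ n`; all `j` if `m > n`) enumerate the family given by `exists_fill` for the two
conditions `d, d'` and `q = p''` (for `m ≤ n` put `R'' m (n + 1 + j) := R j`, etc.).
`d'' = (p'', s, R'', c'')`; `d'' ≤ d`: for `m ≥ |s|`, `z ≤ R'' m j` lies below some `R m i` with
`c m i ≤ c'' m j`. -/
theorem dom_dir (n : ℕ) (d d' : DC U) (hd : S.DV d) (hd' : S.DV d') (h : S.dE n d d') :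
    ∃ d'', S.DV d'' ∧ S.dle d'' d ∧ S.dle d'' d' ∧ S.dE n d'' d := by
  obtain ⟨hp, hs, hR⟩ := h
  obtain ⟨q, hq, hqp, hqp', hqc⟩ := S.dir n d.p hd.1 d'.p hd'.1 hp
  -- the initial part
  have hA : ∀ m j, ∃ a ∈ S.X, m ≤ n → j ≤ n →
      S.le a (d.R m j) ∧ S.le a (d'.R m j) ∧ S.cd n a = S.cd n (d.R m j) := by
    intro m j
    by_cases hm : m ≤ n ∧ j ≤ n
    · obtain ⟨z, hz, h1, h2, h3⟩ := S.dir n _ (hd.2.1 m j) _ (hd'.2.1 m j) (hR m j hm.1 hm.2).1
      exact ⟨z, hz, fun _ _ => ⟨h1, h2, h3⟩⟩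
    · exact ⟨q, hq, fun h1 h2 => absurd ⟨h1, h2⟩ hm⟩
  choose A hAX hA using hA
  -- the filling
  have hfill : ∀ m, ∃ (R : ℕ → U) (c : ℕ → ℕ), (∀ j, R j ∈ S.X) ∧ S.Pd (range R) q ∧
      ∀ j (l : Bool), ∃ i, S.le (R j) ((bif l then d else d').R m i) ∧
        (bif l then d else d').c m i ≤ c j := by
    intro m
    refine S.exists_fill (fun l : Bool => bif l then d else d') ?_ q hq m ?_
    · intro l
      cases l
      · exact hd'
      · exact hd
    · intro l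
      cases l
      · exact fun w hw hwq => hd'.2.2 m w hw (S.trans _ hw _ hq _ hd'.1 hwq hqp')
      · exact fun w hw hwq => hd.2.2 m w hw (S.trans _ hw _ hq _ hd.1 hwq hqp)
  choose f g hfX hfPd hfg using hfill
  let R'' : ℕ → ℕ → U := fun m j => if m ≤ n ∧ j ≤ n then A m j else f m (j - (n + 1))
  let c'' : ℕ → ℕ → ℕ := fun m j => if m ≤ n ∧ j ≤ n then d.c m j else g m (j - (n + 1))
  have hR''1 : ∀ m j, m ≤ n → j ≤ n → R'' m j = A m j := fun m j h1 h2 => if_pos ⟨h1, h2⟩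
  have hR''2 : ∀ m j, ¬ (m ≤ n ∧ j ≤ n) → R'' m j = f m (j - (n + 1)) := fun m j h1 => if_neg h1
  have hc''1 : ∀ m j, m ≤ n → j ≤ n → c'' m j = d.c m j := fun m j h1 h2 => if_pos ⟨h1, h2⟩
  have hc''2 : ∀ m j, ¬ (m ≤ n ∧ j ≤ n) → c'' m j = g m (j - (n + 1)) := fun m j h1 => if_neg h1
  have hV : S.DV ⟨q, d.s, R'', c''⟩ := by
    refine ⟨hq, ?_, ?_⟩
    · intro m j
      change R'' m j ∈ S.X
      by_cases hmj : m ≤ n ∧ j ≤ n
      · rw [hR''1 m j hmj.1 hmj.2]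
        exact hAX m j
      · rw [hR''2 m j hmj]
        exact hfX m _
    · intro m w hw hwq
      obtain ⟨x, ⟨i, rfl⟩, hx⟩ := hfPd m w hw hwq
      refine ⟨f m i, ⟨i + (n + 1), ?_⟩, hx⟩
      change R'' m (i + (n + 1)) = f m i
      rw [hR''2 m _ (by omega), Nat.add_sub_cancel]
  refine ⟨⟨q, d.s, R'', c''⟩, hV, ?_, ?_, hqc, rfl, ?_⟩
  · refine S.dle_of_refine d _ hd hV hqp rfl ?_
    intro m j
    change ∃ i, S.le (R'' m j) (d.R m i) ∧ d.c m i ≤ c'' m j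
    by_cases hmj : m ≤ n ∧ j ≤ n
    · refine ⟨j, ?_, ?_⟩
      · rw [hR''1 m j hmj.1 hmj.2]
        exact (hA m j hmj.1 hmj.2).1
      · rw [hc''1 m j hmj.1 hmj.2]
    · rw [hR''2 m j hmj, hc''2 m j hmj]
      exact hfg m (j - (n + 1)) true
  · refine S.dle_of_refine d' _ hd' hV hqp' hs ?_
    intro m j
    change ∃ i, S.le (R'' m j) (d'.R m i) ∧ d'.c m i ≤ c'' m j
    by_cases hmj : m ≤ n ∧ j ≤ n
    · refine ⟨j, ?_, ?_⟩
      · rw [hR''1 m j hmj.1 hmj.2]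
        exact (hA m j hmj.1 hmj.2).2.1
      · rw [hc''1 m j hmj.1 hmj.2, (hR m j hmj.1 hmj.2).2]
    · rw [hR''2 m j hmj, hc''2 m j hmj]
      exact hfg m (j - (n + 1)) false
  · intro m j hm hj
    change S.cd n (R'' m j) = S.cd n (d.R m j) ∧ c'' m j = d.c m j
    rw [hR''1 m j hm hj, hc''1 m j hm hj]
    exact ⟨(hA m j hm hj).2.2, rfl⟩

end Sw

end Pool.Agent.Lib.BPLM
end

section

/-!
# The dominating extension: limits
-/

set_option autoImplicit false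

open Set

namespace Pool.Agent.Lib.BPLM

namespace Sw

variable {U : Type} (S : Sw U)

theorem domLim_fin_ext {κ : Type} [Finite κ] (D : κ → Set U) (hD : ∀ i, D i ⊆ S.X) (q₁ : U)
    (hq₁ : q₁ ∈ S.X) (h : ∀ i, S.Pd (D i) q₁) :
    ∃ q ∈ S.X, S.le q q₁ ∧ ∀ i, ∃ d ∈ D i, S.le q d := by
  classical
  have := Fintype.ofFinite κ
  have key : ∀ s : Finset κ, ∃ q ∈ S.X, S.le q q₁ ∧ ∀ i ∈ s, ∃ d ∈ D i, S.le q d := by
    intro s
    induction s using Finset.induction_on with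
    | empty => exact ⟨q₁, hq₁, S.refl _ hq₁, by simp⟩
    | insert a s _ ih =>
      obtain ⟨q, hq, hle, hs⟩ := ih
      obtain ⟨d, hd, z, hz, hzq, hzd⟩ := h a q hq hle
      refine ⟨z, hz, S.trans _ hz _ hq _ hq₁ hzq hle, ?_⟩
      intro i hi
      rcases Finset.mem_insert.1 hi with rfl | hi
      · exact ⟨d, hd, hzd⟩
      · obtain ⟨d', hd', hqd'⟩ := hs i hi
        exact ⟨d', hd', S.trans _ hz _ hq _ (hD i hd') hzq hqd'⟩
  obtain ⟨q, hq, hle, hs⟩ := key Finset.univ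
  exact ⟨q, hq, hle, fun i => hs i (Finset.mem_univ _)⟩

theorem domLim_dense (a : ℕ → DC U) (d : DC U) (ha : ∀ i, S.DV (a i)) (hd : S.DV d)
    (h : ∀ i, S.dE i (a i) d) (n : ℕ) (r : U) (hr : r ∈ S.X) (hra : ∀ i, n ≤ i → S.le r (a i).p)
    (hrd : S.le r d.p) (m : ℕ) (w : U) (hw : w ∈ S.X) (hwr : S.le w r) :
    ∃ z ∈ S.X, S.le z w ∧ ∃ v, ∀ i, n ≤ i → ∃ j, S.le z ((a i).R m j) ∧ (a i).c m j ≤ v := by
  classical
  obtain ⟨_, ⟨j, rfl⟩, w', hw', hw'w, hw'j⟩ := hd.2.2 m w hw (S.trans _ hw _ hr _ hd.1 hwr hrd)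
  have hx : ∀ N, ∃ x ∈ S.X, max m (max j n) ≤ N →
      (∀ i, N ≤ i → S.le x ((a i).R m j)) ∧ S.cd N x = S.cd N (d.R m j) := by
    intro N
    by_cases hN : max m (max j n) ≤ N
    · obtain ⟨x, hx, h1, _, h3⟩ := S.lim' (fun i => (a i).R m j) (d.R m j)
        (fun i => (ha i).2.1 m j) (hd.2.1 m j) N
        (fun i hi => ((h i).2.2 m j (by omega) (by omega)).1)
      exact ⟨x, hx, fun _ => ⟨h1, h3⟩⟩
    · exact ⟨S.top, S.top_mem, fun h' => absurd h' hN⟩
  choose x hxX hx using hx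
  obtain ⟨N, hN, w2, hw2, hw2w, hw2x⟩ := S.pd_of_approx (d.R m j) (hd.2.1 m j) x hxX
    (max m (max j n)) (fun i hi => (hx i hi).2) w' hw' hw'j
  have hw2r : S.le w2 r := S.trans _ hw2 _ hw _ hr (S.trans _ hw2 _ hw' _ hw hw2w hw'w) hwr
  obtain ⟨z, hz, hzw2, hzD⟩ := S.domLim_fin_ext
    (fun i : Fin N => if n ≤ (i : ℕ) then range ((a i).R m) else {S.top})
    (by
      intro i y hy
      split_ifs at hy
      · obtain ⟨j', rfl⟩ := hy
        exact (ha i).2.1 m j'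
      · rw [hy]
        exact S.top_mem) w2 hw2
    (by
      intro i
      split_ifs with h1
      · intro u hu huw
        exact (ha i).2.2 m u hu (S.trans _ hu _ hw2 _ (ha i).1 huw
          (S.trans _ hw2 _ hr _ (ha i).1 hw2r (hra i h1)))
      · intro u hu _
        exact ⟨S.top, rfl, u, hu, S.refl _ hu, S.le_top _ hu⟩)
  have hch : ∀ i : Fin N, ∃ j', n ≤ (i : ℕ) → S.le z ((a i).R m j') := by
    intro i
    obtain ⟨y, hy, hzy⟩ := hzD i
    split_ifs at hy with h1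
    · obtain ⟨j', rfl⟩ := hy
      exact ⟨j', fun _ => hzy⟩
    · exact ⟨0, fun h' => absurd h' h1⟩
  choose jf hjf using hch
  obtain ⟨B, hB⟩ := (Set.finite_range (fun i : Fin N => (a i).c m (jf i))).bddAbove
  have hB' : ∀ i : Fin N, (a i).c m (jf i) ≤ B := fun i => hB ⟨i, rfl⟩
  refine ⟨z, hz, S.trans _ hz _ hw2 _ hw hzw2 (S.trans _ hw2 _ hw' _ hw hw2w hw'w),
    max (d.c m j) B, ?_⟩
  intro i hi
  by_cases hiN : i < N
  · exact ⟨jf ⟨i, hiN⟩, hjf ⟨i, hiN⟩ hi, le_trans (hB' ⟨i, hiN⟩) (le_max_right _ _)⟩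
  · refine ⟨j, ?_, ?_⟩
    · exact S.trans _ hz _ hw2 _ ((ha i).2.1 m j) hzw2
        (S.trans _ hw2 _ (hxX N) _ ((ha i).2.1 m j) hw2x ((hx N hN).1 i (by omega)))
    · rw [((h i).2.2 m j (by omega) (by omega)).2]
      exact le_max_left _ _

/-- Proof. All `a i` and `d` have the same `s` (`dE`). Let `r ≤ (a i).p` for all `i ≥ n`,
`r ≤ d.p`, `r E_n d.p` (`lim'` of `SwBasic`). For `m, j ≤ n` let `R* m j ≤ (a i).R m j` for all
`i ≥ n`, `R* m j ≤ d.R m j`, `R* m j E_n d.R m j` (`lim'`, note that `(a i).R m j E_i d.R m j`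
for `i ≥ n ≥ m, j`), `c* m j = d.c m j`. The rest (`j > n` if `m ≤ n`, all `j` if `m > n`)
enumerates a countable set predense below `r` (by `exists_countable_pd`) of elements of
`Z_m = {z : ∃ v, ∀ i ≥ n, ∃ j, z ≤ (a i).R m j ∧ (a i).c m j ≤ v}`, with `c*` a witness `v`.

`Z_m` is closed downwards, and dense below `r`: let `w ≤ r`. As `w ≤ d.p`, `w` is compatible
with some `d.R m j`; take `w' ≤ w, d.R m j`. For `N ≥ max m (max j n)` let `x N` be a lower bound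
of the `(a i).R m j`, `i ≥ N`, with `x N E_N d.R m j` (`lim`). By `pd_of_approx` there is
`N ≥ max m (max j n)` and `w'' ≤ w', x N`. Then `w'' ≤ (a i).R m j` for all `i ≥ N`, where
`(a i).c m j = d.c m j`. For the finitely many `i` with `n ≤ i < N` extend `w''` successively
below some `(a i).R m j_i` (`{(a i).R m j}_j` is predense below `(a i).p ≥ r`). Let `v` be the
maximum of `d.c m j` and the `(a i).c m j_i`.

Result `(r, s, R*, c*)`. -/
theorem dom_lim (a : ℕ → DC U) (d : DC U) (ha : ∀ i, S.DV (a i)) (hd : S.DV d)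
    (h : ∀ i, S.dE i (a i) d) (n : ℕ) :
    ∃ r, S.DV r ∧ (∀ i, n ≤ i → S.dle r (a i)) ∧ S.dE n r d := by
  classical
  obtain ⟨r, hr, hra, hrd, hrn⟩ := S.lim' (fun i => (a i).p) d.p (fun i => (ha i).1) hd.1 n
    (fun i _ => (h i).1)
  have hrow : ∀ m, ∃ (R : ℕ → U) (c : ℕ → ℕ), (∀ j, R j ∈ S.X) ∧ S.Pd (range R) r ∧
      (∀ i, n ≤ i → ∀ j, ∃ j', S.le (R j) ((a i).R m j') ∧ (a i).c m j' ≤ c j) ∧
      (m ≤ n → ∀ j, j ≤ n → S.cd n (R j) = S.cd n (d.R m j) ∧ c j = d.c m j) := by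
    intro m
    let Z : Set U := {z | z ∈ S.X ∧ ∃ v, ∀ i, n ≤ i → ∃ j, S.le z ((a i).R m j) ∧
      (a i).c m j ≤ v}
    obtain ⟨Rf, hRf, hRfP⟩ := S.exists_countable_pd r hr Z (fun z hz => hz.1)
      (by
        intro z hz e he hez
        obtain ⟨hz0, v, hv⟩ := hz
        refine ⟨he, v, fun i hi => ?_⟩
        obtain ⟨j, hj1, hj2⟩ := hv i hi
        exact ⟨j, S.trans _ he _ hz0 _ ((ha i).2.1 m j) hez hj1, hj2⟩)
      (by
        intro w hw hwr
        obtain ⟨z, hz, hzw, v, hv⟩ := S.domLim_dense a d ha hd h n r hr hra hrd m w hw hwr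
        exact ⟨z, ⟨hz, v, hv⟩, z, hz, hzw, S.refl _ hz⟩)
    have hcf : ∀ j, ∃ v, ∀ i, n ≤ i → ∃ j', S.le (Rf j) ((a i).R m j') ∧ (a i).c m j' ≤ v :=
      fun j => (hRf j).2
    choose cf hcf using hcf
    by_cases hmn : m ≤ n
    · have hx : ∀ j, ∃ x, j ≤ n → x ∈ S.X ∧ (∀ i, n ≤ i → S.le x ((a i).R m j)) ∧
          S.cd n x = S.cd n (d.R m j) := by
        intro j
        by_cases hj : j ≤ n
        · obtain ⟨x, hx, h1, _, h3⟩ := S.lim' (fun i => (a i).R m j) (d.R m j)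
            (fun i => (ha i).2.1 m j) (hd.2.1 m j) n
            (fun i hi => ((h i).2.2 m j (by omega) (by omega)).1)
          exact ⟨x, fun _ => ⟨hx, h1, h3⟩⟩
        · exact ⟨S.top, fun h' => absurd h' hj⟩
      choose x hx using hx
      refine ⟨fun j => if j ≤ n then x j else Rf (j - (n + 1)),
        fun j => if j ≤ n then d.c m j else cf (j - (n + 1)), ?_, ?_, ?_, ?_⟩
      · intro j
        by_cases hj : j ≤ n
        · simp only [hj, if_true]
          exact (hx j hj).1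
        · simp only [hj, if_false]
          exact (hRf _).1
      · intro w hw hwq
        obtain ⟨_, ⟨i, rfl⟩, hc⟩ := hRfP w hw hwq
        refine ⟨Rf i, ⟨i + (n + 1), ?_⟩, hc⟩
        have h1 : ¬ (i + (n + 1) ≤ n) := by omega
        simp only [h1, if_false, Nat.add_sub_cancel]
      · intro i hi j
        by_cases hj : j ≤ n
        · simp only [hj, if_true]
          refine ⟨j, (hx j hj).2.1 i hi, ?_⟩
          rw [((h i).2.2 m j (by omega) (by omega)).2]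
        · simp only [hj, if_false]
          exact hcf _ i hi
      · intro _ j hj
        simp only [hj, if_true]
        exact ⟨(hx j hj).2.2, trivial⟩
    · exact ⟨Rf, cf, fun j => (hRf j).1, hRfP, fun i hi j => hcf j i hi,
        fun h' => absurd h' hmn⟩
  choose R c hRX hRP hRL hRn using hrow
  refine ⟨⟨r, d.s, R, c⟩, ⟨hr, hRX, hRP⟩, ?_, hrn, rfl, fun m j hm hj => hRn m hm j hj⟩
  intro i hi
  have hs : (a i).s = d.s := (h i).2.1
  refine ⟨hra i hi, by rw [hs], ?_, ?_⟩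
  · intro m h1 h2
    rw [hs] at h1
    exact absurd (show m < d.s.length from h2) (by omega)
  · intro m _ j z hz _ hzR w hw hwz
    obtain ⟨j', hj1, hj2⟩ := hRL m i hi j
    refine ⟨(a i).R m j', ⟨j', rfl, hj2⟩, w, hw, S.refl _ hw, ?_⟩
    have h1 : S.le w (R m j) := S.trans _ hw _ hz _ (hRX m j) hwz hzR
    exact S.trans _ hw _ (hRX m j) _ ((ha i).2.1 m j') h1 hj1

end Sw

end Pool.Agent.Lib.BPLM
end

section

/-!
# The dominating extension: property (W)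
-/

set_option autoImplicit false

open Set

namespace Pool.Agent.Lib.BPLM

namespace Sw

variable {U : Type} (S : Sw U)

theorem domW_fin_ext {κ : Type} [Finite κ] (D : κ → Set U) (hD : ∀ i, D i ⊆ S.X) (q₁ : U)
    (hq₁ : q₁ ∈ S.X) (h : ∀ i, S.Pd (D i) q₁) :
    ∃ q ∈ S.X, S.le q q₁ ∧ ∀ i, ∃ d ∈ D i, S.le q d := by
  classical
  have := Fintype.ofFinite κ
  have key : ∀ s : Finset κ, ∃ q ∈ S.X, S.le q q₁ ∧ ∀ i ∈ s, ∃ d ∈ D i, S.le q d := by
    intro s
    induction s using Finset.induction_on with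
    | empty => exact ⟨q₁, hq₁, S.refl _ hq₁, by simp⟩
    | insert a s _ ih =>
      obtain ⟨q, hq, hle, hs⟩ := ih
      obtain ⟨d, hd, z, hz, hzq, hzd⟩ := h a q hq hle
      refine ⟨z, hz, S.trans _ hz _ hq _ hq₁ hzq hle, ?_⟩
      intro i hi
      rcases Finset.mem_insert.1 hi with rfl | hi
      · exact ⟨d, hd, hzd⟩
      · obtain ⟨d', hd', hqd'⟩ := hs i hi
        exact ⟨d', hd', S.trans _ hz _ hq _ (hD i hd') hzq hqd'⟩
  obtain ⟨q, hq, hle, hs⟩ := key Finset.univ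
  exact ⟨q, hq, hle, fun i => hs i (Finset.mem_univ _)⟩

theorem domW_row {ι : Type} [Finite ι] (L : ι → DC U) (d₁ : DC U) (hL : ∀ l, S.DV (L l))
    (hd₁ : S.DV d₁) (h : ∀ l, S.dle d₁ (L l)) (q : U) (hq : q ∈ S.X) (hqle : S.le q d₁.p)
    (m : ℕ) :
    ∃ (R : ℕ → U) (c : ℕ → ℕ) (il : ℕ → ι → ℕ), (∀ j, R j ∈ S.X) ∧ S.Pd (range R) q ∧
      ∀ j, (d₁.s.length ≤ m → (∃ i, S.le (R j) (d₁.R m i) ∧ d₁.c m i ≤ c j) ∧
        (∀ l, (L l).c m (il j l) ≤ c j) ∧
        WP S.X S.le S.cd (fun l => (L l).R m (il j l)) (R j)) ∧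
        (m < d₁.s.length → R j = S.top) := by
  classical
  by_cases hm : d₁.s.length ≤ m
  · let Y : Set U := {y | y ∈ S.X ∧ ∃ (i : ℕ) (il : ι → ℕ), S.le y (d₁.R m i) ∧
      (∀ l, (L l).c m (il l) ≤ d₁.c m i) ∧ WP S.X S.le S.cd (fun l => (L l).R m (il l)) y}
    let D : Set U := {z | z ∈ S.X ∧ ∃ y ∈ Y, S.le z y}
    have hdense : ∀ w ∈ S.X, S.le w q → ∃ d ∈ D, S.cmp w d := by
      intro w hw hwq
      have hw1 : S.le w d₁.p := S.trans _ hw _ hq _ hd₁.1 hwq hqle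
      obtain ⟨_, ⟨i, rfl⟩, w', hw', hw'w, hw'i⟩ := hd₁.2.2 m w hw hw1
      have hw'p : S.le w' d₁.p := S.trans _ hw' _ hw _ hd₁.1 hw'w hw1
      obtain ⟨w2, hw2, hw2le, hw2d⟩ := S.domW_fin_ext
        (fun l : ι => {x | ∃ i', x = (L l).R m i' ∧ (L l).c m i' ≤ d₁.c m i})
        (by
          intro l x hx
          obtain ⟨i', rfl, _⟩ := hx
          exact (hL l).2.1 m i') w' hw'
        (fun l => (h l).2.2.2 m hm i w' hw' hw'p hw'i)
      have hch : ∀ l, ∃ i', (L l).c m i' ≤ d₁.c m i ∧ S.le w2 ((L l).R m i') := by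
        intro l
        obtain ⟨_, ⟨i', rfl, hc⟩, hle⟩ := hw2d l
        exact ⟨i', hc, hle⟩
      choose il hil1 hil2 using hch
      obtain ⟨y, hy, hyle, hyW⟩ := S.W ι (fun l => (L l).R m (il l)) w2
        (fun l => (hL l).2.1 m _) hw2 hil2
      have hyw' : S.le y w' := S.trans _ hy _ hw2 _ hw' hyle hw2le
      have hyY : y ∈ Y := ⟨hy, i, il, S.trans _ hy _ hw' _ (hd₁.2.1 m i) hyw' hw'i, hil1, hyW⟩
      exact ⟨y, ⟨hy, y, hyY, S.refl _ hy⟩, y, hy, S.trans _ hy _ hw' _ hw hyw' hw'w,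
        S.refl _ hy⟩
    obtain ⟨f, hf, hfP⟩ := S.exists_countable_pd q hq D (fun z hz => hz.1)
      (by
        intro d hd e he hed
        obtain ⟨hd0, y, hy, hdy⟩ := hd
        exact ⟨he, y, hy, S.trans _ he _ hd0 _ hy.1 hed hdy⟩) hdense
    have hch : ∀ j, ∃ (y : U) (i : ℕ) (il : ι → ℕ), y ∈ S.X ∧ S.le (f j) y ∧
        S.le y (d₁.R m i) ∧
        (∀ l, (L l).c m (il l) ≤ d₁.c m i) ∧
        WP S.X S.le S.cd (fun l => (L l).R m (il l)) y := by
      intro j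
      obtain ⟨_, y, ⟨hy, i, il, h1, h2, h3⟩, hdy⟩ := hf j
      exact ⟨y, i, il, hy, hdy, h1, h2, h3⟩
    choose R i1 il hR hfR h1 h2 h3 using hch
    refine ⟨R, fun j => d₁.c m (i1 j), il, hR, ?_, ?_⟩
    · intro w hw hwq
      obtain ⟨_, ⟨j, rfl⟩, hc⟩ := hfP w hw hwq
      exact ⟨R j, ⟨j, rfl⟩, S.cmp_mono hw hw (hf j).1 (hR j) (S.refl _ hw) (hfR j) hc⟩
    · intro j
      exact ⟨fun _ => ⟨⟨i1 j, h1 j, le_rfl⟩, h2 j, h3 j⟩, fun hlt => absurd hlt (by omega)⟩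
  · refine ⟨fun _ => S.top, fun _ => 0, fun _ _ => 0, fun _ => S.top_mem, ?_, ?_⟩
    · intro w hw _
      exact ⟨S.top, ⟨0, rfl⟩, w, hw, S.refl _ hw, S.le_top _ hw⟩
    · intro j
      exact ⟨fun h' => absurd h' hm, fun _ => rfl⟩

theorem domW_bound {κ : Type} [Finite κ] (f : κ → ℕ) : ∃ B, ∀ i, f i ≤ B := by
  obtain ⟨B, hB⟩ := (Set.finite_range f).bddAbove
  exact ⟨B, fun i => hB ⟨i, rfl⟩⟩

/-- Proof. `d₁ = (q₁, s₁, R₁, c₁)`, `L l = (p_l, s_l, R_l, c_l)`.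
Extend `q₁` finitely often to `q ≤ q₁` such that for every `l` and `m` with
`|s_l| ≤ m < |s₁|` there is `j = j_{lm}` with `q ≤ R_l m j` and `c_l m j ≤ s₁[m]`.
Apply `S.W` to the finite list consisting of all `p_l` and all `R_l m j_{lm}` and to `q`: get
`q* ≤ q` with (WP) (index type e.g. `ι ⊕ ι × Fin s₁.length`, dummy entries `S.top`).
For `m ≥ |s₁|` the set `Z_m` of all `z ∈ S.X` such that `z ≤ q*` ∧ there are `i₁` and `i_l`
(for every `l`) with `z ≤ R₁ m i₁`, `z ≤ R_l m i_l`, `c_l m i_l ≤ c₁ m i₁`, is closed downwards and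
every `w ≤ q*` has an element of `Z_m` below it; by `S.W` even one with (WP) for the list
`(R_l m i_l)_l`; let `Y_m` be the set of the elements `y` of `Z_m` which have (WP) for some such
list. Choose a countable family `R* m j ∈ Y_m`, predense below `q*`, with `c* m j = c₁ m i₁`.
(To apply `exists_countable_pd` use `D` = the set of the elements of `S.X` which lie below an
element of `Y_m`, then replace every chosen element by an element of `Y_m` above it.)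
For `m < |s₁|`: `R* m j = S.top`, `c* m j = 0`.
`y = (q*, s₁, R*, c*)`; `y ≤ d₁` is easy.

(WP): given `n` take `k` larger than `n`, `|s₁|`, all `j_{lm}`, all `i_l` used for `R* m j` with
`m, j ≤ n`, and the `k`'s given by (WP) of `q*` and of the `R* m j` (`m, j ≤ n`) for `n`
(use `Sw.WP.ge`). Let `L'` be given. By (WP) there is `q' ≤ p'_l`, `q' ≤ R'_l m j_{lm}`,
`q' E_n q*`; for `|s₁| ≤ m ≤ n` and `j ≤ n` there is `r' m j ≤ R'_l m i_l` for all `l`, with
`r' m j E_n R* m j`. Put `R' m j = r' m j`, `c' m j = c* m j` for these, for `m < |s₁|` again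
`S.top` and `0`, and for the remaining `m, j` fill up by `exists_fill` for the family
`L'` and `q'`. Then `(q', s₁, R', c')` is as required. -/
theorem dom_W {ι : Type} [Finite ι] (L : ι → DC U) (d₁ : DC U) (hL : ∀ l, S.DV (L l))
    (hd₁ : S.DV d₁) (h : ∀ l, S.dle d₁ (L l)) :
    ∃ y, S.DV y ∧ S.dle y d₁ ∧ ∀ n, ∃ k, ∀ L' : ι → DC U, (∀ l, S.DV (L' l)) →
      (∀ l, S.dE k (L' l) (L l)) → ∃ y', S.DV y' ∧ (∀ l, S.dle y' (L' l)) ∧ S.dE n y' y := by
  classical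
  -- the first extension
  let D0 : ι × Fin d₁.s.length → Set U := fun a =>
    if (L a.1).s.length ≤ (a.2 : ℕ) then
      {x | ∃ j, x = (L a.1).R a.2 j ∧ (L a.1).c a.2 j ≤ d₁.s[(a.2 : ℕ)]} else {S.top}
  obtain ⟨q, hq, hqle, hqD⟩ := S.domW_fin_ext D0
    (by
      rintro ⟨l, m⟩ x hx
      simp only [D0] at hx
      split_ifs at hx with h1
      · obtain ⟨j, rfl, _⟩ := hx
        exact (hL l).2.1 m j
      · rw [hx]
        exact S.top_mem) d₁.p hd₁.1
    (by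
      rintro ⟨l, m⟩
      simp only [D0]
      split_ifs with h1
      · exact (h l).2.2.1 m h1 m.2
      · intro w hw _
        exact ⟨S.top, rfl, w, hw, S.refl _ hw, S.le_top _ hw⟩)
  have hch : ∀ (l : ι) (m : Fin d₁.s.length), ∃ j, (L l).s.length ≤ (m : ℕ) →
      S.le q ((L l).R m j) ∧ (L l).c m j ≤ d₁.s[(m : ℕ)] := by
    intro l m
    obtain ⟨d, hd, hle⟩ := hqD (l, m)
    simp only [D0] at hd
    split_ifs at hd with h1
    · obtain ⟨j, rfl, hc⟩ := hd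
      exact ⟨j, fun _ => ⟨hle, hc⟩⟩
    · exact ⟨0, fun h' => absurd h' h1⟩
  choose jj hjj using hch
  let K : (ι → DC U) → ι ⊕ (ι × Fin d₁.s.length) → U := fun M a =>
    match a with
    | .inl l => (M l).p
    | .inr a => if (L a.1).s.length ≤ (a.2 : ℕ) then (M a.1).R a.2 (jj a.1 a.2) else S.top
  have hKX : ∀ M : ι → DC U, (∀ l, S.DV (M l)) → ∀ a, K M a ∈ S.X := by
    intro M hM a
    match a with
    | .inl l => exact (hM l).1
    | .inr (l, m) =>
      simp only [K]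
      split_ifs
      · exact (hM l).2.1 _ _
      · exact S.top_mem
  obtain ⟨qs, hqs, hqsle, hqsW⟩ := S.W _ (K L) q (hKX L hL) hq (by
    intro a
    match a with
    | .inl l =>
      exact S.trans _ hq _ hd₁.1 _ (hL l).1 hqle (h l).1
    | .inr (l, m) =>
      simp only [K]
      split_ifs with h1
      · exact (hjj l m h1).1
      · exact S.le_top _ hq)
  have hqsp : S.le qs d₁.p := S.trans _ hqs _ hq _ hd₁.1 hqsle hqle
  choose Rs cs il hRsX hRsP hRs using fun m => S.domW_row L d₁ hL hd₁ h qs hqs hqsp m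
  refine ⟨⟨qs, d₁.s, Rs, cs⟩, ⟨hqs, hRsX, hRsP⟩, ⟨hqsp, List.prefix_refl _, ?_, ?_⟩, ?_⟩
  · intro m h1 h2
    exact absurd (show m < d₁.s.length from h2) (by omega)
  · intro m hm j z hz hzq hzR w hw hwz
    obtain ⟨⟨i, hi1, hi2⟩, _, _⟩ := (hRs m j).1 hm
    refine ⟨d₁.R m i, ⟨i, rfl, hi2⟩, w, hw, S.refl _ hw, ?_⟩
    have h1 : S.le w (Rs m j) := S.trans _ hw _ hz _ (hRsX m j) hwz hzR
    exact S.trans _ hw _ (hRsX m j) _ (hd₁.2.1 m i) h1 hi1
  intro n
  obtain ⟨kq, hkq⟩ := WP.ge (hKX L hL) hqsW n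
  have hk0 : ∀ m j, ∃ k0, d₁.s.length ≤ m → ∀ k, k0 ≤ k → ∀ L' : ι → U, (∀ i, L' i ∈ S.X) →
      (∀ i, S.cd k (L' i) = S.cd k ((L i).R m (il m j i))) →
      ∃ y' ∈ S.X, (∀ i, S.le y' (L' i)) ∧ S.cd n y' = S.cd n (Rs m j) := by
    intro m j
    by_cases hm : d₁.s.length ≤ m
    · obtain ⟨k0, hk0⟩ := WP.ge (fun l => (hL l).2.1 m _) ((hRs m j).1 hm).2.2 n
      exact ⟨k0, fun _ => hk0⟩
    · exact ⟨0, fun h' => absurd h' hm⟩
  choose k0 hk0 using hk0
  obtain ⟨B1, hB1⟩ := domW_bound (fun a : ι × Fin d₁.s.length => jj a.1 a.2)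
  obtain ⟨B2, hB2⟩ := domW_bound
    (fun a : Fin (n + 1) × Fin (n + 1) × ι => il a.1 a.2.1 a.2.2)
  obtain ⟨B3, hB3⟩ := domW_bound (fun a : Fin (n + 1) × Fin (n + 1) => k0 a.1 a.2)
  have hB2' : ∀ m j l, m ≤ n → j ≤ n → il m j l ≤ B2 := fun m j l hm hj =>
    hB2 (⟨m, by omega⟩, ⟨j, by omega⟩, l)
  have hB3' : ∀ m j, m ≤ n → j ≤ n → k0 m j ≤ B3 := fun m j hm hj =>
    hB3 (⟨m, by omega⟩, ⟨j, by omega⟩)
  refine ⟨n + d₁.s.length + kq + B1 + B2 + B3, ?_⟩
  intro L' hL' hE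
  set k := n + d₁.s.length + kq + B1 + B2 + B3 with hk
  -- the new old-condition
  obtain ⟨q', hq', hq'le, hq'n⟩ := hkq k (by omega) (K L') (hKX L' hL') (by
    intro a
    match a with
    | .inl l => exact (hE l).1
    | .inr (l, m) =>
      simp only [K]
      split_ifs with h1
      · have h2 := hB1 (l, m)
        have h3 := m.2
        exact ((hE l).2.2 m (jj l m) (by omega) (by simp only at h2; omega)).1
      · rfl)
  have hq'p : ∀ l, S.le q' (L' l).p := fun l => hq'le (.inl l)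
  have hq'R : ∀ l (m : ℕ) (hm : m < d₁.s.length), (L l).s.length ≤ m →
      S.le q' ((L' l).R m (jj l ⟨m, hm⟩)) := by
    intro l m hm h1
    have h2 := hq'le (.inr (l, ⟨m, hm⟩))
    simp only [K] at h2
    rw [if_pos h1] at h2
    exact h2
  -- rows
  have hrow : ∀ m, ∃ (R : ℕ → U) (c : ℕ → ℕ), (∀ j, R j ∈ S.X) ∧ S.Pd (range R) q' ∧
      (d₁.s.length ≤ m → ∀ j l, ∃ i, S.le (R j) ((L' l).R m i) ∧ (L' l).c m i ≤ c j) ∧
      (m ≤ n → ∀ j, j ≤ n → S.cd n (R j) = S.cd n (Rs m j) ∧ c j = cs m j) := by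
    intro m
    by_cases hm : d₁.s.length ≤ m
    · obtain ⟨Rf, cf, hRf, hRfP, hRfL⟩ := S.exists_fill L' hL' q' hq' m (by
        intro l w hw hwq
        exact (hL' l).2.2 m w hw (S.trans _ hw _ hq' _ (hL' l).1 hwq (hq'p l)))
      by_cases hmn : m ≤ n
      · have hr : ∀ j, ∃ r, j ≤ n → r ∈ S.X ∧ (∀ l, S.le r ((L' l).R m (il m j l))) ∧
            S.cd n r = S.cd n (Rs m j) := by
          intro j
          by_cases hj : j ≤ n
          · obtain ⟨r, hr, hr1, hr2⟩ := hk0 m j hm k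
              (by have := hB3' m j hmn hj; omega)
              (fun l => (L' l).R m (il m j l)) (fun l => (hL' l).2.1 m _) (by
                intro l
                have := hB2' m j l hmn hj
                exact ((hE l).2.2 m (il m j l) (by omega) (by omega)).1)
            exact ⟨r, fun _ => ⟨hr, hr1, hr2⟩⟩
          · exact ⟨S.top, fun h' => absurd h' hj⟩
        choose r hr using hr
        refine ⟨fun j => if j ≤ n then r j else Rf (j - (n + 1)),
          fun j => if j ≤ n then cs m j else cf (j - (n + 1)), ?_, ?_, ?_, ?_⟩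
        · intro j
          by_cases hj : j ≤ n
          · simp only [hj, if_true]
            exact (hr j hj).1
          · simp only [hj, if_false]
            exact hRf _
        · intro w hw hwq
          obtain ⟨_, ⟨i, rfl⟩, hc⟩ := hRfP w hw hwq
          refine ⟨Rf i, ⟨i + (n + 1), ?_⟩, hc⟩
          have h1 : ¬ (i + (n + 1) ≤ n) := by omega
          simp only [h1, if_false, Nat.add_sub_cancel]
        · intro _ j l
          by_cases hj : j ≤ n
          · simp only [hj, if_true]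
            refine ⟨il m j l, (hr j hj).2.1 l, ?_⟩
            have h1 := hB2' m j l hmn hj
            rw [((hE l).2.2 m (il m j l) (by omega) (by omega)).2]
            exact ((hRs m j).1 hm).2.1 l
          · simp only [hj, if_false]
            exact hRfL _ l
        · intro _ j hj
          simp only [hj, if_true]
          exact ⟨(hr j hj).2.2, trivial⟩
      · exact ⟨Rf, cf, hRf, hRfP, fun _ => hRfL, fun h' => absurd h' hmn⟩
    · refine ⟨fun _ => S.top, cs m, fun _ => S.top_mem, ?_, fun h' => absurd h' hm, ?_⟩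
      · intro w hw _
        exact ⟨S.top, ⟨0, rfl⟩, w, hw, S.refl _ hw, S.le_top _ hw⟩
      · intro _ j _
        refine ⟨?_, rfl⟩
        rw [(hRs m j).2 (by omega)]
  choose R' c' hR'X hR'P hR'L hR'n using hrow
  refine ⟨⟨q', d₁.s, R', c'⟩, ⟨hq', hR'X, hR'P⟩, ?_, ⟨hq'n, rfl, fun m j hm hj =>
    hR'n m hm j hj⟩⟩
  intro l
  have hs : (L' l).s = (L l).s := (hE l).2.1
  refine ⟨hq'p l, by rw [hs]; exact (h l).2.1, ?_, ?_⟩
  · intro m h1 h2 w hw hwq
    have h2' : m < d₁.s.length := h2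
    have h1' : (L l).s.length ≤ m := by rw [← hs]; exact h1
    refine ⟨(L' l).R m (jj l ⟨m, h2'⟩), ⟨jj l ⟨m, h2'⟩, rfl, ?_⟩, w, hw, S.refl _ hw, ?_⟩
    · have h3 := hB1 (l, ⟨m, h2'⟩)
      simp only at h3
      rw [((hE l).2.2 m (jj l ⟨m, h2'⟩) (by omega) (by omega)).2]
      exact (hjj l ⟨m, h2'⟩ h1').2
    · exact S.trans _ hw _ hq' _ ((hL' l).2.1 m _) hwq (hq'R l m h2' h1')
  · intro m hm j z hz _ hzR w hw hwz
    obtain ⟨i, hi1, hi2⟩ := hR'L m hm j l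
    refine ⟨(L' l).R m i, ⟨i, rfl, hi2⟩, w, hw, S.refl _ hw, ?_⟩
    have h1 : S.le w (R' m j) := S.trans _ hw _ hz _ (hR'X m j) hwz hzR
    exact S.trans _ hw _ (hR'X m j) _ ((hL' l).2.1 m i) h1 hi1

end Sw

end Pool.Agent.Lib.BPLM
end

section

/-!
# The dominating extension of a sweet preorder
-/

set_option autoImplicit false

open Set

namespace Pool.Agent.Lib.BPLM

namespace Sw

variable {U : Type}

/-- the underlying set of the dominating extension -/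
def SwDomX (S : Sw U) : Set (U ⊕ DC U) := {a | (∃ x ∈ S.X, a = .inl x) ∨ ∃ d, S.DV d ∧ a = .inr d}

/-- the codes of the dominating extension -/
def SwDomCd (S : Sw U) (n : ℕ) (a : U ⊕ DC U) : ℕ :=
  match a with
    | .inl x => Nat.pair 0 (S.cd n x)
    | .inr d => Nat.pair 1 (S.dcode n d)

theorem SwDom_DV (S : Sw U) (a : U ⊕ DC U) (ha : a ∈ S.SwDomX) : S.DV (S.dι a) := by
  rcases ha with ⟨x, hx, rfl⟩ | ⟨d, hd, rfl⟩
  · exact S.DV_inl x hx
  · exact hd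

theorem SwDom_inl_mem (S : Sw U) {x : U} : (Sum.inl x : U ⊕ DC U) ∈ S.SwDomX ↔ x ∈ S.X := by
  constructor
  · rintro (⟨y, hy, h⟩ | ⟨d, _, h⟩)
    · cases h; exact hy
    · cases h
  · intro h
    exact Or.inl ⟨x, h, rfl⟩

theorem SwDom_inr_mem (S : Sw U) {d : DC U} : (Sum.inr d : U ⊕ DC U) ∈ S.SwDomX ↔ S.DV d := by
  constructor
  · rintro (⟨y, hy, h⟩ | ⟨d', hd, h⟩)
    · cases h
    · cases h; exact hd
  · intro h
    exact Or.inr ⟨d, h, rfl⟩

theorem SwDom_pair_ne (a b : ℕ) : Nat.pair 0 a ≠ Nat.pair 1 b := by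
  intro h
  have := congrArg (fun n => (Nat.unpair n).1) h
  simp at this

theorem SwDomCd_inl_inl (S : Sw U) (n : ℕ) (x y : U) :
    S.SwDomCd n (.inl x) = S.SwDomCd n (.inl y) ↔ S.cd n x = S.cd n y := by
  show Nat.pair 0 (S.cd n x) = Nat.pair 0 (S.cd n y) ↔ _
  rw [Nat.pair_eq_pair]
  simp

theorem SwDomCd_inr_inr (S : Sw U) (n : ℕ) (x y : DC U) :
    S.SwDomCd n (.inr x) = S.SwDomCd n (.inr y) ↔ S.dE n x y := by
  show Nat.pair 1 (S.dcode n x) = Nat.pair 1 (S.dcode n y) ↔ _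
  rw [Nat.pair_eq_pair, S.dcode_eq_iff]
  simp

theorem SwDomCd_inl_inr (S : Sw U) (n m : ℕ) (x : U) (y : DC U) :
    S.SwDomCd n (.inl x) ≠ S.SwDomCd m (.inr y) := SwDom_pair_ne _ _

theorem SwDom_dE_of_cd (S : Sw U) (n : ℕ) (a b : U ⊕ DC U)
    (h : S.SwDomCd n a = S.SwDomCd n b) : S.dE n (S.dι a) (S.dι b) := by
  rcases a with x | d <;> rcases b with y | e
  · rw [SwDomCd_inl_inl] at h
    exact ⟨h, rfl, fun _ _ _ _ => ⟨rfl, rfl⟩⟩
  · exact absurd h (SwDomCd_inl_inr S n n x e)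
  · exact absurd h.symm (SwDomCd_inl_inr S n n y d)
  · exact (SwDomCd_inr_inr S n d e).1 h

theorem SwDom_sep (S : Sw U) (x : U ⊕ DC U) (hx : x ∈ S.SwDomX) (y : U ⊕ DC U)
    (hy : y ∈ S.SwDomX)
    (h : ∀ z ∈ S.SwDomX, S.dles (S.dι z) (S.dι x) →
      ∃ w ∈ S.SwDomX, S.dles (S.dι w) (S.dι z) ∧ S.dles (S.dι w) (S.dι y)) :
    S.dles (S.dι x) (S.dι y) := by
  intro d hd hdx
  obtain ⟨w, hw, h1, h2⟩ := h (.inr d) (S.SwDom_inr_mem.2 hd)
    (S.dles_of_dle _ _ hd (S.SwDom_DV x hx) hdx)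
  have hwV := S.SwDom_DV w hw
  obtain ⟨d', hd', h3, h4⟩ := h1 (S.dι w) hwV (S.dle_refl _ hwV)
  obtain ⟨d'', hd'', h5, h6⟩ := h2 d' hd' h3
  exact ⟨d'', hd'', S.dle_trans d d' d'' hd hd' hd'' h5 h4, h6⟩

theorem SwDom_mono (S : Sw U) (n : ℕ) (x : U ⊕ DC U) (hx : x ∈ S.SwDomX) (y : U ⊕ DC U)
    (hy : y ∈ S.SwDomX) (h : S.SwDomCd (n + 1) x = S.SwDomCd (n + 1) y) :
    S.SwDomCd n x = S.SwDomCd n y := by
  rcases x with x | d <;> rcases y with y | e
  · rw [SwDomCd_inl_inl] at h ⊢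
    exact S.mono n x (S.SwDom_inl_mem.1 hx) y (S.SwDom_inl_mem.1 hy) h
  · exact absurd h (SwDomCd_inl_inr S _ _ x e)
  · exact absurd h.symm (SwDomCd_inl_inr S _ _ y d)
  · rw [SwDomCd_inr_inr] at h ⊢
    have hd := S.SwDom_inr_mem.1 hx
    have he := S.SwDom_inr_mem.1 hy
    refine ⟨S.mono n _ hd.1 _ he.1 h.1, h.2.1, fun m j hm hj => ?_⟩
    obtain ⟨h1, h2⟩ := h.2.2 m j (by omega) (by omega)
    exact ⟨S.mono n _ (hd.2.1 m j) _ (he.2.1 m j) h1, h2⟩

theorem SwDom_dir (S : Sw U) (n : ℕ) (x : U ⊕ DC U) (hx : x ∈ S.SwDomX) (y : U ⊕ DC U)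
    (hy : y ∈ S.SwDomX) (h : S.SwDomCd n x = S.SwDomCd n y) :
    ∃ z ∈ S.SwDomX, S.dles (S.dι z) (S.dι x) ∧ S.dles (S.dι z) (S.dι y) ∧
      S.SwDomCd n z = S.SwDomCd n x := by
  rcases x with x | d <;> rcases y with y | e
  · rw [SwDomCd_inl_inl] at h
    rw [SwDom_inl_mem] at hx hy
    obtain ⟨z, hz, h1, h2, h3⟩ := S.dir n x hx y hy h
    exact ⟨.inl z, S.SwDom_inl_mem.2 hz, (S.dles_inl_iff z x hz hx).2 h1,
      (S.dles_inl_iff z y hz hy).2 h2, (SwDomCd_inl_inl S n z x).2 h3⟩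
  · exact absurd h (SwDomCd_inl_inr S _ _ x e)
  · exact absurd h.symm (SwDomCd_inl_inr S _ _ y d)
  · rw [SwDomCd_inr_inr] at h
    rw [SwDom_inr_mem] at hx hy
    obtain ⟨z, hz, h1, h2, h3⟩ := S.dom_dir n d e hx hy h
    exact ⟨.inr z, S.SwDom_inr_mem.2 hz, S.dles_of_dle _ _ hz hx h1,
      S.dles_of_dle _ _ hz hy h2, (SwDomCd_inr_inr S n z d).2 h3⟩

theorem SwDom_lim (S : Sw U) (x : ℕ → U ⊕ DC U) (y : U ⊕ DC U) (hx : ∀ i, x i ∈ S.SwDomX)
    (hy : y ∈ S.SwDomX) (h : ∀ i, S.SwDomCd i (x i) = S.SwDomCd i y) (n : ℕ) :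
    ∃ r ∈ S.SwDomX, (∀ i, n ≤ i → S.dles (S.dι r) (S.dι (x i))) ∧
      S.SwDomCd n r = S.SwDomCd n y := by
  rcases y with y | e
  · have h1 : ∀ i, ∃ z, x i = .inl z := by
      intro i
      rcases hxi : x i with z | d
      · exact ⟨z, rfl⟩
      · have := h i
        rw [hxi] at this
        exact absurd this.symm (SwDomCd_inl_inr S _ _ y d)
    choose z hz using h1
    have hzX : ∀ i, z i ∈ S.X := fun i => by
      have := hx i
      rw [hz i] at this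
      exact S.SwDom_inl_mem.1 this
    obtain ⟨r, hr, h2, h3⟩ := S.lim z y hzX (S.SwDom_inl_mem.1 hy) (fun i => by
      have := h i
      rw [hz i] at this
      exact (SwDomCd_inl_inl S i _ _).1 this) n
    refine ⟨.inl r, S.SwDom_inl_mem.2 hr, fun i hi => ?_, (SwDomCd_inl_inl S n r y).2 h3⟩
    rw [hz i]
    exact (S.dles_inl_iff r (z i) hr (hzX i)).2 (h2 i hi)
  · have h1 : ∀ i, ∃ z, x i = .inr z := by
      intro i
      rcases hxi : x i with z | d
      · have := h i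
        rw [hxi] at this
        exact absurd this (SwDomCd_inl_inr S _ _ z e)
      · exact ⟨d, rfl⟩
    choose z hz using h1
    have hzX : ∀ i, S.DV (z i) := fun i => by
      have := hx i
      rw [hz i] at this
      exact S.SwDom_inr_mem.1 this
    obtain ⟨r, hr, h2, h3⟩ := S.dom_lim z e hzX (S.SwDom_inr_mem.1 hy) (fun i => by
      have := h i
      rw [hz i] at this
      exact (SwDomCd_inr_inr S i _ _).1 this) n
    refine ⟨.inr r, S.SwDom_inr_mem.2 hr, fun i hi => ?_, (SwDomCd_inr_inr S n r e).2 h3⟩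
    rw [hz i]
    exact S.dles_of_dle _ _ hr (hzX i) (h2 i hi)

theorem SwDom_W (S : Sw U) (ι : Type) [Finite ι] (L : ι → U ⊕ DC U) (y₀ : U ⊕ DC U)
    (hL : ∀ i, L i ∈ S.SwDomX) (hy₀ : y₀ ∈ S.SwDomX)
    (h : ∀ i, S.dles (S.dι y₀) (S.dι (L i))) :
    ∃ y ∈ S.SwDomX, S.dles (S.dι y) (S.dι y₀) ∧
      WP S.SwDomX (fun a b => S.dles (S.dι a) (S.dι b)) S.SwDomCd L y := by
  classical
  have := Fintype.ofFinite ι
  have hLV : ∀ i, S.DV (S.dι (L i)) := fun i => S.SwDom_DV _ (hL i)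
  have hyV := S.SwDom_DV y₀ hy₀
  have key : ∀ s : Finset ι, ∃ d₁, S.DV d₁ ∧ S.dle d₁ (S.dι y₀) ∧
      ∀ i ∈ s, S.dle d₁ (S.dι (L i)) := by
    intro s
    induction s using Finset.induction_on with
    | empty => exact ⟨S.dι y₀, hyV, S.dle_refl _ hyV, by simp⟩
    | insert a s _ ih =>
      obtain ⟨d, hd, h1, h2⟩ := ih
      obtain ⟨d', hd', h3, h4⟩ := h a d hd h1
      refine ⟨d', hd', S.dle_trans _ _ _ hyV hd hd' h3 h1, fun i hi => ?_⟩
      rcases Finset.mem_insert.1 hi with rfl | hi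
      · exact h4
      · exact S.dle_trans _ _ _ (hLV i) hd hd' h3 (h2 i hi)
  obtain ⟨d₁, hd₁, h1, h2⟩ := key Finset.univ
  obtain ⟨y, hy, h3, h4⟩ := S.dom_W (fun i => S.dι (L i)) d₁ hLV hd₁
    (fun i => h2 i (Finset.mem_univ i))
  refine ⟨.inr y, S.SwDom_inr_mem.2 hy, ?_, ?_⟩
  · exact S.dles_of_dle _ _ hy hyV (S.dle_trans _ _ _ hyV hd₁ hy h3 h1)
  · intro n
    obtain ⟨k, hk⟩ := h4 n
    refine ⟨k, fun L' hL' hc => ?_⟩
    obtain ⟨y', hy', h5, h6⟩ := hk (fun i => S.dι (L' i)) (fun i => S.SwDom_DV _ (hL' i))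
      (fun i => S.SwDom_dE_of_cd k _ _ (hc i))
    exact ⟨.inr y', S.SwDom_inr_mem.2 hy',
      fun i => S.dles_of_dle _ _ hy' (S.SwDom_DV _ (hL' i)) (h5 i),
      (SwDomCd_inr_inr S n y' y).2 h6⟩

/-- (A4) The dominating extension: the old elements and all conditions `(p, s, R, c)`, ordered by
the separative closure `dles`.
* sep: the order is the separative closure (for `d ≤ dι x` use `.inr d`).
* codes: old elements have codes `Nat.pair 0 _`, new ones `Nat.pair 1 (dcode ..)`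
  (`dcode_eq_iff`).
* dir, lim: `S.dir`, `S.lim` for old elements, `dom_dir`, `dom_lim` for new ones
  (`dles_of_dle`).
* W: given `L`, `y₀`, extend `dι y₀` finitely often (using `dles`) to `d₁` below all `dι (L i)`,
  apply `dom_W` to `dι ∘ L`. If `cd k (L' i) = cd k (L i)` then `dE k (dι (L' i)) (dι (L i))`. -/
def dom (S : Sw U) : Sw (U ⊕ DC U) where
  X := {a | (∃ x ∈ S.X, a = .inl x) ∨ ∃ d, S.DV d ∧ a = .inr d}
  top := .inl S.top
  le a b := S.dles (S.dι a) (S.dι b)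
  cd n a := match a with
    | .inl x => Nat.pair 0 (S.cd n x)
    | .inr d => Nat.pair 1 (S.dcode n d)
  top_mem := Or.inl ⟨_, S.top_mem, rfl⟩
  refl := fun x _ => S.dles_refl _
  trans := fun x hx y hy z hz h1 h2 =>
    S.dles_trans _ _ _ (S.SwDom_DV x hx) (S.SwDom_DV y hy) (S.SwDom_DV z hz) h1 h2
  le_top := fun x hx => S.dles_of_dle _ _ (S.SwDom_DV x hx) (S.DV_inl _ S.top_mem)
    ((S.dle_inl_of _ (S.SwDom_DV x hx) S.top S.top_mem).2 (S.le_top _ (S.SwDom_DV x hx).1))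
  sep := S.SwDom_sep
  mono := S.SwDom_mono
  dir := S.SwDom_dir
  lim := S.SwDom_lim
  W := fun ι _ => S.SwDom_W ι
  iso := by
    intro x hx h
    rcases hx with ⟨z, hz, rfl⟩ | ⟨d, hd, rfl⟩
    · have h1 : S.cd 0 z = S.cd 0 S.top := (SwDomCd_inl_inl S 0 z S.top).1 h
      rw [S.iso z hz h1]
    · exact absurd h.symm (SwDomCd_inl_inr S 0 0 S.top d)

theorem dom_injOn (S : Sw U) : InjOn (Sum.inl : U → U ⊕ DC U) S.X :=
  fun _ _ _ _ h => Sum.inl_injective h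

/-- Use `map_sub_of`. A reduction of `y` is `(dι y).p`: for `x' ≤ p` in `S` the condition
`(x', s, R, c)` is below both (`DV_of_le`). -/
theorem dom_sub (S : Sw U) : (S.map Sum.inl S.dom_injOn).Sub S.dom := by
  refine map_sub_of (P := S) (Q := S.dom) Sum.inl S.dom_injOn ?_ rfl ?_ ?_ ?_ ?_ ?_
  · intro x hx
    exact S.SwDom_inl_mem.2 hx
  · intro x hx y hy
    exact S.dles_inl_iff x y hx hy
  · rintro x hx y hy ⟨z, hz, h1, h2⟩
    have hzV := S.SwDom_DV z hz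
    obtain ⟨d', hd', h3, h4⟩ := h1 (S.dι z) hzV (S.dle_refl _ hzV)
    obtain ⟨d'', hd'', h5, h6⟩ := h2 d' hd' h3
    exact ⟨d''.p, hd''.1, S.trans _ hd''.1 _ hd'.1 _ hx h5.1 h4.1, h6.1⟩
  · intro n x hx y hy
    exact SwDomCd_inl_inl S n x y
  · rintro x hx y (⟨z, hz, rfl⟩ | ⟨d, hd, rfl⟩) h
    · exact ⟨z, hz, rfl⟩
    · exact absurd h (SwDomCd_inl_inr S 0 0 x d)
  · intro y hy
    have hyV := S.SwDom_DV y hy
    refine ⟨(S.dι y).p, hyV.1, fun x' hx' hle => ?_⟩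
    obtain ⟨h1, h2⟩ := S.DV_of_le (S.dι y) hyV x' hx' hle
    refine ⟨.inr ⟨x', (S.dι y).s, (S.dι y).R, (S.dι y).c⟩, S.SwDom_inr_mem.2 h1, ?_, ?_⟩
    · refine S.dles_of_dle _ _ h1 (S.DV_inl x' hx') ?_
      exact (S.dle_inl_of _ h1 x' hx').2 (S.refl x' hx')
    · exact S.dles_of_dle _ _ h1 hyV h2

theorem dom_small (S : Sw U) (h : S.Small) : S.dom.Small := by
  unfold Small at h ⊢
  let f : S.dom.X → S.X ⊕ (S.X × List ℕ × (ℕ → ℕ → S.X) × (ℕ → ℕ → ℕ)) := fun a =>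
    match a with
    | ⟨.inl x, hx⟩ => .inl ⟨x, S.SwDom_inl_mem.1 hx⟩
    | ⟨.inr d, hd⟩ => .inr (⟨d.p, (S.SwDom_inr_mem.1 hd).1⟩, d.s,
        fun m j => ⟨d.R m j, (S.SwDom_inr_mem.1 hd).2.1 m j⟩, d.c)
  have hf : Function.Injective f := by
    rintro ⟨x | d, hx⟩ ⟨y | e, hy⟩ hxy
    · simp only [f, Sum.inl.injEq, Subtype.mk.injEq] at hxy
      subst hxy
      rfl
    · simp [f] at hxy
    · simp [f] at hxy
    · simp only [f, Sum.inr.injEq, Prod.mk.injEq, Subtype.mk.injEq] at hxy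
      obtain ⟨h1, h2, h3, h4⟩ := hxy
      have h5 : d.R = e.R := by
        funext m j
        exact congrArg Subtype.val (congrFun (congrFun h3 m) j)
      have : d = e := DC.ext h1 h2 h5 h4
      subst this
      rfl
  refine (Cardinal.mk_le_of_injective hf).trans ?_
  have hc : Cardinal.aleph0 ≤ Cardinal.continuum := Cardinal.aleph0_le_continuum
  have h1 : Cardinal.mk (ℕ → ℕ → S.X) ≤ Cardinal.continuum := by
    have e1 : Cardinal.mk (ℕ → ℕ → S.X) = (Cardinal.mk S.X ^ Cardinal.aleph0) ^ Cardinal.aleph0 := by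
      simp
    rw [e1, ← Cardinal.power_mul, Cardinal.aleph0_mul_aleph0]
    calc Cardinal.mk S.X ^ Cardinal.aleph0 ≤ Cardinal.continuum ^ Cardinal.aleph0 :=
          Cardinal.power_le_power_right h
      _ = Cardinal.continuum := Cardinal.continuum_power_aleph0
  have h2 : Cardinal.mk (ℕ → ℕ → ℕ) ≤ Cardinal.continuum := by
    have e1 : Cardinal.mk (ℕ → ℕ → ℕ) = (Cardinal.aleph0 ^ Cardinal.aleph0) ^ Cardinal.aleph0 := by
      simp
    rw [e1, ← Cardinal.power_mul, Cardinal.aleph0_mul_aleph0, Cardinal.aleph0_power_aleph0]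
  have h3 : Cardinal.mk (List ℕ) ≤ Cardinal.continuum := by
    rw [Cardinal.mk_denumerable]
    exact hc
  rw [Cardinal.mk_sum, Cardinal.mk_prod, Cardinal.mk_prod, Cardinal.mk_prod]
  simp only [Cardinal.lift_id]
  have h4 : ∀ a b : Cardinal.{0}, a ≤ Cardinal.continuum → b ≤ Cardinal.continuum →
      a * b ≤ Cardinal.continuum := by
    intro a b ha hb
    calc a * b ≤ Cardinal.continuum * Cardinal.continuum := mul_le_mul' ha hb
      _ = Cardinal.continuum := Cardinal.continuum_mul_self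
  calc Cardinal.mk S.X + Cardinal.mk S.X * (Cardinal.mk (List ℕ) *
        (Cardinal.mk (ℕ → ℕ → S.X) * Cardinal.mk (ℕ → ℕ → ℕ)))
      ≤ Cardinal.continuum + Cardinal.continuum :=
        add_le_add h (h4 _ _ h (h4 _ _ h3 (h4 _ _ h1 h2)))
    _ = Cardinal.continuum := Cardinal.continuum_add_self

end Sw

end Pool.Agent.Lib.BPLM
end

section

/-!
# Cohen real followed by a dominating real: the dense open sets `D_k`

Over `P.cohen` (Cohen real `c`) and its dominating extension (dominating real `d`) let `D_k` be the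
set of all `y ∈ 2^ω` such that for some `m ≥ k`, `y` and `c` agree on `[m, m + d(m))`.
`DDV P k u` is the set of the conditions forcing the basic open set `[u]` is contained in `D_k`.
-/

set_option autoImplicit false

open Set

namespace Pool.Agent.Lib.BPLM

variable {U : Type}

/-- the condition `d` (over `P.cohen`) shows that `[u] ⊆ D_k` -/
def agree (k : ℕ) (u : List Bool) (d : DC (U × List Bool)) : Prop :=
  ∃ m, k ≤ m ∧ ∃ h : m < d.s.length, m + d.s[m] ≤ u.length ∧ m + d.s[m] ≤ d.p.2.length ∧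
    ∀ i, m ≤ i → i < m + d.s[m] → u[i]? = d.p.2[i]?

/-- the elements forcing `[u] ⊆ D_k` -/
def DDV (P : Sw U) (k : ℕ) (u : List Bool) : Set ((U × List Bool) ⊕ DC (U × List Bool)) :=
  {a | a ∈ P.cohen.dom.X ∧ ∀ d, P.cohen.DV d → P.cohen.dle d (P.cohen.dι a) →
    ∃ d', P.cohen.DV d' ∧ P.cohen.dle d' d ∧ agree k u d'}

theorem agree_mono {P : Sw U} {k : ℕ} {u u' : List Bool} {d d' : DC (U × List Bool)}
    (h : agree k u d) (hd : P.cohen.dle d' d) (hu : u <+: u') : agree k u' d' := by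
  obtain ⟨m, hkm, hm, h1, h2, h3⟩ := h
  obtain ⟨hle, hs, -, -⟩ := hd
  have hp : d.p.2 <+: d'.p.2 := hle.2
  have hm' : m < d'.s.length := hm.trans_le hs.length_le
  have hsm : d'.s[m] = d.s[m] := (hs.getElem hm).symm
  refine ⟨m, hkm, hm', ?_, ?_, ?_⟩
  · rw [hsm]
    exact h1.trans hu.length_le
  · rw [hsm]
    exact h2.trans hp.length_le
  · intro i hi1 hi2
    rw [hsm] at hi2
    have hiu : i < u.length := hi2.trans_le h1
    have hip : i < d.p.2.length := hi2.trans_le h2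
    have h4 := h3 i hi1 hi2
    rw [List.getElem?_eq_getElem hiu, List.getElem?_eq_getElem hip] at h4
    rw [List.getElem?_eq_getElem (hiu.trans_le hu.length_le),
      List.getElem?_eq_getElem (hip.trans_le hp.length_le), ← hu.getElem hiu, ← hp.getElem hip]
    exact h4

private theorem plus_refl {P : Sw U} {d : DC (U × List Bool)} (hd : P.cohen.DV d) :
    P.cohen.dle d d := P.cohen.dle_refl d hd

private theorem dι_DV {P : Sw U} {a : (U × List Bool) ⊕ DC (U × List Bool)}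
    (ha : a ∈ P.cohen.dom.X) : P.cohen.DV (P.cohen.dι a) := by
  rcases ha with ⟨x, hx, rfl⟩ | ⟨d, hd, rfl⟩
  · exact P.cohen.DV_inl x hx
  · exact hd

theorem DDV_low {P : Sw U} {k : ℕ} {u u' : List Bool} {a a' : (U × List Bool) ⊕ DC (U × List Bool)}
    (h : a ∈ DDV P k u) (ha' : a' ∈ P.cohen.dom.X) (hle : P.cohen.dom.le a' a)
    (hu : u <+: u') : a' ∈ DDV P k u' := by
  refine ⟨ha', fun d hd hda => ?_⟩
  obtain ⟨d1, hd1, h1, h2⟩ := hle d hd hda
  obtain ⟨d2, hd2, h3, h4⟩ := h.2 d1 hd1 h2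
  exact ⟨d2, hd2, P.cohen.dle_trans d d1 d2 hd hd1 hd2 h3 h1, agree_mono h4 (plus_refl hd2) hu⟩

/-- a condition with `agree` is in `DDV` -/
theorem inr_mem_DDV {P : Sw U} {k : ℕ} {u : List Bool} {d : DC (U × List Bool)}
    (hd : P.cohen.DV d) (h : agree k u d) : Sum.inr d ∈ DDV P k u := by
  refine ⟨Or.inr ⟨d, hd, rfl⟩, fun e he hed => ⟨e, he, plus_refl he, ?_⟩⟩
  exact agree_mono h hed (List.prefix_refl u)

private theorem long_step {S : Sw U} (d : DC U) (hd : S.DV d) :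
    ∃ d', S.DV d' ∧ S.dle d' d ∧ d'.s.length = d.s.length + 1 := by
  obtain ⟨hp, hR, hpd⟩ := hd
  obtain ⟨r, ⟨j, rfl⟩, q, hq, h1, h2⟩ := hpd d.s.length d.p hp (S.refl _ hp)
  refine ⟨⟨q, d.s ++ [d.c d.s.length j], d.R, d.c⟩, ⟨hq, hR, fun m w hw hwq => ?_⟩,
    ⟨h1, List.prefix_append _ _, ?_, ?_⟩, by simp⟩
  · exact hpd m w hw (S.trans _ hw _ hq _ hp hwq h1)
  · intro m hm hlt w hw hwq
    have hlt' : m < d.s.length + 1 := by simpa using hlt
    obtain rfl : m = d.s.length := by omega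
    refine ⟨d.R d.s.length j, ⟨j, rfl, ?_⟩, w, hw, S.refl _ hw,
      S.trans _ hw _ hq _ (hR _ _) hwq h2⟩
    simp
  · intro m _ j' z hz _ hzR w hw hwz
    exact ⟨d.R m j', ⟨j', rfl, le_rfl⟩, w, hw, S.refl _ hw, S.trans _ hw _ hz _ (hR _ _) hwz hzR⟩

/-- Lengthening the finite part of the dominating real: every condition `d` has, for every `m`,
an extension `d'` with the same `R`, `c` and `m < |d'.s|`. (Step: `{d.R l j}_j`, `l = |d.s|`, is
predense below `d.p`: let `q ≤ d.p, d.R l j`, and append the number `d.c l j`.) -/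
theorem exists_long {S : Sw U} (d : DC U) (hd : S.DV d) (m : ℕ) :
    ∃ d', S.DV d' ∧ S.dle d' d ∧ m < d'.s.length := by
  induction m with
  | zero =>
    obtain ⟨d', h1, h2, h3⟩ := long_step d hd
    exact ⟨d', h1, h2, by omega⟩
  | succ m ih =>
    obtain ⟨d1, h1, h2, h3⟩ := ih
    obtain ⟨d2, h4, h5, h6⟩ := long_step d1 h1
    exact ⟨d2, h4, S.dle_trans d d1 d2 hd h1 h4 h5 h2, by omega⟩

/-- (D2) density. Let `d ≤ dι a`; `m = max k |u|`; extend so that `m < |d.s|` and then (Cohen) so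
that `m + d.s[m] ≤ |d.p.2|`, `m ≤ |d.p.2|`; let `u'` be `u` padded to length `m` followed by the
part of `d.p.2` on `[m, m + d.s[m])`. -/
theorem DDV_dense (P : Sw U) (a : (U × List Bool) ⊕ DC (U × List Bool))
    (ha : a ∈ P.cohen.dom.X) (k : ℕ) (u : List Bool) :
    ∃ a' ∈ P.cohen.dom.X, P.cohen.dom.le a' a ∧ ∃ u', u <+: u' ∧ a' ∈ DDV P k u' := by
  have hd0 := dι_DV ha
  obtain ⟨d1, hd1, h1, h2⟩ := exists_long (P.cohen.dι a) hd0 (max k u.length)
  have hq : (d1.p.1, d1.p.2 ++ List.replicate (max k u.length + d1.s[max k u.length]) false) ∈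
      P.cohen.X := hd1.1
  have hqle : P.cohen.le
      (d1.p.1, d1.p.2 ++ List.replicate (max k u.length + d1.s[max k u.length]) false) d1.p :=
    ⟨P.refl _ hd1.1, List.prefix_append _ _⟩
  obtain ⟨hd2, h3⟩ := P.cohen.DV_of_le d1 hd1 _ hq hqle
  have h4 := P.cohen.dle_trans _ _ _ hd0 hd1 hd2 h3 h1
  refine ⟨Sum.inr _, Or.inr ⟨_, hd2, rfl⟩, P.cohen.dles_of_dle _ _ hd2 hd0 h4,
    u ++ ((d1.p.2 ++ List.replicate (max k u.length + d1.s[max k u.length]) false).take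
      (max k u.length + d1.s[max k u.length])).drop u.length, List.prefix_append _ _,
    inr_mem_DDV hd2 ⟨max k u.length, le_max_left _ _, h2, ?_, ?_, ?_⟩⟩
  · simp only [List.length_append, List.length_drop, List.length_take, List.length_replicate]
    have := le_max_right k u.length
    omega
  · simp only [List.length_append, List.length_replicate]
    omega
  · intro i hi1 hi2
    have h5 := le_max_right k u.length
    simp only at hi2 ⊢
    rw [List.getElem?_append_right (h5.trans hi1), List.getElem?_drop]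
    have h6 : u.length + (i - u.length) = i := by omega
    rw [h6, List.getElem?_take_of_lt hi2]

end Pool.Agent.Lib.BPLM
end

section

/-!
# Cohen real followed by a dominating real: covering
-/

set_option autoImplicit false

open Set

namespace Pool.Agent.Lib.BPLM

variable {U : Type}

/-- One step: the set of all `(p, t) ∈ P.cohen` such that for some `N`, `m + N ≤ |t|` and for every
`σ` of length `m` there is `a ∈ Z`, `p ≤ a.1`, `a.2 <+: σ ++ (t.drop m).take N`, is closed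
downwards and dense. Proof of density: given `(p₀, t₀)`, make `|t₀| ≥ m`, and treat the `2^m`
strings `σ` one after the other: apply `DenseZ` at `p` and `σ ++ t.drop m` to get `a ∈ Z` with
`a.1 ≤ p`, `σ ++ t.drop m <+: a.2`; replace `p` by `a.1` and `t` by `t.take m ++ a.2.drop m`.
At the end `N = |t| - m`. -/
theorem exists_cover_step (P : Sw U) (Z : Set (U × List Bool)) (hZ : DenseZ P Z) (m : ℕ)
    (b : U × List Bool) (hb : b ∈ P.cohen.X) :
    ∃ b' ∈ P.cohen.X, P.cohen.le b' b ∧ ∃ N, m + N ≤ b'.2.length ∧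
      ∀ σ : List Bool, σ.length = m → ∃ a ∈ Z, a.1 ∈ P.X ∧ P.le b'.1 a.1 ∧
        a.2 <+: σ ++ (b'.2.drop m).take N := by
  classical
  -- pad the string
  obtain ⟨t₀, ht₀, htm⟩ : ∃ t₀ : List Bool, b.2 <+: t₀ ∧ m ≤ t₀.length := by
    refine ⟨b.2 ++ List.replicate m false, List.prefix_append _ _, ?_⟩
    rw [List.length_append, List.length_replicate]
    omega
  have key : ∀ s : Finset (List Bool), ∃ p ∈ P.X, P.le p b.1 ∧ ∃ t : List Bool, t₀ <+: t ∧
      ∀ σ ∈ s, ∃ a ∈ Z, a.1 ∈ P.X ∧ P.le p a.1 ∧ a.2 <+: σ ++ t.drop m := by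
    intro s
    induction s using Finset.induction_on with
    | empty =>
      exact ⟨b.1, hb, P.refl _ hb, t₀, List.prefix_refl _,
        fun σ h => absurd h (Finset.notMem_empty σ)⟩
    | insert σ s _ ih =>
      obtain ⟨p, hp, hpb, t, ht, hs⟩ := ih
      obtain ⟨a, ha, haX, hap, r, hr⟩ := hZ p hp (σ ++ t.drop m)
      have htl : m ≤ t.length := htm.trans ht.length_le
      have hdrop : (t ++ r).drop m = t.drop m ++ r := List.drop_append_of_le_length htl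
      refine ⟨a.1, haX, P.trans _ haX _ hp _ hb hap hpb, t ++ r,
        ht.trans (List.prefix_append _ _), ?_⟩
      intro τ hτ
      rw [hdrop]
      rcases Finset.mem_insert.mp hτ with rfl | hτ
      · refine ⟨a, ha, haX, P.refl _ haX, ?_⟩
        rw [← hr, List.append_assoc]
      · obtain ⟨a', ha', haX', hap', hpre⟩ := hs τ hτ
        refine ⟨a', ha', haX', P.trans _ haX _ hp _ haX' hap hap', ?_⟩
        rw [← List.append_assoc]
        exact hpre.trans (List.prefix_append _ _)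
  obtain ⟨p, hp, hpb, t, ht, hs⟩ := key (List.finite_length_eq Bool m).toFinset
  have htl : m ≤ t.length := htm.trans ht.length_le
  refine ⟨(p, t), hp, ⟨hpb, ht₀.trans ht⟩, t.length - m, ?_, ?_⟩
  · show m + (t.length - m) ≤ t.length
    omega
  · intro σ hσ
    obtain ⟨a, ha, haX, hpa, hpre⟩ := hs σ (by
      rw [Set.Finite.mem_toFinset]
      exact hσ)
    refine ⟨a, ha, haX, hpa, ?_⟩
    have h1 : (t.drop m).take (t.length - m) = t.drop m := by
      apply List.take_of_length_le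
      rw [List.length_drop]
    show a.2 <+: σ ++ (t.drop m).take (t.length - m)
    rw [h1]
    exact hpre

/-- By `exists_countable_pd` (below the top). -/
theorem exists_cover (P : Sw U) (Z : Set (U × List Bool)) (hZ : DenseZ P Z) (m : ℕ) :
    ∃ (R : ℕ → U × List Bool) (c : ℕ → ℕ), (∀ j, R j ∈ P.cohen.X) ∧
      P.cohen.Pd (range R) P.cohen.top ∧ ∀ j, m + c j ≤ (R j).2.length ∧
      ∀ σ : List Bool, σ.length = m → ∃ a ∈ Z, a.1 ∈ P.X ∧ P.le (R j).1 a.1 ∧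
        a.2 <+: σ ++ ((R j).2.drop m).take (c j) := by
  let D : Set (U × List Bool) := {b' | b' ∈ P.cohen.X ∧ ∃ N, m + N ≤ b'.2.length ∧
    ∀ σ : List Bool, σ.length = m → ∃ a ∈ Z, a.1 ∈ P.X ∧ P.le b'.1 a.1 ∧
      a.2 <+: σ ++ (b'.2.drop m).take N}
  have hlow : ∀ d ∈ D, ∀ e ∈ P.cohen.X, P.cohen.le e d → e ∈ D := by
    rintro d ⟨hd, N, hN, hσ⟩ e he ⟨hed, hpre⟩
    refine ⟨he, N, hN.trans hpre.length_le, ?_⟩
    intro σ h
    obtain ⟨a, ha, haX, hda, hp⟩ := hσ σ h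
    refine ⟨a, ha, haX, P.trans _ he _ hd _ haX hed hda, ?_⟩
    obtain ⟨r, hr⟩ := hpre
    have h1 : (e.2.drop m).take N = (d.2.drop m).take N := by
      rw [← hr, List.drop_append_of_le_length (by omega),
        List.take_append_of_le_length (by rw [List.length_drop]; omega)]
    rw [h1]
    exact hp
  have hdense : ∀ w ∈ P.cohen.X, P.cohen.le w P.cohen.top → ∃ d ∈ D, P.cohen.cmp w d := by
    intro w hw _
    obtain ⟨b', hb', hle, N, hN, hσ⟩ := exists_cover_step P Z hZ m w hw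
    exact ⟨b', ⟨hb', N, hN, hσ⟩, b', hb', hle, P.cohen.refl _ hb'⟩
  obtain ⟨f, hf, hpd⟩ := P.cohen.exists_countable_pd P.cohen.top P.cohen.top_mem D
    (fun z hz => hz.1) hlow hdense
  choose c hc using fun j => (hf j).2
  exact ⟨f, c, fun j => (hf j).1, hpd, hc⟩

/-- (D3) covering. Let `R₀ m`, `c₀ m` be given by `exists_cover` for every `m`. Let
`d = dι a = (p, s, R, c)`, `k = |s|`. By `exists_fill` applied to the two conditions `d` and
`(p, s, R₀, c₀)` there is `d' = (p, s, R', c')` below both (for `m ≥ |s|` every `R' m j` is below some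
`R m i`, `c m i ≤ c' m j`, and below some `R₀ m i`, `c₀ m i ≤ c' m j`). Put `a' = inr d'`.

Let `a'' ≤ a'`, `a'' ∈ DDV P k u`. Since `a'' ≤ a'` (`dles`) there is `d₁ ≤ dι a''`, `d₁ ≤ d'`, and
since `a'' ∈ DDV` there is `d₂ ≤ d₁` with `agree k u d₂`: some `m ≥ k` such that `u` and
`d₂.p.2` agree on `[m, m + d₂.s[m])`. As `d₂ ≤ d'`, `m ≥ |s|`: `{R' m j : c' m j ≤ d₂.s[m]}` is
predense below `d₂.p`; so there is `q ≤ d₂.p` below `R' m j ≤ R₀ m i` with
`c₀ m i ≤ c' m j ≤ d₂.s[m]`. Let `t = (R₀ m i).2`, a prefix of `q.2`, as is `d₂.p.2`. For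
`σ = u.take m` there is `b ∈ Z` with `(R₀ m i).1 ≤ b.1` and
`b.2 <+: σ ++ (t.drop m).take (c₀ m i) <+: u`. Take `w = inr (q, d₂.s, d₂.R, d₂.c)`. -/
theorem DDV_cover (P : Sw U) (Z : Set (U × List Bool)) (hZ : DenseZ P Z)
    (a : (U × List Bool) ⊕ DC (U × List Bool)) (ha : a ∈ P.cohen.dom.X) :
    ∃ a' ∈ P.cohen.dom.X, P.cohen.dom.le a' a ∧ ∃ k, ∀ a'' ∈ P.cohen.dom.X,
      P.cohen.dom.le a'' a' → ∀ u, a'' ∈ DDV P k u → ∃ b ∈ Z, b.1 ∈ P.X ∧ b.2 <+: u ∧
        ∃ w ∈ P.cohen.dom.X, P.cohen.dom.le w a'' ∧ P.cohen.dom.le w (Sum.inl (b.1, [])) := by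
  classical
  have hDV : ∀ a ∈ P.cohen.dom.X, P.cohen.DV (P.cohen.dι a) := by
    rintro a (⟨x, hx, rfl⟩ | ⟨d, hd, rfl⟩)
    · exact P.cohen.DV_inl x hx
    · exact hd
  set d := P.cohen.dι a with hd_def
  have hd : P.cohen.DV d := hDV a ha
  choose R₀ c₀ hR₀X hR₀P hR₀ using fun m => exists_cover P Z hZ m
  let L : Bool → DC (U × List Bool) := fun l =>
    match l with
    | true => d
    | false => ⟨d.p, d.s, R₀, c₀⟩
  have hL : ∀ l, P.cohen.DV (L l) := by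
    intro l
    match l with
    | true => exact hd
    | false =>
      exact ⟨hd.1, hR₀X, fun m w hw _ => hR₀P m w hw (P.cohen.le_top _ hw)⟩
  have hLp : ∀ l, (L l).p = d.p := by
    intro l
    match l with
    | true => rfl
    | false => rfl
  choose R' c' hR'X hR'P hR' using fun m => P.cohen.exists_fill L hL d.p hd.1 m
    (fun l => by have h := (hL l).2.2 m; rw [hLp l] at h; exact h)
  have hd' : P.cohen.DV ⟨d.p, d.s, R', c'⟩ := ⟨hd.1, hR'X, hR'P⟩
  have hle : P.cohen.dle ⟨d.p, d.s, R', c'⟩ d := by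
    refine ⟨P.cohen.refl _ hd.1, List.prefix_refl _, ?_, ?_⟩
    · intro m hm h
      exact absurd h (Nat.not_lt.mpr hm)
    · intro m _ j z hz _ hzR w hw hwz
      obtain ⟨i, hi1, hi2⟩ := hR' m j true
      refine ⟨d.R m i, ⟨i, rfl, hi2⟩, w, hw, P.cohen.refl _ hw, ?_⟩
      exact P.cohen.trans _ hw _ (hR'X m j) _ (hd.2.1 m i)
        (P.cohen.trans _ hw _ hz _ (hR'X m j) hwz hzR) hi1
  refine ⟨.inr ⟨d.p, d.s, R', c'⟩, Or.inr ⟨_, hd', rfl⟩,
    P.cohen.dles_of_dle _ _ hd' hd hle, d.s.length, ?_⟩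
  intro a'' ha'' hle'' u hu
  have he : P.cohen.DV (P.cohen.dι a'') := hDV a'' ha''
  obtain ⟨d₁, hd₁, hd₁e, hd₁d'⟩ := hle'' _ he (P.cohen.dle_refl _ he)
  obtain ⟨d₂, hd₂, hd₂₁, m, hm, hms, hmu, hmp, hag⟩ := hu.2 d₁ hd₁ hd₁e
  have hd₂d' : P.cohen.dle d₂ ⟨d.p, d.s, R', c'⟩ :=
    P.cohen.dle_trans _ _ _ hd' hd₁ hd₂ hd₂₁ hd₁d'
  have hd₂e : P.cohen.dle d₂ (P.cohen.dι a'') := P.cohen.dle_trans _ _ _ he hd₁ hd₂ hd₂₁ hd₁e
  obtain ⟨x, ⟨j, hx, hj⟩, q, hq, hqp, hqx⟩ :=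
    hd₂d'.2.2.1 m hm hms d₂.p hd₂.1 (P.cohen.refl _ hd₂.1)
  have hj' : c' m j ≤ d₂.s[m] := hj
  have hqR' : P.cohen.le q (R' m j) := by
    rw [hx] at hqx
    exact hqx
  obtain ⟨i, hi1, hi2⟩ := hR' m j false
  have hi1' : P.cohen.le (R' m j) (R₀ m i) := hi1
  have hi2' : c₀ m i ≤ c' m j := hi2
  have hqR₀ : P.cohen.le q (R₀ m i) :=
    P.cohen.trans _ hq _ (hR'X m j) _ (hR₀X m i) hqR' hi1'
  have hul : m ≤ u.length := by omega
  obtain ⟨b, hb, hbX, hRb, hbpre⟩ := (hR₀ m i).2 (u.take m) (by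
    rw [List.length_take]
    omega)
  have htl := (hR₀ m i).1
  have heq : ((R₀ m i).2.drop m).take (c₀ m i) = (u.drop m).take (c₀ m i) := by
    apply List.ext_getElem?
    intro r
    rw [List.getElem?_take, List.getElem?_take]
    by_cases hr : r < c₀ m i
    · rw [if_pos hr, if_pos hr, List.getElem?_drop, List.getElem?_drop]
      have h1 : (R₀ m i).2[m + r]? = q.2[m + r]? := by
        obtain ⟨v, hv⟩ := hqR₀.2
        rw [← hv, List.getElem?_append_left (by omega)]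
      have h2 : d₂.p.2[m + r]? = q.2[m + r]? := by
        obtain ⟨v, hv⟩ := hqp.2
        rw [← hv, List.getElem?_append_left (by omega)]
      rw [h1, ← h2]
      exact (hag (m + r) (by omega) (by omega)).symm
    · rw [if_neg hr, if_neg hr]
  have hbu : b.2 <+: u := by
    rw [heq, ← List.take_add] at hbpre
    exact hbpre.trans (List.take_prefix _ _)
  obtain ⟨hw, hwle⟩ := P.cohen.DV_of_le d₂ hd₂ q hq hqp
  refine ⟨b, hb, hbX, hbu, .inr ⟨q, d₂.s, d₂.R, d₂.c⟩, Or.inr ⟨_, hw, rfl⟩, ?_, ?_⟩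
  · exact P.cohen.dles_of_dle _ _ hw he (P.cohen.dle_trans _ _ _ he hd₂ hw hwle hd₂e)
  · have hbc : (b.1, ([] : List Bool)) ∈ P.cohen.X := hbX
    refine P.cohen.dles_of_dle _ _ hw (P.cohen.DV_inl _ hbc) ?_
    refine (P.cohen.dle_inl_of _ hw _ hbc).mpr ⟨?_, List.nil_prefix⟩
    exact P.trans _ hq _ (hR₀X m i) _ hbX hqR₀.1 hRb

end Pool.Agent.Lib.BPLM
end

section

/-!
# The extension adding a comeager set of Cohen reals
-/

set_option autoImplicit false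

open Set

namespace Pool.Agent.Lib.BPLM

variable {U : Type}

/-- The extension `T` of `P` with the sets `DD k u` (`[u] ⊆ D_k` is forced).
Proof: place `P.cohen.dom` into `U` (`Sw.exists_place_sub`, with `j x = inl (x, [])`,
`Sw.map_sub_trans`, `cohen_sub`, `dom_sub`, `cohen_small`, `dom_small`), `T = P.cohen.dom.map f`,
`DD k u = f '' DDV P k u`; use `DDV_low`, `DDV_dense`, `DDV_cover`. -/
theorem exists_plus (hU : Cardinal.continuum < Cardinal.mk U) (P : Sw U) (hP : P.Small) :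
    ∃ (T : Sw U) (DD : ℕ → List Bool → Set U), T.Small ∧ P.Sub T ∧
      (∀ k u, DD k u ⊆ T.X) ∧
      (∀ k u, ∀ z ∈ DD k u, ∀ z' ∈ T.X, T.le z' z → ∀ u', u <+: u' → z' ∈ DD k u') ∧
      (∀ z ∈ T.X, ∀ k u, ∃ z' ∈ T.X, T.le z' z ∧ ∃ u', u <+: u' ∧ z' ∈ DD k u') ∧
      (∀ Z, DenseZ P Z → ∀ z ∈ T.X, ∃ z' ∈ T.X, T.le z' z ∧ ∃ k, ∀ z'' ∈ T.X, T.le z'' z' →
        ∀ u, z'' ∈ DD k u → ∃ b ∈ Z, b.1 ∈ P.X ∧ b.2 <+: u ∧
          ∃ w ∈ T.X, T.le w z'' ∧ T.le w b.1) := by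
  have hjk : InjOn ((Sum.inl : U × List Bool → (U × List Bool) ⊕ DC (U × List Bool)) ∘
      (fun x : U => (x, ([] : List Bool)))) P.X := by
    intro x _ y _ h
    simpa using h
  have hsub := Sw.map_sub_trans (fun x : U => (x, ([] : List Bool))) P.cohen_injOn P.cohen_sub
    Sum.inl P.cohen.dom_injOn P.cohen.dom_sub hjk
  have hsmall : P.cohen.dom.Small := P.cohen.dom_small (P.cohen_small hP)
  obtain ⟨f, hf, hfj, hPT, hT, -⟩ := Sw.exists_place_sub hU P hP P.cohen.dom hsmall _ hjk hsub ∅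
    (by simp)
  have hlow : ∀ k u, DDV P k u ⊆ P.cohen.dom.X := fun k u a ha => ha.1
  have hle : ∀ {x y : (U × List Bool) ⊕ DC (U × List Bool)}, x ∈ P.cohen.dom.X →
      y ∈ P.cohen.dom.X → ((P.cohen.dom.map f hf).le (f x) (f y) ↔ P.cohen.dom.le x y) :=
    fun hx hy => Sw.map_le _ f hf hx hy
  refine ⟨P.cohen.dom.map f hf, fun k u => f '' DDV P k u, hT, hPT, ?_, ?_, ?_, ?_⟩
  · rintro k u _ ⟨a, ha, rfl⟩
    exact ⟨a, hlow k u ha, rfl⟩
  · rintro k u _ ⟨a, ha, rfl⟩ _ ⟨a', ha', rfl⟩ h u' hu'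
    exact ⟨a', DDV_low ha ha' ((hle ha' (hlow k u ha)).1 h) hu', rfl⟩
  · rintro _ ⟨a, ha, rfl⟩ k u
    obtain ⟨a', ha', h1, u', hu', h2⟩ := DDV_dense P a ha k u
    exact ⟨f a', ⟨a', ha', rfl⟩, (hle ha' ha).2 h1, u', hu', a', h2, rfl⟩
  · rintro Z hZ _ ⟨a, ha, rfl⟩
    obtain ⟨a', ha', h1, k, h2⟩ := DDV_cover P Z hZ a ha
    refine ⟨f a', ⟨a', ha', rfl⟩, (hle ha' ha).2 h1, k, ?_⟩
    rintro _ ⟨a'', ha'', rfl⟩ h3 u ⟨b₀, hb₀, hb₀'⟩
    have hb₀e : b₀ = a'' := hf (hlow k u hb₀) ha'' hb₀'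
    rw [hb₀e] at hb₀
    obtain ⟨b, hbZ, hbX, hbu, w, hw, hw1, hw2⟩ := h2 a'' ha'' ((hle ha'' ha').1 h3) u hb₀
    refine ⟨b, hbZ, hbX, hbu, f w, ⟨w, hw, rfl⟩, (hle hw ha'').2 hw1, ?_⟩
    have hjb : (Sum.inl (b.1, ([] : List Bool)) : (U × List Bool) ⊕ DC (U × List Bool)) ∈
        P.cohen.dom.X := Or.inl ⟨(b.1, []), hbX, rfl⟩
    have h4 := (hle hw hjb).2 hw2
    have h5 : f (Sum.inl (b.1, ([] : List Bool))) = b.1 := hfj b.1 hbX
    rw [h5] at h4
    exact h4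

end Pool.Agent.Lib.BPLM
end
end
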