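import Mathlib
import Pool.Agent.Lib.MP_c00cb7_lc.SwRN
import Pool.Agent.Lib.MP_c00cb7_lc.BPEP
import Pool.Agent.Lib.MP_c00cb7_lc.EW
import Pool.Agent.Lib.MP_c00cb7_lc.DC
import Pool.Agent.Lib.MP_c00cb7_lc.SwPlus
import Pool.Agent.Lib.MP_c00cb7_lc.Tasks

section

/-!
# Sweet preorders add no random reals
-/

set_option autoImplicit false

open Set

namespace Pool.Agent.Lib.BPLM

/-- (A7). Proof: for a class code `m` and `n` there is `t` of length `n` such that for every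
`x ∈ S.X` with `S.cd 0 x = m` some `x' ≤ x` has `F x' t`: otherwise for every `t` of length `n`
there is `x_t` in the class such that no `x' ≤ x_t` has `F x' t`; by `dir_finite` there is `z` in
the class below all `x_t` (finitely many), and `RN.dens` for `z` gives a contradiction (if the
class is empty there is nothing to prove). Let `t n` be chosen for the class code
`(Nat.unpair n).1`: every code occurs for infinitely many `n`. -/
theorem exists_guess {U : Type} (S : Sw U) (F : U → List Bool → Prop) (hF : RN S F) :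
    ∃ t : ℕ → List Bool, (∀ n, (t n).length = n) ∧
      ∀ k, ∀ x ∈ S.X, ∃ n, k ≤ n ∧ ∃ x' ∈ S.X, S.le x' x ∧ F x' (t n) := by
  have key : ∀ m n : ℕ, ∃ t : List Bool, t.length = n ∧
      ∀ x ∈ S.X, S.cd 0 x = m → ∃ x' ∈ S.X, S.le x' x ∧ F x' t := by
    intro m n
    by_contra hcon
    push Not at hcon
    have h1 : ∀ t : {t : List Bool // t.length = n}, ∃ x ∈ S.X, S.cd 0 x = m ∧
        ∀ x' ∈ S.X, S.le x' x → ¬ F x' t.1 := fun t => hcon t.1 t.2
    choose y hyX hyc hy using h1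
    have hfin : Finite {t : List Bool // t.length = n} := List.finite_length_eq Bool n
    obtain ⟨z, hz, _, hzy, _⟩ := S.dir_finite 0 (y ⟨List.replicate n false, by simp⟩) (hyX _) y hyX
      (fun i => by rw [hyc, hyc])
    obtain ⟨q, hq, hqz, s, hs, hF'⟩ := hF.dens z hz n
    exact hy ⟨s, hs⟩ q hq (S.trans _ hq _ hz _ (hyX _) hqz (hzy _)) hF'
  choose T hT1 hT2 using key
  refine ⟨fun n => T (Nat.unpair n).1 n, fun n => hT1 _ _, fun k x hx => ?_⟩
  refine ⟨Nat.pair (S.cd 0 x) k, Nat.right_le_pair _ _, ?_⟩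
  refine hT2 _ _ x hx ?_
  rw [Nat.unpair_pair]

end Pool.Agent.Lib.BPLM
end

section

/-!
# The Baire property: local versions
-/

set_option autoImplicit false

open Set

namespace Pool.Agent.Lib.BPLM

open Pool.Agent.Lib.SymZF Pool.Agent.Lib.KZF Pool.Agent.Lib.KZF.KSys

namespace Setup

variable {D : Setup}

/-- below `q` the real `F` (over `Q`) is Cohen over `P`, together with the generic filter -/
def MeetZ (P Q : Sw D.U) (F : D.U → List Bool → Prop) (q : D.U) : Prop :=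
  ∀ Z, DenseZ P Z → ∀ q' ∈ Q.X, Q.le q' q → ∃ q'' ∈ Q.X, Q.le q'' q' ∧
    ∃ a ∈ Z, a.1 ∈ P.X ∧ Q.le q'' a.1 ∧ F q'' a.2

/-- as `Full.ext` -/
theorem MeetZ.ext {P Q R : Sw D.U} {F : D.U → List Bool → Prop} {q r : D.U} (h : MeetZ P Q F q)
    (hF : RN Q F) (hPQ : P.Sub Q) (hQR : Q.Sub R) (hq : q ∈ Q.X) (hr : r ∈ R.X)
    (hle : R.le r q) : MeetZ P R (extF Q R F) r := by
  intro Z hZ r' hr' hr'r
  obtain ⟨x, hx, hred⟩ := hQR.red r' hr'
  obtain ⟨y, hy, hyx, hyr⟩ := hred x hx (Q.refl _ hx)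
  have hqR : q ∈ R.X := hQR.sub hq
  have hyq : R.le y q := R.trans _ hy _ hr' _ hqR hyr (R.trans _ hr' _ hr _ hqR hr'r hle)
  obtain ⟨x', hx', hx'x, hx'q⟩ := hQR.cmp_of x hx q hq ⟨y, hy, hyx, hyq⟩
  obtain ⟨q'', hq'', hle'', a, haZ, haP, hqa, hFa⟩ := h Z hZ x' hx' hx'q
  obtain ⟨z, hz, hzq, hzr⟩ := hred q'' hq'' (Q.trans _ hq'' _ hx' _ hx hle'' hx'x)
  have haQ : a.1 ∈ Q.X := hPQ.sub haP
  exact ⟨z, hz, hzr, a, haZ, haP,
    R.trans _ hz _ (hQR.sub hq'') _ (hQR.sub haQ) hzq ((hQR.le_iff q'' hq'' a.1 haQ).2 hqa),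
    (hF.ext hQR).low _ _ ((hF.extF_iff hQR hq'' _).2 hFa) z hz hzq⟩

/-- If `(p, s)` decides `A` then it does so for all reals which are Cohen over `P` below `q`.
Let `c ≤ (Q, z)` be a condition (`eS_le_of_forall`). `MeetZ.ext` for `c.S`, `c.x`; `exists_full` gives
`Q' ≥ c.S`, a full name `F'` and `q' ≤ c.x` such that `F' = extF c.S Q' (extF Q c.S F)` below `q'`;
`EP` for `(Q', F', q')` and `eqB_rb`, `eqB_rb_ext`, `memv_congr` give
`eS Q' q' ≤ sgn ε (memv A (rb Q F))`. -/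
theorem bp_local {A : D.sys.HSet} {P Q : Sw D.U} (hPQ : P.Sub Q) (hQ : Q.Small)
    {F : D.U → List Bool → Prop} (hF : RN Q F) {q : D.U} (hq : q ∈ Q.X) (hm : MeetZ P Q F q)
    {ε : Bool} {p : D.U} (hp : p ∈ P.X) {s : List Bool} (h : EP A P ε p s) {z : D.U}
    (hz : z ∈ Q.X) (hzq : Q.le z q) (hzp : Q.le z p) (hzs : F z s) :
    eS Q z ≤ sgn ε (memv A (rb Q F)) := by
  refine eS_le_of_forall hQ hz fun c hc => ?_
  have hQR : Q.Sub c.S := hc.1
  have hcz : c.S.le c.x z := hc.2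
  have hzR : z ∈ c.S.X := hQR.sub hz
  have hcq : c.S.le c.x q := c.S.trans _ c.mem _ hzR _ (hQR.sub hq) hcz
    ((hQR.le_iff z hz q hq).2 hzq)
  have hm' := hm.ext hF hPQ hQR hq c.mem hcq
  obtain ⟨Q', F', q', hQ's, hRQ', hfull, hq', hq'r, hF'⟩ :=
    exists_full D.hU (hPQ.trans hQR) c.small (hF.ext hQR) c.mem hm'
  refine ⟨⟨Q', q', hq', hQ's⟩, ⟨hRQ', hq'r⟩, ?_⟩
  rw [← eS_eq Q' q' hq' hQ's]
  have hQQ' : Q.Sub Q' := hQR.trans hRQ'
  have hpQ : p ∈ Q.X := hPQ.sub hp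
  have hrQ' : c.x ∈ Q'.X := hRQ'.sub c.mem
  have hzQ' : z ∈ Q'.X := hQQ'.sub hz
  have hq'z : Q'.le q' z := Q'.trans _ hq' _ hrQ' _ hzQ' hq'r
    ((hRQ'.le_iff c.x c.mem z hzR).2 hcz)
  have hq'p : Q'.le q' p := Q'.trans _ hq' _ hzQ' _ (hQQ'.sub hpQ) hq'z
    ((hQQ'.le_iff z hz p hpQ).2 hzp)
  have hext : ∀ x ∈ Q'.X, Q'.le x q' → ∀ u, F' x u ↔ extF Q Q' F x u := fun x hx hxq u =>
    (hF' x hx hxq u).trans (hF.extF_extF hQR hRQ' x u)
  have hFs : F' q' s := by
    rw [hext q' hq' (Q'.refl _ hq')]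
    exact (hF.ext hQQ').low _ _ ((hF.extF_iff hQQ' hz s).2 hzs) q' hq' hq'z
  have h1 : eS Q' q' ≤ sgn ε (memv A (rb Q' F')) := h Q' F' hQ's hfull q' hq' hq'p hFs
  have h2 : eS Q' q' ≤ eqB (S := D.sys) (rb Q' F') (rb Q' (extF Q Q' F)) :=
    eqB_rb hfull.rn (hF.ext hQQ') hQ's hq' hext
  have h3 : eS Q' q' ≤ eqB (S := D.sys) (rb Q' (extF Q Q' F)) (rb Q F) := by
    rw [eqB_symm]
    exact (eS_mono hq' Q'.top_mem (Q'.le_top q' hq')).trans (eqB_rb_ext hF hQ hQ's hQQ')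
  have h4 : eS Q' q' ≤ eqB (S := D.sys) (rb Q' F') (rb Q F) := (le_inf h2 h3).trans
    (eqB_trans _ _ _)
  exact (le_inf h4 h1).trans (memv_congr A (symB_rb Q' hQ's F') (symB_rb Q hQ F) ε)

end Setup

end Pool.Agent.Lib.BPLM
end

section

/-!
# `ω₁` is inaccessible by reals in the generic model
-/

set_option autoImplicit false

open Set

namespace Pool.Agent.Lib.BPLM

open Pool.Agent.Lib.SymZF Pool.Agent.Lib.KZF Pool.Agent.Lib.KZF.KSys Setup

variable {D : Setup}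

namespace ESet

variable {hR : RamseyCard D.κ} {g : GMod D} {Q : Sw D.U} {H : Set (qs Q).HSet}
  (h : ESet hR g Q H)

include h

/-- the ordinal `alph Q H` and a function from `ω` onto it (the tasks `al`, `sf`; `isOnto_seq`,
`srj_spec`, `exists_chk`, `ordv_chk`); it is not empty: by `GoodHull.bd` (for `σ = num 0`) there is a
countable `i` with `chk i ∈ H`, and `c` with `(col _ (chk i)).eq (chk c) = ⊤` by `exists_col_chk`, so
`c < alph Q H` by `alph_spec` -/
theorem exists_ord : ∃ a w f, g.G.IsVal a (HSet.chk (alph Q H)) ∧ IsOrd g.E a ∧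
    (∃ b, g.E b a) ∧ g.G.IsVal w (HSet.om D.sys) ∧ IsOmega g.E w ∧ IsOnto g.E f w a ∧
    ∀ k < alph Q H, ∃ y, g.G.IsVal y (HSet.chk k) ∧ g.E y a := by
  obtain ⟨k0, hk0⟩ := h.obj
  have hat : XX.at ([k0].map g.toMod.ξ) 0 = XX.hd Q H := by
    simp [XX.at, hk0]
  obtain ⟨ka, hka⟩ := Mod.Meets.fn (h.meets .al) [k0]
  obtain ⟨kf, hkf⟩ := Mod.Meets.fn (h.meets .sf) [k0]
  rw [hat] at hka hkf
  simp only [alF, sfF] at hka hkf
  have hna : (g.toMod.ξ ka).name = HSet.chk (alph Q H) := by rw [hka]; rfl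
  have hnf : (g.toMod.ξ kf).name = HSet.seq fun n => HSet.chk (srj Q H n) := by rw [hkf]; rfl
  obtain ⟨a, ha⟩ := g.val ka
  obtain ⟨f, hf⟩ := g.val kf
  have haN := g.hNm ka
  have hfN := g.hNm kf
  rw [hna] at ha haN
  rw [hnf] at hf hfN
  obtain ⟨w, hw⟩ := g.G.hom
  have hw' : g.G.IsVal w (HSet.om D.sys) := hw
  have hsp := srj_spec h.good
  have hex : ∀ k < alph Q H, ∃ y, g.G.IsVal y (HSet.chk k) ∧ g.E y a := by
    intro k hk
    obtain ⟨n, rfl⟩ := (hsp k).1 hk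
    obtain ⟨y, hy⟩ := g.G.exists_chk hw' hf hfN n
    exact ⟨y, hy, (g.G.E_chk haN ha y).2 ⟨_, hk, hy⟩⟩
  refine ⟨a, w, f, ha, ?_, ?_, hw', g.G.isOmega hw', g.G.isOnto_seq hsp hw' hf hfN ha haN, hex⟩
  · rw [g.G.ord_iff ha, ordv_chk]
    exact g.G.top
  · obtain ⟨i, hi, hiH, -⟩ := h.good.bd _ (h.good.num 0)
    obtain ⟨c, hc, -⟩ := exists_col_chk (qs_HS Q) h.good.toHull
    obtain ⟨y, -, hy⟩ := hex (c i) ((alph_spec h.good (c i)).2 ⟨i, hi, hiH, hc i hiH⟩)
    exact ⟨y, hy⟩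

/-- if the value of `sv σ` is not in `U` then there are two values (`svH`, `jm_iInf`, `jm_compl`; the task
`mv`; here `c`, `c'` are the images of `i`, `j` by `exists_col_chk`) -/
theorem exists_two {σ : (qs Q).HSet} (hσ : σ ∈ H) (hk : ∃ k, g.toMod.ξ k = XX.hs Q H σ)
    (hsv : (jm Q (sv σ))ᶜ ∈ g.toMod.U) :
    ∃ (m : ℕ) (i j : (qs Q).Kt), i ≠ j ∧ HSet.chk i ∈ H ∧ HSet.chk j ∈ H ∧
      jm Q (((HSet.num (qs Q) m).opair (HSet.chk i)).mem σ) ∈ g.toMod.U ∧
      jm Q (((HSet.num (qs Q) m).opair (HSet.chk j)).mem σ) ∈ g.toMod.U := by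
  obtain ⟨k0, hk0⟩ := h.obj
  obtain ⟨k1, hk1⟩ := hk
  have hat : XX.at ([k0, k1].map g.toMod.ξ) 0 = XX.hd Q H := by
    simp [XX.at, hk0]
  have hat1 : XX.at ([k0, k1].map g.toMod.ξ) 1 = XX.hs Q H σ := by
    simp [XX.at, hk1]
  have hval : ∀ p : ℕ × D.sys.Kt × D.sys.Kt, mvW ([k0, k1].map g.toMod.ξ) p =
      ⨆ _ : p.2.1 ≠ p.2.2 ∧ HSet.chk (S := qs Q) p.2.1 ∈ H ∧ HSet.chk (S := qs Q) p.2.2 ∈ H,
      jm Q (((HSet.num (qs Q) p.1).opair (HSet.chk (S := qs Q) p.2.1)).mem σ ⊓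
        ((HSet.num (qs Q) p.1).opair (HSet.chk (S := qs Q) p.2.2)).mem σ) := by
    intro p
    simp only [mvW, hat, hat1, XX.sg_hs]
  have hmem : (⨆ p : ℕ × D.sys.Kt × D.sys.Kt, mvW ([k0, k1].map g.toMod.ξ) p) ∈ g.toMod.U := by
    have h1 : jm Q (sv σ)ᶜ ∈ g.toMod.U := by
      rw [jm_compl h.small]
      exact Mod.inf h.top hsv
    refine Mod.up h1 ?_
    rw [h.good.svH σ hσ, compl_iInf, jm_iSup h.small]
    refine iSup_le fun m => ?_
    rw [compl_iInf, jm_iSup h.small]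
    refine iSup_le fun i => ?_
    rw [compl_iInf, jm_iSup h.small]
    refine iSup_le fun j => ?_
    rw [compl_compl]
    refine le_iSup_of_le ((m, i.1, j.1) : ℕ × D.sys.Kt × D.sys.Kt) ?_
    rw [hval]
    exact le_iSup_of_le ⟨fun h => j.2.1 h.symm, i.2, j.2.2⟩ le_rfl
  rcases Mod.Meets.sup (h.meets .mv) [k0, k1] with ⟨p, hp⟩ | h2
  · rw [hval] at hp
    by_cases hc : p.2.1 ≠ p.2.2 ∧ HSet.chk (S := qs Q) p.2.1 ∈ H ∧ HSet.chk (S := qs Q) p.2.2 ∈ H
    · rw [iSup_pos hc] at hp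
      exact ⟨p.1, p.2.1, p.2.2, hc.1, hc.2.1, hc.2.2, Mod.up hp (jm_mono inf_le_left),
        Mod.up hp (jm_mono inf_le_right)⟩
    · rw [iSup_neg hc] at hp
      exact (Mod.bot hp).elim
  · exact (Mod.compl_mem hmem h2).elim

/-- membership of pairs of a number and an ordinal in a collapse (`PI_opair`, `PI_mem`) -/
theorem opair_iff {σ : (qs Q).HSet} (hσ : σ ∈ H) (n : ℕ) {i : (qs Q).Kt} (hi : HSet.chk i ∈ H)
    {c : D.sys.Kt} (hc : (col H (qs_HS Q) (HSet.chk i)).eq (HSet.chk (S := qs Q) c) = ⊤) :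
    ((HSet.num D.sys n).opair (HSet.chk c)).mem (PI Q H σ) ∈ g.toMod.U ↔
      jm Q (((HSet.num (qs Q) n).opair (HSet.chk i)).mem σ) ∈ g.toMod.U := by
  obtain ⟨h1, h2⟩ := PI_opair h.small h.good.toHull n hi hc
  rw [← PI_mem h.small h.good.toHull h1 hσ]
  have h3 := Mod.up h.top h2
  constructor
  · intro h4
    rw [KSys.HSet.eq_symm] at h3
    exact Mod.inf h.top (Mod.up (Mod.inf h3 h4) (HSet.mem_congr_left _ _ _))
  · intro h4
    have h5 := Mod.up h4 inf_le_right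
    exact Mod.up (Mod.inf h3 h5) (HSet.mem_congr_left _ _ _)

/-- No function in `WW` maps `ω` onto `alph Q H`. Let `f ∈ WW` be the value of `PI Q H σ`. Let `i₀` be
the bound of `GoodHull.bd` for `σ`, `c₀` its image (`exists_col_chk`); `c₀ < alph Q H` by `alph_spec`.
Let `y` be a value of `chk c₀`, `E y a`. As `f` is onto, `Rel f n y` for some `n ∈ ω`, `n` the value of
`num m` (`E_om`). By `rel_iff` and `opair_iff` `jm Q ((num m, chk i₀) ∈ σ) ∈ U`, so by `bd` (for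
`j = i₀`) and `jm_inf` `(jm Q (sv σ))ᶜ ∈ U`. By `exists_two` (and `opair_iff`) two different ordinals
`chk c`, `chk c'` are values of the function `f` at one number (`c ≠ c'` by the injectivity in
`exists_col_chk`), a contradiction by `rel_unique`, `chk_ne`. -/
theorem not_onto {a w f : g.M} (ha : g.G.IsVal a (HSet.chk (alph Q H)))
    (hw : g.G.IsVal w (HSet.om D.sys)) (hf : f ∈ WW g Q H) : ¬ IsOnto g.E f w a := by
  intro hon
  obtain ⟨σ, hσ, hk, hfσ⟩ := hf
  obtain ⟨i₀, hi₀, hi₀H, hbd⟩ := h.good.bd σ hσ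
  obtain ⟨c, hc, hcm, -⟩ := exists_col_chk (qs_HS Q) h.good.toHull
  have hc₀ : c i₀ < alph Q H := (alph_spec h.good (c i₀)).2 ⟨i₀, hi₀, hi₀H, hc i₀ hi₀H⟩
  obtain ⟨a', w', f', ha', -, -, -, -, -, hy⟩ := h.exists_ord
  obtain ⟨y, hy1, hy2⟩ := hy (c i₀) hc₀
  have haa : a = a' := by
    rw [g.G.eq_iff ha ha', HSet.eq_refl]
    exact g.G.top
  rw [← haa] at hy2
  obtain ⟨n, hn, hny⟩ := hon.2 y hy2
  obtain ⟨m, hm⟩ := (g.G.E_om hw n).1 hn
  rw [g.G.isNum_iff] at hm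
  rw [g.G.rel_iff hfσ hm hy1, g.hU, h.opair_iff hσ m hi₀H (hc i₀ hi₀H)] at hny
  have hsv : (jm Q (sv σ))ᶜ ∈ g.toMod.U := by
    refine Mod.up hny ?_
    rw [le_compl_iff_disjoint_right, disjoint_iff, ← jm_inf h.small, hbd m i₀ hi₀ le_rfl, jm_bot]
  obtain ⟨m', i, j, hij, hi, hj, hmi, hmj⟩ := h.exists_two hσ hk hsv
  rw [← h.opair_iff hσ m' hi (hc i hi), ← g.hU] at hmi
  rw [← h.opair_iff hσ m' hj (hc j hj), ← g.hU] at hmj
  obtain ⟨n', hn'⟩ := g.G.hnum m'
  have hn'' : g.G.IsVal n' (HSet.num D.sys m') := hn'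
  have hn'w : g.E n' w := (g.G.E_om hw n').2 ⟨m', (g.G.isNum_iff _ _).2 hn''⟩
  obtain ⟨v, -, hv⟩ := hon.1.2 n' hn'w
  have e1 := g.G.rel_unique hfσ hn'' (g.G.isVal_nm v) hv _ hmi
  have e2 := g.G.rel_unique hfσ hn'' (g.G.isVal_nm v) hv _ hmj
  have e2' : (g.G.nm v).eq (HSet.chk (S := D.sys) (c j)) ∈ g.G.U := by
    rw [HSet.eq_symm]
    exact e2
  have e3 : (HSet.chk (S := D.sys) (c i)).eq (HSet.chk (S := D.sys) (c j)) ∈ g.G.U :=
    g.G.up (g.G.inf e1 e2') (HSet.eq_trans _ _ _)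
  have hne : c i ≠ c j := by
    intro he
    rcases lt_trichotomy i j with hlt | heq | hgt
    · have h5 := (hcm i j hi hj).1 hlt
      rw [he] at h5
      exact lt_irrefl _ h5
    · exact hij heq
    · have h5 := (hcm j i hj hi).1 hgt
      rw [he] at h5
      exact lt_irrefl _ h5
  rw [HSet.chk_ne (S := D.sys) hne] at e3
  exact g.G.bot e3

end ESet

/-- `ω₁` is inaccessible by reals. For a real `x` the task `hd` gives an object `hd Q H`, with
`eS Q Q.top ∈ U`; `ESet.real`, `ESet.innerModel`. -/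
theorem omegaOneInacc (hR : RamseyCard D.κ) (g : GMod D)
    (h : ∀ j, g.toMod.Meets (eTask D hR j)) : OmegaOneInacc g.E := by
  intro x hx
  obtain ⟨i, hi⟩ := g.nmx x
  rcases h .hd [i] with h1 | ⟨n, k, Q, H, hk, hG⟩
  · exact (Mod.compl_mem Mod.top h1).elim
  have hasg : XX.asg ([i].map g.toMod.ξ) 0 = g.G.nm x := by
    rw [hi]
    simp [XX.asg, XX.at]
  rw [hasg] at hG
  obtain ⟨hQ, hH, hc, b, hb, hb'⟩ := hG
  have hE : ESet hR g Q H :=
    { meets := h
      small := hQ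
      good := hH
      top := ⟨n, hc⟩
      obj := ⟨k, hk⟩ }
  obtain ⟨a, w, f, ha, hOrd, hne, hw, hOm, hf, -⟩ := hE.exists_ord
  refine ⟨a, w, hOrd, hne, hOm, ⟨f, hf⟩, fun f' hf' => ?_⟩
  exact hE.not_onto ha hw (hf' (WW g Q H) hE.innerModel (hE.real hx hb hb'))

end Pool.Agent.Lib.BPLM
end

section

/-!
# Names for the sets of reals of rank `< t`
-/

set_option autoImplicit false

open Set

namespace Pool.Agent.Lib.BPLM

open Pool.Agent.Lib.SymZF Pool.Agent.Lib.KZF Pool.Agent.Lib.KZF.KSys Setup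

/-- the sequences of strings `t n` of length `n` -/
def Tt : Type := {t : ℕ → List Bool // ∀ n, (t n).length = n}

open Classical in
noncomputable instance : LinearOrder Tt := linearOrderOfSTO (WellOrderingRel (α := Tt))

instance : WellFoundedLT Tt := ⟨show WellFounded (WellOrderingRel (α := Tt)) from
  (WellOrderingRel.isWellOrder (α := Tt)).wf⟩

instance : Inhabited Tt := ⟨⟨fun n => List.replicate n false, fun n => by simp⟩⟩

section

variable {B : Type} [CompleteBooleanAlgebra B]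

/-- Boolean value of: the real `b` extends `t n` for infinitely many `n` -/
noncomputable def Nv (t : Tt) (b : ℕ → B) : B := ⨅ m : ℕ, ⨆ n : {n // m < n}, strv (t.1 n) b

/-- Boolean value of: `t` is the rank of `b`, the least `t` with the property above -/
noncomputable def rkv (t : Tt) (b : ℕ → B) : B := Nv t b ⊓ ⨅ t' : {t' // t' < t}, (Nv t'.1 b)ᶜ

lemma Nv_congr (t : Tt) (b c : ℕ → B) :
    (⨅ n, (b n ⇨ c n) ⊓ (c n ⇨ b n)) ⊓ Nv t b ≤ Nv t c := by
  refine le_iInf fun m => ?_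
  refine (inf_le_inf_left _ (iInf_le _ m)).trans ?_
  rw [inf_iSup_eq]
  exact iSup_mono fun n => strv_congr _ b c

lemma rkv_congr (t : Tt) (b c : ℕ → B) :
    (⨅ n, (b n ⇨ c n) ⊓ (c n ⇨ b n)) ⊓ rkv t b ≤ rkv t c := by
  refine le_inf ?_ (le_iInf fun t' => ?_)
  · exact (inf_le_inf_left _ inf_le_left).trans (Nv_congr t b c)
  · rw [le_compl_iff_disjoint_right, disjoint_iff, ← le_bot_iff]
    have hsy : (⨅ n, (b n ⇨ c n) ⊓ (c n ⇨ b n)) = ⨅ n, (c n ⇨ b n) ⊓ (b n ⇨ c n) :=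
      iInf_congr fun _ => inf_comm _ _
    have h1 : (⨅ n, (b n ⇨ c n) ⊓ (c n ⇨ b n)) ⊓ Nv t'.1 c ≤ Nv t'.1 b := by
      rw [hsy]
      exact Nv_congr t'.1 c b
    have h2 : rkv t b ≤ (Nv t'.1 b)ᶜ := inf_le_right.trans (iInf_le _ t')
    calc (⨅ n, (b n ⇨ c n) ⊓ (c n ⇨ b n)) ⊓ rkv t b ⊓ Nv t'.1 c
        ≤ Nv t'.1 b ⊓ (Nv t'.1 b)ᶜ :=
          le_inf ((inf_le_inf_right _ inf_le_left).trans h1)
            ((inf_le_left.trans inf_le_right).trans h2)
      _ ≤ ⊥ := by rw [inf_compl_self]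

private lemma Nv_map {C : Type} [CompleteBooleanAlgebra C] (f : B ≃o C) (t : Tt) (b : ℕ → B) :
    Nv t (fun n => f (b n)) = f (Nv t b) := by
  rw [Nv, Nv, OrderIso.map_iInf]
  refine iInf_congr fun m => ?_
  rw [OrderIso.map_iSup]
  exact iSup_congr fun n => strv_map f _ b

lemma rkv_map {C : Type} [CompleteBooleanAlgebra C] (f : B ≃o C) (t : Tt) (b : ℕ → B) :
    rkv t (fun n => f (b n)) = f (rkv t b) := by
  rw [rkv, rkv, map_inf, OrderIso.map_iInf, Nv_map]
  congr 1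
  refine iInf_congr fun t' => ?_
  rw [Nv_map, map_compl]

lemma rkv_disj {t t' : Tt} (h : t ≠ t') (b : ℕ → B) : rkv t b ⊓ rkv t' b = ⊥ := by
  have key : ∀ {t t' : Tt}, t < t' → rkv t b ⊓ rkv t' b = ⊥ := by
    intro t t' h
    rw [← le_bot_iff]
    calc rkv t b ⊓ rkv t' b ≤ Nv t b ⊓ (Nv t b)ᶜ :=
          inf_le_inf inf_le_left (inf_le_right.trans (iInf_le (fun s : {s // s < t'} =>
            (Nv s.1 b)ᶜ) ⟨t, h⟩))
      _ ≤ ⊥ := by rw [inf_compl_self]
  rcases lt_or_gt_of_ne h with h | h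
  · exact key h
  · rw [inf_comm]
    exact key h

/-- well-foundedness -/
lemma iSup_rkv (b : ℕ → B) : ⨆ t : Tt, rkv t b = ⨆ t : Tt, Nv t b := by
  apply le_antisymm
  · exact iSup_mono fun t => inf_le_left
  · refine iSup_le fun t => ?_
    induction t using WellFoundedLT.induction with
    | ind t ih =>
      have h1 : (⨅ t' : {t' // t' < t}, (Nv t'.1 b)ᶜ)ᶜ ≤ ⨆ t : Tt, rkv t b := by
        rw [compl_iInf]
        refine iSup_le fun t' => ?_
        rw [compl_compl]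
        exact ih t'.1 t'.2
      calc Nv t b = Nv t b ⊓ ((⨅ t' : {t' // t' < t}, (Nv t'.1 b)ᶜ) ⊔
            (⨅ t' : {t' // t' < t}, (Nv t'.1 b)ᶜ)ᶜ) := by rw [sup_compl_eq_top, inf_top_eq]
        _ = rkv t b ⊔ Nv t b ⊓ (⨅ t' : {t' // t' < t}, (Nv t'.1 b)ᶜ)ᶜ := by
            rw [inf_sup_left]; rfl
        _ ≤ ⨆ t : Tt, rkv t b := sup_le (le_iSup (fun t : Tt => rkv t b) t)
            (inf_le_right.trans h1)

/-- Boolean value of: the rank of `b` is `< t` -/
noncomputable def ltv (t : Tt) (b : ℕ → B) : B := ⨆ t' : {t' // t' < t}, rkv t'.1 b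

/-- Boolean value of: the rank of the even part of `b` is at most the rank of the odd part -/
noncomputable def lev (b : ℕ → B) : B :=
  ⨆ p : {p : Tt × Tt // p.1 ≤ p.2}, rkv p.1.1 (evn b) ⊓ rkv p.1.2 (odn b)

end

namespace Setup

variable {D : Setup}

/-- Every real has a rank. For a condition `c` capture `b` by `S ≥ c.S` (`exists_cap_le`);
`exists_guess` for `Fb S b` (`Fb_rn`) gives `t` with `eS S x ≤ Nv t b` for all `x ∈ S.X`
(`eS_le_of_dense`). -/
theorem iSup_rkv_eq (b : ℕ → D.B) : ⨆ t : Tt, rkv t b = ⊤ := by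
  rw [iSup_rkv, eq_top_iff]
  refine le_of_forall_e fun q _ => ?_
  obtain ⟨d, hdq, hcap⟩ := exists_cap_le b q
  refine ⟨d, hdq, ?_⟩
  obtain ⟨t, ht, h⟩ := exists_guess d.S (Fb d.S b) (Fb_rn d.small hcap)
  refine le_iSup_of_le (⟨t, ht⟩ : Tt) (le_iInf fun m => ?_)
  rw [← eS_cond d]
  refine eS_le_of_dense d.small d.mem fun x' hx' _ => ?_
  obtain ⟨n, hn, x'', hx'', hle, hF⟩ := h (m + 1) x' hx'
  exact ⟨x'', hx'', hle, le_iSup_of_le ⟨n, by omega⟩ hF.2⟩

/-- the name of the set of the reals of rank `< t` (`exists_realSet`) -/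
theorem exists_ltName (t : Tt) : ∃ A : D.sys.HSet, ∀ b (hb : SymB (S := D.sys) b),
    (HSet.rnm b hb).mem A = ltv t b := by
  refine exists_realSet (S := D.sys) (fun b => ltv t b) ?_ ?_
  · refine Filter.Eventually.of_forall fun g b _ => ?_
    rw [ltv, ltv, OrderIso.map_iSup]
    exact iSup_congr fun t' => rkv_map (D.sys.α g) t'.1 b
  · intro b c _ _
    rw [ltv, ltv, inf_iSup_eq]
    exact iSup_mono fun t' => rkv_congr t'.1 b c

/-- the name of the set of the pairs `jn x y` with `rk x ≤ rk y` -/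
theorem exists_leName : ∃ A : D.sys.HSet, ∀ b (hb : SymB (S := D.sys) b),
    (HSet.rnm b hb).mem A = lev b := by
  refine exists_realSet (S := D.sys) (fun b => lev b) ?_ ?_
  · refine Filter.Eventually.of_forall fun g b _ => ?_
    rw [lev, lev, OrderIso.map_iSup]
    refine iSup_congr fun p => ?_
    rw [map_inf, ← rkv_map, ← rkv_map]
    rfl
  · intro b c _ _
    rw [lev, lev, inf_iSup_eq]
    refine iSup_mono fun p => le_inf ?_ ?_
    · refine (inf_le_inf ?_ inf_le_left).trans (rkv_congr p.1.1 (evn b) (evn c))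
      exact le_iInf fun n => iInf_le _ (2 * n)
    · refine (inf_le_inf ?_ inf_le_right).trans (rkv_congr p.1.2 (odn b) (odn c))
      exact le_iInf fun n => iInf_le _ (2 * n + 1)

/-- the name of the set of all reals -/
theorem exists_allName : ∃ A : D.sys.HSet, ∀ b (hb : SymB (S := D.sys) b),
    (HSet.rnm b hb).mem A = ⊤ := by
  refine exists_realSet (S := D.sys) (fun _ => ⊤) ?_ ?_
  · exact Filter.Eventually.of_forall fun g b _ => (map_top (D.sys.α g)).symm
  · intro b c _ _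
    exact le_top

end Setup

end Pool.Agent.Lib.BPLM
end

section

/-!
# A non-measurable set in the generic model
-/

set_option autoImplicit false

open Set

namespace Pool.Agent.Lib.BPLM

open Pool.Agent.Lib.SymZF Pool.Agent.Lib.KZF Pool.Agent.Lib.KZF.KSys Setup

open Classical in
/-- the sequence of strings contained in an object -/
noncomputable def XX.seq {D : Setup} : XX D → Tt
  | .tt t => if h : ∀ n, (t n).length = n then ⟨t, h⟩ else default
  | _ => default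

@[simp] lemma XX.seq_tt {D : Setup} (t : Tt) : (XX.tt t.1 : XX D).seq = t := by
  unfold XX.seq
  exact dif_pos t.2

/-- Boolean value of: the object is a sequence which is the rank of `b` -/
noncomputable def rkW {D : Setup} : XX D → (ℕ → D.B) → D.B
  | .tt t, b => ⨆ h : ∀ n, (t n).length = n, rkv ⟨t, h⟩ b
  | _, _ => ⊥

/-- the code of the tail `{t j : n < j}` -/
noncomputable def tailC {D : Setup} (t : Tt) (n : ℕ) (i : ℕ) : D.B :=
  ⨆ _ : codeS {s | ∃ j, n < j ∧ t.1 j = s} i, ⊤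

lemma symB_tailC {D : Setup} (t : Tt) (n : ℕ) : SymB (S := D.sys) (tailC t n) := by
  refine Filter.Eventually.of_forall fun g m => ?_
  simp only [tailC, OrderIso.map_iSup, map_top]

private lemma tailC_mem {D : Setup} (g : GMod D) (t : Tt) (n i : ℕ) :
    (tailC t n i : D.B) ∈ g.toMod.U ↔ codeS {s | ∃ j, n < j ∧ t.1 j = s} i := by
  unfold tailC
  by_cases h : codeS {s | ∃ j, n < j ∧ t.1 j = s} i
  · rw [iSup_pos h]
    exact ⟨fun _ => h, fun _ => Mod.top⟩
  · rw [iSup_neg h]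
    exact ⟨fun h1 => (Mod.bot h1).elim, fun h1 => (h h1).elim⟩

/-- a string with value in the filter is an initial segment of the real -/
private lemma strv_mem1 {D : Setup} (g : GMod D) (x : g.M)
    (s : List Bool) : strv s (g.G.nm x).bit ∈ g.toMod.U ↔
      Ext s (fun n => (g.G.nm x).bit n ∈ g.toMod.U) := by
  have hdec := bit_or g x
  constructor
  · intro h i hi
    have h1 := Mod.up h (strv_le hi (g.G.nm x).bit)
    by_cases hs : s[i] = true
    · rw [if_pos hs] at h1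
      exact ⟨fun _ => hs, fun _ => h1⟩
    · rw [if_neg hs] at h1
      exact ⟨fun h2 => (Mod.compl_mem h2 h1).elim, fun h2 => (hs h2).elim⟩
  · induction s using List.reverseRecOn with
    | nil =>
      intro _
      rw [strv_nil]
      exact Mod.top
    | append_singleton s c ih =>
      intro h
      have h1 : Ext s (fun n => (g.G.nm x).bit n ∈ g.toMod.U) := by
        intro i hi
        have h2 := h i (by rw [List.length_append]; omega)
        rw [List.getElem_append_left hi] at h2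
        exact h2
      have h2 := h s.length (by simp)
      rw [List.getElem_concat_length rfl] at h2
      rw [strv_append]
      refine Mod.inf (ih h1) ?_
      by_cases hc : c = true
      · rw [if_pos hc]
        exact h2.2 hc
      · rw [if_neg hc]
        exact (hdec s.length).resolve_left fun h3 => hc (h2.1 h3)

/-- the indices of the tasks -/
inductive MsJ : Type
  | rk
  | wit (n : ℕ)
  | code (n : ℕ)
  | lt
  | le
  | all
  | ev
  | od
deriving Countable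

/-- the tasks: ranks of reals; initial segments of the real among the `t j`; names for codes and for
the three kinds of sets -/
noncomputable def msTask (D : Setup) : MsJ → Task D
  | .rk => Task.obj (fun _ => ⊤) (fun l y => rkW y (XX.asg l 0).bit) (by
      intro l
      rw [← iSup_rkv_eq (D := D) (XX.asg l 0).bit]
      exact iSup_le fun t => le_iSup_of_le (XX.tt t.1) (le_iSup_of_le t.2 le_rfl))
  | .wit n => Task.sup fun l (j : {j // n < j}) => strv ((XX.at l 0).seq.1 j) (XX.asg l 1).bit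
  | .code n => Task.fn fun l => XX.nm (HSet.rnm (tailC (XX.at l 0).seq n) (symB_tailC _ _))
  | .lt => Task.fn fun l => XX.nm (exists_ltName (XX.at l 0).seq).choose
  | .le => Task.fn fun _ => XX.nm exists_leName.choose
  | .all => Task.fn fun _ => XX.nm exists_allName.choose
  | .ev => Task.fn fun l => XX.nm (HSet.rnm (evn (XX.asg l 0).bit) (symB_evn (XX.asg l 0).symB_bit))
  | .od => Task.fn fun l => XX.nm (HSet.rnm (odn (XX.asg l 0).bit) (symB_odn (XX.asg l 0).symB_bit))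

section

variable {D : Setup} (g : GMod D)

/-- the sequences among the objects -/
def TM : Set Tt := {t | ∃ i, g.toMod.ξ i = XX.tt t.1}

open Classical in
/-- the rank of a real of the model -/
noncomputable def rkM (r : ℕ → Prop) : Tt :=
  if h : ∃ t, ∃ x, IsReal g.E x ∧ rl g.E x = r ∧ rkv t (g.G.nm x).bit ∈ g.toMod.U then
    h.choose else default

/-- reals with the same elements are equal -/
private lemma real_unique1 {x x' : g.M} (hx : IsReal g.E x) (hx' : IsReal g.E x')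
    (h : rl g.E x = rl g.E x') : x = x' := by
  have key : ∀ {a a' : g.M}, IsReal g.E a → rl g.E a = rl g.E a' → ∀ z, g.E z a → g.E z a' := by
    intro a a' ha haa z hz
    obtain ⟨w, hw, hsub⟩ := ha
    obtain ⟨n, hn⟩ := g.G.omegaStd w z hw (hsub z hz)
    have h1 : rl g.E a n := ⟨z, hn, hz⟩
    rw [haa] at h1
    obtain ⟨z', hz', hz'a⟩ := h1
    rw [num_unique g.G.toTModel.isZF hn hz']
    exact hz'a
  exact g.G.toTModel.isZF.ext _ _ fun z => ⟨key hx h z, key hx' h.symm z⟩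

private lemma rkv_unique {t t' : Tt} {b : ℕ → D.B} (h : rkv t b ∈ g.toMod.U)
    (h' : rkv t' b ∈ g.toMod.U) : t = t' := by
  by_contra hne
  exact Mod.bot (Mod.up (Mod.inf h h') (rkv_disj hne b).le)

/-- the rank of a real of the model -/
private lemma rk_aux (h : ∀ j, g.toMod.Meets (msTask D j)) {x : g.M} (hx : IsReal g.E x) :
    ∃ t ∈ TM g, rkM g (rl g.E x) = t ∧ rkv t (g.G.nm x).bit ∈ g.toMod.U := by
  obtain ⟨j, hj⟩ := g.nmx x
  have h0 : ∃ k, rkW (g.toMod.ξ k) (g.toMod.ξ j).name.bit ∈ g.toMod.U := by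
    rcases h .rk [j] with h1 | ⟨n, k, h1⟩
    · exact (Mod.compl_mem Mod.top h1).elim
    · exact ⟨k, n, h1⟩
  obtain ⟨k, hk⟩ := h0
  rw [← hj] at hk
  obtain ⟨t, ht, hkt⟩ : ∃ t : Tt, rkv t (g.G.nm x).bit ∈ g.toMod.U ∧ g.toMod.ξ k = XX.tt t.1 := by
    rcases hξ : g.toMod.ξ k with y | t | ⟨Q, H⟩ | ⟨Q, H, σ⟩
    · rw [hξ] at hk
      exact (Mod.bot hk).elim
    · rw [hξ] at hk
      change (⨆ h : ∀ n, (t n).length = n, rkv ⟨t, h⟩ (g.G.nm x).bit) ∈ g.toMod.U at hk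
      by_cases ht : ∀ n, (t n).length = n
      · rw [iSup_pos ht] at hk
        exact ⟨⟨t, ht⟩, hk, rfl⟩
      · rw [iSup_neg ht] at hk
        exact (Mod.bot hk).elim
    · rw [hξ] at hk
      exact (Mod.bot hk).elim
    · rw [hξ] at hk
      exact (Mod.bot hk).elim
  have hex : ∃ t, ∃ y, IsReal g.E y ∧ rl g.E y = rl g.E x ∧ rkv t (g.G.nm y).bit ∈ g.toMod.U :=
    ⟨t, x, hx, rfl, ht⟩
  refine ⟨t, ⟨k, hkt⟩, ?_, ht⟩
  unfold rkM
  rw [dif_pos hex]
  obtain ⟨y, hy, hyx, hyU⟩ := hex.choose_spec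
  rw [real_unique1 g hy hx hyx] at hyU
  exact rkv_unique g hyU ht

/-- the rank is defined for the reals of the model, and it is in `TM` (the task `rk`; uniqueness
by `rkv_disj`, and `rkv_congr` for two names of the same real) -/
theorem rkM_spec (h : ∀ j, g.toMod.Meets (msTask D j)) {r : ℕ → Prop} (hr : InM g.E r) :
    rkM g r ∈ TM g := by
  obtain ⟨x, hx, rfl⟩ := hr
  obtain ⟨t, ht, ht', -⟩ := rk_aux g h hx
  rw [ht']
  exact ht

/-- the rank is the `t` with `rkv t b ∈ U`, for every name of the real with a value -/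
theorem rkM_iff (h : ∀ j, g.toMod.Meets (msTask D j)) {x : g.M} {b : ℕ → D.B}
    {hb : SymB (S := D.sys) b} (hx : g.G.IsVal x (HSet.rnm b hb)) (t : Tt) :
    rkv t b ∈ g.toMod.U ↔ rkM g (fun n => b n ∈ g.toMod.U) = t := by
  have hreal := g.G.isReal_rnm hx
  have hrl : rl g.E x = fun n => b n ∈ g.toMod.U := by
    rw [g.G.rl_eq hx, HSet.bit_rnm, g.hU]
  obtain ⟨t₀, -, h1, h2⟩ := rk_aux g h hreal
  have h3 : eqB (S := D.sys) (g.G.nm x).bit b ∈ g.toMod.U := by
    rw [← HSet.rnm_eq _ _ (g.G.nm x).symB_bit hb, ← g.hU]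
    have h4 := g.G.isReal_iff hreal
    have h5 : (HSet.rnm (g.G.nm x).bit (g.G.nm x).symB_bit).eq (g.G.nm x) ∈ g.G.U := by
      rw [HSet.eq_symm]
      exact h4
    exact g.G.up (g.G.inf h5 hx) (HSet.eq_trans _ _ _)
  have h6 : rkv t₀ b ∈ g.toMod.U := Mod.up (Mod.inf h3 h2) (rkv_congr t₀ _ _)
  rw [← hrl, h1]
  constructor
  · intro h7
    exact rkv_unique g h6 h7
  · rintro rfl
    exact h6

/-- the reals of a given rank are a null set (`measLe_tail`, the tasks `wit n` and `code n`) -/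
theorem null_rk (h : ∀ j, g.toMod.Meets (msTask D j)) {t : Tt} (ht : t ∈ TM g) :
    NullR {r | InM g.E r} {r | rkM g r = t} := by
  intro n
  obtain ⟨i, hi⟩ := ht
  refine ⟨{s | ∃ j, n < j ∧ t.1 j = s}, ?_, ?_, measLe_tail t.2 n⟩
  · obtain ⟨k, hk⟩ := Mod.Meets.fn (h (.code n)) [i]
    obtain ⟨u, hu⟩ := g.val k
    rw [hk] at hu
    have hs : (XX.at ([i].map g.toMod.ξ) 0).seq = t := by
      change (g.toMod.ξ i).seq = t
      rw [hi, XX.seq_tt]
    have h1 := g.G.inM_of_rnm (b := tailC (XX.at ([i].map g.toMod.ξ) 0).seq n)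
      (hb := symB_tailC _ _) hu
    rw [hs, g.hU] at h1
    have h2 : (fun m => (tailC t n m : D.B) ∈ g.toMod.U) =
        codeS {s | ∃ j, n < j ∧ t.1 j = s} := by
      funext m
      exact propext (tailC_mem g t n m)
    rw [h2] at h1
    exact h1
  · rintro _ ⟨x, hx, rfl⟩ hr
    obtain ⟨t', -, h1, h2⟩ := rk_aux g h hx
    have htt : t' = t := h1.symm.trans hr
    subst htt
    obtain ⟨j, hj⟩ := g.nmx x
    have hrl : rl g.E x = fun n => (g.G.nm x).bit n ∈ g.toMod.U := by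
      rw [g.G.rl_eq (g.G.isVal_nm x), g.hU]
    have h3 : (⨆ m : {m // n < m}, strv (t'.1 m) (g.G.nm x).bit) ∈ g.toMod.U :=
      Mod.up h2 (inf_le_left.trans (iInf_le _ n))
    have h4 := Mod.Meets.sup (h (.wit n)) [i, j]
    change (∃ m : {m // n < m}, strv ((g.toMod.ξ i).seq.1 m) (g.toMod.ξ j).name.bit ∈ g.toMod.U) ∨
      (⨆ m : {m // n < m}, strv ((g.toMod.ξ i).seq.1 m) (g.toMod.ξ j).name.bit)ᶜ ∈ g.toMod.U at h4
    rw [hi, XX.seq_tt, ← hj] at h4
    rcases h4 with ⟨m, h4⟩ | h4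
    · refine ⟨t'.1 m, ⟨m, m.2, rfl⟩, ?_⟩
      rw [hrl]
      exact (strv_mem1 g x _).1 h4
    · exact (Mod.compl_mem h3 h4).elim

/-- `LMR` from `IsLM` for the value of a name of a set of reals -/
theorem lmr_of_isLM (hlm : ∀ A, IsLM g.E A) {k : ℕ} {A : D.sys.HSet}
    (hk : g.toMod.ξ k = XX.nm A) (P : Set (ℕ → Prop))
    (hP : ∀ (x : g.M) (b : ℕ → D.B) (hb : SymB (S := D.sys) b), g.G.IsVal x (HSet.rnm b hb) →
      ((HSet.rnm b hb).mem A ∈ g.toMod.U ↔ (fun n => b n ∈ g.toMod.U) ∈ P)) :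
    LMR {r | InM g.E r} P := by
  intro n
  obtain ⟨a, ha⟩ := g.val k
  rw [hk] at ha
  have key : ∀ r, InM g.E r → (MemA g.E a r ↔ r ∈ P) := by
    intro r hr
    obtain ⟨x, b, hb, hx, rfl⟩ := g.G.exists_rnm hr
    rw [g.G.memA_iff hx ha, g.hU]
    exact hP x b hb hx
  obtain ⟨u, v, hu, hv, h1, h2, h3⟩ := hlm a n
  exact ⟨u, v, hu, hv, fun r hr hrP => h1 r hr ((key r hr).2 hrP),
    fun r hr hrP => h2 r hr fun h4 => hrP ((key r hr).1 h4), h3⟩

private lemma eqB_nm {x : g.M} {b : ℕ → D.B} {hb : SymB (S := D.sys) b}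
    (hx : g.G.IsVal x (HSet.rnm b hb)) : eqB (S := D.sys) (g.G.nm x).bit b ∈ g.toMod.U := by
  rw [← HSet.rnm_eq _ _ (g.G.nm x).symB_bit hb, ← g.hU]
  have h4 := g.G.isReal_iff (g.G.isReal_rnm hx)
  have h5 : (HSet.rnm (g.G.nm x).bit (g.G.nm x).symB_bit).eq (g.G.nm x) ∈ g.G.U := by
    rw [HSet.eq_symm]
    exact h4
  exact g.G.up (g.G.inf h5 hx) (HSet.eq_trans _ _ _)

private lemma val_evn (h : ∀ j, g.toMod.Meets (msTask D j)) {x : g.M} {b : ℕ → D.B}
    {hb : SymB (S := D.sys) b} (hx : g.G.IsVal x (HSet.rnm b hb)) :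
    ∃ y, g.G.IsVal y (HSet.rnm (evn b) (symB_evn hb)) := by
  obtain ⟨j, hj⟩ := g.nmx x
  obtain ⟨k, hk⟩ := Mod.Meets.fn (h .ev) [j]
  obtain ⟨u, hu⟩ := g.val k
  rw [hk] at hu
  have hu' : g.G.IsVal u (HSet.rnm (evn (g.toMod.ξ j).name.bit)
    (symB_evn (g.toMod.ξ j).name.symB_bit)) := hu
  refine ⟨u, g.G.isVal_congr hu' ?_⟩
  rw [HSet.rnm_eq, ← hj, g.hU]
  refine Mod.up (eqB_nm g hx) ?_
  exact le_iInf fun n => iInf_le (fun n => ((g.G.nm x).bit n ⇨ b n) ⊓ (b n ⇨ (g.G.nm x).bit n))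
    (2 * n)

private lemma val_odn (h : ∀ j, g.toMod.Meets (msTask D j)) {x : g.M} {b : ℕ → D.B}
    {hb : SymB (S := D.sys) b} (hx : g.G.IsVal x (HSet.rnm b hb)) :
    ∃ y, g.G.IsVal y (HSet.rnm (odn b) (symB_odn hb)) := by
  obtain ⟨j, hj⟩ := g.nmx x
  obtain ⟨k, hk⟩ := Mod.Meets.fn (h .od) [j]
  obtain ⟨u, hu⟩ := g.val k
  rw [hk] at hu
  have hu' : g.G.IsVal u (HSet.rnm (odn (g.toMod.ξ j).name.bit)
    (symB_odn (g.toMod.ξ j).name.symB_bit)) := hu
  refine ⟨u, g.G.isVal_congr hu' ?_⟩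
  rw [HSet.rnm_eq, ← hj, g.hU]
  refine Mod.up (eqB_nm g hx) ?_
  exact le_iInf fun n => iInf_le (fun n => ((g.G.nm x).bit n ⇨ b n) ⊓ (b n ⇨ (g.G.nm x).bit n))
    (2 * n + 1)

private lemma mem_ltv {b : ℕ → D.B} {t₀ : Tt} (h₀ : rkv t₀ b ∈ g.toMod.U) (t : Tt) :
    ltv t b ∈ g.toMod.U ↔ t₀ < t := by
  constructor
  · intro h
    by_contra hn
    refine Mod.bot (Mod.up (Mod.inf h₀ h) ?_)
    rw [ltv, inf_iSup_eq]
    refine iSup_le fun t' => ?_
    have hne : t₀ ≠ t'.1 := fun h1 => hn (by rw [h1]; exact t'.2)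
    exact (rkv_disj hne b).le
  · intro h
    exact Mod.up h₀ (le_iSup (fun t' : {t' // t' < t} => rkv t'.1 b) ⟨t₀, h⟩)

private lemma mem_lev {b : ℕ → D.B} {t₁ t₂ : Tt} (h₁ : rkv t₁ (evn b) ∈ g.toMod.U)
    (h₂ : rkv t₂ (odn b) ∈ g.toMod.U) : lev b ∈ g.toMod.U ↔ t₁ ≤ t₂ := by
  constructor
  · intro h
    by_contra hn
    refine Mod.bot (Mod.up (Mod.inf (Mod.inf h₁ h₂) h) ?_)
    rw [lev, inf_iSup_eq]
    refine iSup_le fun p => ?_
    by_cases hp : t₁ = p.1.1
    · have hp2 : t₂ ≠ p.1.2 := fun h1 => hn (by rw [hp, h1]; exact p.2)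
      refine le_trans ?_ (rkv_disj hp2 (odn b)).le
      exact le_inf (inf_le_left.trans inf_le_right) (inf_le_right.trans inf_le_right)
    · refine le_trans ?_ (rkv_disj hp (evn b)).le
      exact le_inf (inf_le_left.trans inf_le_left) (inf_le_right.trans inf_le_left)
  · intro h
    exact Mod.up (Mod.inf h₁ h₂) (le_iSup (fun p : {p : Tt × Tt // p.1 ≤ p.2} =>
      rkv p.1.1 (evn b) ⊓ rkv p.1.2 (odn b)) ⟨(t₁, t₂), h⟩)

/-- Not all sets of reals of the generic model are measurable. `Clo.no_lm` for `R = {r | InM g.E r}`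
(`inM_of_bor`, `inM_jn`), `rk = rkM g`, with `lmr_of_isLM` for the values of the three kinds of
names (tasks `lt`, `le`, `all`); for `lev` note that the names `rnm (evn b)`, `rnm (odn b)` have
values (the tasks `ev`, `od` for `nm x`), so `rkM_iff` applies to them. -/
theorem exists_not_lm (h : ∀ j, g.toMod.Meets (msTask D j))
    (h' : ∀ j, g.toMod.Meets (borTask Fn isBor_Fn D j)) (h'' : g.toMod.Meets (jnTask D)) :
    ¬ ∀ A, IsLM g.E A := by
  intro hlm
  have hclo : Clo {r | InM g.E r} :=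
    { jn := fun x hx y hy => inM_jn g h'' hx hy
      fn := fun i x hx => inM_of_bor Fn isBor_Fn g h' i hx }
  refine hclo.no_lm (TM g) (rkM g) (fun y hy => rkM_spec g h hy) (fun t ht => null_rk g h ht)
    ?_ ?_ ?_
  · rintro t ⟨i, hi⟩
    obtain ⟨k, hk⟩ := Mod.Meets.fn (h .lt) [i]
    have hs : (XX.at ([i].map g.toMod.ξ) 0).seq = t := by
      change (g.toMod.ξ i).seq = t
      rw [hi, XX.seq_tt]
    refine lmr_of_isLM g hlm hk _ fun x b hb hx => ?_
    have h1 := (exists_ltName (D := D) (XX.at ([i].map g.toMod.ξ) 0).seq).choose_spec b hb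
    rw [h1, hs]
    exact mem_ltv g ((rkM_iff g h hx _).2 rfl) t
  · obtain ⟨k, hk⟩ := Mod.Meets.fn (h .all) []
    refine lmr_of_isLM g hlm hk _ fun x b hb hx => ?_
    rw [exists_allName.choose_spec b hb]
    exact ⟨fun _ => mem_univ _, fun _ => Mod.top⟩
  · obtain ⟨k, hk⟩ := Mod.Meets.fn (h .le) []
    refine lmr_of_isLM g hlm hk _ fun x b hb hx => ?_
    rw [exists_leName.choose_spec b hb]
    obtain ⟨y, hy⟩ := val_evn g h hx
    obtain ⟨z, hz⟩ := val_odn g h hx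
    exact mem_lev g ((rkM_iff g h hy _).2 rfl) ((rkM_iff g h hz _).2 rfl)

end

end Pool.Agent.Lib.BPLM
end

section

/-!
# The Baire property: the reals in the dense open sets
-/

set_option autoImplicit false

open Set

namespace Pool.Agent.Lib.BPLM

open Pool.Agent.Lib.SymZF Pool.Agent.Lib.KZF Pool.Agent.Lib.KZF.KSys

namespace Setup

variable {D : Setup}

/-- the value of `t` is in the `k`-th dense open set -/
noncomputable def dB (T : Sw D.U) (DD : ℕ → List Bool → Set D.U) (k : ℕ) (t : List Bool) : D.B :=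
  ⨆ z ∈ DD k t, eS T z

/-- the properties of `exists_plus` -/
structure Plus (P T : Sw D.U) (DD : ℕ → List Bool → Set D.U) : Prop where
  small : T.Small
  sub : P.Sub T
  mem : ∀ k u, DD k u ⊆ T.X
  low : ∀ k u, ∀ z ∈ DD k u, ∀ z' ∈ T.X, T.le z' z → ∀ u', u <+: u' → z' ∈ DD k u'
  dense : ∀ z ∈ T.X, ∀ k u, ∃ z' ∈ T.X, T.le z' z ∧ ∃ u', u <+: u' ∧ z' ∈ DD k u'
  cov : ∀ Z, DenseZ P Z → ∀ z ∈ T.X, ∃ z' ∈ T.X, T.le z' z ∧ ∃ k, ∀ z'' ∈ T.X, T.le z'' z' →
    ∀ u, z'' ∈ DD k u → ∃ b ∈ Z, b.1 ∈ P.X ∧ b.2 <+: u ∧ ∃ w ∈ T.X, T.le w z'' ∧ T.le w b.1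

/-- `exists_plus` -/
theorem exists_Plus (P : Sw D.U) (hP : P.Small) : ∃ T DD, Plus P T DD := by
  obtain ⟨T, DD, h1, h2, h3, h4, h5, h6⟩ := exists_plus D.hU P hP
  exact ⟨T, DD, h1, h2, h3, h4, h5, h6⟩

/-- the dense open sets are dense -/
theorem Plus.dB_dense {P T : Sw D.U} {DD : ℕ → List Bool → Set D.U} (h : Plus P T DD) (k : ℕ)
    (s : List Bool) : eS T T.top ≤ ⨆ t : {t : List Bool // s <+: t}, dB T DD k t := by
  refine eS_le_of_dense h.small T.top_mem fun x' hx' _ => ?_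
  obtain ⟨z', hz', hle, u', hu', hz'D⟩ := h.dense x' hx' k s
  refine ⟨z', hz', hle, ?_⟩
  refine le_trans ?_ (le_iSup (fun t : {t : List Bool // s <+: t} => dB T DD k t) ⟨u', hu'⟩)
  exact le_iSup₂_of_le (f := fun z (_ : z ∈ DD k u') => eS T z) z' hz'D le_rfl

/-- The reals in the intersection of the dense open sets are Cohen over `P`. Let `c` be a condition
over `T` which captures `b` and forces `b` to be in all `D_k`. Then `MeetZ` holds for `Fb c.S b` below
`c.x`. Proof: let `Z` be dense, `q' ≤ c.x`. The set of the `z'` as in `Plus.cov` is dense in `T`, so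
there are `z'`, `k` and `q₁ ≤ q', z'` (take a reduction `v` of `q'` and `z' ≤ v`). As
`eS c.S q₁ ≤ e c ≤ ⨆ t, dB T DD k t ⊓ strv t b` there are `t` and `z₀ ∈ DD k t` with
`eS c.S q₁ ⊓ (eS c.S z₀ ⊓ strv t b) ≠ ⊥` (`eS_sub_eq`), so by `Cap.exists_le` (with `Cap.inf`, `cap_eS`,
`cap_strv`) there is `y ≤ q₁` below it, and `y ≤ z₀` by `eS_le_iff`. Let `v ∈ T.X` be a reduction of
`y`. `v ≤ z₀` and `v ≤ z'` by `sep` (every `v' ≤ v` is compatible with `y`, so with `z₀`, `z'`). So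
`v ∈ DD k t` and `cov` gives `a ∈ Z` with `a.2 <+: t` and `w ≤ v, a.1`; `w` is compatible with `y`;
`q'' ≤ w, y`. -/
theorem Plus.meetZ {P T : Sw D.U} {DD : ℕ → List Bool → Set D.U} (h : Plus P T DD)
    (c : Cond D.U) (hc : T.Sub c.S) {b : ℕ → D.B} (hb : ∀ n, Cap c.S (b n))
    (hD : e c ≤ ⨅ k, ⨆ t, dB T DD k t ⊓ strv t b) : MeetZ P c.S (Fb c.S b) c.x := by
  intro Z hZ q' hq' hq'c
  obtain ⟨v, hv, hred⟩ := hc.red q' hq'
  obtain ⟨z', hz', hz'v, k, H⟩ := h.cov Z hZ v hv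
  obtain ⟨q₁, hq₁, hq₁z, hq₁q⟩ := hred z' hz' hz'v
  have hq₁c : (⟨c.S, q₁, hq₁, c.small⟩ : Cond D.U) ≤ c :=
    ⟨Sw.Sub.refl _, c.S.trans _ hq₁ _ hq' _ c.mem hq₁q hq'c⟩
  have h1 : e (⟨c.S, q₁, hq₁, c.small⟩ : Cond D.U) ≤ ⨆ t, dB T DD k t ⊓ strv t b :=
    (e_mono hq₁c).trans (hD.trans (iInf_le _ k))
  obtain ⟨r, t, hr, hrt⟩ := exists_le_of_le_iSup h1
  have h2 : e r ≤ ⨆ z, ⨆ _ : z ∈ DD k t, eS T z := hrt.trans inf_le_left
  obtain ⟨r', z₀, hr', hr'z⟩ := exists_le_of_le_iSup h2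
  obtain ⟨r'', hz₀, hr'', hr''z⟩ := exists_le_of_le_iSup hr'z
  have hz₀T : z₀ ∈ T.X := h.mem k t hz₀
  have hz₀S : z₀ ∈ c.S.X := hc.sub hz₀T
  have h3 : e r'' ≤ eS c.S q₁ := by
    rw [eS_eq c.S q₁ hq₁ c.small]
    exact e_mono ((hr''.trans hr').trans hr)
  have h4 : e r'' ≤ eS c.S z₀ := by
    rw [eS_sub_eq hc h.small c.small hz₀T]
    exact le_inf hr''z (h3.trans (eS_mono hq₁ c.S.top_mem (c.S.le_top _ hq₁)))
  have h5 : e r'' ≤ strv t b := ((e_mono (hr''.trans hr')).trans hrt).trans inf_le_right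
  have h6 : eS c.S q₁ ⊓ (eS c.S z₀ ⊓ strv t b) ≠ ⊥ := by
    intro h0
    exact e_ne_bot r'' (le_bot_iff.1 ((le_inf h3 (le_inf h4 h5)).trans h0.le))
  obtain ⟨y, hy, hyq, hyb⟩ := Cap.exists_le c.small
    (Cap.inf (cap_eS c.small hz₀S) (cap_strv hb t)) hq₁ h6
  have hyz₀ : c.S.le y z₀ := (eS_le_iff c.small hy hz₀S).1 (hyb.trans inf_le_left)
  obtain ⟨v', hv', hred'⟩ := hc.red y hy
  have key : ∀ x ∈ T.X, c.S.le y x → T.le v' x := by
    intro x hx hyx
    refine T.sep v' hv' x hx fun w hw hwv => ?_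
    obtain ⟨m, hm, hm1, hm2⟩ := hred' w hw hwv
    obtain ⟨m', hm', hm'1, hm'2⟩ := hc.cmp_of w hw x hx
      ⟨m, hm, hm1, c.S.trans _ hm _ hy _ (hc.sub hx) hm2 hyx⟩
    exact ⟨m', hm', hm'1, hm'2⟩
  have hv'z₀ : T.le v' z₀ := key z₀ hz₀T hyz₀
  have hv'z' : T.le v' z' := key z' hz' (c.S.trans _ hy _ hq₁ _ (hc.sub hz') hyq hq₁z)
  have hv'D : v' ∈ DD k t := h.low k t z₀ hz₀ v' hv' hv'z₀ t (List.prefix_refl _)
  obtain ⟨a, haZ, haP, hat, w, hw, hwv, hwa⟩ := H v' hv' hv'z' t hv'D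
  obtain ⟨q'', hq'', hq''w, hq''y⟩ := hred' w hw hwv
  have haT : a.1 ∈ T.X := h.sub.sub haP
  refine ⟨q'', hq'', ?_, a, haZ, haP, ?_, hq'', ?_⟩
  · exact c.S.trans _ hq'' _ hq₁ _ hq' (c.S.trans _ hq'' _ hy _ hq₁ hq''y hyq) hq₁q
  · exact c.S.trans _ hq'' _ (hc.sub hw) _ (hc.sub haT) hq''w ((hc.le_iff w hw a.1 haT).2 hwa)
  · exact ((eS_mono hq'' hy hq''y).trans (hyb.trans inf_le_right)).trans (strv_mono hat b)

/-- The main local statement (for one condition): `bp_local` for `Fb c.S b`, with `Plus.meetZ`,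
`rb_Fb` and `memv_congr`. -/
theorem Plus.main_local {A : D.sys.HSet} {P T : Sw D.U} {DD : ℕ → List Bool → Set D.U}
    (h : Plus P T DD) (c : Cond D.U) (hc : T.Sub c.S) {b : ℕ → D.B} (hsb : SymB (S := D.sys) b)
    (hb : ∀ n, Cap c.S (b n)) (hD : e c ≤ ⨅ k, ⨆ t, dB T DD k t ⊓ strv t b)
    {ε : Bool} {p : D.U} (hp : p ∈ P.X) {s : List Bool} (hE : EP A P ε p s)
    (hcp : c.S.le c.x p) (hcs : e c ≤ strv s b) : e c ≤ sgn ε (memv A b) := by
  have h1 := bp_local (h.sub.trans hc) c.small (Fb_rn c.small hb) c.mem (h.meetZ c hc hb hD) hp hE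
    c.mem (c.S.refl _ c.mem) hcp (show Fb c.S b c.x s from ⟨c.mem, by rw [eS_cond]; exact hcs⟩)
  have h2 : eS c.S c.x ≤ eqB (S := D.sys) (rb c.S (Fb c.S b)) b :=
    (eS_mono c.mem c.S.top_mem (c.S.le_top _ c.mem)).trans (rb_Fb c.small hb)
  rw [← eS_cond c]
  exact (le_inf h2 h1).trans (memv_congr A (symB_rb c.S c.small _) hsb ε)

/-- the value of `s` is in the open set of the strings forced into `A` -/
noncomputable def uB (A : D.sys.HSet) (P : Sw D.U) (s : List Bool) : D.B :=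
  ⨆ p ∈ {p | p ∈ P.X ∧ EP A P true p s}, eS P p

/-- The Baire property of `A`, for all reals. Let `a` be the left side; `le_of_forall_e`: let
`e q ≤ a`; then `q` has an extension `c` with `T.Sub c.S` which captures `b` (`exists_cap_le`). By
`Plus.meetZ` for `Z` = the set of `EE_dense` there are `q'' ≤ c.x` and `(p, s)`, `ε` with `EP ε p s`,
`q'' ≤ p`, `Fb c.S b q'' s`. By `main_local` for `d = (c.S, q'')`: `e d ≤ sgn ε (memv A b)`. If
`ε = true` then `e d ≤ uB s ⊓ strv s b`. If `ε = false` and `e d ⊓ (uB s' ⊓ strv s' b) ≠ ⊥` for some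
`s'`, then there is `d' ≤ d` capturing `b` with `e d' ≤ eS P p' ⊓ strv s' b`, `EP true p' s'`, and
(going down once more, `exists_le_of_e_le`) `d' ≤ (P, p')`; by `main_local` `e d' ≤ memv A b`,
contradiction. -/
theorem Plus.main {A : D.sys.HSet} {P T : Sw D.U} {DD : ℕ → List Bool → Set D.U}
    (hA : Fixd A P) (hP : P.Small) (h : Plus P T DD) {b : ℕ → D.B}
    (hsb : SymB (S := D.sys) b) :
    eS T T.top ⊓ (⨅ k, ⨆ t, dB T DD k t ⊓ strv t b) ≤
      (memv A b ⇨ ⨆ s, uB A P s ⊓ strv s b) ⊓ ((⨆ s, uB A P s ⊓ strv s b) ⇨ memv A b) := by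
  refine le_of_forall_e fun q hq => ?_
  have h1 : e q ≤ e (⟨T, T.top, T.top_mem, h.small⟩ : Cond D.U) := by
    rw [← eS_eq T T.top T.top_mem h.small]
    exact hq.trans inf_le_left
  obtain ⟨r₀, hr₀q, hr₀T⟩ := exists_le_of_e_le h1
  obtain ⟨c, hcr, hb⟩ := exists_cap_le b r₀
  have hc : T.Sub c.S := hr₀T.1.trans hcr.1
  have hcq : c ≤ q := hcr.trans hr₀q
  have hD : e c ≤ ⨅ k, ⨆ t, dB T DD k t ⊓ strv t b :=
    (e_mono hcq).trans (hq.trans inf_le_right)
  obtain ⟨q'', hq'', hq''c, a, ⟨haP, ε, hE⟩, -, hq''a, hF⟩ :=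
    h.meetZ c hc hb hD _ (EE_dense hA hP) c.x c.mem (c.S.refl _ c.mem)
  have hdc : (⟨c.S, q'', hq'', c.small⟩ : Cond D.U) ≤ c := ⟨Sw.Sub.refl _, hq''c⟩
  have hds : e (⟨c.S, q'', hq'', c.small⟩ : Cond D.U) ≤ strv a.2 b := by
    rw [← eS_eq c.S q'' hq'' c.small]
    exact hF.2
  have hd1 := h.main_local (A := A) (⟨c.S, q'', hq'', c.small⟩ : Cond D.U) hc hsb hb
    ((e_mono hdc).trans hD) haP hE hq''a hds
  refine ⟨⟨c.S, q'', hq'', c.small⟩, hdc.trans hcq, ?_⟩
  cases ε with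
  | true =>
    have hd2 : e (⟨c.S, q'', hq'', c.small⟩ : Cond D.U) ≤ memv A b := by
      simpa [sgn] using hd1
    have haS : a.1 ∈ c.S.X := hc.sub (h.sub.sub haP)
    have hd3 : e (⟨c.S, q'', hq'', c.small⟩ : Cond D.U) ≤ eS P a.1 := by
      rw [← eS_eq c.S q'' hq'' c.small]
      exact (eS_mono hq'' haS hq''a).trans (eS_sub (h.sub.trans hc) hP haP)
    have hd4 : e (⟨c.S, q'', hq'', c.small⟩ : Cond D.U) ≤ uB A P a.2 := by
      refine hd3.trans ?_
      exact le_iSup₂_of_le (f := fun p (_ : p ∈ {p | p ∈ P.X ∧ EP A P true p a.2}) => eS P p)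
        a.1 ⟨haP, hE⟩ le_rfl
    have hd5 : e (⟨c.S, q'', hq'', c.small⟩ : Cond D.U) ≤ ⨆ s, uB A P s ⊓ strv s b :=
      (le_inf hd4 hds).trans (le_iSup (fun s => uB A P s ⊓ strv s b) a.2)
    refine le_inf ?_ ?_
    · rw [le_himp_iff]
      exact inf_le_left.trans hd5
    · rw [le_himp_iff]
      exact inf_le_left.trans hd2
  | false =>
    have hd2 : e (⟨c.S, q'', hq'', c.small⟩ : Cond D.U) ≤ (memv A b)ᶜ := by
      simpa [sgn] using hd1
    have hd3 : e (⟨c.S, q'', hq'', c.small⟩ : Cond D.U) ⊓ (⨆ s, uB A P s ⊓ strv s b) = ⊥ := by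
      by_contra hne
      obtain ⟨r, hrd, hrV⟩ := exists_le_of_inf_ne_bot hne
      obtain ⟨r1, s', hr1, hr1s⟩ := exists_le_of_le_iSup hrV
      have h2 : e r1 ≤ ⨆ p, ⨆ _ : p ∈ {p | p ∈ P.X ∧ EP A P true p s'}, eS P p :=
        hr1s.trans inf_le_left
      obtain ⟨r2, p, hr2, hr2p⟩ := exists_le_of_le_iSup h2
      obtain ⟨r3, hp, hr3, hr3p⟩ := exists_le_of_le_iSup hr2p
      rw [eS_eq P p hp.1 hP] at hr3p
      obtain ⟨r4, hr43, hr4p⟩ := exists_le_of_e_le hr3p
      have hr41 : r4 ≤ r1 := (hr43.trans hr3).trans hr2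
      have hr4d : r4 ≤ (⟨c.S, q'', hq'', c.small⟩ : Cond D.U) := (hr41.trans hr1).trans hrd
      have hcS : c.S.Sub r4.S := hr4d.1
      have h3 := h.main_local (A := A) r4 (hc.trans hcS) hsb
        (fun n => (hb n).mono c.small r4.small hcS)
        ((e_mono (hr4d.trans hdc)).trans hD) hp.1 hp.2 hr4p.2
        ((e_mono hr41).trans (hr1s.trans inf_le_right))
      have h4 : e r4 ≤ memv A b := by simpa [sgn] using h3
      have h5 : e r4 ≤ (memv A b)ᶜ := (e_mono hr4d).trans hd2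
      refine e_ne_bot r4 (le_bot_iff.1 ((le_inf h4 h5).trans ?_))
      simp
    refine le_inf ?_ ?_
    · rw [le_himp_iff]
      refine le_trans ?_ bot_le
      calc e (⟨c.S, q'', hq'', c.small⟩ : Cond D.U) ⊓ memv A b
          ≤ (memv A b)ᶜ ⊓ memv A b := inf_le_inf_right _ hd2
        _ ≤ ⊥ := by simp
    · rw [le_himp_iff, hd3]
      exact bot_le

/-- `dB` and `uB` are symmetric, with supports `T.X`, `P.X` (`α_eS_fix`). -/
theorem symm_dB {T : Sw D.U} (hT : T.Small) (DD : ℕ → List Bool → Set D.U) :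
    ∀ᶠ g in D.sys.F, ∀ k t, D.sys.α g (dB T DD k t) = dB T DD k t := by
  refine (mem_F _).2 ⟨T.X, hT, fun g hg k t => ?_⟩
  simp only [dB, map_iSup]
  refine iSup_congr fun z => iSup_congr fun _ => ?_
  exact α_eS_fix g T hg z

theorem symm_uB (A : D.sys.HSet) {P : Sw D.U} (hP : P.Small) :
    ∀ᶠ g in D.sys.F, ∀ s, D.sys.α g (uB A P s) = uB A P s := by
  refine (mem_F _).2 ⟨P.X, hP, fun g hg s => ?_⟩
  simp only [uB, map_iSup]
  refine iSup_congr fun z => iSup_congr fun _ => ?_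
  exact α_eS_fix g P hg z

end Setup

end Pool.Agent.Lib.BPLM
end

section

/-!
# The Baire property in the generic model
-/

set_option autoImplicit false

open Set

namespace Pool.Agent.Lib.BPLM

open Pool.Agent.Lib.SymZF Pool.Agent.Lib.KZF Pool.Agent.Lib.KZF.KSys Setup

section codes

variable {B : Type} [CompleteBooleanAlgebra B]

/-- the open set coded by the even bits of a real -/
def uV (b : ℕ → B) (s : List Bool) : B := b (2 * Encodable.encode s)

/-- the sequence of open sets coded by the odd bits of a real -/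
def dV (b : ℕ → B) (k : ℕ) (t : List Bool) : B := b (2 * Nat.pair k (Encodable.encode t) + 1)

/-- the bits of the real coding a set of strings -/
noncomputable def bS (u : List Bool → B) (n : ℕ) : B :=
  ⨆ (s : List Bool) (_ : Encodable.encode s = n), u s

/-- the bits of the real coding a sequence of sets of strings -/
noncomputable def bD (d : ℕ → List Bool → B) (n : ℕ) : B :=
  ⨆ (k : ℕ) (t : List Bool) (_ : Nat.pair k (Encodable.encode t) = n), d k t

private lemma bS_encode (u : List Bool → B) (s : List Bool) :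
    bS u (Encodable.encode s) = u s := by
  apply le_antisymm
  · refine iSup_le fun t => iSup_le fun ht => ?_
    rw [Encodable.encode_injective ht]
  · exact le_iSup_of_le s (le_iSup_of_le rfl le_rfl)

private lemma bD_encode (d : ℕ → List Bool → B) (k : ℕ) (s : List Bool) :
    bD d (Nat.pair k (Encodable.encode s)) = d k s := by
  apply le_antisymm
  · refine iSup_le fun k' => iSup_le fun t => iSup_le fun ht => ?_
    obtain ⟨h1, h2⟩ := Nat.pair_eq_pair.1 ht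
    rw [h1, Encodable.encode_injective h2]
  · exact le_iSup_of_le k (le_iSup_of_le s (le_iSup_of_le rfl le_rfl))

lemma bS_mem {U : Set B} (bot : (⊥ : B) ∉ U) (u : List Bool → B) :
    (fun n => bS u n ∈ U) = codeS {s | u s ∈ U} := by
  funext n
  apply propext
  by_cases h : ∃ s : List Bool, Encodable.encode s = n
  · obtain ⟨s, rfl⟩ := h
    rw [bS_encode]
    constructor
    · intro h
      exact ⟨s, h, rfl⟩
    · rintro ⟨s', hs', he⟩
      rw [← Encodable.encode_injective he]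
      exact hs'
  · have h1 : bS u n = ⊥ :=
      le_bot_iff.1 (iSup_le fun s => iSup_le fun hs => (h ⟨s, hs⟩).elim)
    rw [h1]
    exact ⟨fun h => (bot h).elim, fun ⟨s, _, hs⟩ => (h ⟨s, hs⟩).elim⟩

lemma bD_mem {U : Set B} (bot : (⊥ : B) ∉ U) (d : ℕ → List Bool → B) :
    (fun n => bD d n ∈ U) = codeD (fun k => {t | d k t ∈ U}) := by
  funext n
  apply propext
  by_cases h : ∃ (k : ℕ) (s : List Bool), Nat.pair k (Encodable.encode s) = n
  · obtain ⟨k, s, rfl⟩ := h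
    rw [bD_encode]
    constructor
    · intro h
      exact ⟨k, s, h, rfl⟩
    · rintro ⟨k', s', hs', he⟩
      obtain ⟨h1, h2⟩ := Nat.pair_eq_pair.1 he
      have h3 := Encodable.encode_injective h2
      subst h1 h3
      exact hs'
  · have h1 : bD d n = ⊥ :=
      le_bot_iff.1 (iSup_le fun k => iSup_le fun s => iSup_le fun hs => (h ⟨k, s, hs⟩).elim)
    rw [h1]
    exact ⟨fun h => (bot h).elim, fun ⟨k, s, _, hs⟩ => (h ⟨k, s, hs⟩).elim⟩

end codes

lemma symB_bS {S : KSys} {u : List Bool → S.B} (h : ∀ᶠ g in S.F, ∀ s, S.α g (u s) = u s) :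
    SymB (bS u) := by
  refine h.mono fun g hg n => ?_
  simp only [bS, OrderIso.map_iSup, hg]

lemma symB_bD {S : KSys} {d : ℕ → List Bool → S.B}
    (h : ∀ᶠ g in S.F, ∀ k t, S.α g (d k t) = d k t) : SymB (bD d) := by
  refine h.mono fun g hg n => ?_
  simp only [bD, OrderIso.map_iSup, hg]

namespace Setup

variable {D : Setup}

/-- the condition `c` forces that `b` codes a witness for the Baire property of `A` -/
def BPc (A : D.sys.HSet) (c : Cond D.U) (b : ℕ → D.B) : Prop :=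
  (∀ k s, e c ≤ ⨆ t : {t : List Bool // s <+: t}, dV b k t) ∧
  ∀ r, SymB (S := D.sys) r → e c ⊓ (⨅ k, ⨆ t, dV b k t ⊓ strv t r) ≤
    (memv A r ⇨ ⨆ s, uV b s ⊓ strv s r) ⊓ ((⨆ s, uV b s ⊓ strv s r) ⇨ memv A r)

/-- Take `P` small with `c.S.Sub P` and `Fixd A P` (`exists_fixd`), `T`, `DD` from `exists_Plus`,
`d = (T, c.x)`; `b (2 * encode s) = uB A P s`, `b (2 * pair k (encode t) + 1) = dB T DD k t` (for
instance `b n = bS (uB A P) (n / 2)` for even `n` and `bD (dB T DD) (n / 2)` for odd `n`); `Plus.main`,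
`Plus.dB_dense`, `symm_dB`, `symm_uB`. -/
theorem exists_BPc (A : D.sys.HSet) (c : Cond D.U) :
    ∃ d ≤ c, ∃ b, SymB (S := D.sys) b ∧ BPc A d b := by
  classical
  obtain ⟨P, hP, hcP, hA⟩ := exists_fixd A c.S c.small
  obtain ⟨T, DD, h⟩ := exists_Plus P hP
  have hcT : c.S.Sub T := hcP.trans h.sub
  let b : ℕ → D.B := fun n => if n % 2 = 0 then bS (uB A P) (n / 2) else bD (dB T DD) (n / 2)
  have hbu : ∀ s, uV b s = uB A P s := by
    intro s
    have h1 : (2 * Encodable.encode s) % 2 = 0 := by omega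
    have h2 : (2 * Encodable.encode s) / 2 = Encodable.encode s := by omega
    change (if (2 * Encodable.encode s) % 2 = 0 then bS (uB A P) ((2 * Encodable.encode s) / 2)
      else bD (dB T DD) ((2 * Encodable.encode s) / 2)) = _
    rw [if_pos h1, h2, bS_encode]
  have hbd : ∀ k s, dV b k s = dB T DD k s := by
    intro k s
    have h1 : ¬ (2 * Nat.pair k (Encodable.encode s) + 1) % 2 = 0 := by omega
    have h2 : (2 * Nat.pair k (Encodable.encode s) + 1) / 2 = Nat.pair k (Encodable.encode s) := by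
      omega
    change (if (2 * Nat.pair k (Encodable.encode s) + 1) % 2 = 0 then
      bS (uB A P) ((2 * Nat.pair k (Encodable.encode s) + 1) / 2)
      else bD (dB T DD) ((2 * Nat.pair k (Encodable.encode s) + 1) / 2)) = _
    rw [if_neg h1, h2, bD_encode]
  have hd : e (⟨T, c.x, hcT.sub c.mem, h.small⟩ : Cond D.U) ≤ eS T T.top := by
    rw [← eS_cond]
    exact eS_mono (hcT.sub c.mem) T.top_mem (T.le_top _ (hcT.sub c.mem))
  refine ⟨⟨T, c.x, hcT.sub c.mem, h.small⟩, ⟨hcT, T.refl _ (hcT.sub c.mem)⟩, b, ?_, ?_, ?_⟩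
  · have h1 := symB_bS (S := D.sys) (symm_uB A hP)
    have h2 := symB_bD (S := D.sys) (symm_dB h.small DD)
    refine (h1.and h2).mono fun g hg n => ?_
    by_cases hn : n % 2 = 0
    · simp only [b, if_pos hn]
      exact hg.1 _
    · simp only [b, if_neg hn]
      exact hg.2 _
  · intro k s
    simp only [hbd]
    exact hd.trans (h.dB_dense k s)
  · intro r hr
    simp only [hbd, hbu]
    exact (inf_le_inf_right _ hd).trans (Plus.main hA hP h hr)

end Setup

/-- the tasks for the Baire property -/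
inductive BPJ : Type
  | main
  | dn (k : ℕ) (s : List Bool)
  | all
  | un
  | cu
  | cd
deriving Countable

/-- the tasks for the Baire property: a witness for `A` (`main`); the density of the coded sets
(`dn`); the comparison of a real with the codes (`all`, `un`); the names of the codes (`cu`, `cd`) -/
noncomputable def bpTask (D : Setup) : BPJ → Task D
  | .main =>
    { goal := fun _ => ⊤
      wit := fun l c y => ∃ (b : ℕ → D.B) (hb : SymB (S := D.sys) b),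
        y = XX.nm (HSet.rnm b hb) ∧ BPc (XX.asg l 0) c b
      dense := fun l c _ => by
        obtain ⟨d, hd, b, hb, h⟩ := exists_BPc (XX.asg l 0) c
        exact ⟨d, hd, _, b, hb, rfl, h⟩ }
  | .dn k s => Task.sup fun l (t : {t : List Bool // s <+: t}) => dV (XX.asg l 0).bit k t
  | .all => Task.sup fun l (k : ℕ) => (⨆ t, dV (XX.asg l 0).bit k t ⊓ strv t (XX.asg l 1).bit)ᶜ
  | .un => Task.sup fun l (s : List Bool) => uV (XX.asg l 0).bit s ⊓ strv s (XX.asg l 1).bit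
  | .cu => Task.fn fun l => XX.nm (HSet.rnm (bS (uV (XX.asg l 0).bit))
      (symB_bS ((XX.asg l 0).symB_bit.mono fun _ hg _ => hg _)))
  | .cd => Task.fn fun l => XX.nm (HSet.rnm (bD (dV (XX.asg l 0).bit))
      (symB_bD ((XX.asg l 0).symB_bit.mono fun _ hg _ _ => hg _)))

/-- a string with value in the filter is an initial segment of the real; `x` has a value -/
theorem strv_mem {D : Setup} (g : GMod D) (x : D.sys.HSet) (hx : ∃ u, g.G.IsVal u x)
    (s : List Bool) : strv s x.bit ∈ g.toMod.U ↔ Ext s (fun n => x.bit n ∈ g.toMod.U) := by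
  obtain ⟨v, hv⟩ := hx
  have hdec : ∀ n, x.bit n ∈ g.toMod.U ∨ (x.bit n)ᶜ ∈ g.toMod.U := by
    intro n
    obtain ⟨w, hw⟩ := g.G.hnum n
    have h1 := g.G.mem_or hw hv
    rw [g.hU] at h1
    exact h1
  constructor
  · intro h i hi
    have h1 := Mod.up h (strv_le hi x.bit)
    by_cases hs : s[i] = true
    · rw [if_pos hs] at h1
      exact ⟨fun _ => hs, fun _ => h1⟩
    · rw [if_neg hs] at h1
      exact ⟨fun h2 => (Mod.compl_mem h2 h1).elim, fun h2 => (hs h2).elim⟩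
  · induction s using List.reverseRecOn with
    | nil =>
      intro _
      rw [strv_nil]
      exact Mod.top
    | append_singleton s c ih =>
      intro h
      have h1 : Ext s (fun n => x.bit n ∈ g.toMod.U) := by
        intro i hi
        have h2 := h i (by rw [List.length_append]; omega)
        rw [List.getElem_append_left hi] at h2
        exact h2
      have h2 := h s.length (by simp)
      rw [List.getElem_concat_length rfl] at h2
      rw [strv_append]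
      refine Mod.inf (ih h1) ?_
      by_cases hc : c = true
      · rw [if_pos hc]
        exact h2.2 hc
      · rw [if_neg hc]
        exact (hdec s.length).resolve_left fun h3 => hc (h2.1 h3)

/-- The Baire property. Let `A ∈ M`, `nm A` the name of `ξ i` (`nmx`), `ξ k` the witness of the
task `main` for `[i]`, `u = {s | uV b s ∈ U}`, `D k = {t | dV b k t ∈ U}`; `bit_rnm`. A real `r` of `M`
is `fun n => (nm x).bit n ∈ U` (`isReal_iff`), `nm x` the name of `ξ j`. -/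
theorem allBP_of {D : Setup} (g : GMod D) (h : ∀ j, g.toMod.Meets (bpTask D j)) : AllBP g.E := by
  intro A
  obtain ⟨i, hi⟩ := g.nmx A
  have hA : g.G.IsVal A (g.toMod.ξ i).name := by
    rw [← hi]
    exact g.G.isVal_nm A
  obtain ⟨n, k, b, hb, hk, hbp⟩ : ∃ n k, ∃ (b : ℕ → D.B) (hb : SymB (S := D.sys) b),
      g.toMod.ξ k = XX.nm (HSet.rnm b hb) ∧ BPc (g.toMod.ξ i).name (g.toMod.c n) b := by
    rcases h .main [i] with h1 | h1
    · exact (Mod.compl_mem Mod.top h1).elim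
    · exact h1
  have hbit : (g.toMod.ξ k).name.bit = b := by
    rw [hk]
    exact HSet.bit_rnm b hb
  have hcn : e (g.toMod.c n) ∈ g.toMod.U := ⟨n, le_rfl⟩
  refine ⟨{s | uV b s ∈ g.toMod.U}, fun k => {t | dV b k t ∈ g.toMod.U}, ?_, ?_, ?_, ?_⟩
  · obtain ⟨j, hj⟩ := Mod.Meets.fn (h .cu) [k]
    obtain ⟨u, hu⟩ := g.val j
    rw [hj] at hu
    have h1 := g.G.inM_of_rnm (b := bS (uV (g.toMod.ξ k).name.bit))
      (hb := symB_bS ((g.toMod.ξ k).name.symB_bit.mono fun _ hg _ => hg _)) hu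
    rw [← bS_mem Mod.bot (uV b), ← hbit]
    rw [g.hU] at h1
    exact h1
  · obtain ⟨j, hj⟩ := Mod.Meets.fn (h .cd) [k]
    obtain ⟨u, hu⟩ := g.val j
    rw [hj] at hu
    have h1 := g.G.inM_of_rnm (b := bD (dV (g.toMod.ξ k).name.bit))
      (hb := symB_bD ((g.toMod.ξ k).name.symB_bit.mono fun _ hg _ _ => hg _)) hu
    rw [← bD_mem Mod.bot (dV b), ← hbit]
    rw [g.hU] at h1
    exact h1
  · intro m s
    have h1 := Mod.Meets.sup (h (.dn m s)) [k]
    change (∃ j : {t : List Bool // s <+: t}, dV (g.toMod.ξ k).name.bit m j ∈ g.toMod.U) ∨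
      (⨆ j : {t : List Bool // s <+: t}, dV (g.toMod.ξ k).name.bit m j)ᶜ ∈ g.toMod.U at h1
    rw [hbit] at h1
    rcases h1 with ⟨⟨t, ht⟩, h1⟩ | h1
    · exact ⟨t, ht, t, h1, List.prefix_refl t⟩
    · exact (Mod.compl_mem (Mod.up hcn (hbp.1 m s)) h1).elim
  · rintro _ ⟨x, hx, rfl⟩ hr
    obtain ⟨j, hj⟩ := g.nmx x
    have hrl : rl g.E x = fun n => (g.G.nm x).bit n ∈ g.toMod.U := by
      rw [g.G.rl_eq (g.G.isVal_nm x), g.hU]
    have hxv : ∃ u, g.G.IsVal u (g.G.nm x) := ⟨x, g.G.isVal_nm x⟩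
    have hmem : MemA g.E A (rl g.E x) ↔ memv (g.toMod.ξ i).name (g.G.nm x).bit ∈ g.toMod.U := by
      rw [memv_eq _ (g.G.nm x).symB_bit, hrl, ← g.hU]
      exact g.G.memA_iff (g.G.isReal_iff hx) hA
    have hall : (⨅ k, ⨆ t, dV b k t ⊓ strv t (g.G.nm x).bit) ∈ g.toMod.U := by
      have h1 := Mod.Meets.sup (h .all) [k, j]
      change (∃ m : ℕ, (⨆ t, dV (g.toMod.ξ k).name.bit m t ⊓
        strv t (g.toMod.ξ j).name.bit)ᶜ ∈ g.toMod.U) ∨
        (⨆ m : ℕ, (⨆ t, dV (g.toMod.ξ k).name.bit m t ⊓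
          strv t (g.toMod.ξ j).name.bit)ᶜ)ᶜ ∈ g.toMod.U at h1
      rw [hbit, ← hj] at h1
      rcases h1 with ⟨m, h1⟩ | h1
      · exfalso
        obtain ⟨t, ht, hext⟩ := hr m
        rw [hrl] at hext
        have h2 := (strv_mem g _ hxv t).2 hext
        exact Mod.compl_mem (Mod.up (Mod.inf ht h2)
          (le_iSup (fun t => dV b m t ⊓ strv t (g.G.nm x).bit) t)) h1
      · rw [compl_iSup] at h1
        simpa only [compl_compl] using h1
    have hkey := Mod.up (Mod.inf hcn hall) (hbp.2 (g.G.nm x).bit (g.G.nm x).symB_bit)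
    rw [hmem]
    constructor
    · intro h1
      have h2 : (⨆ s, uV b s ⊓ strv s (g.G.nm x).bit) ∈ g.toMod.U :=
        Mod.up (Mod.inf (Mod.up hkey inf_le_left) h1) himp_inf_le
      have h3 := Mod.Meets.sup (h .un) [k, j]
      change (∃ s : List Bool, uV (g.toMod.ξ k).name.bit s ⊓
        strv s (g.toMod.ξ j).name.bit ∈ g.toMod.U) ∨
        (⨆ s : List Bool, uV (g.toMod.ξ k).name.bit s ⊓
          strv s (g.toMod.ξ j).name.bit)ᶜ ∈ g.toMod.U at h3
      rw [hbit, ← hj] at h3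
      rcases h3 with ⟨s, h3⟩ | h3
      · refine ⟨s, Mod.up h3 inf_le_left, ?_⟩
        rw [hrl]
        exact (strv_mem g _ hxv s).1 (Mod.up h3 inf_le_right)
      · exact (Mod.compl_mem h2 h3).elim
    · rintro ⟨s, hs, hext⟩
      rw [hrl] at hext
      have h2 := (strv_mem g _ hxv s).2 hext
      have h3 : (⨆ s, uV b s ⊓ strv s (g.G.nm x).bit) ∈ g.toMod.U :=
        Mod.up (Mod.inf hs h2) (le_iSup (fun s => uV b s ⊓ strv s (g.G.nm x).bit) s)
      exact Mod.up (Mod.inf (Mod.up hkey inf_le_right) h3) himp_inf_le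

end Pool.Agent.Lib.BPLM
end

section

/-!
# The main theorem (MP_c00cb7_lc)
-/

set_option autoImplicit false

open Set

namespace Pool.Agent.Lib.BPLM

open Pool.Agent.Lib.SymZF Pool.Agent.Lib.KZF Pool.Agent.Lib.KZF.KSys Setup

/-- the setup for an inaccessible cardinal `κ`; the ambient type is the set of sets of reals -/
noncomputable def theSetup (κ : Cardinal.{0}) (h1 : κ.IsInaccessible) : Setup where
  U := Set (Set ℕ)
  κ := κ
  inacc := h1
  hU := by
    rw [Cardinal.mk_set, Cardinal.mk_set, Cardinal.mk_nat, Cardinal.two_power_aleph0]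
    exact Cardinal.cantor _
  hUκ := by
    rw [Cardinal.mk_set, Cardinal.mk_set, Cardinal.mk_nat]
    exact h1.isStrongPrelimit (h1.isStrongPrelimit h1.aleph0_lt)

/-- all the tasks -/
abbrev MainJ : Type := Unit ⊕ BPJ ⊕ MsJ ⊕ BorJ Fn isBor_Fn ⊕ Unit ⊕ EJ

/-- all the tasks -/
noncomputable def mainTask (D : Setup) (hR : RamseyCard D.κ) : MainJ → Task D
  | .inl _ => dcTask D
  | .inr (.inl j) => bpTask D j
  | .inr (.inr (.inl j)) => msTask D j
  | .inr (.inr (.inr (.inl j))) => borTask Fn isBor_Fn D j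
  | .inr (.inr (.inr (.inr (.inl _)))) => jnTask D
  | .inr (.inr (.inr (.inr (.inr j)))) => eTask D hR j

theorem main (κ : Cardinal.{0}) (h1 : κ.IsInaccessible) (h2 : RamseyCard κ) :
    ∃ (M : Type) (E : M → M → Prop), Countable M ∧ WellFounded E ∧ IsZF E ∧ IsDC E ∧
      AllBP E ∧ ¬ (∀ A, IsLM E A) ∧ OmegaOneInacc E := by
  obtain ⟨g, hg⟩ := exists_gmod (D := theSetup κ h1) (mainTask (theSetup κ h1) h2)
  refine ⟨g.M, g.E, g.ctb, g.wf, g.G.toTModel.isZF, isDC_of g (hg (.inl ())),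
    allBP_of g fun j => hg (.inr (.inl j)), ?_, omegaOneInacc h2 g fun j =>
      hg (.inr (.inr (.inr (.inr (.inr j)))))⟩
  exact exists_not_lm g (fun j => hg (.inr (.inr (.inl j))))
    (fun j => hg (.inr (.inr (.inr (.inl j))))) (hg (.inr (.inr (.inr (.inr (.inl ()))))))

end Pool.Agent.Lib.BPLM
end
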